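import Pool.Agent.Lib.L8.QF.Defs
import Pool.Agent.Lib.L1S.QB2
import Pool.Agent.Lib.L1S.LI4
import Pool.Agent.Lib.L8.FC.D8

/-!
# QF, file G0 (helper85): the Galois action on the group `G(L)`

`tG Q s : GK b L →* GK b L` with the matrices `qtau Q s`. Entries: `tG_entry`. It maps `x_i(t)` to `x_(s i)(s t)`, `n_w` to `n_(s w s⁻¹)`, the subgroups `UG h`, `HU`, `HV`, `TK`, the elements over `w` and the cells to the
conjugate ones. The elements of `HQ Q` are fixed; fixed elements of `HU`, `HV` are in `HQ Q`. If `HQ Q` meets the cell of `w` then `w` commutes with the Galois group (`cell_comm`); `J` is then stable for `w = w_J` (`invJ_of`).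
-/

namespace Pool.Agent.Lib.L8.QF

open Matrix NumberField IsDedekindDomain Pool.Agent.Lib.H89N Pool.Agent.Lib.H33W Pool.Agent.Lib.H67G Pool.Agent.Lib.L1S Pool.Agent.Lib.L8.FL

noncomputable section

set_option linter.unusedSectionVars false
set_option linter.unusedVariables false

variable {ι M N : Type} [Fintype ι] [DecidableEq ι] [AddCommGroup M] [Module ℚ M] [AddCommGroup N] [Module ℚ N]
  {P : RootPairing ι ℚ M N} [P.IsCrystallographic] [P.IsReduced] [P.IsIrreducible] [P.IsRootSystem]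
  {b : P.Base}

/-! ## 1. Diagram automorphisms, roots and words -/

section roots

variable {σ : Equiv.Perm ι}

theorem da_pos (hσ : DA b σ) (β : ι) : b.IsPos (σ β) ↔ b.IsPos β := by
  show 0 < b.height (σ β) ↔ 0 < b.height β
  rw [hσ.height]

theorem da_mc (hσ : DA b σ) (k : b.support) (r : I b) : mc b (hσ.sp k) (hσ.pI r) = mc b k r := by
  have h := hσ.wq_pI r k
  rw [← FC.mc_wq, ← FC.mc_wq] at h
  exact_mod_cast h

/-- `σ s_β σ⁻¹ = s_(σ β)`. -/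
theorem da_refl (hσ : DA b σ) (β : ι) : σ * P.reflectionPerm β * σ⁻¹ = P.reflectionPerm (σ β) := by
  ext γ
  have h := hσ.refl β (σ⁻¹ γ)
  have e : σ (σ⁻¹ γ) = γ := σ.apply_symm_apply γ
  rw [e] at h
  exact h

theorem da_WP (hσ : DA b σ) {w : Equiv.Perm ι} (hw : w ∈ WP P) : σ * w * σ⁻¹ ∈ WP P := by
  induction hw using Subgroup.closure_induction with
  | mem x hx =>
    obtain ⟨β, rfl⟩ := hx
    rw [da_refl hσ]
    exact Subgroup.subset_closure ⟨_, rfl⟩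
  | one => rw [mul_one, mul_inv_cancel]; exact one_mem _
  | mul x y _ _ hx hy =>
    have e : σ * (x * y) * σ⁻¹ = (σ * x * σ⁻¹) * (σ * y * σ⁻¹) := by group
    rw [e]
    exact mul_mem hx hy
  | inv x _ hx =>
    have e : σ * x⁻¹ * σ⁻¹ = (σ * x * σ⁻¹)⁻¹ := by group
    rw [e]
    exact inv_mem hx

theorem da_wW (hσ : DA b σ) (l : List b.support) : wW b (l.map hσ.sp) = σ * wW b l * σ⁻¹ := by
  induction l with
  | nil =>
    show 1 = σ * 1 * σ⁻¹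
    rw [mul_one, mul_inv_cancel]
  | cons i l ih =>
    show wW b (l.map hσ.sp) * P.reflectionPerm (hσ.sp i : ι) = σ * (wW b l * P.reflectionPerm (i : ι)) * σ⁻¹
    rw [ih, DA.sp_coe, ← da_refl hσ]
    group

theorem da_RedW (hσ : DA b σ) (l : List b.support) : RedW b (l.map hσ.sp) ↔ RedW b l := by
  induction l with
  | nil => exact Iff.rfl
  | cons i l ih =>
    show (b.IsPos (wW b (l.map hσ.sp) (hσ.sp i : ι)) ∧ RedW b (l.map hσ.sp)) ↔ (b.IsPos (wW b l i) ∧ RedW b l)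
    rw [ih, da_wW]
    have e : (σ * wW b l * σ⁻¹) (hσ.sp i : ι) = σ (wW b l i) := by
      rw [DA.sp_coe]
      show σ (wW b l (σ⁻¹ (σ i))) = _
      have e1 : σ⁻¹ (σ (i : ι)) = i := σ.symm_apply_apply _
      rw [e1]
    rw [e, da_pos hσ]

end roots

variable {K L : Type} [Field K] [NumberField K] [Field L] [NumberField L] [Algebra K L]

theorem act_inv (Q : QS b K L) (s : L ≃ₐ[K] L) : Q.act s⁻¹ = (Q.act s)⁻¹ := map_inv _ _

theorem act_cancel (Q : QS b K L) (s : L ≃ₐ[K] L) (β : ι) : Q.act s⁻¹ (Q.act s β) = β := by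
  rw [act_inv]
  exact (Q.act s).symm_apply_apply β

theorem act_cancel' (Q : QS b K L) (s : L ≃ₐ[K] L) (β : ι) : Q.act s (Q.act s⁻¹ β) = β := by
  rw [act_inv]
  exact (Q.act s).apply_symm_apply β

theorem sp_mul (Q : QS b K L) (s t : L ≃ₐ[K] L) (i : b.support) : (Q.da (s * t)).sp i = (Q.da s).sp ((Q.da t).sp i) := by
  apply Subtype.ext
  show Q.act (s * t) i = Q.act s (Q.act t i)
  rw [map_mul]
  rfl

theorem sp_cancel (Q : QS b K L) (s : L ≃ₐ[K] L) (i : b.support) : (Q.da s⁻¹).sp ((Q.da s).sp i) = i := Subtype.ext (act_cancel Q s i)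

theorem sp_cancel' (Q : QS b K L) (s : L ≃ₐ[K] L) (i : b.support) : (Q.da s).sp ((Q.da s⁻¹).sp i) = i := Subtype.ext (act_cancel' Q s i)

theorem invJ_dJ {Q : QS b K L} {J : Finset b.support} (hJ : InvJ Q J) (s : L ≃ₐ[K] L) (r : I b) : dJ b J ((Q.da s).pI r) = dJ b J r := by
  unfold dJ
  rw [← Finset.sum_equiv (Q.da s).sp (s := J) (t := J) (f := fun j => mc b j r) (g := fun j => mc b j ((Q.da s).pI r)) (fun j => (hJ s j).symm) (fun j _ => (da_mc (Q.da s) j r).symm)]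

/-- If `w = w_J` and `J` is stable then `w` commutes with the Galois group. -/
theorem isWJ_comm {Q : QS b K L} {J : Finset b.support} (hJ : InvJ Q J) {w : Equiv.Perm ι} (hw : IsWJ b J w) (s : L ≃ₐ[K] L) : Q.act s * w * (Q.act s)⁻¹ = w := by
  refine FC.isWJ_unique ⟨da_WP (Q.da s) hw.1, fun β hβ => ?_⟩ hw
  obtain ⟨γ, rfl⟩ : ∃ γ, Q.act s γ = β := ⟨_, act_cancel' Q s β⟩
  have e : (Q.act s * w * (Q.act s)⁻¹) (Q.act s γ) = Q.act s (w γ) := by
    show Q.act s (w ((Q.act s)⁻¹ (Q.act s γ))) = _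
    rw [← act_inv, act_cancel]
  rw [e, da_pos (Q.da s)]
  have h1 := hw.2 γ ((da_pos (Q.da s) γ).1 hβ)
  rw [h1]
  have h2 := invJ_dJ hJ s (Sum.inr γ)
  rw [DA.pI_inr] at h2
  rw [h2]

/-- If `w = w_J` commutes with the Galois group then `J` is stable. -/
theorem invJ_of {Q : QS b K L} {J : Finset b.support} {w : Equiv.Perm ι} (hw : IsWJ b J w) (h : ∀ s, Q.act s * w * (Q.act s)⁻¹ = w) : InvJ Q J := by
  intro s i
  have h1 : ∀ j : b.support, j ∈ J ↔ ¬b.IsPos (w j) := by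
    intro j
    rw [← (FC.W1 hw).2]
    classical
    show j ∈ Js b w⁻¹ ↔ ¬b.IsPos (w j)
    unfold Js
    refine Finset.mem_filter.trans ?_
    exact and_iff_right (Finset.mem_univ _)
  rw [h1, h1]
  have e : w ((Q.da s).sp i : ι) = Q.act s (w i) := by
    conv_lhs => rw [← h s]
    show Q.act s (w ((Q.act s)⁻¹ (Q.act s i))) = _
    rw [← act_inv, act_cancel]
  rw [e, da_pos (Q.da s)]

theorem isCQ_isC {Q : QS b K L} {w : Equiv.Perm ι} (h : IsCQ Q w) : IsC b w := by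
  obtain ⟨J, h1, -, h2⟩ := h
  exact ⟨J, h1, h2⟩

/-! ## 2. The action on the group -/

/-- The action of `s` on `GL(L)`. -/
def tGL (Q : QS b K L) (s : L ≃ₐ[K] L) : GL (I b) L →* GL (I b) L := Units.map (qtau Q s : Matrix (I b) (I b) L →* Matrix (I b) (I b) L)

theorem tGL_val (Q : QS b K L) (s : L ≃ₐ[K] L) (g : GL (I b) L) : (tGL Q s g).1 = qtau Q s g.1 := rfl

theorem qtau_ex (Q : QS b K L) (s : L ≃ₐ[K] L) (X : Matrix (I b) (I b) ℤ) (t : L) : qtau Q s (ex X t) = ex ((Q.da s).cj X) (s t) := by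
  rw [← DA.cj_ex]
  show (Q.da s).cj ((ex X t).map s) = _
  congr 1
  exact ex_map X (s : L →+* L) t

/-- `τ_s x_i(t) = x_(s i)(s t)` for simple roots. -/
theorem tGL_x (Q : QS b K L) (s : L ≃ₐ[K] L) (i : b.support) (t : L) : tGL Q s (xG b (i : ι) t) = xG b ((Q.da s).sp i : ι) (s t) := by
  refine Units.ext ?_
  show qtau Q s (ex (E b i) t) = ex (E b ((Q.da s).sp i : ι)) (s t)
  rw [qtau_ex, E_simple, E_simple, DA.cj_eZ]

theorem tGL_ng (Q : QS b K L) (s : L ≃ₐ[K] L) (i : b.support) (t : L) : tGL Q s (xG b (ng P i) t) = xG b (ng P ((Q.da s).sp i : ι)) (s t) := by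
  refine Units.ext ?_
  show qtau Q s (ex (E b (ng P i)) t) = ex (E b (ng P ((Q.da s).sp i : ι))) (s t)
  rw [qtau_ex, E_neg_simple, E_neg_simple, DA.cj_fZ]

theorem tGL_mem (Q : QS b K L) (s : L ≃ₐ[K] L) {g : GL (I b) L} (hg : g ∈ GQ b L) : tGL Q s g ∈ GQ b L := by
  rw [GQ_eq] at hg ⊢
  induction hg using Subgroup.closure_induction with
  | mem x hx =>
    obtain ⟨i, t, rfl | rfl⟩ := hx
    · rw [tGL_x]
      exact Subgroup.subset_closure ⟨_, _, Or.inl rfl⟩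
    · rw [tGL_ng]
      exact Subgroup.subset_closure ⟨_, _, Or.inr rfl⟩
  | one => rw [map_one]; exact one_mem _
  | mul x y _ _ hx hy => rw [map_mul]; exact mul_mem hx hy
  | inv x _ hx => rw [map_inv]; exact inv_mem hx

/-- **The Galois action** on `G(L)`. -/
def tG (Q : QS b K L) (s : L ≃ₐ[K] L) : GK b L →* GK b L where
  toFun g := ⟨tGL Q s g.1, tGL_mem Q s g.2⟩
  map_one' := Subtype.ext (map_one _)
  map_mul' g h := Subtype.ext (map_mul _ _ _)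

theorem tG_val (Q : QS b K L) (s : L ≃ₐ[K] L) (g : GK b L) : (tG Q s g).1.1 = qtau Q s g.1.1 := rfl

theorem tG_inv_val (Q : QS b K L) (s : L ≃ₐ[K] L) (g : GK b L) : (tG Q s g)⁻¹.1.1 = qtau Q s g⁻¹.1.1 := by
  rw [← map_inv]
  rfl

theorem tG_entry (Q : QS b K L) (s : L ≃ₐ[K] L) (g : GK b L) (r c : I b) : (tG Q s g).1.1 ((Q.da s).pI r) ((Q.da s).pI c) = s (g.1.1 r c) := qtau_apply Q s _ r c

theorem tG_inv_entry (Q : QS b K L) (s : L ≃ₐ[K] L) (g : GK b L) (r c : I b) : (tG Q s g)⁻¹.1.1 ((Q.da s).pI r) ((Q.da s).pI c) = s (g⁻¹.1.1 r c) := by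
  rw [tG_inv_val]
  exact qtau_apply Q s _ r c

theorem tG_mul (Q : QS b K L) (s t : L ≃ₐ[K] L) (g : GK b L) : tG Q (s * t) g = tG Q s (tG Q t g) := Subtype.ext (Units.ext (qtau_mul Q s t _))

theorem tG_one (Q : QS b K L) (g : GK b L) : tG Q 1 g = g := Subtype.ext (Units.ext ((tauM_semi Q.act Q.da).one _))

theorem tG_cancel (Q : QS b K L) (s : L ≃ₐ[K] L) (g : GK b L) : tG Q s⁻¹ (tG Q s g) = g := by rw [← tG_mul, inv_mul_cancel, tG_one]

theorem tG_cancel' (Q : QS b K L) (s : L ≃ₐ[K] L) (g : GK b L) : tG Q s (tG Q s⁻¹ g) = g := by rw [← tG_mul, mul_inv_cancel, tG_one]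

theorem tG_inj (Q : QS b K L) (s : L ≃ₐ[K] L) : Function.Injective (tG Q s) := fun g h e => by rw [← tG_cancel Q s g, e, tG_cancel]

/-- The elements of `HQ Q` are fixed. -/
theorem tG_fix (Q : QS b K L) (s : L ≃ₐ[K] L) {g : GK b L} (hg : g ∈ HQ Q) : tG Q s g = g := Subtype.ext (Units.ext ((Fx_iff Q _).1 (HQ_fx Q hg).1 s))

theorem fx_of_tG (Q : QS b K L) {g : GK b L} (h : ∀ s, tG Q s g = g) : Fx Q g.1.1 := (Fx_iff Q _).2 fun s => by rw [← tG_val, h s]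

theorem tG_b1x (Q : QS b K L) (s : L ≃ₐ[K] L) (i : b.support) (t : L) : tG Q s (b1x b L (i : ι) t) = b1x b L ((Q.da s).sp i : ι) (s t) := Subtype.ext (tGL_x Q s i t)

theorem tG_b1x_ng (Q : QS b K L) (s : L ≃ₐ[K] L) (i : b.support) (t : L) : tG Q s (b1x b L (ng P i) t) = b1x b L (ng P ((Q.da s).sp i : ι)) (s t) := Subtype.ext (tGL_ng Q s i t)

/-- For a general root: up to a sign. -/
theorem tG_b1x_gen (Q : QS b K L) (s : L ≃ₐ[K] L) (β : ι) : ∃ ε : ℤ, (ε = 1 ∨ ε = -1) ∧ ∀ t : L, tG Q s (b1x b L β t) = b1x b L (Q.act s β) ((ε : L) * s t) := by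
  obtain ⟨ε, hε, e⟩ := (Q.da s).cj_E β
  refine ⟨ε, hε, fun t => Subtype.ext (Units.ext ?_)⟩
  show qtau Q s (ex (E b β) t) = ex (E b (Q.act s β)) ((ε : L) * s t)
  rw [qtau_ex, e, DP.ex_smul hε (DP_E b (Q.act s β))]

/-- The action on the units of `L`. -/
def sU (s : L ≃ₐ[K] L) (t : Lˣ) : Lˣ := Units.map (s : L →* L) t

theorem tG_b1m (Q : QS b K L) (s : L ≃ₐ[K] L) (i : b.support) (t : Lˣ) : tG Q s (b1m b L i t) = b1m b L ((Q.da s).sp i) (sU s t) := by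
  refine Subtype.ext ?_
  show tGL Q s (mG b i t) = mG b ((Q.da s).sp i) (sU s t)
  unfold mG
  rw [map_mul, map_mul, tGL_x, tGL_ng, map_neg]
  have e1 : ((sU s t : Lˣ) : L) = s t := rfl
  have e2 : (((sU s t)⁻¹ : Lˣ) : L) = s ((t⁻¹ : Lˣ) : L) := by
    unfold sU
    rw [← map_inv]
    rfl
  rw [e1, e2]

theorem tG_nW (Q : QS b K L) (s : L ≃ₐ[K] L) (l : List b.support) : tG Q s (nW b L l) = nW b L (l.map (Q.da s).sp) := by
  induction l with
  | nil => exact map_one _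
  | cons i l ih =>
    show tG Q s (nW b L l * b1m b L i 1) = nW b L (l.map (Q.da s).sp) * b1m b L ((Q.da s).sp i) 1
    rw [map_mul, ih, tG_b1m]
    congr 2
    exact map_one _

/-! ## 3. Subgroups -/

theorem one_pI (Q : QS b K L) (s : L ≃ₐ[K] L) (r c : I b) : (1 : Matrix (I b) (I b) L) ((Q.da s).pI r) ((Q.da s).pI c) = s ((1 : Matrix (I b) (I b) L) r c) := by
  by_cases h : r = c
  · rw [h, Matrix.one_apply_eq, Matrix.one_apply_eq, map_one]
  · rw [Matrix.one_apply_ne h, Matrix.one_apply_ne fun e => h ((Q.da s).pI.injective e), map_zero]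

/-- Conditions on entries. -/
theorem tG_ent (Q : QS b K L) (s : L ≃ₐ[K] L) (g : GK b L) {p p' : I b → I b → Prop} (hp : ∀ r c, p ((Q.da s).pI r) ((Q.da s).pI c) ↔ p' r c) {X : Matrix (I b) (I b) L}
    (hX : ∀ r c, X ((Q.da s).pI r) ((Q.da s).pI c) = s (X r c)) :
    (∀ r c, p r c → (tG Q s g).1.1 r c = X r c ∧ (tG Q s g)⁻¹.1.1 r c = X r c) ↔ ∀ r c, p' r c → g.1.1 r c = X r c ∧ g⁻¹.1.1 r c = X r c := by
  constructor
  · intro h r c hrc
    have h1 := h _ _ ((hp r c).2 hrc)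
    rw [tG_entry, tG_inv_entry, hX] at h1
    exact ⟨s.injective h1.1, s.injective h1.2⟩
  · intro h r c hrc
    obtain ⟨r, rfl⟩ := (Q.da s).pI.surjective r
    obtain ⟨c, rfl⟩ := (Q.da s).pI.surjective c
    have h1 := h r c ((hp r c).1 hrc)
    rw [tG_entry, tG_inv_entry, hX, h1.1, h1.2]
    exact ⟨rfl, rfl⟩

theorem tG_UG (Q : QS b K L) (s : L ≃ₐ[K] L) (g : GK b L) {h h' : I b → ℤ} (hh : ∀ r, h ((Q.da s).pI r) = h' r) : tG Q s g ∈ UG b L h ↔ g ∈ UG b L h' :=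
  tG_ent Q s g (p := fun r c => h r ≤ h c) (p' := fun r c => h' r ≤ h' c) (fun r c => by rw [hh, hh]) (one_pI Q s)

theorem tG_HU (Q : QS b K L) (s : L ≃ₐ[K] L) (g : GK b L) : tG Q s g ∈ HU b L ↔ g ∈ HU b L := by
  rw [mem_HU, mem_HU]
  exact tG_ent Q s g (p := fun r c => ht b r ≤ ht b c) (p' := fun r c => ht b r ≤ ht b c) (fun r c => by rw [DA.ht_pI, DA.ht_pI]) (one_pI Q s)

theorem tG_HV (Q : QS b K L) (s : L ≃ₐ[K] L) (g : GK b L) : tG Q s g ∈ HV b L ↔ g ∈ HV b L := tG_UG Q s g fun r => by rw [DA.ht_pI]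

theorem tG_TK (Q : QS b K L) (s : L ≃ₐ[K] L) (g : GK b L) : tG Q s g ∈ TK b L ↔ g ∈ TK b L :=
  tG_ent Q s g (p := fun r c => r ≠ c) (p' := fun r c => r ≠ c) (fun r c => not_congr (Q.da s).pI.injective.eq_iff) (X := 0) (fun r c => (map_zero s).symm)

theorem tG_NJ (Q : QS b K L) (s : L ≃ₐ[K] L) {J : Finset b.support} (hJ : InvJ Q J) (g : GK b L) : tG Q s g ∈ NJ b L J ↔ g ∈ NJ b L J := by
  unfold NJ
  rw [Subgroup.mem_inf, Subgroup.mem_inf, tG_HU, tG_UG Q s g (h' := dJ b J) (invJ_dJ hJ s)]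

theorem tG_Uw (Q : QS b K L) (s : L ≃ₐ[K] L) (l : List b.support) (g : GK b L) : tG Q s g ∈ Uw b L (l.map (Q.da s).sp) ↔ g ∈ Uw b L l := by
  unfold Uw
  rw [Subgroup.mem_inf, Subgroup.mem_inf, tG_HU]
  refine and_congr_right fun _ => ?_
  rw [Subgroup.mem_comap, Subgroup.mem_comap]
  show nW b L (l.map (Q.da s).sp) * tG Q s g * (nW b L (l.map (Q.da s).sp))⁻¹ ∈ HV b L ↔ nW b L l * g * (nW b L l)⁻¹ ∈ HV b L
  rw [← tG_nW, ← map_inv, ← map_mul, ← map_mul, tG_HV]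

/-- The value of a simple root. -/
theorem tG_tv (Q : QS b K L) (s : L ≃ₐ[K] L) (t : GK b L) (i : b.support) : tv b L (tG Q s t) ((Q.da s).sp i) = s (tv b L t i) := tG_entry Q s t (Sum.inr (i : ι)) (Sum.inr (i : ι))

/-- Elements over `w`. -/
theorem tG_IsN (Q : QS b K L) (s : L ≃ₐ[K] L) {w : Equiv.Perm ι} {n : GK b L} (hn : IsN b L w n) : IsN b L (Q.act s * w * (Q.act s)⁻¹) (tG Q s n) := by
  have hw : ∀ γ, (Q.act s * w * (Q.act s)⁻¹) (Q.act s γ) = Q.act s (w γ) := fun γ => by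
    show Q.act s (w ((Q.act s)⁻¹ (Q.act s γ))) = _
    rw [← act_inv, act_cancel]
  refine ⟨da_WP (Q.da s) hn.mem, fun r j hr => ?_, fun r β hr => ?_, fun β => ?_⟩
  · obtain ⟨r, rfl⟩ := (Q.da s).pI.surjective r
    obtain ⟨j, rfl⟩ := (Q.da s).sp.surjective j
    have e : (tG Q s n).1.1 ((Q.da s).pI r) (Sum.inl ((Q.da s).sp j)) = s (n.1.1 r (Sum.inl j)) := tG_entry Q s n r (Sum.inl j)
    rw [e] at hr
    obtain ⟨i, rfl⟩ := hn.v0 r j fun h => hr (by rw [h, map_zero])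
    exact ⟨_, DA.pI_inl _ _⟩
  · obtain ⟨r, rfl⟩ := (Q.da s).pI.surjective r
    obtain ⟨β, rfl⟩ : ∃ γ, Q.act s γ = β := ⟨_, act_cancel' Q s β⟩
    have e : (tG Q s n).1.1 ((Q.da s).pI r) (Sum.inr (Q.act s β)) = s (n.1.1 r (Sum.inr β)) := tG_entry Q s n r (Sum.inr β)
    rw [e] at hr
    rw [hn.vr r β fun h => hr (by rw [h, map_zero]), hw]
    exact DA.pI_inr _ _
  · obtain ⟨β, rfl⟩ : ∃ γ, Q.act s γ = β := ⟨_, act_cancel' Q s β⟩
    obtain ⟨c, hc, e⟩ := hn.rt β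
    have h1 : qtau Q s (n.1.1 * toA L (E b β)) = qtau Q s (c • toA L (E b (w β)) * n.1.1) := by rw [e]
    have hsm : ∀ (a : L) (X : Matrix (I b) (I b) L), qtau Q s (a • X) = s a • qtau Q s X := fun a X => (tauM_semi Q.act Q.da).smul s a X
    have hE : ∀ γ, qtau Q s (toA L (E b γ)) = ((eps Q.act Q.da s γ : ℤ) : L) • toA L (E b (Q.act s γ)) := fun γ => tauM_E Q.act Q.da s γ
    have hε : ∀ γ, ((eps Q.act Q.da s γ : ℤ) : L) * ((eps Q.act Q.da s γ : ℤ) : L) = 1 := fun γ => by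
      rcases eps_or Q.act Q.da s γ with h | h <;> rw [h] <;> norm_num
    have hε0 : ∀ γ, ((eps Q.act Q.da s γ : ℤ) : L) ≠ 0 := fun γ => left_ne_zero_of_mul (hε γ ▸ one_ne_zero)
    rw [map_mul, map_mul, hsm, hE, hE, Matrix.mul_smul, ← tG_val] at h1
    rw [hw]
    refine ⟨((eps Q.act Q.da s β : ℤ) : L) * (s c * ((eps Q.act Q.da s (w β) : ℤ) : L)), mul_ne_zero (hε0 β) (mul_ne_zero ((map_ne_zero s).2 hc) (hε0 _)), ?_⟩
    calc (tG Q s n).1.1 * toA L (E b (Q.act s β)) = (((eps Q.act Q.da s β : ℤ) : L) * ((eps Q.act Q.da s β : ℤ) : L)) • ((tG Q s n).1.1 * toA L (E b (Q.act s β))) := by rw [hε, one_smul]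
      _ = ((eps Q.act Q.da s β : ℤ) : L) • (((eps Q.act Q.da s β : ℤ) : L) • ((tG Q s n).1.1 * toA L (E b (Q.act s β)))) := by rw [smul_smul]
      _ = _ := by rw [h1, ← Matrix.smul_mul, smul_smul, smul_smul, mul_assoc]

theorem tG_cell (Q : QS b K L) (s : L ≃ₐ[K] L) {w : Equiv.Perm ι} {g : GK b L} (hg : g ∈ cell b L w) : tG Q s g ∈ cell b L (Q.act s * w * (Q.act s)⁻¹) := by
  obtain ⟨u, hu, n, hn, v, hv, rfl⟩ := hg
  exact ⟨tG Q s u, (tG_HU Q s u).2 hu, tG Q s n, tG_IsN Q s hn, tG Q s v, (tG_HU Q s v).2 hv, by rw [map_mul, map_mul]⟩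

/-- **If `HQ Q` meets the cell of `w` then `w` commutes with the Galois group.** -/
theorem cell_comm (Q : QS b K L) {w : Equiv.Perm ι} {g : GK b L} (hg : g ∈ HQ Q) (hc : g ∈ cell b L w) (s : L ≃ₐ[K] L) : Q.act s * w * (Q.act s)⁻¹ = w := by
  have h := tG_cell Q s hc
  rw [tG_fix Q s hg] at h
  exact FC.cell_disj h hc

/-! ## 4. Elements of `HQ Q` -/

theorem mem_HQ_U (Q : QS b K L) {u : GK b L} (hu : u ∈ HU b L) (h : ∀ s, tG Q s u = u) : u ∈ HQ Q :=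
  Subgroup.subset_closure ⟨fx_of_tG Q h, Or.inl fun r c hrc => (((mem_HU b L u).1 hu) r c hrc).1⟩

theorem mem_HQ_V (Q : QS b K L) {u : GK b L} (hu : u ∈ HV b L) (h : ∀ s, tG Q s u = u) : u ∈ HQ Q :=
  Subgroup.subset_closure ⟨fx_of_tG Q h, Or.inr fun r c hrc => (hu r c (neg_le_neg hrc)).1⟩

/-- **The dichotomy** for `HQ Q`: the exceptional cells are the `w_J` with `J` stable. -/
theorem W2Q (Q : QS b K L) {𝔫 : Ideal (𝓞 K)} {v : HeightOneSpectrum (𝓞 K)} {r s : ℕ} {θ : b.support → (EE L →ₗ[ℝ] ℝ)} (hθ : GenQ Q 𝔫 v r s θ) (γ : HQ Q) :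
    γ ∈ HUH (HQ Q) ∨ AltH (HQ Q) θ γ ∨ ∃ w, IsCQ Q w ∧ γ.1 ∈ cell b L w := by
  rcases FC.W2 Q hθ γ with h | h | ⟨J, h1, w, h2, h3⟩
  · exact Or.inl h
  · exact Or.inr (Or.inl h)
  · exact Or.inr (Or.inr ⟨w, ⟨J, h1, invJ_of h2 fun s => cell_comm Q γ.2 h3 s, h2⟩, h3⟩)

/-- The relevant cells are stable under `w ↦ w⁻¹`. -/
theorem isCQ_inv {Q : QS b K L} {w : Equiv.Perm ι} (h : IsCQ Q w) : IsCQ Q w⁻¹ := by
  obtain ⟨J, h1, h2, h3⟩ := h
  have h4 := (FC.W1 h3).1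
  have h5 : ∀ s, Q.act s * w⁻¹ * (Q.act s)⁻¹ = w⁻¹ := fun s => by
    have e : Q.act s * w⁻¹ * (Q.act s)⁻¹ = (Q.act s * w * (Q.act s)⁻¹)⁻¹ := by group
    rw [e, isWJ_comm h2 h3 s]
  refine ⟨Js b w, ?_, invJ_of h4 h5, h4⟩
  by_contra hne
  rw [Finset.not_nonempty_iff_eq_empty] at hne
  have h6 : IsWJ b (∅ : Finset b.support) w⁻¹ := hne ▸ h4
  have h7 : IsWJ b (∅ : Finset b.support) (1 : Equiv.Perm ι) := ⟨one_mem _, fun β hβ => ⟨fun _ => by simp [dJ], fun _ => hβ⟩⟩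
  exact FC.isWJ_ne_one h1 h3 (inv_eq_one.1 (FC.isWJ_unique h6 h7))

end

end Pool.Agent.Lib.L8.QF
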