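import Pool.Agent.Lib.L8.QF.G0
import Pool.Agent.Lib.H29Q.GC4
import Pool.Agent.Lib.L8.FC.D4

/-!
# QF, C2 (helper21): relative words

`wordQ`: for a stable set `J` the element `w_J` has a reduced word of the form `rw Q l`.
-/

namespace Pool.Agent.Lib.L8.QF

open Matrix Pool.Agent.Lib.L1S Pool.Agent.Lib.L8.FL Pool.Agent.Lib.H29Q

noncomputable section

set_option linter.unusedSectionVars false
set_option linter.unusedVariables false

variable {ι M N : Type} [Fintype ι] [DecidableEq ι] [AddCommGroup M] [Module ℚ M] [AddCommGroup N] [Module ℚ N]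
  {P : RootPairing ι ℚ M N} [P.IsCrystallographic] [P.IsReduced] [P.IsIrreducible] [P.IsRootSystem]
  {b : P.Base} {K L : Type} [Field K] [NumberField K] [Field L] [NumberField L] [Algebra K L]

/-! ## 1. The longest element of an orbit -/

theorem c2_root_refl (k β : ι) : P.root (P.reflectionPerm k β) = P.root β - (P.pairingIn ℤ β k : ℚ) • P.root k := by
  rw [P.root_reflectionPerm, P.reflection_apply_root, ← P.algebraMap_pairingIn ℤ]
  rfl

/-- Pairings of a reflected root. -/
theorem c2_pair_refl (k β l : ι) : P.pairingIn ℤ (P.reflectionPerm k β) l = P.pairingIn ℤ β l - P.pairingIn ℤ β k * P.pairingIn ℤ k l := by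
  have h1 : ((P.pairingIn ℤ (P.reflectionPerm k β) l : ℤ) : ℚ) = ((P.pairingIn ℤ β l - P.pairingIn ℤ β k * P.pairingIn ℤ k l : ℤ) : ℚ) := by
    push_cast
    have e : ∀ a c : ι, ((P.pairingIn ℤ a c : ℤ) : ℚ) = P.coroot' c (P.root a) := by
      intro a c
      rw [P.root_coroot'_eq_pairing, ← P.algebraMap_pairingIn ℤ]
      rfl
    rw [e (P.reflectionPerm k β) l, c2_root_refl, map_sub, map_smul, smul_eq_mul, ← e, ← e]
  exact_mod_cast h1

/-- The action of a word of orthogonal roots. -/
theorem c2_orth_root {A : List b.support} (hn : A.Nodup) (ho : ∀ j ∈ A, ∀ k ∈ A, j ≠ k → P.pairingIn ℤ (j : ι) (k : ι) = 0) (β : ι) :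
    P.root (wW b A β) = P.root β - ∑ k ∈ A.toFinset, (P.pairingIn ℤ β (k : ι) : ℚ) • P.root (k : ι) := by
  induction A generalizing β with
  | nil => simp [wW]
  | cons i A ih =>
    rw [List.nodup_cons] at hn
    have h1 := ih hn.2 (fun j hj k hk => ho j (List.mem_cons_of_mem _ hj) k (List.mem_cons_of_mem _ hk)) (P.reflectionPerm (i : ι) β)
    have e : wW b (i :: A) β = wW b A (P.reflectionPerm (i : ι) β) := rfl
    rw [e, h1, List.toFinset_cons, Finset.sum_insert (fun h => hn.1 (List.mem_toFinset.1 h)), c2_root_refl, sub_sub]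
    congr 2
    refine Finset.sum_congr rfl fun k hk => ?_
    have hk' := List.mem_toFinset.1 hk
    have hik : i ≠ k := fun h => hn.1 (h ▸ hk')
    rw [c2_pair_refl, ho i List.mem_cons_self k (List.mem_cons_of_mem _ hk') hik, mul_zero, sub_zero]

/-- The action of `s_i s_j s_i` for adjacent roots. -/
theorem c2_adj_root {i j : b.support} (h1 : P.pairingIn ℤ (i : ι) (j : ι) = -1) (h2 : P.pairingIn ℤ (j : ι) (i : ι) = -1) (β : ι) :
    P.root (wW b [i, j, i] β) = P.root β - ((P.pairingIn ℤ β (i : ι) : ℚ) + (P.pairingIn ℤ β (j : ι) : ℚ)) • (P.root (i : ι) + P.root (j : ι)) := by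
  have e : wW b [i, j, i] β = P.reflectionPerm (i : ι) (P.reflectionPerm (j : ι) (P.reflectionPerm (i : ι) β)) := rfl
  have e1 : P.pairingIn ℤ (P.reflectionPerm (i : ι) β) (j : ι) = P.pairingIn ℤ β (j : ι) + P.pairingIn ℤ β (i : ι) := by
    rw [c2_pair_refl, h1]
    ring
  have e2 : P.pairingIn ℤ (P.reflectionPerm (i : ι) β) (i : ι) = -P.pairingIn ℤ β (i : ι) := by
    rw [c2_pair_refl, P.pairingIn_same]
    ring
  have e3 : P.pairingIn ℤ (P.reflectionPerm (j : ι) (P.reflectionPerm (i : ι) β)) (i : ι) = P.pairingIn ℤ β (j : ι) := by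
    rw [c2_pair_refl, e2, e1, h2]
    ring
  rw [e, c2_root_refl, e3, c2_root_refl, e1, c2_root_refl]
  push_cast
  module

theorem c2_root_ng (β : ι) : P.root (ng P β) = -P.root β := FC.fc_ng_root β

/-- **`w_O` makes the orbit negative.** -/
theorem c2_neg (Q : QS b K L) (i : b.support) {j : b.support} (hj : j ∈ orb Q i) : ∃ j' ∈ orb Q i, wW b (ow Q i) (ng P (j' : ι)) = j := by
  by_cases h : ∃ j ∈ orb Q i, j ≠ i ∧ b.cartanMatrix i j ≠ 0
  · obtain ⟨k, hk, hO, hw, h1, h2⟩ := ow_adj h
    rw [hO] at hj ⊢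
    rw [hw]
    have e1 : ∀ a c : b.support, P.pairingIn ℤ (a : ι) (c : ι) = -1 → P.pairingIn ℤ (c : ι) (a : ι) = -1 → wW b [a, c, a] (ng P (a : ι)) = c := by
      intro a c h3 h4
      apply P.root.injective
      have h5 : ∀ l : ι, P.pairingIn ℤ (ng P (a : ι)) l = -P.pairingIn ℤ (a : ι) l := by
        intro l
        have := c2_pair_refl (P := P) (a : ι) (a : ι) l
        rw [P.pairingIn_same] at this
        change P.pairingIn ℤ (P.reflectionPerm (a : ι) (a : ι)) l = _
        rw [this]
        ring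
      rw [c2_adj_root h3 h4, c2_root_ng, h5, h5, P.pairingIn_same, h3]
      push_cast
      module
    have e2 : ∀ a c : b.support, P.pairingIn ℤ (a : ι) (c : ι) = -1 → P.pairingIn ℤ (c : ι) (a : ι) = -1 → wW b [a, c, a] (ng P (c : ι)) = a := by
      intro a c h3 h4
      apply P.root.injective
      have h5 : ∀ l : ι, P.pairingIn ℤ (ng P (c : ι)) l = -P.pairingIn ℤ (c : ι) l := by
        intro l
        have := c2_pair_refl (P := P) (c : ι) (c : ι) l
        rw [P.pairingIn_same] at this
        change P.pairingIn ℤ (P.reflectionPerm (c : ι) (c : ι)) l = _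
        rw [this]
        ring
      rw [c2_adj_root h3 h4, c2_root_ng, h5, h5, P.pairingIn_same, h4]
      push_cast
      module
    rcases Finset.mem_insert.1 hj with hj | hj
    · subst hj
      exact ⟨k, by simp, e2 j k h1 h2⟩
    · rw [Finset.mem_singleton] at hj
      subst hj
      exact ⟨i, by simp, e1 i j h1 h2⟩
  · refine ⟨j, hj, ?_⟩
    rw [ow_orth h]
    have hn : (orb Q i).toList.Nodup := Finset.nodup_toList _
    apply P.root.injective
    rw [c2_orth_root hn (fun a ha c hc hac => orth_pair h (Finset.mem_toList.1 ha) (Finset.mem_toList.1 hc) hac), Finset.toList_toFinset, Finset.sum_eq_single j]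
    · have h5 : P.pairingIn ℤ (ng P (j : ι)) (j : ι) = -2 := by
        have := c2_pair_refl (P := P) (j : ι) (j : ι) (j : ι)
        rw [P.pairingIn_same] at this
        change P.pairingIn ℤ (P.reflectionPerm (j : ι) (j : ι)) (j : ι) = _
        rw [this]
        ring
      rw [h5, c2_root_ng]
      push_cast
      module
    · intro k hk hkj
      have h5 : P.pairingIn ℤ (ng P (j : ι)) (k : ι) = 0 := by
        have := c2_pair_refl (P := P) (j : ι) (j : ι) (k : ι)
        rw [orth_pair h hj hk (Ne.symm hkj), mul_zero, sub_zero] at this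
        exact this
      rw [h5]
      simp
    · intro h'
      exact absurd hj h'

/-- Members of the orbit. -/
theorem c2_orb_sp (Q : QS b K L) (i : b.support) (s : L ≃ₐ[K] L) {j : b.support} (hj : j ∈ orb Q i) : (Q.da s).sp j ∈ orb Q i := by
  unfold orb at hj ⊢
  rw [Finset.mem_filter] at hj ⊢
  obtain ⟨-, t, rfl⟩ := hj
  exact ⟨Finset.mem_univ _, s * t, sp_mul Q s t i⟩

theorem c2_orb_self (Q : QS b K L) (i : b.support) : i ∈ orb Q i := by
  unfold orb
  rw [Finset.mem_filter]
  refine ⟨Finset.mem_univ _, 1, ?_⟩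
  have h := sp_cancel Q (1 : L ≃ₐ[K] L) i
  have h2 := sp_mul Q (1 : L ≃ₐ[K] L)⁻¹ 1 i
  rw [inv_mul_cancel] at h2
  rw [h2, h]

/-- **`w_O` commutes with the Galois group.** -/
theorem c2_comm (Q : QS b K L) (i : b.support) (s : L ≃ₐ[K] L) : Q.act s * wW b (ow Q i) * (Q.act s)⁻¹ = wW b (ow Q i) := by
  rw [← da_wW (Q.da s)]
  by_cases h : ∃ j ∈ orb Q i, j ≠ i ∧ b.cartanMatrix i j ≠ 0
  · obtain ⟨k, hk, hO, hw, h1, h2⟩ := ow_adj h
    rw [hw]
    have hi : (Q.da s).sp i ∈ orb Q i := c2_orb_sp Q i s (c2_orb_self Q i)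
    have hk' : (Q.da s).sp k ∈ orb Q i := c2_orb_sp Q i s (by rw [hO]; simp)
    rw [hO, Finset.mem_insert, Finset.mem_singleton] at hi hk'
    have hne : (Q.da s).sp i ≠ (Q.da s).sp k := by
      intro he
      have h3 := sp_cancel Q s i
      rw [he, sp_cancel] at h3
      exact hk h3
    have e : ([i, k, i].map (Q.da s).sp) = [(Q.da s).sp i, (Q.da s).sp k, (Q.da s).sp i] := rfl
    rw [e]
    rcases hi with hi | hi
    · rcases hk' with hk' | hk'
      · exact absurd (hi.trans hk'.symm) hne
      · rw [hi, hk']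
    · rcases hk' with hk' | hk'
      · rw [hi, hk']
        refine Equiv.ext fun β => P.root.injective ?_
        rw [c2_adj_root h2 h1, c2_adj_root h1 h2, add_comm (P.root (k : ι)), add_comm (P.pairingIn ℤ β (k : ι) : ℚ)]
      · exact absurd (hi.trans hk'.symm) hne
  · rw [ow_orth h]
    have hn : (orb Q i).toList.Nodup := Finset.nodup_toList _
    have hinj : Function.Injective (Q.da s).sp := fun a c hac => by
      have h3 := sp_cancel Q s a
      rw [hac, sp_cancel] at h3
      exact h3.symm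
    have hn' : ((orb Q i).toList.map (Q.da s).sp).Nodup := hn.map hinj
    have ho : ∀ j ∈ (orb Q i).toList, ∀ k ∈ (orb Q i).toList, j ≠ k → P.pairingIn ℤ (j : ι) (k : ι) = 0 := fun a ha c hc hac => orth_pair h (Finset.mem_toList.1 ha) (Finset.mem_toList.1 hc) hac
    have hmem : ∀ j, j ∈ (orb Q i).toList.map (Q.da s).sp ↔ j ∈ orb Q i := by
      intro j
      rw [List.mem_map]
      constructor
      · rintro ⟨a, ha, rfl⟩
        exact c2_orb_sp Q i s (Finset.mem_toList.1 ha)
      · intro hj
        exact ⟨(Q.da s⁻¹).sp j, Finset.mem_toList.2 (c2_orb_sp Q i s⁻¹ hj), sp_cancel' Q s j⟩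
    refine Equiv.ext fun β => P.root.injective ?_
    rw [c2_orth_root hn' (fun a ha c hc hac => orth_pair h ((hmem a).1 ha) ((hmem c).1 hc) hac), c2_orth_root hn ho, Finset.toList_toFinset]
    congr 2
    ext j
    rw [List.mem_toFinset, hmem]

/-! ## 2. Reducedness -/

theorem c2_pos_add {w : Equiv.Perm ι} (hw : w ∈ WP P) {β γ δ : ι} (h : P.root δ = P.root β + P.root γ) (h1 : b.IsPos (w β)) (h2 : b.IsPos (w γ)) : b.IsPos (w δ) := by
  obtain ⟨φ, hφ⟩ := b2_lin hw
  refine RootPairing.Base.IsPos.add h1 h2 ?_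
  rw [← hφ, ← hφ, ← hφ, h, map_add]

theorem c2_red_orth {A B : List b.support} (hn : A.Nodup) (ho : ∀ j ∈ A, ∀ k ∈ A, j ≠ k → P.pairingIn ℤ (j : ι) (k : ι) = 0) (hB : RedW b B) (hp : ∀ j ∈ A, b.IsPos (wW b B (j : ι))) : RedW b (A ++ B) := by
  induction A with
  | nil => exact hB
  | cons i A ih =>
    rw [List.nodup_cons] at hn
    refine ⟨?_, ih hn.2 (fun j hj k hk => ho j (List.mem_cons_of_mem _ hj) k (List.mem_cons_of_mem _ hk)) fun j hj => hp j (List.mem_cons_of_mem _ hj)⟩
    have e : wW b (A ++ B) (i : ι) = wW b B (wW b A (i : ι)) := by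
      rw [FC.wW_append]
      rfl
    show b.IsPos (wW b (A ++ B) (i : ι))
    have hki : ∀ k ∈ A, k ≠ i := fun k hk h => hn.1 (by rw [← h]; exact hk)
    rw [e, wW_orth (j := i) fun k hk => ⟨hki k hk, ho i List.mem_cons_self k (List.mem_cons_of_mem _ hk) (hki k hk).symm⟩]
    exact hp i List.mem_cons_self

/-- **A word of an orbit in front of a reduced word.** -/
theorem c2_red (Q : QS b K L) (i : b.support) {B : List b.support} (hB : RedW b B) (hp : ∀ j ∈ orb Q i, b.IsPos (wW b B (j : ι))) : RedW b (ow Q i ++ B) := by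
  by_cases h : ∃ j ∈ orb Q i, j ≠ i ∧ b.cartanMatrix i j ≠ 0
  · obtain ⟨k, hk, hO, hw, h1, h2⟩ := ow_adj h
    rw [hw]
    have hi := hp i (by rw [hO]; simp)
    have hk' := hp k (by rw [hO]; simp)
    have hWB := FC.wW_mem b B
    have e1 : P.root (P.reflectionPerm (i : ι) (k : ι)) = P.root (i : ι) + P.root (k : ι) := by
      rw [c2_root_refl, h2]
      push_cast
      module
    have e2 : P.reflectionPerm (i : ι) (P.reflectionPerm (k : ι) (i : ι)) = k := by
      apply P.root.injective
      have e3 : P.pairingIn ℤ (P.reflectionPerm (k : ι) (i : ι)) (i : ι) = 1 := by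
        rw [c2_pair_refl, P.pairingIn_same, h1, h2]
        norm_num
      rw [c2_root_refl, e3, c2_root_refl, h1]
      push_cast
      module
    refine ⟨?_, ?_, hi, hB⟩
    · show b.IsPos (wW b B (P.reflectionPerm (i : ι) (P.reflectionPerm (k : ι) (i : ι))))
      rw [e2]
      exact hk'
    · show b.IsPos (wW b B (P.reflectionPerm (i : ι) (k : ι)))
      exact c2_pos_add hWB e1 hi hk'
  · rw [ow_orth h]
    exact c2_red_orth (Finset.nodup_toList _) (fun a ha c hc hac => orth_pair h (Finset.mem_toList.1 ha) (Finset.mem_toList.1 hc) hac) hB fun j hj => hp j (Finset.mem_toList.1 hj)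

/-! ## 3. Relative words -/

theorem c2_length {B : List b.support} (h : RedW b B) : (FC.Iv b (wW b B)).card = B.length := by
  have h1 := (FC.RedW_eq b B).1 h
  unfold FC.Red at h1
  rw [FC.wW_eq, h1, List.length_reverse]

/-- **Every element of the Weyl group which commutes with the Galois group has a relative reduced word.** -/
theorem c2_word (Q : QS b K L) : ∀ (n : ℕ) {w : Equiv.Perm ι}, w ∈ WP P → (∀ s, Q.act s * w * (Q.act s)⁻¹ = w) → (FC.Iv b w).card = n → ∃ l, RedW b (rw Q l) ∧ wW b (rw Q l) = w := by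
  intro n
  induction n using Nat.strong_induction_on with
  | _ n ih =>
    intro w hw hc hn
    obtain ⟨A, hA, hAw⟩ := FC.RedW_exists b hw
    cases A with
    | nil => exact ⟨[], trivial, hAw⟩
    | cons i A =>
      have hi : ¬b.IsPos (w (i : ι)) := by
        have h1 := hA.1
        have e : wW b (i :: A) (i : ι) = wW b A (ng P (i : ι)) := rfl
        rw [← hAw, e, FC.fc_ng_w (FC.wW_mem b A), FC.fc_ng_pos, not_not]
        exact h1
      have hO : ∀ j ∈ orb Q i, ¬b.IsPos (w (j : ι)) := by
        intro j hj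
        unfold orb at hj
        rw [Finset.mem_filter] at hj
        obtain ⟨-, s, rfl⟩ := hj
        have e : w ((Q.da s).sp i : ι) = Q.act s (w (i : ι)) := by
          have h2 := hc s
          have h3 : Q.act s * w = w * Q.act s := mul_inv_eq_iff_eq_mul.1 h2
          have h4 := congrArg (fun f : Equiv.Perm ι => f (i : ι)) h3
          exact h4.symm
        rw [e, da_pos (Q.da s)]
        exact hi
      set w' : Equiv.Perm ι := w * (wW b (ow Q i))⁻¹ with hw'
      have hw'W : w' ∈ WP P := mul_mem hw (inv_mem (FC.wW_mem b _))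
      have hc' : ∀ s, Q.act s * w' * (Q.act s)⁻¹ = w' := by
        intro s
        have e : Q.act s * w' * (Q.act s)⁻¹ = (Q.act s * w * (Q.act s)⁻¹) * (Q.act s * wW b (ow Q i) * (Q.act s)⁻¹)⁻¹ := by
          rw [hw']
          group
        rw [e, hc, c2_comm]
      have hp : ∀ j ∈ orb Q i, b.IsPos (w' (j : ι)) := by
        intro j hj
        obtain ⟨j', hj', h1⟩ := c2_neg Q i hj
        have e : w' (j : ι) = w (ng P (j' : ι)) := by
          rw [hw']
          show w ((wW b (ow Q i))⁻¹ (j : ι)) = _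
          rw [← h1]
          congr 1
          exact (wW b (ow Q i)).symm_apply_apply _
        rw [e, FC.fc_ng_w hw, FC.fc_ng_pos]
        exact hO j' hj'
      obtain ⟨B, hB, hBw⟩ := FC.RedW_exists b hw'W
      have hlt : (FC.Iv b w').card < n := by
        have h1 : RedW b (ow Q i ++ B) := c2_red Q i hB fun j hj => by rw [hBw]; exact hp j hj
        have h2 := c2_length h1
        have h3 := c2_length hB
        have h4 : wW b (ow Q i ++ B) = w := by
          rw [FC.wW_append, hBw, hw', inv_mul_cancel_right]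
        rw [h4, hn, List.length_append] at h2
        rw [hBw] at h3
        have h5 : 0 < (ow Q i).length := List.length_pos_of_mem ((mem_ow (Q := Q)).2 (c2_orb_self Q i))
        omega
      obtain ⟨l, hl, hlw⟩ := ih _ hlt hw'W hc' rfl
      have hfm : rw Q (i :: l) = ow Q i ++ rw Q l := List.flatMap_cons
      refine ⟨i :: l, ?_, ?_⟩
      · rw [hfm]
        exact c2_red Q i hl fun j hj => by rw [hlw]; exact hp j hj
      · rw [hfm, FC.wW_append, hlw, hw', inv_mul_cancel_right]

/-- **Relative words of `w_J`.** -/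
theorem wordQ (Q : QS b K L) {J : Finset b.support} (hJ : InvJ Q J) {w : Equiv.Perm ι} (hw : IsWJ b J w) : ∃ l, RedW b (rw Q l) ∧ wW b (rw Q l) = w ∧ (J.Nonempty → ∀ k, k ∈ rw Q l) := by
  obtain ⟨l, h1, h2⟩ := c2_word Q _ hw.1 (fun s => isWJ_comm hJ hw s) rfl
  exact ⟨l, h1, h2, fun hne k => FC.full_support hne (by rw [h2]; exact hw) k⟩

end

end Pool.Agent.Lib.L8.QF
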