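import Pool.Agent.Lib.L8.FL.CH
import Pool.Agent.Lib.L8.FL.R4

/-!
# QF (stage 3: quasi-split groups): definitions (helper67)

See `Lib/L8/PROOF_Q.md`. `Q : QS b K L`, `H = HQ Q`, `f = [L : K]`. The relative functions are `fe ^ (1/f)` and `Fe ^ (1/f)` for `e` fixed by the Galois group. Words are made of orbits: `rw Q l` is the concatenation
of the words `ow Q i`, `i ∈ l`, of the orbits.
-/

namespace Pool.Agent.Lib.L8.QF

open MeasureTheory Matrix NumberField NumberField.InfinitePlace IsDedekindDomain Pool.Agent.Lib.H89N Pool.Agent.Lib.H33W Pool.Agent.Lib.H67G Pool.Agent.Lib.L1S Pool.Agent.Lib.L8.FL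
open scoped ENNReal Pointwise

noncomputable section

set_option linter.unusedSectionVars false
set_option linter.unusedVariables false

variable {ι M N : Type} [Fintype ι] [DecidableEq ι] [AddCommGroup M] [Module ℚ M] [AddCommGroup N] [Module ℚ N]
  {P : RootPairing ι ℚ M N} [P.IsCrystallographic] [P.IsReduced] [P.IsIrreducible] [P.IsRootSystem]
  {b : P.Base} {K L : Type} [Field K] [NumberField K] [Field L] [NumberField L] [Algebra K L]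

/-! ## 1. Orbits and words -/

/-- `e` is fixed by the Galois group. -/
def InvE (Q : QS b K L) (e : b.support → ℝ) : Prop := ∀ s i, e ((Q.da s).sp i) = e i

/-- `J` is stable under the Galois group. -/
def InvJ (Q : QS b K L) (J : Finset b.support) : Prop := ∀ s i, (Q.da s).sp i ∈ J ↔ i ∈ J

open scoped Classical in
/-- The orbit of `i`. -/
def orb (Q : QS b K L) (i : b.support) : Finset b.support := Finset.univ.filter fun j => ∃ s, (Q.da s).sp i = j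

open scoped Classical in
/-- A reduced word of the longest element of the Weyl group of the orbit of `i`: the product of the reflections if the orbit is orthogonal, else `s_i s_j s_i` (the orbit is `{i, j}`, type `A₂ₙ`). -/
def ow (Q : QS b K L) (i : b.support) : List b.support := if h : ∃ j ∈ orb Q i, j ≠ i ∧ b.cartanMatrix i j ≠ 0 then [i, h.choose, i] else (orb Q i).toList

/-- The absolute word of a relative word. -/
def rw (Q : QS b K L) (l : List b.support) : List b.support := l.flatMap (ow Q)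

/-- `U_w(K)`. -/
def UwQ (Q : QS b K L) (l : List b.support) : Subgroup (GK b L) := Uw b L (rw Q l) ⊓ HQ Q

/-- The relevant cells: `w = w_J` for a nonempty set `J` which is stable under the Galois group. -/
def IsCQ (Q : QS b K L) (w : Equiv.Perm ι) : Prop := ∃ J : Finset b.support, J.Nonempty ∧ InvJ Q J ∧ IsWJ b J w

/-- `1 / [L : K]`. -/
def df (K L : Type) [Field K] [Field L] [Algebra K L] : ℝ := (Module.finrank K L : ℝ)⁻¹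

/-! ## 2. The count (C3) -/

/-- **The count** (C3) for the quasi-split group. -/
def CountQ (Q : QS b K L) (nu : Equiv.Perm ι → ℝ) : Prop :=
  ∀ ε : ℝ, 0 < ε → ε ≤ 1 / 2 → ∀ A : ℝ, ∃ C : ℝ, 0 < C ∧ ∀ 𝔫 : Ideal (𝓞 K), 𝔫 ≠ ⊥ → ∀ Γ₁ : Subgroup (HQ Q), (∀ γ ∈ Γ₁, γ.1 ∈ G1 b (up L 𝔫)) → Dsc (HQ Q) Γ₁ →
    (∀ h : HQ Q, (cjG Γ₁ h).relIndex Γ₁ ≠ 0) → (∀ h : HQ Q, CCH (HQ Q) (cjG Γ₁ h)) → ∀ g : HQ Q, (∀ w : HeightOneSpectrum (𝓞 L), aI w (up L 𝔫) ≠ 1 → (g⁻¹).1 ∈ Kv b (up L 𝔫) w) →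
    ∀ (x : HRt (HQ Q)) (Cs : Set (HRt (HQ Q))), (∀ y ∈ ST (HQ Q) x Cs, ∀ y' ∈ ST (HQ Q) x Cs, ∀ w i, |Hw w y i - Hw w y' i| ≤ A) → MeasurableSet (ST (HQ Q) x Cs) →
    ∀ (ν : Measure (UHR (HQ Q))) [ν.IsHaarMeasure] (D₁ : Set (UHR (HQ Q))), H33W.SF ((cjG Γ₁ g).subgroupOf (HUH (HQ Q))) D₁ → ∀ w : Equiv.Perm ι, IsCQ Q w → ∀ y ∈ Cs,
      ∫⁻ t in D₁, ce (cjG Γ₁ g ⊓ HUH (HQ Q)) ((cjG Γ₁ g : Set (HQ Q)) ∩ {γ : HQ Q | γ.1 ∈ cell b L w})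
        (fun γ => (ST (HQ Q) x Cs).indicator (fun z => ENNReal.ofReal (Fe (eJ b (1 + ε) (Js b w)) z ^ df K L)) (embH (HQ Q) γ * ((t : HRt (HQ Q)) * (x * y)))) ∂ν ≤
      ENNReal.ofReal (C * (Ideal.absNorm 𝔫 : ℝ) ^ (ε - nu w) * (fe b (eJ b (-(1 + ε)) (Js b w⁻¹)) (g⁻¹).1 / fe b (eJ b (1 + ε) (Js b w)) (g⁻¹).1) ^ df K L) *
        ENNReal.ofReal (Fe (eJ b (-(1 + ε)) (Js b w⁻¹)) (x * y) ^ df K L) * ν D₁

/-! ## 3. The core and the density theorem -/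

open scoped Classical in
/-- **The exceptional sum**: as `Exs`, over the relevant cells of `Q`. -/
def ExsQ (Q : QS b K L) (nu : Equiv.Perm ι → ℝ) (ε n : ℝ) (E : b.support → ℝ) : ℝ :=
  ∑ w ∈ Finset.univ.filter (fun w : Equiv.Perm ι => IsCQ Q w), n ^ (ε - nu w) * ∏ k, E k ^ (-((1 + ε) * XW b w k))

/-- **The core** for the quasi-split group: `E_k = |a_k| ^ (1/f) q ^ (- ⟨α_k, λ⟩)`. -/
def StatementMQ (Q : QS b K L) (nu : Equiv.Perm ι → ℝ) : Prop :=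
  ∀ ε : ℝ, 0 < ε → ε ≤ 1 / 2 → ∀ (Ω : Set (GL (I b) (EE L))) (K₀ : Set (HRt (HQ Q))), IsCompact Ω → IsCompact K₀ → ∃ C : ℝ,
    ∀ (v : HeightOneSpectrum (𝓞 K)) (𝔫 : Ideal (𝓞 K)), 𝔫 ≠ ⊥ → ¬𝔫 ≤ v.asIdeal → ∀ (r s : ℕ) (c : b.support → ℤ), InvC Q c → (∀ i : b.support, 0 ≤ pr b c (Sum.inr i)) → (1 ≤ r + s ∨ c = 0) →
    ∀ π : K, v.valuation K π = WithZero.exp (-1 : ℤ) → ∀ h : HQ Q, h.1 ∈ HGL b L 𝔫 v → AtVL b v r s π c h.1 →
    ∀ θ : b.support → (EE L →ₗ[ℝ] ℝ), GenQ Q 𝔫 v r s θ →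
    ∀ (t : HRt (HQ Q)) (a : ι → (EE L)ˣ), t.1.1.1 = dgz b a → ∀ x : HRt (HQ Q), (∃ u : UHR (HQ Q), ∃ ω ∈ Ω, x.1.1.1 = u.1.1.1.1 * t.1.1.1 * ω.1) →
    ∀ (μ : Measure (HRt (HQ Q))) [μ.IsHaarMeasure], ∀ φ : HRt (HQ Q) → ℂ, Continuous φ → tsupport φ ⊆ K₀ →
    ∀ (ν : Measure (UHR (HQ Q))) [ν.IsHaarMeasure] (D : Set (HRt (HQ Q))), IsFundamentalDomain (GamHR (HQ Q) 𝔫 v r s) D μ →
    ∀ (n : ℕ) (F : Fin n → HRt (HQ Q) → ℂ) (c' t' : Fin n → ℂ), (∀ l, AuE (HQ Q) (GamQ (HQ Q) 𝔫 v r s) μ D φ (c' l) (F l)) → (∀ l, IsTH (HQ Q) 𝔫 v r s h (F l) (t' l)) →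
    (∀ l k, ∫ x in D, star (F l x) * F k x ∂μ = if l = k then 1 else 0) →
    ∀ D' : Set (UHR (HQ Q)), IsFundamentalDomain (GamUH (HQ Q) 𝔫 v r s) D' ν →
      ENNReal.ofReal (∑ l, ‖c' l * t' l * WhH (HQ Q) ν D' θ (F l) x‖ ^ 2) * ν D' ≤
        ENNReal.ofReal (C * (1 + ExsQ Q nu ε (Ideal.absNorm 𝔫) fun k => mixedEmbedding.norm (a k : EE L) ^ df K L * (Ideal.absNorm v.asIdeal : ℝ) ^ (-pr b c (Sum.inr (k : ι)))) *
          (Ideal.absNorm v.asIdeal : ℝ) ^ (∑ β ∈ Pos b, pr b c (Sum.inr β))) * Jf (UHR (HQ Q)).subtype μ ν φ x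

/-- **The inequality for the exponents**, over the relevant cells of `Q`. -/
def IneqQ (Q : QS b K L) (D : ℝ) (nu : Equiv.Perm ι → ℝ) : Prop :=
  ∀ w, IsCQ Q w → 1 ≤ nu w ∧ ∀ Λ : b.support → ℝ, (∀ i, 0 ≤ al (cA b) i Λ) → InvE Q Λ →
    D * (∑ j ∈ Js b w⁻¹, Λ j + ∑ j ∈ Js b w, Λ j) ≤ 2 * (∑ k, Λ k) * (∑ k, XW b w k + nu w)

end

end Pool.Agent.Lib.L8.QF
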