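import Pool.Agent.Lib.L8.QF.H2
import Pool.Agent.Lib.L8.QF.G0

/-!
# QF, H3 (helper80): `HypH (HQ Q) J` for a set `J` which is stable under the Galois group
-/

namespace Pool.Agent.Lib.L8.QF

set_option linter.unusedSectionVars false

open MeasureTheory Matrix NumberField IsDedekindDomain Pool.Agent.Lib.H89N Pool.Agent.Lib.H33W Pool.Agent.Lib.H67G Pool.Agent.Lib.L1S Pool.Agent.Lib.L8.FL Pool.Agent.Lib.L8.FC Pool.Agent.Lib.L8.FU

noncomputable section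

variable {ι M N : Type} [Fintype ι] [DecidableEq ι] [AddCommGroup M] [Module ℚ M] [AddCommGroup N] [Module ℚ N]
  {P : RootPairing ι ℚ M N} [P.IsCrystallographic] [P.IsReduced] [P.IsIrreducible] [P.IsRootSystem]

variable {b : P.Base} {K L : Type} [Field K] [NumberField K] [Field L] [NumberField L] [Algebra K L] {J : Finset b.support}

/-- The elements of the cell of `w_J`: `γ = u τ n v` with all factors in `HQ Q`. -/
theorem split_HQ (Q : QS b K L) (hJ : InvJ Q J) {w : Equiv.Perm ι} {Lw : List b.support} (hw : IsWJ b J w) (hL : wW b Lw = w) (n : HQ Q) (hn : n.1 = nW b L Lw) (γ : HQ Q) (hγ : γ.1 ∈ cell b L w) :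
    ∃ u ∈ HUH (HQ Q), ∃ τ : TH (HQ Q), ∃ v : HUH (HQ Q), v.1.1 ∈ NJ b L J ∧ γ = u * τ.1 * n * v.1 := by
  subst hL
  obtain ⟨u, hu, t, ht, v, hv, e⟩ := FC.cell_split (J := J) hw hγ
  have key : ∀ s, tG Q s u = u ∧ tG Q s t = t ∧ tG Q s v = v := by
    intro s
    have e1 : tG Q s γ.1 = tG Q s u * tG Q s t * nW b L Lw * tG Q s v := by
      rw [e, map_mul, map_mul, map_mul]
      congr 2
      rw [← hn, tG_fix Q s n.2]
    rw [tG_fix Q s γ.2, e] at e1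
    obtain ⟨h1, h2, h3⟩ := FC.cell_unique hw hu ((tG_HU Q s u).2 hu) ht ((tG_TK Q s t).2 ht) hv ((tG_NJ Q s hJ v).2 hv) e1
    exact ⟨h1.symm, h2.symm, h3.symm⟩
  have hu' : u ∈ HQ Q := mem_HQ_U Q hu fun s => (key s).1
  have hv' : v ∈ HQ Q := mem_HQ_U Q hv.1 fun s => (key s).2.2
  have ht' : t ∈ HQ Q := by
    have e2 : t = u⁻¹ * γ.1 * v⁻¹ * n.1⁻¹ := by
      rw [e, hn]
      group
    rw [e2]
    exact mul_mem (mul_mem (mul_mem (inv_mem hu') γ.2) (inv_mem hv')) (inv_mem n.2)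
  refine ⟨⟨u, hu'⟩, hu, ⟨⟨t, ht'⟩, ht⟩, ⟨⟨v, hv'⟩, hv.1⟩, hv, Subtype.ext ?_⟩
  show γ.1 = u * t * n.1 * v
  rw [e, hn]

/-- **`HypH`** for the quasi-split group. -/
theorem hypH_HQ (Q : QS b K L) [IsGalois K L] (hJ : InvJ Q J) : HypH (HQ Q) J where
  dpK := dpK_HQ Q hJ
  dense := by
    obtain ⟨Y⟩ := lieH_exists Q
    exact kUH_denseL Y
  split := fun w Lw hw hL n hn γ hγ => split_HQ Q hJ hw hL n hn γ hγ

end

end Pool.Agent.Lib.L8.QF
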