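import Pool.Agent.Lib.L8.QF.W5Q
import Pool.Agent.Lib.L8.QF.H3
import Pool.Agent.Lib.L8.QF.Defs
import Pool.Agent.Lib.L8.FC.D3
import Pool.Agent.Lib.L8.FC.D1

/-!
# QF, W6Q (helper76): the count for the quasi-split group

`countQ_gen`: `CountQ Q nu` from the archimedean part (`ArchQ`, C5Q), the measures (`MsrQ`) and, for every relevant `w`, a relative word `l` with the finite part with gain `g` (`FinG`) and the torus part with gain `κ` (`KapQ`), `ν_w ≤ g + κ`.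
`countQ_of`: `CountQ Q rank` from `FinQ`, `WordQ`.
-/

namespace Pool.Agent.Lib.L8.QF

set_option linter.unusedSectionVars false

open MeasureTheory Matrix NumberField IsDedekindDomain Pool.Agent.Lib.H89N Pool.Agent.Lib.H33W Pool.Agent.Lib.H67G Pool.Agent.Lib.L1S Pool.Agent.Lib.L8 Pool.Agent.Lib.L8.FL Pool.Agent.Lib.L8.FC Pool.Agent.Lib.L8.FU
open scoped ENNReal

noncomputable section

variable {ι M N : Type} [Fintype ι] [DecidableEq ι] [AddCommGroup M] [Module ℚ M] [AddCommGroup N] [Module ℚ N]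
  {P : RootPairing ι ℚ M N} [P.IsCrystallographic] [P.IsReduced] [P.IsIrreducible] [P.IsRootSystem]

variable {b : P.Base} {K L : Type} [Field K] [NumberField K] [Field L] [NumberField L] [Algebra K L]

/-! ## The invariance of the parameters -/

theorem xe_sp {σ : Equiv.Perm ι} (hσ : DA b σ) (e : b.support → ℝ) (i : b.support) : xe b e (hσ.sp i) = xe b (fun k => e (hσ.sp k)) i := by
  unfold xe
  rw [← Equiv.sum_comp hσ.sp]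
  refine Finset.sum_congr rfl fun k _ => ?_
  have h1 : b.cartanMatrix (hσ.sp k) (hσ.sp i) = b.cartanMatrix k i := hσ.pair k i
  rw [h1]

theorem invE_eJ {Q : QS b K L} {J : Finset b.support} (hJ : InvJ Q J) (c : ℝ) : InvE Q (eJ b c J) := by
  intro s i
  have h1 : (fun k => eJ b c J ((Q.da s).sp k)) = eJ b c J := by
    refine xe_inj b fun i => ?_
    rw [← xe_sp]
    have h2 : ∀ i, xe b (eJ b c J) i = (if i ∈ J then c else 0) + 1 := fun i => by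
      have h3 := mu_eJ b c J i
      unfold FL.mu at h3
      linarith
    rw [h2, h2]
    by_cases h : i ∈ J
    · rw [if_pos h, if_pos ((hJ s i).2 h)]
    · rw [if_neg h, if_neg fun h' => h ((hJ s i).1 h')]
  exact congrFun h1 i

theorem invJ_Js {Q : QS b K L} {J : Finset b.support} (hJ : InvJ Q J) {w : Equiv.Perm ι} (hw : IsWJ b J w) : InvJ Q (Js b w) := by
  intro s i
  rw [mem_Js, mem_Js]
  have h1 := isWJ_comm hJ hw s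
  have h2 : w⁻¹ (Q.act s (i : ι)) = Q.act s (w⁻¹ (i : ι)) := by
    have h4 : Q.act s * w = w * Q.act s := mul_inv_eq_iff_eq_mul.1 h1
    have h5 : w⁻¹ * Q.act s = Q.act s * w⁻¹ := by
      calc w⁻¹ * Q.act s = w⁻¹ * (Q.act s * w) * w⁻¹ := by group
        _ = w⁻¹ * (w * Q.act s) * w⁻¹ := by rw [h4]
        _ = Q.act s * w⁻¹ := by group
    exact Equiv.congr_fun h5 (i : ι)
  have h3 : (((Q.da s).sp i : b.support) : ι) = Q.act s (i : ι) := rfl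
  rw [h3, h2, da_pos (Q.da s)]

/-! ## The inputs -/

/-- **The finite part** for one relative word `l` and one parameter `e`, with the gain `g` and a loss of `N ^ δ`. -/
def FinG (Q : QS b K L) (l : List b.support) (e : b.support → ℝ) (g : ℝ) : Prop :=
  ∀ δ : ℝ, 0 < δ → ∃ Z : ℝ, 0 < Z ∧
    ∀ 𝔫 : Ideal (𝓞 K), 𝔫 ≠ ⊥ → ∀ z : GK b L, z ∈ HQ Q → (∀ w : HeightOneSpectrum (𝓞 L), aI w (up L 𝔫) ≠ 1 → z ∈ Kv b (up L 𝔫) w) →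
    ∀ Λ : Subgroup (GK b L), Λ ≤ UwQ Q l → (∀ x ∈ Λ, z⁻¹ * x * z ∈ G1 b (up L 𝔫)) → Λ.relIndex (UwQ Q l ⊓ G1 b ⊤) ≠ 0 → (UwQ Q l ⊓ G1 b ⊤).relIndex Λ ≠ 0 →
    rs (UwQ Q l) Λ (fun u => open scoped Classical in if ∀ k, Chi b (up L 𝔫) k (nW b L (rw Q l) * u * z) then ENNReal.ofReal (fe b e (nW b L (rw Q l) * u * z) ^ df K L) else 0) ≤
      ENNReal.ofReal (Z * (Ideal.absNorm 𝔫 : ℝ) ^ (δ - g) * fe b (eW b e (rw Q l)) z ^ df K L) * FL.gi (UwQ Q l ⊓ G1 b ⊤) Λ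

/-- **The torus part** for one relative word `l` with the gain `κ` and a loss of `N ^ δ`. -/
def KapQ (Q : QS b K L) (J : Finset b.support) (l : List b.support) (κ : ℝ) : Prop :=
  ∀ δ : ℝ, 0 < δ → ∃ C : ℝ, 0 < C ∧
    ∀ 𝔫 : Ideal (𝓞 K), 𝔫 ≠ ⊥ → ∀ z : GK b L, z ∈ HQ Q → (∀ w : HeightOneSpectrum (𝓞 L), aI w (up L 𝔫) ≠ 1 → z ∈ Kv b (up L 𝔫) w) →
    ∀ Λ : Subgroup (GK b L), Λ ≤ NJ b L J ⊓ HQ Q → (∀ x ∈ Λ, z⁻¹ * x * z ∈ G1 b (up L 𝔫)) → ∀ τ ∈ HQ Q, τ ∈ TK b L →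
      rs (NJ b L J ⊓ HQ Q) Λ ((XtH (HQ Q) J (rw Q l) (up L 𝔫) z z τ).indicator 1) ≤
        ENNReal.ofReal (C * (Ideal.absNorm 𝔫 : ℝ) ^ (δ - κ)) * rs (NJ b L J ⊓ HQ Q) Λ ((F2.Lt b L J (rw Q l) (up L 𝔫) z z τ).indicator 1)

/-- **The archimedean part** (C5Q). -/
def ArchQ (Q : QS b K L) : Prop :=
  ∀ κ : ℝ, 1 < κ → ∀ e : b.support → ℝ, InvE Q e → ∀ J : Finset b.support, InvJ Q J → ∀ l : List b.support, RedW b (rw Q l) → PosW b κ e (rw Q l) → IsWJ b J (wW b (rw Q l)) →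
    ∀ ν : Measure (HRt (HQ Q)), RH (NoH (HQ Q) J) ν → ∀ n : HQ Q, n.1 = nW b L (rw Q l) → ∃ C : ℝ, 0 < C ∧ ∀ y : HRt (HQ Q),
    ∫⁻ u, ENNReal.ofReal (Fe e (embH (HQ Q) n * (u * y)) ^ df K L) ∂ν ≤ ENNReal.ofReal (C * Fe (eW b e (rw Q l)) y ^ df K L)

/-- **The measures.** -/
def MsrQ (Q : QS b K L) [IsGalois K L] : Prop := ∀ (J : Finset b.support) (hJ : InvJ Q J) (ν0 : Measure (HRt (HQ Q))), RH (NoH (HQ Q) J) ν0 → HMsr (hypH_HQ Q hJ) ν0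

/-- `κ = 0`. -/
theorem kapQ_zero (Q : QS b K L) (J : Finset b.support) (l : List b.support) : KapQ Q J l 0 := by
  intro δ hδ
  refine ⟨1, one_pos, fun 𝔫 h𝔫 z _ hz Λ _ _ τ _ hτ => ?_⟩
  have h1 : (1 : ℝ) ≤ (Ideal.absNorm 𝔫 : ℝ) := by
    have h2 : Ideal.absNorm 𝔫 ≠ 0 := fun h => h𝔫 (Ideal.absNorm_eq_zero_iff.1 h)
    exact_mod_cast Nat.one_le_iff_ne_zero.2 h2
  refine (kap_one (qc_up_bot h𝔫) hz _ _ hτ).trans (mul_le_mul' ?_ le_rfl)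
  rw [ENNReal.one_le_ofReal, one_mul]
  refine Real.one_le_rpow h1 ?_
  linarith

/-! ## The count -/

/-- The data for one `w` and one `ε`. -/
def DatQ (Q : QS b K L) (nu : Equiv.Perm ι → ℝ) (w : Equiv.Perm ι) (ε : ℝ) : Prop :=
  ∃ (l : List b.support) (g κ : ℝ), RedW b (rw Q l) ∧ wW b (rw Q l) = w ∧ nW b L (rw Q l) ∈ HQ Q ∧ FinG Q l (eJ b (1 + ε) (Js b w)) g ∧ (∀ J, InvJ Q J → IsWJ b J w → KapQ Q J l κ) ∧ nu w ≤ g + κ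

/-- The count for one `w`. -/
theorem count_wQ (Q : QS b K L) [IsGalois K L] (hA : ArchQ Q) (hM : MsrQ Q) {nu : Equiv.Perm ι → ℝ} {w : Equiv.Perm ι} (hC : IsCQ Q w) {ε : ℝ} (hε : 0 < ε) (hW : DatQ Q nu w ε) (A : ℝ) :
    ∃ C : ℝ, 0 < C ∧ ∀ 𝔫 : Ideal (𝓞 K), 𝔫 ≠ ⊥ → ∀ Γ₁ : Subgroup (HQ Q), (∀ γ ∈ Γ₁, γ.1 ∈ G1 b (up L 𝔫)) → Dsc (HQ Q) Γ₁ →
    (∀ h : HQ Q, CCH (HQ Q) (cjG Γ₁ h)) → ∀ g : HQ Q, (∀ w : HeightOneSpectrum (𝓞 L), aI w (up L 𝔫) ≠ 1 → (g⁻¹).1 ∈ Kv b (up L 𝔫) w) →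
    ∀ (x : HRt (HQ Q)) (Cs : Set (HRt (HQ Q))), (∀ y ∈ ST (HQ Q) x Cs, ∀ y' ∈ ST (HQ Q) x Cs, ∀ w i, |Hw w y i - Hw w y' i| ≤ A) → MeasurableSet (ST (HQ Q) x Cs) →
    ∀ (ν : Measure (UHR (HQ Q))) [ν.IsHaarMeasure] (D₁ : Set (UHR (HQ Q))), H33W.SF ((cjG Γ₁ g).subgroupOf (HUH (HQ Q))) D₁ → ∀ y : HRt (HQ Q),
      ∫⁻ t in D₁, ce (cjG Γ₁ g ⊓ HUH (HQ Q)) ((cjG Γ₁ g : Set (HQ Q)) ∩ {γ : HQ Q | γ.1 ∈ cell b L w})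
        (fun γ => (ST (HQ Q) x Cs).indicator (fun z => ENNReal.ofReal (Fe (eJ b (1 + ε) (Js b w)) z ^ df K L)) (embH (HQ Q) γ * ((t : HRt (HQ Q)) * y))) ∂ν ≤
      ENNReal.ofReal (C * (Ideal.absNorm 𝔫 : ℝ) ^ (ε - nu w) * (fe b (eJ b (-(1 + ε)) (Js b w⁻¹)) (g⁻¹).1 / fe b (eJ b (1 + ε) (Js b w)) (g⁻¹).1) ^ df K L) *
        ENNReal.ofReal (Fe (eJ b (-(1 + ε)) (Js b w⁻¹)) y ^ df K L) * ν D₁ := by
  classical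
  obtain ⟨J, -, hJQ, hJ⟩ := hC
  obtain ⟨l, g₀, κ, hred, hwL, hnH, hF, hK, hnu⟩ := hW
  have hJ' : IsWJ b J (wW b (rw Q l)) := by rw [hwL]; exact hJ
  set e : b.support → ℝ := eJ b (1 + ε) (Js b w) with he
  have hIe : InvE Q e := invE_eJ (invJ_Js hJQ hJ) _
  have hP : PosW b (1 + ε) e (rw Q l) := by
    have h1 := posW_eJ b hred hJ' (c := 1 + ε) (by linarith)
    rwa [hwL] at h1
  have hE : eW b e (rw Q l) = eJ b (-(1 + ε)) (Js b w⁻¹) := by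
    have h1 := eW_eJ b (1 + ε) hJ'
    rw [hwL] at h1
    rw [he, h1, Js_inv hJ]
  obtain ⟨ν0, h0⟩ := rh_ex (NoH_closed (H := HQ Q) J)
  obtain ⟨C5, hC5, harch⟩ := hA (1 + ε) (by linarith) e hIe J hJQ l hred hP hJ' ν0 h0 ⟨nW b L (rw Q l), hnH⟩ rfl
  obtain ⟨Z, hZ, hfin⟩ := hF (ε / 2) (by linarith)
  obtain ⟨Ck, hCk, hkap⟩ := hK J hJQ hJ (ε / 2) (by linarith)
  rw [hE] at harch hfin
  obtain ⟨C, hC, h9⟩ := count_wG (hypH_HQ Q hJQ) hJ hwL (n := ⟨nW b L (rw Q l), hnH⟩) rfl (df K L) e (eJ b (-(1 + ε)) (Js b w⁻¹)) A h0 (hM J hJQ ν0 h0) hC5 harch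
  refine ⟨Ck * (C * Z), by positivity, ?_⟩
  intro 𝔫 h𝔫 Γ₁ hG hD hcc g hg x Cs hA' mS ν _ D₁ sD y
  have hup : up L 𝔫 ≠ ⊥ := qc_up_bot h𝔫
  have hN : (1 : ℝ) ≤ (Ideal.absNorm 𝔫 : ℝ) := by
    have h2 : Ideal.absNorm 𝔫 ≠ 0 := fun h => h𝔫 (Ideal.absNorm_eq_zero_iff.1 h)
    exact_mod_cast Nat.one_le_iff_ne_zero.2 h2
  have hN0 : (0 : ℝ) < (Ideal.absNorm 𝔫 : ℝ) := by linarith
  have hUN : UwQ Q l = NJ b L J ⊓ HQ Q := by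
    unfold UwQ
    rw [FC.Uw_eq_NJ hJ']
  have h2 := h9 (up L 𝔫) hup Γ₁ hG hD g (hcc g) hg (Z * (Ideal.absNorm 𝔫 : ℝ) ^ (ε / 2 - g₀)) (by positivity) (by
    intro Λ hΛ1 hΛ2 h3 h4
    have h5 := hfin 𝔫 h𝔫 (g⁻¹).1 (g⁻¹).2 hg Λ (by rw [hUN]; exact hΛ1) hΛ2 (by rw [hUN]; exact h3) (by rw [hUN]; exact h4)
    rw [hUN] at h5
    exact h5) (ENNReal.ofReal (Ck * (Ideal.absNorm 𝔫 : ℝ) ^ (ε / 2 - κ))) (fun Λ hΛ1 hΛ2 τ hτ => hkap 𝔫 h𝔫 (g⁻¹).1 (g⁻¹).2 hg Λ hΛ1 hΛ2 τ.1 τ.2 hτ) x Cs hA' mS ν D₁ sD y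
  refine h2.trans ?_
  refine mul_le_mul' (mul_le_mul' ?_ le_rfl) le_rfl
  have f1 : 0 < fe b (eJ b (-(1 + ε)) (Js b w⁻¹)) (g⁻¹).1 := FI.fe_pos b _ _
  have f2 : 0 < fe b e (g⁻¹).1 := FI.fe_pos b _ _
  rw [← ENNReal.ofReal_mul (by positivity)]
  refine ENNReal.ofReal_le_ofReal ?_
  rw [Real.div_rpow f1.le f2.le]
  have h3 : (Ideal.absNorm 𝔫 : ℝ) ^ (ε / 2 - κ) * (Ideal.absNorm 𝔫 : ℝ) ^ (ε / 2 - g₀) ≤ (Ideal.absNorm 𝔫 : ℝ) ^ (ε - nu w) := by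
    rw [← Real.rpow_add hN0]
    refine Real.rpow_le_rpow_of_exponent_le hN ?_
    linarith
  have f3 : 0 ≤ fe b (eJ b (-(1 + ε)) (Js b w⁻¹)) (g⁻¹).1 ^ df K L / fe b e (g⁻¹).1 ^ df K L := by positivity
  calc Ck * (Ideal.absNorm 𝔫 : ℝ) ^ (ε / 2 - κ) * (C * (Z * (Ideal.absNorm 𝔫 : ℝ) ^ (ε / 2 - g₀)) * (fe b (eJ b (-(1 + ε)) (Js b w⁻¹)) (g⁻¹).1 ^ df K L / fe b e (g⁻¹).1 ^ df K L))
      = Ck * (C * Z) * ((Ideal.absNorm 𝔫 : ℝ) ^ (ε / 2 - κ) * (Ideal.absNorm 𝔫 : ℝ) ^ (ε / 2 - g₀)) * (fe b (eJ b (-(1 + ε)) (Js b w⁻¹)) (g⁻¹).1 ^ df K L / fe b e (g⁻¹).1 ^ df K L) := by ring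
    _ ≤ _ := mul_le_mul_of_nonneg_right (mul_le_mul_of_nonneg_left h3 (by positivity)) f3

/-- **The count (C3Q).** -/
theorem countQ_gen (Q : QS b K L) [IsGalois K L] (hA : ArchQ Q) (hM : MsrQ Q) {nu : Equiv.Perm ι → ℝ} (hW : ∀ w, IsCQ Q w → ∀ ε : ℝ, 0 < ε → ε ≤ 1 / 2 → DatQ Q nu w ε) : CountQ Q nu := by
  classical
  intro ε hε hε2 A
  have h1 : ∀ w : Equiv.Perm ι, ∃ C : ℝ, 0 < C ∧ (IsCQ Q w → ∀ 𝔫 : Ideal (𝓞 K), 𝔫 ≠ ⊥ → ∀ Γ₁ : Subgroup (HQ Q), (∀ γ ∈ Γ₁, γ.1 ∈ G1 b (up L 𝔫)) → Dsc (HQ Q) Γ₁ →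
    (∀ h : HQ Q, CCH (HQ Q) (cjG Γ₁ h)) → ∀ g : HQ Q, (∀ w : HeightOneSpectrum (𝓞 L), aI w (up L 𝔫) ≠ 1 → (g⁻¹).1 ∈ Kv b (up L 𝔫) w) →
    ∀ (x : HRt (HQ Q)) (Cs : Set (HRt (HQ Q))), (∀ y ∈ ST (HQ Q) x Cs, ∀ y' ∈ ST (HQ Q) x Cs, ∀ w i, |Hw w y i - Hw w y' i| ≤ A) → MeasurableSet (ST (HQ Q) x Cs) →
    ∀ (ν : Measure (UHR (HQ Q))) [ν.IsHaarMeasure] (D₁ : Set (UHR (HQ Q))), H33W.SF ((cjG Γ₁ g).subgroupOf (HUH (HQ Q))) D₁ → ∀ y : HRt (HQ Q),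
      ∫⁻ t in D₁, ce (cjG Γ₁ g ⊓ HUH (HQ Q)) ((cjG Γ₁ g : Set (HQ Q)) ∩ {γ : HQ Q | γ.1 ∈ cell b L w})
        (fun γ => (ST (HQ Q) x Cs).indicator (fun z => ENNReal.ofReal (Fe (eJ b (1 + ε) (Js b w)) z ^ df K L)) (embH (HQ Q) γ * ((t : HRt (HQ Q)) * y))) ∂ν ≤
      ENNReal.ofReal (C * (Ideal.absNorm 𝔫 : ℝ) ^ (ε - nu w) * (fe b (eJ b (-(1 + ε)) (Js b w⁻¹)) (g⁻¹).1 / fe b (eJ b (1 + ε) (Js b w)) (g⁻¹).1) ^ df K L) *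
        ENNReal.ofReal (Fe (eJ b (-(1 + ε)) (Js b w⁻¹)) y ^ df K L) * ν D₁) := by
    intro w
    by_cases hC : IsCQ Q w
    · obtain ⟨C, hC0, h⟩ := count_wQ Q hA hM hC hε (hW w hC ε hε hε2) A
      exact ⟨C, hC0, fun _ => h⟩
    · exact ⟨1, one_pos, fun h => absurd h hC⟩
  choose C hC h2 using h1
  refine ⟨∑ w, C w, Finset.sum_pos (fun w _ => hC w) ⟨1, Finset.mem_univ _⟩, ?_⟩
  intro 𝔫 h𝔫 Γ₁ hG hD _ hcc g hg x Cs hA mS ν _ D₁ sD w hw' y _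
  refine (h2 w hw' 𝔫 h𝔫 Γ₁ hG hD hcc g hg x Cs hA mS ν D₁ sD (x * y)).trans ?_
  refine mul_le_mul' (mul_le_mul' (ENNReal.ofReal_le_ofReal ?_) le_rfl) le_rfl
  have f1 : 0 < fe b (eJ b (-(1 + ε)) (Js b w⁻¹)) (g⁻¹).1 := FI.fe_pos b _ _
  have f2 : 0 < fe b (eJ b (1 + ε) (Js b w)) (g⁻¹).1 := FI.fe_pos b _ _
  have h3 : C w ≤ ∑ w, C w := Finset.single_le_sum (f := C) (fun w _ => (hC w).le) (Finset.mem_univ w)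
  have h4 : 0 ≤ (Ideal.absNorm 𝔫 : ℝ) ^ (ε - nu w) := Real.rpow_nonneg (Nat.cast_nonneg _) _
  exact mul_le_mul_of_nonneg_right (mul_le_mul_of_nonneg_right h3 h4) (by positivity)

/-! ## The case `ν = rank` -/

/-- **The finite part** (C4Q), with a loss of `N ^ δ`. -/
def FinQ (Q : QS b K L) : Prop :=
  ∀ δ : ℝ, 0 < δ → ∀ κ : ℝ, 1 < κ → ∀ e : b.support → ℝ, InvE Q e → ∀ l : List b.support, RedW b (rw Q l) → PosW b κ e (rw Q l) → ∃ Z : ℝ, 1 ≤ Z ∧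
    ∀ 𝔫 : Ideal (𝓞 K), 𝔫 ≠ ⊥ → ∀ A : Finset b.support, InvJ Q A → ∀ z : GK b L, z ∈ HQ Q → ∀ Λ : Subgroup (GK b L), Λ ≤ UwQ Q l → (∀ x ∈ Λ, z⁻¹ * x * z ∈ G1 b (up L 𝔫)) →
    Λ.relIndex (UwQ Q l ⊓ G1 b ⊤) ≠ 0 → (UwQ Q l ⊓ G1 b ⊤).relIndex Λ ≠ 0 →
    rs (UwQ Q l) Λ (fun u => open scoped Classical in if ∀ j ∈ A, Chi b (up L 𝔫) j (nW b L (rw Q l) * u * z) then ENNReal.ofReal (fe b e (nW b L (rw Q l) * u * z) ^ df K L) else 0) ≤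
      ENNReal.ofReal (Z * (Ideal.absNorm 𝔫 : ℝ) ^ δ * fe b (eW b e (rw Q l)) z ^ df K L / (Ideal.absNorm 𝔫 : ℝ) ^ (A.filter (· ∈ rw Q l)).card) * FL.gi (UwQ Q l ⊓ G1 b ⊤) Λ

/-- **The words.** -/
def WordQ (Q : QS b K L) : Prop := ∀ J : Finset b.support, J.Nonempty → InvJ Q J → ∀ w, IsWJ b J w → ∃ l, RedW b (rw Q l) ∧ wW b (rw Q l) = w ∧ nW b L (rw Q l) ∈ HQ Q ∧ ∀ k, k ∈ rw Q l

theorem finG_of {Q : QS b K L} (hF : FinQ Q) {κ : ℝ} (hκ : 1 < κ) {e : b.support → ℝ} (he : InvE Q e) {l : List b.support} (hl : RedW b (rw Q l)) (hP : PosW b κ e (rw Q l)) :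
    FinG Q l e ((Finset.univ : Finset b.support).filter (· ∈ rw Q l)).card := by
  classical
  intro δ hδ
  obtain ⟨Z, hZ, h⟩ := hF δ hδ κ hκ e he l hl hP
  refine ⟨Z, by linarith, fun 𝔫 h𝔫 z hz _ Λ hΛ1 hΛ2 h1 h2 => ?_⟩
  have h5 := h 𝔫 h𝔫 Finset.univ (fun s i => by simp) z hz Λ hΛ1 hΛ2 h1 h2
  have hN0 : (0 : ℝ) < (Ideal.absNorm 𝔫 : ℝ) := by
    rw [Nat.cast_pos]
    exact Nat.pos_of_ne_zero fun h => h𝔫 (Ideal.absNorm_eq_zero_iff.1 h)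
  have e1 : Z * (Ideal.absNorm 𝔫 : ℝ) ^ (δ - (((Finset.univ : Finset b.support).filter (· ∈ rw Q l)).card : ℝ)) * fe b (eW b e (rw Q l)) z ^ df K L =
      Z * (Ideal.absNorm 𝔫 : ℝ) ^ δ * fe b (eW b e (rw Q l)) z ^ df K L / (Ideal.absNorm 𝔫 : ℝ) ^ ((Finset.univ : Finset b.support).filter (· ∈ rw Q l)).card := by
    rw [Real.rpow_sub hN0, Real.rpow_natCast]
    ring
  rw [e1]
  refine le_trans (le_of_eq ?_) h5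
  congr 1
  funext c
  exact if_congr ⟨fun h j _ => h j, fun h k => h k (Finset.mem_univ k)⟩ rfl rfl

/-- **The count (C3Q)** with the exponent `rank`. -/
theorem countQ_of (Q : QS b K L) [IsGalois K L] (hF : FinQ Q) (hA : ArchQ Q) (hM : MsrQ Q) (hW : WordQ Q) : CountQ Q fun _ => (Fintype.card b.support : ℝ) := by
  refine countQ_gen Q hA hM fun w hC ε hε hε2 => ?_
  obtain ⟨J, hJne, hJQ, hJ⟩ := hC
  obtain ⟨l, hred, hwL, hnH, hall⟩ := hW J hJne hJQ w hJ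
  have hJ' : IsWJ b J (wW b (rw Q l)) := by rw [hwL]; exact hJ
  have hP : PosW b (1 + ε) (eJ b (1 + ε) (Js b w)) (rw Q l) := by
    have h1 := posW_eJ b hred hJ' (c := 1 + ε) (by linarith)
    rwa [hwL] at h1
  refine ⟨l, _, 0, hred, hwL, hnH, finG_of hF (by linarith) (invE_eJ (invJ_Js hJQ hJ) _) hred hP, fun J _ _ => kapQ_zero Q J l, ?_⟩
  rw [Finset.filter_true_of_mem fun k _ => hall k, add_zero]
  exact le_rfl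

end

end Pool.Agent.Lib.L8.QF
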