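import Pool.Agent.Lib.L8.QF.Defs
import Pool.Agent.Lib.L8.FL.BR

/-!
# QF, KR (helper76): the rank of `1 - w` on the cocharacters which are fixed by the Galois group
-/

namespace Pool.Agent.Lib.L8.QF

open Matrix Pool.Agent.Lib.L1S Pool.Agent.Lib.L8.FL

noncomputable section

set_option linter.unusedSectionVars false

variable {ι M N : Type} [Fintype ι] [DecidableEq ι] [AddCommGroup M] [Module ℚ M] [AddCommGroup N] [Module ℚ N]
  {P : RootPairing ι ℚ M N} [P.IsCrystallographic] [P.IsReduced] [P.IsIrreducible] [P.IsRootSystem] {b : P.Base}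
  {K L : Type} [Field K] [NumberField K] [Field L] [NumberField L] [Algebra K L]

/-- The entries of `1 - w⁻¹` for the orbit sums of the simple coroots. -/
def pQ (Q : QS b K L) (w : Equiv.Perm ι) (k i : b.support) : ℤ := ∑ j ∈ orb Q i, FL.pK b w k j

/-- A minor of size `r` which is not `0`. -/
def KRQ (Q : QS b K L) (w : Equiv.Perm ι) (r : ℕ) : Prop := ∃ g f : Fin r → b.support, (Matrix.of fun a c : Fin r => pQ Q w (g a) (f c)).det ≠ 0

theorem krq_zero (Q : QS b K L) (w : Equiv.Perm ι) : KRQ Q w 0 := ⟨Fin.elim0, Fin.elim0, by simp⟩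

theorem krq_le_card {Q : QS b K L} {w : Equiv.Perm ι} {r : ℕ} (h : KRQ Q w r) : r ≤ Fintype.card b.support := by
  obtain ⟨g, f, hd⟩ := h
  have h1 : Function.Injective g := by
    intro a a' haa
    by_contra hne
    exact hd (Matrix.det_zero_of_row_eq hne (by
      funext c
      show pQ Q w (g a) (f c) = pQ Q w (g a') (f c)
      rw [haa]))
  have h2 := Fintype.card_le_of_injective g h1
  rwa [Fintype.card_fin] at h2

open scoped Classical in
/-- The rank of `1 - w` on the cocharacters which are fixed by the Galois group. -/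
def kapW (Q : QS b K L) (w : Equiv.Perm ι) : ℕ := Nat.findGreatest (fun r => KRQ Q w r) (Fintype.card b.support)

theorem kapW_krq (Q : QS b K L) (w : Equiv.Perm ι) : KRQ Q w (kapW Q w) := by
  classical
  unfold kapW
  exact Nat.findGreatest_spec (P := fun r => KRQ Q w r) (Nat.zero_le _) (krq_zero Q w)

theorem le_kapW {Q : QS b K L} {w : Equiv.Perm ι} {r : ℕ} (h : KRQ Q w r) : r ≤ kapW Q w := by
  classical
  unfold kapW
  exact Nat.le_findGreatest (krq_le_card h) h

/-- **The exponents** `rank + rank (1 - w)` for the quasi-split group. -/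
def nuQ (Q : QS b K L) (w : Equiv.Perm ι) : ℝ := (Fintype.card b.support : ℝ) + (kapW Q w : ℝ)

end

end Pool.Agent.Lib.L8.QF
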