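import Pool.Agent.Lib.L8.QF.TG4
import Pool.Agent.Lib.L8.QF.G0

/-!
# QF, TG5 (helper43): the gain of the torus for `G(L)` and for `HQ Q`

`kapG_top`: `H = ⊤`, `K = L`, the gain is the rank of `1 - w`. `kapG_HQ`: `H = HQ Q`, the gain is the rank of `1 - w` on the cocharacters which are fixed by the Galois group.
-/

namespace Pool.Agent.Lib.L8.QF

open Matrix NumberField IsDedekindDomain Pool.Agent.Lib.H89N Pool.Agent.Lib.L1S
open Pool.Agent.Lib.L8.FL (av aI Gv Kv Ah TK tv PJ G1 NJ nW wW IsWJ rs)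
open Pool.Agent.Lib.L8.FI (Tor Tors Uu Iv Cg fh ch)

noncomputable section

set_option linter.unusedSectionVars false

variable {ι M N : Type} [Fintype ι] [DecidableEq ι] [AddCommGroup M] [Module ℚ M] [AddCommGroup N] [Module ℚ N]
  {P : RootPairing ι ℚ M N} [P.IsCrystallographic] [P.IsReduced] [P.IsIrreducible] [P.IsRootSystem] {b : P.Base}
  {K L : Type} [Field K] [NumberField K] [Field L] [NumberField L] [Algebra K L]

variable {R : Type} [Fintype R] [DecidableEq R]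

/-! ## 1. `H = ⊤` -/

theorem scl_top : Scl K (⊤ : Subgroup (GK b L)) := fun _ _ _ _ _ _ _ _ _ => trivial

theorem rq_top (q : R → b.support → ℤ) : Rq K (⊤ : Subgroup (GK b L)) q := fun _ _ _ _ _ _ => trivial

/-- The rank of `1 - w`. -/
def rkS (b : P.Base) (w : Equiv.Perm ι) : ℕ := rkq b w fun i j : b.support => if i = j then (1 : ℤ) else 0

theorem kapG_top {J : Finset b.support} {Lw : List b.support} {ε : ℝ} (hε : 0 < ε) : KapG K (⊤ : Subgroup (GK b L)) J Lw (rkS b (wW b Lw)) ε := kapG_rank scl_top (rq_top _) hε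

/-! ## 2. `H = HQ Q` -/

/-- A torus element which is fixed by the Galois group normalizes `U ∩ HQ Q`. -/
theorem nrm_HQ (Q : QS b K L) {t : GK b L} (hT : Tor t) (h : ∀ (s : L ≃ₐ[K] L) (r : I b), t.1.1 ((Q.da s).pI r) ((Q.da s).pI r) = s (t.1.1 r r)) : Nrm (HQ Q) t := by
  have hfix : ∀ s, tG Q s t = t := by
    intro s
    refine FI.f_ext ?_
    ext r' c'
    obtain ⟨r, rfl⟩ := (Q.da s).pI.surjective r'
    obtain ⟨c, rfl⟩ := (Q.da s).pI.surjective c'
    rw [tG_entry]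
    by_cases hrc : r = c
    · subst hrc
      exact (h s r).symm
    · rw [hT r c hrc, map_zero, hT _ _ fun h' => hrc ((Q.da s).pI.injective h')]
  intro y hy hyH
  refine mem_HQ_U Q (FC.TK_HU ((FI.g1_TK b t).2 hT) hy) fun s => ?_
  rw [map_mul, map_mul, map_inv, hfix, tG_fix Q s hyH]

theorem scl_HQ (Q : QS b K L) : Scl K (HQ Q) := by
  intro D c hc t hT ht
  refine nrm_HQ Q hT fun s r => ?_
  rw [ht, ht, DA.ht_pI, map_zpow₀, AlgEquiv.commutes]

theorem pj_pI {σ : Equiv.Perm ι} (hσ : DA b σ) (j : b.support) (r : I b) : pj b (hσ.sp j) (hσ.pI r) = pj b j r := by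
  rcases r with i | β
  · rfl
  · exact hσ.pair β j

theorem rq_HQ (Q : QS b K L) {q : R → b.support → ℤ} (hq : ∀ l s i, q l ((Q.da s).sp i) = q l i) : Rq K (HQ Q) q := by
  intro x t ht
  refine nrm_HQ Q ht.tor fun s r => ?_
  rw [ht.val, ht.val, ch_sq, ch_sq, map_prod]
  refine Finset.prod_congr rfl fun l _ => ?_
  have e1 : ∑ j, q l j * pj b j ((Q.da s).pI r) = ∑ j, q l j * pj b j r := by
    rw [← Equiv.sum_comp (Q.da s).sp]
    exact Finset.sum_congr rfl fun j _ => by rw [hq, pj_pI]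
  rw [e1, map_zpow₀]
  congr 1
  exact (s.commutes _).symm

open scoped Classical in
/-- The orbit sums of the simple coroots. -/
def qo (Q : QS b K L) (i j : b.support) : ℤ := if j ∈ orb Q i then 1 else 0

theorem tg5_orb (Q : QS b K L) (i : b.support) (s : L ≃ₐ[K] L) (j : b.support) : (Q.da s).sp j ∈ orb Q i ↔ j ∈ orb Q i := by
  classical
  unfold orb
  rw [Finset.mem_filter, Finset.mem_filter]
  constructor
  · rintro ⟨-, t, ht⟩
    refine ⟨Finset.mem_univ _, s⁻¹ * t, ?_⟩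
    rw [sp_mul, ht, sp_cancel]
  · rintro ⟨-, t, rfl⟩
    exact ⟨Finset.mem_univ _, s * t, sp_mul Q s t i⟩

theorem qo_inv (Q : QS b K L) (i : b.support) (s : L ≃ₐ[K] L) (j : b.support) : qo Q i ((Q.da s).sp j) = qo Q i j := by
  unfold qo
  exact if_congr (tg5_orb Q i s j) rfl rfl

/-- **The rank of `1 - w` on the cocharacters which are fixed by the Galois group.** -/
def rkQ (Q : QS b K L) (w : Equiv.Perm ι) : ℕ := rkq b w (qo Q)

/-- **The gain of the torus** for the quasi-split group. -/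
theorem kapG_HQ (Q : QS b K L) {J : Finset b.support} {Lw : List b.support} {ε : ℝ} (hε : 0 < ε) : KapG K (HQ Q) J Lw (rkQ Q (wW b Lw)) ε :=
  kapG_rank (scl_HQ Q) (rq_HQ Q (qo_inv Q)) hε

/-- A lower gain. -/
theorem KapG.mono {H : Subgroup (GK b L)} {J : Finset b.support} {Lw : List b.support} {κ κ' ε : ℝ} (h : KapG K H J Lw κ ε) (hκ : κ' ≤ κ) : KapG K H J Lw κ' ε := by
  obtain ⟨C, hC, h1⟩ := h
  refine ⟨C, hC, fun 𝔫 h0 z hz Λ hΛ1 hΛ2 τ hτ => (h1 𝔫 h0 z hz Λ hΛ1 hΛ2 τ hτ).trans ?_⟩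
  refine mul_le_mul' (ENNReal.ofReal_le_ofReal ?_) le_rfl
  have hN1 : (1 : ℝ) ≤ (Ideal.absNorm 𝔫 : ℝ) := by
    have h2 : Ideal.absNorm 𝔫 ≠ 0 := fun h => h0 (Ideal.absNorm_eq_zero_iff.1 h)
    exact_mod_cast Nat.one_le_iff_ne_zero.2 h2
  exact mul_le_mul_of_nonneg_left (Real.rpow_le_rpow_of_exponent_le hN1 (by linarith)) hC.le

/-- The gain from invariant cocharacters. -/
theorem kapG_HQ_li (Q : QS b K L) {J : Finset b.support} {Lw : List b.support} {ρ : ℕ} {q : Fin ρ → b.support → ℤ} (hq : ∀ l s i, q l ((Q.da s).sp i) = q l i)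
    (hli : LinearIndependent ℚ fun (l : Fin ρ) (k : b.support) => (pq b (wW b Lw) (q l) k : ℚ)) {ε : ℝ} (hε : 0 < ε) : KapG K (HQ Q) J Lw ρ ε := kapG_li (scl_HQ Q) (rq_HQ Q hq) hli hε

theorem kapG_HQ_det (Q : QS b K L) {J : Finset b.support} {Lw : List b.support} {q : R → b.support → ℤ} {k : R → b.support} (hq : ∀ l s i, q l ((Q.da s).sp i) = q l i)
    (hdet : (Matrix.of fun i l : R => pq b (wW b Lw) (q l) (k i)).det ≠ 0) {ε : ℝ} (hε : 0 < ε) : KapG K (HQ Q) J Lw (Fintype.card R) ε := kapG_det (scl_HQ Q) (rq_HQ Q hq) hdet hε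

end

end Pool.Agent.Lib.L8.QF
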