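import Pool.Agent.Lib.L8.QF.W6Q
import Pool.Agent.Lib.L8.QF.KR
import Pool.Agent.Lib.L8.QF.TG5

/-!
# QF, W8Q (helper76): the count for the quasi-split group with the torus gain of full rank
-/

namespace Pool.Agent.Lib.L8.QF

set_option linter.unusedSectionVars false

open MeasureTheory Matrix NumberField IsDedekindDomain Pool.Agent.Lib.H89N Pool.Agent.Lib.H33W Pool.Agent.Lib.H67G Pool.Agent.Lib.L1S Pool.Agent.Lib.L8 Pool.Agent.Lib.L8.FL Pool.Agent.Lib.L8.FC Pool.Agent.Lib.L8.FU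
open scoped ENNReal

noncomputable section

variable {ι M N : Type} [Fintype ι] [DecidableEq ι] [AddCommGroup M] [Module ℚ M] [AddCommGroup N] [Module ℚ N]
  {P : RootPairing ι ℚ M N} [P.IsCrystallographic] [P.IsReduced] [P.IsIrreducible] [P.IsRootSystem]

variable {b : P.Base} {K L : Type} [Field K] [NumberField K] [Field L] [NumberField L] [Algebra K L]

/-- The torus gain over `HQ Q` gives `KapQ`. -/
theorem kapQ_of (Q : QS b K L) {J : Finset b.support} {l : List b.support} {κ : ℝ} (h : ∀ ε : ℝ, 0 < ε → KapG K (HQ Q) J (rw Q l) κ ε) : KapQ Q J l κ := by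
  intro δ hδ
  obtain ⟨C, hC, h⟩ := h δ hδ
  refine ⟨C, hC, fun 𝔫 h𝔫 z _ hz Λ hΛ1 hΛ2 τ _ hτ => ?_⟩
  refine le_trans ?_ (h 𝔫 h𝔫 z hz Λ hΛ1 hΛ2 τ hτ)
  exact rs_mono _ _ fun x _ => Set.indicator_le_indicator_of_subset XtH_sub (fun _ => zero_le) x

/-- **The gain `r`** from a minor of size `r`. -/
theorem kapQ_krq (Q : QS b K L) (J : Finset b.support) {l : List b.support} {w : Equiv.Perm ι} (hw : wW b (rw Q l) = w) {r : ℕ} (h : KRQ Q w r) : KapQ Q J l r := by
  obtain ⟨g, f, hd⟩ := h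
  subst hw
  refine kapQ_of Q fun ε hε => ?_
  have h1 : KapG K (HQ Q) J (rw Q l) (Fintype.card (Fin r)) ε := by
    refine kapG_HQ_det Q (q := fun l j => qo Q (f l) j) (k := g) (fun l s i => qo_inv Q (f l) s i) ?_ hε
    have e : (Matrix.of fun i m : Fin r => pq b (wW b (rw Q l)) (fun j => qo Q (f m) j) (g i)) = Matrix.of fun a c : Fin r => pQ Q (wW b (rw Q l)) (g a) (f c) := by
      ext i m
      simp only [Matrix.of_apply]
      unfold pq pQ FL.pK qo
      rw [Finset.sum_congr rfl fun j _ => ite_zero_mul _ _ _, Finset.sum_ite_mem, Finset.univ_inter]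
      exact Finset.sum_congr rfl fun j _ => one_mul _
    rw [e]
    exact hd
  rw [Fintype.card_fin] at h1
  exact h1

/-- **The count (C3Q)** with the exponents `ν ≤ rank + r`. -/
theorem countQ_nu (Q : QS b K L) [IsGalois K L] (hF : FinQ Q) (hA : ArchQ Q) (hM : MsrQ Q) (hW : WordQ Q) {nu : Equiv.Perm ι → ℝ}
    (hnu : ∀ w, IsCQ Q w → ∃ r : ℕ, KRQ Q w r ∧ nu w ≤ (Fintype.card b.support : ℝ) + r) : CountQ Q nu := by
  refine countQ_gen Q hA hM fun w hC ε hε hε2 => ?_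
  obtain ⟨r, hr, hnu⟩ := hnu w hC
  obtain ⟨J, hJne, hJQ, hJ⟩ := hC
  obtain ⟨l, hred, hwL, hnH, hall⟩ := hW J hJne hJQ w hJ
  have hJ' : IsWJ b J (wW b (rw Q l)) := by rw [hwL]; exact hJ
  have hP : PosW b (1 + ε) (eJ b (1 + ε) (Js b w)) (rw Q l) := by
    have h1 := posW_eJ b hred hJ' (c := 1 + ε) (by linarith)
    rwa [hwL] at h1
  refine ⟨l, _, r, hred, hwL, hnH, finG_of hF (by linarith) (invE_eJ (invJ_Js hJQ hJ) _) hred hP, fun J _ _ => kapQ_krq Q J hwL hr, ?_⟩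
  rw [Finset.filter_true_of_mem fun k _ => hall k, Finset.card_univ]
  exact hnu

/-- **The count (C3Q)** with the exponents `rank + rank (1 - w)`. -/
theorem countQ_nuQ (Q : QS b K L) [IsGalois K L] (hF : FinQ Q) (hA : ArchQ Q) (hM : MsrQ Q) (hW : WordQ Q) : CountQ Q (nuQ Q) :=
  countQ_nu Q hF hA hM hW fun w _ => ⟨kapW Q w, kapW_krq Q w, le_rfl⟩

end

end Pool.Agent.Lib.L8.QF
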