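import Pool.Agent.Lib.L8.QF.RO2

/-!
# RO3: the letter of an orthogonal orbit, heights and levels
-/

namespace Pool.Agent.Lib.L8.QF

open Matrix NumberField IsDedekindDomain Pool.Agent.Lib.H89N Pool.Agent.Lib.H33W Pool.Agent.Lib.H67G Pool.Agent.Lib.L1S Pool.Agent.Lib.H29Q
open Pool.Agent.Lib.L8.FL (nW wW Uw RedW HV av aI Gv Kv Ah TK tv PJ G1 fe se xe eW PosW)

noncomputable section

set_option linter.unusedSectionVars false
set_option linter.unusedVariables false

variable {ι M N : Type} [Fintype ι] [DecidableEq ι] [AddCommGroup M] [Module ℚ M] [AddCommGroup N] [Module ℚ N]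
  {P : RootPairing ι ℚ M N} [P.IsCrystallographic] [P.IsReduced] [P.IsIrreducible] [P.IsRootSystem] {b : P.Base}
  {K L : Type} [Field K] [NumberField K] [Field L] [NumberField L] [Algebra K L] {Q : QS b K L}

/-! ## 1. Equivariance -/

theorem cc_Tq {s : L ≃ₐ[K] L} {g g₁ : GK b L} (hg : Tq Q s g g₁) (j : b.support) : cc ((Q.da s).sp j) g₁ = s (cc j g) := by
  have h1 := hg.entry (Sum.inl j) (Sum.inr (ng P j))
  have e : (Q.da s).pI (Sum.inr (ng P (j : ι))) = Sum.inr (ng P ((Q.da s).sp j : ι)) := by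
    rw [DA.pI_inr, DA.ng (Q.da s)]
    rfl
  rw [e, DA.pI_inl] at h1
  exact h1

theorem Tq.of_HF {z : GK b L} (h : z ∈ HF Q) (s : L ≃ₐ[K] L) : Tq Q s z z := Tq.of_Fx h.1 s

theorem cc_HF {z : GK b L} (h : z ∈ HF Q) (s : L ≃ₐ[K] L) (j : b.support) : cc ((Q.da s).sp j) z = s (cc j z) := cc_Tq (Tq.of_HF h s) j

theorem Tq.Tj (s : L ≃ₐ[K] L) (i : b.support) (t : L) : Tq Q s (Tj i t) (Tj ((Q.da s).sp i) (s t)) := (Tq.b1m s i).mul (Tq.b1x s i t)

theorem Mh_HF {z : GK b L} (h : z ∈ HF Q) (s : L ≃ₐ[K] L) (w : HeightOneSpectrum (𝓞 L)) (j : b.support) (t : L) : Mh (spl s w) ((Q.da s).sp j) z (s t) = Mh w j z t := by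
  have h1 := (Tq.of_HF h s).Ah w j
  have h2 := ((Tq.Tj (Q := Q) s j t).mul (Tq.of_HF h s)).Ah w j
  unfold Mh
  rw [h1, h2]

theorem prodM_HF {z : GK b L} (h : z ∈ HF Q) (s : L ≃ₐ[K] L) (j : b.support) (t : L) : ∏ᶠ w, Mh w ((Q.da s).sp j) z (s t) = ∏ᶠ w, Mh w j z t := by
  rw [← finprod_comp_equiv (splE s)]
  exact finprod_congr fun w => Mh_HF h s w j t

theorem prodA_HF {z : GK b L} (h : z ∈ HF Q) (s : L ≃ₐ[K] L) (j : b.support) : ∏ᶠ w, Ah b w z ((Q.da s).sp j) = ∏ᶠ w, Ah b w z j := by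
  rw [← finprod_comp_equiv (splE s)]
  exact finprod_congr fun w => (Tq.of_HF h s).Ah w j

theorem xe_inv {e : b.support → ℝ} (he : InvE Q e) (s : L ≃ₐ[K] L) (i : b.support) : xe b e ((Q.da s).sp i) = xe b e i := by
  unfold xe
  rw [← Equiv.sum_comp (Q.da s).sp]
  refine Finset.sum_congr rfl fun k _ => ?_
  have h1 : b.cartanMatrix ((Q.da s).sp k) ((Q.da s).sp i) = b.cartanMatrix k i := (Q.da s).pair k i
  rw [he s k, h1]

theorem mu_inv {e : b.support → ℝ} (he : InvE Q e) (s : L ≃ₐ[K] L) (i : b.support) : FL.mu b e ((Q.da s).sp i) = FL.mu b e i := by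
  unfold FL.mu
  rw [xe_inv he]

/-! ## 2. The word of the orbit -/

theorem mem_orb {i j : b.support} : j ∈ orb Q i ↔ ∃ s, (Q.da s).sp i = j := by
  classical
  unfold orb
  rw [Finset.mem_filter]
  exact ⟨fun h => h.2, fun h => ⟨Finset.mem_univ _, h⟩⟩

theorem sp_one (Q : QS b K L) (i : b.support) : (Q.da (1 : L ≃ₐ[K] L)).sp i = i := by
  apply Subtype.ext
  show Q.act 1 i = i
  rw [map_one]
  rfl

theorem self_orb (i : b.support) : i ∈ orb Q i := mem_orb.2 ⟨1, sp_one Q i⟩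

theorem PO_ow {i : b.support} (hO : Orth Q i) : PO (ow Q i) := by
  rw [ow_orth hO]
  exact ⟨(orb Q i).nodup_toList, fun j hj k hk hjk => orth_pair hO (Finset.mem_toList.1 hj) (Finset.mem_toList.1 hk) hjk⟩

theorem prod_ow {i : b.support} (hO : Orth Q i) {f : b.support → ℝ} {a : ℝ} (h : ∀ j ∈ orb Q i, f j = a) : ((ow Q i).map f).prod = a ^ (orb Q i).card := by
  rw [ow_orth hO, Finset.prod_map_toList, Finset.prod_congr rfl h, Finset.prod_const]

theorem mem_ow' {i j : b.support} (hO : Orth Q i) : j ∈ ow Q i ↔ j ∈ orb Q i := by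
  rw [ow_orth hO, Finset.mem_toList]

/-- The elements of the letter group. -/
theorem Xq_eq {i : b.support} (hO : Orth Q i) {x : GK b L} (hx : x ∈ Xq Q i) : x = wd (ow Q i) fun j => cc j x := eq_wd (PO_ow hO) hx.1

theorem nq_mul {i : b.support} (hO : Orth Q i) {x : GK b L} (hx : x ∈ Xq Q i) : nq Q i * x = wT (ow Q i) fun j => cc j x := by
  conv_lhs => rw [Xq_eq hO hx]
  exact nW_wd (PO_ow hO) _

/-- **The function `f_e` on `n x z`.** -/
theorem fe_nq {i : b.support} (hO : Orth Q i) {e : b.support → ℝ} (he : InvE Q e) {z : GK b L} (hz : z ∈ HF Q) {x : GK b L} (hx : x ∈ Xq Q i) :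
    fe b e (nq Q i * x * z) = fe b e z * (∏ᶠ w, Mh w i z (cc i x)) ^ (-((orb Q i).card * xe b e i)) := by
  rw [nq_mul hO hx, fe_wT e (PO_ow hO)]
  congr 1
  rw [prod_ow hO (a := (∏ᶠ w, Mh w i z (cc i x)) ^ (-xe b e i))]
  · rw [← Real.rpow_natCast, ← Real.rpow_mul (FI.g2_pos fun w => Mh_pos w i z _).le]
    congr 1
    ring
  · intro j hj
    obtain ⟨s, rfl⟩ := mem_orb.1 hj
    rw [cc_HF hx.2, prodM_HF hz, xe_inv he]

/-- **The function `f_(s e)` on `z`.** -/
theorem fe_eWq {i : b.support} (hO : Orth Q i) {e : b.support → ℝ} (he : InvE Q e) {z : GK b L} (hz : z ∈ HF Q) :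
    fe b (eW b e (ow Q i)) z = fe b e z * (∏ᶠ w, Ah b w z i) ^ (-((orb Q i).card * FL.mu b e i)) := by
  rw [fe_eWz e (PO_ow hO)]
  congr 1
  rw [prod_ow hO (a := (∏ᶠ w, Ah b w z i) ^ (-FL.mu b e i))]
  · rw [← Real.rpow_natCast, ← Real.rpow_mul (FI.g2_pos fun w => FI.Ah_pos b w z i).le]
    congr 1
    ring
  · intro j hj
    obtain ⟨s, rfl⟩ := mem_orb.1 hj
    rw [prodA_HF hz, mu_inv he]

/-! ## 3. The local factor and the level at `i` -/

theorem Ah_wT {l : List b.support} (h : PO l) (w : HeightOneSpectrum (𝓞 L)) (t : b.support → L) {i : b.support} (hi : i ∈ l) (z : GK b L) : Ah b w (wT l t * z) i = Ah b w (Tj i (t i) * z) i := by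
  induction l generalizing z with
  | nil => exact absurd hi List.not_mem_nil
  | cons k l ih =>
    rw [wT_cons]
    have key : ∀ (l' : List b.support), (∀ m ∈ l', m ≠ i ∧ P.pairingIn ℤ (i : ι) (m : ι) = 0) → ∀ y : GK b L, Ah b w (wT l' t * y) i = Ah b w y i := by
      intro l'
      induction l' with
      | nil =>
        intro _ y
        have e : wT ([] : List b.support) t = (1 : GK b L) := rfl
        rw [e, one_mul]
      | cons m l' ih' =>
        intro hm y
        have hc : b.cartanMatrix i m = 0 := (hm m List.mem_cons_self).2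
        rw [wT_cons, mul_assoc, Ah_Tj, hc, neg_zero, zpow_zero, mul_one, ih' fun m' hm' => hm m' (List.mem_cons_of_mem _ hm')]
    rcases List.mem_cons.1 hi with rfl | hi
    · rw [(wT_comm h (t i) t).eq, mul_assoc, key l h.head]
    · have hc : b.cartanMatrix i k = 0 := (h.head' i hi).2
      rw [mul_assoc, Ah_Tj, hc, neg_zero, zpow_zero, mul_one, ih h.tail hi]

theorem Chi_wT {l : List b.support} (h : PO l) {𝔫 : Ideal (𝓞 L)} (t : b.support → L) {i : b.support} (hi : i ∈ l) (z : GK b L) : FL.Chi b 𝔫 i (wT l t * z) ↔ FL.Chi b 𝔫 i (Tj i (t i) * z) := by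
  induction l generalizing z with
  | nil => exact absurd hi List.not_mem_nil
  | cons k l ih =>
    rw [wT_cons]
    have key : ∀ (l' : List b.support), (∀ m ∈ l', m ≠ i) → ∀ y : GK b L, FL.Chi b 𝔫 i (wT l' t * y) ↔ FL.Chi b 𝔫 i y := by
      intro l'
      induction l' with
      | nil =>
        intro _ y
        have e : wT ([] : List b.support) t = (1 : GK b L) := rfl
        rw [e, one_mul]
      | cons m l' ih' =>
        intro hm y
        rw [wT_cons, mul_assoc]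
        exact (FI.Chi_ne b (hm m List.mem_cons_self).symm (t m) _).trans (ih' (fun m' hm' => hm m' (List.mem_cons_of_mem _ hm')) y)
    rcases List.mem_cons.1 hi with rfl | hi
    · rw [(wT_comm h (t i) t).eq, mul_assoc]
      exact key l (fun m hm => (h.head m hm).1) _
    · rw [mul_assoc]
      exact (FI.Chi_ne b (h.head i hi).1 (t k) _).trans (ih h.tail hi z)

theorem Ah_nq {i : b.support} (hO : Orth Q i) (w : HeightOneSpectrum (𝓞 L)) {x : GK b L} (hx : x ∈ Xq Q i) (z : GK b L) : Ah b w (nq Q i * x * z) i = Ah b w (Tj i (cc i x) * z) i := by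
  rw [nq_mul hO hx]
  exact Ah_wT (PO_ow hO) w _ ((mem_ow' hO).2 (self_orb i)) z

theorem Chi_nq {i : b.support} (hO : Orth Q i) {𝔫 : Ideal (𝓞 L)} {x : GK b L} (hx : x ∈ Xq Q i) (z : GK b L) : FL.Chi b 𝔫 i (nq Q i * x * z) ↔ FL.Chi b 𝔫 i (Tj i (cc i x) * z) := by
  rw [nq_mul hO hx]
  exact Chi_wT (PO_ow hO) _ ((mem_ow' hO).2 (self_orb i)) z

end

end Pool.Agent.Lib.L8.QF
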