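import Pool.Agent.Lib.L8.QF.A2A
import Pool.Agent.Lib.L8.QF.G0
import Pool.Agent.Lib.L8.QF.C2

/-!
# QF, module C5Q / C2Q, NW (design helper33): `n_w` of a relative word is in `HQ Q`
-/

namespace Pool.Agent.Lib.L8.QF

open MeasureTheory Matrix NumberField NumberField.InfinitePlace IsDedekindDomain Pool.Agent.Lib.H89N Pool.Agent.Lib.H33W Pool.Agent.Lib.H67G Pool.Agent.Lib.L1S Pool.Agent.Lib.L8 Pool.Agent.Lib.L8.FL
open scoped ENNReal Pointwise

noncomputable section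

set_option linter.unusedSectionVars false
set_option linter.unusedVariables false

variable {ι M N : Type} [Fintype ι] [DecidableEq ι] [AddCommGroup M] [Module ℚ M] [AddCommGroup N] [Module ℚ N]
  {P : RootPairing ι ℚ M N} [P.IsCrystallographic] [P.IsReduced] [P.IsIrreducible] [P.IsRootSystem] {b : P.Base}
  {K L : Type} [Field K] [NumberField K] [Field L] [NumberField L] [Algebra K L]

theorem nW_append (l l' : List b.support) : nW b L (l ++ l') = nW b L l' * nW b L l := by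
  induction l with
  | nil => exact (mul_one _).symm
  | cons i l ih =>
    show nW b L (l ++ l') * b1m b L i 1 = nW b L l' * (nW b L l * b1m b L i 1)
    rw [ih, mul_assoc]

/-! ## 0. Relations in `G(L)` -/

/-- the torus element -/
def nw_h (b : P.Base) (L : Type) [Field L] [NumberField L] (i : b.support) (s : Lˣ) : GK b L := b1m b L i s * (b1m b L i 1)⁻¹

theorem nw_h_val (i : b.support) (s : Lˣ) : (nw_h b L i s).1 = hG b i s := rfl

theorem nw_h_mul (i : b.support) (s t : Lˣ) : nw_h b L i (s * t) = nw_h b L i s * nw_h b L i t := Subtype.ext (hG_mul b i s t)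

theorem nw_h_comm (i j : b.support) (s t : Lˣ) : nw_h b L i s * nw_h b L j t = nw_h b L j t * nw_h b L i s := by
  refine Subtype.ext (Units.ext ?_)
  show (hG b i s).1 * (hG b j t).1 = (hG b j t).1 * (hG b i s).1
  rw [hG_val, hG_val, tj, tj, Matrix.diagonal_mul_diagonal, Matrix.diagonal_mul_diagonal]
  congr 1
  funext r
  rw [mul_comm]

theorem nw_h_TK (i : b.support) (s : Lˣ) : nw_h b L i s ∈ TK b L := by
  intro r c hrc
  have e1 : (nw_h b L i s)⁻¹ = nw_h b L i s⁻¹ := (Subtype.ext (ig12_hinv b i s)).symm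
  rw [e1]
  constructor
  · show (hG b i s).1 r c = 0
    rw [hG_val, tj, Matrix.diagonal_apply_ne _ hrc]
  · show (hG b i s⁻¹).1 r c = 0
    rw [hG_val, tj, Matrix.diagonal_apply_ne _ hrc]

theorem nw_h_x (i : b.support) (s : Lˣ) (t : L) : nw_h b L i s * b1x b L (i : ι) t = b1x b L (i : ι) ((s : L) ^ 2 * t) * nw_h b L i s := Subtype.ext (hG_x b i s t)

theorem nw_nx (i : b.support) (t : L) : b1m b L i 1 * b1x b L (i : ι) t = b1x b L (ng P i) (-t) * b1m b L i 1 := Subtype.ext (nG_x b i t)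

theorem nw_ny (i : b.support) (t : L) : b1m b L i 1 * b1x b L (ng P i) t = b1x b L (i : ι) (-t) * b1m b L i 1 := Subtype.ext (nG_y b i t)

theorem nw_nn (i : b.support) : b1m b L i 1 * b1m b L i 1 = nw_h b L i (-1) := Subtype.ext (hG_sq b i)

theorem nw_rot {i j : b.support} (h : Adj b i j) (t : L) : b1m b L j 1 * b1m b L i 1 * b1x b L (j : ι) t = b1x b L (i : ι) t * (b1m b L j 1 * b1m b L i 1) := Subtype.ext (a2_rot h t)

theorem nw_braid {i j : b.support} (h : Adj b i j) : b1m b L i 1 * b1m b L j 1 * b1m b L i 1 = b1m b L j 1 * b1m b L i 1 * b1m b L j 1 := Subtype.ext (a2_braid h)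

/-- the root element of `α_i + α_j` in `G(L)` -/
def nw_T (b : P.Base) (L : Type) [Field L] [NumberField L] (i j : b.support) (t : L) : GK b L := (b1m b L i 1)⁻¹ * b1x b L (j : ι) t * b1m b L i 1

theorem nw_comm {i j : b.support} (h : Adj b i j) (a c : L) : b1x b L (i : ι) a * b1x b L (j : ι) c = b1x b L (j : ι) c * nw_T b L i j (-(a * c)) * b1x b L (i : ι) a :=
  Subtype.ext (a2_comm h a c)

theorem nw_Tadd (i j : b.support) (s t : L) : nw_T b L i j (s + t) = nw_T b L i j s * nw_T b L i j t := Subtype.ext (xT_add i j s t)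

theorem nw_Tsymm {i j : b.support} (h : Adj b i j) (t : L) : nw_T b L j i t = nw_T b L i j (-t) := Subtype.ext (a2_symm h t)

theorem nw_Ti {i j : b.support} (h : Adj b i j) (t a : L) : nw_T b L i j t * b1x b L (i : ι) a = b1x b L (i : ι) a * nw_T b L i j t := Subtype.ext (a2_ci h t a)

theorem nw_Tj {i j : b.support} (h : Adj b i j) (t a : L) : nw_T b L i j t * b1x b L (j : ι) a = b1x b L (j : ι) a * nw_T b L i j t := Subtype.ext (a2_cj h t a)

/-- `n_j x_j(z) = x_j(-1/z) h_j(-1/z) y_j(1/z)`. -/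
theorem nw_n_x (j : b.support) (z : Lˣ) : b1m b L j 1 * b1x b L (j : ι) (z : L) =
    b1x b L (j : ι) (-((z⁻¹ : Lˣ) : L)) * nw_h b L j (-z⁻¹) * b1x b L (ng P j) ((z⁻¹ : Lˣ) : L) := by
  have e0 : b1x b L (j : ι) (z : L) = b1x b L (ng P j) ((z⁻¹ : Lˣ) : L) * nw_h b L j z * b1m b L j 1 * b1x b L (ng P j) ((z⁻¹ : Lˣ) : L) := Subtype.ext (xG_eq b j z)
  have e1 : b1m b L j 1 * nw_h b L j z = nw_h b L j z⁻¹ * b1m b L j 1 := Subtype.ext (hG_n b j z)
  have e2 : nw_h b L j z⁻¹ * nw_h b L j (-1) = nw_h b L j (-z⁻¹) := by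
    rw [← nw_h_mul, mul_neg, mul_one]
  calc b1m b L j 1 * b1x b L (j : ι) (z : L)
      = (b1m b L j 1 * b1x b L (ng P j) ((z⁻¹ : Lˣ) : L)) * nw_h b L j z * b1m b L j 1 * b1x b L (ng P j) ((z⁻¹ : Lˣ) : L) := by
        conv_lhs => rw [e0]
        simp only [mul_assoc]
    _ = b1x b L (j : ι) (-((z⁻¹ : Lˣ) : L)) * (b1m b L j 1 * nw_h b L j z) * b1m b L j 1 * b1x b L (ng P j) ((z⁻¹ : Lˣ) : L) := by
        rw [nw_ny]
        simp only [mul_assoc]
    _ = b1x b L (j : ι) (-((z⁻¹ : Lˣ) : L)) * (nw_h b L j z⁻¹ * (b1m b L j 1 * b1m b L j 1)) * b1x b L (ng P j) ((z⁻¹ : Lˣ) : L) := by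
        rw [e1]
        simp only [mul_assoc]
    _ = _ := by
        rw [nw_nn, e2]

theorem nw_pj_add {j : b.support} {i : ι} (hij : P.pairingIn ℤ i (j : ι) = -1) {r c : I b} (h : L1S.wt b r = L1S.wt b c + P.root i) : pj b j r = pj b j c - 1 := by
  have h1 : ((pj b j r : ℤ) : ℚ) = ((pj b j c : ℤ) : ℚ) - 1 := by
    rw [de_pj, de_pj, h, map_add, P.root_coroot'_eq_pairing, ← P.algebraMap_pairingIn ℤ, hij]
    push_cast
    ring
  exact_mod_cast h1

/-- `h_j(s) x_i(t) = x_i(t / s) h_j(s)` for adjacent roots. -/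
theorem nw_hx_adj {i j : b.support} (h : Adj b i j) (s : Lˣ) (t : L) : nw_h b L j s * b1x b L (i : ι) t = b1x b L (i : ι) (((s⁻¹ : Lˣ) : L) * t) * nw_h b L j s := by
  have hz : (s : L) ≠ 0 := s.ne_zero
  refine Subtype.ext (Units.ext ?_)
  show (hG b j s).1 * xx b (i : ι) t = xx b (i : ι) (((s⁻¹ : Lˣ) : L) * t) * (hG b j s).1
  rw [hG_val]
  refine (DP_E b (i : ι)).conj (DP_E b (i : ι)) (tj b j (s : L)) ((s⁻¹ : Lˣ) : L) t ?_
  ext r c
  rw [tj, Matrix.diagonal_mul, Matrix.mul_diagonal, Matrix.smul_apply, smul_eq_mul]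
  by_cases h1 : toA L (E b (i : ι)) r c = 0
  · rw [h1]
    ring
  · have h2 : E b (i : ι) r c ≠ 0 := by
      intro h0
      apply h1
      change ((E b (i : ι) r c : ℤ) : L) = 0
      rw [h0, Int.cast_zero]
    rw [nw_pj_add (i := (i : ι)) h.1 (hasWt_E b (i : ι) r c h2), zpow_sub₀ hz, zpow_one, Units.val_inv_eq_inv_val]
    ring

theorem nw_pj_refl {i j : b.support} (hij : P.pairingIn ℤ (i : ι) (j : ι) = -1) {r c : I b} (h : L1S.wt b r = P.reflection i (L1S.wt b c)) : pj b j r = pj b j c + pj b i c := by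
  have h1 : ((pj b j r : ℤ) : ℚ) = ((pj b j c : ℤ) : ℚ) + ((pj b i c : ℤ) : ℚ) := by
    rw [de_pj, de_pj, de_pj, h, P.reflection_apply, map_sub, map_smul, P.root_coroot'_eq_pairing, ← P.algebraMap_pairingIn ℤ, hij, smul_eq_mul]
    push_cast
    ring
  exact_mod_cast h1

/-- `n_i h_j(s) = h_i(s) h_j(s) n_i` for adjacent roots. -/
theorem nw_nh_adj {i j : b.support} (h : Adj b i j) (s : Lˣ) : b1m b L i 1 * nw_h b L j s = nw_h b L i s * nw_h b L j s * b1m b L i 1 := by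
  have hz : (s : L) ≠ 0 := s.ne_zero
  refine Subtype.ext (Units.ext ?_)
  show (mG b i (1 : Lˣ)).1 * (hG b j s).1 = (hG b i s).1 * (hG b j s).1 * (mG b i (1 : Lˣ)).1
  rw [hG_val, hG_val, tj, tj, Matrix.diagonal_mul_diagonal]
  ext r c
  rw [Matrix.mul_diagonal, Matrix.diagonal_mul]
  by_cases h1 : (mG b i (1 : Lˣ)).1 r c = 0
  · rw [h1]
    ring
  · have h2 := mG_over b i (1 : Lˣ) r c h1
    rw [← zpow_add₀ hz, de_pj_refl h2, nw_pj_refl (i := i) h.1 h2]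
    have e : -pj b i c + (pj b j c + pj b i c) = pj b j c := by ring
    rw [e, mul_comm]

/-! ## 0b. Membership -/

theorem nw_x_HU (i : b.support) (t : L) : b1x b L (i : ι) t ∈ HU b L := by
  refine b1_pos b L _ ?_ t
  exact (b.isPos_iff).1 (b.isPos_of_mem_support i.2)

theorem nw_y_HV (i : b.support) (t : L) : b1x b L (ng P (i : ι)) t ∈ HV b L := by
  refine FC.x_mem_HV ?_ t
  rw [FC.fc_ng_pos, not_not]
  exact b.isPos_of_mem_support i.2

theorem nw_inv (β : ι) (t : L) : b1x b L β (-t) = (b1x b L β t)⁻¹ := (b1x_inv b L β t).symm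

theorem nw_T_HU {i j : b.support} (h : Adj b i j) (t : L) : nw_T b L i j t ∈ HU b L := by
  have h1 := nw_comm (L := L) h 1 (-t)
  rw [one_mul, neg_neg] at h1
  have h2 : nw_T b L i j t = (b1x b L (j : ι) (-t))⁻¹ * (b1x b L (i : ι) 1 * b1x b L (j : ι) (-t)) * (b1x b L (i : ι) 1)⁻¹ := by
    rw [h1]
    group
  rw [h2]
  exact mul_mem (mul_mem (inv_mem (nw_x_HU j _)) (mul_mem (nw_x_HU i _) (nw_x_HU j _))) (inv_mem (nw_x_HU i _))

/-- `n_i x_j(t) n_i⁻¹ ∈ U`. -/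
theorem nw_nxn {i j : b.support} (h : Adj b i j) (t : L) : b1m b L i 1 * b1x b L (j : ι) t * (b1m b L i 1)⁻¹ ∈ HU b L := by
  have h1 := nw_rot (L := L) h t
  have h2 : b1m b L i 1 * b1x b L (j : ι) t * (b1m b L i 1)⁻¹ = nw_T b L j i t := by
    have h3 : b1m b L i 1 * b1x b L (j : ι) t * (b1m b L i 1)⁻¹ = (b1m b L j 1)⁻¹ * (b1m b L j 1 * b1m b L i 1 * b1x b L (j : ι) t) * (b1m b L i 1)⁻¹ := by group
    rw [h3, h1]
    unfold nw_T
    group
  rw [h2]
  exact nw_T_HU h.symm t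

/-- conjugation by the longest element -/
theorem nw_Ni {i j : b.support} (h : Adj b i j) (t : L) : (b1m b L i 1 * b1m b L j 1 * b1m b L i 1) * b1x b L (i : ι) t = b1x b L (ng P (j : ι)) (-t) * (b1m b L i 1 * b1m b L j 1 * b1m b L i 1) := by
  have h1 := nw_rot (L := L) h.symm t
  rw [nw_braid h]
  calc b1m b L j 1 * b1m b L i 1 * b1m b L j 1 * b1x b L (i : ι) t = b1m b L j 1 * (b1m b L i 1 * b1m b L j 1 * b1x b L (i : ι) t) := by simp only [mul_assoc]
    _ = (b1m b L j 1 * b1x b L (j : ι) t) * (b1m b L i 1 * b1m b L j 1) := by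
      rw [h1]
      simp only [mul_assoc]
    _ = _ := by
      rw [nw_nx]
      simp only [mul_assoc]

theorem nw_Nj {i j : b.support} (h : Adj b i j) (t : L) : (b1m b L i 1 * b1m b L j 1 * b1m b L i 1) * b1x b L (j : ι) t = b1x b L (ng P (i : ι)) (-t) * (b1m b L i 1 * b1m b L j 1 * b1m b L i 1) := by
  have h1 := nw_rot (L := L) h t
  calc b1m b L i 1 * b1m b L j 1 * b1m b L i 1 * b1x b L (j : ι) t = b1m b L i 1 * (b1m b L j 1 * b1m b L i 1 * b1x b L (j : ι) t) := by simp only [mul_assoc]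
    _ = (b1m b L i 1 * b1x b L (i : ι) t) * (b1m b L j 1 * b1m b L i 1) := by
      rw [h1]
      simp only [mul_assoc]
    _ = _ := by
      rw [nw_nx]
      simp only [mul_assoc]

/-- the root element of `-(α_i + α_j)` -/
def nw_W (b : P.Base) (L : Type) [Field L] [NumberField L] (i j : b.support) (t : L) : GK b L := b1m b L i 1 * b1x b L (ng P (j : ι)) t * (b1m b L i 1)⁻¹

theorem nw_NT (i j : b.support) (t : L) : (b1m b L i 1 * b1m b L j 1 * b1m b L i 1) * nw_T b L i j t = nw_W b L i j (-t) * (b1m b L i 1 * b1m b L j 1 * b1m b L i 1) := by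
  unfold nw_T nw_W
  calc b1m b L i 1 * b1m b L j 1 * b1m b L i 1 * ((b1m b L i 1)⁻¹ * b1x b L (j : ι) t * b1m b L i 1)
      = b1m b L i 1 * (b1m b L j 1 * b1x b L (j : ι) t) * b1m b L i 1 := by group
    _ = _ := by
      rw [nw_nx]
      group

/-- The commutator formula for the negative roots. -/
theorem nw_commY {i j : b.support} (h : Adj b i j) (a c : L) : b1x b L (ng P (j : ι)) (-a) * b1x b L (ng P (i : ι)) (-c) = b1x b L (ng P (i : ι)) (-c) * nw_W b L i j (a * c) * b1x b L (ng P (j : ι)) (-a) := by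
  have h1 := nw_comm (L := L) h a c
  obtain ⟨N, hN⟩ : ∃ N, N = b1m b L i 1 * b1m b L j 1 * b1m b L i 1 := ⟨_, rfl⟩
  have n1 : N * b1x b L (i : ι) a = b1x b L (ng P (j : ι)) (-a) * N := by
    rw [hN]
    exact nw_Ni h a
  have n2 : N * b1x b L (j : ι) c = b1x b L (ng P (i : ι)) (-c) * N := by
    rw [hN]
    exact nw_Nj h c
  have n3 : N * nw_T b L i j (-(a * c)) = nw_W b L i j (a * c) * N := by
    rw [hN, nw_NT, neg_neg]
  have h2 : N * (b1x b L (i : ι) a * b1x b L (j : ι) c) = b1x b L (ng P (j : ι)) (-a) * b1x b L (ng P (i : ι)) (-c) * N := by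
    rw [← mul_assoc, n1, mul_assoc, n2, mul_assoc]
  have h3 : N * (b1x b L (j : ι) c * nw_T b L i j (-(a * c)) * b1x b L (i : ι) a) = b1x b L (ng P (i : ι)) (-c) * nw_W b L i j (a * c) * b1x b L (ng P (j : ι)) (-a) * N := by
    calc N * (b1x b L (j : ι) c * nw_T b L i j (-(a * c)) * b1x b L (i : ι) a) = (N * b1x b L (j : ι) c) * nw_T b L i j (-(a * c)) * b1x b L (i : ι) a := by simp only [mul_assoc]
      _ = b1x b L (ng P (i : ι)) (-c) * (N * nw_T b L i j (-(a * c))) * b1x b L (i : ι) a := by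
        rw [n2]
        simp only [mul_assoc]
      _ = b1x b L (ng P (i : ι)) (-c) * nw_W b L i j (a * c) * (N * b1x b L (i : ι) a) := by
        rw [n3]
        simp only [mul_assoc]
      _ = _ := by
        rw [n1]
        simp only [mul_assoc]
  rw [h1, h3] at h2
  exact (mul_right_cancel h2).symm

theorem nw_W_HV {i j : b.support} (h : Adj b i j) (t : L) : nw_W b L i j t ∈ HV b L := by
  have h1 := nw_commY (L := L) h t 1
  rw [mul_one] at h1
  have h2 : nw_W b L i j t = (b1x b L (ng P (i : ι)) (-1))⁻¹ * (b1x b L (ng P (j : ι)) (-t) * b1x b L (ng P (i : ι)) (-1)) * (b1x b L (ng P (j : ι)) (-t))⁻¹ := by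
    rw [h1]
    group
  rw [h2]
  exact mul_mem (mul_mem (inv_mem (nw_y_HV i _)) (mul_mem (nw_y_HV j _) (nw_y_HV i _))) (inv_mem (nw_y_HV j _))

/-- `x_i(-a) W(t) x_i(a) ∈ V`. -/
theorem nw_Y2 {i j : b.support} (h : Adj b i j) (a t : L) : (b1x b L (i : ι) a)⁻¹ * nw_W b L i j t * b1x b L (i : ι) a ∈ HV b L := by
  have h1 := nw_commY (L := L) h (-t) a
  rw [neg_neg] at h1
  have e1 : b1x b L (i : ι) a = b1m b L i 1 * b1x b L (ng P (i : ι)) (-a) * (b1m b L i 1)⁻¹ := by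
    rw [nw_ny, neg_neg, mul_inv_cancel_right]
  have e2 : (b1x b L (i : ι) a)⁻¹ * nw_W b L i j t * b1x b L (i : ι) a = b1m b L i 1 * ((b1x b L (ng P (i : ι)) (-a))⁻¹ * (b1x b L (ng P (j : ι)) t * b1x b L (ng P (i : ι)) (-a))) * (b1m b L i 1)⁻¹ := by
    rw [e1]
    unfold nw_W
    group
  have e3 : b1m b L i 1 * ((b1x b L (ng P (i : ι)) (-a))⁻¹ * (b1x b L (ng P (j : ι)) t * b1x b L (ng P (i : ι)) (-a))) * (b1m b L i 1)⁻¹ =
      ((b1m b L i 1 * b1m b L i 1) * b1x b L (ng P (j : ι)) (-t * a) * (b1m b L i 1 * b1m b L i 1)⁻¹) * nw_W b L i j t := by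
    rw [h1]
    unfold nw_W
    group
  rw [e2, e3, nw_nn]
  exact mul_mem (FC.TK_UG (nw_h_TK i _) (nw_y_HV j _)) (nw_W_HV h t)

/-- `y_i(-c) (n_i x_j(s) n_i⁻¹) y_i(c) ∈ U`. -/
theorem nw_X2 {i j : b.support} (h : Adj b i j) (c s : L) : b1x b L (ng P (i : ι)) (-c) * (b1m b L i 1 * b1x b L (j : ι) s * (b1m b L i 1)⁻¹) * (b1x b L (ng P (i : ι)) (-c))⁻¹ ∈ HU b L := by
  have h1 := nw_comm (L := L) h c s
  have e1 : b1x b L (ng P (i : ι)) (-c) = b1m b L i 1 * b1x b L (i : ι) c * (b1m b L i 1)⁻¹ := by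
    rw [nw_nx, mul_inv_cancel_right]
  have e2 : b1x b L (ng P (i : ι)) (-c) * (b1m b L i 1 * b1x b L (j : ι) s * (b1m b L i 1)⁻¹) * (b1x b L (ng P (i : ι)) (-c))⁻¹ =
      b1m b L i 1 * ((b1x b L (i : ι) c * b1x b L (j : ι) s) * (b1x b L (i : ι) c)⁻¹) * (b1m b L i 1)⁻¹ := by
    rw [e1]
    group
  have e3 : b1m b L i 1 * ((b1x b L (i : ι) c * b1x b L (j : ι) s) * (b1x b L (i : ι) c)⁻¹) * (b1m b L i 1)⁻¹ =
      (b1m b L i 1 * b1x b L (j : ι) s * (b1m b L i 1)⁻¹) * b1x b L (j : ι) (-(c * s)) := by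
    rw [h1]
    unfold nw_T
    group
  rw [e2, e3]
  exact mul_mem (nw_nxn h s) (nw_x_HU j _)

/-! ## 0c. Orthogonal words -/

/-- product of `x_j(t)` -/
def nw_X (b : P.Base) (L : Type) [Field L] [NumberField L] (l : List b.support) (t : L) : GK b L := (l.map fun j : b.support => b1x b L (j : ι) t).prod
/-- product of `y_j(t)` -/
def nw_Y (b : P.Base) (L : Type) [Field L] [NumberField L] (l : List b.support) (t : L) : GK b L := (l.map fun j : b.support => b1x b L (ng P (j : ι)) t).prod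

theorem nw_cX {l : List b.support} {t : L} {x : GK b L} (h : ∀ k ∈ l, x * b1x b L (k : ι) t = b1x b L (k : ι) t * x) : Commute x (nw_X b L l t) := by
  induction l with
  | nil => exact Commute.one_right x
  | cons i l ih =>
    have e : nw_X b L (i :: l) t = b1x b L (i : ι) t * nw_X b L l t := by
      unfold nw_X
      rw [List.map_cons, List.prod_cons]
    rw [e]
    exact Commute.mul_right (h i List.mem_cons_self) (ih fun k hk => h k (List.mem_cons_of_mem _ hk))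

theorem nw_cY {l : List b.support} {t : L} {x : GK b L} (h : ∀ k ∈ l, x * b1x b L (ng P (k : ι)) t = b1x b L (ng P (k : ι)) t * x) : Commute x (nw_Y b L l t) := by
  induction l with
  | nil => exact Commute.one_right x
  | cons i l ih =>
    have e : nw_Y b L (i :: l) t = b1x b L (ng P (i : ι)) t * nw_Y b L l t := by
      unfold nw_Y
      rw [List.map_cons, List.prod_cons]
    rw [e]
    exact Commute.mul_right (h i List.mem_cons_self) (ih fun k hk => h k (List.mem_cons_of_mem _ hk))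

theorem nw_xx {i j : b.support} (h : b.cartanMatrix i j = 0) (s t : L) : b1x b L (i : ι) s * b1x b L (j : ι) t = b1x b L (j : ι) t * b1x b L (i : ι) s := Subtype.ext (a1_xx h s t)

theorem nw_xy {i j : b.support} (h : i ≠ j) (s t : L) : b1x b L (i : ι) s * b1x b L (ng P (j : ι)) t = b1x b L (ng P (j : ι)) t * b1x b L (i : ι) s := Subtype.ext (a1_xy h s t)

theorem nw_yy {i j : b.support} (h : b.cartanMatrix i j = 0) (s t : L) : b1x b L (ng P (i : ι)) s * b1x b L (ng P (j : ι)) t = b1x b L (ng P (j : ι)) t * b1x b L (ng P (i : ι)) s := Subtype.ext (a1_yy h s t)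

theorem nw_m_eq (i : b.support) : b1m b L i 1 = b1x b L (i : ι) 1 * b1x b L (ng P (i : ι)) (-1) * b1x b L (i : ι) 1 := by
  refine Subtype.ext ?_
  show mG b i (1 : Lˣ) = xG b (i : ι) 1 * xG b (ng P (i : ι)) (-1) * xG b (i : ι) 1
  unfold mG
  rw [inv_one, Units.val_one]

theorem nw_grp {G : Type*} [Group G] {x y X Y : G} (h1 : Commute x X) (h2 : Commute x Y) (h3 : Commute y X) (h4 : Commute y Y) : X * Y * X * (x * y * x) = (x * X) * (y * Y) * (x * X) := by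
  have e1 := h1.eq
  have e2 := h2.eq
  have e3 := h3.eq
  have e4 := h4.eq
  calc X * Y * X * (x * y * x) = X * Y * (X * x) * y * x := by simp only [mul_assoc]
    _ = X * (Y * x) * X * y * x := by rw [← e1]; simp only [mul_assoc]
    _ = (X * x) * Y * X * y * x := by rw [← e2]; simp only [mul_assoc]
    _ = x * X * Y * (X * y) * x := by rw [← e1]; simp only [mul_assoc]
    _ = x * X * (Y * y) * X * x := by rw [← e3]; simp only [mul_assoc]
    _ = x * X * y * Y * (X * x) := by rw [← e4]; simp only [mul_assoc]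
    _ = _ := by rw [← e1]; simp only [mul_assoc]

theorem nw_list {l : List b.support} (hn : l.Nodup) (ho : ∀ j ∈ l, ∀ k ∈ l, j ≠ k → b.cartanMatrix j k = 0) : nW b L l = nw_X b L l 1 * nw_Y b L l (-1) * nw_X b L l 1 := by
  induction l with
  | nil =>
    show (1 : GK b L) = 1 * 1 * 1
    group
  | cons i l ih =>
    rw [List.nodup_cons] at hn
    have hne : ∀ k ∈ l, i ≠ k := fun k hk h => hn.1 (by rw [h]; exact hk)
    have h0 : ∀ k ∈ l, b.cartanMatrix i k = 0 := fun k hk => ho i List.mem_cons_self k (List.mem_cons_of_mem _ hk) (hne k hk)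
    have c1 : Commute (b1x b L (i : ι) 1) (nw_X b L l 1) := nw_cX fun k hk => nw_xx (h0 k hk) _ _
    have c2 : Commute (b1x b L (i : ι) 1) (nw_Y b L l (-1)) := nw_cY fun k hk => nw_xy (hne k hk) _ _
    have c3 : Commute (b1x b L (ng P (i : ι)) (-1)) (nw_X b L l 1) := nw_cX fun k hk => (nw_xy (hne k hk).symm _ _).symm
    have c4 : Commute (b1x b L (ng P (i : ι)) (-1)) (nw_Y b L l (-1)) := nw_cY fun k hk => nw_yy (h0 k hk) _ _
    have e1 : nw_X b L (i :: l) 1 = b1x b L (i : ι) 1 * nw_X b L l 1 := by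
      unfold nw_X
      rw [List.map_cons, List.prod_cons]
    have e2 : nw_Y b L (i :: l) (-1) = b1x b L (ng P (i : ι)) (-1) * nw_Y b L l (-1) := by
      unfold nw_Y
      rw [List.map_cons, List.prod_cons]
    show nW b L l * b1m b L i 1 = _
    rw [ih hn.2 fun j hj k hk => ho j (List.mem_cons_of_mem _ hj) k (List.mem_cons_of_mem _ hk), nw_m_eq, e1, e2]
    exact nw_grp c1 c2 c3 c4

theorem nw_perm (Q : QS b K L) (i : b.support) (s : L ≃ₐ[K] L) : ((orb Q i).toList.map (Q.da s).sp).Perm (orb Q i).toList := by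
  have hn : (orb Q i).toList.Nodup := Finset.nodup_toList _
  have hinj : Function.Injective (Q.da s).sp := fun a c hac => by
    have h3 := sp_cancel Q s a
    rw [hac, sp_cancel] at h3
    exact h3.symm
  refine (List.perm_ext_iff_of_nodup (hn.map hinj) hn).2 fun j => ?_
  rw [List.mem_map, Finset.mem_toList]
  constructor
  · rintro ⟨a, ha, rfl⟩
    exact c2_orb_sp Q i s (Finset.mem_toList.1 ha)
  · intro hj
    exact ⟨(Q.da s⁻¹).sp j, Finset.mem_toList.2 (c2_orb_sp Q i s⁻¹ hj), sp_cancel' Q s j⟩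

theorem nw_X_HU (l : List b.support) (t : L) : nw_X b L l t ∈ HU b L := by
  unfold nw_X
  refine Subgroup.list_prod_mem _ fun x hx => ?_
  rw [List.mem_map] at hx
  obtain ⟨k, _, e⟩ := hx
  rw [← e]
  exact nw_x_HU k t

theorem nw_Y_HV (l : List b.support) (t : L) : nw_Y b L l t ∈ HV b L := by
  unfold nw_Y
  refine Subgroup.list_prod_mem _ fun x hx => ?_
  rw [List.mem_map] at hx
  obtain ⟨k, _, e⟩ := hx
  rw [← e]
  exact nw_y_HV k t

theorem nw_tGX (Q : QS b K L) (s : L ≃ₐ[K] L) (l : List b.support) (t : L) : tG Q s (nw_X b L l t) = nw_X b L (l.map (Q.da s).sp) (s t) := by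
  induction l with
  | nil => exact map_one _
  | cons i l ih =>
    have e1 : nw_X b L (i :: l) t = b1x b L (i : ι) t * nw_X b L l t := by
      unfold nw_X
      rw [List.map_cons, List.prod_cons]
    have e2 : nw_X b L ((i :: l).map (Q.da s).sp) (s t) = b1x b L ((Q.da s).sp i : ι) (s t) * nw_X b L (l.map (Q.da s).sp) (s t) := by
      unfold nw_X
      rw [List.map_cons, List.map_cons, List.prod_cons]
    rw [e1, e2, map_mul, ih, tG_b1x]

theorem nw_tGY (Q : QS b K L) (s : L ≃ₐ[K] L) (l : List b.support) (t : L) : tG Q s (nw_Y b L l t) = nw_Y b L (l.map (Q.da s).sp) (s t) := by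
  induction l with
  | nil => exact map_one _
  | cons i l ih =>
    have e1 : nw_Y b L (i :: l) t = b1x b L (ng P (i : ι)) t * nw_Y b L l t := by
      unfold nw_Y
      rw [List.map_cons, List.prod_cons]
    have e2 : nw_Y b L ((i :: l).map (Q.da s).sp) (s t) = b1x b L (ng P ((Q.da s).sp i : ι)) (s t) * nw_Y b L (l.map (Q.da s).sp) (s t) := by
      unfold nw_Y
      rw [List.map_cons, List.map_cons, List.prod_cons]
    rw [e1, e2, map_mul, ih, tG_b1x_ng]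

theorem nw_pw {l : List b.support} {r : b.support → b.support → Prop} (h : ∀ j ∈ l, ∀ k ∈ l, r j k) : l.Pairwise r := by
  induction l with
  | nil => exact List.Pairwise.nil
  | cons i l ih =>
    rw [List.pairwise_cons]
    exact ⟨fun k hk => h i List.mem_cons_self k (List.mem_cons_of_mem _ hk), ih fun j hj k hk => h j (List.mem_cons_of_mem _ hj) k (List.mem_cons_of_mem _ hk)⟩

theorem nw_permX {l l' : List b.support} (h : l.Perm l') (ho : ∀ j ∈ l, ∀ k ∈ l, j ≠ k → b.cartanMatrix j k = 0) (t : L) : nw_X b L l t = nw_X b L l' t := by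
  unfold nw_X
  refine List.Perm.prod_eq' (h.map _) ?_
  rw [List.pairwise_map]
  refine nw_pw fun j hj k hk => ?_
  by_cases hjk : j = k
  · rw [hjk]
    exact Commute.refl _
  · exact nw_xx (ho j hj k hk hjk) t t

theorem nw_permY {l l' : List b.support} (h : l.Perm l') (ho : ∀ j ∈ l, ∀ k ∈ l, j ≠ k → b.cartanMatrix j k = 0) (t : L) : nw_Y b L l t = nw_Y b L l' t := by
  unfold nw_Y
  refine List.Perm.prod_eq' (h.map _) ?_
  rw [List.pairwise_map]
  refine nw_pw fun j hj k hk => ?_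
  by_cases hjk : j = k
  · rw [hjk]
    exact Commute.refl _
  · exact nw_yy (ho j hj k hk hjk) t t

/-- **An orthogonal orbit.** PROOF: all `x_i, y_i, n_i`, `i` in the orbit, commute with those of another element of the orbit (`a1_xx`, `a1_xy`, `a1_yy`), so `n_O = ∏ (x_j(1) y_j(-1) x_j(1)) = X Y X` with `X = ∏ x_j(1) ∈ HU` (`b1_pos`), `Y = ∏ y_j(-1) ∈ HV`; `tG s` permutes the factors
(`tG_b1x`, `tG_b1x_ng`), `List.Perm.prod_eq` or `Finset.noncommProd`; `mem_HQ_U`, `mem_HQ_V`. -/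
theorem nw_orth (Q : QS b K L) {i : b.support} (hO : ¬∃ j ∈ orb Q i, j ≠ i ∧ b.cartanMatrix i j ≠ 0) : nW b L (orb Q i).toList ∈ HQ Q := by
  have hn : (orb Q i).toList.Nodup := Finset.nodup_toList _
  have ho : ∀ j ∈ (orb Q i).toList, ∀ k ∈ (orb Q i).toList, j ≠ k → b.cartanMatrix j k = 0 := fun j hj k hk hjk =>
    H29Q.orth_pair hO (Finset.mem_toList.1 hj) (Finset.mem_toList.1 hk) hjk
  rw [nw_list hn ho]
  have hX : nw_X b L (orb Q i).toList 1 ∈ HQ Q := by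
    refine mem_HQ_U Q (nw_X_HU _ _) fun s => ?_
    rw [nw_tGX, map_one]
    exact (nw_permX (nw_perm Q i s).symm ho 1).symm
  have hY : nw_Y b L (orb Q i).toList (-1) ∈ HQ Q := by
    refine mem_HQ_V Q (nw_Y_HV _ _) fun s => ?_
    rw [nw_tGY, map_neg, map_one]
    exact (nw_permY (nw_perm Q i s).symm ho (-1)).symm
  exact mul_mem (mul_mem hX hY) hX

/-- **Rank one over the pair**: for `z ≠ 0`, `z' = - z - a c ≠ 0`: `n_i n_j n_i x_j(c) xt(z) x_i(a) = u₁ h_i(-1/z') h_j(-1/z) v'`, `u₁ ∈ U`, `v' ∈ V`. PROOF (check in `SL₃`: `e_i = E₁₂`, `e_j = E₂₃`, `u = [[1, a, -z], [0, 1, c], [0, 0, 1]]`, `N = [[0,0,1],[0,-1,0],[1,0,0]]`): with `N = n_i n_j n_i`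
`N x_j(c) N⁻¹ = y_i(-c)` (`a2_rot` and `nG_x`), `n_i xt(z) = x_j(z) n_i`, `n_j x_j(z) = x_j(-1/z) h_j(-1/z) y_j(1/z)`, so `N u = y_i(-c) n_i x_j(-1/z) h_j(-1/z) y_j(1/z) n_i x_i(a)`; `n_i x_j(-1/z) n_i⁻¹ =: X₁ ∈ U` (root `α_i + α_j`), `n_i h_j(s) n_i⁻¹ = h_i(s) h_j(s)`,
`n_i y_j(1/z) n_i = Y₁ h_i(-1)`, `Y₁ ∈ V` (root `-(α_i + α_j)`), `h_i(-1) x_i(a) = x_i(a) h_i(-1)`, `Y₁ x_i(a) = x_i(a) Y₂`, `Y₂ ∈ V` (conjugate by `n_i`: `[y_i, y_j]`), `y_i(-c) X₁ = X₂ y_i(-c)`, `X₂ ∈ U` (conjugate by `n_i`: `a2_comm`), torus elements normalise everything, and `y_i(-c) x_i(-a/z) = x_i(..) h_i(-z/z') y_i(..)` (`rk_yx`). -/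
theorem nw_cell {i j : b.support} (h : Adj b i j) (a c : L) (z z' : Lˣ) (hz : (z' : L) = -(z : L) - a * c) :
    ∃ u₁ ∈ HU b L, ∃ v ∈ HV b L, ∃ t ∈ TK b L, t.1 = hG b i (-z'⁻¹) * hG b j (-z⁻¹) ∧
      nW b L [i, j, i] * (b1x b L (j : ι) c * ((b1m b L i 1)⁻¹ * b1x b L (j : ι) (z : L) * b1m b L i 1) * b1x b L (i : ι) a) = u₁ * t * v := by
  have F1 := nw_rot (L := L) h c
  have F2 := nw_nx (L := L) i c
  have F3 := nw_n_x (L := L) j z
  have F4 := nw_nh_adj (L := L) h (-z⁻¹)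
  have F5 := nw_nn (L := L) i
  have F6 : nw_h b L i (-1) * b1x b L (i : ι) a = b1x b L (i : ι) a * nw_h b L i (-1) := by
    rw [nw_h_x, Units.val_neg, Units.val_one, neg_one_sq, one_mul]
  have F7 : nw_h b L i (-z⁻¹) * nw_h b L j (-z⁻¹) * b1x b L (i : ι) a = b1x b L (i : ι) (((-z⁻¹ : Lˣ) : L) * a) * (nw_h b L i (-z⁻¹) * nw_h b L j (-z⁻¹)) := by
    rw [mul_assoc, nw_hx_adj h, ← mul_assoc, nw_h_x, mul_assoc]
    congr 2
    have h0 : ((-z⁻¹ : Lˣ) : L) ≠ 0 := (-z⁻¹ : Lˣ).ne_zero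
    rw [Units.val_inv_eq_inv_val]
    field_simp
  obtain ⟨q, hq⟩ : ∃ q : Lˣ, q = -(z' * z⁻¹) := ⟨_, rfl⟩
  have hq1 : (q : L) = 1 + (-c) * (((-z⁻¹ : Lˣ) : L) * a) := by
    have hz0 : (z : L) ≠ 0 := z.ne_zero
    rw [hq, Units.val_neg, Units.val_mul, Units.val_neg, Units.val_inv_eq_inv_val, hz]
    field_simp
    ring
  have F8 : b1x b L (ng P (i : ι)) (-c) * b1x b L (i : ι) (((-z⁻¹ : Lˣ) : L) * a) = b1x b L (i : ι) ((((-z⁻¹ : Lˣ) : L) * a) * ((q⁻¹ : Lˣ) : L)) * nw_h b L i q⁻¹ * b1x b L (ng P (i : ι)) ((-c) * ((q⁻¹ : Lˣ) : L)) :=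
    Subtype.ext (rk_yx b i (-c) (((-z⁻¹ : Lˣ) : L) * a) q hq1)
  have hTe : nw_h b L i q⁻¹ * nw_h b L i (-z⁻¹) * nw_h b L j (-z⁻¹) * nw_h b L i (-1) = nw_h b L i (-z'⁻¹) * nw_h b L j (-z⁻¹) := by
    rw [mul_assoc, nw_h_comm j i, ← mul_assoc, ← nw_h_mul, ← nw_h_mul]
    congr 2
    rw [hq]
    refine Units.ext ?_
    have hz0 : (z : L) ≠ 0 := z.ne_zero
    have hz1 : (z' : L) ≠ 0 := z'.ne_zero
    simp only [Units.val_mul, Units.val_neg, Units.val_inv_eq_inv_val, Units.val_one]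
    field_simp
  set ni := b1m b L i 1 with hni
  set nj := b1m b L j 1 with hnj
  set cj := b1x b L (j : ι) c
  set ci := b1x b L (i : ι) c
  set di := b1x b L (ng P (i : ι)) (-c)
  set zj := b1x b L (j : ι) (z : L)
  set xs := b1x b L (j : ι) (-((z⁻¹ : Lˣ) : L)) with hxs
  set his := nw_h b L i (-z⁻¹)
  set hs := nw_h b L j (-z⁻¹)
  set yz := b1x b L (ng P (j : ι)) ((z⁻¹ : Lˣ) : L) with hyz
  set hm := nw_h b L i (-1) with hhm
  set ai := b1x b L (i : ι) a with hai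
  set as := b1x b L (i : ι) (((-z⁻¹ : Lˣ) : L) * a)
  set p := b1x b L (i : ι) ((((-z⁻¹ : Lˣ) : L) * a) * ((q⁻¹ : Lˣ) : L)) with hp
  set hq' := nw_h b L i q⁻¹
  set r := b1x b L (ng P (i : ι)) ((-c) * ((q⁻¹ : Lˣ) : L)) with hr
  have main : ni * nj * ni * (cj * (ni⁻¹ * zj * ni) * ai) =
      ((di * (ni * xs * ni⁻¹) * di⁻¹) * p) * (hq' * his * hs * hm) * (hm⁻¹ * (((his * hs)⁻¹ * r * (his * hs)) * (ai⁻¹ * (ni * yz * ni⁻¹) * ai)) * hm) := by
    calc ni * nj * ni * (cj * (ni⁻¹ * zj * ni) * ai) = ni * (nj * ni * cj) * ni⁻¹ * zj * ni * ai := by group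
      _ = (ni * ci) * (nj * zj) * ni * ai := by
        rw [F1]
        group
      _ = di * (ni * xs * ni⁻¹) * (ni * hs) * yz * ni * ai := by
        rw [F2, F3]
        group
      _ = di * (ni * xs * ni⁻¹) * (his * hs) * (ni * yz * ni⁻¹) * ((ni * ni) * ai) := by
        rw [F4]
        group
      _ = di * (ni * xs * ni⁻¹) * ((his * hs) * ai) * (ai⁻¹ * (ni * yz * ni⁻¹) * ai) * hm := by
        rw [F5, F6]
        group
      _ = (di * (ni * xs * ni⁻¹) * di⁻¹) * (di * as) * (his * hs) * (ai⁻¹ * (ni * yz * ni⁻¹) * ai) * hm := by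
        rw [F7]
        group
      _ = _ := by
        rw [F8]
        group
  have hTK : his * hs ∈ TK b L := mul_mem (nw_h_TK i _) (nw_h_TK j _)
  refine ⟨(di * (ni * xs * ni⁻¹) * di⁻¹) * p, ?_, hm⁻¹ * (((his * hs)⁻¹ * r * (his * hs)) * (ai⁻¹ * (ni * yz * ni⁻¹) * ai)) * hm, ?_, hq' * his * hs * hm, ?_, ?_, ?_⟩
  · exact mul_mem (nw_X2 h c _) (nw_x_HU i _)
  · have h1 : (his * hs)⁻¹ * r * (his * hs) ∈ HV b L := by
      have := FC.TK_UG (h := fun r => -ht b r) (inv_mem hTK) (nw_y_HV (L := L) i ((-c) * ((q⁻¹ : Lˣ) : L)))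
      rwa [inv_inv] at this
    have h2 : ai⁻¹ * (ni * yz * ni⁻¹) * ai ∈ HV b L := nw_Y2 h a _
    have := FC.TK_UG (h := fun r => -ht b r) (inv_mem (nw_h_TK (L := L) i (-1))) (mul_mem h1 h2)
    rwa [inv_inv] at this
  · exact mul_mem (mul_mem (mul_mem (nw_h_TK i _) (nw_h_TK i _)) (nw_h_TK j _)) (nw_h_TK i _)
  · rw [hTe]
    rfl
  · have e : nW b L [i, j, i] = ni * nj * ni := by
      show 1 * ni * nj * ni = ni * nj * ni
      rw [one_mul]
    rw [e]
    exact main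

/-! ## 0d. The adjacent pair: the Galois group -/

theorem nw_sp (Q : QS b K L) {i j : b.support} (h : Adj b i j) (hj : j ∈ orb Q i) (s : L ≃ₐ[K] L) : ((Q.da s).sp i = i ∧ (Q.da s).sp j = j) ∨ ((Q.da s).sp i = j ∧ (Q.da s).sp j = i) := by
  have h' : ∃ j ∈ orb Q i, j ≠ i ∧ b.cartanMatrix i j ≠ 0 := ⟨j, hj, h.ne.symm, by rw [h.1]; norm_num⟩
  obtain ⟨k, hk, hO, -, -, -⟩ := H29Q.ow_adj h'
  have hjk : j = k := by
    rw [hO, Finset.mem_insert, Finset.mem_singleton] at hj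
    exact hj.resolve_left h.ne.symm
  subst hjk
  have hi' : (Q.da s).sp i ∈ orb Q i := c2_orb_sp Q i s (c2_orb_self Q i)
  have hj' : (Q.da s).sp j ∈ orb Q i := c2_orb_sp Q i s hj
  rw [hO, Finset.mem_insert, Finset.mem_singleton] at hi' hj'
  have hne : (Q.da s).sp i ≠ (Q.da s).sp j := by
    intro he
    have h3 := sp_cancel Q s i
    rw [he, sp_cancel] at h3
    exact hk h3
  rcases hi' with hi' | hi'
  · rcases hj' with hj' | hj'
    · exact absurd (hi'.trans hj'.symm) hne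
    · exact Or.inl ⟨hi', hj'⟩
  · rcases hj' with hj' | hj'
    · exact Or.inr ⟨hi', hj'⟩
    · exact absurd (hi'.trans hj'.symm) hne

/-- The element of the quadratic extension. -/
theorem nw_delta (Q : QS b K L) {i j : b.support} (h : Adj b i j) (hj : j ∈ orb Q i) :
    ∃ δ : L, δ ≠ 0 ∧ ∀ s : L ≃ₐ[K] L, ((Q.da s).sp i = i → s δ = δ) ∧ ((Q.da s).sp i = j → s δ = -δ) := by
  classical
  have hfin : Finite (L ≃ₐ[K] L) := inferInstance
  have := Fintype.ofFinite (L ≃ₐ[K] L)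
  set χ : (L ≃ₐ[K] L) → L := fun s => if (Q.da s).sp i = i then 1 else -1 with hχ
  have hχ1 : ∀ s, (Q.da s).sp i = i → χ s = 1 := fun s hs => by simp only [hχ, if_pos hs]
  have hχ2 : ∀ s, (Q.da s).sp i = j → χ s = -1 := fun s hs => by
    have : ¬ (Q.da s).sp i = i := by rw [hs]; exact h.ne.symm
    simp only [hχ, if_neg this]
  have hmul : ∀ s t, χ (s * t) = χ s * χ t := by
    intro s t
    have e := sp_mul Q s t i
    rcases nw_sp Q h hj t with ⟨ht, ht'⟩ | ⟨ht, ht'⟩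
    · rcases nw_sp Q h hj s with ⟨hs, hs'⟩ | ⟨hs, hs'⟩
      · rw [hχ1 _ (by rw [e, ht, hs]), hχ1 _ ht, hχ1 _ hs, one_mul]
      · rw [hχ2 _ (by rw [e, ht, hs]), hχ1 _ ht, hχ2 _ hs, mul_one]
    · rcases nw_sp Q h hj s with ⟨hs, hs'⟩ | ⟨hs, hs'⟩
      · rw [hχ2 _ (by rw [e, ht, hs']), hχ2 _ ht, hχ1 _ hs, one_mul]
      · rw [hχ1 _ (by rw [e, ht, hs']), hχ2 _ ht, hχ2 _ hs, neg_mul_neg, one_mul]
  have hsq : ∀ s, χ s * χ s = 1 := by
    intro s
    rcases nw_sp Q h hj s with ⟨hs, -⟩ | ⟨hs, -⟩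
    · rw [hχ1 _ hs, one_mul]
    · rw [hχ2 _ hs, neg_mul_neg, one_mul]
  have hfix : ∀ s t : L ≃ₐ[K] L, s (χ t) = χ t := by
    intro s t
    rcases nw_sp Q h hj t with ⟨ht, -⟩ | ⟨ht, -⟩
    · rw [hχ1 _ ht, map_one]
    · rw [hχ2 _ ht, map_neg, map_one]
  have hex : ∃ x : L, ∑ s : L ≃ₐ[K] L, χ s * s x ≠ 0 := by
    by_contra hno
    push Not at hno
    have hlin := linearIndependent_monoidHom L L
    have hinj : Function.Injective (fun s : L ≃ₐ[K] L => ((s : L →+* L) : L →* L)) := by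
      intro s t hst
      ext x
      exact DFunLike.congr_fun hst x
    have hlin2 := hlin.comp _ hinj
    rw [Fintype.linearIndependent_iff] at hlin2
    have h1 := hlin2 χ (by
      funext x
      rw [Finset.sum_apply]
      exact hno x) 1
    have h2 := hsq 1
    rw [h1, zero_mul] at h2
    exact zero_ne_one h2
  obtain ⟨x, hx⟩ := hex
  have key : ∀ t : L ≃ₐ[K] L, t (∑ s : L ≃ₐ[K] L, χ s * s x) = χ t * ∑ s : L ≃ₐ[K] L, χ s * s x := by
    intro t
    rw [map_sum, Finset.mul_sum]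
    refine Fintype.sum_bijective (fun s => t * s) (Group.mulLeft_bijective t) _ _ fun s => ?_
    rw [map_mul, hfix, hmul, ← mul_assoc, ← mul_assoc, hsq, one_mul]
    rfl
  refine ⟨_, hx, fun s => ⟨fun hs => ?_, fun hs => ?_⟩⟩
  · rw [key, hχ1 _ hs, one_mul]
  · rw [key, hχ2 _ hs, neg_one_mul]

theorem nw_tGh (Q : QS b K L) (s : L ≃ₐ[K] L) (i : b.support) (y : Lˣ) : tG Q s (nw_h b L i y) = nw_h b L ((Q.da s).sp i) (sU s y) := by
  unfold nw_h
  rw [map_mul, map_inv, tG_b1m, tG_b1m]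
  have e : sU s 1 = 1 := map_one _
  rw [e]

theorem nw_tGT (Q : QS b K L) (s : L ≃ₐ[K] L) (i j : b.support) (y : L) : tG Q s (nw_T b L i j y) = nw_T b L ((Q.da s).sp i) ((Q.da s).sp j) (s y) := by
  unfold nw_T
  rw [map_mul, map_mul, map_inv, tG_b1m, tG_b1x]
  have e : sU s 1 = 1 := map_one _
  rw [e]

theorem nw_sU_inv (s : L ≃ₐ[K] L) {z w : Lˣ} (h : s (z : L) = w) : sU s (-z⁻¹) = -w⁻¹ := by
  refine Units.ext ?_
  show s (((-z⁻¹ : Lˣ)) : L) = _
  rw [Units.val_neg, Units.val_inv_eq_inv_val, map_neg, map_inv₀, h, Units.val_neg, Units.val_inv_eq_inv_val]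

/-- the unipotent element -/
def nw_u (b : P.Base) (L : Type) [Field L] [NumberField L] (i j : b.support) (a z : L) : GK b L := b1x b L (j : ι) a * nw_T b L i j z * b1x b L (i : ι) a

theorem nw_u_HU {i j : b.support} (h : Adj b i j) (a z : L) : nw_u b L i j a z ∈ HU b L := mul_mem (mul_mem (nw_x_HU j a) (nw_T_HU h z)) (nw_x_HU i a)

theorem nw_u_swap {i j : b.support} (h : Adj b i j) {a z z' : L} (hz : z' = -z - a * a) : nw_u b L j i a z' = nw_u b L i j a z := by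
  unfold nw_u
  rw [nw_Tsymm h]
  have e3 : -z' = z + a * a := by
    rw [hz]
    ring
  rw [e3]
  have e4 := nw_comm (L := L) h a a
  have e5 := nw_Ti (L := L) h (z + a * a) a
  have e6 := nw_Tj (L := L) h (z + a * a) a
  have e7 : nw_T b L i j (z + a * a) * nw_T b L i j (-(a * a)) = nw_T b L i j z := by
    rw [← nw_Tadd, add_neg_cancel_right]
  calc b1x b L (i : ι) a * nw_T b L i j (z + a * a) * b1x b L (j : ι) a = nw_T b L i j (z + a * a) * (b1x b L (i : ι) a * b1x b L (j : ι) a) := by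
        rw [← e5, mul_assoc]
    _ = (nw_T b L i j (z + a * a) * b1x b L (j : ι) a) * nw_T b L i j (-(a * a)) * b1x b L (i : ι) a := by
        rw [e4]
        simp only [mul_assoc]
    _ = b1x b L (j : ι) a * (nw_T b L i j (z + a * a) * nw_T b L i j (-(a * a))) * b1x b L (i : ι) a := by
        rw [e6]
        simp only [mul_assoc]
    _ = b1x b L (j : ι) a * nw_T b L i j z * b1x b L (i : ι) a := by rw [e7]

theorem nw_tGu (Q : QS b K L) (s : L ≃ₐ[K] L) (i j : b.support) (a z : L) : tG Q s (nw_u b L i j a z) = nw_u b L ((Q.da s).sp i) ((Q.da s).sp j) (s a) (s z) := by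
  unfold nw_u
  rw [map_mul, map_mul, nw_tGT, tG_b1x, tG_b1x]

theorem nw_N_fix (Q : QS b K L) {i j : b.support} (h : Adj b i j) (hj : j ∈ orb Q i) (s : L ≃ₐ[K] L) : tG Q s (nW b L [i, j, i]) = nW b L [i, j, i] := by
  rw [tG_nW]
  have e1 : [i, j, i].map (Q.da s).sp = [(Q.da s).sp i, (Q.da s).sp j, (Q.da s).sp i] := rfl
  rw [e1]
  rcases nw_sp Q h hj s with ⟨hs, hs'⟩ | ⟨hs, hs'⟩
  · rw [hs, hs']
  · rw [hs, hs']
    have e2 : nW b L [j, i, j] = b1m b L j 1 * b1m b L i 1 * b1m b L j 1 := by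
      show 1 * b1m b L j 1 * b1m b L i 1 * b1m b L j 1 = _
      rw [one_mul]
    have e3 : nW b L [i, j, i] = b1m b L i 1 * b1m b L j 1 * b1m b L i 1 := by
      show 1 * b1m b L i 1 * b1m b L j 1 * b1m b L i 1 = _
      rw [one_mul]
    rw [e2, e3]
    exact (nw_braid h).symm

/-- The uniqueness of the decomposition. -/
theorem nw_uniq (Q : QS b K L) {n u u₁ t v : GK b L} (e : n * u = u₁ * t * v) (hn : ∀ s, tG Q s n = n) (hu : ∀ s, tG Q s u = u) (huU : u ∈ HU b L) (hu₁ : u₁ ∈ HU b L) (hv : v ∈ HV b L)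
    (hT : t ∈ TK b L) (htf : ∀ s, tG Q s t = t) : t⁻¹ * n ∈ HQ Q := by
  have huniq : ∀ s, tG Q s u₁ = u₁ ∧ tG Q s v = v := by
    intro s
    have e1 : tG Q s u₁ * t * tG Q s v = u₁ * t * v := by
      have e2 := congrArg (tG Q s) e
      rw [map_mul, hn, hu, map_mul, map_mul, htf, e] at e2
      exact e2.symm
    have hU : u₁⁻¹ * tG Q s u₁ ∈ HU b L := mul_mem (inv_mem hu₁) ((tG_HU Q s u₁).2 hu₁)
    have hV : u₁⁻¹ * tG Q s u₁ ∈ HV b L := by
      have e3 : u₁⁻¹ * tG Q s u₁ = t * (v * (tG Q s v)⁻¹) * t⁻¹ := by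
        have e4 : u₁⁻¹ * tG Q s u₁ = u₁⁻¹ * (tG Q s u₁ * t * tG Q s v) * (tG Q s v)⁻¹ * t⁻¹ := by group
        rw [e4, e1]
        group
      rw [e3]
      exact FC.TK_UG hT (mul_mem hv (inv_mem ((tG_HV Q s v).2 hv)))
    have e5 := FC.HU_HV hU hV
    have e6 : tG Q s u₁ = u₁ := by
      have e7 : tG Q s u₁ = u₁ * (u₁⁻¹ * tG Q s u₁) := by group
      rw [e7, e5, mul_one]
    refine ⟨e6, ?_⟩
    rw [e6] at e1
    exact mul_left_cancel e1
  have huQ : u ∈ HQ Q := mem_HQ_U Q huU hu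
  have hvQ : v ∈ HQ Q := mem_HQ_V Q hv fun s => (huniq s).2
  have hwQ : t⁻¹ * u₁ * t ∈ HQ Q := by
    refine mem_HQ_U Q ?_ fun s => ?_
    · have := FC.TK_HU (inv_mem hT) hu₁
      rwa [inv_inv] at this
    · rw [map_mul, map_mul, map_inv, htf, (huniq s).1]
  have e8 : t⁻¹ * n = (t⁻¹ * u₁ * t) * v * u⁻¹ := by
    have e9 : t⁻¹ * n = t⁻¹ * (n * u) * u⁻¹ := by group
    rw [e9, e]
    group
  rw [e8]
  exact mul_mem (mul_mem hwQ hvQ) (inv_mem huQ)

theorem nw_cell' {i j : b.support} (h : Adj b i j) (a : L) (z z' : Lˣ) (hz : (z' : L) = -(z : L) - a * a) :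
    ∃ u₁ ∈ HU b L, ∃ v ∈ HV b L, nW b L [i, j, i] * nw_u b L i j a z = u₁ * (nw_h b L i (-z'⁻¹) * nw_h b L j (-z⁻¹)) * v := by
  obtain ⟨u₁, hu₁, v, hv, t, ht, hte, e⟩ := nw_cell h a a z z' hz
  have htt : t = nw_h b L i (-z'⁻¹) * nw_h b L j (-z⁻¹) := Subtype.ext hte
  refine ⟨u₁, hu₁, v, hv, ?_⟩
  rw [← htt, ← e]
  rfl

/-- One instance. -/
theorem nw_inst (Q : QS b K L) {i j : b.support} (h : Adj b i j) (hj : j ∈ orb Q i) {a : L} (ha : ∀ s : L ≃ₐ[K] L, s a = a) (z z' : Lˣ) (hz : (z' : L) = -(z : L) - a * a)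
    (h1 : ∀ s : L ≃ₐ[K] L, (Q.da s).sp i = i → s (z : L) = z) (h2 : ∀ s : L ≃ₐ[K] L, (Q.da s).sp i = j → s (z : L) = z') :
    (nw_h b L i (-z'⁻¹) * nw_h b L j (-z⁻¹))⁻¹ * nW b L [i, j, i] ∈ HQ Q := by
  have h1' : ∀ s : L ≃ₐ[K] L, (Q.da s).sp i = i → s (z' : L) = z' := by
    intro s hs
    rw [hz, map_sub, map_neg, map_mul, h1 s hs, ha]
  have h2' : ∀ s : L ≃ₐ[K] L, (Q.da s).sp i = j → s (z' : L) = z := by
    intro s hs
    rw [hz, map_sub, map_neg, map_mul, h2 s hs, ha, hz]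
    ring
  obtain ⟨u₁, hu₁, v, hv, e⟩ := nw_cell' h a z z' hz
  refine nw_uniq Q e (nw_N_fix Q h hj) ?_ (nw_u_HU h a z) hu₁ hv (mul_mem (nw_h_TK i _) (nw_h_TK j _)) ?_
  · intro s
    rw [nw_tGu, ha]
    rcases nw_sp Q h hj s with ⟨hs, hs'⟩ | ⟨hs, hs'⟩
    · rw [hs, hs', h1 s hs]
    · rw [hs, hs', h2 s hs]
      exact nw_u_swap h hz
  · intro s
    rw [map_mul, nw_tGh, nw_tGh]
    rcases nw_sp Q h hj s with ⟨hs, hs'⟩ | ⟨hs, hs'⟩
    · rw [hs, hs', nw_sU_inv s (h1 s hs), nw_sU_inv s (h1' s hs)]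
    · rw [hs, hs', nw_sU_inv s (h2 s hs), nw_sU_inv s (h2' s hs), nw_h_comm]

/-- **The adjacent pair.** PROOF. Let `F = L^(Stab i)`, `σ = s` with `s i = j`: then `Stab i = Stab j` has index 2 in the Galois group, `s² ∈ Stab i`, and there is `δ ∈ L`, `δ ≠ 0`, fixed by `Stab i` with `s δ = - δ` for `s ∉ Stab i` (`F / K` is quadratic: take `x ∈ F`, `x ∉ K`, `δ = x - s x`).
For `a, z ∈ F` with `z + s z = - a s(a)`, `z ≠ 0`, put `c = s(a)`, `z' = s(z) = - z - a c`: `u(a, z) = x_j(c) xt(z) x_i(a)` is fixed by all `tG t` (`tG_b1x`, `a2_symm`, `a2_comm`), so it is in `HQ Q` (`mem_HQ_U`). `N = nW [i, j, i]` is fixed (`tG_nW`, `a2_braid`). By `nw_cell` `N u = u₁ t v`; apply `tG s`: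
`t` is fixed (`tG_b1m`), and the decomposition `U T V` is unique (`HU ∩ (HV TK)` trivial), so `u₁`, `v` are fixed and in `HQ Q`; so `t⁻¹ N = (t⁻¹ u₁ t) v u⁻¹ ∈ HQ Q`, `t = τ(-1/z)`, `τ(y) = h_i(s y) h_j(y)` multiplicative (`hG_mul`, torus commutative).
Take `z₁ = -δ` (`a = 0`), `z₂ = -(1 + δ⁻¹)/2` (`a = 1`), `z₃ = -(1 + δ)/2` (`a = 1`): `z₁ z₂ = - z₃`, so `t₁ t₂ = t₃` and `(t₁⁻¹ N) (t₃⁻¹ N)⁻¹ (t₂⁻¹ N) = N`. -/
theorem nw_adj (Q : QS b K L) [IsGalois K L] {i j : b.support} (h : Adj b i j) (hj : j ∈ orb Q i) : nW b L [i, j, i] ∈ HQ Q := by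
  obtain ⟨δ, hδ, hs⟩ := nw_delta Q h hj
  obtain ⟨s₀, hs₀⟩ : ∃ s, (Q.da s).sp i = j := by
    have hj2 := hj
    unfold orb at hj2
    rw [Finset.mem_filter] at hj2
    exact hj2.2
  have h2 : (2 : L) ≠ 0 := two_ne_zero
  have hδ1 : δ ≠ 1 := by
    rintro rfl
    have h3 := (hs s₀).2 hs₀
    rw [map_one] at h3
    have h4 : (2 : L) = 0 := by linear_combination h3
    exact h2 h4
  have hδ2 : δ ≠ -1 := by
    rintro rfl
    have h3 := (hs s₀).2 hs₀
    rw [map_neg, map_one, neg_neg] at h3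
    have h4 : (2 : L) = 0 := by linear_combination -h3
    exact h2 h4
  have n1 : 1 + δ ≠ 0 := fun h0 => hδ2 (by linear_combination h0)
  have n2 : 1 - δ ≠ 0 := fun h0 => hδ1 (by linear_combination -h0)
  -- the three instances
  set z₁ : Lˣ := Units.mk0 (-δ) (neg_ne_zero.2 hδ) with hz₁
  set z₁' : Lˣ := Units.mk0 δ hδ with hz₁'
  have n3 : -(1 + δ) / (2 * δ) ≠ 0 := div_ne_zero (neg_ne_zero.2 n1) (mul_ne_zero h2 hδ)
  have n4 : (1 - δ) / (2 * δ) ≠ 0 := div_ne_zero n2 (mul_ne_zero h2 hδ)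
  have n5 : -(1 + δ) / 2 ≠ 0 := div_ne_zero (neg_ne_zero.2 n1) h2
  have n6 : -(1 - δ) / 2 ≠ 0 := div_ne_zero (neg_ne_zero.2 n2) h2
  set z₂ : Lˣ := Units.mk0 _ n3 with hz₂
  set z₂' : Lˣ := Units.mk0 _ n4 with hz₂'
  set z₃ : Lˣ := Units.mk0 _ n5 with hz₃
  set z₃' : Lˣ := Units.mk0 _ n6 with hz₃'
  have m2 : ∀ s : L ≃ₐ[K] L, s 2 = 2 := fun s => map_ofNat s 2
  have A1 := nw_inst Q h hj (a := 0) (fun s => map_zero s) z₁ z₁' (by
      show δ = -(-δ) - 0 * 0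
      ring) (fun s hs' => by
      show s (-δ) = -δ
      rw [map_neg, (hs s).1 hs']) (fun s hs' => by
      show s (-δ) = δ
      rw [map_neg, (hs s).2 hs', neg_neg])
  have A2 := nw_inst Q h hj (a := 1) (fun s => map_one s) z₂ z₂' (by
      show (1 - δ) / (2 * δ) = -(-(1 + δ) / (2 * δ)) - 1 * 1
      field_simp
      ring) (fun s hs' => by
      show s (-(1 + δ) / (2 * δ)) = -(1 + δ) / (2 * δ)
      rw [map_div₀, map_neg, map_add, map_one, map_mul, m2, (hs s).1 hs']) (fun s hs' => by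
      show s (-(1 + δ) / (2 * δ)) = (1 - δ) / (2 * δ)
      rw [map_div₀, map_neg, map_add, map_one, map_mul, m2, (hs s).2 hs']
      field_simp
      ring)
  have A3 := nw_inst Q h hj (a := 1) (fun s => map_one s) z₃ z₃' (by
      show -(1 - δ) / 2 = -(-(1 + δ) / 2) - 1 * 1
      ring) (fun s hs' => by
      show s (-(1 + δ) / 2) = -(1 + δ) / 2
      rw [map_div₀, map_neg, map_add, map_one, m2, (hs s).1 hs']) (fun s hs' => by
      show s (-(1 + δ) / 2) = -(1 - δ) / 2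
      rw [map_div₀, map_neg, map_add, map_one, m2, (hs s).2 hs']
      ring)
  have e1 : (-z₁'⁻¹) * (-z₂'⁻¹) = -z₃'⁻¹ := by
    refine Units.ext ?_
    simp only [Units.val_mul, Units.val_neg, Units.val_inv_eq_inv_val]
    show -δ⁻¹ * -((1 - δ) / (2 * δ))⁻¹ = -(-(1 - δ) / 2)⁻¹
    field_simp
  have e2 : (-z₁⁻¹) * (-z₂⁻¹) = -z₃⁻¹ := by
    refine Units.ext ?_
    simp only [Units.val_mul, Units.val_neg, Units.val_inv_eq_inv_val]
    show -(-δ)⁻¹ * -(-(1 + δ) / (2 * δ))⁻¹ = -(-(1 + δ) / 2)⁻¹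
    field_simp
  have e3 : (nw_h b L i (-z₁'⁻¹) * nw_h b L j (-z₁⁻¹)) * (nw_h b L i (-z₂'⁻¹) * nw_h b L j (-z₂⁻¹)) = nw_h b L i (-z₃'⁻¹) * nw_h b L j (-z₃⁻¹) := by
    calc (nw_h b L i (-z₁'⁻¹) * nw_h b L j (-z₁⁻¹)) * (nw_h b L i (-z₂'⁻¹) * nw_h b L j (-z₂⁻¹))
        = nw_h b L i (-z₁'⁻¹) * (nw_h b L j (-z₁⁻¹) * nw_h b L i (-z₂'⁻¹)) * nw_h b L j (-z₂⁻¹) := by simp only [mul_assoc]
      _ = (nw_h b L i (-z₁'⁻¹) * nw_h b L i (-z₂'⁻¹)) * (nw_h b L j (-z₁⁻¹) * nw_h b L j (-z₂⁻¹)) := by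
        rw [nw_h_comm j i]
        simp only [mul_assoc]
      _ = _ := by rw [← nw_h_mul, ← nw_h_mul, e1, e2]
  have e4 : nW b L [i, j, i] = ((nw_h b L i (-z₁'⁻¹) * nw_h b L j (-z₁⁻¹))⁻¹ * nW b L [i, j, i]) * ((nw_h b L i (-z₃'⁻¹) * nw_h b L j (-z₃⁻¹))⁻¹ * nW b L [i, j, i])⁻¹ *
      ((nw_h b L i (-z₂'⁻¹) * nw_h b L j (-z₂⁻¹))⁻¹ * nW b L [i, j, i]) := by
    rw [← e3]
    group
  rw [e4]
  exact mul_mem (mul_mem A1 (inv_mem A3)) A2

/-- PROOF: `ow`: by cases; the adjacent case: the other element of the orbit with `a_ij ≠ 0` has the same length, so `a_ij = a_ji` and it is `-1` (`H29Q/GC4A`, `C2`: see what is there: c2_adj_root; a simply laced connected diagram with a nontrivial automorphism, or `a_ij a_ji ≤ 3`). -/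
theorem nW_ow (Q : QS b K L) [IsGalois K L] (i : b.support) : nW b L (ow Q i) ∈ HQ Q := by
  by_cases hO : ∃ j ∈ orb Q i, j ≠ i ∧ b.cartanMatrix i j ≠ 0
  · obtain ⟨j, hj, hO', hw, h1, h2⟩ := H29Q.ow_adj hO
    rw [hw]
    exact nw_adj Q ⟨h1, h2⟩ (by rw [hO']; simp)
  · rw [H29Q.ow_orth hO]
    exact nw_orth Q hO

theorem nW_rw (Q : QS b K L) [IsGalois K L] (l : List b.support) : nW b L (rw Q l) ∈ HQ Q := by
  induction l with
  | nil => exact one_mem _
  | cons i l ih =>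
    have e : rw Q (i :: l) = ow Q i ++ rw Q l := rfl
    rw [e, nW_append]
    exact mul_mem ih (nW_ow Q i)

end

end Pool.Agent.Lib.L8.QF
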