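import Pool.Agent.Lib.L8.QF.RO5
import Pool.Agent.Lib.L8.QF.NW
import Pool.Agent.Lib.H29Q.GH

/-!
# QF, C4 (helper29): the finite part of the count, from the estimate for the adjacent orbits
-/

namespace Pool.Agent.Lib.L8.QF

open MeasureTheory Matrix NumberField IsDedekindDomain Pool.Agent.Lib.H89N Pool.Agent.Lib.H33W Pool.Agent.Lib.H67G Pool.Agent.Lib.L1S Pool.Agent.Lib.L8 Pool.Agent.Lib.L8.FL
open scoped ENNReal

noncomputable section

set_option linter.unusedSectionVars false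

variable {ι M N : Type} [Fintype ι] [DecidableEq ι] [AddCommGroup M] [Module ℚ M] [AddCommGroup N] [Module ℚ N]
  {P : RootPairing ι ℚ M N} [P.IsCrystallographic] [P.IsReduced] [P.IsIrreducible] [P.IsRootSystem]
  {b : P.Base} {K L : Type} [Field K] [NumberField K] [Field L] [NumberField L] [Algebra K L]

/-- The representatives of the orbits are fixed. -/
theorem nq_HF (Q : QS b K L) [IsGalois K L] (i : b.support) : H29Q.nq Q i ∈ H29Q.HF Q := by
  have h := H29Q.HQ_le_HF Q (nW_rw Q [i])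
  rw [H29Q.rw_one] at h
  exact h

/-- The estimate for the adjacent orbits. -/
def AdjR (Q : QS b K L) : Prop :=
  ∀ i : b.support, ¬H29Q.Orth Q i → ∀ κ : ℝ, 1 < κ → ∀ e : b.support → ℝ, InvE Q e → PosW b κ e (ow Q i) → ∀ δ : ℝ, 0 < δ → ∃ Z : ℝ, 1 ≤ Z ∧ H29Q.RankQ Q i e δ Z

/-- **The finite part (C4Q).** -/
theorem finQ_adj (Q : QS b K L) [IsGalois K L] (hA : AdjR Q) : FinQ Q :=
  H29Q.finQ_of Q (nq_HF Q) fun κ hκ i e he hP δ hδ => by
    by_cases h : H29Q.Orth Q i
    · exact rankQ_orth Q h hκ he hP hδ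
    · exact hA i h κ hκ e he hP δ hδ

end

end Pool.Agent.Lib.L8.QF
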