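import Pool.Agent.Lib.L8.QF.H3
import Pool.Agent.Lib.L8.FU.V1

/-!
# QF, H4 (helper80): the contraction of the real unipotent group and the measures for a group `H` with `HypH`, `HypD`
-/

namespace Pool.Agent.Lib.L8.QF

set_option linter.unusedSectionVars false

open MeasureTheory Matrix NumberField IsDedekindDomain Pool.Agent.Lib.H89N Pool.Agent.Lib.H33W Pool.Agent.Lib.H67G Pool.Agent.Lib.L1S Pool.Agent.Lib.L8.FL Pool.Agent.Lib.L8.FC Pool.Agent.Lib.L8.FU Topology Filter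
open scoped ENNReal

noncomputable section

variable {ι M N : Type} [Fintype ι] [DecidableEq ι] [AddCommGroup M] [Module ℚ M] [AddCommGroup N] [Module ℚ N]
  {P : RootPairing ι ℚ M N} [P.IsCrystallographic] [P.IsReduced] [P.IsIrreducible] [P.IsRootSystem]

variable {b : P.Base} {L : Type} [Field L] [NumberField L] {H : Subgroup (GK b L)} {J : Finset b.support}

/-- Conjugation by the diagonal elements with the entries `2 ^ (m ht r)` preserves `U(K)`. -/
def HypD (H : Subgroup (GK b L)) : Prop :=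
  ∀ (d : GK b L) (m : ℤ), d.1.1 = Matrix.diagonal (fun r => (2 : L) ^ (m * ht b r)) → ∀ u : GK b L, u ∈ H → u ∈ HU b L → d * u * d⁻¹ ∈ H

theorem hypD_top (hT : H = ⊤) : HypD H := fun d m _ u _ _ => by
  rw [hT]
  exact Subgroup.mem_top _

theorem hypD_HQ {K : Type} [Field K] [NumberField K] [Algebra K L] (Q : QS b K L) : HypD (HQ Q) := by
  intro d m hd u hu hU
  have hds : ∀ s, tG Q s d = d := by
    intro s
    refine Subtype.ext (Units.ext (Matrix.ext fun r c => ?_))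
    obtain ⟨r, rfl⟩ := (Q.da s).pI.surjective r
    obtain ⟨c, rfl⟩ := (Q.da s).pI.surjective c
    have e : (tG Q s d).1.1 ((Q.da s).pI r) ((Q.da s).pI c) = s (d.1.1 r c) := tG_entry Q s d r c
    rw [e, hd]
    by_cases h : r = c
    · subst h
      rw [Matrix.diagonal_apply_eq, Matrix.diagonal_apply_eq, map_zpow₀, map_ofNat, DA.ht_pI]
    · rw [Matrix.diagonal_apply_ne _ h, Matrix.diagonal_apply_ne _ fun e => h ((Q.da s).pI.injective e), map_zero]
  have hdT : d ∈ TK b L := by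
    have key : ∀ r c, r ≠ c → d.1.1 r c = 0 := fun r c hrc => by rw [hd, Matrix.diagonal_apply_ne _ hrc]
    have hdi : d⁻¹.1.1 = Matrix.diagonal (fun r => (2 : L) ^ (-(m * ht b r))) := by
      have e1 : d.1.1 * (Matrix.diagonal fun r => (2 : L) ^ (-(m * ht b r))) = 1 := by
        rw [hd, Matrix.diagonal_mul_diagonal, ← Matrix.diagonal_one]
        congr 1
        funext r
        rw [← zpow_add₀ (two_ne_zero : (2 : L) ≠ 0), add_neg_cancel, zpow_zero]
      have e2 : d⁻¹.1.1 * d.1.1 = 1 := d.1.inv_mul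
      calc d⁻¹.1.1 = d⁻¹.1.1 * (d.1.1 * Matrix.diagonal fun r => (2 : L) ^ (-(m * ht b r))) := by rw [e1, Matrix.mul_one]
        _ = _ := by rw [← Matrix.mul_assoc, e2, Matrix.one_mul]
    exact fun r c hrc => ⟨key r c hrc, by rw [hdi, Matrix.diagonal_apply_ne _ hrc]⟩
  exact mem_HQ_U Q (FC.TK_HU hdT hU) fun s => by rw [map_mul, map_mul, map_inv, hds, tG_fix Q s hu]

/-- The diagonal element of the contraction. -/
theorem h4_d (b : P.Base) (L : Type) [Field L] [NumberField L] : ∃ (d : GK b L) (m : ℤ), 0 < m ∧ d.1.1 = Matrix.diagonal (fun r => (2 : L) ^ (-m * ht b r)) ∧ d⁻¹.1.1 = Matrix.diagonal fun r => (2 : L) ^ (m * ht b r) := by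
  obtain ⟨c, m, hm, hc⟩ := c5i_c b
  obtain ⟨d, hd⟩ := de_lam (b := b) (K := L) c (Units.mk0 (2 : L) two_ne_zero)
  have hd1 : d.1.1 = Matrix.diagonal (fun r => (2 : L) ^ (-m * ht b r)) := by
    rw [hd]
    congr 1
    funext r
    rw [Units.val_mk0, hc, neg_mul]
  refine ⟨d, m, hm, hd1, ?_⟩
  have e1 : d.1.1 * (Matrix.diagonal fun r => (2 : L) ^ (m * ht b r)) = 1 := by
    rw [hd1, Matrix.diagonal_mul_diagonal, ← Matrix.diagonal_one]
    congr 1
    funext r
    rw [← zpow_add₀ (two_ne_zero : (2 : L) ≠ 0), neg_mul, neg_add_cancel, zpow_zero]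
  have e2 : d⁻¹.1.1 * d.1.1 = 1 := d.1.inv_mul
  calc d⁻¹.1.1 = d⁻¹.1.1 * (d.1.1 * Matrix.diagonal fun r => (2 : L) ^ (m * ht b r)) := by rw [e1, Matrix.mul_one]
    _ = _ := by rw [← Matrix.mul_assoc, e2, Matrix.one_mul]

/-- Conjugation by a diagonal element. -/
theorem h4_conj {d : GK b L} {m : ℤ} (hd : d.1.1 = Matrix.diagonal (fun r => (2 : L) ^ (-m * ht b r))) (hd' : d⁻¹.1.1 = Matrix.diagonal fun r => (2 : L) ^ (m * ht b r)) (g : GR b L) (r c : I b) :
    (emb b L d * g * (emb b L d)⁻¹).1.1 r c = ((2 : ℝ) ^ (-(m * (ht b r - ht b c)))) • g.1.1 r c := by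
  have e1 : (emb b L d * g * (emb b L d)⁻¹).1.1 = d.1.1.map (mixedEmbedding L) * g.1.1 * d⁻¹.1.1.map (mixedEmbedding L) := by
    rw [← map_inv]
    rfl
  rw [e1, hd, hd', Matrix.diagonal_map (map_zero _), Matrix.diagonal_map (map_zero _), Matrix.mul_diagonal, Matrix.diagonal_mul]
  show mixedEmbedding L ((2 : L) ^ (-m * ht b r)) * g.1.1 r c * mixedEmbedding L ((2 : L) ^ (m * ht b c)) = _
  rw [c5i_me, c5i_me, smul_mul_assoc, one_mul, mul_smul_comm, mul_one, smul_smul, ← zpow_add₀ (two_ne_zero : (2 : ℝ) ≠ 0)]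
  congr 2
  ring

theorem h4_mem (hD : HypD H) (hdn : ∀ u : UHR H, u ∈ closure (Set.range (kUH H))) {d : GK b L} {m : ℤ} (hd : d.1.1 = Matrix.diagonal (fun r => (2 : L) ^ (m * ht b r))) (g : UHR H) :
    emb b L d * g.1.1 * (emb b L d)⁻¹ ∈ HRs H := by
  have hc : Continuous fun g : UHR H => emb b L d * g.1.1 * (emb b L d)⁻¹ := (continuous_const.mul (continuous_subtype_val.comp continuous_subtype_val)).mul continuous_const
  have h1 := map_mem_closure hc (hdn g) (t := (HRs H : Set (GR b L))) (by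
    rintro _ ⟨v, rfl⟩
    have h2 : d * v.1.1 * d⁻¹ ∈ H := hD d m hd _ v.1.2 v.2
    have e : emb b L d * (kUH H v).1.1 * (emb b L d)⁻¹ = (embH H ⟨_, h2⟩).1 := by
      show emb b L d * emb b L v.1.1 * (emb b L d)⁻¹ = emb b L (d * v.1.1 * d⁻¹)
      rw [map_mul, map_mul, map_inv]
    show emb b L d * (kUH H v).1.1 * (emb b L d)⁻¹ ∈ HRs H
    rw [e]
    exact (embH H ⟨_, h2⟩).2)
  rwa [(HRs_closed H).closure_eq] at h1

/-- **The contracting automorphism of `U`.** -/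
theorem h4_phi (hD : HypD H) (hdn : ∀ u : UHR H, u ∈ closure (Set.range (kUH H))) : ∃ (φ : UHR H ≃* UHR H) (m : ℤ), 0 < m ∧ Continuous φ ∧ Continuous φ.symm ∧
    (∀ (u : UHR H) r c, (φ u).1.1.1.1 r c = ((2 : ℝ) ^ (-(m * (ht b r - ht b c)))) • u.1.1.1.1 r c) ∧ ∀ u : UHR H, Tendsto (fun n : ℕ => (φ ^ n) u) atTop (𝓝 1) := by
  obtain ⟨d, m, hm, hd, hd'⟩ := h4_d b L
  obtain ⟨t, ht0⟩ : ∃ t : GR b L, t = emb b L d := ⟨_, rfl⟩
  have ht' : ∀ (g : GR b L) r c, (t * g * t⁻¹).1.1 r c = ((2 : ℝ) ^ (-(m * (ht b r - ht b c)))) • g.1.1 r c := by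
    intro g r c
    rw [ht0]
    exact h4_conj hd hd' g r c
  have ht2 : ∀ (g : GR b L) r c, (t⁻¹ * g * t).1.1 r c = ((2 : ℝ) ^ (m * (ht b r - ht b c))) • g.1.1 r c := by
    intro g r c
    have h1 := ht' (t⁻¹ * g * t) r c
    have e : t * (t⁻¹ * g * t) * t⁻¹ = g := by group
    rw [e] at h1
    rw [h1, smul_smul, ← zpow_add₀ (two_ne_zero : (2 : ℝ) ≠ 0), add_neg_cancel, zpow_zero, one_smul]
  have memU : ∀ g : HRt H, g ∈ UHR H ↔ ∀ r c, ht b r ≤ ht b c → g.1.1.1 r c = (1 : Matrix (I b) (I b) (EE L)) r c ∧ g⁻¹.1.1.1 r c = (1 : Matrix (I b) (I b) (EE L)) r c :=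
    fun g => Iff.rfl
  have hsc : ∀ (X : Matrix (I b) (I b) (EE L)) (z : ℤ) r c, X r c = (1 : Matrix (I b) (I b) (EE L)) r c → ((2 : ℝ) ^ (z * (ht b r - ht b c))) • X r c = (1 : Matrix (I b) (I b) (EE L)) r c := by
    intro X z r c hX
    by_cases hrc : r = c
    · subst hrc
      rw [sub_self, mul_zero, zpow_zero, one_smul, hX]
    · rw [hX, Matrix.one_apply_ne hrc, smul_zero]
  have q1 : ∀ g : UHR H, t * g.1.1 * t⁻¹ ∈ HRs H := fun g => by
    rw [ht0]
    exact h4_mem hD hdn hd g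
  have q2 : ∀ g : UHR H, t⁻¹ * g.1.1 * t ∈ HRs H := fun g => by
    have h1 := h4_mem hD hdn hd' g
    rw [map_inv, inv_inv, ← ht0] at h1
    exact h1
  have m1 : ∀ g : UHR H, (⟨t * g.1.1 * t⁻¹, q1 g⟩ : HRt H) ∈ UHR H := by
    intro g
    have hg := g.2
    rw [memU] at hg ⊢
    intro r c hrc
    have e : ((⟨t * g.1.1 * t⁻¹, q1 g⟩ : HRt H)⁻¹).1 = t * g.1⁻¹.1 * t⁻¹ := by
      show (t * g.1.1 * t⁻¹)⁻¹ = t * g.1.1⁻¹ * t⁻¹
      group
    refine ⟨?_, ?_⟩
    · show (t * g.1.1 * t⁻¹).1.1 r c = _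
      rw [ht', ← neg_mul]
      exact hsc _ _ _ _ (hg r c hrc).1
    · rw [e, ht', ← neg_mul]
      exact hsc _ _ _ _ (hg r c hrc).2
  have m2 : ∀ g : UHR H, (⟨t⁻¹ * g.1.1 * t, q2 g⟩ : HRt H) ∈ UHR H := by
    intro g
    have hg := g.2
    rw [memU] at hg ⊢
    intro r c hrc
    have e : ((⟨t⁻¹ * g.1.1 * t, q2 g⟩ : HRt H)⁻¹).1 = t⁻¹ * g.1⁻¹.1 * t := by
      show (t⁻¹ * g.1.1 * t)⁻¹ = t⁻¹ * g.1.1⁻¹ * t
      group
    refine ⟨?_, ?_⟩
    · show (t⁻¹ * g.1.1 * t).1.1 r c = _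
      rw [ht2]
      exact hsc _ _ _ _ (hg r c hrc).1
    · rw [e, ht2]
      exact hsc _ _ _ _ (hg r c hrc).2
  obtain ⟨φ, hφ, hφ'⟩ : ∃ φ : UHR H ≃* UHR H, (∀ u, (φ u).1.1 = t * u.1.1 * t⁻¹) ∧ ∀ u, (φ.symm u).1.1 = t⁻¹ * u.1.1 * t :=
    ⟨{ toFun := fun u => ⟨⟨t * u.1.1 * t⁻¹, q1 u⟩, m1 u⟩
       invFun := fun u => ⟨⟨t⁻¹ * u.1.1 * t, q2 u⟩, m2 u⟩
       left_inv := fun u => Subtype.ext (Subtype.ext (by
        show t⁻¹ * (t * u.1.1 * t⁻¹) * t = u.1.1
        group))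
       right_inv := fun u => Subtype.ext (Subtype.ext (by
        show t * (t⁻¹ * u.1.1 * t) * t⁻¹ = u.1.1
        group))
       map_mul' := fun u v => Subtype.ext (Subtype.ext (by
        show t * (u.1.1 * v.1.1) * t⁻¹ = t * u.1.1 * t⁻¹ * (t * v.1.1 * t⁻¹)
        group)) }, fun u => rfl, fun u => rfl⟩
  have hval : ∀ (u : UHR H) r c, (φ u).1.1.1.1 r c = ((2 : ℝ) ^ (-(m * (ht b r - ht b c)))) • u.1.1.1.1 r c := by
    intro u r c
    rw [hφ]
    exact ht' _ r c
  refine ⟨φ, m, hm, ?_, ?_, hval, ?_⟩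
  · have e : (φ : UHR H → UHR H) = fun u => ⟨⟨t * u.1.1 * t⁻¹, q1 u⟩, m1 u⟩ := funext fun u => Subtype.ext (Subtype.ext (hφ u))
    rw [e]
    exact (((continuous_const.mul (continuous_subtype_val.comp continuous_subtype_val)).mul continuous_const).subtype_mk _).subtype_mk _
  · have e : (φ.symm : UHR H → UHR H) = fun u => ⟨⟨t⁻¹ * u.1.1 * t, q2 u⟩, m2 u⟩ := funext fun u => Subtype.ext (Subtype.ext (hφ' u))
    rw [e]
    exact (((continuous_const.mul (continuous_subtype_val.comp continuous_subtype_val)).mul continuous_const).subtype_mk _).subtype_mk _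
  · intro u
    have hn : ∀ (u : UHR H) (n : ℕ) r c, ((φ ^ n) u).1.1.1.1 r c = (((2 : ℝ) ^ (-(m * (ht b r - ht b c)))) ^ n) • u.1.1.1.1 r c := by
      intro u n r c
      induction n with
      | zero =>
        rw [pow_zero, pow_zero, one_smul]
        rfl
      | succ n ih =>
        have e : (φ ^ (n + 1)) u = φ ((φ ^ n) u) := by
          rw [pow_succ']
          rfl
        rw [e, hval, ih, smul_smul, pow_succ']
    have ent : ∀ (u : UHR H) r c, Tendsto (fun n : ℕ => ((φ ^ n) u).1.1.1.1 r c) atTop (𝓝 ((1 : Matrix (I b) (I b) (EE L)) r c)) := by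
      intro u r c
      have e : (fun n : ℕ => ((φ ^ n) u).1.1.1.1 r c) = fun n : ℕ => (((2 : ℝ) ^ (-(m * (ht b r - ht b c)))) ^ n) • u.1.1.1.1 r c := funext fun n => hn u n r c
      rw [e]
      by_cases hrc : r = c
      · subst hrc
        have h1 := (((memU _).1 u.2) r r le_rfl).1
        rw [sub_self, mul_zero, neg_zero, zpow_zero]
        simp only [one_pow, one_smul]
        rw [h1]
        exact tendsto_const_nhds
      · rw [Matrix.one_apply_ne hrc]
        by_cases h2 : ht b r ≤ ht b c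
        · have h1 := (((memU _).1 u.2) r c h2).1
          rw [Matrix.one_apply_ne hrc] at h1
          simp only [h1, smul_zero]
          exact tendsto_const_nhds
        · have h3 : (2 : ℝ) ^ (-(m * (ht b r - ht b c))) < 1 := by
            refine zpow_lt_one_of_neg₀ (by norm_num) ?_
            have h4 : 0 < m * (ht b r - ht b c) := mul_pos hm (by lia)
            lia
          have h5 : (0 : ℝ) ≤ (2 : ℝ) ^ (-(m * (ht b r - ht b c))) := (zpow_pos (by norm_num) _).le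
          have h6 := (tendsto_pow_atTop_nhds_zero_of_lt_one h5 h3).smul_const (u.1.1.1.1 r c)
          rw [zero_smul] at h6
          exact h6
    have mat : ∀ u : UHR H, Tendsto (fun n : ℕ => ((φ ^ n) u).1.1.1.1) atTop (𝓝 (1 : Matrix (I b) (I b) (EE L))) :=
      fun u => tendsto_pi_nhds.2 fun r => tendsto_pi_nhds.2 fun c => ent u r c
    have hinv : Tendsto (fun n : ℕ => ((φ ^ n) u).1.1.1⁻¹.1) atTop (𝓝 (1 : Matrix (I b) (I b) (EE L))) := by
      have e : (fun n : ℕ => ((φ ^ n) u).1.1.1⁻¹.1) = fun n : ℕ => ((φ ^ n) u⁻¹).1.1.1.1 := by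
        funext n
        rw [map_inv]
        rfl
      rw [e]
      exact mat u⁻¹
    rw [tendsto_subtype_rng, tendsto_subtype_rng, tendsto_subtype_rng]
    refine (Units.isInducing_embedProduct.tendsto_nhds_iff).2 ?_
    refine (mat u).prodMk_nhds ?_
    exact (MulOpposite.continuous_op.tendsto _).comp hinv

namespace HypH

/-- The restriction to `U` of a Haar measure of `N_J`. -/
theorem comap_RH (h : HypH H J) {ν0 : Measure (HRt H)} (h0 : RH (NoH H J) ν0) : RH h.piU.ker (ν0.comap (Subtype.val : UHR H → HRt H)) := by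
  have hmap := comap_map h0
  have hM := v1_me H
  obtain ⟨μ, hμ⟩ : ∃ μ : Measure (UHR H), μ = ν0.comap (Subtype.val : UHR H → HRt H) := ⟨_, rfl⟩
  rw [← hμ] at hmap ⊢
  refine ⟨?_, fun C hC => ?_, fun hz => ?_, fun v hv => ?_⟩
  · have h1 : ∀ᵐ x ∂(μ.map (Subtype.val : UHR H → HRt H)), x ∈ NoH H J := by
      rw [hmap]
      exact h0.ae
    rw [hM.ae_map_iff] at h1
    filter_upwards [h1] with x hx
    exact (h.piU_ker x).2 hx
  · rw [hμ, hM.comap_apply]
    exact h0.fin _ (hC.image continuous_subtype_val)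
  · apply h0.ne
    rw [← hmap, hz, Measure.map_zero]
  · have e1 : (μ.map fun x => x * v).map (Subtype.val : UHR H → HRt H) = μ.map (Subtype.val : UHR H → HRt H) := by
      rw [Measure.map_map hM.measurable (measurable_mul_const _)]
      have e : (Subtype.val : UHR H → HRt H) ∘ (fun x : UHR H => x * v) = (fun x : HRt H => x * (v : HRt H)) ∘ (Subtype.val : UHR H → HRt H) := rfl
      rw [e, ← Measure.map_map (measurable_mul_const _) hM.measurable, hmap]
      exact h0.inv _ ((h.piU_ker v).1 hv)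
    have e2 := congrArg (Measure.comap (Subtype.val : UHR H → HRt H)) e1
    rw [hM.comap_map, hM.comap_map] at e2
    exact e2

/-- The contraction commutes with the projection. -/
theorem phi_comm (h : HypH H J) {φ : UHR H ≃* UHR H} {m : ℤ} (p3 : ∀ (u : UHR H) r c, (φ u).1.1.1.1 r c = ((2 : ℝ) ^ (-(m * (ht b r - ht b c)))) • u.1.1.1.1 r c) (x : UHR H) : h.piU (φ x) = φ (h.piU x) := by
  refine UHR_ext (Matrix.ext fun r c => ?_)
  rw [p3, h.piU_val, h.piU_val]
  show (if dJ b J r = dJ b J c then (φ x).1.1.1.1 r c else 0) = ((2 : ℝ) ^ (-(m * (ht b r - ht b c)))) • (if dJ b J r = dJ b J c then x.1.1.1.1 r c else 0)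
  split_ifs with h1
  · exact p3 x r c
  · rw [smul_zero]

/-- **The measures of the semidirect product**, for a given measure on `N_J`. -/
theorem exists_msr (h : HypH H J) (hD : HypD H) {ν0 : Measure (HRt H)} (h0 : RH (NoH H J) ν0) (ν : Measure (UHR H)) [ν.IsHaarMeasure] :
    ∃ νM : Measure (UHR H), Msr (kUH H) h.piU h.qU ν (ν0.comap (Subtype.val : UHR H → HRt H)) νM := by
  have hπ := h.piU_cont
  have hP := h.prjU
  obtain ⟨φ, m, hm, p1, p2, p3, p4⟩ := h4_phi hD h.dense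
  have hc := h.phi_comm p3
  obtain ⟨νV, νM, k1, k2, k3, k4, k5⟩ := c5h_split hπ h.piU_idem φ p1 p2 p4 hc ν
  have k0 := h.comap_RH h0
  obtain ⟨μ, hμ⟩ : ∃ μ : Measure (UHR H), μ = ν0.comap (Subtype.val : UHR H → HRt H) := ⟨_, rfl⟩
  rw [← hμ] at k0 ⊢
  have c1 : IsClosed (h.piU.ker : Set (UHR H)) := by
    have e : (h.piU.ker : Set (UHR H)) = h.piU ⁻¹' {1} := by
      ext x
      exact Iff.rfl
    rw [e]
    exact isClosed_singleton.preimage hπ
  obtain ⟨a, a0, a1, ha⟩ := rh_uniq c1 k1 k0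
  obtain ⟨a', a0', a1', ha'⟩ := rh_uniq c1 k0 k1
  have s0 : SigmaFinite μ := rh_sigma k0
  have s2 : SigmaFinite νM := rh_sigma k2
  have kM : RH h.piU.range (a • νM) := rh_smul k2 a0 a1
  have s3 : SigmaFinite (a • νM) := rh_sigma kM
  have hconj : ∀ g : UHR H, μ.map (fun x => g * x * g⁻¹) = μ := by
    intro g
    rw [ha', Measure.map_smul, k4]
  have hleft : ∀ g ∈ h.piU.ker, μ.map (fun x => g * x) = μ := by
    intro g hg
    rw [ha', Measure.map_smul, k5 g hg]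
  refine ⟨a • νM, ⟨hπ.measurable, (continuous_id.mul hπ.inv).measurable, inferInstance, inferInstance, ?_, fun g => th2_hp H ν g, ?_, ?_, fun g hg => ?_, fun m hm => ?_⟩⟩
  · rw [Measure.prod_smul_right, k3, ha, Measure.prod_smul_left]
  · filter_upwards [k0.ae] with v hv
    exact hv
  · filter_upwards [kM.ae] with v hv
    obtain ⟨y, rfl⟩ := hv
    exact hP.idem y
  · refine ⟨measurable_const_mul (kUH H g), hleft _ ?_⟩
    rw [MonoidHom.mem_ker, hP.cpt, (MonoidHom.mem_ker).1 hg, map_one]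
  · have h1 := hconj m⁻¹
    rw [inv_inv] at h1
    exact ⟨(by fun_prop : Continuous fun t : UHR H => m⁻¹ * t * m).measurable, h1⟩

/-- **The measures on `N_J` and `U_M`** (existence). -/
theorem levi_msr (h : HypH H J) (hD : HypD H) (ν : Measure (UHR H)) [ν.IsHaarMeasure] :
    ∃ νV νM : Measure (UHR H), Msr (kUH H) h.piU h.qU ν νV νM ∧ RH h.piU.ker νV ∧ RH h.piU.range νM ∧ RH (NoH H J) (νV.map Subtype.val) ∧ (∀ g : UHR H, νV.map (fun x => g * x * g⁻¹) = νV) ∧
      ∀ g ∈ h.piU.ker, νV.map (fun x => g * x) = νV := by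
  obtain ⟨φ, m, hm, p1, p2, p3, p4⟩ := h4_phi hD h.dense
  obtain ⟨νV, νM, k1, k2, k3, k4, k5⟩ := c5h_split h.piU_cont h.piU_idem φ p1 p2 p4 (h.phi_comm p3) ν
  refine ⟨νV, νM, ⟨h.piU_cont.measurable, (continuous_id.mul h.piU_cont.inv).measurable, ?_, ?_, k3, fun g => th2_hp H ν g, ?_, ?_, fun g hg => ?_, fun m hm => ?_⟩, k1, k2, c5j_push h.piU_ker k1, k4, k5⟩
  · have := rh_sigma k1
    infer_instance
  · have := rh_sigma k2
    infer_instance
  · filter_upwards [k1.ae] with v hv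
    exact hv
  · filter_upwards [k2.ae] with v hv
    obtain ⟨y, rfl⟩ := hv
    exact h.prjU.idem y
  · refine ⟨measurable_const_mul (kUH H g), k5 _ ?_⟩
    rw [MonoidHom.mem_ker, h.prjU.cpt, (MonoidHom.mem_ker).1 hg, map_one]
  · have h1 := k4 m⁻¹
    rw [inv_inv] at h1
    exact ⟨(by fun_prop : Continuous fun t : UHR H => m⁻¹ * t * m).measurable, h1⟩

end HypH

end

end Pool.Agent.Lib.L8.QF
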