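import Pool.Agent.Lib.L8.QF.W6Q
import Pool.Agent.Lib.L8.QF.H4

/-!
# QF, W7Q (helper76): the measures (`MsrQ`)
-/

namespace Pool.Agent.Lib.L8.QF

set_option linter.unusedSectionVars false

open MeasureTheory Matrix NumberField IsDedekindDomain Pool.Agent.Lib.H89N Pool.Agent.Lib.H33W Pool.Agent.Lib.H67G Pool.Agent.Lib.L1S Pool.Agent.Lib.L8 Pool.Agent.Lib.L8.FL Pool.Agent.Lib.L8.FU
open scoped ENNReal

noncomputable section

variable {ι M N : Type} [Fintype ι] [DecidableEq ι] [AddCommGroup M] [Module ℚ M] [AddCommGroup N] [Module ℚ N]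
  {P : RootPairing ι ℚ M N} [P.IsCrystallographic] [P.IsReduced] [P.IsIrreducible] [P.IsRootSystem]

variable {b : P.Base} {K L : Type} [Field K] [NumberField K] [Field L] [NumberField L] [Algebra K L]

theorem msrQ (Q : QS b K L) [IsGalois K L] : MsrQ Q := fun _ hJ _ h0 ν _ => (hypH_HQ Q hJ).exists_msr (hypD_HQ Q) h0 ν

end

end Pool.Agent.Lib.L8.QF
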