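import Pool.Agent.Lib.L8.QF.R1A
import Pool.Agent.Lib.L8.FL.C5C

/-!
# QF, module C5Q, R6P: the integral over the letter of an adjacent pair (helper34)

`F / K` quadratic with conjugation `σ`. The integrand is `∏_w X_w ^ (-(s m_w) / 2)`, `X_w = 1 + |e^{-A_w} (a_w + c_w)|² + |e^{-(A_w + A_{σ w})} (θ_w t_w + g_w(a))|²`, `(a, t) ∈ (F ⊗ ℝ) × (K ⊗ ℝ)`, with `s > 2`. The term with `t`
is only used at one place of `F` over each place of `K`.
-/

namespace Pool.Agent.Lib.L8.QF

open MeasureTheory Matrix NumberField NumberField.InfinitePlace IsDedekindDomain Pool.Agent.Lib.H89N Pool.Agent.Lib.H33W Pool.Agent.Lib.H67G Pool.Agent.Lib.L1S Pool.Agent.Lib.L8.FL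
open scoped ENNReal Pointwise

noncomputable section

set_option linter.unusedSectionVars false
set_option linter.unusedVariables false

variable {K F : Type} [Field K] [NumberField K] [Field F] [NumberField F] [Algebra K F]

/-! ## 1. Places -/

theorem r6p_symm {σ : F ≃ₐ[K] F} (hσ : σ ≠ 1) (hG : ∀ g : F ≃ₐ[K] F, g = 1 ∨ g = σ) : σ.symm = σ := by
  rcases hG σ.symm with h | h
  · exfalso
    apply hσ
    have h1 : σ⁻¹ = 1 := h
    exact inv_eq_one.1 h1
  · exact h

theorem r6p_mult (σ : F ≃ₐ[K] F) (w : InfinitePlace F) : (w.comap (σ : F →+* F)).mult = w.mult := by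
  have h1 : (w.comap (σ : F →+* F)).mult ≤ w.mult := mult_comap_le _ _
  have h2 : w.mult ≤ (w.comap (σ : F →+* F)).mult := by
    have h3 : ((w.comap (σ : F →+* F)).comap (σ.symm : F →+* F)).mult ≤ (w.comap (σ : F →+* F)).mult := mult_comap_le _ _
    have h4 : (w.comap (σ : F →+* F)).comap (σ.symm : F →+* F) = w := by
      rw [← comap_comp]
      have h5 : ((σ : F →+* F).comp (σ.symm : F →+* F)) = RingHom.id F := by
        ext x
        exact σ.apply_symm_apply x
      rw [h5]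
      rfl
    rwa [h4] at h3
  exact le_antisymm h1 h2

/-- The places over `v`. -/
theorem r6p_fib [IsGalois K F] {σ : F ≃ₐ[K] F} (hσ : σ ≠ 1) (hG : ∀ g : F ≃ₐ[K] F, g = 1 ∨ g = σ) {w w' : InfinitePlace F}
    (h : w.comap (algebraMap K F) = w'.comap (algebraMap K F)) : w' = w ∨ w' = w.comap (σ : F →+* F) := by
  obtain ⟨g, hg⟩ := exists_smul_eq_of_comap_eq h
  rcases hG g with h1 | h1
  · left
    rw [← hg, h1, one_smul]
  · right
    rw [← hg, h1, smul_eq_comap]
    have h2 := r6p_symm hσ hG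
    show w.comap ((σ.symm : F ≃ₐ[K] F) : F →+* F) = _
    rw [h2]

theorem r6p_down (σ : F ≃ₐ[K] F) (w : InfinitePlace F) : (w.comap (σ : F →+* F)).comap (algebraMap K F) = w.comap (algebraMap K F) := by
  rw [← comap_comp]
  congr 1
  ext x
  exact σ.commutes x

/-- **The sum over the places of `F`**. -/
theorem r6p_sum [IsGalois K F] {σ : F ≃ₐ[K] F} (hσ : σ ≠ 1) (hG : ∀ g : F ≃ₐ[K] F, g = 1 ∨ g = σ) {τ : InfinitePlace K → InfinitePlace F} (hτ : ∀ v, (τ v).comap (algebraMap K F) = v)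
    (A : InfinitePlace F → ℝ) : ∑ v : InfinitePlace K, (v.mult : ℝ) * (A (τ v) + A ((τ v).comap (σ : F →+* F))) = ∑ w : InfinitePlace F, (w.mult : ℝ) * A w := by
  classical
  rw [← Finset.sum_fiberwise Finset.univ (fun w : InfinitePlace F => w.comap (algebraMap K F))]
  refine Finset.sum_congr rfl fun v _ => ?_
  by_cases h : (τ v).comap (σ : F →+* F) = τ v
  · have h1 : (Finset.univ.filter fun w : InfinitePlace F => w.comap (algebraMap K F) = v) = {τ v} := by
      ext w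
      rw [Finset.mem_filter, Finset.mem_singleton]
      constructor
      · rintro ⟨_, h2⟩
        rcases r6p_fib hσ hG ((hτ v).trans h2.symm) with h3 | h3
        · exact h3
        · rw [h3, h]
      · intro h2
        exact ⟨Finset.mem_univ _, by rw [h2, hτ]⟩
    rw [h1, Finset.sum_singleton, h]
    have h2 : ¬ IsUnramified K (τ v) := by
      rw [isUnramified_iff_stabilizer_eq_bot]
      intro h3
      have h4 : σ ∈ MulAction.stabilizer (F ≃ₐ[K] F) (τ v) := by
        rw [MulAction.mem_stabilizer_iff, smul_eq_comap]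
        show (τ v).comap ((σ.symm : F ≃ₐ[K] F) : F →+* F) = _
        rw [r6p_symm hσ hG]
        exact h
      have h5 : σ ∈ (⊥ : Subgroup (F ≃ₐ[K] F)) := by
        rw [← h3]
        exact h4
      exact hσ (Subgroup.mem_bot.1 h5)
    rw [not_isUnramified_iff, hτ] at h2
    have h3 : (τ v).mult = 2 := mult_isComplex ⟨τ v, h2.1⟩
    have h4 : v.mult = 1 := mult_isReal ⟨v, h2.2⟩
    rw [h3, h4]
    push_cast
    ring
  · have h1 : (Finset.univ.filter fun w : InfinitePlace F => w.comap (algebraMap K F) = v) = {τ v, (τ v).comap (σ : F →+* F)} := by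
      ext w
      rw [Finset.mem_filter, Finset.mem_insert, Finset.mem_singleton]
      constructor
      · rintro ⟨_, h2⟩
        exact r6p_fib hσ hG ((hτ v).trans h2.symm)
      · rintro (h2 | h2)
        · exact ⟨Finset.mem_univ _, by rw [h2, hτ]⟩
        · exact ⟨Finset.mem_univ _, by rw [h2, r6p_down, hτ]⟩
    rw [h1, Finset.sum_pair (fun h2 => h h2.symm), r6p_mult]
    have h2 : IsUnramified K (τ v) := by
      by_contra h3
      rw [not_isUnramified_iff_card_stabilizer_eq_two, Nat.card_eq_two_iff] at h3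
      obtain ⟨x, y, hxy, _⟩ := h3
      have h4 : (x : F ≃ₐ[K] F) = σ ∨ (y : F ≃ₐ[K] F) = σ := by
        rcases hG x with h5 | h5
        · rcases hG y with h6 | h6
          · exfalso
            apply hxy
            exact Subtype.ext (h5.trans h6.symm)
          · exact Or.inr h6
        · exact Or.inl h5
      have h5 : σ ∈ MulAction.stabilizer (F ≃ₐ[K] F) (τ v) := by
        rcases h4 with h4 | h4
        · rw [← h4]
          exact x.2
        · rw [← h4]
          exact y.2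
      rw [MulAction.mem_stabilizer_iff, smul_eq_comap] at h5
      apply h
      have h6 : (τ v).comap ((σ.symm : F ≃ₐ[K] F) : F →+* F) = τ v := h5
      rwa [r6p_symm hσ hG] at h6
    have h3 := h2.eq
    rw [hτ] at h3
    rw [h3]
    ring

/-! ## 2. Products over the places -/

/-- Factors which are at most one may be dropped. -/
theorem r6p_drop {τ : InfinitePlace K → InfinitePlace F} (hτ : ∀ v, (τ v).comap (algebraMap K F) = v) {p : InfinitePlace F → ℝ} (h0 : ∀ w, 0 ≤ p w) (h1 : ∀ w, p w ≤ 1) :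
    ∏ w : InfinitePlace F, p w ≤ ∏ v : InfinitePlace K, p (τ v) := by
  classical
  have hi : Function.Injective τ := fun v v' h => by rw [← hτ v, ← hτ v', h]
  have h2 : ∏ v : InfinitePlace K, p (τ v) = ∏ w ∈ Finset.univ.image τ, p w := (Finset.prod_image fun v _ v' _ h => hi h).symm
  rw [h2]
  exact Finset.prod_le_prod_of_subset_of_le_one (Finset.subset_univ _) (fun w _ => h0 w) fun w _ _ => h1 w

/-- Factors which are at least one may be added. -/
theorem r6p_add {τ : InfinitePlace K → InfinitePlace F} (hτ : ∀ v, (τ v).comap (algebraMap K F) = v) {p : InfinitePlace F → ℝ} (h1 : ∀ w, 1 ≤ p w) :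
    ∏ v : InfinitePlace K, p (τ v) ≤ ∏ w : InfinitePlace F, p w := by
  classical
  have hi : Function.Injective τ := fun v v' h => by rw [← hτ v, ← hτ v', h]
  have h2 : ∏ v : InfinitePlace K, p (τ v) = ∏ w ∈ Finset.univ.image τ, p w := (Finset.prod_image fun v _ v' _ h => hi h).symm
  rw [h2]
  exact Finset.prod_le_prod_of_subset_of_one_le (Finset.subset_univ _) (fun w _ => by linarith [h1 w]) fun w _ _ => h1 w

/-! ## 3. The integral -/

/-- `B_w²`. -/
def rB (A : InfinitePlace F → ℝ) (c : InfinitePlace F → ℂ) (a : EE F) (w : InfinitePlace F) : ℝ := 1 + ‖(Real.exp (-(A w)) : ℝ) • (evw w a + c w)‖ ^ 2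

/-- `X_w`. -/
def rX (σ : F ≃ₐ[K] F) (A : InfinitePlace F → ℝ) (c th : InfinitePlace F → ℂ) (g : EE F → InfinitePlace F → ℂ) (a : EE F) (t : EE K) (w : InfinitePlace F) : ℝ :=
  rB A c a w + ‖(Real.exp (-(A w + A (w.comap (σ : F →+* F)))) : ℝ) • (th w * evw w (iE (algebraMap K F) t) + g a w)‖ ^ 2

theorem rB_one (A : InfinitePlace F → ℝ) (c : InfinitePlace F → ℂ) (a : EE F) (w : InfinitePlace F) : 1 ≤ rB A c a w := by
  unfold rB
  have : 0 ≤ ‖(Real.exp (-(A w)) : ℝ) • (evw w a + c w)‖ ^ 2 := by positivity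
  linarith

theorem rX_ge (σ : F ≃ₐ[K] F) (A : InfinitePlace F → ℝ) (c th : InfinitePlace F → ℂ) (g : EE F → InfinitePlace F → ℂ) (a : EE F) (t : EE K) (w : InfinitePlace F) :
    rB A c a w ≤ rX σ A c th g a t w := by
  unfold rX
  have : 0 ≤ ‖(Real.exp (-(A w + A (w.comap (σ : F →+* F)))) : ℝ) • (th w * evw w (iE (algebraMap K F) t) + g a w)‖ ^ 2 := by positivity
  linarith

/-- The quotient `X_w / B_w²` at one place. -/
theorem r6p_quot (σ : F ≃ₐ[K] F) (A : InfinitePlace F → ℝ) (c th : InfinitePlace F → ℂ) (hth : ∀ w, th w ≠ 0) (g : EE F → InfinitePlace F → ℂ) (a : EE F) {w : InfinitePlace F} {v : InfinitePlace K}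
    (hw : w.comap (algebraMap K F) = v) : ∃ d : ℂ, ∀ t : EE K, rX σ A c th g a t w / rB A c a w =
      1 + ‖(Real.exp (-(A w + A (w.comap (σ : F →+* F)) - Real.log ‖th w‖ + 1 / 2 * Real.log (rB A c a w))) : ℝ) • (evw v t + d)‖ ^ 2 := by
  obtain ⟨ε, hε⟩ := evw_iE (algebraMap K F) w
  refine ⟨cjb ε (g a w / th w), fun t => ?_⟩
  have hB := rB_one A c a w
  have hB0 : 0 < rB A c a w := by linarith
  have ht0 : 0 < ‖th w‖ := norm_pos_iff.2 (hth w)
  have e0 : th w * evw w (iE (algebraMap K F) t) + g a w = th w * cjb ε (evw v t + cjb ε (g a w / th w)) := by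
    rw [hε t, hw, map_add, cjb_cjb, mul_add, mul_div_cancel₀ _ (hth w)]
  have e1 : ‖th w * evw w (iE (algebraMap K F) t) + g a w‖ = ‖th w‖ * ‖evw v t + cjb ε (g a w / th w)‖ := by
    rw [e0, norm_mul, cjb_norm]
  have e2 : Real.exp (-(A w + A (w.comap (σ : F →+* F)) - Real.log ‖th w‖ + 1 / 2 * Real.log (rB A c a w))) ^ 2 =
      Real.exp (-(A w + A (w.comap (σ : F →+* F)))) ^ 2 * ‖th w‖ ^ 2 / rB A c a w := by
    have e3 : -(A w + A (w.comap (σ : F →+* F)) - Real.log ‖th w‖ + 1 / 2 * Real.log (rB A c a w)) =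
        -(A w + A (w.comap (σ : F →+* F))) + Real.log ‖th w‖ - 1 / 2 * Real.log (rB A c a w) := by ring
    rw [e3, Real.exp_sub, Real.exp_add, Real.exp_log ht0, div_pow, mul_pow]
    congr 1
    rw [← Real.exp_nat_mul]
    have e4 : ((2 : ℕ) : ℝ) * (1 / 2 * Real.log (rB A c a w)) = Real.log (rB A c a w) := by
      push_cast
      ring
    rw [e4, Real.exp_log hB0]
  unfold rX
  rw [add_div, div_self hB0.ne', norm_smul, norm_smul, mul_pow, mul_pow, e1, Real.norm_eq_abs, Real.norm_eq_abs, sq_abs, sq_abs, e2]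
  congr 1
  ring

/-- The bound of the integrand: the term with `t` at one place over each place of `K`. -/
theorem r6p_le [IsGalois K F] (σ : F ≃ₐ[K] F) {s : ℝ} (hs : 0 < s) (A : InfinitePlace F → ℝ) (c th : InfinitePlace F → ℂ) (hth : ∀ w, th w ≠ 0) (g : EE F → InfinitePlace F → ℂ) (a : EE F)
    {τ : InfinitePlace K → InfinitePlace F} (hτ : ∀ v, (τ v).comap (algebraMap K F) = v) : ∃ d : InfinitePlace K → ℂ, ∀ t : EE K,
    ∏ w : InfinitePlace F, rX σ A c th g a t w ^ (-((w.mult : ℝ) * s / 2)) ≤ (∏ w : InfinitePlace F, rB A c a w ^ (-((w.mult : ℝ) * s / 2))) *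
      ∏ v : InfinitePlace K, (1 + ‖(Real.exp (-(A (τ v) + A ((τ v).comap (σ : F →+* F)) - Real.log ‖th (τ v)‖ + 1 / 2 * Real.log (rB A c a (τ v)))) : ℝ) • (evw v t + d v)‖ ^ 2) ^ (-((v.mult : ℝ) * s / 2)) := by
  choose d hd using fun v => r6p_quot σ A c th hth g a (hτ v)
  refine ⟨d, fun t => ?_⟩
  have h1 : ∀ w, 0 < rB A c a w := fun w => by linarith [rB_one A c a w]
  have h2 : ∀ w, 1 ≤ rX σ A c th g a t w / rB A c a w := fun w => by
    rw [le_div_iff₀ (h1 w), one_mul]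
    exact rX_ge σ A c th g a t w
  have h3 : ∏ w : InfinitePlace F, rX σ A c th g a t w ^ (-((w.mult : ℝ) * s / 2)) = (∏ w : InfinitePlace F, rB A c a w ^ (-((w.mult : ℝ) * s / 2))) *
      ∏ w : InfinitePlace F, (rX σ A c th g a t w / rB A c a w) ^ (-((w.mult : ℝ) * s / 2)) := by
    rw [← Finset.prod_mul_distrib]
    refine Finset.prod_congr rfl fun w _ => ?_
    rw [← Real.mul_rpow (h1 w).le (by linarith [h2 w]), mul_div_cancel₀ _ (h1 w).ne']
  rw [h3]
  refine mul_le_mul_of_nonneg_left ?_ (Finset.prod_nonneg fun w _ => Real.rpow_nonneg (h1 w).le _)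
  refine (r6p_drop hτ (fun w => Real.rpow_nonneg (by linarith [h2 w]) _) fun w => Real.rpow_le_one_of_one_le_of_nonpos (h2 w) (neg_nonpos.2 (by positivity))).trans ?_
  refine Finset.prod_le_prod (fun v _ => Real.rpow_nonneg (by linarith [h2 (τ v)]) _) fun v _ => ?_
  rw [← hd v t]
  refine Real.rpow_le_rpow_of_exponent_le (h2 (τ v)) ?_
  have h4 : v.mult ≤ (τ v).mult := by
    have h5 := mult_comap_le (algebraMap K F) (τ v)
    rwa [hτ] at h5
  have h5 : (v.mult : ℝ) ≤ ((τ v).mult : ℝ) := by exact_mod_cast h4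
  nlinarith

/-- **The inner integral.** -/
theorem r6p_inner [IsGalois K F] {σ : F ≃ₐ[K] F} (hσ : σ ≠ 1) (hG : ∀ g : F ≃ₐ[K] F, g = 1 ∨ g = σ) {s : ℝ} (hs : 1 < s) {th : InfinitePlace F → ℂ} (hth : ∀ w, th w ≠ 0) : ∃ C : ℝ, 0 < C ∧
    ∀ (A : InfinitePlace F → ℝ) (c : InfinitePlace F → ℂ) (g : EE F → InfinitePlace F → ℂ) (a : EE F),
    ∫⁻ t : EE K, ENNReal.ofReal (∏ w : InfinitePlace F, rX σ A c th g a t w ^ (-((w.mult : ℝ) * s / 2))) ≤
      ENNReal.ofReal (C * Real.exp (∑ w : InfinitePlace F, (w.mult : ℝ) * A w) * ∏ w : InfinitePlace F, rB A c a w ^ (-((w.mult : ℝ) * (s - 1) / 2))) := by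
  obtain ⟨C1, hC1, h⟩ := int_EE (K := K) s hs
  have hfin : FiniteDimensional K F := Module.Finite.of_restrictScalars_finite ℚ K F
  choose τ hτ' using fun v : InfinitePlace K => comap_surjective (k := K) (K := F) v
  have hτ : ∀ v, (τ v).comap (algebraMap K F) = v := hτ'
  obtain ⟨T, hT⟩ : ∃ T : ℝ, T = Real.exp (∑ v : InfinitePlace K, (v.mult : ℝ) * (-Real.log ‖th (τ v)‖)) := ⟨_, rfl⟩
  have hT0 : 0 < T := by
    rw [hT]
    exact Real.exp_pos _
  refine ⟨C1 * T, mul_pos hC1 hT0, fun A c g a => ?_⟩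
  obtain ⟨d, hd⟩ := r6p_le σ (by linarith : 0 < s) A c th hth g a hτ
  have h1 : ∀ w, 0 < rB A c a w := fun w => by linarith [rB_one A c a w]
  obtain ⟨E, hE⟩ : ∃ E : ℝ, E = ∏ w : InfinitePlace F, rB A c a w ^ (-((w.mult : ℝ) * s / 2)) := ⟨_, rfl⟩
  have hE0 : 0 ≤ E := by
    rw [hE]
    exact Finset.prod_nonneg fun w _ => Real.rpow_nonneg (h1 w).le _
  have h2 : ∀ t : EE K, ENNReal.ofReal (∏ w : InfinitePlace F, rX σ A c th g a t w ^ (-((w.mult : ℝ) * s / 2))) ≤ ENNReal.ofReal E *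
      ENNReal.ofReal (∏ v : InfinitePlace K, (1 + ‖(Real.exp (-(A (τ v) + A ((τ v).comap (σ : F →+* F)) - Real.log ‖th (τ v)‖ + 1 / 2 * Real.log (rB A c a (τ v)))) : ℝ) • (evw v t + d v)‖ ^ 2) ^ (-((v.mult : ℝ) * s / 2))) := fun t => by
    rw [← ENNReal.ofReal_mul hE0, hE]
    exact ENNReal.ofReal_le_ofReal (hd t)
  refine (lintegral_mono h2).trans ?_
  rw [lintegral_const_mul' _ _ ENNReal.ofReal_ne_top]
  refine (mul_le_mul' le_rfl (h (fun v => A (τ v) + A ((τ v).comap (σ : F →+* F)) - Real.log ‖th (τ v)‖ + 1 / 2 * Real.log (rB A c a (τ v))) d)).trans ?_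
  rw [← ENNReal.ofReal_mul hE0]
  refine ENNReal.ofReal_le_ofReal ?_
  have h3 : ∑ v : InfinitePlace K, (v.mult : ℝ) * (A (τ v) + A ((τ v).comap (σ : F →+* F)) - Real.log ‖th (τ v)‖ + 1 / 2 * Real.log (rB A c a (τ v))) =
      ∑ w : InfinitePlace F, (w.mult : ℝ) * A w + ∑ v : InfinitePlace K, (v.mult : ℝ) * (-Real.log ‖th (τ v)‖) + ∑ v : InfinitePlace K, 1 / 2 * (v.mult : ℝ) * Real.log (rB A c a (τ v)) := by
    rw [← r6p_sum hσ hG hτ, ← Finset.sum_add_distrib, ← Finset.sum_add_distrib]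
    refine Finset.sum_congr rfl fun v _ => ?_
    ring
  rw [h3, Real.exp_add, Real.exp_add, ← hT]
  have h4 : Real.exp (∑ v : InfinitePlace K, 1 / 2 * (v.mult : ℝ) * Real.log (rB A c a (τ v))) = ∏ v : InfinitePlace K, rB A c a (τ v) ^ (1 / 2 * (v.mult : ℝ)) := by
    rw [Real.exp_sum]
    refine Finset.prod_congr rfl fun v _ => ?_
    rw [Real.rpow_def_of_pos (h1 _), mul_comm]
  have h5 : ∏ v : InfinitePlace K, rB A c a (τ v) ^ (1 / 2 * (v.mult : ℝ)) ≤ ∏ w : InfinitePlace F, rB A c a w ^ (1 / 2 * (w.mult : ℝ)) := by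
    refine le_trans (Finset.prod_le_prod (fun v _ => Real.rpow_nonneg (h1 _).le _) fun v _ => ?_) (r6p_add hτ (p := fun w => rB A c a w ^ (1 / 2 * (w.mult : ℝ))) fun w => Real.one_le_rpow (rB_one A c a w) (by positivity))
    refine Real.rpow_le_rpow_of_exponent_le (rB_one A c a _) ?_
    have h6 : v.mult ≤ (τ v).mult := by
      have h7 := mult_comap_le (algebraMap K F) (τ v)
      rwa [hτ] at h7
    have h7 : (v.mult : ℝ) ≤ ((τ v).mult : ℝ) := by exact_mod_cast h6
    linarith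
  have h6 : E * ∏ w : InfinitePlace F, rB A c a w ^ (1 / 2 * (w.mult : ℝ)) = ∏ w : InfinitePlace F, rB A c a w ^ (-((w.mult : ℝ) * (s - 1) / 2)) := by
    rw [hE, ← Finset.prod_mul_distrib]
    refine Finset.prod_congr rfl fun w _ => ?_
    rw [← Real.rpow_add (h1 w)]
    congr 1
    ring
  rw [h4]
  calc E * (C1 * (Real.exp (∑ w : InfinitePlace F, (w.mult : ℝ) * A w) * T * ∏ v : InfinitePlace K, rB A c a (τ v) ^ (1 / 2 * (v.mult : ℝ))))
      ≤ E * (C1 * (Real.exp (∑ w : InfinitePlace F, (w.mult : ℝ) * A w) * T * ∏ w : InfinitePlace F, rB A c a w ^ (1 / 2 * (w.mult : ℝ)))) := by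
        have := Real.exp_pos (∑ w : InfinitePlace F, (w.mult : ℝ) * A w)
        gcongr
    _ = C1 * T * Real.exp (∑ w : InfinitePlace F, (w.mult : ℝ) * A w) * (E * ∏ w : InfinitePlace F, rB A c a w ^ (1 / 2 * (w.mult : ℝ))) := by ring
    _ = _ := by rw [h6]

/-- **The integral over the letter of an adjacent pair**, iterated form. -/
theorem pair_int [IsGalois K F] {σ : F ≃ₐ[K] F} (hσ : σ ≠ 1) (hG : ∀ g : F ≃ₐ[K] F, g = 1 ∨ g = σ) {s : ℝ} (hs : 2 < s) {th : InfinitePlace F → ℂ} (hth : ∀ w, th w ≠ 0) : ∃ C : ℝ, 0 < C ∧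
    ∀ (A : InfinitePlace F → ℝ) (c : InfinitePlace F → ℂ) (g : EE F → InfinitePlace F → ℂ),
    ∫⁻ a : EE F, ∫⁻ t : EE K, ENNReal.ofReal (∏ w : InfinitePlace F, rX σ A c th g a t w ^ (-((w.mult : ℝ) * s / 2))) ≤
      ENNReal.ofReal (C * Real.exp (2 * ∑ w : InfinitePlace F, (w.mult : ℝ) * A w)) := by
  obtain ⟨C1, hC1, h1⟩ := r6p_inner (K := K) (F := F) hσ hG (by linarith : 1 < s) hth
  obtain ⟨C2, hC2, h2⟩ := int_EE (K := F) (s - 1) (by linarith)
  refine ⟨C1 * C2, mul_pos hC1 hC2, fun A c g => ?_⟩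
  refine (lintegral_mono fun a => h1 A c g a).trans ?_
  have h3 : ∀ a : EE F, ENNReal.ofReal (C1 * Real.exp (∑ w : InfinitePlace F, (w.mult : ℝ) * A w) * ∏ w : InfinitePlace F, rB A c a w ^ (-((w.mult : ℝ) * (s - 1) / 2))) =
      ENNReal.ofReal (C1 * Real.exp (∑ w : InfinitePlace F, (w.mult : ℝ) * A w)) * ENNReal.ofReal (∏ w : InfinitePlace F, (1 + ‖(Real.exp (-(A w)) : ℝ) • (evw w a + c w)‖ ^ 2) ^ (-((w.mult : ℝ) * (s - 1) / 2))) := fun a => by
    rw [← ENNReal.ofReal_mul (by positivity)]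
    rfl
  rw [lintegral_congr h3, lintegral_const_mul' _ _ ENNReal.ofReal_ne_top]
  refine (mul_le_mul' le_rfl (h2 A c)).trans (le_of_eq ?_)
  rw [← ENNReal.ofReal_mul (by positivity)]
  congr 1
  rw [two_mul, Real.exp_add]
  ring

end

end Pool.Agent.Lib.L8.QF
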