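import Pool.Agent.Lib.L8.QF.LA
import Pool.Agent.Lib.L8.QF.R6P

/-!
# QF, C5 (helper33): the archimedean part for the quasi-split groups
-/

namespace Pool.Agent.Lib.L8.QF

open MeasureTheory Matrix NumberField NumberField.InfinitePlace IsDedekindDomain Pool.Agent.Lib.H89N Pool.Agent.Lib.H33W Pool.Agent.Lib.H67G Pool.Agent.Lib.L1S Pool.Agent.Lib.L8 Pool.Agent.Lib.L8.FL
open scoped ENNReal Pointwise

noncomputable section

variable {ι M N : Type} [Fintype ι] [DecidableEq ι] [AddCommGroup M] [Module ℚ M] [AddCommGroup N] [Module ℚ N]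
  {P : RootPairing ι ℚ M N} [P.IsCrystallographic] [P.IsReduced] [P.IsIrreducible] [P.IsRootSystem] {b : P.Base}
  {K L : Type} [Field K] [NumberField K] [Field L] [NumberField L] [Algebra K L]

/-- The analytic lemma (`pair_int`, helper34) in the form of LA. -/
theorem r6s_of {K F : Type} [Field K] [NumberField K] [Field F] [NumberField F] [Algebra K F] [IsGalois K F] (h2 : Module.finrank K F = 2) {σ : F ≃ₐ[K] F} (hσ : σ ≠ 1) {η : F} (hη : η ≠ 0) {s : ℝ} (hs : 2 < s) :
    R6S K F σ η s := by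
  have hfin : FiniteDimensional K F := Module.Finite.of_restrictScalars_finite ℚ K F
  have hG : ∀ g : F ≃ₐ[K] F, g = 1 ∨ g = σ := by
    classical
    intro g
    have h3 : Nat.card (F ≃ₐ[K] F) = 2 := by rw [IsGalois.card_aut_eq_finrank, h2]
    by_contra h4
    rw [not_or] at h4
    have h5 : ({1, σ, g} : Finset (F ≃ₐ[K] F)).card = 3 := by
      rw [Finset.card_eq_three]
      exact ⟨1, σ, g, hσ.symm, fun h => h4.1 h.symm, fun h => h4.2 h.symm, rfl⟩
    have h6 : ({1, σ, g} : Finset (F ≃ₐ[K] F)).card ≤ Fintype.card (F ≃ₐ[K] F) := Finset.card_le_univ _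
    rw [h5, ← Nat.card_eq_fintype_card, h3] at h6
    omega
  obtain ⟨C, hC, h⟩ := pair_int (K := K) (F := F) hσ hG hs (th := fun w => evw w (mixedEmbedding F η)) (fun w => by
    rw [eq2_emb]
    exact (map_ne_zero _).2 hη)
  refine ⟨C, hC, fun A c g => ?_⟩
  refine le_trans (le_of_eq ?_) (h A c g)
  refine lintegral_congr fun a => lintegral_congr fun q => ?_
  congr 1
  refine Finset.prod_congr rfl fun v _ => ?_
  unfold rX rB cpl
  rw [map_mul]

/-- **The archimedean part** (C5Q). -/
theorem archQ (Q : QS b K L) [IsGalois K L] : ArchQ Q := by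
  refine archQ_of Q fun κ hκ i e he hP => ?_
  by_cases hO : H29Q.Orth Q i
  · exact letQ_orth Q hO hκ he hP
  · obtain ⟨j, σ, η, D⟩ := prD_ex Q hO
    have : IsGalois K (FO Q i) := D.gal
    have hs := lo_pos Q he hP
    exact letQ_adj D hκ he hP (r6s_of D.deg D.sne D.ene (by linarith))

end

end Pool.Agent.Lib.L8.QF
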