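import Pool.Agent.Lib.L8.FI.G1
import Pool.Agent.Lib.L1S.QP2
import Pool.Agent.Lib.L1S.Q0

/-!
# QF, EQ0: the action of the Galois group on the finite places (helper43)

`spl s w` is the place `s w` of `L`; `|s x|_(s w) = |x|_w`.
-/

namespace Pool.Agent.Lib.L8.QF

open Matrix NumberField IsDedekindDomain Pool.Agent.Lib.H89N Pool.Agent.Lib.L1S
open Pool.Agent.Lib.L8.FL (av aI)

noncomputable section

set_option linter.unusedSectionVars false

variable {K L : Type} [Field K] [NumberField K] [Field L] [NumberField L] [Algebra K L]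

/-- The automorphism of the ring of integers. -/
def sO (s : L ≃ₐ[K] L) : 𝓞 L ≃+* 𝓞 L := NumberField.RingOfIntegers.mapRingEquiv s.toRingEquiv

theorem eq0_sO (s : L ≃ₐ[K] L) (x : 𝓞 L) : ((sO s x : 𝓞 L) : L) = s x := rfl

theorem eq0_sOs (s : L ≃ₐ[K] L) (x : 𝓞 L) : (((sO s).symm x : 𝓞 L) : L) = s⁻¹ (x : L) := rfl

/-- The place `s w`. -/
def spl (s : L ≃ₐ[K] L) (w : HeightOneSpectrum (𝓞 L)) : HeightOneSpectrum (𝓞 L) := HeightOneSpectrum.equivOfRingEquiv (sO s) w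

theorem eq0_asI (s : L ≃ₐ[K] L) (w : HeightOneSpectrum (𝓞 L)) : (spl s w).asIdeal = w.asIdeal.map (sO s : 𝓞 L →+* 𝓞 L) := by
  rw [Ideal.map_comap_of_equiv]
  rfl

theorem eq0_mem (s : L ≃ₐ[K] L) (w : HeightOneSpectrum (𝓞 L)) (x : 𝓞 L) : x ∈ (spl s w).asIdeal ↔ (sO s).symm x ∈ w.asIdeal := Iff.rfl

theorem spl_one (w : HeightOneSpectrum (𝓞 L)) : spl (1 : L ≃ₐ[K] L) w = w := by
  apply HeightOneSpectrum.ext
  ext x
  exact Iff.rfl

theorem spl_mul (s t : L ≃ₐ[K] L) (w : HeightOneSpectrum (𝓞 L)) : spl (s * t) w = spl s (spl t w) := by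
  apply HeightOneSpectrum.ext
  ext x
  rw [eq0_mem, eq0_mem, eq0_mem]
  have e : (sO (s * t)).symm x = (sO t).symm ((sO s).symm x) := by
    apply NumberField.RingOfIntegers.ext
    rw [eq0_sOs, eq0_sOs, eq0_sOs, _root_.mul_inv_rev]
    rfl
  rw [e]

theorem spl_inv_apply (s : L ≃ₐ[K] L) (w : HeightOneSpectrum (𝓞 L)) : spl s⁻¹ (spl s w) = w := by
  rw [← spl_mul, inv_mul_cancel, spl_one]

theorem spl_apply_inv (s : L ≃ₐ[K] L) (w : HeightOneSpectrum (𝓞 L)) : spl s (spl s⁻¹ w) = w := by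
  rw [← spl_mul, mul_inv_cancel, spl_one]

/-- The permutation of the places. -/
def splE (s : L ≃ₐ[K] L) : Equiv.Perm (HeightOneSpectrum (𝓞 L)) := ⟨spl s, spl s⁻¹, spl_inv_apply s, spl_apply_inv s⟩

theorem splE_apply (s : L ≃ₐ[K] L) (w : HeightOneSpectrum (𝓞 L)) : splE s w = spl s w := rfl

theorem eq0_pow (s : L ≃ₐ[K] L) (w : HeightOneSpectrum (𝓞 L)) (n : ℕ) (x : 𝓞 L) : sO s x ∈ (spl s w).asIdeal ^ n ↔ x ∈ w.asIdeal ^ n := by
  rw [eq0_asI, ← Ideal.map_pow, Ideal.map_comap_of_equiv]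
  show (sO s).symm (sO s x) ∈ w.asIdeal ^ n ↔ x ∈ w.asIdeal ^ n
  rw [RingEquiv.symm_apply_apply]

theorem eq0_absNorm (s : L ≃ₐ[K] L) (w : HeightOneSpectrum (𝓞 L)) : Ideal.absNorm (spl s w).asIdeal = Ideal.absNorm w.asIdeal := by
  rw [Ideal.absNorm_apply, Ideal.absNorm_apply, Submodule.cardQuot_apply, Submodule.cardQuot_apply]
  exact (Nat.card_congr (Ideal.quotientEquiv w.asIdeal (spl s w).asIdeal (sO s) (eq0_asI s w)).toEquiv).symm

/-- The absolute values of the integers. -/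
theorem eq0_int (s : L ≃ₐ[K] L) (w : HeightOneSpectrum (𝓞 L)) (x : 𝓞 L) : av (spl s w) (s (x : L)) = av w (x : L) := by
  by_cases hx : x = 0
  · subst hx
    have h0 : ((0 : 𝓞 L) : L) = 0 := map_zero (algebraMap (𝓞 L) L)
    rw [h0, map_zero, AbsoluteValue.map_zero, AbsoluteValue.map_zero]
  · have hx1 : (x : L) ≠ 0 := by
      intro h
      exact hx (NumberField.RingOfIntegers.ext h)
    have hx2 : s (x : L) ≠ 0 := by
      intro h
      exact hx1 ((map_eq_zero s).1 h)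
    have e : (Ideal.absNorm (spl s w).asIdeal : ℝ) = (Ideal.absNorm w.asIdeal : ℝ) := by rw [eq0_absNorm]
    obtain ⟨m, hm⟩ := aw_zpow w (x : L) hx1
    obtain ⟨m', hm'⟩ := aw_zpow (spl s w) (s (x : L)) hx2
    rw [e] at hm'
    have h1 := nu2_one_lt w
    have key : ∀ n : ℕ, m' ≤ -(n : ℤ) ↔ m ≤ -(n : ℤ) := by
      intro n
      have h2 := nu2_le_pow w x n
      have h3 := nu2_le_pow (spl s w) (sO s x) n
      rw [eq0_pow, eq0_sO, e, hm'] at h3
      rw [hm] at h2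
      rw [← zpow_le_zpow_iff_right₀ h1, ← zpow_le_zpow_iff_right₀ h1 (m := m)]
      exact h3.trans h2.symm
    have hm0 : m ≤ 0 := by
      have h2 := nu2_le_one w x
      rw [hm] at h2
      by_contra h
      exact absurd h2 (not_le.2 (one_lt_zpow₀ h1 (not_le.1 h)))
    have hm0' : m' ≤ 0 := (key 0).2 (by simpa using hm0) |>.trans (by simp)
    have h4 : m' = m := by
      apply le_antisymm
      · have := (key m.natAbs).2 (by omega)
        omega
      · have := (key m'.natAbs).1 (by omega)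
        omega
    rw [show av (spl s w) (s (x : L)) = _ from hm', show av w (x : L) = _ from hm, h4]

/-- **The absolute values**: `|s x|_(s w) = |x|_w`. -/
theorem av_spl (s : L ≃ₐ[K] L) (w : HeightOneSpectrum (𝓞 L)) (x : L) : av (spl s w) (s x) = av w x := by
  obtain ⟨a, c, hc, rfl⟩ := IsFractionRing.div_surjective (A := 𝓞 L) x
  rw [map_div₀, map_div₀, map_div₀]
  exact congrArg₂ (· / ·) (eq0_int s w a) (eq0_int s w c)

/-- The absolute value of an invariant ideal. -/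
theorem eq0_aI (s : L ≃ₐ[K] L) (w : HeightOneSpectrum (𝓞 L)) {𝔞 : Ideal (𝓞 L)} (h : 𝔞.map (sO s : 𝓞 L →+* 𝓞 L) = 𝔞) : aI (spl s w) 𝔞 = aI w 𝔞 := by
  have e : (Associates.mk (spl s w).asIdeal).count (Associates.mk 𝔞).factors = (Associates.mk w.asIdeal).count (Associates.mk 𝔞).factors := by
    by_cases h0 : 𝔞 = ⊥
    · subst h0
      have h1 : ∀ p : HeightOneSpectrum (𝓞 L), (Associates.mk p.asIdeal).count (Associates.mk (⊥ : Ideal (𝓞 L))).factors = 0 := by
        intro p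
        have h2 : (Associates.mk (⊥ : Ideal (𝓞 L))) = 0 := rfl
        rw [h2, Associates.factors_zero, Associates.count, dif_pos p.associates_irreducible]
        rfl
      rw [h1, h1]
    · have h1 : ∀ p : HeightOneSpectrum (𝓞 L), ∀ n : ℕ, n ≤ (Associates.mk p.asIdeal).count (Associates.mk 𝔞).factors ↔ 𝔞 ≤ p.asIdeal ^ n := by
        intro p n
        rw [← Associates.prime_pow_dvd_iff_le (Associates.mk_ne_zero.2 h0) p.associates_irreducible, ← Associates.mk_pow, Associates.mk_le_mk_iff_dvd, Ideal.dvd_iff_le]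
      have h2 : ∀ n : ℕ, 𝔞 ≤ (spl s w).asIdeal ^ n ↔ 𝔞 ≤ w.asIdeal ^ n := by
        intro n
        constructor
        · intro h3 x hx
          rw [← eq0_pow s]
          apply h3
          rw [← h]
          exact Ideal.mem_map_of_mem _ hx
        · intro h3
          rw [eq0_asI, ← Ideal.map_pow]
          nth_rw 1 [← h]
          exact Ideal.map_mono h3
      apply le_antisymm
      · rw [h1, ← h2, ← h1]
      · rw [h1, h2, ← h1]
  unfold FL.aI
  rw [eq0_absNorm, e]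

theorem eq0_up (s : L ≃ₐ[K] L) (𝔫 : Ideal (𝓞 K)) : (up L 𝔫).map (sO s : 𝓞 L →+* 𝓞 L) = up L 𝔫 := by
  unfold up
  rw [Ideal.map_map]
  congr 1
  ext x
  show s (algebraMap K L (x : K)) = algebraMap K L (x : K)
  exact s.commutes _

/-- **The levels** `𝔫 𝓞 L` are invariant. -/
theorem aI_spl (s : L ≃ₐ[K] L) (w : HeightOneSpectrum (𝓞 L)) (𝔫 : Ideal (𝓞 K)) : aI (spl s w) (up L 𝔫) = aI w (up L 𝔫) := eq0_aI s w (eq0_up s 𝔫)

theorem eq0_InI (s : L ≃ₐ[K] L) (𝔫 : Ideal (𝓞 K)) {x : L} (h : InI (up L 𝔫) x) : InI (up L 𝔫) (s x) := by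
  obtain ⟨y, hy, rfl⟩ := h
  refine ⟨sO s y, ?_, rfl⟩
  rw [← eq0_up s]
  exact Ideal.mem_map_of_mem _ hy

end

end Pool.Agent.Lib.L8.QF
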