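import Pool.Agent.Lib.L8.QF.EQ1
import Pool.Agent.Lib.L8.QF.Defs

/-!
# QF, EQ3: the local constants `c_w` under the Galois group (helper43)

If `z` is fixed, `Ah w (n_i x_i(r) z) j = Ah w z j * max (Ah w z i, |r + c_w|_w) ^ (-a_ji)` then `|s c_w - c_(s w)|_(s w) ≤ Ah w z i`. Also: `τ_s n_w = n_(s w)` for words, places are determined by their absolute values.
-/

namespace Pool.Agent.Lib.L8.QF

open Matrix NumberField IsDedekindDomain Pool.Agent.Lib.H89N Pool.Agent.Lib.L1S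
open Pool.Agent.Lib.L8.FL (av aI Ah fe)

noncomputable section

set_option linter.unusedSectionVars false

variable {ι M N : Type} [Fintype ι] [DecidableEq ι] [AddCommGroup M] [Module ℚ M] [AddCommGroup N] [Module ℚ N]
  {P : RootPairing ι ℚ M N} [P.IsCrystallographic] [P.IsReduced] [P.IsIrreducible] [P.IsRootSystem] {b : P.Base}
  {K L : Type} [Field K] [NumberField K] [Field L] [NumberField L] [Algebra K L] {Q : QS b K L}

/-! ## 1. Places -/

theorem eq3_lt_one (w : HeightOneSpectrum (𝓞 L)) (x : 𝓞 L) : av w (x : L) < 1 ↔ x ∈ w.asIdeal := by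
  exact w.adicAbv_coe_lt_one_iff (NumberField.HeightOneSpectrum.one_lt_absNorm_nnreal w) x

theorem eq3_inj {w w' : HeightOneSpectrum (𝓞 L)} (h : ∀ x : L, av w x = av w' x) : w = w' := by
  apply HeightOneSpectrum.ext
  ext x
  rw [← eq3_lt_one, ← eq3_lt_one, h]

/-- A place `w'` with `|s x|_(w') = |x|_w` is `s w`. -/
theorem eq3_place {s : L ≃ₐ[K] L} {w w' : HeightOneSpectrum (𝓞 L)} (h : ∀ x : L, av w' (s x) = av w x) : w' = spl s w := by
  refine eq3_inj fun x => ?_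
  have h1 := h (s⁻¹ x)
  have h2 := av_spl s w (s⁻¹ x)
  have e : s (s⁻¹ x) = x := s.apply_symm_apply x
  rw [e] at h1 h2
  exact h1.trans h2.symm

/-! ## 2. Words -/

theorem Tq.nW (s : L ≃ₐ[K] L) (l : List b.support) : Tq Q s (FL.nW b L l) (FL.nW b L (l.map (Q.da s).sp)) := by
  induction l with
  | nil => exact Tq.one
  | cons i l ih => exact ih.mul (Tq.b1m s i)

/-! ## 3. Fixed elements -/

theorem Ah_Fx {z : GK b L} (hz : Fx Q z.1.1) (s : L ≃ₐ[K] L) (w : HeightOneSpectrum (𝓞 L)) (i : b.support) : Ah b (spl s w) z ((Q.da s).sp i) = Ah b w z i := (Tq.of_Fx hz s).Ah w i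

theorem Av_Fx {z : GK b L} (hz : Fx Q z.1.1) (s : L ≃ₐ[K] L) (w : HeightOneSpectrum (𝓞 L)) (i : b.support) : FI.Av (av (spl s w)) ((Q.da s).sp i) z = FI.Av (av w) i z := (Tq.of_Fx hz s).Av w i

theorem Chi_Fx {z : GK b L} (hz : Fx Q z.1.1) (s : L ≃ₐ[K] L) (𝔫 : Ideal (𝓞 K)) (j : b.support) : FL.Chi b (up L 𝔫) ((Q.da s).sp j) z ↔ FL.Chi b (up L 𝔫) j z := (Tq.of_Fx hz s).Chi_iff 𝔫 j

theorem fe_Tq {s : L ≃ₐ[K] L} {g g₁ : GK b L} (hg : Tq Q s g g₁) {e : b.support → ℝ} (he : InvE Q e) : fe b e g₁ = fe b e g := by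
  rw [hg.fe]
  congr 1
  funext i
  exact he s i

/-! ## 4. The local constants -/

/-- **The local constants.** `z₁ = τ_s z`. -/
theorem coc_Tq {s : L ≃ₐ[K] L} {z z₁ : GK b L} (hz : Tq Q s z z₁) {w : HeightOneSpectrum (𝓞 L)} {i : b.support} {c c' : L}
    (hc : ∀ r : L, Ah b w (b1m b L i 1 * b1x b L (i : ι) r * z) i = Ah b w z i * (max (Ah b w z i) (av w (r + c))) ^ (-(b.cartanMatrix i i)))
    (hc' : ∀ r : L, Ah b (spl s w) (b1m b L ((Q.da s).sp i) 1 * b1x b L ((Q.da s).sp i : ι) r * z₁) ((Q.da s).sp i) =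
      Ah b (spl s w) z₁ ((Q.da s).sp i) * (max (Ah b (spl s w) z₁ ((Q.da s).sp i)) (av (spl s w) (r + c'))) ^ (-(b.cartanMatrix ((Q.da s).sp i) ((Q.da s).sp i)))) :
    (∀ r : L, max (Ah b w z i) (av w (r + c)) = max (Ah b w z i) (av (spl s w) (s r + c'))) ∧ av (spl s w) (s c - c') ≤ Ah b w z i := by
  have ha : 0 < Ah b w z i := FI.Ah_pos b w z i
  have h2 : ∀ j : b.support, b.cartanMatrix j j = 2 := fun j => b.cartanMatrix_apply_same j
  have key : ∀ r : L, max (Ah b w z i) (av w (r + c)) = max (Ah b w z i) (av (spl s w) (s r + c')) := by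
    intro r
    have h1 := hc r
    have h3 := hc' (s r)
    have h4 : Tq Q s (b1m b L i 1 * b1x b L (i : ι) r * z) (b1m b L ((Q.da s).sp i) 1 * b1x b L ((Q.da s).sp i : ι) (s r) * z₁) := ((Tq.b1m s i).mul (Tq.b1x s i r)).mul hz
    rw [h4.Ah, hz.Ah, h1, h2, h2] at h3
    have h5 := mul_left_cancel₀ ha.ne' h3
    rw [_root_.zpow_neg, _root_.zpow_neg] at h5
    have h6 := inv_injective h5
    have p1 : 0 < max (Ah b w z i) (av w (r + c)) := lt_of_lt_of_le ha (le_max_left _ _)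
    have p2 : 0 < max (Ah b w z i) (av (spl s w) (s r + c')) := lt_of_lt_of_le ha (le_max_left _ _)
    have h7 : max (Ah b w z i) (av w (r + c)) ^ 2 = max (Ah b w z i) (av (spl s w) (s r + c')) ^ 2 := by exact_mod_cast h6
    exact (pow_left_inj₀ p1.le p2.le two_ne_zero).1 h7
  refine ⟨key, ?_⟩
  have h1 := key (-c)
  rw [neg_add_cancel, AbsoluteValue.map_zero, max_eq_left ha.le] at h1
  have h3 : av (spl s w) (s (-c) + c') ≤ Ah b w z i := by
    rw [h1]
    exact le_max_right _ _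
  have e : s c - c' = -(s (-c) + c') := by
    rw [map_neg]
    ring
  rw [e, AbsoluteValue.map_neg]
  exact h3

/-- The form for `RankOneQ`: `z` is fixed, `s` fixes `i`. -/
theorem coc_fix {z : GK b L} (hz : Fx Q z.1.1) {i : b.support} {c : HeightOneSpectrum (𝓞 L) → L}
    (hc : ∀ w, ∀ r : L, Ah b w (b1m b L i 1 * b1x b L (i : ι) r * z) i = Ah b w z i * (max (Ah b w z i) (av w (r + c w))) ^ (-(b.cartanMatrix i i)))
    {s : L ≃ₐ[K] L} (hs : (Q.da s).sp i = i) {w w' : HeightOneSpectrum (𝓞 L)} (hw : ∀ x : L, av w' (s x) = av w x) : Ah b w' z i = Ah b w z i ∧ av w' (s (c w) - c w') ≤ Ah b w z i := by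
  obtain rfl := eq3_place hw
  have hq := Tq.of_Fx hz s
  have h1 := hq.Ah w i
  rw [hs] at h1
  refine ⟨h1, (coc_Tq hq (hc w) (c' := c (spl s w)) ?_).2⟩
  rw [hs]
  exact hc (spl s w)

end

end Pool.Agent.Lib.L8.QF
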