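import Pool.Agent.Lib.L8.QF.FQ

/-!
# QF, module C5Q, FQ2 (design helper33): the field of the adjacent pair
-/

namespace Pool.Agent.Lib.L8.QF

open MeasureTheory Matrix NumberField NumberField.InfinitePlace IsDedekindDomain Pool.Agent.Lib.H89N Pool.Agent.Lib.H33W Pool.Agent.Lib.H67G Pool.Agent.Lib.L1S Pool.Agent.Lib.L8 Pool.Agent.Lib.L8.FL
open scoped ENNReal Pointwise

noncomputable section

set_option linter.unusedSectionVars false
set_option linter.unusedVariables false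

variable {ι M N : Type} [Fintype ι] [DecidableEq ι] [AddCommGroup M] [Module ℚ M] [AddCommGroup N] [Module ℚ N]
  {P : RootPairing ι ℚ M N} [P.IsCrystallographic] [P.IsReduced] [P.IsIrreducible] [P.IsRootSystem] {b : P.Base}
  {K L : Type} [Field K] [NumberField K] [Field L] [NumberField L] [Algebra K L]

variable [IsGalois K L]

/-! ## The pair -/

/-- **An orbit with two elements**: the quadratic extension `F / K`. PROOF: `StQ Q i` has index 2 (`fo_card`, `orb Q i = {i, j}`), so it is normal and `F / K` is Galois of degree 2 (`IsGalois.of_fixedField_normal_subgroup` or so); `σ` the restriction of `s₀` with `s₀ i = j` (`AlgEquiv.restrictNormal`), every `s ∉ StQ Q i` is in `s₀ StQ Q i`, so it has the same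
restriction; `η = x - σ x` for `x ∈ F`, `x ∉ K` (or: `σ ≠ 1`, `σ² = 1`). -/
theorem fo_pair (Q : QS b K L) {i j : b.support} (hij : i ≠ j) (hO : orb Q i = {i, j}) : ∃ (σ : FO Q i ≃ₐ[K] FO Q i) (η : FO Q i), IsGalois K (FO Q i) ∧ Module.finrank K (FO Q i) = 2 ∧ σ ≠ 1 ∧ (∀ x, σ (σ x) = x) ∧ η ≠ 0 ∧ σ η = -η ∧
    (∀ s : L ≃ₐ[K] L, s ∉ StQ Q i → ∀ x : FO Q i, s (x : L) = (σ x : L)) ∧ (∀ s : L ≃ₐ[K] L, s ∉ StQ Q i → ∀ r : EE (FO Q i), sE s (jE Q i r) = jE Q i (sE σ r)) := by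
  have hfin : FiniteDimensional K L := Module.Finite.of_restrictScalars_finite ℚ K L
  have hj : j ∈ orb Q i := by
    rw [hO]
    exact Finset.mem_insert_of_mem (Finset.mem_singleton_self j)
  obtain ⟨s₀, hs₀⟩ : ∃ s, (Q.da s).sp i = j := by
    unfold orb at hj
    rw [Finset.mem_filter] at hj
    exact hj.2
  have hor : ∀ s : L ≃ₐ[K] L, (Q.da s).sp i = i ∨ (Q.da s).sp i = j := fun s => by
    have h := c2_orb_sp Q i s (c2_orb_self Q i)
    rw [hO, Finset.mem_insert, Finset.mem_singleton] at h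
    exact h
  have horj : ∀ s : L ≃ₐ[K] L, (Q.da s).sp j = i ∨ (Q.da s).sp j = j := fun s => by
    have h := c2_orb_sp Q i s hj
    rw [hO, Finset.mem_insert, Finset.mem_singleton] at h
    exact h
  have hji : ∀ s : L ≃ₐ[K] L, s ∉ StQ Q i → (Q.da s).sp j = i := fun s hs => by
    rcases horj s with h | h
    · exact h
    · have h1 : (Q.da s).sp i = j := (hor s).resolve_left hs
      exact absurd ((Q.da s).sp.injective (h1.trans h.symm)) hij
  have hidx : (StQ Q i).index = 2 := by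
    rw [Subgroup.index_eq_two_iff]
    refine ⟨s₀, fun s => ?_⟩
    have h1 : (Q.da (s * s₀)).sp i = (Q.da s).sp j := by rw [sp_mul, hs₀]
    by_cases hs : s ∈ StQ Q i
    · refine Or.inr ⟨hs, fun h => ?_⟩
      have h2 : (Q.da (s * s₀)).sp i = i := h
      have h3 : (Q.da s).sp i = i := hs
      rw [h1] at h2
      exact hij ((Q.da s).sp.injective (h3.trans h2.symm))
    · refine Or.inl ⟨?_, hs⟩
      show (Q.da (s * s₀)).sp i = i
      rw [h1]
      exact hji s hs
  have hnorm : (StQ Q i).Normal := Subgroup.normal_of_index_eq_two hidx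
  have hgal : IsGalois K (FO Q i) := inferInstance
  have hs₀n : s₀ ∉ StQ Q i := fun h => by
    have h1 : (Q.da s₀).sp i = i := h
    exact hij (h1.symm.trans hs₀)
  have hfix : ∀ t ∈ StQ Q i, ∀ x : FO Q i, t (x : L) = (x : L) := fun t ht x => x.2 ⟨t, ht⟩
  obtain ⟨σ, hσ⟩ : ∃ σ : FO Q i ≃ₐ[K] FO Q i, ∀ x : FO Q i, ((σ x : FO Q i) : L) = s₀ (x : L) :=
    ⟨s₀.restrictNormal (FO Q i), fun x => AlgEquiv.restrictNormal_commutes s₀ (FO Q i) x⟩
  have hnot : ∀ s : L ≃ₐ[K] L, s ∉ StQ Q i → ∀ x : FO Q i, s (x : L) = (σ x : L) := fun s hs x => by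
    have h1 : (Q.da s).sp i = j := (hor s).resolve_left hs
    have h2 : s₀⁻¹ * s ∈ StQ Q i := by
      show (Q.da (s₀⁻¹ * s)).sp i = i
      rw [sp_mul, h1, ← hs₀, sp_cancel]
    have h3 : s₀⁻¹ (s (x : L)) = (x : L) := hfix _ h2 x
    have h4 : s₀ (s₀⁻¹ (s (x : L))) = s (x : L) := s₀.apply_symm_apply _
    rw [h3] at h4
    rw [hσ, h4]
  have hσ1 : σ ≠ 1 := fun h => by
    apply hs₀n
    rw [← IntermediateField.fixingSubgroup_fixedField (StQ Q i)]
    rw [IntermediateField.mem_fixingSubgroup_iff]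
    intro x hx
    have h1 := hσ ⟨x, hx⟩
    rw [h, AlgEquiv.one_apply] at h1
    exact h1.symm
  have hσσ : ∀ x, σ (σ x) = x := fun x => by
    refine Subtype.ext ?_
    have h2 : s₀ * s₀ ∈ StQ Q i := by
      show (Q.da (s₀ * s₀)).sp i = i
      rw [sp_mul, hs₀]
      exact hji s₀ hs₀n
    have h3 := hfix _ h2 x
    rw [AlgEquiv.mul_apply] at h3
    rw [hσ, hσ, h3]
  obtain ⟨x₀, hx₀⟩ : ∃ x, σ x ≠ x := by
    by_contra hcon
    push Not at hcon
    exact hσ1 (AlgEquiv.ext hcon)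
  have hfr : Module.finrank K (FO Q i) = 2 := by
    have h1 := fo_card Q i
    have h2 : (orb Q i).card = 2 := by
      rw [hO]
      exact Finset.card_pair hij
    have h3 := Module.finrank_mul_finrank K (FO Q i) L
    have h4 : 0 < Module.finrank (FO Q i) L := Module.finrank_pos
    rw [h2, ← h3, mul_comm] at h1
    exact (Nat.eq_of_mul_eq_mul_right h4 h1).symm
  refine ⟨σ, x₀ - σ x₀, hgal, hfr, hσ1, hσσ, sub_ne_zero.2 (Ne.symm hx₀), ?_, hnot, fun s hs r => ?_⟩
  · rw [map_sub, hσσ, neg_sub]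
  · have h := (t3_dense (FO Q i)).equalizer ((sE_cont s).comp (jE_cont Q i)) ((jE_cont Q i).comp (sE_cont σ)) (funext fun x => by
      show sE s (jE Q i (mixedEmbedding (FO Q i) x)) = jE Q i (sE σ (mixedEmbedding (FO Q i) x))
      unfold jE
      rw [iE_emb, sE_emb, sE_emb, iE_emb]
      exact congrArg (mixedEmbedding L) (hnot s hs x))
    exact congrFun h r

/-- PROOF: `x = η y` with `y = η⁻¹ x` fixed by `σ` (`Gal (F / K) = {1, σ}`), `sE_KR` for `F / K` and the range of `iE`, as `fo_desc`. -/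
theorem fo_anti {K F : Type} [Field K] [NumberField K] [Field F] [NumberField F] [Algebra K F] [IsGalois K F] (h2 : Module.finrank K F = 2) {σ : F ≃ₐ[K] F} (hσ : σ ≠ 1) {η : F} (hη : η ≠ 0) (hη' : σ η = -η)
    {x : EE F} (hx : sE σ x = -x) : ∃ q : EE K, x = mixedEmbedding F η * iE (algebraMap K F) q := by
  have hfin : FiniteDimensional K F := Module.Finite.of_restrictScalars_finite ℚ K F
  have hcard : Nat.card (F ≃ₐ[K] F) = 2 := by rw [IsGalois.card_aut_eq_finrank, h2]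
  obtain ⟨τ, hτ, hτ'⟩ := (Nat.card_eq_two_iff' (1 : F ≃ₐ[K] F)).1 hcard
  have hall : ∀ s : F ≃ₐ[K] F, s = 1 ∨ s = σ := fun s => by
    by_cases hs : s = 1
    · exact Or.inl hs
    · exact Or.inr ((hτ' s hs).trans (hτ' σ hσ).symm)
  have hy : ∀ s : F ≃ₐ[K] F, sE s (mixedEmbedding F η⁻¹ * x) = mixedEmbedding F η⁻¹ * x := fun s => by
    rcases hall s with rfl | rfl
    · rw [sE_one]
    · rw [map_mul, hx, sE_emb, map_inv₀, hη', inv_neg, map_neg, neg_mul_neg]
  have h3 := sE_KR hy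
  let ℓ : EE K →ₗ[ℝ] EE F :=
    { toFun := iE (algebraMap K F)
      map_add' := map_add _
      map_smul' := fun c y => iE_smul _ c y }
  have h4 : KR K F ≤ LinearMap.range ℓ := by
    refine Submodule.span_le.2 ?_
    rintro _ ⟨t, rfl⟩
    exact ⟨mixedEmbedding K t, iE_emb _ t⟩
  obtain ⟨q, hq⟩ := h4 h3
  refine ⟨q, ?_⟩
  have h5 : iE (algebraMap K F) q = mixedEmbedding F η⁻¹ * x := hq
  rw [h5, ← mul_assoc, ← map_mul, mul_inv_cancel₀ hη, map_one, one_mul]

end

end Pool.Agent.Lib.L8.QF
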