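import Pool.Agent.Lib.L8.QF.OP2

/-!
# QF, file OP3 (helper67): the density theorem for convolution operators, proof
-/

namespace Pool.Agent.Lib.L8.QF

open MeasureTheory Matrix NumberField NumberField.InfinitePlace IsDedekindDomain Pool.Agent.Lib.H89N Pool.Agent.Lib.H33W Pool.Agent.Lib.H67G Pool.Agent.Lib.L1S Pool.Agent.Lib.L8.FL
open Pool.Agent.Lib.L8.FU
open scoped ENNReal Pointwise

noncomputable section

set_option linter.unusedSectionVars false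
set_option linter.unusedVariables false

variable {ι M N : Type} [Fintype ι] [DecidableEq ι] [AddCommGroup M] [Module ℚ M] [AddCommGroup N] [Module ℚ N]
  {P : RootPairing ι ℚ M N} [P.IsCrystallographic] [P.IsReduced] [P.IsIrreducible] [P.IsRootSystem]
  {b : P.Base} {K L : Type} [Field K] [NumberField K] [Field L] [NumberField L] [Algebra K L]

theorem invJ_one (Q : QS b K L) [IsGalois K L] (h1 : Module.finrank K L = 1) (J : Finset b.support) : InvJ Q J := by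
  have : FiniteDimensional K L := Module.Finite.of_restrictScalars_finite ℚ K L
  have hc : Fintype.card (L ≃ₐ[K] L) = 1 := by
    rw [← Nat.card_eq_fintype_card, IsGalois.card_aut_eq_finrank, h1]
  have hu : ∀ s : L ≃ₐ[K] L, s = 1 := fun s => by
    have := Fintype.card_le_one_iff_subsingleton.1 hc.le
    exact Subsingleton.elim _ _
  intro s i
  have e : (Q.da s).sp i = i := by
    apply Subtype.ext
    show Q.act s i = i
    rw [hu s, map_one]
    rfl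
  rw [e]

theorem isCQ_one (Q : QS b K L) [IsGalois K L] (h1 : Module.finrank K L = 1) (w : Equiv.Perm ι) : IsCQ Q w ↔ IsC b w := by
  constructor
  · exact fun h => h.isC
  · rintro ⟨J, h2, h3⟩
    exact ⟨J, h2, invJ_one Q h1 J, h3⟩

theorem ineqQ_one (Q : QS b K L) {D₀ : ℝ} {nu : Equiv.Perm ι → ℝ} (hI : IneqR b D₀ nu) : IneqQ Q D₀ nu := fun w hw =>
  ⟨(hI w hw.isC).1, fun Λ hΛ _ => (hI w hw.isC).2 Λ hΛ⟩

theorem statementVQ_one (Q : QS b K L) [IsGalois K L] (h1 : Module.finrank K L = 1) {nu : Equiv.Perm ι → ℝ} (h : StatementVF Q nu) : StatementVQ Q nu := by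
  classical
  intro p Fv _ V Λ hΛ ε hε hε1 T Ω K₀ hΩ hK₀
  obtain ⟨C, hC⟩ := h p Fv V Λ hΛ ε hε hε1 T Ω K₀ hΩ hK₀
  refine ⟨C, ?_⟩
  intro v 𝔫 h0 hv r s c hcQ hc hrs π hπ h hh1 hh2 θ hθ t a ht x hx R hR X hX
  refine hC v 𝔫 h0 hv r s c hcQ hc hrs π hπ h hh1 hh2 θ hθ t a ht x hx R hR X fun y hy => ?_
  have h2 := hX y fun k w hw => hy k w hw.isC
  refine le_trans (le_of_eq ?_) h2
  have hdf : df K L = 1 := by
    unfold df
    rw [h1]
    norm_num
  unfold Exs ExsQ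
  rw [hdf]
  simp only [Real.rpow_one]
  refine Finset.sum_congr ?_ fun w _ => rfl
  ext w
  rw [Finset.mem_filter, Finset.mem_filter, isCQ_one Q h1 w]

/-- **The density theorem for convolution operators.** -/
theorem statementOQ_of (Q : QS b K L) [IsGalois K L] {D₀ : ℝ} (hD0 : 0 < D₀) {nu : Equiv.Perm ι → ℝ} (hV : StatementVQ Q nu) (hI : IneqQ Q D₀ nu) : StatementOQ Q D₀ := by
  classical
  intro ε hε Ω K₀ hΩ hK₀
  have he : Module.finrank K L ≠ 0 := by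
    have : FiniteDimensional K L := Module.Finite.of_restrictScalars_finite ℚ K L
    exact Module.finrank_pos.ne'
  obtain ⟨e, he'⟩ : ∃ e : ℝ, e = min (1 / 2) (ε / 3) := ⟨_, rfl⟩
  have he0 : 0 < e := by
    rw [he']
    exact lt_min (by norm_num) (by linarith)
  have he1 : e ≤ 1 / 2 := by rw [he']; exact min_le_left _ _
  have he2 : 3 * e ≤ ε := by
    have : e ≤ ε / 3 := by rw [he']; exact min_le_right _ _
    linarith
  obtain ⟨C, hC⟩ := hV 0 (fun _ => ℝ) (fun k => k.elim0) (fun k => k.elim0) (fun k => k.elim0) e he0 he1 0 Ω K₀ hΩ hK₀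
  obtain ⟨W, hW⟩ : ∃ W : ℝ, W = ((Finset.univ.filter fun w : Equiv.Perm ι => IsCQ Q w).card : ℝ) := ⟨_, rfl⟩
  have hW0 : 0 ≤ W := by rw [hW]; exact Nat.cast_nonneg _
  refine ⟨|C| * (1 + W), ?_⟩
  intro v 𝔫 h0 hv r s c hcQ hc hrs π hπ h hh1 hh2 θ hθ x a ha Vv hVv hdim τ _ w iw S cS tS η iη hS μ _ φ cφ sφ ν _ D hD n F G c' t' hF hT hG hort D' hD'
  obtain ⟨q₀, hq₀⟩ : ∃ q₀ : ℝ, q₀ = (Ideal.absNorm v.asIdeal : ℝ) := ⟨_, rfl⟩
  obtain ⟨P₀, hP₀⟩ : ∃ P₀ : ℤ, P₀ = ∑ β ∈ Pos b, pr b c (Sum.inr β) := ⟨_, rfl⟩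
  have hP0 : 0 ≤ P₀ := by rw [hP₀]; exact sum_pr_nonneg hc
  have hn1 : (1 : ℝ) ≤ (Ideal.absNorm 𝔫 : ℝ) := by
    have h1 : 0 < Ideal.absNorm 𝔫 := Nat.pos_of_ne_zero fun e => h0 (Ideal.absNorm_eq_zero_iff.1 e)
    exact_mod_cast h1
  have hq1 : (1 : ℝ) ≤ q₀ := by
    have h1 : 0 < Ideal.absNorm v.asIdeal := Nat.pos_of_ne_zero fun e => v.ne_bot (Ideal.absNorm_eq_zero_iff.1 e)
    rw [hq₀]
    exact_mod_cast h1
  have hqP : 1 ≤ q₀ ^ P₀ := one_le_zpow₀ hq1 hP0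
  have hVs : 0 ≤ ∑ j, Vv j := Finset.sum_nonneg fun j _ => ig_dom hVv j
  obtain ⟨E, hE⟩ : ∃ E : ℝ, E = Real.exp (2 * ∑ j, Vv j) * q₀ ^ P₀ := ⟨_, rfl⟩
  have hE1 : 1 ≤ E := by
    rw [hE]
    exact one_le_mul_of_one_le_of_one_le (Real.one_le_exp (by linarith)) hqP
  have hEe : 1 ≤ E ^ (3 * e) := Real.one_le_rpow hE1 (by linarith)
  have hI0 : 0 ≤ ∫ y, ‖φ y‖ ^ 2 ∂μ := integral_nonneg fun y => sq_nonneg _
  obtain ⟨Y, hY⟩ : ∃ Y : ℝ, Y = (∏ β ∈ Pos b, mixedEmbedding.norm (a β : EE L)) ^ ((Module.finrank K L : ℝ)⁻¹) / (Ideal.absNorm 𝔫 : ℝ) ^ (Pos b).card := ⟨_, rfl⟩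
  have hY0 : 0 ≤ Y := by
    rw [hY]
    exact div_nonneg (Real.rpow_nonneg (Finset.prod_nonneg fun β _ => mixedEmbedding.norm_nonneg _) _) (pow_nonneg (Nat.cast_nonneg _) _)
  obtain ⟨B, hB⟩ : ∃ B : ℝ, B = (|C| * (1 + W)) * E ^ ε * q₀ ^ P₀ * (∫ y, ‖φ y‖ ^ 2 ∂μ) * Y := ⟨_, rfl⟩
  have hB0 : 0 ≤ B := by
    rw [hB]
    have : 0 ≤ E ^ ε := Real.rpow_nonneg (by linarith) _
    have h2 : 0 ≤ q₀ ^ P₀ := by linarith
    positivity
  -- one point
  have hpt : ∀ y ∈ S, ∑ l, ‖c' l * t' l * WhH (HQ Q) ν D' θ (F l) (x * y)‖ ^ 2 ≤ B * Real.exp (2 * ∑ j, η y j) := fun y hy => by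
    obtain ⟨hη, t₁, a₁, ht₁, hn₁, hx₁⟩ := hS y hy
    have e1 : ∀ β : ι, mixedEmbedding.norm (a₁ β : EE L) = mixedEmbedding.norm (a β : EE L) * Real.exp (∑ k : Fin 1, (fun _ => (1 : ℝ)) k * pry b ((fun _ : Fin 1 => (Module.finrank K L : ℝ) • η y) k) (Sum.inr β)) := fun β => by
      rw [hn₁ β]
      simp only [Finset.univ_unique, Finset.sum_singleton, one_mul, pry_smul]
    have hmod := mod_many (b := b) (a := a) (a' := a₁) (e := Module.finrank K L) (d := fun _ : Fin 1 => (1 : ℝ)) (Y := fun _ => (Module.finrank K L : ℝ) • η y) (Z := fun _ => η y) he (fun _ => by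
      rw [Finset.mul_sum]
      rfl) e1
    simp only [Finset.univ_unique, Finset.sum_singleton, one_mul] at hmod
    have key := hC v 𝔫 h0 hv r s c hcQ hc hrs π hπ h hh1 hh2 θ hθ t₁ a₁ ht₁ (x * y) hx₁ (fun k => k.elim0) (fun k => k.elim0) (W * E ^ (3 * e)) (fun y' _ => by
      unfold ExsQ
      rw [hW, ← nsmul_eq_mul]
      refine Finset.sum_le_card_nsmul _ _ _ fun w' hw => ?_
      have hw' : IsCQ Q w' := (Finset.mem_filter.1 hw).2
      have h2 := op_term Q hD0 hI (V := Vv) hVv hcQ hc hn1 hq1 (a := fun k => mixedEmbedding.norm (a k : EE L)) ha (by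
        rw [hq₀]
        exact hdim) he0 he1 hw' (η := η y) hη
      rw [hE, hP₀]
      refine le_trans (le_of_eq ?_) h2
      congr 1
      refine Finset.prod_congr rfl fun k _ => ?_
      beta_reduce
      rw [hn₁ k, ig19b_al, hq₀]
      simp) μ φ cφ sφ ν D hD n F c' t' hF hT hort (fun k => k.elim0) (fun k => k.elim0) (fun k => k.elim0) D' hD' (fun k => k.elim0)
    simp only [Finset.univ_eq_empty, Finset.sum_empty, mul_zero, Real.exp_zero, one_mul] at key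
    refine key.trans ?_
    rw [hmod, ← hq₀, ← hP₀]
    have e2 : ((∏ β ∈ Pos b, mixedEmbedding.norm (a β : EE L)) ^ ((Module.finrank K L : ℝ)⁻¹) * Real.exp (2 * ∑ j, η y j)) / (Ideal.absNorm 𝔫 : ℝ) ^ (Pos b).card = Y * Real.exp (2 * ∑ j, η y j) := by
      rw [hY]
      ring
    rw [e2, hB]
    have h3 : C * (1 + W * E ^ (3 * e)) ≤ |C| * (1 + W) * E ^ ε := by
      have h4 : E ^ (3 * e) ≤ E ^ ε := Real.rpow_le_rpow_of_exponent_le hE1 he2
      have h5 : 1 + W * E ^ (3 * e) ≤ (1 + W) * E ^ ε := by nlinarith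
      have h6 : 0 ≤ 1 + W * E ^ (3 * e) := by positivity
      calc C * (1 + W * E ^ (3 * e)) ≤ |C| * (1 + W * E ^ (3 * e)) := mul_le_mul_of_nonneg_right (le_abs_self C) h6
        _ ≤ |C| * ((1 + W) * E ^ ε) := mul_le_mul_of_nonneg_left h5 (abs_nonneg C)
        _ = _ := by ring
    have h7 : 0 ≤ q₀ ^ P₀ := by linarith
    have h8 : 0 ≤ Real.exp (2 * ∑ j, η y j) := (Real.exp_pos _).le
    calc C * (1 + W * E ^ (3 * e)) * q₀ ^ P₀ * (∫ y, ‖φ y‖ ^ 2 ∂μ) * (Y * Real.exp (2 * ∑ j, η y j)) ≤ |C| * (1 + W) * E ^ ε * q₀ ^ P₀ * (∫ y, ‖φ y‖ ^ 2 ∂μ) * (Y * Real.exp (2 * ∑ j, η y j)) := by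
          exact mul_le_mul_of_nonneg_right (mul_le_mul_of_nonneg_right (mul_le_mul_of_nonneg_right h3 h7) hI0) (mul_nonneg hY0 h8)
      _ = _ := by ring
  -- the operator
  have ci : Countable (HQ Q) := th_count (HQ Q)
  have hdΓ : Dsc (HQ Q) (GamQ (HQ Q) 𝔫 v r s) := dsc_Gam (HQ Q) 𝔫 v r s
  obtain ⟨D₁, hD₁⟩ := hdΓ.sfU
  have hcc0 : CCH (HQ Q) (GamQ (HQ Q) 𝔫 v r s) := by
    have h2 : CCH (HQ Q) (cjG (GamQ (HQ Q) 𝔫 v r s) 1) := qa_cc Q h0 v r s 1
    rw [cjG_one] at h2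
    exact h2
  have hone : ∀ w : HUH (HQ Q), (w : HQ Q) ∈ GamQ (HQ Q) 𝔫 v r s → psT (HQ Q) θ (kUH (HQ Q) w) = 1 := fun w hw =>
    hθ.2 _ ((th2_mem_imU (HQ Q) (GamQ (HQ Q) 𝔫 v r s) _).2 ⟨w, hw, rfl⟩)
  have sB : Real.sqrt B ^ 2 = B := Real.sq_sqrt hB0
  have main := op_TH (HQ Q) hcc0 hone (ν := ν) hD₁ hD' (τ := τ) cS tS iw (F := fun l z => (c' l * t' l) * F l z) (fun l => continuous_const.mul (hF l).cont) (fun l γ hγ z => by
      beta_reduce
      rw [(hF l).inv γ hγ]) (G := fun l z => (c' l * t' l) * G l z) (fun l z => by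
      rw [← hG l z, ← integral_const_mul]
      refine integral_congr_ae (Filter.Eventually.of_forall fun y => ?_)
      beta_reduce
      ring) (β := fun y => Real.sqrt B * Real.exp (∑ j, η y j)) (fun y => mul_nonneg (Real.sqrt_nonneg _) (Real.exp_pos _).le) (by
      simp only [mul_assoc]
      exact iη.const_mul _) (x := x) (fun y hy => by
      simp only [fv_scale]
      rw [mul_pow, sB, ← Real.exp_nat_mul]
      refine (hpt y hy).trans (le_of_eq ?_)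
      push_cast
      rfl)
  simp only [fv_scale, mul_assoc, integral_const_mul] at main
  rw [mul_pow, sB] at main
  refine le_trans (le_of_eq ?_) (main.trans (le_of_eq ?_))
  · refine Finset.sum_congr rfl fun l _ => ?_
    rw [mul_assoc]
    rfl
  · rw [hB, hE, hY, ← hq₀, ← hP₀]
    ring

/-- **Split groups.** -/
theorem statementOQ_split (Q : QS b K L) [IsGalois K L] (h1 : Module.finrank K L = 1) {D₀ : ℝ} (hD0 : 0 < D₀) {nu : Equiv.Perm ι → ℝ} (hI : IneqR b D₀ nu) (hC : CountH b L nu) : StatementOQ Q D₀ :=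
  statementOQ_of Q hD0 (statementVQ_one Q h1 (statementVF_of Q (statementMF_of Q h1 (fun w hw => (hI w hw).1) hC (heightsH b L)) (oppH b))) (ineqQ_one Q hI)

/-- **Quasi-split groups.** -/
theorem statementOQ_quasi (Q : QS b K L) [IsGalois K L] {D₀ : ℝ} (hD0 : 0 < D₀) {nu : Equiv.Perm ι → ℝ} (hI : IneqQ Q D₀ nu) (hC : CountQ Q nu) : StatementOQ Q D₀ :=
  statementOQ_of Q hD0 (statementVQ_of Q (statementMQ_of Q (fun w hw => (hI w hw).1) hC (heightsH b L)) (oppH b)) hI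

end

end Pool.Agent.Lib.L8.QF
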