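import Pool.Agent.Lib.L8.QF.M2
import Pool.Agent.Lib.L8.QF.M5
import Pool.Agent.Lib.L8.FL.M2
import Pool.Agent.Lib.L8.FL.M6
import Pool.Agent.Lib.L8.FL.M2H

/-!
# QF, file M6 (helper67): the density theorem from the count, split and quasi-split groups
-/

namespace Pool.Agent.Lib.L8.QF

open MeasureTheory Matrix NumberField NumberField.InfinitePlace IsDedekindDomain Pool.Agent.Lib.H89N Pool.Agent.Lib.H33W Pool.Agent.Lib.H67G Pool.Agent.Lib.L1S Pool.Agent.Lib.L8.FL
open Pool.Agent.Lib.L8.FU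
open scoped ENNReal Pointwise

noncomputable section

set_option linter.unusedSectionVars false
set_option linter.unusedVariables false

variable {ι M N : Type} [Fintype ι] [DecidableEq ι] [AddCommGroup M] [Module ℚ M] [AddCommGroup N] [Module ℚ N]
  {P : RootPairing ι ℚ M N} [P.IsCrystallographic] [P.IsReduced] [P.IsIrreducible] [P.IsRootSystem]
  {b : P.Base} {K L : Type} [Field K] [NumberField K] [Field L] [NumberField L] [Algebra K L]

/-- For `[L : K] = 1` the two forms of the density theorem agree. -/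
theorem statementDQ_one {Q : QS b K L} (h1 : Module.finrank K L = 1) {D₀ : ℝ} (h : StatementDR Q D₀) : StatementDQ Q D₀ := by
  intro p Fv _ V Λ hΛ ε hε T Ω K₀ hΩ hK₀
  obtain ⟨C, hC⟩ := h p Fv V Λ hΛ ε hε T Ω K₀ hΩ hK₀
  refine ⟨C, ?_⟩
  intro v 𝔫 h0 hv r s c hcQ hc hrs π hπ h hh1 hh2 θ hθ t a ht x hx R hR ha
  rw [h1] at ha
  simp only [pow_one] at ha
  exact hC v 𝔫 h0 hv r s c hcQ hc hrs π hπ h hh1 hh2 θ hθ t a ht x hx R hR ha

/-- **Split groups.** -/
theorem statementDQ_split (Q : QS b K L) [IsGalois K L] (h1 : Module.finrank K L = 1) {D₀ : ℝ} (hD0 : 0 < D₀) {nu : Equiv.Perm ι → ℝ} (hI : IneqR b D₀ nu) (hC : CountH b L nu) : StatementDQ Q D₀ :=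
  statementDQ_one h1 (statementDR_of Q h1 hD0 (statementVF_of Q (statementMF_of Q h1 (fun w hw => (hI w hw).1) hC (heightsH b L)) (oppH b)) hI)

/-- **Quasi-split groups.** -/
theorem statementDQ_quasi (Q : QS b K L) [IsGalois K L] {D₀ : ℝ} (hD0 : 0 < D₀) {nu : Equiv.Perm ι → ℝ} (hI : IneqQ Q D₀ nu) (hC : CountQ Q nu) : StatementDQ Q D₀ :=
  statementDQ_of Q hD0 (statementVQ_of Q (statementMQ_of Q (fun w hw => (hI w hw).1) hC (heightsH b L)) (oppH b)) hI

end

end Pool.Agent.Lib.L8.QF
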