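import Pool.Agent.Lib.L8.IG12
import Pool.Agent.Lib.L1S.L125

/-!
# QF, module C5Q, A2A (design helper33): the relations of type `A₂` and of type `A₁ × A₁` in `GL (I b) A`

`A` a field of characteristic zero (`L` or `ℂ`). `n_i = mG b i 1`, `x_i(t) = xG b i t`, `y_i(t) = xG b (ng P i) t`, `xt i j t = n_i⁻¹ x_j(t) n_i` (a root element of the root `α_i + α_j` if `i, j` are adjacent).
-/

namespace Pool.Agent.Lib.L8.QF

open Matrix Pool.Agent.Lib.L1S Pool.Agent.Lib.L8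

noncomputable section

set_option linter.unusedSectionVars false
set_option linter.unusedVariables false

variable {ι M N : Type} [Fintype ι] [DecidableEq ι] [AddCommGroup M] [Module ℚ M] [AddCommGroup N] [Module ℚ N]
  {P : RootPairing ι ℚ M N} [P.IsCrystallographic] [P.IsReduced] [P.IsIrreducible] [P.IsRootSystem] {b : P.Base}

variable {A : Type} [Field A] [CharZero A]

/-! ## 0. Auxiliary lemmas -/

theorem a2a_vx (i : b.support) (t : A) : (xG b (i : ι) t).1 = ex (eZ b i) t := by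
  show ex (E b (i : ι)) t = _
  rw [E_simple]

theorem a2a_vy (i : b.support) (t : A) : (xG b (ng P i) t).1 = ex (fZ b i) t := by
  show ex (E b (ng P i)) t = _
  rw [E_neg_simple]

section

attribute [local instance 100] LieRing.ofAssociativeRing

theorem a2a_lie {X Y : Matrix (I b) (I b) ℤ} (hX : toA ℚ X ∈ gg b) (hY : toA ℚ Y ∈ gg b) : toA ℚ (X * Y - Y * X) ∈ gg b := by
  have h := (gg b).lie_mem hX hY
  rw [Ring.lie_def] at h
  rw [toA_sub, toA_mul, toA_mul]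
  exact h

theorem a2a_zero {X : Matrix (I b) (I b) ℤ} (hg : toA ℚ X ∈ gg b) {μ : M} (hμ : μ ≠ 0) (hw : HasWt b μ X) (hn : ∀ β, P.root β ≠ μ) : X = 0 := by
  by_contra h
  have h0 : toA ℚ X ≠ 0 := by
    intro h1
    apply h
    refine toA_inj (A := ℚ) ?_
    rw [h1]
    ext r c
    simp [toA]
  obtain ⟨β, hβ⟩ := gg_root hg h0 hμ hw.toA
  exact hn β hβ

/-- `[e_i, f_j] = 0` for `i ≠ j`. -/
theorem a2a_ef {i j : b.support} (h : i ≠ j) : eZ b i * fZ b j = fZ b j * eZ b i := by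
  apply toA_inj (A := ℚ)
  have h1 := RootPairing.GeckConstruction.lie_e_f_ne (R := ℚ) (b := b) h
  rw [Ring.lie_def] at h1
  rw [toA_mul, toA_mul, toA_eZ, toA_fZ]
  exact sub_eq_zero.1 h1

theorem a2a_he (i j : b.support) : hZ b i * eZ b j - eZ b j * hZ b i = b.cartanMatrix j i • eZ b j := by
  apply toA_inj (A := ℚ)
  have h := RootPairing.GeckConstruction.lie_h_e (R := ℚ) (b := b) j i
  rw [Ring.lie_def] at h
  rw [toA_sub, toA_mul, toA_mul, toA_zsmul, toA_eZ, toA_hZ, h]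

theorem a2a_hf (i j : b.support) : hZ b i * fZ b j - fZ b j * hZ b i = -b.cartanMatrix j i • fZ b j := by
  apply toA_inj (A := ℚ)
  have h := RootPairing.GeckConstruction.lie_h_f (R := ℚ) (b := b) j i
  rw [Ring.lie_def] at h
  rw [toA_sub, toA_mul, toA_mul, toA_zsmul, toA_fZ, toA_hZ, h]

end

theorem a2a_pair (i j : b.support) : P.pairing (i : ι) (j : ι) = (b.cartanMatrix i j : ℚ) := by
  rw [← P.algebraMap_pairingIn ℤ, RootPairing.Base.cartanMatrix, RootPairing.Base.cartanMatrixIn_def]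
  simp

theorem a2a_refl (i j : b.support) : P.reflection (j : ι) (P.root (i : ι)) = P.root (i : ι) - (b.cartanMatrix i j : ℚ) • P.root (j : ι) := by
  rw [P.reflection_apply_root, a2a_pair]

theorem a2a_not (i j : b.support) (β : ι) : P.root β ≠ P.root (i : ι) - P.root (j : ι) := fun h => b.sub_notMem_range_root i.2 j.2 ⟨β, h⟩

theorem a2a_co (i j : b.support) : P.coroot' (j : ι) (P.root (i : ι)) = (b.cartanMatrix i j : ℚ) := by
  rw [RootPairing.root_coroot'_eq_pairing, a2a_pair]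

/-- `[e_i, e_j] = 0` for `a_ij = 0`. -/
theorem a2a_ee {i j : b.support} (h : b.cartanMatrix i j = 0) : eZ b i * eZ b j = eZ b j * eZ b i := by
  rw [← sub_eq_zero]
  refine a2a_zero (a2a_lie (eZ_mem i) (eZ_mem j)) (μ := P.root (i : ι) + P.root (j : ι)) ?_ ((hasWt_eZ i).lie (hasWt_eZ j)) ?_
  · intro h0
    have h1 := congrArg (P.coroot' (j : ι)) h0
    rw [map_add, map_zero, a2a_co, a2a_co, h, b.cartanMatrix_apply_same] at h1
    norm_num at h1
  · intro β hβ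
    have h1 : P.root (P.reflectionPerm (j : ι) β) = P.root (i : ι) - P.root (j : ι) := by
      rw [P.root_reflectionPerm, hβ, map_add, a2a_refl, a2a_refl, h, b.cartanMatrix_apply_same]
      push_cast
      module
    exact a2a_not i j _ h1

theorem a2a_ff {i j : b.support} (h : b.cartanMatrix i j = 0) : fZ b i * fZ b j = fZ b j * fZ b i := by
  have h1 : ∀ k l : b.support, fZ b k * fZ b l = oZ b * (eZ b k * eZ b l) * oZ b := by
    intro k l
    rw [oZ_eZ, oZ_eZ]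
    calc oZ b * eZ b k * oZ b * (oZ b * eZ b l * oZ b) = oZ b * eZ b k * (oZ b * oZ b) * eZ b l * oZ b := by simp only [mul_assoc]
      _ = _ := by
        rw [oZ_mul, mul_one]
        simp only [mul_assoc]
  rw [h1, h1, a2a_ee h]

theorem a2a_comm {X Y : Matrix (I b) (I b) ℤ} (hX : DP X) (hY : DP Y) (h : X * Y = Y * X) (s t : A) : ex X s * ex Y t = ex Y t * ex X s := by
  have h1 : toA A X * toA A Y = toA A Y * toA A X := by
    rw [← toA_mul, h, toA_mul]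
  have h3 := hX.ex_comm3 (A := A) (Y := toA A Y) (Z := 0) (W := 0) (by rw [h1, sub_self]) (by rw [mul_zero, zero_mul, sub_self, smul_zero]) (by rw [mul_zero, zero_mul]) s
  rw [smul_zero, smul_zero, add_zero, add_zero] at h3
  have h2 : ex X s * toA A Y = ((1 : A) • toA A Y) * ex X s := by
    rw [one_smul]
    exact h3
  have h4 := hY.conj hY (ex X s) 1 t h2
  rw [one_mul] at h4
  exact h4

/-! ## 1. Orthogonal simple roots -/

/-- PROOF: `[e_i, e_j] = 0` for `a_ij = 0` (the weight `α_i + α_j` is not a root and not zero; or the Serre relation; `L1S/L10x`: the commutator has weight `α_i + α_j`, `HasWt`), so `toA e_i` and `toA e_j` commute and so do `ex (eZ b i) s`, `ex (eZ b j) t` (sums of powers). -/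
theorem a1_xx {i j : b.support} (h : b.cartanMatrix i j = 0) (s t : A) : xG b (i : ι) s * xG b (j : ι) t = xG b (j : ι) t * xG b (i : ι) s := by
  refine Units.ext ?_
  have e1 : (xG b (i : ι) s * xG b (j : ι) t).1 = (xG b (i : ι) s).1 * (xG b (j : ι) t).1 := rfl
  have e2 : (xG b (j : ι) t * xG b (i : ι) s).1 = (xG b (j : ι) t).1 * (xG b (i : ι) s).1 := rfl
  rw [e1, e2, a2a_vx, a2a_vx]
  exact a2a_comm (DP_eZ i) (DP_eZ j) (a2a_ee h) s t

/-- PROOF: `[e_i, f_j] = 0` for `i ≠ j` (any `i ≠ j`, `L1S`: eZ_fZ for i ≠ j). -/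
theorem a1_xy {i j : b.support} (h : i ≠ j) (s t : A) : xG b (i : ι) s * xG b (ng P j) t = xG b (ng P j) t * xG b (i : ι) s := by
  refine Units.ext ?_
  have e1 : (xG b (i : ι) s * xG b (ng P j) t).1 = (xG b (i : ι) s).1 * (xG b (ng P j) t).1 := rfl
  have e2 : (xG b (ng P j) t * xG b (i : ι) s).1 = (xG b (ng P j) t).1 * (xG b (i : ι) s).1 := rfl
  rw [e1, e2, a2a_vx, a2a_vy]
  exact a2a_comm (DP_eZ i) (DP_fZ j) (a2a_ef h) s t

theorem a1_yy {i j : b.support} (h : b.cartanMatrix i j = 0) (s t : A) : xG b (ng P i) s * xG b (ng P j) t = xG b (ng P j) t * xG b (ng P i) s := by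
  refine Units.ext ?_
  have e1 : (xG b (ng P i) s * xG b (ng P j) t).1 = (xG b (ng P i) s).1 * (xG b (ng P j) t).1 := rfl
  have e2 : (xG b (ng P j) t * xG b (ng P i) s).1 = (xG b (ng P j) t).1 * (xG b (ng P i) s).1 := rfl
  rw [e1, e2, a2a_vy, a2a_vy]
  exact a2a_comm (DP_fZ i) (DP_fZ j) (a2a_ff h) s t

theorem a1_nx {i j : b.support} (h : b.cartanMatrix i j = 0) (hij : i ≠ j) (t : A) : mG b i (1 : Aˣ) * xG b (j : ι) t = xG b (j : ι) t * mG b i (1 : Aˣ) := by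
  unfold mG
  rw [mul_assoc, a1_xx h, ← mul_assoc, mul_assoc (xG b (i : ι) _) (xG b (ng P i) _) (xG b (j : ι) t), ← a1_xy (Ne.symm hij), ← mul_assoc, a1_xx h, mul_assoc, mul_assoc, mul_assoc]

theorem a1_nn {i j : b.support} (h : b.cartanMatrix i j = 0) (hij : i ≠ j) : mG b i (1 : Aˣ) * mG b j (1 : Aˣ) = mG b j (1 : Aˣ) * mG b i (1 : Aˣ) := by
  have h1 : ∀ t : A, mG b i (1 : Aˣ) * xG b (ng P j) t = xG b (ng P j) t * mG b i (1 : Aˣ) := by
    intro t
    unfold mG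
    rw [mul_assoc, a1_xy hij, ← mul_assoc, mul_assoc (xG b (i : ι) _) (xG b (ng P i) _) (xG b (ng P j) t), a1_yy h, ← mul_assoc, a1_xy hij, mul_assoc, mul_assoc, mul_assoc]
  have h2 := a1_nx (A := A) h hij
  conv_lhs => rw [mG.eq_def b j]
  conv_rhs => rw [mG.eq_def b j]
  rw [← mul_assoc, ← mul_assoc, h2, mul_assoc (xG b (j : ι) _) (mG b i 1), h1, mul_assoc, mul_assoc (xG b (ng P j) _), h2]
  simp only [mul_assoc]

/-! ## 2. Adjacent simple roots of the same length -/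

/-- `i` and `j` are adjacent, of type `A₂`. -/
def Adj (b : P.Base) (i j : b.support) : Prop := b.cartanMatrix i j = -1 ∧ b.cartanMatrix j i = -1

theorem Adj.symm {i j : b.support} (h : Adj b i j) : Adj b j i := ⟨h.2, h.1⟩

theorem Adj.ne {i j : b.support} (h : Adj b i j) : i ≠ j := by
  rintro rfl
  have h1 := h.1
  rw [b.cartanMatrix_apply_same] at h1
  omega

/-- The root element `n_i⁻¹ x_j(t) n_i` of the root `α_i + α_j`. -/
def xT (b : P.Base) (i j : b.support) (t : A) : GL (I b) A := (mG b i (1 : Aˣ))⁻¹ * xG b (j : ι) t * mG b i (1 : Aˣ)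

theorem xT_add (i j : b.support) (s t : A) : xT b i j (s + t) = xT b i j s * xT b i j t := by
  unfold xT
  rw [xG_add]
  group

theorem xT_zero (i j : b.support) : xT b i j (0 : A) = 1 := by
  unfold xT
  rw [xG_zero]
  group

theorem xT_neg (i j : b.support) (t : A) : xT b i j (-t) = (xT b i j t)⁻¹ := by
  have h := xT_add (b := b) i j (-t) t
  rw [neg_add_cancel, xT_zero] at h
  exact eq_inv_of_mul_eq_one_left h.symm

/-- The commutator `[e_i, e_j]` over `ℤ`. -/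
def a2a_c (b : P.Base) (i j : b.support) : Matrix (I b) (I b) ℤ := eZ b i * eZ b j - eZ b j * eZ b i

theorem a2a_cC (i j : b.support) : -a2a_c b i j = a2a_c b j i := by
  unfold a2a_c
  rw [neg_sub]

theorem a2a_sZ {i j : b.support} (h : Adj b i j) : a2a_c b i j * eZ b i = eZ b i * a2a_c b i j := by
  symm
  rw [← sub_eq_zero]
  refine a2a_zero (a2a_lie (eZ_mem i) (a2a_lie (eZ_mem i) (eZ_mem j))) (μ := P.root (i : ι) + (P.root (i : ι) + P.root (j : ι))) ?_ ((hasWt_eZ i).lie ((hasWt_eZ i).lie (hasWt_eZ j))) ?_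
  · intro h0
    have h1 := congrArg (P.coroot' (i : ι)) h0
    rw [map_add, map_add, map_zero, a2a_co, a2a_co, h.2, b.cartanMatrix_apply_same] at h1
    norm_num at h1
  · intro β hβ
    have h1 : P.root (P.reflectionPerm (i : ι) β) = P.root (j : ι) - P.root (i : ι) := by
      rw [P.root_reflectionPerm, hβ, map_add, map_add, a2a_refl, a2a_refl, h.2, b.cartanMatrix_apply_same]
      push_cast
      module
    exact a2a_not j i _ h1

/-! The relations over `A`. -/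

theorem a2a_eC {i j : b.support} (h : Adj b i j) : toA A (eZ b i) * toA A (eZ b j) - toA A (eZ b j) * toA A (eZ b i) = toA A (eZ b i) * toA A (eZ b j) - toA A (eZ b j) * toA A (eZ b i) := rfl

theorem a2a_serre {i j : b.support} (h : Adj b i j) : toA A (eZ b i) * (toA A (eZ b i) * toA A (eZ b j) - toA A (eZ b j) * toA A (eZ b i)) - (toA A (eZ b i) * toA A (eZ b j) - toA A (eZ b j) * toA A (eZ b i)) * toA A (eZ b i) = 0 := by
  have h1 := a2a_sZ h
  unfold a2a_c at h1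
  rw [← toA_mul, ← toA_mul, ← toA_sub, ← toA_mul, ← toA_mul, h1, sub_self]

theorem a2a_fe {i j : b.support} (h : i ≠ j) : toA A (fZ b i) * toA A (eZ b j) - toA A (eZ b j) * toA A (fZ b i) = 0 := by
  rw [← toA_mul, ← toA_mul, a2a_ef h.symm, sub_self]

theorem a2a_gen {R : Type} [Ring R] {e f h g : R} (h1 : e * f - f * e = h) (h2 : f * g - g * f = 0) (h3 : h * g - g * h = -g) : f * (e * g - g * e) - (e * g - g * e) * f = g := by
  have e1 : f * (e * g - g * e) - (e * g - g * e) * f = -((e * f - f * e) * g - g * (e * f - f * e)) + (e * (f * g - g * f) - (f * g - g * f) * e) := by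
    noncomm_ring
  rw [e1, h1, h2, h3, mul_zero, zero_mul, sub_zero, neg_neg, add_zero]

theorem a2a_fC {i j : b.support} (h : Adj b i j) : toA A (fZ b i) * (toA A (eZ b i) * toA A (eZ b j) - toA A (eZ b j) * toA A (eZ b i)) - (toA A (eZ b i) * toA A (eZ b j) - toA A (eZ b j) * toA A (eZ b i)) * toA A (fZ b i) = toA A (eZ b j) := by
  refine a2a_gen (h := toA A (hZ b i)) ?_ (a2a_fe h.ne) ?_
  · rw [← toA_mul, ← toA_mul, ← toA_sub, eZ_fZ]
  · rw [← toA_mul, ← toA_mul, ← toA_sub, a2a_he, h.2, toA_zsmul, neg_smul, one_smul]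

/-- `n_i G = C n_i`, `n_i⁻¹ G = -C n_i⁻¹` for `[e_i, G] = C`, `[e_i, C] = 0`, `[f_i, G] = 0`, `[f_i, C] = G`. -/
theorem a2a_me (i : b.support) {G C : Matrix (I b) (I b) A} (h1 : toA A (eZ b i) * G - G * toA A (eZ b i) = C) (h2 : toA A (eZ b i) * C - C * toA A (eZ b i) = 0)
    (h3 : toA A (fZ b i) * G - G * toA A (fZ b i) = 0) (h4 : toA A (fZ b i) * C - C * toA A (fZ b i) = G) :
    mm b i (1 : Aˣ) * G = C * mm b i (1 : Aˣ) ∧ mm' b i (1 : Aˣ) * G = -C * mm' b i (1 : Aˣ) := by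
  have k1 : ∀ t : A, ex (eZ b i) t * G = (G + t • C) * ex (eZ b i) t := by
    intro t
    have h := (DP_eZ i).ex_comm3 (A := A) (Y := G) (Z := C) (W := 0) h1 (by rw [h2, smul_zero]) (by rw [mul_zero, zero_mul]) t
    rwa [smul_zero, add_zero] at h
  have k2 : ∀ t : A, ex (eZ b i) t * C = C * ex (eZ b i) t := by
    intro t
    have h := (DP_eZ i).ex_comm3 (A := A) (Y := C) (Z := 0) (W := 0) h2 (by rw [mul_zero, zero_mul, sub_self, smul_zero]) (by rw [mul_zero, zero_mul]) t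
    rwa [smul_zero, smul_zero, add_zero, add_zero] at h
  have k3 : ∀ t : A, ex (fZ b i) t * G = G * ex (fZ b i) t := by
    intro t
    have h := (DP_fZ i).ex_comm3 (A := A) (Y := G) (Z := 0) (W := 0) h3 (by rw [mul_zero, zero_mul, sub_self, smul_zero]) (by rw [mul_zero, zero_mul]) t
    rwa [smul_zero, smul_zero, add_zero, add_zero] at h
  have k4 : ∀ t : A, ex (fZ b i) t * C = (C + t • G) * ex (fZ b i) t := by
    intro t
    have h := (DP_fZ i).ex_comm3 (A := A) (Y := C) (Z := G) (W := 0) h4 (by rw [h3, smul_zero]) (by rw [mul_zero, zero_mul]) t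
    rwa [smul_zero, add_zero] at h
  constructor
  · unfold mm
    rw [inv_one, Units.val_one]
    calc ex (eZ b i) (1 : A) * ex (fZ b i) (-1 : A) * ex (eZ b i) (1 : A) * G = ex (eZ b i) (1 : A) * (ex (fZ b i) (-1 : A) * (ex (eZ b i) (1 : A) * G)) := by simp only [mul_assoc]
      _ = ex (eZ b i) (1 : A) * (ex (fZ b i) (-1 : A) * G + ex (fZ b i) (-1 : A) * C) * ex (eZ b i) (1 : A) := by
        rw [k1, one_smul]
        noncomm_ring
      _ = ex (eZ b i) (1 : A) * (C * ex (fZ b i) (-1 : A)) * ex (eZ b i) (1 : A) := by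
        rw [k3, k4, neg_smul, one_smul, add_mul, neg_mul, add_neg_cancel_comm_assoc]
      _ = C * (ex (eZ b i) (1 : A) * ex (fZ b i) (-1 : A) * ex (eZ b i) (1 : A)) := by
        rw [← mul_assoc, k2]
        simp only [mul_assoc]
  · unfold mm'
    rw [inv_one, Units.val_one]
    calc ex (eZ b i) (-1 : A) * ex (fZ b i) (1 : A) * ex (eZ b i) (-1 : A) * G = ex (eZ b i) (-1 : A) * (ex (fZ b i) (1 : A) * (ex (eZ b i) (-1 : A) * G)) := by simp only [mul_assoc]
      _ = ex (eZ b i) (-1 : A) * (ex (fZ b i) (1 : A) * G - ex (fZ b i) (1 : A) * C) * ex (eZ b i) (-1 : A) := by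
        rw [k1, neg_smul, one_smul]
        noncomm_ring
      _ = ex (eZ b i) (-1 : A) * (-C * ex (fZ b i) (1 : A)) * ex (eZ b i) (-1 : A) := by
        rw [k3, k4, one_smul, add_mul, sub_add_cancel_right, neg_mul]
      _ = -C * (ex (eZ b i) (-1 : A) * ex (fZ b i) (1 : A) * ex (eZ b i) (-1 : A)) := by
        rw [← mul_assoc, mul_neg, k2, neg_mul, neg_mul, neg_mul]
        simp only [mul_assoc]

/-- **The matrix identity**: `n_i e_j n_i⁻¹ = C`, `n_i⁻¹ e_j n_i = -C`, `C = [e_i, e_j]`. PROOF: `[f_i, e_j] = 0`, `[e_i, [e_i, e_j]] = 0` (Serre, `1 - a_ij = 2`; or weights: `2 α_i + α_j` is not a root), `[h_i, e_j] = a_ij e_j = - e_j` so `[f_i, C] = e_j` (up to the sign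
conventions of `hZ`; check the convention `a_ij` versus `a_ji`, both are `-1`). `ex(e_i)(1)` conjugates `e_j` to `e_j + C` (`DP.ex_comm3` with `Z = C`, `W = 0`), `ex(f_i)(-1)` conjugates `e_j` to `e_j`, `C` to `C - e_j`, so `n_i e_j n_i⁻¹ = ex(e_i)(1) (ex(f_i)(-1) (e_j + C) ex(f_i)(1)) ex(e_i)(-1) = ex(e_i)(1) C ex(e_i)(-1) = C`.
The same with `-1` for `n_i⁻¹`. (Over `ℤ` from `ℚ` by injectivity, or only over `A`.) -/
theorem a2_C {i j : b.support} (h : Adj b i j) : toA A (nZ b i) * toA A (eZ b j) * toA A (nZ' b i) = toA A (eZ b i) * toA A (eZ b j) - toA A (eZ b j) * toA A (eZ b i) ∧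
    toA A (nZ' b i) * toA A (eZ b j) * toA A (nZ b i) = -(toA A (eZ b i) * toA A (eZ b j) - toA A (eZ b j) * toA A (eZ b i)) := by
  rw [toA_nZ, toA_nZ']
  have h1 := a2a_me (A := A) i (a2a_eC h) (a2a_serre h) (a2a_fe h.ne) (a2a_fC h)
  constructor
  · rw [h1.1, mul_assoc, mm_mul, mul_one]
  · rw [h1.2, mul_assoc, mm_mul', mul_one]

/-- `a2_C` over `ℤ`. -/
theorem a2a_nc {i j : b.support} (h : Adj b i j) : nZ b i * eZ b j * nZ' b i = a2a_c b i j ∧ nZ' b i * eZ b j * nZ b i = -a2a_c b i j := by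
  have h1 := a2_C (A := ℚ) h
  have h2 : toA ℚ (-a2a_c b i j) = -toA ℚ (a2a_c b i j) := by
    ext r c
    simp [toA]
  constructor
  · apply toA_inj (A := ℚ)
    rw [toA_mul, toA_mul, h1.1, a2a_c, toA_sub, toA_mul, toA_mul]
  · apply toA_inj (A := ℚ)
    rw [toA_mul, toA_mul, h1.2, h2, a2a_c, toA_sub, toA_mul, toA_mul]

theorem a2a_DP {i j : b.support} (h : Adj b i j) : DP (-a2a_c b i j) := by
  rw [← (a2a_nc h).2]
  exact DP.conjW (nZ_mul b i) (nZ_mul' b i) (DP_eZ j)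

theorem a2a_xT {i j : b.support} (h : Adj b i j) (t : A) : (xT b i j t).1 = ex (-a2a_c b i j) t := by
  have e1 : (xT b i j t).1 = (mG b i (1 : Aˣ))⁻¹.1 * (xG b (j : ι) t).1 * (mG b i (1 : Aˣ)).1 := rfl
  rw [e1, mG_one, mG_one_inv, a2a_vx, ← (a2a_nc h).2, DP.ex_conjW (nZ_mul b i) (nZ_mul' b i) (DP_eZ j)]

theorem a2a_pow {R : Type} [Ring R] {g g' : R} (h : g' * g = 1) (h' : g * g' = 1) (X : R) (k : ℕ) : (g * X * g') ^ k = g * X ^ k * g' := by
  induction k with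
  | zero => rw [pow_zero, pow_zero, mul_one, h']
  | succ k ih =>
    rw [pow_succ, ih, pow_succ]
    calc g * X ^ k * g' * (g * X * g') = g * X ^ k * (g' * g) * X * g' := by simp only [mul_assoc]
      _ = g * (X ^ k * X) * g' := by
        rw [h, mul_one]
        simp only [mul_assoc]

theorem a2a_nil {X : Matrix (I b) (I b) ℤ} (hX : DP X) (t : A) : (t • toA A X) ^ 4 = 0 := by
  rw [smul_pow, ← toA_pow, hX.pow4]
  ext r c
  simp [toA]

theorem a2a_exp {i j : b.support} (h : Adj b i j) (a c : A) : ex (eZ b i) a * ex (eZ b j) c = ex (eZ b j) c * ex (-a2a_c b i j) (-(a * c)) * ex (eZ b i) a := by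
  have hneg : toA A (-a2a_c b i j) = -toA A (a2a_c b i j) := by
    ext r c
    simp [toA]
  have hC : toA A (a2a_c b i j) = toA A (eZ b i) * toA A (eZ b j) - toA A (eZ b j) * toA A (eZ b i) := by
    rw [a2a_c, toA_sub, toA_mul, toA_mul]
  have g1 : ex (eZ b i) (-a) * ex (eZ b i) a = 1 := (DP_eZ i).ex_neg_mul a
  have g2 : ex (eZ b i) a * ex (eZ b i) (-a) = 1 := (DP_eZ i).ex_mul_neg a
  have k1 : ex (eZ b i) a * toA A (eZ b j) = (toA A (eZ b j) + a • toA A (a2a_c b i j)) * ex (eZ b i) a := by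
    have h0 := (DP_eZ i).ex_comm3 (A := A) (Y := toA A (eZ b j)) (Z := toA A (a2a_c b i j)) (W := 0) hC.symm (by rw [hC, a2a_serre h, smul_zero]) (by rw [mul_zero, zero_mul]) a
    rwa [smul_zero, add_zero] at h0
  have k2 : ex (eZ b i) a * (c • toA A (eZ b j)) * ex (eZ b i) (-a) = c • toA A (eZ b j) + (-(a * c)) • toA A (-a2a_c b i j) := by
    rw [mul_smul_comm, k1, smul_mul_assoc, mul_assoc, g2, mul_one, hneg, smul_add, smul_smul, smul_neg, neg_smul, neg_neg, mul_comm c a]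
  have hcomm : Commute (c • toA A (eZ b j)) ((-(a * c)) • toA A (-a2a_c b i j)) := by
    refine Commute.smul_left (Commute.smul_right ?_ _) _
    show toA A (eZ b j) * toA A (-a2a_c b i j) = toA A (-a2a_c b i j) * toA A (eZ b j)
    rw [a2a_cC, ← toA_mul, ← toA_mul, a2a_sZ h.symm]
  have h5 := IsNilpotent.exp_add_of_commute hcomm ⟨4, a2a_nil (DP_eZ j) c⟩ ⟨4, a2a_nil (a2a_DP h) (-(a * c))⟩
  rw [← k2, ← (DP_eZ j).ex_eq_exp, ← (a2a_DP h).ex_eq_exp] at h5
  have h6 : IsNilpotent.exp (ex (eZ b i) a * (c • toA A (eZ b j)) * ex (eZ b i) (-a)) = ex (eZ b i) a * ex (eZ b j) c * ex (eZ b i) (-a) := by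
    have h7 := a2a_nil (b := b) (A := A) (DP_eZ j) c
    have h8 : (ex (eZ b i) a * (c • toA A (eZ b j)) * ex (eZ b i) (-a)) ^ 4 = 0 := by
      rw [a2a_pow g1 g2, h7, mul_zero, zero_mul]
    rw [IsNilpotent.exp_eq_sum h8, (DP_eZ j).ex_eq_exp, IsNilpotent.exp_eq_sum h7, Finset.mul_sum, Finset.sum_mul]
    refine Finset.sum_congr rfl fun k _ => ?_
    rw [a2a_pow g1 g2, mul_smul_comm, smul_mul_assoc]
  rw [h6] at h5
  rw [← h5, mul_assoc, mul_assoc, g1, mul_one]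

/-- PROOF: both sides are `ex` of `± [e_i, e_j]`: `a2_C` for `(i, j)` and `(j, i)`; `DP.ex_conjW`, `DP.ex_smul`. -/
theorem a2_symm {i j : b.support} (h : Adj b i j) (t : A) : xT b j i t = xT b i j (-t) := by
  refine Units.ext ?_
  rw [a2a_xT h.symm, a2a_xT h]
  have e2 := DP.ex_smul (A := A) (ε := -1) (Or.inr rfl) (a2a_DP h) t
  have e3 : ((-1 : ℤ) • (-a2a_c b i j)) = -a2a_c b j i := by
    rw [neg_smul, one_smul, a2a_cC i j]
  rw [e3] at e2
  rw [e2]
  congr 1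
  push_cast
  ring

/-- **The commutator formula.** PROOF: `toA` of everything: `ex(e_i)(a) e_j ex(e_i)(-a) = e_j + a C` (`DP.ex_comm3`), `C` commutes with `e_i` and `e_j`, so `ex(e_i)(a) ex(e_j)(c) ex(e_i)(-a) = exp(c e_j + a c C) = ex(e_j)(c) exp(a c C)` (`IsNilpotent.exp` and
`IsNilpotent.exp_add_of_commute`, or `DP.ex_add`-like sums of powers: `e_j³ = 0`...), and `exp(a c C) = xT i j (-(a c))` (`a2_C`). -/
theorem a2_comm {i j : b.support} (h : Adj b i j) (a c : A) : xG b (i : ι) a * xG b (j : ι) c = xG b (j : ι) c * xT b i j (-(a * c)) * xG b (i : ι) a := by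
  refine Units.ext ?_
  have e1 : (xG b (i : ι) a * xG b (j : ι) c).1 = (xG b (i : ι) a).1 * (xG b (j : ι) c).1 := rfl
  have e2 : (xG b (j : ι) c * xT b i j (-(a * c)) * xG b (i : ι) a).1 = (xG b (j : ι) c).1 * (xT b i j (-(a * c))).1 * (xG b (i : ι) a).1 := rfl
  rw [e1, e2, a2a_vx, a2a_vx, a2a_xT h]
  exact a2a_exp h a c

/-- `xT i j` is central in `U_{i, j}`. -/
theorem a2_ci {i j : b.support} (h : Adj b i j) (t a : A) : xT b i j t * xG b (i : ι) a = xG b (i : ι) a * xT b i j t := by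
  refine Units.ext ?_
  have e1 : (xT b i j t * xG b (i : ι) a).1 = (xT b i j t).1 * (xG b (i : ι) a).1 := rfl
  have e2 : (xG b (i : ι) a * xT b i j t).1 = (xG b (i : ι) a).1 * (xT b i j t).1 := rfl
  rw [e1, e2, a2a_vx, a2a_xT h]
  refine a2a_comm (a2a_DP h) (DP_eZ i) ?_ t a
  rw [neg_mul, mul_neg, a2a_sZ h]

theorem a2_cj {i j : b.support} (h : Adj b i j) (t a : A) : xT b i j t * xG b (j : ι) a = xG b (j : ι) a * xT b i j t := by
  refine Units.ext ?_
  have e1 : (xT b i j t * xG b (j : ι) a).1 = (xT b i j t).1 * (xG b (j : ι) a).1 := rfl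
  have e2 : (xG b (j : ι) a * xT b i j t).1 = (xG b (j : ι) a).1 * (xT b i j t).1 := rfl
  rw [e1, e2, a2a_vx, a2a_xT h]
  refine a2a_comm (a2a_DP h) (DP_eZ j) ?_ t a
  rw [← a2a_cC j i, neg_neg, a2a_sZ h.symm]

theorem a2a_WW (i j : b.support) : nZ' b i * nZ' b j * (nZ b j * nZ b i) = 1 := by
  calc nZ' b i * nZ' b j * (nZ b j * nZ b i) = nZ' b i * (nZ' b j * nZ b j) * nZ b i := by simp only [mul_assoc]
    _ = 1 := by rw [nZ_mul', mul_one, nZ_mul']

theorem a2a_WW' (i j : b.support) : nZ b j * nZ b i * (nZ' b i * nZ' b j) = 1 := by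
  calc nZ b j * nZ b i * (nZ' b i * nZ' b j) = nZ b j * (nZ b i * nZ' b i) * nZ' b j := by simp only [mul_assoc]
    _ = 1 := by rw [nZ_mul, mul_one, nZ_mul]

theorem a2a_rotM {W W' X Y : Matrix (I b) (I b) ℤ} (h : W' * W = 1) (h' : W * W' = 1) (hX : DP X) (hXY : W * X * W' = Y) (t : A) : toA A W * ex X t = ex Y t * toA A W := by
  rw [← hXY, DP.ex_conjW h h' hX, mul_assoc, ← toA_mul, h, toA_one, mul_one]

theorem a2a_We {i j : b.support} (h : Adj b i j) : nZ b j * nZ b i * eZ b j * (nZ' b i * nZ' b j) = eZ b i := by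
  have h1 : nZ' b j * eZ b i * nZ b j = a2a_c b i j := by
    rw [(a2a_nc h.symm).2, a2a_cC]
  calc nZ b j * nZ b i * eZ b j * (nZ' b i * nZ' b j) = nZ b j * (nZ b i * eZ b j * nZ' b i) * nZ' b j := by simp only [mul_assoc]
    _ = nZ b j * (nZ' b j * eZ b i * nZ b j) * nZ' b j := by rw [(a2a_nc h).1, h1]
    _ = (nZ b j * nZ' b j) * eZ b i * (nZ b j * nZ' b j) := by simp only [mul_assoc]
    _ = eZ b i := by rw [nZ_mul, one_mul, mul_one]

/-- The commutator `[f_i, f_j]` over `ℤ`. -/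
def a2a_d (b : P.Base) (i j : b.support) : Matrix (I b) (I b) ℤ := fZ b i * fZ b j - fZ b j * fZ b i

theorem a2a_dD (i j : b.support) : -a2a_d b i j = a2a_d b j i := by
  unfold a2a_d
  rw [neg_sub]

theorem a2a_ofo (X Y : Matrix (I b) (I b) ℤ) : (oZ b * X * oZ b) * (oZ b * Y * oZ b) = oZ b * (X * Y) * oZ b := by
  calc (oZ b * X * oZ b) * (oZ b * Y * oZ b) = oZ b * X * (oZ b * oZ b) * Y * oZ b := by simp only [mul_assoc]
    _ = _ := by
      rw [oZ_mul, mul_one]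
      simp only [mul_assoc]

theorem a2a_dc (i j : b.support) : a2a_d b i j = oZ b * a2a_c b i j * oZ b := by
  unfold a2a_d a2a_c
  rw [oZ_eZ, oZ_eZ, a2a_ofo, a2a_ofo, mul_sub, sub_mul]

theorem a2a_sZ' {i j : b.support} (h : Adj b i j) : a2a_d b i j * fZ b i = fZ b i * a2a_d b i j := by
  rw [a2a_dc, oZ_eZ, a2a_ofo, a2a_ofo, a2a_sZ h]

/-- `n_i f_j n_i⁻¹ = -[f_i, f_j]`, `n_i⁻¹ f_j n_i = [f_i, f_j]`. -/
theorem a2a_nd {i j : b.support} (h : Adj b i j) : nZ b i * fZ b j * nZ' b i = -a2a_d b i j ∧ nZ' b i * fZ b j * nZ b i = a2a_d b i j := by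
  have hD : toA ℚ (a2a_d b i j) = toA ℚ (fZ b i) * toA ℚ (fZ b j) - toA ℚ (fZ b j) * toA ℚ (fZ b i) := by
    rw [a2a_d, toA_sub, toA_mul, toA_mul]
  have r1 : toA ℚ (eZ b i) * toA ℚ (fZ b j) - toA ℚ (fZ b j) * toA ℚ (eZ b i) = 0 := by
    rw [← toA_mul, ← toA_mul, a2a_ef h.ne, sub_self]
  have r2 : toA ℚ (fZ b i) * toA ℚ (a2a_d b i j) - toA ℚ (a2a_d b i j) * toA ℚ (fZ b i) = 0 := by
    rw [← toA_mul, ← toA_mul, a2a_sZ' h, sub_self]
  have r3 : toA ℚ (eZ b i) * toA ℚ (a2a_d b i j) - toA ℚ (a2a_d b i j) * toA ℚ (eZ b i) = toA ℚ (fZ b j) := by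
    rw [hD]
    refine a2a_gen (h := -toA ℚ (hZ b i)) ?_ r1 ?_
    · rw [← eZ_fZ, toA_sub, toA_mul, toA_mul, neg_sub]
    · have e1 := congrArg (toA ℚ) (a2a_hf i j)
      rw [toA_sub, toA_mul, toA_mul, h.2, toA_zsmul, neg_neg, one_smul] at e1
      have e4 : -toA ℚ (hZ b i) * toA ℚ (fZ b j) - toA ℚ (fZ b j) * -toA ℚ (hZ b i) = -(toA ℚ (hZ b i) * toA ℚ (fZ b j) - toA ℚ (fZ b j) * toA ℚ (hZ b i)) := by
        noncomm_ring
      rw [e4, e1]
  have k1 : ∀ t : ℚ, ex (eZ b i) t * toA ℚ (fZ b j) = toA ℚ (fZ b j) * ex (eZ b i) t := by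
    intro t
    have h0 := (DP_eZ i).ex_comm3 (A := ℚ) (Y := toA ℚ (fZ b j)) (Z := 0) (W := 0) r1 (by rw [mul_zero, zero_mul, sub_self, smul_zero]) (by rw [mul_zero, zero_mul]) t
    rwa [smul_zero, smul_zero, add_zero, add_zero] at h0
  have k2 : ∀ t : ℚ, ex (eZ b i) t * toA ℚ (a2a_d b i j) = (toA ℚ (a2a_d b i j) + t • toA ℚ (fZ b j)) * ex (eZ b i) t := by
    intro t
    have h0 := (DP_eZ i).ex_comm3 (A := ℚ) (Y := toA ℚ (a2a_d b i j)) (Z := toA ℚ (fZ b j)) (W := 0) r3 (by rw [r1, smul_zero]) (by rw [mul_zero, zero_mul]) t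
    rwa [smul_zero, add_zero] at h0
  have k3 : ∀ t : ℚ, ex (fZ b i) t * toA ℚ (fZ b j) = (toA ℚ (fZ b j) + t • toA ℚ (a2a_d b i j)) * ex (fZ b i) t := by
    intro t
    have h0 := (DP_fZ i).ex_comm3 (A := ℚ) (Y := toA ℚ (fZ b j)) (Z := toA ℚ (a2a_d b i j)) (W := 0) hD.symm (by rw [r2, smul_zero]) (by rw [mul_zero, zero_mul]) t
    rwa [smul_zero, add_zero] at h0
  have s1 : mm b i (1 : ℚˣ) * toA ℚ (fZ b j) = -toA ℚ (a2a_d b i j) * mm b i (1 : ℚˣ) := by
    unfold mm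
    rw [inv_one, Units.val_one]
    calc ex (eZ b i) (1 : ℚ) * ex (fZ b i) (-1 : ℚ) * ex (eZ b i) (1 : ℚ) * toA ℚ (fZ b j) = ex (eZ b i) (1 : ℚ) * (ex (fZ b i) (-1 : ℚ) * (ex (eZ b i) (1 : ℚ) * toA ℚ (fZ b j))) := by simp only [mul_assoc]
      _ = (ex (eZ b i) (1 : ℚ) * (toA ℚ (fZ b j) - toA ℚ (a2a_d b i j))) * ex (fZ b i) (-1 : ℚ) * ex (eZ b i) (1 : ℚ) := by
        rw [k1, ← mul_assoc (ex (fZ b i) (-1 : ℚ)), k3, neg_smul, one_smul, ← sub_eq_add_neg]
        simp only [mul_assoc]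
      _ = -toA ℚ (a2a_d b i j) * (ex (eZ b i) (1 : ℚ) * ex (fZ b i) (-1 : ℚ) * ex (eZ b i) (1 : ℚ)) := by
        have e5 : ex (eZ b i) (1 : ℚ) * (toA ℚ (fZ b j) - toA ℚ (a2a_d b i j)) = -toA ℚ (a2a_d b i j) * ex (eZ b i) (1 : ℚ) := by
          rw [mul_sub, k1, k2, one_smul]
          noncomm_ring
        rw [e5]
        simp only [mul_assoc]
  have s2 : mm' b i (1 : ℚˣ) * toA ℚ (fZ b j) = toA ℚ (a2a_d b i j) * mm' b i (1 : ℚˣ) := by
    unfold mm'
    rw [inv_one, Units.val_one]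
    calc ex (eZ b i) (-1 : ℚ) * ex (fZ b i) (1 : ℚ) * ex (eZ b i) (-1 : ℚ) * toA ℚ (fZ b j) = ex (eZ b i) (-1 : ℚ) * (ex (fZ b i) (1 : ℚ) * (ex (eZ b i) (-1 : ℚ) * toA ℚ (fZ b j))) := by simp only [mul_assoc]
      _ = (ex (eZ b i) (-1 : ℚ) * (toA ℚ (fZ b j) + toA ℚ (a2a_d b i j))) * ex (fZ b i) (1 : ℚ) * ex (eZ b i) (-1 : ℚ) := by
        rw [k1, ← mul_assoc (ex (fZ b i) (1 : ℚ)), k3, one_smul]
        simp only [mul_assoc]
      _ = toA ℚ (a2a_d b i j) * (ex (eZ b i) (-1 : ℚ) * ex (fZ b i) (1 : ℚ) * ex (eZ b i) (-1 : ℚ)) := by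
        have e5 : ex (eZ b i) (-1 : ℚ) * (toA ℚ (fZ b j) + toA ℚ (a2a_d b i j)) = toA ℚ (a2a_d b i j) * ex (eZ b i) (-1 : ℚ) := by
          rw [mul_add, k1, k2, neg_smul, one_smul]
          noncomm_ring
        rw [e5]
        simp only [mul_assoc]
  have h2 : toA ℚ (-a2a_d b i j) = -toA ℚ (a2a_d b i j) := by
    ext r c
    simp [toA]
  constructor
  · apply toA_inj (A := ℚ)
    rw [toA_mul, toA_mul, toA_nZ, toA_nZ', s1, mul_assoc, mm_mul, mul_one, h2]
  · apply toA_inj (A := ℚ)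
    rw [toA_mul, toA_mul, toA_nZ, toA_nZ', s2, mul_assoc, mm_mul', mul_one]

theorem a2a_Wf {i j : b.support} (h : Adj b i j) : nZ b j * nZ b i * fZ b j * (nZ' b i * nZ' b j) = fZ b i := by
  have h1 : nZ' b j * fZ b i * nZ b j = -a2a_d b i j := by
    rw [(a2a_nd h.symm).2, a2a_dD]
  calc nZ b j * nZ b i * fZ b j * (nZ' b i * nZ' b j) = nZ b j * (nZ b i * fZ b j * nZ' b i) * nZ' b j := by simp only [mul_assoc]
    _ = nZ b j * (nZ' b j * fZ b i * nZ b j) * nZ' b j := by rw [(a2a_nd h).1, h1]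
    _ = (nZ b j * nZ' b j) * fZ b i * (nZ b j * nZ' b j) := by simp only [mul_assoc]
    _ = fZ b i := by rw [nZ_mul, one_mul, mul_one]

/-- PROOF: `n_j C n_j⁻¹ = e_i` for `C = [e_i, e_j] = -[e_j, e_i] = n_j⁻¹ e_i n_j` (`a2_C` for `(j, i)`). -/
theorem a2_rot {i j : b.support} (h : Adj b i j) (t : A) : mG b j (1 : Aˣ) * mG b i (1 : Aˣ) * xG b (j : ι) t = xG b (i : ι) t * (mG b j (1 : Aˣ) * mG b i (1 : Aˣ)) := by
  refine Units.ext ?_
  have e1 : (mG b j (1 : Aˣ) * mG b i (1 : Aˣ) * xG b (j : ι) t).1 = (mG b j (1 : Aˣ)).1 * (mG b i (1 : Aˣ)).1 * (xG b (j : ι) t).1 := rfl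
  have e2 : (xG b (i : ι) t * (mG b j (1 : Aˣ) * mG b i (1 : Aˣ))).1 = (xG b (i : ι) t).1 * ((mG b j (1 : Aˣ)).1 * (mG b i (1 : Aˣ)).1) := rfl
  rw [e1, e2, mG_one, mG_one, a2a_vx, a2a_vx, ← toA_mul]
  exact a2a_rotM (a2a_WW i j) (a2a_WW' i j) (DP_eZ j) (a2a_We h) t

/-- The same for the negative roots. PROOF: `f_j = -(n_j e_j n_j⁻¹)` (`fZ_eq`), so `n_j n_i f_j (n_j n_i)⁻¹`: as `a2_C` with `e` and `f` exchanged (`n_i = ex(f_i)(-1) ex(e_i)(1) ex(f_i)(-1)`), or apply the transposed relations (`gst`-like antiautomorphism is only over `RCLike`), or: `y_j(t)` for `t ≠ 0` is a product of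
`x_j` and `n_j`... the direct computation `n_i f_j n_i⁻¹ = [f_j, f_i]`, `n_j [f_j, f_i] n_j⁻¹ = f_i` is best. -/
theorem a2_rot' {i j : b.support} (h : Adj b i j) (t : A) : mG b j (1 : Aˣ) * mG b i (1 : Aˣ) * xG b (ng P j) t = xG b (ng P i) t * (mG b j (1 : Aˣ) * mG b i (1 : Aˣ)) := by
  refine Units.ext ?_
  have e1 : (mG b j (1 : Aˣ) * mG b i (1 : Aˣ) * xG b (ng P j) t).1 = (mG b j (1 : Aˣ)).1 * (mG b i (1 : Aˣ)).1 * (xG b (ng P j) t).1 := rfl
  have e2 : (xG b (ng P i) t * (mG b j (1 : Aˣ) * mG b i (1 : Aˣ))).1 = (xG b (ng P i) t).1 * ((mG b j (1 : Aˣ)).1 * (mG b i (1 : Aˣ)).1) := rfl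
  rw [e1, e2, mG_one, mG_one, a2a_vy, a2a_vy, ← toA_mul]
  exact a2a_rotM (a2a_WW i j) (a2a_WW' i j) (DP_fZ j) (a2a_Wf h) t

/-- **The braid relation.** PROOF: `n_j n_i n_j (n_j n_i)⁻¹ = n_i` by `a2_rot`, `a2_rot'` and the definition of `mG`. -/
theorem a2_braid {i j : b.support} (h : Adj b i j) : mG b i (1 : Aˣ) * mG b j (1 : Aˣ) * mG b i (1 : Aˣ) = mG b j (1 : Aˣ) * mG b i (1 : Aˣ) * mG b j (1 : Aˣ) := by
  have h1 := a2_rot (A := A) h
  have h2 := a2_rot' (A := A) h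
  have h3 : mG b j (1 : Aˣ) * mG b i (1 : Aˣ) * mG b j (1 : Aˣ) = mG b i (1 : Aˣ) * (mG b j (1 : Aˣ) * mG b i (1 : Aˣ)) := by
    generalize hV : mG b j (1 : Aˣ) * mG b i (1 : Aˣ) = V at h1 h2 ⊢
    rw [mG.eq_def b j, mG.eq_def b i, ← mul_assoc, ← mul_assoc, h1, mul_assoc (xG b (i : ι) _) V, h2, mul_assoc, mul_assoc, h1, mul_assoc, mul_assoc]
  rw [h3, mul_assoc]

end

end Pool.Agent.Lib.L8.QF
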