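import Pool.Agent.Lib.L8.QF.EQ2

/-!
# QF, module C5Q, AN0 (design helper33): the infinite places of a Galois extension
-/

namespace Pool.Agent.Lib.L8.QF

open MeasureTheory Matrix NumberField NumberField.InfinitePlace IsDedekindDomain Pool.Agent.Lib.H89N Pool.Agent.Lib.H33W Pool.Agent.Lib.H67G Pool.Agent.Lib.L1S Pool.Agent.Lib.L8.FL
open scoped ENNReal Pointwise

noncomputable section

set_option linter.unusedSectionVars false
set_option linter.unusedVariables false

variable {K L : Type} [Field K] [NumberField K] [Field L] [NumberField L] [Algebra K L]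

theorem an0_smul (t : L ≃ₐ[K] L) (w : InfinitePlace L) : cpl t w = t⁻¹ • w := rfl

theorem an0_comap (t : L ≃ₐ[K] L) (w : InfinitePlace L) : (cpl t w).comap (algebraMap K L) = w.comap (algebraMap K L) := by
  unfold cpl
  rw [← InfinitePlace.comap_comp]
  congr 1
  exact RingHom.ext fun x => t.commutes x

/-- The places above `v`: transitivity. PROOF: `InfinitePlace.exists_smul_eq_of_comap_eq` (the action is `(t • w) = w.comap t.symm`). -/
theorem an0_trans [IsGalois K L] {w w' : InfinitePlace L} (h : w.comap (algebraMap K L) = w'.comap (algebraMap K L)) : ∃ t : L ≃ₐ[K] L, cpl t w = w' := by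
  obtain ⟨σ, hσ⟩ := InfinitePlace.exists_smul_eq_of_comap_eq h
  refine ⟨σ⁻¹, ?_⟩
  rw [an0_smul, inv_inv, hσ]

/-- **The number of `t` with `cpl t w₀ = w`.** PROOF: it is the order of the stabiliser of `w₀` (`an0_trans`), which is `1` if `w₀` is unramified over `K` (`InfinitePlace.isUnramified_iff_card_stabilizer_eq_one`, then `w₀.mult = v.mult`) and
`2` otherwise (`InfinitePlace.nat_card_stabilizer_eq_one_or_two`; then `w₀` is complex and `v` is real: `InfinitePlace.not_isUnramified_iff` or `isUnramified_iff`); `w.mult = w₀.mult` by `eq2_mult`. -/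
theorem an0_card [IsGalois K L] [DecidableEq (InfinitePlace L)] (w₀ w : InfinitePlace L) (h : w.comap (algebraMap K L) = w₀.comap (algebraMap K L)) :
    (Finset.univ.filter fun t : L ≃ₐ[K] L => cpl t w₀ = w).card * (w₀.comap (algebraMap K L)).mult = w.mult := by
  obtain ⟨t₀, ht₀⟩ := an0_trans h.symm
  have hm : w.mult = w₀.mult := by rw [← ht₀, eq2_mult]
  have hc : (Finset.univ.filter fun t : L ≃ₐ[K] L => cpl t w₀ = w).card = Nat.card (MulAction.stabilizer (L ≃ₐ[K] L) w₀) := by
    rw [← Fintype.card_subtype, ← Nat.card_eq_fintype_card]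
    refine Nat.card_congr
      { toFun := fun t => ⟨t₀ * t.1⁻¹, ?_⟩
        invFun := fun s => ⟨s.1⁻¹ * t₀, ?_⟩
        left_inv := fun t => ?_
        right_inv := fun s => ?_ }
    · rw [MulAction.mem_stabilizer_iff, mul_smul, ← an0_smul, t.2, ← ht₀, an0_smul, smul_inv_smul]
    · have h1 : s.1 • w₀ = w₀ := MulAction.mem_stabilizer_iff.1 s.2
      rw [an0_smul, _root_.mul_inv_rev, inv_inv, mul_smul, h1, ← an0_smul, ht₀]
    · refine Subtype.ext ?_
      show (t₀ * t.1⁻¹)⁻¹ * t₀ = t.1
      group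
    · refine Subtype.ext ?_
      show t₀ * (s.1⁻¹ * t₀)⁻¹ = s.1
      group
  rw [hc, InfinitePlace.card_stabilizer, hm]
  by_cases hu : InfinitePlace.IsUnramified K w₀
  · rw [if_pos hu, one_mul]
    exact hu.eq
  · rw [if_neg hu]
    obtain ⟨h1, h2⟩ := InfinitePlace.not_isUnramified_iff.1 hu
    have e1 : w₀.mult = 2 := by
      rw [InfinitePlace.mult, if_neg (InfinitePlace.not_isReal_iff_isComplex.2 h1)]
    have e2 : (w₀.comap (algebraMap K L)).mult = 1 := by
      rw [InfinitePlace.mult, if_pos h2]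
    rw [e1, e2]

/-- **The place lemma**, product form. PROOF: `Finset.prod_fiberwise` over `w ↦ w.comap (algebraMap K L)`, `an0_trans`, `an0_card`. -/
theorem an0_prod [IsGalois K L] {M : Type} [CommMonoid M] (φ : InfinitePlace L → M) (c : InfinitePlace K → InfinitePlace L) (hc : ∀ v, (c v).comap (algebraMap K L) = v) :
    ∏ w : InfinitePlace L, φ w ^ w.mult = ∏ v : InfinitePlace K, (∏ t : L ≃ₐ[K] L, φ (cpl t (c v))) ^ v.mult := by
  classical
  rw [← Finset.prod_fiberwise Finset.univ (fun w : InfinitePlace L => w.comap (algebraMap K L)) fun w => φ w ^ w.mult]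
  refine Finset.prod_congr rfl fun v _ => ?_
  have h1 : ∏ t : L ≃ₐ[K] L, φ (cpl t (c v)) = ∏ w ∈ Finset.univ.filter (fun w : InfinitePlace L => w.comap (algebraMap K L) = v), φ w ^ (Finset.univ.filter fun t : L ≃ₐ[K] L => cpl t (c v) = w).card := by
    rw [← Finset.prod_fiberwise_of_maps_to (s := Finset.univ) (t := Finset.univ.filter (fun w : InfinitePlace L => w.comap (algebraMap K L) = v)) (g := fun t : L ≃ₐ[K] L => cpl t (c v)) fun t _ => ?_]
    · refine Finset.prod_congr rfl fun w _ => ?_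
      rw [Finset.prod_congr rfl (g := fun _ => φ w) fun t ht => ?_, Finset.prod_const]
      rw [(Finset.mem_filter.1 ht).2]
    · rw [Finset.mem_filter]
      exact ⟨Finset.mem_univ _, (an0_comap t (c v)).trans (hc v)⟩
  rw [h1, ← Finset.prod_pow]
  refine Finset.prod_congr rfl fun w hw => ?_
  have h2 : w.comap (algebraMap K L) = v := (Finset.mem_filter.1 hw).2
  rw [← pow_mul]
  congr 1
  have h3 := an0_card (c v) w (h2.trans (hc v).symm)
  rw [hc v] at h3
  exact h3.symm

/-- **The place lemma**, sum form. PROOF: the same. -/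
theorem an0_sum [IsGalois K L] (ψ : InfinitePlace L → ℝ) (c : InfinitePlace K → InfinitePlace L) (hc : ∀ v, (c v).comap (algebraMap K L) = v) :
    ∑ w : InfinitePlace L, (w.mult : ℝ) * ψ w = ∑ v : InfinitePlace K, (v.mult : ℝ) * ∑ t : L ≃ₐ[K] L, ψ (cpl t (c v)) := by
  have h := congrArg Multiplicative.toAdd (an0_prod (M := Multiplicative ℝ) (fun w => Multiplicative.ofAdd (ψ w)) c hc)
  rw [toAdd_prod, toAdd_prod] at h
  simp only [toAdd_pow, toAdd_prod, toAdd_ofAdd, nsmul_eq_mul] at h
  exact h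

/-- A function on the places of `L` which is invariant under `Gal(L/K)`. PROOF: `an0_sum`, `IsGalois.card_aut_eq_finrank`. -/
theorem an0_inv [IsGalois K L] (ψ : InfinitePlace L → ℝ) (hψ : ∀ (t : L ≃ₐ[K] L) (w : InfinitePlace L), ψ (cpl t w) = ψ w) (ψ' : InfinitePlace K → ℝ) (h : ∀ w, ψ' (w.comap (algebraMap K L)) = ψ w) :
    ∑ w : InfinitePlace L, (w.mult : ℝ) * ψ w = (Module.finrank K L : ℝ) * ∑ v : InfinitePlace K, (v.mult : ℝ) * ψ' v := by
  choose c hc using InfinitePlace.comap_surjective (k := K) (K := L)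
  rw [an0_sum ψ c hc, Finset.mul_sum]
  refine Finset.sum_congr rfl fun v _ => ?_
  have h1 : ∑ t : L ≃ₐ[K] L, ψ (cpl t (c v)) = (Module.finrank K L : ℝ) * ψ' v := by
    rw [Finset.sum_congr rfl (g := fun _ => ψ' v) fun t _ => ?_, Finset.sum_const, Finset.card_univ, nsmul_eq_mul, ← Nat.card_eq_fintype_card, IsGalois.card_aut_eq_finrank]
    rw [hψ, ← h]
    exact congrArg ψ' (hc v)
  rw [h1]
  ring

/-- Such a function comes from `K`. PROOF: `InfinitePlace.comap_surjective`, `an0_trans`. -/
theorem an0_desc [IsGalois K L] {α : Type} (ψ : InfinitePlace L → α) (hψ : ∀ (t : L ≃ₐ[K] L) (w : InfinitePlace L), ψ (cpl t w) = ψ w) : ∃ ψ' : InfinitePlace K → α, ∀ w, ψ' (w.comap (algebraMap K L)) = ψ w := by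
  choose c hc using InfinitePlace.comap_surjective (k := K) (K := L)
  refine ⟨fun v => ψ (c v), fun w => ?_⟩
  obtain ⟨t, ht⟩ := an0_trans (hc (w.comap (algebraMap K L)))
  show ψ (c (w.comap (algebraMap K L))) = ψ w
  rw [← hψ t, ht]

end

end Pool.Agent.Lib.L8.QF
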