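import Pool.Agent.Lib.L8.QF.Defs
import Pool.Agent.Lib.L8.FL.C5F
import Pool.Agent.Lib.L8.FVQ2
import Pool.Agent.Lib.L8.IG24

/-!
# QF, module C5Q, R1A (design helper33): embeddings of number fields and the real algebras
-/

namespace Pool.Agent.Lib.L8.QF

open MeasureTheory Matrix NumberField NumberField.InfinitePlace IsDedekindDomain Pool.Agent.Lib.H89N Pool.Agent.Lib.H33W Pool.Agent.Lib.H67G Pool.Agent.Lib.L1S Pool.Agent.Lib.L8.FL
open scoped ENNReal Pointwise

noncomputable section

set_option linter.unusedSectionVars false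
set_option linter.unusedVariables false

/-! ## 1. Embeddings of number fields and the real algebras -/

/-- The identity or the complex conjugation. -/
def cjb (ε : Bool) : ℂ →+* ℂ := if ε then starRingEnd ℂ else RingHom.id ℂ

theorem cjb_true (z : ℂ) : cjb true z = (starRingEnd ℂ) z := rfl

theorem cjb_false (z : ℂ) : cjb false z = z := rfl

theorem cjb_norm (ε : Bool) (z : ℂ) : ‖cjb ε z‖ = ‖z‖ := by
  cases ε
  · rfl
  · rw [cjb_true, RCLike.norm_conj]

theorem cjb_cont (ε : Bool) : Continuous (cjb ε) := by
  cases ε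
  · exact continuous_id
  · exact Complex.continuous_conj

theorem cjb_cjb (ε : Bool) (z : ℂ) : cjb ε (cjb ε z) = z := by
  cases ε
  · rfl
  · rw [cjb_true, cjb_true, Complex.conj_conj]

theorem cjb_real (ε : Bool) (x : ℝ) : cjb ε (x : ℂ) = (x : ℂ) := by
  cases ε
  · rfl
  · rw [cjb_true, Complex.conj_ofReal]

section fields

variable {F L : Type} [Field F] [NumberField F] [Field L] [NumberField L]

/-- **The real extension** `F ⊗ ℝ → L ⊗ ℝ` of an embedding of number fields. -/
def iE (f : F →+* L) : EE F →+* EE L where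
  toFun := qe1 f.toAddMonoidHom.toRatLinearMap
  map_one' := by
    rw [← map_one (mixedEmbedding F), qe1_emb]
    show mixedEmbedding L (f 1) = 1
    rw [map_one, map_one]
  map_zero' := map_zero _
  map_add' := map_add _
  map_mul' x y := by
    have hd := t3_dense F
    have c := qe1_cont f.toAddMonoidHom.toRatLinearMap
    refine hd.induction_on₂ (p := fun x y => qe1 f.toAddMonoidHom.toRatLinearMap (x * y) = qe1 f.toAddMonoidHom.toRatLinearMap x * qe1 f.toAddMonoidHom.toRatLinearMap y)
      (isClosed_eq (c.comp (continuous_fst.mul continuous_snd)) ((c.comp continuous_fst).mul (c.comp continuous_snd))) (fun x y => ?_) x y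
    rw [← map_mul (mixedEmbedding F), qe1_emb, qe1_emb, qe1_emb, ← map_mul (mixedEmbedding L)]
    congr 1
    exact map_mul f x y

theorem iE_emb (f : F →+* L) (x : F) : iE f (mixedEmbedding F x) = mixedEmbedding L (f x) := qe1_emb _ _

theorem iE_cont (f : F →+* L) : Continuous (iE f) := qe1_cont _

theorem iE_smul (f : F →+* L) (c : ℝ) (x : EE F) : iE f (c • x) = c • iE f x := map_smul (qe1 f.toAddMonoidHom.toRatLinearMap) c x

theorem iE_comp {E : Type} [Field E] [NumberField E] (f : F →+* L) (g : E →+* F) (x : EE E) : iE (f.comp g) x = iE f (iE g x) := by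
  have h := (t3_dense E).equalizer (iE_cont (f.comp g)) ((iE_cont f).comp (iE_cont g)) (funext fun x => by
    show iE (f.comp g) (mixedEmbedding E x) = iE f (iE g (mixedEmbedding E x))
    rw [iE_emb, iE_emb, iE_emb]
    rfl)
  exact congrFun h x

/-- Two ring homomorphisms which agree on the field. PROOF: density (`t3_dense`). -/
theorem iE_ext {f : F →+* L} {g : EE F → EE L} (hg : Continuous g) (h : ∀ x : F, g (mixedEmbedding F x) = mixedEmbedding L (f x)) (x : EE F) : g x = iE f x := by
  have h := (t3_dense F).equalizer hg (iE_cont f) (funext fun x => by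
    show g (mixedEmbedding F x) = iE f (mixedEmbedding F x)
    rw [iE_emb, h])
  exact congrFun h x

theorem r1a_emb (w : InfinitePlace L) (x : L) : evw w (mixedEmbedding L x) = w.embedding x := by
  rcases w.isReal_or_isComplex with h | h
  · rw [evw_real h]
    exact InfinitePlace.embedding_of_isReal_apply h x
  · rw [evw_complex h]
    rfl

/-- **The evaluation of `i_E(x)` at the place `w`.** PROOF: `w.embedding.comp f` is an embedding which defines the place `w.comap f`, so it is the embedding `(w.comap f).embedding` or its conjugate (`InfinitePlace.mk_eq_iff`,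
`InfinitePlace.embedding_mk_eq`); `evw w (mixedEmbedding L x) = w.embedding x` for every place (`evw_real`, `evw_complex`, `InfinitePlace.embedding_of_isReal_apply`); density of the field (`t3_dense`) and continuity (`evw_cont`, `iE_cont`, `cjb_cont`). -/
theorem evw_iE (f : F →+* L) (w : InfinitePlace L) : ∃ ε : Bool, ∀ x : EE F, evw w (iE f x) = cjb ε (evw (w.comap f) x) := by
  have h1 : InfinitePlace.mk (w.embedding.comp f) = InfinitePlace.mk (w.comap f).embedding := by
    rw [InfinitePlace.mk_embedding, ← InfinitePlace.comap_mk, InfinitePlace.mk_embedding]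
  have h2 : ∃ ε : Bool, ∀ x : F, w.embedding (f x) = cjb ε ((w.comap f).embedding x) := by
    rcases InfinitePlace.mk_eq_iff.1 h1 with h | h
    · exact ⟨false, fun x => RingHom.congr_fun h x⟩
    · refine ⟨true, fun x => ?_⟩
      have h3 : (starRingEnd ℂ) (w.embedding (f x)) = (w.comap f).embedding x := RingHom.congr_fun h x
      rw [cjb_true, ← h3, Complex.conj_conj]
  obtain ⟨ε, h3⟩ := h2
  refine ⟨ε, fun x => ?_⟩
  have h := (t3_dense F).equalizer ((evw_cont w).comp (iE_cont f)) ((cjb_cont ε).comp (evw_cont (w.comap f))) (funext fun x => by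
    show evw w (iE f (mixedEmbedding F x)) = cjb ε (evw (w.comap f) (mixedEmbedding F x))
    rw [iE_emb, r1a_emb, r1a_emb, h3])
  exact congrFun h x

theorem iE_inj (f : F →+* L) : Function.Injective (iE f) := by
  let _ : Algebra F L := f.toAlgebra
  intro x y hxy
  refine evw_ext fun v => ?_
  obtain ⟨w, hw⟩ := InfinitePlace.comap_surjective (k := F) (K := L) v
  obtain ⟨ε, h⟩ := evw_iE f w
  have hw' : w.comap f = v := hw
  have h1 := h x
  have h2 := h y
  rw [hxy, h2, hw'] at h1
  have h3 := congrArg (cjb ε) h1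
  rw [cjb_cjb, cjb_cjb] at h3
  exact h3.symm

end fields

section act

variable {K L : Type} [Field K] [NumberField K] [Field L] [NumberField L] [Algebra K L]

theorem sE_iE (s : L ≃ₐ[K] L) (x : EE L) : sE s x = iE (s : L →+* L) x := iE_ext (sE_cont s) (fun x => sE_emb s x) x

theorem evw_sE (s : L ≃ₐ[K] L) (w : InfinitePlace L) : ∃ ε : Bool, ∀ x : EE L, evw w (sE s x) = cjb ε (evw (w.comap (s : L →+* L)) x) := by
  obtain ⟨ε, h⟩ := evw_iE (s : L →+* L) w
  exact ⟨ε, fun x => by rw [sE_iE, h]⟩

theorem sE_smul (s : L ≃ₐ[K] L) (c : ℝ) (x : EE L) : sE s (c • x) = c • sE s x := by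
  rw [sE_iE, sE_iE, iE_smul]

end act

end

end Pool.Agent.Lib.L8.QF
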