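import Pool.Agent.Lib.L8.QF.AN0
import Pool.Agent.Lib.L8.QF.R1A
import Pool.Agent.Lib.L8.FL.C5C

/-!
# QF, module C5Q, AN1 (design helper33): integrals of products over `K ⊗ ℝ`, one-place estimates for the adjacent pair
-/

namespace Pool.Agent.Lib.L8.QF

open MeasureTheory Matrix NumberField NumberField.InfinitePlace IsDedekindDomain Pool.Agent.Lib.H89N Pool.Agent.Lib.H33W Pool.Agent.Lib.H67G Pool.Agent.Lib.L1S Pool.Agent.Lib.L8.FL
open scoped ENNReal Pointwise

noncomputable section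

set_option linter.unusedSectionVars false
set_option linter.unusedVariables false

variable {K : Type} [Field K] [NumberField K]

open scoped Classical in
/-- The integral over the completion at one infinite place. -/
def oI (w : InfinitePlace K) (g : ℂ → ℝ≥0∞) : ℝ≥0∞ := if w.IsReal then ∫⁻ x : ℝ, g (x : ℂ) else ∫⁻ z : ℂ, g z

set_option backward.isDefEq.respectTransparency false in
theorem an1a_fin {n : ℕ} {E : Fin n → Type*} {mE : ∀ i, MeasurableSpace (E i)} {μ : (i : Fin n) → Measure (E i)}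
    [∀ i, SigmaFinite (μ i)] (f : (i : Fin n) → E i → ℝ≥0∞) (hf : ∀ i, Measurable (f i)) :
    ∫⁻ x : (i : Fin n) → E i, ∏ i, f i (x i) ∂(Measure.pi μ) = ∏ i, ∫⁻ x, f i x ∂(μ i) := by
  induction n with
  | zero => simp
  | succ n n_ih =>
      calc
        _ = ∫⁻ x : E 0 × ((i : Fin n) → E (Fin.succ i)),
            f 0 x.1 * ∏ i : Fin n, f (Fin.succ i) (x.2 i)
            ∂((μ 0).prod (Measure.pi (fun i ↦ μ i.succ))) := by
          rw [← ((measurePreserving_piFinSuccAbove μ 0).symm).lintegral_comp_emb (MeasurableEquiv.measurableEmbedding _)]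
          simp_rw [MeasurableEquiv.piFinSuccAbove_symm_apply, Fin.insertNthEquiv,
            Fin.prod_univ_succ, Fin.insertNth_zero, Equiv.coe_fn_mk, Fin.cons_succ,
            Fin.zero_succAbove, cast_eq, Fin.cons_zero]
        _ = (∫⁻ x, f 0 x ∂μ 0)
            * ∏ i : Fin n, ∫⁻ (x : E (Fin.succ i)), f (Fin.succ i) x ∂(μ i.succ) := by
          rw [← n_ih _ (fun i => hf _)]
          exact lintegral_prod_mul (g := fun y : (i : Fin n) → E i.succ => ∏ i : Fin n, f i.succ (y i)) (hf 0).aemeasurable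
            (Finset.measurable_fun_prod _ fun i _ => (hf _).comp (measurable_pi_apply i)).aemeasurable
        _ = ∏ i, ∫⁻ x, f i x ∂(μ i) := by rw [Fin.prod_univ_succ]

theorem an1a_ft {ι : Type*} [Fintype ι] {E : ι → Type*} (f : (i : ι) → E i → ℝ≥0∞)
    {mE : ∀ i, MeasurableSpace (E i)} {μ : (i : ι) → Measure (E i)} [∀ i, SigmaFinite (μ i)]
    (hf : ∀ i, Measurable (f i)) :
    ∫⁻ x : (i : ι) → E i, ∏ i, f i (x i) ∂(Measure.pi μ) = ∏ i, ∫⁻ x, f i x ∂(μ i) := by
  let e := (Fintype.equivFin ι).symm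
  rw [← (measurePreserving_piCongrLeft _ e).lintegral_comp_emb (MeasurableEquiv.measurableEmbedding _)]
  simp_rw [← e.prod_comp, MeasurableEquiv.coe_piCongrLeft, Equiv.piCongrLeft_apply_apply]
  exact an1a_fin _ fun i => hf _

/-- **The product formula.** PROOF: `EE K = (real places → ℝ) × (complex places → ℂ)` with the product measure; `InfinitePlace.prod_eq_prod_mul_prod`, `evw_real`, `evw_complex`, `lintegral_prod_mul` (see the end of the proof of `int_EE` in
C5C), `lintegral_fintype_prod_volume_eq_prod` (or `lintegral_fintype_prod_eq_prod`; if it is not in Mathlib: induction on the finite type with `MeasureTheory.volume_preserving_piFinSuccAbove` or `measurePreserving_piEquivPiSubtypeProd`). -/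
theorem int_prod (f : InfinitePlace K → ℂ → ℝ≥0∞) (hf : ∀ w, Measurable (f w)) : ∫⁻ r : EE K, ∏ w, f w (evw w r) = ∏ w, oI w (f w) := by
  classical
  have h1 : ∀ r : EE K, ∏ w, f w (evw w r) = (∏ w : {w : InfinitePlace K // w.IsReal}, f w.1 ((r.1 w : ℝ) : ℂ)) *
      ∏ w : {w : InfinitePlace K // w.IsComplex}, f w.1 (r.2 w) := by
    intro r
    rw [InfinitePlace.prod_eq_prod_mul_prod]
    exact congrArg₂ (· * ·) (Finset.prod_congr rfl fun w _ => by rw [evw_real w.2])
      (Finset.prod_congr rfl fun w _ => by rw [evw_complex w.2])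
  have hm1 : Measurable fun x : {w : InfinitePlace K // w.IsReal} → ℝ => ∏ w, f w.1 ((x w : ℝ) : ℂ) :=
    Finset.measurable_fun_prod _ fun w _ => (hf w.1).comp (Complex.measurable_ofReal.comp (measurable_pi_apply w))
  have hm2 : Measurable fun x : {w : InfinitePlace K // w.IsComplex} → ℂ => ∏ w, f w.1 (x w) :=
    Finset.measurable_fun_prod _ fun w _ => (hf w.1).comp (measurable_pi_apply w)
  calc ∫⁻ r : EE K, ∏ w, f w (evw w r)
      = ∫⁻ r : EE K, (∏ w : {w : InfinitePlace K // w.IsReal}, f w.1 ((r.1 w : ℝ) : ℂ)) *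
        ∏ w : {w : InfinitePlace K // w.IsComplex}, f w.1 (r.2 w) := lintegral_congr h1
    _ = (∫⁻ x : {w : InfinitePlace K // w.IsReal} → ℝ, ∏ w, f w.1 ((x w : ℝ) : ℂ)) *
        ∫⁻ x : {w : InfinitePlace K // w.IsComplex} → ℂ, ∏ w, f w.1 (x w) :=
        lintegral_prod_mul hm1.aemeasurable hm2.aemeasurable
    _ = (∏ w : {w : InfinitePlace K // w.IsReal}, ∫⁻ x : ℝ, f w.1 (x : ℂ)) *
        ∏ w : {w : InfinitePlace K // w.IsComplex}, ∫⁻ z : ℂ, f w.1 z :=
        congrArg₂ (· * ·)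
          (an1a_ft (μ := fun _ => volume) (fun (w : {w : InfinitePlace K // w.IsReal}) (x : ℝ) => f w.1 (x : ℂ))
            fun w => (hf w.1).comp Complex.measurable_ofReal)
          (an1a_ft (μ := fun _ => volume) (fun (w : {w : InfinitePlace K // w.IsComplex}) (x : ℂ) => f w.1 x)
            fun w => hf w.1)
    _ = ∏ w, oI w (f w) := by
        rw [InfinitePlace.prod_eq_prod_mul_prod]
        exact congrArg₂ (· * ·) (Finset.prod_congr rfl fun w _ => by unfold oI; rw [if_pos w.2])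
          (Finset.prod_congr rfl fun w _ => by unfold oI; rw [if_neg (InfinitePlace.not_isReal_iff_isComplex.2 w.2)])

theorem oI_mono (w : InfinitePlace K) {f g : ℂ → ℝ≥0∞} (h : ∀ z, f z ≤ g z) : oI w f ≤ oI w g := by
  unfold oI
  split_ifs
  · exact lintegral_mono fun x => h _
  · exact lintegral_mono h

/-- `1 + X² + |Z|²` with `X = e^(-A) |x|`, `|Z| = e^(-A-A') |z|`. -/
def hT (A A' : ℝ) (x z : ℂ) : ℝ := 1 + (Real.exp (-A) * ‖x‖) ^ 2 + (Real.exp (-A - A') * ‖z‖) ^ 2

theorem hT_one (A A' : ℝ) (x z : ℂ) : 1 ≤ hT A A' x z := by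
  unfold hT
  nlinarith [sq_nonneg (Real.exp (-A) * ‖x‖), sq_nonneg (Real.exp (-A - A') * ‖z‖)]

/-- `min (x^(-1+δ), x^(-1-δ))`, `∞` at `x = 0`. -/
def gD (δ x : ℝ) : ℝ≥0∞ := min (ENNReal.ofReal x ^ (-1 + δ)) (ENNReal.ofReal x ^ (-1 - δ))

theorem gD_meas (δ : ℝ) : Measurable (gD δ) := by
  unfold gD
  exact (ENNReal.measurable_ofReal.pow_const _).min (ENNReal.measurable_ofReal.pow_const _)

end

end Pool.Agent.Lib.L8.QF
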