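import Pool.Agent.Lib.L8.QF.AN1

/-!
# QF, module C5Q, AN1B (design helper33): one-place estimates for the adjacent pair
-/

namespace Pool.Agent.Lib.L8.QF

open MeasureTheory Matrix NumberField NumberField.InfinitePlace IsDedekindDomain Pool.Agent.Lib.H89N Pool.Agent.Lib.H33W Pool.Agent.Lib.H67G Pool.Agent.Lib.L1S Pool.Agent.Lib.L8.FL
open scoped ENNReal Pointwise

noncomputable section

set_option linter.unusedSectionVars false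
set_option linter.unusedVariables false

/-! ### Real estimates -/

/-- the real version of `gD` -/
def an1b_g (δ x : ℝ) : ℝ := min (x ^ (-1 + δ)) (x ^ (-1 - δ))

theorem an1b_gpos (δ : ℝ) {x : ℝ} (hx : 0 < x) : 0 < an1b_g δ x := lt_min (Real.rpow_pos_of_pos hx _) (Real.rpow_pos_of_pos hx _)

theorem an1b_gD (δ : ℝ) {x : ℝ} (hx : 0 < x) : gD δ x = ENNReal.ofReal (an1b_g δ x) := by
  unfold gD an1b_g
  rw [ENNReal.ofReal_rpow_of_pos hx, ENNReal.ofReal_rpow_of_pos hx, ENNReal.ofReal_min]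

theorem an1b_gD0 {δ : ℝ} (hδ : 0 < δ) (hδ1 : δ ≤ 1 / 2) {x : ℝ} (hx : x ≤ 0) : gD δ x = ⊤ := by
  unfold gD
  rw [ENNReal.ofReal_of_nonpos hx, ENNReal.zero_rpow_of_neg (by linarith), ENNReal.zero_rpow_of_neg (by linarith), min_self]

theorem an1b_gDne {δ : ℝ} (hδ : 0 < δ) (hδ1 : δ ≤ 1 / 2) (x : ℝ) : gD δ x ≠ 0 := by
  rcases le_or_gt x 0 with hx | hx
  · rw [an1b_gD0 hδ hδ1 hx]
    exact ENNReal.top_ne_zero
  · rw [an1b_gD δ hx]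
    exact (ENNReal.ofReal_pos.2 (an1b_gpos δ hx)).ne'

theorem an1b_sq {x : ℝ} (hx : 0 < x) (t : ℝ) : (x ^ 2) ^ (t / 2) = x ^ t := by
  rw [← Real.rpow_natCast x 2, ← Real.rpow_mul hx.le]
  congr 1
  push_cast
  ring

theorem an1b_L0 {δ x : ℝ} (hδ : 0 < δ) (hδ1 : δ ≤ 1 / 2) (hx : 0 < x) : (1 + x ^ 2) ^ (-(1 + δ) / 2) ≤ an1b_g δ x := by
  have hP : 1 ≤ 1 + x ^ 2 := by nlinarith [sq_nonneg x]
  have hXP : x ^ 2 ≤ 1 + x ^ 2 := by linarith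
  have hx2 : 0 < x ^ 2 := by positivity
  refine le_min ?_ ?_
  · calc (1 + x ^ 2) ^ (-(1 + δ) / 2) ≤ (1 + x ^ 2) ^ ((-1 + δ) / 2) := Real.rpow_le_rpow_of_exponent_le hP (by linarith)
      _ ≤ (x ^ 2) ^ ((-1 + δ) / 2) := Real.rpow_le_rpow_of_nonpos hx2 hXP (by linarith)
      _ = x ^ (-1 + δ) := an1b_sq hx _
  · calc (1 + x ^ 2) ^ (-(1 + δ) / 2) = (1 + x ^ 2) ^ ((-1 - δ) / 2) := by
          congr 1
          ring
      _ ≤ (x ^ 2) ^ ((-1 - δ) / 2) := Real.rpow_le_rpow_of_nonpos hx2 hXP (by linarith)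
      _ = x ^ (-1 - δ) := an1b_sq hx _

/-- one of the two exponents -/
theorem an1b_L1s {δ x y z : ℝ} (hδ : 0 < δ) (hδ1 : δ ≤ 1 / 2) (hx : 0 < x) (hy : 0 < y) (hz : x * y / 2 ≤ z) {t : ℝ}
    (ht0 : (1 - δ) / 2 ≤ t) (ht1 : t ≤ (1 + δ) / 2) :
    (1 + x ^ 2 + z ^ 2) ^ (-(1 + 2 * δ) / 2) ≤ 4 * (x ^ (-2 * t) * an1b_g δ y) * (1 + y ^ 2) ^ δ := by
  have hP : 1 ≤ 1 + y ^ 2 := by nlinarith [sq_nonneg y]
  have hP0 : 0 < 1 + y ^ 2 := by linarith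
  have hx2 : 0 < x ^ 2 := by positivity
  have hT : 1 ≤ 1 + x ^ 2 + z ^ 2 := by nlinarith [sq_nonneg x, sq_nonneg z]
  have hY : 0 < x ^ 2 * (1 + y ^ 2) := by positivity
  have hz0 : 0 < x * y / 2 := by positivity
  have hzz : (x * y / 2) ^ 2 ≤ z ^ 2 := pow_le_pow_left₀ hz0.le hz 2
  have hT4 : x ^ 2 * (1 + y ^ 2) / 4 ≤ 1 + x ^ 2 + z ^ 2 := by nlinarith
  have h1 : (1 + x ^ 2 + z ^ 2) ^ (-(1 + 2 * δ) / 2) ≤ (1 + x ^ 2 + z ^ 2) ^ (-t) :=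
    Real.rpow_le_rpow_of_exponent_le hT (by linarith)
  have h2 : (1 + x ^ 2 + z ^ 2) ^ (-t) ≤ (x ^ 2 * (1 + y ^ 2) / 4) ^ (-t) :=
    Real.rpow_le_rpow_of_nonpos (by positivity) hT4 (by linarith)
  have h3 : (x ^ 2 * (1 + y ^ 2) / 4) ^ (-t) = (4 : ℝ) ^ t * ((x ^ 2) ^ (-t) * (1 + y ^ 2) ^ (-t)) := by
    rw [Real.div_rpow hY.le (by norm_num), Real.mul_rpow hx2.le hP0.le, Real.rpow_neg (by norm_num : (0 : ℝ) ≤ 4)]
    rw [div_inv_eq_mul, mul_comm]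
  have h4 : (4 : ℝ) ^ t ≤ 4 := by
    calc (4 : ℝ) ^ t ≤ (4 : ℝ) ^ (1 : ℝ) := Real.rpow_le_rpow_of_exponent_le (by norm_num) (by linarith)
      _ = 4 := Real.rpow_one 4
  have h5 : (x ^ 2) ^ (-t) = x ^ (-2 * t) := by
    have := an1b_sq hx (-2 * t)
    rw [← this]
    congr 1
    ring
  have h6 : (1 + y ^ 2) ^ (-t) ≤ an1b_g δ y * (1 + y ^ 2) ^ δ := by
    calc (1 + y ^ 2) ^ (-t) ≤ (1 + y ^ 2) ^ (-(1 + δ) / 2 + δ) := Real.rpow_le_rpow_of_exponent_le hP (by linarith)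
      _ = (1 + y ^ 2) ^ (-(1 + δ) / 2) * (1 + y ^ 2) ^ δ := Real.rpow_add hP0 _ _
      _ ≤ an1b_g δ y * (1 + y ^ 2) ^ δ := mul_le_mul_of_nonneg_right (an1b_L0 hδ hδ1 hy) (Real.rpow_nonneg hP0.le _)
  have h7 : 0 ≤ x ^ (-2 * t) := Real.rpow_nonneg hx.le _
  have h8 : 0 ≤ (1 + y ^ 2) ^ (-t) := Real.rpow_nonneg hP0.le _
  calc (1 + x ^ 2 + z ^ 2) ^ (-(1 + 2 * δ) / 2) ≤ (4 : ℝ) ^ t * ((x ^ 2) ^ (-t) * (1 + y ^ 2) ^ (-t)) := by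
        rw [← h3]
        exact h1.trans h2
    _ = (4 : ℝ) ^ t * (x ^ (-2 * t) * (1 + y ^ 2) ^ (-t)) := by rw [h5]
    _ ≤ 4 * (x ^ (-2 * t) * (an1b_g δ y * (1 + y ^ 2) ^ δ)) :=
        mul_le_mul h4 (mul_le_mul_of_nonneg_left h6 h7) (mul_nonneg h7 h8) (by norm_num)
    _ = 4 * (x ^ (-2 * t) * an1b_g δ y) * (1 + y ^ 2) ^ δ := by ring

theorem an1b_L1 {δ x y z : ℝ} (hδ : 0 < δ) (hδ1 : δ ≤ 1 / 2) (hx : 0 < x) (hy : 0 < y) (hz : x * y / 2 ≤ z) :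
    (1 + x ^ 2 + z ^ 2) ^ (-(1 + 2 * δ) / 2) ≤ 4 * (an1b_g δ x * an1b_g δ y) * (1 + y ^ 2) ^ δ := by
  have h1 := an1b_L1s hδ hδ1 hx hy hz (t := (1 - δ) / 2) le_rfl (by linarith)
  have h2 := an1b_L1s hδ hδ1 hx hy hz (t := (1 + δ) / 2) (by linarith) le_rfl
  have e1 : -2 * ((1 - δ) / 2) = -1 + δ := by ring
  have e2 : -2 * ((1 + δ) / 2) = -1 - δ := by ring
  rw [e1] at h1
  rw [e2] at h2
  rcases min_choice (x ^ (-1 + δ)) (x ^ (-1 - δ)) with h | h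
  · have : an1b_g δ x = x ^ (-1 + δ) := h
    rw [this]
    exact h1
  · have : an1b_g δ x = x ^ (-1 - δ) := h
    rw [this]
    exact h2

theorem an1b_pw (d : ℕ) (δ : ℝ) {T : ℝ} (hT : 0 < T) : T ^ (-((d : ℝ) * (1 + 2 * δ)) / 2) = (T ^ (-(1 + 2 * δ) / 2)) ^ d := by
  rw [← Real.rpow_natCast, ← Real.rpow_mul hT.le]
  congr 1
  ring

theorem an1b_case (d : ℕ) {δ x y z w : ℝ} (hδ : 0 < δ) (hδ1 : δ ≤ 1 / 2) (hx : 0 < x) (hy : 0 < y) (hz : x * y / 2 ≤ z) :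
    (1 + x ^ 2 + z ^ 2) ^ (-((d : ℝ) * (1 + 2 * δ)) / 2) * (1 + y ^ 2 + w ^ 2) ^ (-((d : ℝ) * (1 + 2 * δ)) / 2) ≤
      (4 * (an1b_g δ x * an1b_g δ y)) ^ d * (1 + y ^ 2) ^ ((d : ℝ) * δ) * (1 + y ^ 2 + w ^ 2) ^ (-((d : ℝ) * (1 + 2 * δ)) / 2) := by
  have hT : 0 < 1 + x ^ 2 + z ^ 2 := by positivity
  have hP0 : 0 < 1 + y ^ 2 := by positivity
  refine mul_le_mul_of_nonneg_right ?_ (Real.rpow_nonneg (by positivity) _)
  rw [an1b_pw d δ hT]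
  have h1 := pow_le_pow_left₀ (Real.rpow_nonneg hT.le _) (an1b_L1 hδ hδ1 hx hy hz) d
  refine h1.trans (le_of_eq ?_)
  rw [mul_pow]
  congr 1
  rw [← Real.rpow_natCast, ← Real.rpow_mul hP0.le, mul_comm]

theorem an1b_pt (d : ℕ) {δ x y z w : ℝ} (hδ : 0 < δ) (hδ1 : δ ≤ 1 / 2) (hx : 0 < x) (hy : 0 < y) (hzw : x * y ≤ z + w) :
    (1 + x ^ 2 + z ^ 2) ^ (-((d : ℝ) * (1 + 2 * δ)) / 2) * (1 + y ^ 2 + w ^ 2) ^ (-((d : ℝ) * (1 + 2 * δ)) / 2) ≤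
      (4 * (an1b_g δ x * an1b_g δ y)) ^ d * (1 + y ^ 2) ^ ((d : ℝ) * δ) * (1 + y ^ 2 + w ^ 2) ^ (-((d : ℝ) * (1 + 2 * δ)) / 2) +
      (4 * (an1b_g δ x * an1b_g δ y)) ^ d * (1 + x ^ 2) ^ ((d : ℝ) * δ) * (1 + x ^ 2 + z ^ 2) ^ (-((d : ℝ) * (1 + 2 * δ)) / 2) := by
  have hgx := an1b_gpos δ hx
  have hgy := an1b_gpos δ hy
  have p1 : 0 ≤ (4 * (an1b_g δ x * an1b_g δ y)) ^ d * (1 + y ^ 2) ^ ((d : ℝ) * δ) *
      (1 + y ^ 2 + w ^ 2) ^ (-((d : ℝ) * (1 + 2 * δ)) / 2) := by positivity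
  have p2 : 0 ≤ (4 * (an1b_g δ x * an1b_g δ y)) ^ d * (1 + x ^ 2) ^ ((d : ℝ) * δ) *
      (1 + x ^ 2 + z ^ 2) ^ (-((d : ℝ) * (1 + 2 * δ)) / 2) := by positivity
  rcases le_or_gt (x * y / 2) z with h | h
  · have := an1b_case d (w := w) hδ hδ1 hx hy h
    linarith
  · have := an1b_case d (w := z) hδ hδ1 hy hx (by linarith : y * x / 2 ≤ w)
    rw [mul_comm (an1b_g δ y)] at this
    rw [mul_comm ((1 + x ^ 2 + z ^ 2) ^ (-((d : ℝ) * (1 + 2 * δ)) / 2))]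
    linarith

/-! ### The integral -/

theorem an1b_int {E : Type} [NormedAddCommGroup E] [NormedSpace ℝ E] [FiniteDimensional ℝ E] [MeasurableSpace E] [BorelSpace E]
    (μ : Measure E) [μ.IsAddHaarMeasure] {d : ℕ} (hd : Module.finrank ℝ E = d) {r : ℝ} (hr : (d : ℝ) < r) :
    ∃ C : ℝ, 0 < C ∧ ∀ (P c : ℝ) (b : E), 0 < P → 0 < c →
      ∫⁻ x, ENNReal.ofReal ((P + (c * ‖x + b‖) ^ 2) ^ (-r / 2)) ∂μ ≤ ENNReal.ofReal (C * (c ^ d)⁻¹ * P ^ (((d : ℝ) - r) / 2)) := by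
  have hint : Integrable (fun x : E => ((1 : ℝ) + ‖x‖ ^ 2) ^ (-r / 2)) μ := integrable_rpow_neg_one_add_norm_sq (by rw [hd]; exact hr)
  have hnn : ∀ x : E, 0 ≤ ((1 : ℝ) + ‖x‖ ^ 2) ^ (-r / 2) := fun x => Real.rpow_nonneg (by positivity) _
  have hI0 : (0 : ℝ) ≤ ∫ x : E, ((1 : ℝ) + ‖x‖ ^ 2) ^ (-r / 2) ∂μ := integral_nonneg hnn
  refine ⟨(∫ x : E, ((1 : ℝ) + ‖x‖ ^ 2) ^ (-r / 2) ∂μ) + 1, by linarith, fun P c b hP hc => ?_⟩
  obtain ⟨R, hR⟩ : ∃ R : ℝ, R = c * P ^ (-(1 / 2) : ℝ) := ⟨_, rfl⟩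
  have hPp : 0 < P ^ (-(1 / 2) : ℝ) := Real.rpow_pos_of_pos hP _
  have hR0 : 0 < R := by
    rw [hR]
    positivity
  have e1 : ∀ x : E, ((P + (c * ‖x + b‖) ^ 2) ^ (-r / 2) : ℝ) = P ^ (-r / 2) * ((1 : ℝ) + ‖R • (x + b)‖ ^ 2) ^ (-r / 2) := by
    intro x
    have h1 : P + (c * ‖x + b‖) ^ 2 = P * (1 + ‖R • (x + b)‖ ^ 2) := by
      rw [norm_smul, Real.norm_eq_abs, abs_of_pos hR0, hR]
      have h2 : (P ^ (-(1 / 2) : ℝ)) ^ 2 = P⁻¹ := by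
        rw [← Real.rpow_natCast, ← Real.rpow_mul hP.le, ← Real.rpow_neg_one]
        congr 1
        norm_num
      have h3 : (c * P ^ (-(1 / 2) : ℝ) * ‖x + b‖) ^ 2 = (P ^ (-(1 / 2) : ℝ)) ^ 2 * (c * ‖x + b‖) ^ 2 := by ring
      rw [h3, h2, mul_add, mul_one, ← mul_assoc, mul_inv_cancel₀ hP.ne', one_mul]
    rw [h1, Real.mul_rpow hP.le (by positivity)]
  have e2 : ∫⁻ x, ENNReal.ofReal ((P + (c * ‖x + b‖) ^ 2) ^ (-r / 2)) ∂μ =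
      ENNReal.ofReal (P ^ (-r / 2)) * ∫⁻ x, ENNReal.ofReal (((1 : ℝ) + ‖R • x‖ ^ 2) ^ (-r / 2)) ∂μ := by
    have h1 : ∀ x : E, ENNReal.ofReal ((P + (c * ‖x + b‖) ^ 2) ^ (-r / 2)) =
        ENNReal.ofReal (P ^ (-r / 2)) * ENNReal.ofReal (((1 : ℝ) + ‖R • (x + b)‖ ^ 2) ^ (-r / 2)) := fun x => by
      rw [e1, ENNReal.ofReal_mul (Real.rpow_nonneg hP.le _)]
    rw [lintegral_congr h1, lintegral_const_mul']
    · congr 1
      exact lintegral_add_right_eq_self (fun x => ENNReal.ofReal (((1 : ℝ) + ‖R • x‖ ^ 2) ^ (-r / 2))) b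
    · exact ENNReal.ofReal_ne_top
  have e3 : ∫⁻ x, ENNReal.ofReal (((1 : ℝ) + ‖R • x‖ ^ 2) ^ (-r / 2)) ∂μ =
      ENNReal.ofReal ((R ^ d)⁻¹ * ∫ x : E, ((1 : ℝ) + ‖x‖ ^ 2) ^ (-r / 2) ∂μ) := by
    rw [← ofReal_integral_eq_lintegral_ofReal (hint.comp_smul hR0.ne') (Filter.Eventually.of_forall fun x => hnn _)]
    rw [Measure.integral_comp_smul μ (fun x : E => ((1 : ℝ) + ‖x‖ ^ 2) ^ (-r / 2)) R, hd, smul_eq_mul, abs_of_pos (by positivity)]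
  rw [e2, e3, ← ENNReal.ofReal_mul (Real.rpow_nonneg hP.le _)]
  refine ENNReal.ofReal_le_ofReal ?_
  have h2 : (R ^ d)⁻¹ = (c ^ d)⁻¹ * P ^ ((d : ℝ) / 2) := by
    rw [hR, mul_pow, mul_inv, ← Real.rpow_natCast (P ^ (-(1 / 2) : ℝ)) d, ← Real.rpow_mul hP.le, ← Real.rpow_neg hP.le]
    congr 2
    ring
  have h3 : P ^ (-r / 2) * P ^ ((d : ℝ) / 2) = P ^ (((d : ℝ) - r) / 2) := by
    rw [← Real.rpow_add hP]
    congr 1
    ring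
  calc P ^ (-r / 2) * ((R ^ d)⁻¹ * ∫ x : E, ((1 : ℝ) + ‖x‖ ^ 2) ^ (-r / 2) ∂μ)
      = (∫ x : E, ((1 : ℝ) + ‖x‖ ^ 2) ^ (-r / 2) ∂μ) * (c ^ d)⁻¹ * P ^ (((d : ℝ) - r) / 2) := by
        rw [h2, ← h3]
        ring
    _ ≤ ((∫ x : E, ((1 : ℝ) + ‖x‖ ^ 2) ^ (-r / 2) ∂μ) + 1) * (c ^ d)⁻¹ * P ^ (((d : ℝ) - r) / 2) := by
        refine mul_le_mul_of_nonneg_right (mul_le_mul_of_nonneg_right (by linarith) (by positivity)) (Real.rpow_nonneg hP.le _)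

/-- both cases at once -/
theorem an1b_gen {E : Type} [NormedAddCommGroup E] [NormedSpace ℝ E] [FiniteDimensional ℝ E] [MeasurableSpace E] [BorelSpace E]
    (μ : Measure E) [μ.IsAddHaarMeasure] {d : ℕ} (hd : Module.finrank ℝ E = d) (hd0 : 0 < d) {δ : ℝ} (hδ : 0 < δ) (hδ1 : δ ≤ 1 / 2) :
    ∃ C : ℝ, 0 < C ∧ ∀ (A A' : ℝ) (a a' η : ℂ) (z z' : E → ℂ) (b b' : E), η ≠ 0 → (∀ x, ‖a‖ * ‖a'‖ ≤ ‖z x‖ + ‖z' x‖) →
      (∀ x, ‖η‖ * ‖x + b‖ ≤ ‖z x‖) → (∀ x, ‖η‖ * ‖x + b'‖ ≤ ‖z' x‖) →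
      ∫⁻ x, ENNReal.ofReal (hT A A' a (z x) ^ (-((d : ℝ) * (1 + 2 * δ)) / 2)) *
        ENNReal.ofReal (hT A' A a' (z' x) ^ (-((d : ℝ) * (1 + 2 * δ)) / 2)) ∂μ ≤
        ENNReal.ofReal (C / ‖η‖ ^ d * Real.exp (d * (A + A'))) *
          (gD δ (Real.exp (-A) * ‖a‖) * gD δ (Real.exp (-A') * ‖a'‖)) ^ d := by
  have hdr : (0 : ℝ) < d := by exact_mod_cast hd0
  obtain ⟨C0, hC0, hI⟩ := an1b_int μ hd (r := (d : ℝ) * (1 + 2 * δ)) (by nlinarith)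
  refine ⟨2 * 4 ^ d * C0, by positivity, fun A A' a a' η z z' b b' hη hzz hz hz' => ?_⟩
  have hη0 : 0 < ‖η‖ := norm_pos_iff.2 hη
  by_cases ha : a = 0 ∨ a' = 0
  · have htop : gD δ (Real.exp (-A) * ‖a‖) * gD δ (Real.exp (-A') * ‖a'‖) = ⊤ := by
      rcases ha with rfl | rfl
      · rw [norm_zero, mul_zero, an1b_gD0 hδ hδ1 le_rfl]
        exact ENNReal.top_mul (an1b_gDne hδ hδ1 _)
      · rw [norm_zero, mul_zero, an1b_gD0 hδ hδ1 le_rfl]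
        exact ENNReal.mul_top (an1b_gDne hδ hδ1 _)
    rw [htop, ENNReal.top_pow hd0.ne', ENNReal.mul_top]
    · exact le_top
    · exact (ENNReal.ofReal_pos.2 (by positivity)).ne'
  · push Not at ha
    obtain ⟨X, hX⟩ : ∃ X : ℝ, X = Real.exp (-A) * ‖a‖ := ⟨_, rfl⟩
    obtain ⟨Y, hY⟩ : ∃ Y : ℝ, Y = Real.exp (-A') * ‖a'‖ := ⟨_, rfl⟩
    have hX0 : 0 < X := by
      rw [hX]
      exact mul_pos (Real.exp_pos _) (norm_pos_iff.2 ha.1)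
    have hY0 : 0 < Y := by
      rw [hY]
      exact mul_pos (Real.exp_pos _) (norm_pos_iff.2 ha.2)
    obtain ⟨c, hc⟩ : ∃ c : ℝ, c = Real.exp (-A - A') * ‖η‖ := ⟨_, rfl⟩
    have hc0 : 0 < c := by
      rw [hc]
      exact mul_pos (Real.exp_pos _) hη0
    obtain ⟨K, hK⟩ : ∃ K : ℝ, K = (4 * (an1b_g δ X * an1b_g δ Y)) ^ d := ⟨_, rfl⟩
    have hgX := an1b_gpos δ hX0
    have hgY := an1b_gpos δ hY0
    have hK0 : 0 < K := by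
      rw [hK]
      positivity
    have hXY : X * Y = Real.exp (-A - A') * (‖a‖ * ‖a'‖) := by
      rw [hX, hY, sub_eq_add_neg, Real.exp_add]
      ring
    have hpt : ∀ x, ENNReal.ofReal (hT A A' a (z x) ^ (-((d : ℝ) * (1 + 2 * δ)) / 2)) *
        ENNReal.ofReal (hT A' A a' (z' x) ^ (-((d : ℝ) * (1 + 2 * δ)) / 2)) ≤
        ENNReal.ofReal (K * (1 + Y ^ 2) ^ ((d : ℝ) * δ)) *
          ENNReal.ofReal ((1 + Y ^ 2 + (c * ‖x + b'‖) ^ 2) ^ (-((d : ℝ) * (1 + 2 * δ)) / 2)) +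
        ENNReal.ofReal (K * (1 + X ^ 2) ^ ((d : ℝ) * δ)) *
          ENNReal.ofReal ((1 + X ^ 2 + (c * ‖x + b‖) ^ 2) ^ (-((d : ℝ) * (1 + 2 * δ)) / 2)) := by
      intro x
      have h1 : hT A A' a (z x) = 1 + X ^ 2 + (Real.exp (-A - A') * ‖z x‖) ^ 2 := by
        rw [hX]
        rfl
      have h2 : hT A' A a' (z' x) = 1 + Y ^ 2 + (Real.exp (-A - A') * ‖z' x‖) ^ 2 := by
        rw [hY]
        unfold hT
        congr 4
        ring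
      have hE := Real.exp_pos (-A - A')
      have h3 : X * Y ≤ Real.exp (-A - A') * ‖z x‖ + Real.exp (-A - A') * ‖z' x‖ := by
        rw [hXY, ← mul_add]
        exact mul_le_mul_of_nonneg_left (hzz x) hE.le
      have h4 := an1b_pt d hδ hδ1 hX0 hY0 h3
      rw [← hK] at h4
      have h5 : (1 + Y ^ 2 + (Real.exp (-A - A') * ‖z' x‖) ^ 2) ^ (-((d : ℝ) * (1 + 2 * δ)) / 2) ≤
          (1 + Y ^ 2 + (c * ‖x + b'‖) ^ 2) ^ (-((d : ℝ) * (1 + 2 * δ)) / 2) := by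
        refine Real.rpow_le_rpow_of_nonpos (by positivity) ?_ ?_
        · have h6 : c * ‖x + b'‖ ≤ Real.exp (-A - A') * ‖z' x‖ := by
            rw [hc, mul_assoc]
            exact mul_le_mul_of_nonneg_left (hz' x) hE.le
          have h7 := pow_le_pow_left₀ (by positivity) h6 2
          linarith
        · have h8 : 0 < (d : ℝ) * (1 + 2 * δ) := by positivity
          linarith
      have h6 : (1 + X ^ 2 + (Real.exp (-A - A') * ‖z x‖) ^ 2) ^ (-((d : ℝ) * (1 + 2 * δ)) / 2) ≤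
          (1 + X ^ 2 + (c * ‖x + b‖) ^ 2) ^ (-((d : ℝ) * (1 + 2 * δ)) / 2) := by
        refine Real.rpow_le_rpow_of_nonpos (by positivity) ?_ ?_
        · have h6 : c * ‖x + b‖ ≤ Real.exp (-A - A') * ‖z x‖ := by
            rw [hc, mul_assoc]
            exact mul_le_mul_of_nonneg_left (hz x) hE.le
          have h7 := pow_le_pow_left₀ (by positivity) h6 2
          linarith
        · have h8 : 0 < (d : ℝ) * (1 + 2 * δ) := by positivity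
          linarith
      have k1 : 0 ≤ K * (1 + Y ^ 2) ^ ((d : ℝ) * δ) := by positivity
      have k2 : 0 ≤ K * (1 + X ^ 2) ^ ((d : ℝ) * δ) := by positivity
      rw [← ENNReal.ofReal_mul (Real.rpow_nonneg (by rw [h1]; positivity) _), ← ENNReal.ofReal_mul k1, ← ENNReal.ofReal_mul k2,
        ← ENNReal.ofReal_add (by positivity) (by positivity), h1, h2]
      refine ENNReal.ofReal_le_ofReal (h4.trans (add_le_add ?_ ?_))
      · exact mul_le_mul_of_nonneg_left h5 k1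
      · exact mul_le_mul_of_nonneg_left h6 k2
    refine (lintegral_mono hpt).trans ?_
    have hmeas : ∀ (P : ℝ) (b : E), Measurable fun x : E =>
        ENNReal.ofReal ((P + (c * ‖x + b‖) ^ 2) ^ (-((d : ℝ) * (1 + 2 * δ)) / 2)) := by
      intro P b
      fun_prop
    rw [lintegral_add_left ((hmeas _ _).const_mul _), lintegral_const_mul _ (hmeas _ _), lintegral_const_mul _ (hmeas _ _)]
    have hfin : ∀ (P : ℝ) (b : E), 0 < P → ENNReal.ofReal (K * P ^ ((d : ℝ) * δ)) *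
        ∫⁻ x, ENNReal.ofReal ((P + (c * ‖x + b‖) ^ 2) ^ (-((d : ℝ) * (1 + 2 * δ)) / 2)) ∂μ ≤ ENNReal.ofReal (K * (C0 * (c ^ d)⁻¹)) := by
      intro P b hP
      refine (mul_le_mul_right (hI P c b hP hc0) _).trans ?_
      rw [← ENNReal.ofReal_mul (by positivity)]
      refine ENNReal.ofReal_le_ofReal (le_of_eq ?_)
      have h9 : P ^ ((d : ℝ) * δ) * P ^ (((d : ℝ) - (d : ℝ) * (1 + 2 * δ)) / 2) = 1 := by
        rw [← Real.rpow_add hP]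
        have : (d : ℝ) * δ + ((d : ℝ) - (d : ℝ) * (1 + 2 * δ)) / 2 = 0 := by ring
        rw [this, Real.rpow_zero]
      calc K * P ^ ((d : ℝ) * δ) * (C0 * (c ^ d)⁻¹ * P ^ (((d : ℝ) - (d : ℝ) * (1 + 2 * δ)) / 2))
          = K * (C0 * (c ^ d)⁻¹) * (P ^ ((d : ℝ) * δ) * P ^ (((d : ℝ) - (d : ℝ) * (1 + 2 * δ)) / 2)) := by ring
        _ = K * (C0 * (c ^ d)⁻¹) := by rw [h9, mul_one]
    refine (add_le_add (hfin _ _ (by positivity)) (hfin _ _ (by positivity))).trans ?_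
    rw [← hX, ← hY, an1b_gD δ hX0, an1b_gD δ hY0, ← ENNReal.ofReal_mul hgX.le, ← ENNReal.ofReal_pow (by positivity),
      ← ENNReal.ofReal_mul (by positivity), ← ENNReal.ofReal_add (by positivity) (by positivity)]
    refine ENNReal.ofReal_le_ofReal (le_of_eq ?_)
    have hcd : (c ^ d)⁻¹ = Real.exp (d * (A + A')) / ‖η‖ ^ d := by
      rw [hc, mul_pow, mul_inv, ← Real.exp_nat_mul, ← Real.exp_neg, div_eq_mul_inv]
      congr 2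
      ring
    rw [hcd, hK, mul_pow]
    ring

/-- **One real place.** PROOF. Put `X = e^(-A)|a|`, `X' = e^(-A')|a'|`, `u = e^(-A-A')`, `Z(x) = u (-(a a')/2 + η x)`, `Z'(x) = u (-(a a')/2 - η x)`, `T = 1 + X² + |Z|²`, `T' = 1 + X'² + |Z'|²`. `|Z| + |Z'| ≥ |Z + Z'| = X X'`, so `|Z| ≥ X X' / 2`
or `|Z'| ≥ X X' / 2`. In the first case `T ≥ 1 + X² + X² X'² / 4 ≥ (1/4) max (1, X² P')`, `P' = 1 + X'²`, and `T^(-(1+2δ)/2) ≤ C max(1, X² P')^(-1/2-δ) ≤ C (X² P')^(-θ)` for every `0 ≤ θ ≤ 1/2 + δ`; so the integrand is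
`≤ C (X² P')^(-θ) T'^(-(1+2δ)/2)`, and `∫ T'(x)^(-(1+2δ)/2) dx ≤ C (u |η|)^(-1) P'^(-δ)` (`|Z'(x)| ≥ u |η| |x + Re(a a' / (2η))|`, translation and scaling, `∫ (P' + y²)^(-(1+2δ)/2) dy = P'^(-δ) ∫ (1 + y²)^(-(1+2δ)/2) dy`).
With `θ = 1/2 ± δ/2`: `X^(-1 ∓ δ) P'^(-1/2 - δ ∓ δ/2)`, and `P'^(-1/2 - δ ∓ δ/2) ≤ P'^(-1/2 - δ/2) ≤ X'^(-1-δ)`, and also `≤ X'^(-1+δ)` (`P'^(-1/2-δ/2) ≤ P'^(-1/2+δ/2) ≤ X'^(-1+δ)`, since `P' ≥ 1` and `P' ≥ X'²`). So the first part is `≤ C (u |η|)^(-1) gD X * gD X'` (if `X = 0` or `X' = 0` the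
right hand side is `∞`: `gD δ 0 = ∞`, `gD δ x ≠ 0`). The second case is the same with the roles exchanged. Bound the integrand by the SUM of the two bounds. -/
theorem an1_real {δ : ℝ} (hδ : 0 < δ) (hδ1 : δ ≤ 1 / 2) : ∃ C : ℝ, 0 < C ∧ ∀ (A A' : ℝ) (a a' η : ℂ), η ≠ 0 →
    ∫⁻ x : ℝ, ENNReal.ofReal (hT A A' a (-(a * a') / 2 + η * (x : ℂ)) ^ (-(1 + 2 * δ) / 2)) * ENNReal.ofReal (hT A' A a' (-(a * a') / 2 - η * (x : ℂ)) ^ (-(1 + 2 * δ) / 2)) ≤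
      ENNReal.ofReal (C / ‖η‖ * Real.exp (A + A')) * (gD δ (Real.exp (-A) * ‖a‖) * gD δ (Real.exp (-A') * ‖a'‖)) := by
  obtain ⟨C, hC, h⟩ := an1b_gen (volume : Measure ℝ) (d := 1) (Module.finrank_self ℝ) one_pos hδ hδ1
  refine ⟨C, hC, fun A A' a a' η hη => ?_⟩
  have hη0 : 0 < ‖η‖ := norm_pos_iff.2 hη
  have key : ∀ (w : ℂ) (x : ℝ), ‖η‖ * ‖x + (w / η).re‖ ≤ ‖w + η * (x : ℂ)‖ := by
    intro w x
    have e1 : w + η * (x : ℂ) = η * ((x : ℂ) + w / η) := by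
      field_simp
      ring
    rw [e1, norm_mul]
    refine mul_le_mul_of_nonneg_left ?_ hη0.le
    have e2 : x + (w / η).re = ((x : ℂ) + w / η).re := by
      rw [Complex.add_re, Complex.ofReal_re]
    rw [e2]
    exact Complex.abs_re_le_norm _
  have h1 := h A A' a a' η (fun x => -(a * a') / 2 + η * (x : ℂ)) (fun x => -(a * a') / 2 - η * (x : ℂ))
    ((-(a * a') / 2) / η).re (((a * a') / 2) / η).re hη (fun x => by
      have e1 : -(a * a') = (-(a * a') / 2 + η * (x : ℂ)) + (-(a * a') / 2 - η * (x : ℂ)) := by ring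
      have e2 := norm_add_le (-(a * a') / 2 + η * (x : ℂ)) (-(a * a') / 2 - η * (x : ℂ))
      rw [← e1, norm_neg, norm_mul] at e2
      exact e2) (fun x => key _ x) (fun x => by
      have e1 := key ((a * a') / 2) x
      have e2 : -(a * a') / 2 - η * (x : ℂ) = -((a * a') / 2 + η * (x : ℂ)) := by ring
      show _ ≤ ‖-(a * a') / 2 - η * (x : ℂ)‖
      rw [e2, norm_neg]
      exact e1)
  simpa only [Nat.cast_one, one_mul, pow_one] using h1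

/-- **One complex place.** PROOF: as `an1_real` with the squares: `∫_ℂ (P' + |y|²)^(-(1+2δ)) dy = P'^(-2δ) ∫_ℂ (1 + |y|²)^(-(1+2δ)) dy` (`integrable_rpow_neg_one_add_norm_sq`, finrank 2 < 2 (1 + 2δ)), scaling by `u |η|` gives the power `-2`; `cjb ε` preserves the
measure of `ℂ` (or: substitute). -/
theorem an1_cplx {δ : ℝ} (hδ : 0 < δ) (hδ1 : δ ≤ 1 / 2) : ∃ C : ℝ, 0 < C ∧ ∀ (A A' : ℝ) (a a' η : ℂ) (ε : Bool), η ≠ 0 →
    ∫⁻ x : ℂ, ENNReal.ofReal (hT A A' a (-(a * a') / 2 + η * cjb ε x) ^ (-(1 + 2 * δ))) * ENNReal.ofReal (hT A' A a' (-(a * a') / 2 - η * cjb ε x) ^ (-(1 + 2 * δ))) ≤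
      ENNReal.ofReal (C / ‖η‖ ^ 2 * Real.exp (2 * (A + A'))) * (gD δ (Real.exp (-A) * ‖a‖) * gD δ (Real.exp (-A') * ‖a'‖)) ^ 2 := by
  obtain ⟨C, hC, h⟩ := an1b_gen (volume : Measure ℂ) (d := 2) Complex.finrank_real_complex two_pos hδ hδ1
  refine ⟨C, hC, fun A A' a a' η ε hη => ?_⟩
  have hη0 : 0 < ‖η‖ := norm_pos_iff.2 hη
  have key : ∀ (w x : ℂ), ‖η‖ * ‖x + cjb ε (w / η)‖ ≤ ‖w + η * cjb ε x‖ := by
    intro w x
    have e1 : w + η * cjb ε x = η * (cjb ε x + w / η) := by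
      field_simp
      ring
    rw [e1, norm_mul]
    refine mul_le_mul_of_nonneg_left (le_of_eq ?_) hη0.le
    rw [← cjb_norm ε (x + cjb ε (w / η)), map_add, cjb_cjb]
  have h1 := h A A' a a' η (fun x => -(a * a') / 2 + η * cjb ε x) (fun x => -(a * a') / 2 - η * cjb ε x)
    (cjb ε ((-(a * a') / 2) / η)) (cjb ε (((a * a') / 2) / η)) hη (fun x => by
      have e1 : -(a * a') = (-(a * a') / 2 + η * cjb ε x) + (-(a * a') / 2 - η * cjb ε x) := by ring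
      have e2 := norm_add_le (-(a * a') / 2 + η * cjb ε x) (-(a * a') / 2 - η * cjb ε x)
      rw [← e1, norm_neg, norm_mul] at e2
      exact e2) (fun x => key _ x) (fun x => by
      have e1 := key ((a * a') / 2) x
      have e2 : -(a * a') / 2 - η * cjb ε x = -((a * a') / 2 + η * cjb ε x) := by ring
      show _ ≤ ‖-(a * a') / 2 - η * cjb ε x‖
      rw [e2, norm_neg]
      exact e1)
  have e3 : (-(((2 : ℕ) : ℝ) * (1 + 2 * δ)) / 2) = -(1 + 2 * δ) := by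
    push_cast
    ring
  have e4 : Real.exp (((2 : ℕ) : ℝ) * (A + A')) = Real.exp (2 * (A + A')) := by push_cast; rfl
  rw [e3, e4] at h1
  exact h1

end

end Pool.Agent.Lib.L8.QF
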