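import Pool.Agent.Lib.L8.QF.AN1

/-!
# QF, module C5Q, AN1C (design helper33): the outer integral at one place
-/

namespace Pool.Agent.Lib.L8.QF

open MeasureTheory Matrix NumberField NumberField.InfinitePlace IsDedekindDomain Pool.Agent.Lib.H89N Pool.Agent.Lib.H33W Pool.Agent.Lib.H67G Pool.Agent.Lib.L1S Pool.Agent.Lib.L8.FL
open scoped ENNReal Pointwise

noncomputable section

set_option linter.unusedSectionVars false
set_option linter.unusedVariables false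

theorem an1c_scale {E : Type*} [NormedAddCommGroup E] [NormedSpace ℝ E] [FiniteDimensional ℝ E] [MeasurableSpace E] [BorelSpace E]
    (μ : Measure E) [μ.IsAddHaarMeasure] (g : E → ℝ≥0∞) (hg : Measurable g) (A : ℝ) :
    ∫⁻ z, g (Real.exp (-A) • z) ∂μ = ENNReal.ofReal (Real.exp ((Module.finrank ℝ E : ℝ) * A)) * ∫⁻ z, g z ∂μ := by
  have hr : Real.exp (-A) ≠ 0 := (Real.exp_pos _).ne'
  have h1 := Measure.map_addHaar_smul μ hr
  have h2 : ∫⁻ z, g z ∂(Measure.map (fun z : E => Real.exp (-A) • z) μ) = ∫⁻ z, g (Real.exp (-A) • z) ∂μ :=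
    lintegral_map hg (measurable_const_smul _)
  rw [← h2, h1, lintegral_smul_measure]
  congr 2
  rw [← Real.exp_nat_mul, ← Real.exp_neg, abs_of_pos (Real.exp_pos _)]
  congr 1
  ring

theorem an1c_fin {E : Type*} [NormedAddCommGroup E] [NormedSpace ℝ E] [FiniteDimensional ℝ E] [MeasurableSpace E] [BorelSpace E] [Nontrivial E]
    (μ : Measure E) [μ.IsAddHaarMeasure] {δ : ℝ} (hδ : 0 < δ) :
    ∫⁻ z : E, gD δ ‖z‖ ^ (Module.finrank ℝ E) ∂μ < ⊤ := by
  set d : ℕ := Module.finrank ℝ E with hd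
  have hd0 : 0 < d := Module.finrank_pos
  have hdR : (0 : ℝ) < d := by exact_mod_cast hd0
  let φ : ℝ → ℝ := fun t => if t ≤ 1 then t ^ ((-1 + δ) * (d : ℝ)) else t ^ ((-1 - δ) * (d : ℝ))
  have hφ : Integrable (fun z : E => φ ‖z‖) μ := by
    rw [integrable_fun_norm_addHaar μ (f := φ)]
    have hU : Set.Ioi (0 : ℝ) = Set.Ioc 0 1 ∪ Set.Ioi 1 := (Set.Ioc_union_Ioi_eq_Ioi zero_le_one).symm
    rw [hU]
    have hcast : ((Module.finrank ℝ E - 1 : ℕ) : ℝ) = (d : ℝ) - 1 := by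
      rw [← hd, Nat.cast_sub hd0, Nat.cast_one]
    refine IntegrableOn.union ?_ ?_
    · have h1 : IntegrableOn (fun t : ℝ => t ^ (-1 + δ * (d : ℝ))) (Set.Ioc 0 1) := by
        have := intervalIntegral.intervalIntegrable_rpow' (a := 0) (b := 1) (r := -1 + δ * (d : ℝ))
          (by nlinarith [mul_pos hδ hdR])
        exact (intervalIntegrable_iff_integrableOn_Ioc_of_le zero_le_one).1 this
      refine h1.congr_fun ?_ measurableSet_Ioc
      intro t ht
      have h2 : φ t = t ^ ((-1 + δ) * (d : ℝ)) := if_pos ht.2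
      show t ^ (-1 + δ * (d : ℝ)) = t ^ (Module.finrank ℝ E - 1) • φ t
      rw [h2, smul_eq_mul, ← Real.rpow_natCast, hcast, ← Real.rpow_add ht.1]
      congr 1
      ring
    · have h1 : IntegrableOn (fun t : ℝ => t ^ (-1 - δ * (d : ℝ))) (Set.Ioi 1) :=
        integrableOn_Ioi_rpow_of_lt (by nlinarith [mul_pos hδ hdR]) one_pos
      refine h1.congr_fun ?_ measurableSet_Ioi
      intro t ht
      have ht1 : (1 : ℝ) < t := ht
      have h2 : φ t = t ^ ((-1 - δ) * (d : ℝ)) := if_neg (not_le.2 ht1)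
      show t ^ (-1 - δ * (d : ℝ)) = t ^ (Module.finrank ℝ E - 1) • φ t
      rw [h2, smul_eq_mul, ← Real.rpow_natCast, hcast, ← Real.rpow_add (one_pos.trans ht1)]
      congr 1
      ring
  refine lt_of_le_of_lt ?_ hφ.lintegral_lt_top
  refine lintegral_mono_ae ?_
  have h0 : ∀ᵐ z : E ∂μ, z ≠ 0 := by
    rw [ae_iff]
    simp
  filter_upwards [h0] with z hz
  have hz' : 0 < ‖z‖ := norm_pos_iff.2 hz
  have key : ∀ a : ℝ, (ENNReal.ofReal ‖z‖ ^ a) ^ d = ENNReal.ofReal (‖z‖ ^ (a * (d : ℝ))) := by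
    intro a
    rw [ENNReal.ofReal_rpow_of_pos hz', ← ENNReal.ofReal_pow (Real.rpow_nonneg hz'.le _), ← Real.rpow_natCast,
      ← Real.rpow_mul hz'.le]
  by_cases h : ‖z‖ ≤ 1
  · have h2 : φ ‖z‖ = ‖z‖ ^ ((-1 + δ) * (d : ℝ)) := if_pos h
    rw [h2, ← key]
    exact pow_le_pow_left' (min_le_left _ _) d
  · have h2 : φ ‖z‖ = ‖z‖ ^ ((-1 - δ) * (d : ℝ)) := if_neg h
    rw [h2, ← key]
    exact pow_le_pow_left' (min_le_right _ _) d

/-- **The outer integral at one place.** PROOF: scaling `z ↦ e^A z` (`Measure.lintegral_comp_smul` or `lintegral_map`), and `∫_ℝ min (|x|^(-1+δ), |x|^(-1-δ)) dx < ∞`, `∫_ℂ min(..)² dz < ∞` (polar coordinates `Complex.lintegral_comp_polarCoord_symm`, or `integrable_rpow_neg..`; alternatively dyadic annuli: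
`2^k ≤ |z| < 2^(k+1)` has measure `≤ C 4^k`). -/
theorem an1_gD {δ : ℝ} (hδ : 0 < δ) (hδ1 : δ ≤ 1 / 2) : ∃ C : ℝ, 0 < C ∧ ∀ (F : Type) [Field F] [NumberField F] (w : InfinitePlace F) (A : ℝ),
    oI w (fun z => gD δ (Real.exp (-A) * ‖z‖) ^ w.mult) ≤ ENNReal.ofReal (C * Real.exp ((w.mult : ℝ) * A)) := by
  classical
  have d1 : Module.finrank ℝ ℝ = 1 := Module.finrank_self ℝ
  have d2 : Module.finrank ℝ ℂ = 2 := Complex.finrank_real_complex
  have f1 := an1c_fin (E := ℝ) volume hδ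
  have f2 := an1c_fin (E := ℂ) volume hδ
  rw [d1] at f1
  rw [d2] at f2
  set I1 := ∫⁻ z : ℝ, gD δ ‖z‖ ^ 1 with hI1
  set I2 := ∫⁻ z : ℂ, gD δ ‖z‖ ^ 2 with hI2
  refine ⟨I1.toReal + I2.toReal + 1, by positivity, ?_⟩
  intro F _ _ w A
  have hfin : ∀ (I : ℝ≥0∞) (m : ℕ), I < ⊤ → I.toReal ≤ I1.toReal + I2.toReal + 1 →
      ENNReal.ofReal (Real.exp ((m : ℝ) * A)) * I ≤ ENNReal.ofReal ((I1.toReal + I2.toReal + 1) * Real.exp ((m : ℝ) * A)) := by
    intro I m hI hle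
    rw [← ENNReal.ofReal_toReal hI.ne, ← ENNReal.ofReal_mul (Real.exp_pos _).le]
    refine ENNReal.ofReal_le_ofReal ?_
    rw [mul_comm]
    exact mul_le_mul_of_nonneg_right hle (Real.exp_pos _).le
  have p1 : 0 ≤ I1.toReal := ENNReal.toReal_nonneg
  have p2 : 0 ≤ I2.toReal := ENNReal.toReal_nonneg
  unfold oI
  split_ifs with h
  · have hm : w.mult = 1 := by
      unfold InfinitePlace.mult
      exact if_pos h
    have hs := an1c_scale (E := ℝ) volume (fun z : ℝ => gD δ ‖z‖ ^ 1)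
      (((gD_meas δ).comp measurable_norm).pow_const _) A
    rw [d1] at hs
    have he : ∫⁻ x : ℝ, (fun z : ℂ => gD δ (Real.exp (-A) * ‖z‖) ^ w.mult) (x : ℂ) =
        ∫⁻ z : ℝ, gD δ ‖Real.exp (-A) • z‖ ^ 1 := by
      refine lintegral_congr fun x => ?_
      show gD δ (Real.exp (-A) * ‖(x : ℂ)‖) ^ w.mult = _
      rw [hm, norm_smul, Complex.norm_real, Real.norm_of_nonneg (Real.exp_pos _).le]
    rw [he, hs, hm]
    exact hfin I1 1 f1 (by linarith)
  · have hm : w.mult = 2 := by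
      unfold InfinitePlace.mult
      exact if_neg h
    have hs := an1c_scale (E := ℂ) volume (fun z : ℂ => gD δ ‖z‖ ^ 2)
      (((gD_meas δ).comp measurable_norm).pow_const _) A
    rw [d2] at hs
    have he : ∫⁻ x : ℂ, (fun z : ℂ => gD δ (Real.exp (-A) * ‖z‖) ^ w.mult) x =
        ∫⁻ z : ℂ, gD δ ‖Real.exp (-A) • z‖ ^ 2 := by
      refine lintegral_congr fun x => ?_
      show gD δ (Real.exp (-A) * ‖x‖) ^ w.mult = _
      rw [hm, norm_smul, Real.norm_of_nonneg (Real.exp_pos _).le]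
    rw [he, hs, hm]
    exact hfin I2 2 f2 (by linarith)

end

end Pool.Agent.Lib.L8.QF
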