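import Pool.Agent.Lib.L8.QF.AN1B
import Pool.Agent.Lib.L8.QF.AN1C

/-!
# QF, module C5Q, AN3 (design helper33): the integral for the adjacent pair
-/

namespace Pool.Agent.Lib.L8.QF

open MeasureTheory Matrix NumberField NumberField.InfinitePlace IsDedekindDomain Pool.Agent.Lib.H89N Pool.Agent.Lib.H33W Pool.Agent.Lib.H67G Pool.Agent.Lib.L1S Pool.Agent.Lib.L8.FL
open scoped ENNReal Pointwise

noncomputable section

set_option linter.unusedSectionVars false
set_option linter.unusedVariables false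

variable {K F : Type} [Field K] [NumberField K] [Field F] [NumberField F] [Algebra K F]

/-- The coordinate `z = - a σ(a) / 2 + η q`. -/
def hz (σ : F ≃ₐ[K] F) (η : F) (p : EE F × EE K) : EE F := -((1 / 2 : ℝ) • (p.1 * sE σ p.1)) + mixedEmbedding F η * iE (algebraMap K F) p.2

theorem an3_smul (w : InfinitePlace F) (c : ℝ) (x : EE F) : evw w (c • x) = (c : ℂ) * evw w x := by
  rcases w.isReal_or_isComplex with h | h
  · rw [evw_real h, evw_real h]
    show (((c • x.1 ⟨w, h⟩ : ℝ)) : ℂ) = _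
    rw [smul_eq_mul, Complex.ofReal_mul]
  · rw [evw_complex h, evw_complex h]
    show c • x.2 ⟨w, h⟩ = _
    exact Complex.real_smul

theorem an3_hT {A A' : ℝ} {x x' z z' : ℂ} (h : ‖x‖ = ‖x'‖) (h' : ‖z‖ = ‖z'‖) : hT A A' x z = hT A A' x' z' := by
  unfold hT
  rw [h, h']

theorem an3_norm (σ : F ≃ₐ[K] F) (v : InfinitePlace F) (x : EE F) : ‖evw (cpl σ v) x‖ = ‖evw v (sE σ x)‖ := by
  rcases eq2_evw σ v with h | h
  · rw [h x]
  · rw [h x, norm_star]

theorem an3_hTcont {X : Type} [TopologicalSpace X] (A A' : ℝ) {f g : X → ℂ} (hf : Continuous f) (hg : Continuous g) (e : ℝ) :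
    Continuous fun x => hT A A' (f x) (g x) ^ e := by
  have h1 : Continuous fun x => hT A A' (f x) (g x) := by
    unfold hT
    exact (continuous_const.add ((continuous_const.mul hf.norm).pow 2)).add ((continuous_const.mul hg.norm).pow 2)
  exact h1.rpow_const fun x => Or.inl (by have := hT_one A A' (f x) (g x); linarith)

theorem an3_hz (σ : F ≃ₐ[K] F) (η : F) : Continuous fun p : EE F × EE K => hz σ η p := by
  unfold hz
  exact ((continuous_fst.mul ((sE_cont σ).comp continuous_fst)).const_smul (1 / 2 : ℝ)).neg.add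
    (continuous_const.mul ((iE_cont (algebraMap K F)).comp continuous_snd))

open scoped Classical in
theorem an3_gal [IsGalois K F] (h2 : Module.finrank K F = 2) (σ : F ≃ₐ[K] F) (hσ : σ ≠ 1) :
    (Finset.univ : Finset (F ≃ₐ[K] F)) = {1, σ} := by
  have h : Fintype.card (F ≃ₐ[K] F) = 2 := by
    rw [← Nat.card_eq_fintype_card, IsGalois.card_aut_eq_finrank, h2]
  symm
  rw [← Finset.card_eq_iff_eq_univ, h, Finset.card_pair hσ.symm]

theorem an3_sq [IsGalois K F] (h2 : Module.finrank K F = 2) (σ : F ≃ₐ[K] F) (hσ : σ ≠ 1) : σ * σ = 1 := by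
  classical
  have h : σ * σ ∈ (Finset.univ : Finset (F ≃ₐ[K] F)) := Finset.mem_univ _
  rw [an3_gal h2 σ hσ, Finset.mem_insert, Finset.mem_singleton] at h
  rcases h with h | h
  · exact h
  · exact absurd (mul_eq_left.1 h) hσ

/-- The factor at the place `u`. -/
def an3f (δ A A' : ℝ) (a a' e : ℂ) (ε : Bool) (x : ℂ) : ℝ≥0∞ :=
  ENNReal.ofReal (hT A A' a (-(a * a') / 2 + e * cjb ε x) ^ (-(1 + 2 * δ) / 2)) *
    ENNReal.ofReal (hT A' A a' (-(a * a') / 2 - e * cjb ε x) ^ (-(1 + 2 * δ) / 2))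

theorem an3f_cont (δ A A' : ℝ) (a a' e : ℂ) (ε : Bool) : Measurable (an3f δ A A' a a' e ε) := by
  have h1 : Measurable fun x : ℂ => ENNReal.ofReal (hT A A' a (-(a * a') / 2 + e * cjb ε x) ^ (-(1 + 2 * δ) / 2)) := by
    exact (ENNReal.continuous_ofReal.comp (an3_hTcont A A' continuous_const
      (continuous_const.add (continuous_const.mul (cjb_cont ε))) _)).measurable
  have h2 : Measurable fun x : ℂ => ENNReal.ofReal (hT A' A a' (-(a * a') / 2 - e * cjb ε x) ^ (-(1 + 2 * δ) / 2)) := by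
    exact (ENNReal.continuous_ofReal.comp (an3_hTcont A' A continuous_const
      (continuous_const.sub (continuous_const.mul (cjb_cont ε))) _)).measurable
  exact h1.mul h2

theorem an3_pow2 {x : ℝ} (hx : 1 ≤ x) (e : ℝ) : ENNReal.ofReal (x ^ (e / 2)) ^ 2 = ENNReal.ofReal (x ^ e) := by
  rw [← ENNReal.ofReal_pow (Real.rpow_nonneg (by linarith) _), ← Real.rpow_natCast, ← Real.rpow_mul (by linarith)]
  congr 2
  push_cast
  ring

theorem an3_cast {x : ℝ} (hx : 1 ≤ x) (δ : ℝ) (m : ℕ) :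
    ENNReal.ofReal (x ^ (-((1 + 2 * δ) * (m : ℝ) / 2))) = ENNReal.ofReal (x ^ (-(1 + 2 * δ) / 2)) ^ m := by
  rw [← ENNReal.ofReal_pow (Real.rpow_nonneg (by linarith) _), ← Real.rpow_natCast, ← Real.rpow_mul (by linarith)]
  congr 2
  ring

/-- The inner integral at one place. -/
theorem an3_inner {δ : ℝ} (hδ : 0 < δ) (hδ1 : δ ≤ 1 / 2) : ∃ C : ℝ, 0 < C ∧ ∀ (u : InfinitePlace K) (A A' : ℝ) (a a' e : ℂ) (ε : Bool), e ≠ 0 →
    oI u (fun x => an3f δ A A' a a' e ε x ^ u.mult) ≤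
      ENNReal.ofReal (C / ‖e‖ ^ u.mult) * (ENNReal.ofReal (Real.exp A) * gD δ (Real.exp (-A) * ‖a‖) *
        (ENNReal.ofReal (Real.exp A') * gD δ (Real.exp (-A') * ‖a'‖))) ^ u.mult := by
  obtain ⟨C1, hC1, H1⟩ := an1_real hδ hδ1
  obtain ⟨C2, hC2, H2⟩ := an1_cplx hδ hδ1
  refine ⟨max C1 C2, lt_max_of_lt_left hC1, fun u A A' a a' e ε he => ?_⟩
  have hen : 0 < ‖e‖ := norm_pos_iff.2 he
  rcases u.isReal_or_isComplex with h | h
  · have hm : u.mult = 1 := by rw [InfinitePlace.mult, if_pos h]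
    unfold oI
    rw [if_pos h, hm]
    simp only [pow_one]
    unfold an3f
    simp only [cjb_real]
    refine (H1 A A' a a' e he).trans ?_
    have e1 : ENNReal.ofReal (C1 / ‖e‖ * Real.exp (A + A')) = ENNReal.ofReal (C1 / ‖e‖) * (ENNReal.ofReal (Real.exp A) * ENNReal.ofReal (Real.exp A')) := by
      rw [Real.exp_add, ENNReal.ofReal_mul (by positivity), ENNReal.ofReal_mul (by positivity)]
    rw [e1]
    have e2 : ENNReal.ofReal (C1 / ‖e‖) * (ENNReal.ofReal (Real.exp A) * ENNReal.ofReal (Real.exp A')) *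
        (gD δ (Real.exp (-A) * ‖a‖) * gD δ (Real.exp (-A') * ‖a'‖)) =
        ENNReal.ofReal (C1 / ‖e‖) * (ENNReal.ofReal (Real.exp A) * gD δ (Real.exp (-A) * ‖a‖) *
          (ENNReal.ofReal (Real.exp A') * gD δ (Real.exp (-A') * ‖a'‖))) := by ring
    rw [e2]
    refine mul_le_mul_left ?_ _
    refine ENNReal.ofReal_le_ofReal ?_
    exact div_le_div_of_nonneg_right (le_max_left _ _) hen.le
  · have hr : ¬ u.IsReal := InfinitePlace.not_isReal_iff_isComplex.2 h
    have hm : u.mult = 2 := by rw [InfinitePlace.mult, if_neg hr]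
    unfold oI
    rw [if_neg hr, hm]
    have e0 : ∀ x : ℂ, an3f δ A A' a a' e ε x ^ 2 = ENNReal.ofReal (hT A A' a (-(a * a') / 2 + e * cjb ε x) ^ (-(1 + 2 * δ))) *
        ENNReal.ofReal (hT A' A a' (-(a * a') / 2 - e * cjb ε x) ^ (-(1 + 2 * δ))) := by
      intro x
      unfold an3f
      rw [mul_pow, an3_pow2 (hT_one _ _ _ _), an3_pow2 (hT_one _ _ _ _)]
    simp only [e0]
    refine (H2 A A' a a' e ε he).trans ?_
    have e1 : ENNReal.ofReal (C2 / ‖e‖ ^ 2 * Real.exp (2 * (A + A'))) = ENNReal.ofReal (C2 / ‖e‖ ^ 2) * (ENNReal.ofReal (Real.exp A) * ENNReal.ofReal (Real.exp A')) ^ 2 := by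
      have e3 : Real.exp (2 * (A + A')) = (Real.exp A * Real.exp A') ^ 2 := by
        rw [← Real.exp_add, ← Real.exp_nat_mul]
        push_cast
        rfl
      rw [e3, ENNReal.ofReal_mul (by positivity), ENNReal.ofReal_pow (by positivity), ENNReal.ofReal_mul (by positivity)]
    rw [e1]
    have e2 : ENNReal.ofReal (C2 / ‖e‖ ^ 2) * (ENNReal.ofReal (Real.exp A) * ENNReal.ofReal (Real.exp A')) ^ 2 *
        (gD δ (Real.exp (-A) * ‖a‖) * gD δ (Real.exp (-A') * ‖a'‖)) ^ 2 =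
        ENNReal.ofReal (C2 / ‖e‖ ^ 2) * (ENNReal.ofReal (Real.exp A) * gD δ (Real.exp (-A) * ‖a‖) *
          (ENNReal.ofReal (Real.exp A') * gD δ (Real.exp (-A') * ‖a'‖))) ^ 2 := by ring
    rw [e2]
    refine mul_le_mul_left ?_ _
    refine ENNReal.ofReal_le_ofReal ?_
    exact div_le_div_of_nonneg_right (le_max_right _ _) (by positivity)

/-- The outer integral. -/
theorem an3_outer {δ : ℝ} (hδ : 0 < δ) (hδ1 : δ ≤ 1 / 2) : ∃ C : ℝ, 0 < C ∧ ∀ A : InfinitePlace F → ℝ,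
    ∫⁻ x : EE F, ∏ w : InfinitePlace F, (ENNReal.ofReal (Real.exp (A w)) * gD δ (Real.exp (-(A w)) * ‖evw w x‖)) ^ w.mult ≤
      ENNReal.ofReal (C * Real.exp (2 * ∑ v : InfinitePlace F, (v.mult : ℝ) * A v)) := by
  obtain ⟨C, hC, H⟩ := an1_gD hδ hδ1
  refine ⟨∏ _w : InfinitePlace F, C, Finset.prod_pos fun _ _ => hC, fun A => ?_⟩
  have hm : ∀ w : InfinitePlace F, Measurable fun z : ℂ => gD δ (Real.exp (-(A w)) * ‖z‖) ^ w.mult := fun w =>
    ((gD_meas δ).comp (measurable_norm.const_mul _)).pow_const _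
  rw [int_prod (fun w z => (ENNReal.ofReal (Real.exp (A w)) * gD δ (Real.exp (-(A w)) * ‖z‖)) ^ w.mult) fun w =>
    ((measurable_const.mul ((gD_meas δ).comp (measurable_norm.const_mul _))).pow_const _)]
  have h1 : ∀ w : InfinitePlace F, oI w (fun z => (ENNReal.ofReal (Real.exp (A w)) * gD δ (Real.exp (-(A w)) * ‖z‖)) ^ w.mult) ≤
      ENNReal.ofReal (C * (Real.exp ((w.mult : ℝ) * A w) * Real.exp ((w.mult : ℝ) * A w))) := by
    intro w
    have e1 : oI w (fun z => (ENNReal.ofReal (Real.exp (A w)) * gD δ (Real.exp (-(A w)) * ‖z‖)) ^ w.mult) =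
        ENNReal.ofReal (Real.exp (A w)) ^ w.mult * oI w (fun z => gD δ (Real.exp (-(A w)) * ‖z‖) ^ w.mult) := by
      unfold oI
      simp only [mul_pow]
      split_ifs
      · exact lintegral_const_mul _ ((hm w).comp Complex.measurable_ofReal)
      · exact lintegral_const_mul _ (hm w)
    rw [e1]
    have e2 : ENNReal.ofReal (Real.exp (A w)) ^ w.mult = ENNReal.ofReal (Real.exp ((w.mult : ℝ) * A w)) := by
      rw [← ENNReal.ofReal_pow (Real.exp_pos _).le, ← Real.exp_nat_mul]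
    rw [e2]
    refine (mul_le_mul_right (H F w (A w)) _).trans (le_of_eq ?_)
    rw [← ENNReal.ofReal_mul (Real.exp_pos _).le]
    congr 1
    ring
  refine (Finset.prod_le_prod' fun w _ => h1 w).trans (le_of_eq ?_)
  rw [← ENNReal.ofReal_prod_of_nonneg fun w _ => by positivity]
  congr 1
  rw [Finset.prod_mul_distrib, Finset.prod_mul_distrib, ← Real.exp_sum, ← Real.exp_add]
  congr 2
  ring

/-- **The integral for the adjacent pair** (`F / K` quadratic). PROOF. `s ≤ 2` w.l.o.g. (`hT_one`: the integrand decreases in `s`), `s = 1 + 2 δ`, `δ ≤ 1/2`. Tonelli (`lintegral_prod`; everything is continuous), `a = p.1` fixed, `q = p.2`.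
(1) Choose for every place `u` of `K` a place `c u` of `F` above `u`. `Gal(F/K) = {1, σ}`. By `an0_prod` (with `M = ℝ≥0∞`, `φ v = ofReal (hT .. ^ (-(s/2)))`, `ofReal (x ^ (m y)) = ofReal (x ^ y) ^ m`): the integrand is `∏_u (φ (c u) * φ (cpl σ (c u))) ^ u.mult`. With `v = c u`:
`‖evw (cpl σ v) x‖ = ‖evw v (sE σ x)‖` (`eq2_evw`), `sE σ (hz) = - a σ(a) / 2 - η q` (`hη`, `sE_emb`, `sE σ (iE q) = iE q`), `cpl σ (cpl σ v) = v`, and `evw v (iE q) = cjb ε (evw u q)` (`evw_iE`), so the factor at `u` is a function of `evw u q`: exactly the integrand of `an1_real` if `u`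
is real, of `an1_cplx` if `u` is complex, with `a = evw v a`, `a' = evw v (sE σ a)`, `A = A v`, `A' = A (cpl σ v)`, `η = evw v η ≠ 0`.
(2) `int_prod` for `K`, `an1_real`, `an1_cplx`: the inner integral is `≤ ∏_u [ofReal (C_u exp (A + A')) * gD(..) * gD(..)] ^ u.mult`, `C_u` depends on `C` and `‖evw (c u) η‖` only. By `an0_prod` backwards it is `≤ C' ∏_v [ofReal (exp (A v)) * gD δ (exp (- A v) * ‖evw v a‖)] ^ v.mult`.
(3) `int_prod` for `F` and `an1_gD`: `∫ ≤ C'' ∏_v exp (v.mult * A v) * exp (v.mult * A v)`. -/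
theorem an3 [IsGalois K F] (h2 : Module.finrank K F = 2) (σ : F ≃ₐ[K] F) (hσ : σ ≠ 1) (η : F) (hη0 : η ≠ 0) (hη : σ η = -η) {s : ℝ} (hs : 1 < s) :
    ∃ C : ℝ, 0 < C ∧ ∀ A : InfinitePlace F → ℝ,
      ∫⁻ p : EE F × EE K, ∏ v : InfinitePlace F, ENNReal.ofReal (hT (A v) (A (cpl σ v)) (evw v p.1) (evw v (hz σ η p)) ^ (-(s * (v.mult : ℝ) / 2))) ≤
        ENNReal.ofReal (C * Real.exp (2 * ∑ v : InfinitePlace F, (v.mult : ℝ) * A v)) := by
  classical
  obtain ⟨δ, hδ⟩ : ∃ δ : ℝ, δ = min (s - 1) 1 / 2 := ⟨_, rfl⟩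
  have hmin : 0 < min (s - 1) 1 := lt_min (by linarith) one_pos
  have hδ0 : 0 < δ := by rw [hδ]; linarith
  have hδ1 : δ ≤ 1 / 2 := by
    rw [hδ]
    have := min_le_right (s - 1) 1
    linarith
  have hδs : 1 + 2 * δ ≤ s := by
    rw [hδ]
    have := min_le_left (s - 1) 1
    linarith
  obtain ⟨C1, hC1, H1⟩ := an3_inner (K := K) hδ0 hδ1
  obtain ⟨C2, hC2, H2⟩ := an3_outer (F := F) hδ0 hδ1
  have hsur : ∀ u : InfinitePlace K, ∃ w : InfinitePlace F, w.comap (algebraMap K F) = u := fun u => InfinitePlace.comap_surjective u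
  choose c hc using hsur
  have hsq : ∀ v : InfinitePlace F, cpl σ (cpl σ v) = v := fun v => by
    rw [← eq2_cpl_mul, an3_sq h2 σ hσ, eq2_cpl_one]
  have hgal : ∀ ψ : (F ≃ₐ[K] F) → ℝ≥0∞, ∏ t : F ≃ₐ[K] F, ψ t = ψ 1 * ψ σ := fun ψ => by
    rw [an3_gal h2 σ hσ, Finset.prod_pair hσ.symm]
  have hplace : ∀ φ : InfinitePlace F → ℝ≥0∞, ∏ w : InfinitePlace F, φ w ^ w.mult =
      ∏ u : InfinitePlace K, (φ (c u) * φ (cpl σ (c u))) ^ u.mult := fun φ => by
    rw [an0_prod (K := K) φ c hc]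
    refine Finset.prod_congr rfl fun u _ => ?_
    rw [hgal fun t => φ (cpl t (c u))]
    rfl
  have hev : ∀ u : InfinitePlace K, ∃ ε : Bool, ∀ x : EE K, evw (c u) (iE (algebraMap K F) x) = cjb ε (evw u x) := fun u => by
    obtain ⟨ε, h⟩ := evw_iE (algebraMap K F) (c u)
    exact ⟨ε, fun x => by rw [h x, hc u]⟩
  choose εε hεε using hev
  obtain ⟨e, he⟩ : ∃ e : InfinitePlace K → ℂ, e = fun u => evw (c u) (mixedEmbedding F η) := ⟨_, rfl⟩
  have heu : ∀ u, e u = evw (c u) (mixedEmbedding F η) := fun u => by rw [he]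
  have he0 : ∀ u, e u ≠ 0 := fun u => by
    rw [heu, eq2_emb]
    exact fun h => hη0 ((map_eq_zero _).1 h)
  refine ⟨(∏ u : InfinitePlace K, C1 / ‖e u‖ ^ u.mult) * C2, ?_, fun A => ?_⟩
  · refine mul_pos (Finset.prod_pos fun u _ => ?_) hC2
    exact div_pos hC1 (pow_pos (norm_pos_iff.2 (he0 u)) _)
  have hpt : ∀ p : EE F × EE K, ∏ v : InfinitePlace F, ENNReal.ofReal (hT (A v) (A (cpl σ v)) (evw v p.1) (evw v (hz σ η p)) ^ (-(s * (v.mult : ℝ) / 2))) ≤
      ∏ u : InfinitePlace K, an3f δ (A (c u)) (A (cpl σ (c u))) (evw (c u) p.1) (evw (c u) (sE σ p.1)) (e u) (εε u) (evw u p.2) ^ u.mult := by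
    intro p
    have s1 : ∏ v : InfinitePlace F, ENNReal.ofReal (hT (A v) (A (cpl σ v)) (evw v p.1) (evw v (hz σ η p)) ^ (-(s * (v.mult : ℝ) / 2))) ≤
        ∏ v : InfinitePlace F, ENNReal.ofReal (hT (A v) (A (cpl σ v)) (evw v p.1) (evw v (hz σ η p)) ^ (-(1 + 2 * δ) / 2)) ^ v.mult := by
      refine Finset.prod_le_prod' fun v _ => ?_
      have h1 := hT_one (A v) (A (cpl σ v)) (evw v p.1) (evw v (hz σ η p))
      rw [← an3_cast h1]
      refine ENNReal.ofReal_le_ofReal (Real.rpow_le_rpow_of_exponent_le h1 ?_)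
      have h3 : (0 : ℝ) ≤ v.mult := Nat.cast_nonneg _
      have h4 := mul_le_mul_of_nonneg_right hδs h3
      linarith
    refine s1.trans (le_of_eq ?_)
    rw [hplace fun v => ENNReal.ofReal (hT (A v) (A (cpl σ v)) (evw v p.1) (evw v (hz σ η p)) ^ (-(1 + 2 * δ) / 2))]
    refine Finset.prod_congr rfl fun u _ => ?_
    congr 1
    unfold an3f
    have hz1 : evw (c u) (hz σ η p) = -(evw (c u) p.1 * evw (c u) (sE σ p.1)) / 2 + e u * cjb (εε u) (evw u p.2) := by
      unfold hz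
      rw [map_add, map_neg, an3_smul, map_mul, map_mul, hεε, ← heu]
      push_cast
      ring
    have hσσ : sE σ (sE σ p.1) = p.1 := by
      rw [← sE_mul, an3_sq h2 σ hσ, sE_one]
    have hiE : sE σ (iE (algebraMap K F) p.2) = iE (algebraMap K F) p.2 := by
      rw [sE_iE, ← iE_comp]
      congr 2
      ext x
      exact σ.commutes x
    have hz2 : evw (c u) (sE σ (hz σ η p)) = -(evw (c u) p.1 * evw (c u) (sE σ p.1)) / 2 - e u * cjb (εε u) (evw u p.2) := by
      unfold hz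
      rw [map_add, map_neg, sE_smul, map_mul, map_mul, hσσ, hiE, sE_emb, hη, map_neg, map_add, map_neg, an3_smul, map_mul, map_mul, map_neg, hεε, ← heu]
      push_cast
      ring
    rw [hz1, hsq]
    congr 2
    congr 1
    refine an3_hT (an3_norm σ (c u) p.1) ?_
    rw [an3_norm σ (c u), hz2]
  have hm2 : ∀ a : EE F, ∀ u : InfinitePlace K, Measurable fun z : ℂ => an3f δ (A (c u)) (A (cpl σ (c u))) (evw (c u) a) (evw (c u) (sE σ a)) (e u) (εε u) z ^ u.mult :=
    fun a u => (an3f_cont _ _ _ _ _ _ _).pow_const _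
  have hmeas : Measurable fun p : EE F × EE K =>
      ∏ u : InfinitePlace K, an3f δ (A (c u)) (A (cpl σ (c u))) (evw (c u) p.1) (evw (c u) (sE σ p.1)) (e u) (εε u) (evw u p.2) ^ u.mult := by
    refine Finset.measurable_fun_prod _ fun u _ => Measurable.pow_const ?_ _
    have k1 : Continuous fun p : EE F × EE K => evw (c u) p.1 := (evw_cont _).comp continuous_fst
    have k2 : Continuous fun p : EE F × EE K => evw (c u) (sE σ p.1) := (evw_cont _).comp ((sE_cont σ).comp continuous_fst)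
    have k3 : Continuous fun p : EE F × EE K => cjb (εε u) (evw u p.2) := (cjb_cont _).comp ((evw_cont _).comp continuous_snd)
    have m1 := (ENNReal.continuous_ofReal.comp (an3_hTcont (A (c u)) (A (cpl σ (c u))) k1
      (((k1.mul k2).neg.div_const 2).add (continuous_const.mul k3 : Continuous fun p : EE F × EE K => e u * cjb (εε u) (evw u p.2))) (-(1 + 2 * δ) / 2))).measurable
    have m2 := (ENNReal.continuous_ofReal.comp (an3_hTcont (A (cpl σ (c u))) (A (c u)) k2
      (((k1.mul k2).neg.div_const 2).sub (continuous_const.mul k3 : Continuous fun p : EE F × EE K => e u * cjb (εε u) (evw u p.2))) (-(1 + 2 * δ) / 2))).measurable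
    exact m1.mul m2
  refine (lintegral_mono hpt).trans ?_
  rw [Measure.volume_eq_prod, lintegral_prod _ hmeas.aemeasurable]
  have hin : ∀ a : EE F, ∫⁻ q : EE K, ∏ u : InfinitePlace K, an3f δ (A (c u)) (A (cpl σ (c u))) (evw (c u) a) (evw (c u) (sE σ a)) (e u) (εε u) (evw u q) ^ u.mult ≤
      ENNReal.ofReal (∏ u : InfinitePlace K, C1 / ‖e u‖ ^ u.mult) *
        ∏ w : InfinitePlace F, (ENNReal.ofReal (Real.exp (A w)) * gD δ (Real.exp (-(A w)) * ‖evw w a‖)) ^ w.mult := by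
    intro a
    rw [int_prod (fun u z => an3f δ (A (c u)) (A (cpl σ (c u))) (evw (c u) a) (evw (c u) (sE σ a)) (e u) (εε u) z ^ u.mult) (hm2 a)]
    refine (Finset.prod_le_prod' fun u _ => H1 u _ _ _ _ _ _ (he0 u)).trans (le_of_eq ?_)
    rw [Finset.prod_mul_distrib, ENNReal.ofReal_prod_of_nonneg fun u _ => div_nonneg hC1.le (pow_nonneg (norm_nonneg _) _),
      hplace fun w => ENNReal.ofReal (Real.exp (A w)) * gD δ (Real.exp (-(A w)) * ‖evw w a‖)]
    congr 1
    refine Finset.prod_congr rfl fun u _ => ?_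
    rw [an3_norm σ (c u) a]
  refine (lintegral_mono hin).trans ?_
  rw [lintegral_const_mul' _ _ ENNReal.ofReal_ne_top]
  refine (mul_le_mul_right (H2 A) _).trans (le_of_eq ?_)
  rw [← ENNReal.ofReal_mul (Finset.prod_nonneg fun u _ => div_nonneg hC1.le (pow_nonneg (norm_nonneg _) _))]
  congr 1
  ring

end

end Pool.Agent.Lib.L8.QF
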