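import Pool.Agent.Lib.L8.FL.C5F
import Pool.Agent.Lib.L8.FL.C5G

/-!
# QF, module C5Q, B1 (design helper33): a block of letters, local group

`O` a set of simple roots, `B` a reduced word of the longest element of the Weyl group of `O`; the Levi group of `O` is the part of degree zero for `dJ b Oᶜ`.
-/

namespace Pool.Agent.Lib.L8.QF

open MeasureTheory Matrix NumberField NumberField.InfinitePlace IsDedekindDomain Pool.Agent.Lib.H89N Pool.Agent.Lib.H33W Pool.Agent.Lib.H67G Pool.Agent.Lib.L1S Pool.Agent.Lib.L8 Pool.Agent.Lib.L8.FL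
open scoped ENNReal Pointwise

noncomputable section

set_option linter.unusedSectionVars false
set_option linter.unusedVariables false

section abs

variable {J F G : Type} [Fintype J] [DecidableEq J] [RCLike F] [Group G] [TopologicalSpace G] [IsTopologicalGroup G] [SecondCountableTopology G] [LocallyCompactSpace G] [T2Space G] [MeasurableSpace G] [BorelSpace G] (I : Iw J F G)

/-- PROOF: induction on `B` from the end (`List.reverseRecOn`, `brh_nl_append`, `brh_red_concat`, `brh_red_left`): `B = B' ++ [i]`: `y₁ = nl(B')⁻¹ y nl(B') ∈ Uw (l ++ B')`, and `n_i⁻¹ y₁ n_i ∈ Uw (l ++ B' ++ [i])` by `brh_V1`. -/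
theorem blk_up {l B : List J} (h : I.Red (l ++ B)) {y : G} (hy : y ∈ I.Uw l) : (I.nl B)⁻¹ * y * I.nl B ∈ I.Uw (l ++ B) := by
  induction B using List.reverseRecOn with
  | nil =>
    have e : (I.nl [])⁻¹ * y * I.nl [] = y := by
      show (1 : G)⁻¹ * y * 1 = y
      group
    rw [e, List.append_nil]
    exact hy
  | append_singleton B i ih =>
    rw [← List.append_assoc] at h ⊢
    obtain ⟨h1, h2⟩ := brh_red_concat I h
    have h3 := ih h1
    have e1 : I.nl (B ++ [i]) = I.nl B * I.n i := by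
      rw [brh_nl_append]
      show I.nl B * (I.n i * 1) = _
      rw [mul_one]
    have e2 : (I.nl (B ++ [i]))⁻¹ * y * I.nl (B ++ [i]) = (I.n i)⁻¹ * ((I.nl B)⁻¹ * y * I.nl B) * I.n i := by
      rw [e1]
      group
    rw [e2]
    refine ((brh_V1 I h2 ((I.n i)⁻¹ * ((I.nl B)⁻¹ * y * I.nl B) * I.n i)).2 ?_).1
    have e3 : I.n i * ((I.n i)⁻¹ * ((I.nl B)⁻¹ * y * I.nl B) * I.n i) * (I.n i)⁻¹ = (I.nl B)⁻¹ * y * I.nl B := by group
    rw [e3]
    exact h3

/-- PROOF: induction on `B` from the end: `B = B' ++ [i]`, `x ∈ Uw (B' ++ [i])`, `c = c_i(x)`: `x = x₁ x_i(c)`, `x₁ = x x_i(c)⁻¹ ∈ Uw (B' ++ [i]) ⊓ Uc i` (`brh_Ui_le`, `brf_dec`), `n_i x₁ n_i⁻¹ ∈ Uw B' ≤ Uw (l ++ B')`, so `x₁ ∈ Uw (l ++ B' ++ [i])` (`brh_V1`), and `x_i(c)` is there too (`brh_Ui_le`). -/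
theorem blk_le {l B : List J} (h : I.Red (l ++ B)) (hB : I.Red B) : I.Uw B ≤ I.Uw (l ++ B) := by
  induction B using List.reverseRecOn with
  | nil =>
    intro x hx
    have e : I.nl [] * x * (I.nl [])⁻¹ = x := by
      show 1 * x * (1 : G)⁻¹ = x
      group
    have h1 : x ∈ I.V := by
      have h2 := hx.2
      have h3 : I.nl [] * x * (I.nl [])⁻¹ ∈ I.V := h2
      rwa [e] at h3
    have h2 : x = 1 := brf_UV I hx.1 h1
    rw [h2]
    exact one_mem _
  | append_singleton B i ih =>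
    intro x hx
    rw [← List.append_assoc] at h ⊢
    obtain ⟨h1, h2⟩ := brh_red_concat I h
    obtain ⟨h3, h4⟩ := brh_red_concat I hB
    obtain ⟨c, hc⟩ : ∃ c, c = I.c i x := ⟨_, rfl⟩
    have h5 : x * (I.x i c)⁻¹ ∈ I.Uc i := by
      rw [hc]
      exact brf_dec I i hx.1
    have h6 : I.x i c ∈ I.Uw (B ++ [i]) := brh_Ui_le I h4 ⟨c, rfl⟩
    have h7 : x * (I.x i c)⁻¹ ∈ I.Uw (B ++ [i]) := mul_mem hx (inv_mem h6)
    have h8 := (brh_V1 I h4 _).1 ⟨h7, h5⟩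
    have h9 := ((brh_V1 I h2 _).2 (ih h1 h3 h8)).1
    have h10 : I.x i c ∈ I.Uw (l ++ B ++ [i]) := brh_Ui_le I h2 ⟨c, rfl⟩
    have h11 := mul_mem h9 h10
    have e : x * (I.x i c)⁻¹ * I.x i c = x := by group
    rwa [e] at h11

end abs

variable {ι M N : Type} [Fintype ι] [DecidableEq ι] [AddCommGroup M] [Module ℚ M] [AddCommGroup N] [Module ℚ N]
  {P : RootPairing ι ℚ M N} [P.IsCrystallographic] [P.IsReduced] [P.IsIrreducible] [P.IsRootSystem] {b : P.Base}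

/-- `B` is a reduced word of the longest element of the Weyl group of `O`. -/
structure Blk (b : P.Base) (B : List b.support) (O : Finset b.support) : Prop where
  red : (iwG b ℂ).Red B
  mem : ∀ k ∈ B, k ∈ O
  neg : ∀ k ∈ O, b.height (wL b B (k : ι)) < 0

variable {B : List b.support} {O : Finset b.support}

theorem b1_refl {B : List b.support} (hmem : ∀ k ∈ B, k ∈ O) {k : b.support} (hk : k ∉ O) (x : M) : b.toWeightBasis.repr (sL b B x) k = b.toWeightBasis.repr x k := by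
  induction B with
  | nil => rfl
  | cons i B ih =>
    have h1 : sL b (i :: B) x = P.reflection i (sL b B x) := rfl
    have h2 : b.toWeightBasis.repr (P.root (i : ι)) k = 0 := by
      have h3 : P.root (i : ι) = b.toWeightBasis i := (RootPairing.Base.toWeightBasis_apply b i).symm
      have h4 : i ≠ k := by
        rintro rfl
        exact hk (hmem i (List.mem_cons_self))
      rw [h3, Module.Basis.repr_self, Finsupp.single_eq_of_ne h4.symm]
    rw [h1, P.reflection_apply, map_sub, map_smul, Finsupp.sub_apply, Finsupp.smul_apply, h2, smul_zero, sub_zero]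
    exact ih fun j hj => hmem j (List.mem_cons_of_mem _ hj)

/-- Products of matrices with the entries of `1` in degrees at most zero. -/
theorem b1_key {J : Finset b.support} (X Y : Matrix (I b) (I b) ℂ) (hX : ∀ r c, dJ b J r ≤ dJ b J c → X r c = (1 : Matrix (I b) (I b) ℂ) r c)
    (hY : ∀ r c, dJ b J r ≤ dJ b J c → Y r c = (1 : Matrix (I b) (I b) ℂ) r c) : ∀ r c, dJ b J r ≤ dJ b J c → (X * Y) r c = (1 : Matrix (I b) (I b) ℂ) r c := by
  intro r c hrc
  rw [Matrix.mul_apply, Finset.sum_eq_single r]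
  · rw [hX r r le_rfl, hY r c hrc, Matrix.one_apply_eq, one_mul]
  · intro k _ hk
    by_cases h1 : dJ b J r ≤ dJ b J k
    · rw [hX r k h1, Matrix.one_apply_ne hk.symm, zero_mul]
    · have h2 : dJ b J k ≤ dJ b J c := (not_le.1 h1).le.trans hrc
      by_cases h3 : k = c
      · subst h3
        exact absurd hrc h1
      · rw [hY k c h2, Matrix.one_apply_ne h3, mul_zero]
  · intro h
    exact absurd (Finset.mem_univ r) h

/-- The reflections in `O` change only the coefficients in `O`. PROOF: induction on `B`; `wq b (Sum.inr β) k` is the coefficient of `α_k` in the root `β` (`b1_height`-like lemmas, `wq_sL`); or use `wq_sL`. -/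
theorem b1_wq {B : List b.support} (hmem : ∀ k ∈ B, k ∈ O) {r r' : I b} (h : wt b r' = sL b B (wt b r)) {k : b.support} (hk : k ∉ O) : wq b r' k = wq b r k := by
  rw [dc3_wq, dc3_wq, h]
  exact b1_refl hmem hk (wt b r)

/-- PROOF: let `u r c ≠ 1 r c`, so `wq c ≤ wq r` (`gU_uni`), and `dJ r ≤ dJ c` gives `wq r k = wq c k` for `k ∉ O` (`dJ_wq`, as in `c5f_sub`). Conjugate (`conj_entry'` as in `c5f_one`): `r'`, `c'` with `(v - 1) r' c' ≠ 0`, `v = g u g⁻¹ ∈ gU`, so `ht c' < ht r'`; but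
`ht r' - ht c' = ∑_k (wq r k - wq c k) ht(w_B α_k) < 0` (`ig21b_diff`; only `k ∈ O` count, all these heights are negative, and some coefficient is `≥ 1` because `ht c < ht r`). -/
theorem ld1_mp (hB : Blk b B O) {u : GF b ℂ} (hu : u ∈ gU b ℂ) (hv : gnl b ℂ B * u * (gnl b ℂ B)⁻¹ ∈ gU b ℂ) {r c : I b} (hrc : dJ b Oᶜ r ≤ dJ b Oᶜ c) : u.1.1 r c = (1 : Matrix (I b) (I b) ℂ) r c := by
  by_contra hne
  obtain ⟨h1, h2⟩ : ht b c < ht b r ∧ ∀ k, wq b c k ≤ wq b r k := by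
    rcases gU_uni hu r c with h | h
    · exact absurd h hne
    · exact h
  have hJ : ∀ k ∈ Oᶜ, wq b r k - wq b c k = 0 := by
    have h7 : ∑ k ∈ Oᶜ, (wq b r k - wq b c k) ≤ 0 := by
      rw [Finset.sum_sub_distrib, ← dJ_wq, ← dJ_wq, sub_nonpos]
      exact_mod_cast hrc
    have h8 : ∀ k ∈ Oᶜ, 0 ≤ wq b r k - wq b c k := fun k _ => sub_nonneg.2 (h2 k)
    have h9 := le_antisymm h7 (Finset.sum_nonneg h8)
    exact (Finset.sum_eq_zero_iff_of_nonneg h8).1 h9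
  have h3 : (((gnl b ℂ B)⁻¹).1.1 * ((gnl b ℂ B * u * (gnl b ℂ B)⁻¹).1.1 - 1) * (gnl b ℂ B).1.1) r c ≠ 0 := by
    have e1 : ((gnl b ℂ B)⁻¹).1.1 * (gnl b ℂ B).1.1 = 1 := (gnl b ℂ B).1.inv_mul
    have e2 : ((gnl b ℂ B)⁻¹).1.1 * ((gnl b ℂ B * u * (gnl b ℂ B)⁻¹).1.1 - 1) * (gnl b ℂ B).1.1 = u.1.1 - 1 := by
      rw [Matrix.mul_sub, Matrix.sub_mul, Matrix.mul_one, e1, ← ig21b_back]
    rw [e2, Matrix.sub_apply]
    exact sub_ne_zero.2 hne
  obtain ⟨r', c', h4, h5, h6⟩ := conj_entry' B _ h3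
  rw [Matrix.sub_apply] at h6
  have h7 : ht b c' < ht b r' := by
    rcases gU_uni hv r' c' with h8 | ⟨h8, -⟩
    · exact absurd (sub_eq_zero.2 h8) h6
    · exact h8
  have h8 := ig21b_diff B h4 h5
  have h9 : ∑ i : b.support, (wq b r i - wq b c i) * ((b.height (wL b B (i : ι)) : ℤ) : ℚ) ≤ 0 := by
    refine Finset.sum_nonpos fun i _ => ?_
    by_cases hi : i ∈ O
    · refine mul_nonpos_of_nonneg_of_nonpos (sub_nonneg.2 (h2 i)) ?_
      have h10 := hB.neg i hi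
      exact_mod_cast h10.le
    · rw [hJ i (Finset.mem_compl.2 hi), zero_mul]
  have h10 : ((ht b c' : ℤ) : ℚ) < ((ht b r' : ℤ) : ℚ) := by exact_mod_cast h7
  linarith

/-- PROOF: let `u r c ≠ 0`, `dJ r ≠ dJ c`, so `wq c ≤ wq r` and `wq c k < wq r k` for some `k ∉ O`. Conjugate (`ig21b_back`, `conj_entry'` as in `c5f_sub`): `r'`, `c'` with `v r' c' ≠ 0`, `wq r' k - wq c' k = wq r k - wq c k > 0` (`b1_wq`), but `v ∈ gV` gives `wq r' ≤ wq c'` (`gV_lo`) or `r' = c'`. -/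
theorem ld2_mp (hB : Blk b B O) {u : GF b ℂ} (hu : u ∈ gU b ℂ) (hv : gnl b ℂ B * u * (gnl b ℂ B)⁻¹ ∈ gV b ℂ) {r c : I b} (hrc : dJ b Oᶜ r ≠ dJ b Oᶜ c) : u.1.1 r c = 0 := by
  by_contra hne0
  have hrc' : r ≠ c := by
    rintro rfl
    exact hrc rfl
  have h2 : ∀ k, wq b c k ≤ wq b r k := by
    rcases gU_uni hu r c with h1 | ⟨-, h2⟩
    · rw [Matrix.one_apply_ne hrc'] at h1
      exact absurd h1 hne0
    · exact h2
  obtain ⟨k, hk, hlt⟩ : ∃ k ∈ Oᶜ, wq b c k < wq b r k := by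
    by_contra hcon
    push Not at hcon
    apply hrc
    have h3 : ((dJ b Oᶜ r : ℤ) : ℚ) = ((dJ b Oᶜ c : ℤ) : ℚ) := by
      rw [dJ_wq, dJ_wq]
      exact Finset.sum_congr rfl fun k hk => le_antisymm (hcon k hk) (h2 k)
    exact_mod_cast h3
  have h3 : (((gnl b ℂ B)⁻¹).1.1 * (gnl b ℂ B * u * (gnl b ℂ B)⁻¹).1.1 * (gnl b ℂ B).1.1) r c ≠ 0 := by
    rw [← ig21b_back]
    exact hne0
  obtain ⟨r', c', h4, h5, h6⟩ := conj_entry' B _ h3
  have hkO : k ∉ O := Finset.mem_compl.1 hk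
  have e1 : wq b r' k = wq b r k := b1_wq hB.mem h4 hkO
  have e2 : wq b c' k = wq b c k := b1_wq hB.mem h5 hkO
  rcases gV_lo hv r' c' with h7 | ⟨-, h7⟩
  · rw [h7] at h6
    have h8 : r' = c' := by
      by_contra hne'
      exact h6 (Matrix.one_apply_ne hne')
    rw [← e1, ← e2, h8] at hlt
    exact lt_irrefl _ hlt
  · have h8 := h7 k
    rw [e1, e2] at h8
    exact absurd hlt (not_lt.2 h8)

/-- PROOF: `u = u₁ u₂` with `u₁ ∈ gU`, `g u₁ g⁻¹ ∈ gU`, `u₂ ∈ Uw B` (`c5f_dec`). `u₂` has degree zero (`ld2_mp`, also `u₂⁻¹`), `u₁` has the entries of `1` for `dJ r ≤ dJ c` (`ld1_mp`), so `u₂ = u₁⁻¹ u` has the entries of `1` for `dJ r ≤ dJ c` (block triangular matrices: the argument `key` in `NoH_eq`), so `u₂ = 1`. -/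
theorem ld1_mpr (hB : Blk b B O) {u : GF b ℂ} (hu : u ∈ gU b ℂ) (h : ∀ r c, dJ b Oᶜ r ≤ dJ b Oᶜ c → u.1.1 r c = (1 : Matrix (I b) (I b) ℂ) r c) : gnl b ℂ B * u * (gnl b ℂ B)⁻¹ ∈ gU b ℂ := by
  obtain ⟨u₁, h1, h2, u₂, h3, h4⟩ := c5f_dec (iwG b ℂ) hB.red hu
  have h1i : u₁⁻¹ ∈ gU b ℂ := inv_mem h1
  have h2i : gnl b ℂ B * u₁⁻¹ * (gnl b ℂ B)⁻¹ ∈ gU b ℂ := by
    have e : gnl b ℂ B * u₁⁻¹ * (gnl b ℂ B)⁻¹ = (gnl b ℂ B * u₁ * (gnl b ℂ B)⁻¹)⁻¹ := by group
    rw [e]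
    exact inv_mem h2
  have e2 : u₂ = u₁⁻¹ * u := by
    rw [h4]
    group
  have h5 : u₂ = 1 := by
    refine Subtype.ext (Units.ext (Matrix.ext fun r c => ?_))
    show u₂.1.1 r c = (1 : Matrix (I b) (I b) ℂ) r c
    by_cases hrc : dJ b Oᶜ r ≤ dJ b Oᶜ c
    · rw [e2]
      exact b1_key _ _ (fun r c hrc => ld1_mp hB h1i h2i hrc) h r c hrc
    · have hne : r ≠ c := by
        rintro rfl
        exact hrc le_rfl
      rw [ld2_mp hB h3.1 h3.2 (not_le.1 hrc).ne', Matrix.one_apply_ne hne]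
  rw [h4, h5, mul_one]
  exact h2

/-- PROOF: the same decomposition; `u` and `u₂` have degree zero, so `u₁ = u u₂⁻¹` has degree zero, and `u₁ = 1` by `ld1_mp`. -/
theorem ld2_mpr (hB : Blk b B O) {u : GF b ℂ} (hu : u ∈ gU b ℂ) (h : ∀ r c, dJ b Oᶜ r ≠ dJ b Oᶜ c → u.1.1 r c = 0) : gnl b ℂ B * u * (gnl b ℂ B)⁻¹ ∈ gV b ℂ := by
  obtain ⟨u₁, h1, h2, u₂, h3, h4⟩ := c5f_dec (iwG b ℂ) hB.red hu
  have h3i := inv_mem h3
  have e1 : u₁ = u * u₂⁻¹ := by
    rw [h4]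
    group
  have h5 : u₁ = 1 := by
    refine Subtype.ext (Units.ext (Matrix.ext fun r c => ?_))
    show u₁.1.1 r c = (1 : Matrix (I b) (I b) ℂ) r c
    by_cases hrc : dJ b Oᶜ r ≤ dJ b Oᶜ c
    · exact ld1_mp hB h1 h2 hrc
    · have hne : r ≠ c := by
        rintro rfl
        exact hrc le_rfl
      rw [e1, Matrix.one_apply_ne hne]
      show (u.1.1 * u₂⁻¹.1.1) r c = 0
      rw [Matrix.mul_apply]
      refine Finset.sum_eq_zero fun k _ => ?_
      by_cases h6 : dJ b Oᶜ r = dJ b Oᶜ k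
      · have h7 : dJ b Oᶜ k ≠ dJ b Oᶜ c := by
          rw [← h6]
          exact (not_le.1 hrc).ne'
        rw [ld2_mp hB h3i.1 h3i.2 h7, mul_zero]
      · rw [h r k h6, zero_mul]
  have h6 : u = u₂ := by rw [h4, h5, one_mul]
  rw [h6]
  exact h3.2

end

end Pool.Agent.Lib.L8.QF
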