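import Pool.Agent.Lib.L8.FU.W2

/-!
# QF, H0 (helper80): the Levi projections for a subgroup `H` (`HypH`)

`HypH H J`: the properties of `H` which are used in C3 (instead of `H = ⊤`): `U(K)` is stable under the projection to the degree preserving part, `U(K)` is dense in the real unipotent group, and the elements of
the cell of `w_J` are `u τ n v` with all factors in `H`. Ports of FU/M2 and FU/W2.
-/

namespace Pool.Agent.Lib.L8.QF

set_option linter.unusedSectionVars false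

open MeasureTheory Matrix NumberField IsDedekindDomain Pool.Agent.Lib.H89N Pool.Agent.Lib.H33W Pool.Agent.Lib.H67G Pool.Agent.Lib.L1S Pool.Agent.Lib.L8.FL Pool.Agent.Lib.L8.FC Pool.Agent.Lib.L8.FU
open scoped ENNReal

noncomputable section

variable {ι M N : Type} [Fintype ι] [DecidableEq ι] [AddCommGroup M] [Module ℚ M] [AddCommGroup N] [Module ℚ N]
  {P : RootPairing ι ℚ M N} [P.IsCrystallographic] [P.IsReduced] [P.IsIrreducible] [P.IsRootSystem]

variable {b : P.Base} {L : Type} [Field L] [NumberField L] {H : Subgroup (GK b L)} {J : Finset b.support}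

/-- **The properties of the group `H`** of rational points which are used in C3. -/
structure HypH (H : Subgroup (GK b L)) (J : Finset b.support) : Prop where
  dpK : ∀ u : HUH H, ∃ m : HUH H, m.1.1.1.1 = dp (dJ b J) u.1.1.1.1
  dense : ∀ u : UHR H, u ∈ closure (Set.range (kUH H))
  split : ∀ (w : Equiv.Perm ι) (Lw : List b.support), IsWJ b J w → wW b Lw = w → ∀ n : H, n.1 = nW b L Lw → ∀ γ : H, γ.1 ∈ cell b L w →
    ∃ u ∈ HUH H, ∃ τ : TH H, ∃ v : HUH H, v.1.1 ∈ NJ b L J ∧ γ = u * τ.1 * n * v.1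

/-- The inclusion in the real unipotent group of the full group. -/
def inT (H : Subgroup (GK b L)) : UHR H →* UHR (⊤ : Subgroup (GK b L)) where
  toFun u := ⟨⟨u.1.1, HRs_top rfl _⟩, u.2⟩
  map_one' := rfl
  map_mul' _ _ := rfl

theorem inT_cont : Continuous (inT H) := ((continuous_subtype_val.comp continuous_subtype_val).subtype_mk _).subtype_mk _

namespace HypH

theorem dpR (h : HypH H J) (u : UHR H) : ∃ m : UHR H, inT H m = piU rfl J (inT H u) := by
  have hc : Continuous fun u : UHR H => (piU (H := (⊤ : Subgroup (GK b L))) rfl J (inT H u)).1.1 :=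
    continuous_subtype_val.comp (continuous_subtype_val.comp ((piU_cont rfl J).comp inT_cont))
  have h1 := map_mem_closure hc (h.dense u) (t := (HRs H : Set (GR b L))) (by
    rintro _ ⟨v, rfl⟩
    obtain ⟨m, hm⟩ := h.dpK v
    have e : piU (H := (⊤ : Subgroup (GK b L))) rfl J (inT H (kUH H v)) = inT H (kUH H m) := by
      refine UHR_ext ?_
      rw [piU_val]
      refine Matrix.ext fun r c => ?_
      have h2 : m.1.1.1.1 r c = dp (dJ b J) v.1.1.1.1 r c := by rw [hm]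
      show dp (dJ b J) (kUH H v).1.1.1.1 r c = mixedEmbedding L (m.1.1.1.1 r c)
      rw [h2]
      simp only [dp, Matrix.of_apply]
      split_ifs
      · rfl
      · rw [map_zero]
    show (piU (H := (⊤ : Subgroup (GK b L))) rfl J (inT H (kUH H v))).1.1 ∈ (HRs H : Set (GR b L))
    rw [e]
    exact (kUH H m).1.2)
  rw [(HRs_closed H).closure_eq] at h1
  exact ⟨⟨⟨(piU (H := (⊤ : Subgroup (GK b L))) rfl J (inT H u)).1.1, h1⟩, (piU (H := (⊤ : Subgroup (GK b L))) rfl J (inT H u)).2⟩, rfl⟩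

theorem inT_inj : Function.Injective (inT H) := fun u v e => UHR_ext (by
  have h := congrArg (fun x : UHR (⊤ : Subgroup (GK b L)) => x.1.1.1.1) e
  exact h)

/-- **The Levi projection** of `U`. -/
def piU (h : HypH H J) : UHR H →* UHR H :=
  MonoidHom.mk' (fun u => (h.dpR u).choose) fun u v => inT_inj (by
    have h1 := (h.dpR (u * v)).choose_spec
    have h2 := (h.dpR u).choose_spec
    have h3 := (h.dpR v).choose_spec
    refine h1.trans ?_
    rw [map_mul, map_mul, map_mul]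
    exact (congrArg₂ (· * ·) h2 h3).symm)

theorem inT_piU (h : HypH H J) (u : UHR H) : inT H (h.piU u) = FU.piU rfl J (inT H u) := (h.dpR u).choose_spec

theorem piU_val (h : HypH H J) (u : UHR H) : (h.piU u).1.1.1.1 = dp (dJ b J) u.1.1.1.1 := by
  have h1 := FU.piU_val rfl J (inT H u)
  rw [← h.inT_piU u] at h1
  exact h1

theorem piU_idem (h : HypH H J) (u : UHR H) : h.piU (h.piU u) = h.piU u := UHR_ext (by rw [h.piU_val, h.piU_val, dp_dp])

theorem piU_cont (h : HypH H J) : Continuous h.piU := by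
  refine Continuous.subtype_mk (Continuous.subtype_mk ?_ _) _
  have h1 : Continuous fun u : UHR H => (FU.piU (H := (⊤ : Subgroup (GK b L))) rfl J (inT H u)).1.1 :=
    continuous_subtype_val.comp (continuous_subtype_val.comp ((FU.piU_cont rfl J).comp inT_cont))
  exact h1.congr fun u => (congrArg (fun x : UHR (⊤ : Subgroup (GK b L)) => x.1.1) (h.inT_piU u)).symm

/-- The kernel is `N_J`. -/
theorem piU_ker (h : HypH H J) (u : UHR H) : h.piU u = 1 ↔ (u : HRt H) ∈ NoH H J := by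
  have h1 := FU.piU_ker (H := (⊤ : Subgroup (GK b L))) rfl J (inT H u)
  rw [← h.inT_piU u] at h1
  constructor
  · intro h2
    rw [h2, map_one] at h1
    have h3 := h1.1 rfl
    exact ⟨u.2, h3.2⟩
  · intro h2
    have h3 : ((inT H u : UHR (⊤ : Subgroup (GK b L))) : HRt (⊤ : Subgroup (GK b L))) ∈ NoH (⊤ : Subgroup (GK b L)) J := ⟨(inT H u).2, h2.2⟩
    exact inT_inj (by rw [h1.2 h3, map_one])

/-- The Levi projection of `U(K)`. -/
def qU (h : HypH H J) : HUH H →* HUH H :=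
  MonoidHom.mk' (fun u => (h.dpK u).choose) fun u v => HUH_ext (by
    have h1 := (h.dpK (u * v)).choose_spec
    have h2 := (h.dpK u).choose_spec
    have h3 := (h.dpK v).choose_spec
    have hu : u.1.1 ∈ HU b L := u.2
    have hv : v.1.1 ∈ HU b L := v.2
    rw [h1]
    show dp (dJ b J) (u.1.1.1.1 * v.1.1.1.1) = (h.dpK u).choose.1.1.1.1 * (h.dpK v).choose.1.1.1.1
    rw [h2, h3, dp_mul (HU_raise0 J hu) (HU_raise0 J hv)])

theorem qU_val (h : HypH H J) (u : HUH H) : (h.qU u).1.1.1.1 = dp (dJ b J) u.1.1.1.1 := (h.dpK u).choose_spec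

theorem qU_cpt (h : HypH H J) (u : HUH H) : h.piU (kUH H u) = kUH H (h.qU u) := by
  refine UHR_ext ?_
  rw [h.piU_val]
  refine Matrix.ext fun r c => ?_
  have h1 : (h.qU u).1.1.1.1 r c = dp (dJ b J) u.1.1.1.1 r c := by rw [h.qU_val]
  show dp (dJ b J) (kUH H u).1.1.1.1 r c = mixedEmbedding L ((h.qU u).1.1.1.1 r c)
  rw [h1]
  simp only [dp, Matrix.of_apply]
  split_ifs
  · rfl
  · rw [map_zero]

theorem qU_ker (h : HypH H J) (u : HUH H) : u ∈ h.qU.ker ↔ u.1.1 ∈ NJ b L J := by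
  have hu : u.1.1 ∈ HU b L := u.2
  rw [MonoidHom.mem_ker]
  have key : ∀ v : HUH H, h.qU v = 1 → ∀ r c, dJ b J r ≤ dJ b J c → v.1.1.1.1 r c = (1 : Matrix (I b) (I b) L) r c := by
    intro v hv r c hrc
    have hv' : v.1.1 ∈ HU b L := v.2
    rcases hrc.eq_or_lt with h' | h'
    · have h1 := h.qU_val v
      rw [hv] at h1
      have h2 : (1 : Matrix (I b) (I b) L) r c = dp (dJ b J) v.1.1.1.1 r c := congrFun (congrFun h1 r) c
      rw [h2]
      simp only [dp, Matrix.of_apply, if_pos h']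
    · rw [HU_raise0 J hv' r c (by omega), Matrix.one_apply_ne]
      rintro rfl
      exact lt_irrefl _ h'
  constructor
  · intro h'
    exact ⟨hu, fun r c hrc => ⟨key u h' r c hrc, key u⁻¹ (by rw [map_inv, h', inv_one]) r c hrc⟩⟩
  · intro h'
    refine HUH_ext ?_
    rw [h.qU_val]
    refine Matrix.ext fun r c => ?_
    show dp (dJ b J) u.1.1.1.1 r c = (1 : Matrix (I b) (I b) L) r c
    simp only [dp, Matrix.of_apply]
    split_ifs with h1
    · exact (h'.2 r c h1.le).1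
    · rw [Matrix.one_apply_ne]
      rintro rfl
      exact h1 rfl

theorem prjU (h : HypH H J) : Prj (kUH H) h.piU h.qU where
  act _ _ := rfl
  idem := h.piU_idem
  cpt := h.qU_cpt

/-! ## Conjugation of the Levi part (FU/W2) -/

theorem qU_UM (h : HypH H J) (u : HUH H) : (h.qU u).1.1 ∈ UM b L J := by
  refine ⟨(h.qU u).2, fun r c hrc => ⟨?_, ?_⟩⟩
  · have e : (h.qU u).1.1.1.1 r c = dp (dJ b J) u.1.1.1.1 r c := by rw [h.qU_val]
    rw [e]
    simp only [dp, Matrix.of_apply, if_neg hrc]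
  · have e : (h.qU u)⁻¹.1.1.1.1 r c = dp (dJ b J) (u⁻¹).1.1.1.1 r c := by rw [← map_inv, h.qU_val]
    show (h.qU u)⁻¹.1.1.1.1 r c = 0
    rw [e]
    simp only [dp, Matrix.of_apply, if_neg hrc]

/-- `n m n⁻¹ ∈ U` for `m` in the Levi part of `U`. -/
theorem conj_piU (h : HypH H J) {w : Equiv.Perm ι} (hw : IsWJ b J w) {n : H} (hn : IsN b L w n.1) (u : UHR H) :
    embH H n * (h.piU u : HRt H) * (embH H n)⁻¹ ∈ UHR H := by
  have hc : Continuous fun u : UHR H => embH H n * (h.piU u : HRt H) * (embH H n)⁻¹ :=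
    (continuous_const.mul (continuous_subtype_val.comp h.piU_cont)).mul continuous_const
  have h1 := map_mem_closure hc (h.dense u) (t := (UHR H : Set (HRt H))) (by
    rintro _ ⟨v, rfl⟩
    show embH H n * (h.piU (kUH H v) : HRt H) * (embH H n)⁻¹ ∈ UHR H
    rw [h.qU_cpt]
    show embH H n * embH H (h.qU v).1 * (embH H n)⁻¹ ∈ UHR H
    rw [← map_mul, ← map_inv, ← map_mul]
    have h2 : (n * (h.qU v).1 * n⁻¹).1 ∈ HU b L := conj_UM hw hn (h.qU_UM v)
    exact (HUH_mem H _).2 h2)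
  rwa [(UHR_closed H).closure_eq] at h1

/-- `T(K)` normalises `U`. -/
theorem conj_TU (h : HypH H J) {τ : H} (hτ : τ.1 ∈ TK b L) (u : UHR H) : embH H τ * (u : HRt H) * (embH H τ)⁻¹ ∈ UHR H := by
  have hc : Continuous fun u : UHR H => embH H τ * (u : HRt H) * (embH H τ)⁻¹ :=
    (continuous_const.mul continuous_subtype_val).mul continuous_const
  have h1 := map_mem_closure hc (h.dense u) (t := (UHR H : Set (HRt H))) (by
    rintro _ ⟨v, rfl⟩
    show embH H τ * embH H v.1 * (embH H τ)⁻¹ ∈ UHR H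
    rw [← map_mul, ← map_inv, ← map_mul]
    have h2 : (τ * v.1 * τ⁻¹).1 ∈ HU b L := TK_HU hτ v.2
    exact (HUH_mem H _).2 h2)
  rwa [(UHR_closed H).closure_eq] at h1

/-- `τ n m (τ n)⁻¹ ∈ U`. -/
theorem conj_TnU (h : HypH H J) {w : Equiv.Perm ι} (hw : IsWJ b J w) {n : H} (hn : IsN b L w n.1) {τ : H} (hτ : τ.1 ∈ TK b L) {m : UHR H} (hm : h.piU m = m) :
    embH H (τ * n) * (m : HRt H) * (embH H (τ * n))⁻¹ ∈ UHR H := by
  have h1 := h.conj_piU hw hn m
  rw [hm] at h1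
  have h2 := h.conj_TU hτ ⟨_, h1⟩
  have e : embH H (τ * n) * (m : HRt H) * (embH H (τ * n))⁻¹ = embH H τ * (embH H n * (m : HRt H) * (embH H n)⁻¹) * (embH H τ)⁻¹ := by
    rw [map_mul]
    group
  rw [e]
  exact h2

/-! ## The invariances of `XX` -/

variable {n : H} {Γ₁ : Subgroup H} {ga gb : H} {τ : TH H}

theorem XX_ker (h : HypH H J) : XX J n Γ₁ ga gb τ ⊆ h.qU.ker := fun u hu => (h.qU_ker u).2 hu.1

theorem XX_right (h : HypH H J) {u : HUH H} (hu : u ∈ XX J n Γ₁ ga gb τ) {δ : HUH H} (hδ : δ ∈ (cjG Γ₁ gb).subgroupOf (HUH H) ⊓ h.qU.ker) :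
    u * δ ∈ XX J n Γ₁ ga gb τ := by
  obtain ⟨hu1, u', hu', h2⟩ := hu
  refine ⟨(NJ b L J).mul_mem hu1 ((h.qU_ker δ).1 hδ.2), u', hu', ?_⟩
  have e : ga * (u' * τ.1 * n * (u * δ : HUH H).1) * gb⁻¹ = ga * (u' * τ.1 * n * u.1) * gb⁻¹ * (gb * δ.1 * gb⁻¹) := by
    rw [Subgroup.coe_mul]
    group
  rw [e]
  exact Γ₁.mul_mem h2 hδ.1

theorem XX_conj (h : HypH H J) {w : Equiv.Perm ι} (hw : IsWJ b J w) (hn : IsN b L w n.1) {u : HUH H} (hu : u ∈ XX J n Γ₁ ga gb τ) {γ : HUH H} (hγ : γ ∈ (cjG Γ₁ gb).subgroupOf (HUH H)) :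
    (h.qU γ)⁻¹ * u * γ ∈ XX J n Γ₁ ga gb τ := by
  obtain ⟨hu1, u', hu', h2⟩ := hu
  refine ⟨?_, ?_⟩
  · refine (h.qU_ker _).1 ?_
    have h3 : h.qU u = 1 := MonoidHom.mem_ker.1 ((h.qU_ker u).2 hu1)
    have h4 : h.qU (h.qU γ) = h.qU γ := by
      refine HUH_ext ?_
      rw [h.qU_val, h.qU_val, dp_dp]
    rw [MonoidHom.mem_ker, map_mul, map_mul, map_inv, h3, h4, mul_one, inv_mul_cancel]
  · set m : H := (h.qU γ).1 with hm
    have h5 : (τ.1 * n * m * n⁻¹ * τ.1⁻¹).1 ∈ HU b L := by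
      have h6 := TK_HU τ.2 (conj_UM hw hn (h.qU_UM γ))
      have e : (τ.1 * n * m * n⁻¹ * τ.1⁻¹).1 = τ.1.1 * (n.1 * (h.qU γ).1.1 * n.1⁻¹) * τ.1.1⁻¹ := by
        simp only [mul_assoc]
        rfl
      rw [e]
      exact h6
    refine ⟨u' * (τ.1 * n * m * n⁻¹ * τ.1⁻¹), (HUH H).mul_mem hu' ((HUH_mem H _).2 h5), ?_⟩
    have e : ga * (u' * (τ.1 * n * m * n⁻¹ * τ.1⁻¹) * τ.1 * n * ((h.qU γ)⁻¹ * u * γ : HUH H).1) * gb⁻¹ = ga * (u' * τ.1 * n * u.1) * gb⁻¹ * (gb * γ.1 * gb⁻¹) := by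
      rw [Subgroup.coe_mul, Subgroup.coe_mul, Subgroup.coe_inv, ← hm]
      group
    rw [e]
    exact Γ₁.mul_mem h2 hγ

end HypH

/-- The full group. -/
theorem hypH_top (hT : H = ⊤) (J : Finset b.support) : HypH H J where
  dpK := exists_dpHU hT J
  dense := kUH_dense hT
  split := by
    intro w Lw hw hW n hn γ hγ
    have hmem : ∀ g : GK b L, g ∈ H := fun g => by rw [hT]; exact Subgroup.mem_top g
    subst hW
    obtain ⟨u, hu, t, ht, v, hv, e⟩ := FC.cell_split (J := J) hw hγ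
    refine ⟨⟨u, hmem u⟩, hu, ⟨⟨t, hmem t⟩, ht⟩, ⟨⟨v, hmem v⟩, hv.1⟩, hv, Subtype.ext ?_⟩
    rw [e]
    show u * t * nW b L Lw * v = u * t * n.1 * v
    rw [hn]

end

end Pool.Agent.Lib.L8.QF
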