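import Pool.Agent.Lib.L8.QF.B1
import Pool.Agent.Lib.L8.QF.H0

/-!
# QF, module C5Q, B2 (design helper33): a block of letters, the real group
-/

namespace Pool.Agent.Lib.L8.QF

open MeasureTheory Matrix NumberField NumberField.InfinitePlace IsDedekindDomain Pool.Agent.Lib.H89N Pool.Agent.Lib.H33W Pool.Agent.Lib.H67G Pool.Agent.Lib.L1S Pool.Agent.Lib.L8 Pool.Agent.Lib.L8.FL
open scoped ENNReal Pointwise

noncomputable section

set_option linter.unusedSectionVars false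
set_option linter.unusedVariables false

variable {ι M N : Type} [Fintype ι] [DecidableEq ι] [AddCommGroup M] [Module ℚ M] [AddCommGroup N] [Module ℚ N]
  {P : RootPairing ι ℚ M N} [P.IsCrystallographic] [P.IsReduced] [P.IsIrreducible] [P.IsRootSystem] {b : P.Base}
  {L : Type} [Field L] [NumberField L]

/-- **The unipotent group of the Levi group**: the elements of `U` of degree zero. -/
def LoH (H : Subgroup (GK b L)) (J : Finset b.support) : Subgroup (HRt H) where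
  carrier := {u | u ∈ UHR H ∧ ∀ r c, dJ b J r ≠ dJ b J c → u.1.1.1 r c = 0 ∧ u⁻¹.1.1.1 r c = 0}
  one_mem' := ⟨one_mem _, fun r c h => by
    have h1 : r ≠ c := fun e => h (by rw [e])
    rw [inv_one]
    exact ⟨Matrix.one_apply_ne h1, Matrix.one_apply_ne h1⟩⟩
  mul_mem' := by
    rintro g g' ⟨hg0, hg⟩ ⟨hg0', hg'⟩
    have key : ∀ X Y : Matrix (I b) (I b) (EE L), (∀ r c, dJ b J r ≠ dJ b J c → X r c = 0) → (∀ r c, dJ b J r ≠ dJ b J c → Y r c = 0) → ∀ r c, dJ b J r ≠ dJ b J c → (X * Y) r c = 0 := by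
      intro X Y hX hY r c hrc
      rw [Matrix.mul_apply]
      refine Finset.sum_eq_zero fun k _ => ?_
      by_cases h1 : dJ b J r = dJ b J k
      · rw [hY k c (by rw [← h1]; exact hrc), mul_zero]
      · rw [hX r k h1, zero_mul]
    refine ⟨mul_mem hg0 hg0', fun r c hrc => ⟨key _ _ (fun r c h => (hg r c h).1) (fun r c h => (hg' r c h).1) r c hrc, ?_⟩⟩
    have e : (g * g')⁻¹.1.1.1 = g'⁻¹.1.1.1 * g⁻¹.1.1.1 := by
      rw [_root_.mul_inv_rev]
      rfl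
    rw [e]
    exact key _ _ (fun r c h => (hg' r c h).2) (fun r c h => (hg r c h).2) r c hrc
  inv_mem' := by
    rintro g ⟨hg0, hg⟩
    refine ⟨inv_mem hg0, fun r c hrc => ⟨(hg r c hrc).2, ?_⟩⟩
    rw [inv_inv]
    exact (hg r c hrc).1

/-- `{u ∈ U : n u n⁻¹ ∈ V}`. -/
def UnH (H : Subgroup (GK b L)) (n : HRt H) : Subgroup (HRt H) := UHR H ⊓ (VH H).comap (MulAut.conj n).toMonoidHom

variable {H : Subgroup (GK b L)}

theorem mem_UnH {n u : HRt H} : u ∈ UnH H n ↔ u ∈ UHR H ∧ n * u * n⁻¹ ∈ VH H := Iff.rfl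

/-- In terms of the components. PROOF: as `mem_NoH_iff`. -/
theorem mem_LoH_iff {J : Finset b.support} {u : HRt H} : u ∈ LoH H J ↔ ∀ w, pH H w u ∈ gU b ℂ ∧ ∀ r c, dJ b J r ≠ dJ b J c → (pH H w u).1.1 r c = 0 ∧ (pH H w u)⁻¹.1.1 r c = 0 := by
  have e2 : ∀ w, (pH H w u)⁻¹ = pH H w u⁻¹ := fun w => (map_inv (pH H w) u).symm
  constructor
  · rintro ⟨h1, h2⟩ w
    refine ⟨mem_UHR_iff.1 h1 w, fun r c hrc => ⟨?_, ?_⟩⟩
    · show evw w (u.1.1.1 r c) = _
      rw [(h2 r c hrc).1, map_zero]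
    · rw [e2]
      show evw w (u⁻¹.1.1.1 r c) = _
      rw [(h2 r c hrc).2, map_zero]
  · intro h
    refine ⟨mem_UHR_iff.2 fun w => (h w).1, fun r c hrc => ⟨evw_ext fun w => ?_, evw_ext fun w => ?_⟩⟩
    · rw [map_zero]
      exact ((h w).2 r c hrc).1
    · rw [map_zero]
      have h1 := ((h w).2 r c hrc).2
      rw [e2] at h1
      exact h1

/-- PROOF: as `mem_UwH_iff` (C5D). -/
theorem mem_UnH_iff {l : List b.support} {n : HRt H} (hn : ∀ w, pH H w n = gnl b ℂ l) {u : HRt H} : u ∈ UnH H n ↔ ∀ w, pH H w u ∈ (iwG b ℂ).Uw l := by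
  have e : ∀ w, pH H w (n * u * n⁻¹) = (iwG b ℂ).nl l * pH H w u * ((iwG b ℂ).nl l)⁻¹ := fun w => by
    rw [map_mul, map_mul, map_inv, hn]
    rfl
  constructor
  · rintro ⟨h1, h2⟩ w
    refine ⟨mem_UHR_iff.1 h1 w, ?_⟩
    rw [← e]
    exact mem_VH_iff.1 h2 w
  · intro h
    refine ⟨mem_UHR_iff.2 fun w => (h w).1, mem_VH_iff.2 fun w => ?_⟩
    show pH H w (n * u * n⁻¹) ∈ gV b ℂ
    rw [e]
    exact (h w).2

/-- PROOF: as `NoH_closed`. -/
theorem LoH_closed (J : Finset b.support) : IsClosed (LoH H J : Set (HRt H)) := by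
  have h1 : ∀ r c, Continuous fun g : HRt H => g.1.1.1 r c := fun r c => (cont_entry b L r c).comp continuous_subtype_val
  have e : (LoH H J : Set (HRt H)) = (UHR H : Set (HRt H)) ∩ ⋂ (r : I b) (c : I b) (_ : dJ b J r ≠ dJ b J c),
      {g : HRt H | g.1.1.1 r c = 0} ∩ {g : HRt H | g⁻¹.1.1.1 r c = 0} := by
    ext g
    simp only [Set.mem_inter_iff, Set.mem_iInter]
    exact Iff.rfl
  rw [e]
  refine (UHR_closed H).inter (isClosed_iInter fun r => isClosed_iInter fun c => isClosed_iInter fun _ => ?_)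
  exact (isClosed_eq (h1 r c) continuous_const).inter (isClosed_eq ((h1 r c).comp continuous_inv) continuous_const)

/-- PROOF: as `UwH_closed`. -/
theorem UnH_closed (n : HRt H) : IsClosed (UnH H n : Set (HRt H)) := by
  have e : (UnH H n : Set (HRt H)) = (UHR H : Set (HRt H)) ∩ (fun u => n * u * n⁻¹) ⁻¹' (VH H : Set (HRt H)) := rfl
  rw [e]
  exact (UHR_closed H).inter (VH_closed.preimage (by fun_prop))

/-- **`N_J = U_w`**. PROOF: as `NoH_eq` (C5F) with `mem_UnH_iff` in the place of `mem_UwH_iff`. -/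
theorem NoH_UnH {J : Finset b.support} {l : List b.support} (hL : RedW b l) (hJ : IsWJ b J (wW b l)) {n : HRt H} (hn : ∀ w, pH H w n = gnl b ℂ l.reverse) : NoH H J = UnH H n := by
  have e0 : wW b l = wL b l.reverse := wW_eq l
  have e1 : (wW b l)⁻¹ = wL b l.reverse.reverse := by
    rw [← FC.wW_reverse, wW_eq]
  have hW1 : ∀ i : b.support, i ∉ J → 0 < b.height (wL b l.reverse (i : ι)) := by
    intro i hi
    have h1 := (hJ.2 (i : ι) (b.isPos_of_mem_support i.2)).2 (by rw [FC.dJ_simple, if_neg hi])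
    rw [e0] at h1
    exact h1
  have hW2 : ∀ i : b.support, dJ b J (Sum.inr (wL b l.reverse.reverse (i : ι))) ≤ 0 := by
    intro i
    rw [← e1]
    by_cases hp : b.IsPos ((wW b l)⁻¹ (i : ι))
    · have h1 := (hJ.2 _ hp).1 (by
        have e2 : wW b l ((wW b l)⁻¹ (i : ι)) = (i : ι) := (wW b l).apply_symm_apply _
        rw [e2]
        exact b.isPos_of_mem_support i.2)
      exact h1.le
    · exact Finset.sum_nonpos fun j _ => FC.mc_neg b hp j
  have hsub : ∀ (w : InfinitePlace L) (x : GF b ℂ), x ∈ (iwG b ℂ).Uw l.reverse → x ∈ gU b ℂ ∧ ∀ r c, dJ b J r ≤ dJ b J c →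
      x.1.1 r c = (1 : Matrix (I b) (I b) ℂ) r c ∧ x⁻¹.1.1 r c = (1 : Matrix (I b) (I b) ℂ) r c := fun w x hx => by
    have hx' := inv_mem hx
    exact ⟨hx.1, fun r c hrc => ⟨c5f_sub hW1 hx.1 hx.2 hrc, c5f_sub hW1 hx'.1 hx'.2 hrc⟩⟩
  ext u
  rw [mem_NoH_iff, mem_UnH_iff hn]
  refine forall_congr' fun w => ⟨?_, fun h => hsub w _ h⟩
  rintro ⟨h1, h2⟩
  obtain ⟨u₁, h3, h4, u₂, h5, h6⟩ := c5f_dec (iwG b ℂ) (c5f_red hL) h1
  have h7 := hsub w u₂ h5
  have key : ∀ X Y : Matrix (I b) (I b) ℂ, (∀ r c, dJ b J r ≤ dJ b J c → X r c = (1 : Matrix (I b) (I b) ℂ) r c) →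
      (∀ r c, dJ b J r ≤ dJ b J c → Y r c = (1 : Matrix (I b) (I b) ℂ) r c) → ∀ r c, dJ b J r ≤ dJ b J c → (X * Y) r c = (1 : Matrix (I b) (I b) ℂ) r c := by
    intro X Y hX hY r c hrc
    rw [Matrix.mul_apply, Finset.sum_eq_single r]
    · rw [hX r r le_rfl, hY r c hrc, Matrix.one_apply_eq, one_mul]
    · intro k _ hk
      by_cases h1 : dJ b J r ≤ dJ b J k
      · rw [hX r k h1, Matrix.one_apply_ne hk.symm, zero_mul]
      · have h2 : dJ b J k ≤ dJ b J c := (not_le.1 h1).le.trans hrc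
        by_cases h3 : k = c
        · subst h3
          exact absurd hrc h1
        · rw [hY k c h2, Matrix.one_apply_ne h3, mul_zero]
    · intro h
      exact absurd (Finset.mem_univ r) h
  have h8 : u₁ = 1 := by
    refine c5f_one (l := l.reverse) hW2 h3 (fun r c hrc => ?_) h4
    have e2 : u₁ = pH H w u * u₂⁻¹ := by
      rw [eq_mul_inv_iff_mul_eq]
      exact h6.symm
    rw [e2]
    exact key _ _ (fun r c h => (h2 r c h).1) (fun r c h => (h7.2 r c h).2) r c hrc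
  rw [h6, h8, one_mul]
  exact h5

/-- The Levi part is `U_m`. PROOF: `mem_LoH_iff`, `mem_UnH_iff`, `ld2_mp`, `ld2_mpr` (for `u` and `u⁻¹`). -/
theorem LoH_UnH {B : List b.support} {O : Finset b.support} (hB : Blk b B O) {m : HRt H} (hm : ∀ w, pH H w m = gnl b ℂ B) : LoH H Oᶜ = UnH H m := by
  ext u
  rw [mem_LoH_iff, mem_UnH_iff hm]
  refine forall_congr' fun w => ⟨?_, ?_⟩
  · rintro ⟨h1, h2⟩
    exact ⟨h1, ld2_mpr hB h1 fun r c hrc => (h2 r c hrc).1⟩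
  · intro h
    have h' := inv_mem h
    exact ⟨h.1, fun r c hrc => ⟨ld2_mp hB h.1 h.2 hrc, ld2_mp hB h'.1 h'.2 hrc⟩⟩

/-- The Levi projection as a map of the real group. -/
def b2_pi {J : Finset b.support} (h : HypH H J) (u : HRt H) : HRt H := by
  classical
  exact if hu : u ∈ UHR H then (h.piU ⟨u, hu⟩ : HRt H) else 1

theorem b2_pi_eq {J : Finset b.support} (h : HypH H J) {u : HRt H} (hu : u ∈ UHR H) : b2_pi h u = (h.piU ⟨u, hu⟩ : HRt H) := dif_pos hu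

theorem b2_pi_mul {J : Finset b.support} (h : HypH H J) {u v : HRt H} (hu : u ∈ UHR H) (hv : v ∈ UHR H) : b2_pi h (u * v) = b2_pi h u * b2_pi h v := by
  rw [b2_pi_eq h hu, b2_pi_eq h hv, b2_pi_eq h (mul_mem hu hv), ← Subgroup.coe_mul, ← map_mul]
  rfl

theorem b2_pi_inv {J : Finset b.support} (h : HypH H J) {u : HRt H} (hu : u ∈ UHR H) : b2_pi h u⁻¹ = (b2_pi h u)⁻¹ := by
  rw [b2_pi_eq h hu, b2_pi_eq h (inv_mem hu), ← Subgroup.coe_inv, ← map_inv]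
  rfl

theorem b2_pi_mem {J : Finset b.support} (h : HypH H J) {u : HRt H} (hu : u ∈ UHR H) : b2_pi h u ∈ UHR H := by
  rw [b2_pi_eq h hu]
  exact (h.piU ⟨u, hu⟩).2

theorem b2_pi_idem {J : Finset b.support} (h : HypH H J) {u : HRt H} (hu : u ∈ UHR H) : b2_pi h (b2_pi h u) = b2_pi h u := by
  rw [b2_pi_eq h (b2_pi_mem h hu)]
  have e : (⟨b2_pi h u, b2_pi_mem h hu⟩ : UHR H) = h.piU ⟨u, hu⟩ := Subtype.ext (b2_pi_eq h hu)
  rw [e, h.piU_idem, b2_pi_eq h hu]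

theorem b2_pi_one {J : Finset b.support} (h : HypH H J) {u : HRt H} (hu : u ∈ UHR H) : b2_pi h u = 1 ↔ u ∈ NoH H J := by
  rw [b2_pi_eq h hu, ← h.piU_ker ⟨u, hu⟩]
  constructor
  · intro h1
    exact Subtype.ext h1
  · intro h1
    rw [h1]
    rfl

theorem b2_pi_entry {J : Finset b.support} (h : HypH H J) {u : HRt H} (hu : u ∈ UHR H) {r c : I b} (hrc : dJ b J r ≠ dJ b J c) : (b2_pi h u).1.1.1 r c = 0 := by
  rw [b2_pi_eq h hu]
  have h1 := congrFun (congrFun (h.piU_val ⟨u, hu⟩) r) c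
  refine h1.trans ?_
  simp only [FC.dp, Matrix.of_apply, if_neg hrc]

theorem b2_pi_Lo {J : Finset b.support} (h : HypH H J) {u : HRt H} (hu : u ∈ UHR H) : b2_pi h u ∈ LoH H J := by
  refine ⟨b2_pi_mem h hu, fun r c hrc => ⟨b2_pi_entry h hu hrc, ?_⟩⟩
  rw [← b2_pi_inv h hu]
  exact b2_pi_entry h (inv_mem hu) hrc

theorem b2_pi_self {J : Finset b.support} (h : HypH H J) {u : HRt H} (hu : u ∈ LoH H J) : b2_pi h u = u := by
  rw [b2_pi_eq h hu.1]
  refine congrArg (Subtype.val) (FU.UHR_ext (u := h.piU ⟨u, hu.1⟩) (v := ⟨u, hu.1⟩) ?_)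
  rw [h.piU_val]
  refine Matrix.ext fun r c => ?_
  simp only [FC.dp, Matrix.of_apply]
  split_ifs with h1
  · rfl
  · exact ((hu.2 r c h1).1).symm

theorem b2_pi_cont {J : Finset b.support} (h : HypH H J) : ContinuousOn (b2_pi h) (UHR H : Set (HRt H)) := by
  rw [continuousOn_iff_continuous_domRestrict]
  have h1 : Continuous fun u : UHR H => (h.piU u : HRt H) := continuous_subtype_val.comp h.piU_cont
  refine h1.congr fun u => ?_
  exact (b2_pi_eq h u.2).symm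

/-- **The chain of right Haar measures, one block.** PROOF: as `muW_RH` (C5E). `V = UnH H (n * m)`, `V₁ = V ⊓ NoH H Oᶜ`, `V₂ = LoH H Oᶜ`. `pH (n * m) = gnl (l ++ B)`. (i) `V₂ ≤ V`: `LoH_UnH`, `blk_le` at every place (`mem_UnH_iff`). (ii) `v ∈ V`: `π(v) = h.piU v ∈ V₂` (`piU_val`, `dp` kills the
entries of nonzero degree), `v π(v)⁻¹ ∈ V ⊓ NoH` (`piU_ker`, `piU_idem`). (iii) `V₂` normalises `V₁` (`NoH` is the kernel of the homomorphism `piU`). (iv) `π(a b) = b`. (v) `x ∈ V₁ ↔ m x m⁻¹ ∈ UnH H n`: (→) `m x m⁻¹ ∈ UHR` by `ld1_mpr` at every place, and `n (m x m⁻¹) n⁻¹ ∈ VH`; (←) `y = m x m⁻¹`, `y ∈ Uw l` at every place,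
so `x = m⁻¹ y m ∈ Uw (l ++ B)` (`blk_up`) and `x ∈ NoH` by `ld1_mp` (`x ∈ gU`, `m x m⁻¹ = y ∈ gU`; the same for `x⁻¹`); so `rh_conj` gives `RH V₁ (μ.map fun x => m⁻¹ * x * m⁻¹⁻¹)`; then `rh_prod`. -/
theorem chain_RH {O : Finset b.support} (h : HypH H Oᶜ) {l B : List b.support} (hB : Blk b B O) (hl : (iwG b ℂ).Red (l ++ B)) {n m : HRt H} (hn : ∀ w, pH H w n = gnl b ℂ l) (hm : ∀ w, pH H w m = gnl b ℂ B)
    {μ ν : Measure (HRt H)} (hμ : RH (UnH H n) μ) (hν : RH (LoH H Oᶜ) ν) : RH (UnH H (n * m)) ((μ.prod ν).map fun p => m⁻¹ * p.1 * m * p.2) := by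
  have hnm : ∀ w, pH H w (n * m) = gnl b ℂ (l ++ B) := fun w => by
    rw [map_mul, hn, hm, gnl_append]
  have hcl := UnH_closed (H := H) (n * m)
  have hV2 : LoH H Oᶜ ≤ UnH H (n * m) := by
    intro u hu
    rw [LoH_UnH hB hm] at hu
    exact (mem_UnH_iff hnm).2 fun w => blk_le (iwG b ℂ) hl hB.red ((mem_UnH_iff hm).1 hu w)
  have hsub : UnH H (n * m) ≤ UHR H := fun u hu => hu.1
  have h2 : RH (UnH H (n * m) ⊓ NoH H Oᶜ) (μ.map fun x => m⁻¹ * x * m⁻¹⁻¹) := by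
    refine rh_conj m⁻¹ (fun x => ?_) hμ
    rw [inv_inv]
    have e0 : ∀ w, pH H w (m * x * m⁻¹) = gnl b ℂ B * pH H w x * (gnl b ℂ B)⁻¹ := fun w => by
      rw [map_mul, map_mul, map_inv, hm]
    constructor
    · rintro ⟨h3, h4⟩
      have h5 := mem_NoH_iff.1 h4
      refine ⟨mem_UHR_iff.2 fun w => ?_, ?_⟩
      · rw [e0]
        exact ld1_mpr hB (h5 w).1 fun r c hrc => ((h5 w).2 r c hrc).1
      · show n * (m * x * m⁻¹) * n⁻¹ ∈ VH H
        have h6 : n * m * x * (n * m)⁻¹ ∈ VH H := h3.2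
        have e1 : n * (m * x * m⁻¹) * n⁻¹ = n * m * x * (n * m)⁻¹ := by group
        rw [e1]
        exact h6
    · intro h3
      have h4 := (mem_UnH_iff hn).1 h3
      have h5 : ∀ w, pH H w x ∈ (iwG b ℂ).Uw (l ++ B) := fun w => by
        have h6 := blk_up (iwG b ℂ) hl (h4 w)
        have e1 : ((iwG b ℂ).nl B)⁻¹ * pH H w (m * x * m⁻¹) * (iwG b ℂ).nl B = pH H w x := by
          rw [e0]
          show (gnl b ℂ B)⁻¹ * (gnl b ℂ B * pH H w x * (gnl b ℂ B)⁻¹) * gnl b ℂ B = pH H w x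
          group
        rwa [e1] at h6
      refine ⟨(mem_UnH_iff hnm).2 h5, mem_NoH_iff.2 fun w => ?_⟩
      have h7 : gnl b ℂ B * pH H w x * (gnl b ℂ B)⁻¹ ∈ gU b ℂ := by
        rw [← e0]
        exact (h4 w).1
      have h8 : gnl b ℂ B * (pH H w x)⁻¹ * (gnl b ℂ B)⁻¹ ∈ gU b ℂ := by
        have e1 : gnl b ℂ B * (pH H w x)⁻¹ * (gnl b ℂ B)⁻¹ = (gnl b ℂ B * pH H w x * (gnl b ℂ B)⁻¹)⁻¹ := by group
        rw [e1]
        exact inv_mem h7
      exact ⟨(h5 w).1, fun r c hrc => ⟨ld1_mp hB (h5 w).1 h7 hrc, ld1_mp hB (inv_mem (h5 w).1) h8 hrc⟩⟩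
  have h3 := rh_prod (V := UnH H (n * m)) (V1 := UnH H (n * m) ⊓ NoH H Oᶜ) (V2 := LoH H Oᶜ)
    hcl inf_le_left hV2 (fun v hv => by
      have hv0 := hsub hv
      have h4 := b2_pi_Lo h hv0
      refine ⟨v * (b2_pi h v)⁻¹, ⟨Subgroup.mul_mem _ hv (Subgroup.inv_mem _ (hV2 h4)), ?_⟩, b2_pi h v, h4, by group⟩
      refine (b2_pi_one h (mul_mem hv0 (inv_mem (b2_pi_mem h hv0)))).1 ?_
      rw [b2_pi_mul h hv0 (inv_mem (b2_pi_mem h hv0)), b2_pi_inv h (b2_pi_mem h hv0), b2_pi_idem h hv0, mul_inv_cancel])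
    (fun g hg a ha => by
      refine ⟨Subgroup.mul_mem _ (Subgroup.mul_mem _ (hV2 hg) ha.1) (Subgroup.inv_mem _ (hV2 hg)), ?_⟩
      have hg0 := hg.1
      have ha0 := hsub ha.1
      refine (b2_pi_one h (mul_mem (mul_mem hg0 ha0) (inv_mem hg0))).1 ?_
      rw [b2_pi_mul h (mul_mem hg0 ha0) (inv_mem hg0), b2_pi_mul h hg0 ha0, b2_pi_inv h hg0, (b2_pi_one h ha0).2 ha.2, mul_one, mul_inv_cancel])
    (π := b2_pi h) ((b2_pi_cont h).mono hsub)
    (fun a ha g hg => by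
      rw [b2_pi_mul h (hsub ha.1) hg.1, (b2_pi_one h (hsub ha.1)).2 ha.2, one_mul, b2_pi_self h hg])
    h2 hν
  have hm1 : Measurable fun x : HRt H => m⁻¹ * x * m⁻¹⁻¹ := by fun_prop
  have s1 : SigmaFinite μ := rh_sigma hμ
  have s2 : SigmaFinite ν := rh_sigma hν
  have e1 : (μ.map fun x => m⁻¹ * x * m⁻¹⁻¹).prod ν =
      (μ.prod ν).map (Prod.map (fun x => m⁻¹ * x * m⁻¹⁻¹) id) := by
    rw [← Measure.map_prod_map _ _ hm1 measurable_id, Measure.map_id]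
  rw [e1, Measure.map_map (by fun_prop) (hm1.prodMap measurable_id)] at h3
  have e2 : ((fun p : HRt H × HRt H => p.1 * p.2) ∘ Prod.map (fun x => m⁻¹ * x * m⁻¹⁻¹) id) =
      fun p : HRt H × HRt H => m⁻¹ * p.1 * m * p.2 := by
    funext p
    show m⁻¹ * p.1 * m⁻¹⁻¹ * p.2 = _
    rw [inv_inv]
  rwa [e2] at h3

end

end Pool.Agent.Lib.L8.QF
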