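import Pool.Agent.Lib.L8.QF.EQ0

/-!
# QF, EQ1: the Galois group and the heights at the finite places (helper43)

`Tq Q s g g₁` means `g₁ = τ_s g` for the elements of `G(L)`. The heights, the parabolic groups, the levels, the root elements under `τ_s`. For the elements fixed by the Galois group `Ah b (spl s w) z (s i) = Ah b w z i`.
-/

namespace Pool.Agent.Lib.L8.QF

open Matrix NumberField IsDedekindDomain Pool.Agent.Lib.H89N Pool.Agent.Lib.L1S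
open Pool.Agent.Lib.L8.FL (av aI Gv Kv Ah TK tv PJ G1 fe)

noncomputable section

set_option linter.unusedSectionVars false

variable {ι M N : Type} [Fintype ι] [DecidableEq ι] [AddCommGroup M] [Module ℚ M] [AddCommGroup N] [Module ℚ N]
  {P : RootPairing ι ℚ M N} [P.IsCrystallographic] [P.IsReduced] [P.IsIrreducible] [P.IsRootSystem] {b : P.Base}
  {K L : Type} [Field K] [NumberField K] [Field L] [NumberField L] [Algebra K L] {Q : QS b K L}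

/-! ## 1. The action on the matrices -/

theorem qta_comp (s t : L ≃ₐ[K] L) (X : Matrix (I b) (I b) L) : qta Q (s * t) X = qta Q s (qta Q t X) := by
  have hp : ∀ r : I b, (Q.da (s * t)).pI r = (Q.da s).pI ((Q.da t).pI r) := by
    intro r
    rcases r with i | β
    · have h : (Q.da (s * t)).sp i = (Q.da s).sp ((Q.da t).sp i) := by
        apply Subtype.ext
        show Q.act (s * t) i = Q.act s (Q.act t i)
        rw [map_mul]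
        rfl
      rw [DA.pI_inl, DA.pI_inl, DA.pI_inl, h]
    · rw [DA.pI_inr, DA.pI_inr, DA.pI_inr, map_mul]
      rfl
  refine (Q.da (s * t)).cj_eq fun r c => ?_
  rw [hp, hp, qta_apply, qta_apply]
  rfl

theorem qta_id (X : Matrix (I b) (I b) L) : qta Q 1 X = X := by
  have hp : ∀ r : I b, (Q.da (1 : L ≃ₐ[K] L)).pI r = r := by
    intro r
    rcases r with i | β
    · have h : (Q.da (1 : L ≃ₐ[K] L)).sp i = i := by
        apply Subtype.ext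
        show Q.act 1 i = i
        rw [map_one]
        rfl
      rw [DA.pI_inl, h]
    · rw [DA.pI_inr, map_one]
      rfl
  refine (Q.da 1).cj_eq fun r c => ?_
  rw [hp, hp]
  rfl

theorem qta_xx (s : L ≃ₐ[K] L) (i : b.support) (t : L) : qta Q s (xx b (i : ι) t) = xx b ((Q.da s).sp i : ι) (s t) := by
  unfold qta
  have h1 : (xx b (i : ι) t).map s = xx b (i : ι) (s t) := xx_map b (i : ι) (s : L →+* L) t
  rw [h1]
  unfold xx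
  rw [DA.cj_ex, E_simple, E_simple, DA.cj_eZ]

theorem qta_xx' (s : L ≃ₐ[K] L) (i : b.support) (t : L) : qta Q s (xx b (ng P i) t) = xx b (ng P ((Q.da s).sp i : ι)) (s t) := by
  unfold qta
  have h1 : (xx b (ng P i) t).map s = xx b (ng P i) (s t) := xx_map b (ng P i) (s : L →+* L) t
  rw [h1]
  unfold xx
  rw [DA.cj_ex, E_neg_simple, E_neg_simple, DA.cj_fZ]

/-! ## 2. The relation `g₁ = τ_s g` -/

/-- `g₁ = τ_s g`. -/
def Tq (Q : QS b K L) (s : L ≃ₐ[K] L) (g g₁ : GK b L) : Prop := g₁.1.1 = qta Q s g.1.1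

theorem Tq.of_Fx {z : GK b L} (h : Fx Q z.1.1) (s : L ≃ₐ[K] L) : Tq Q s z z := ((fx_iff.1 h) s).symm

theorem Tq.of_HQ {z : GK b L} (h : z ∈ HQ Q) (s : L ≃ₐ[K] L) : Tq Q s z z := Tq.of_Fx (hq_fx h) s

variable {s : L ≃ₐ[K] L} {g g₁ h h₁ : GK b L}

theorem Tq.entry (hg : Tq Q s g g₁) (r c : I b) : g₁.1.1 ((Q.da s).pI r) ((Q.da s).pI c) = s (g.1.1 r c) := by
  rw [show g₁.1.1 = qta Q s g.1.1 from hg]
  exact qta_apply s _ r c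

theorem Tq.one : Tq Q s 1 1 := (qta_one s).symm

theorem Tq.mul (hg : Tq Q s g g₁) (hh : Tq Q s h h₁) : Tq Q s (g * h) (g₁ * h₁) := by
  show g₁.1.1 * h₁.1.1 = qta Q s (g.1.1 * h.1.1)
  rw [qta_mul, ← show g₁.1.1 = qta Q s g.1.1 from hg, ← show h₁.1.1 = qta Q s h.1.1 from hh]

theorem Tq.inv (hg : Tq Q s g g₁) : Tq Q s g⁻¹ g₁⁻¹ := by
  have h1 : g₁.1.1 * qta Q s g⁻¹.1.1 = 1 := by
    rw [show g₁.1.1 = qta Q s g.1.1 from hg, ← qta_mul]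
    have e : g.1.1 * g⁻¹.1.1 = 1 := g.1.mul_inv
    rw [e, qta_one]
  have h2 : g₁⁻¹.1.1 * g₁.1.1 = 1 := g₁.1.inv_mul
  calc g₁⁻¹.1.1 = g₁⁻¹.1.1 * (g₁.1.1 * qta Q s g⁻¹.1.1) := by rw [h1, mul_one]
    _ = qta Q s g⁻¹.1.1 := by rw [← mul_assoc, h2, one_mul]

theorem Tq.uniq {g₂ : GK b L} (hg : Tq Q s g g₁) (hg' : Tq Q s g g₂) : g₁ = g₂ := Subtype.ext (Units.ext ((show g₁.1.1 = qta Q s g.1.1 from hg).trans (show g₂.1.1 = qta Q s g.1.1 from hg').symm))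

theorem Tq.symm (hg : Tq Q s g g₁) : Tq Q s⁻¹ g₁ g := by
  show g.1.1 = qta Q s⁻¹ g₁.1.1
  rw [show g₁.1.1 = qta Q s g.1.1 from hg, ← qta_comp, inv_mul_cancel, qta_id]

theorem Tq.trans {t : L ≃ₐ[K] L} {g₂ : GK b L} (hg : Tq Q s g g₁) (hg' : Tq Q t g₁ g₂) : Tq Q (t * s) g g₂ := by
  show g₂.1.1 = qta Q (t * s) g.1.1
  rw [qta_comp, ← show g₁.1.1 = qta Q s g.1.1 from hg]
  exact hg'

theorem Tq.b1x (s : L ≃ₐ[K] L) (i : b.support) (t : L) : Tq Q s (b1x b L (i : ι) t) (b1x b L ((Q.da s).sp i : ι) (s t)) := (qta_xx s i t).symm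

theorem Tq.b1x' (s : L ≃ₐ[K] L) (i : b.support) (t : L) : Tq Q s (Pool.Agent.Lib.L1S.b1x b L (ng P i) t) (Pool.Agent.Lib.L1S.b1x b L (ng P ((Q.da s).sp i : ι)) (s t)) := (qta_xx' s i t).symm

theorem Tq.ex (Q : QS b K L) (s : L ≃ₐ[K] L) (g : GK b L) : ∃ g₁ : GK b L, Tq Q s g g₁ := by
  obtain ⟨g, hg⟩ := g
  have hg' : g ∈ Subgroup.closure {g : GL (I b) L | ∃ (i : b.support) (t : L), g = xG b (i : ι) t ∨ g = xG b (ng P i) t} := by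
    rw [← GQ_eq]
    exact hg
  have key : ∃ g₁ : GK b L, g₁.1.1 = qta Q s g.1 := by
    induction hg' using Subgroup.closure_induction with
    | mem x hx =>
      obtain ⟨i, t, rfl | rfl⟩ := hx
      · exact ⟨Pool.Agent.Lib.L1S.b1x b L ((Q.da s).sp i : ι) (s t), (qta_xx s i t).symm⟩
      · exact ⟨Pool.Agent.Lib.L1S.b1x b L (ng P ((Q.da s).sp i : ι)) (s t), (qta_xx' s i t).symm⟩
    | one => exact ⟨1, (qta_one s).symm⟩
    | mul x y hx hy ihx ihy =>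
      have hx2 : x ∈ GQ b L := by rw [GQ_eq]; exact hx
      have hy2 : y ∈ GQ b L := by rw [GQ_eq]; exact hy
      obtain ⟨x₁, h1⟩ := ihx hx2
      obtain ⟨y₁, h2⟩ := ihy hy2
      exact ⟨x₁ * y₁, Tq.mul (g := ⟨x, hx2⟩) (h := ⟨y, hy2⟩) h1 h2⟩
    | inv x hx ihx =>
      have hx2 : x ∈ GQ b L := by rw [GQ_eq]; exact hx
      obtain ⟨x₁, h1⟩ := ihx hx2
      exact ⟨x₁⁻¹, Tq.inv (g := ⟨x, hx2⟩) h1⟩
  exact key

theorem Tq.b1m (s : L ≃ₐ[K] L) (i : b.support) : Tq Q s (b1m b L i 1) (b1m b L ((Q.da s).sp i) 1) := by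
  have h1 : s (((1 : Lˣ) : L)) = ((1 : Lˣ) : L) := by rw [Units.val_one, map_one]
  have h2 : s (-((((1 : Lˣ)⁻¹ : Lˣ)) : L)) = -((((1 : Lˣ)⁻¹ : Lˣ)) : L) := by rw [inv_one, Units.val_one, map_neg, map_one]
  have h3 := Tq.b1x (Q := Q) s i ((1 : Lˣ) : L)
  have h4 := Tq.b1x' (Q := Q) s i (-((((1 : Lˣ)⁻¹ : Lˣ)) : L))
  rw [h1] at h3
  rw [h2] at h4
  exact (h3.mul h4).mul h3

/-! ## 3. Subgroups -/

theorem Tq.one_apply (s : L ≃ₐ[K] L) (r c : I b) : (1 : Matrix (I b) (I b) L) ((Q.da s).pI r) ((Q.da s).pI c) = s ((1 : Matrix (I b) (I b) L) r c) := by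
  have h1 := qta_apply (Q := Q) s (1 : Matrix (I b) (I b) L) r c
  rwa [qta_one] at h1

theorem Tq.HU (hg : Tq Q s g g₁) (hu : g ∈ HU b L) : g₁ ∈ HU b L := by
  rw [mem_HU_iff] at hu ⊢
  intro r c hrc
  obtain ⟨r, rfl⟩ := (Q.da s).pI.surjective r
  obtain ⟨c, rfl⟩ := (Q.da s).pI.surjective c
  rw [(Q.da s).ht_pI, (Q.da s).ht_pI] at hrc
  rw [hg.entry, hu r c hrc, Tq.one_apply]

theorem Tq.HU_iff (hg : Tq Q s g g₁) : g₁ ∈ Pool.Agent.Lib.L1S.HU b L ↔ g ∈ Pool.Agent.Lib.L1S.HU b L := ⟨hg.symm.HU, hg.HU⟩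

theorem Tq.TK (hg : Tq Q s g g₁) (ht : g ∈ TK b L) : g₁ ∈ TK b L := by
  intro r c hrc
  obtain ⟨r, rfl⟩ := (Q.da s).pI.surjective r
  obtain ⟨c, rfl⟩ := (Q.da s).pI.surjective c
  have hrc' : r ≠ c := fun h => hrc (by rw [h])
  rw [hg.entry, hg.inv.entry, (ht r c hrc').1, (ht r c hrc').2, map_zero]
  exact ⟨rfl, rfl⟩

theorem Tq.TK_iff (hg : Tq Q s g g₁) : g₁ ∈ FL.TK b L ↔ g ∈ FL.TK b L := ⟨hg.symm.TK, hg.TK⟩

theorem Tq.tv (hg : Tq Q s g g₁) (i : b.support) : tv b L g₁ ((Q.da s).sp i) = s (tv b L g i) := hg.entry (Sum.inr (i : ι)) (Sum.inr (i : ι))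

theorem Tq.Gv (hg : Tq Q s g g₁) {w : HeightOneSpectrum (𝓞 L)} (hw : g ∈ Gv b w) : g₁ ∈ Gv b (spl s w) := by
  intro r c
  obtain ⟨r, rfl⟩ := (Q.da s).pI.surjective r
  obtain ⟨c, rfl⟩ := (Q.da s).pI.surjective c
  rw [hg.entry, hg.inv.entry, av_spl, av_spl]
  exact hw r c

theorem Tq.Gv_iff (hg : Tq Q s g g₁) (w : HeightOneSpectrum (𝓞 L)) : g₁ ∈ FL.Gv b (spl s w) ↔ g ∈ FL.Gv b w := by
  refine ⟨fun h => ?_, hg.Gv⟩
  have h1 := hg.symm.Gv h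
  rwa [spl_inv_apply] at h1

theorem Tq.sub_entry (hg : Tq Q s g g₁) (r c : I b) : (g₁.1.1 - 1) ((Q.da s).pI r) ((Q.da s).pI c) = s ((g.1.1 - 1) r c) := by
  rw [Matrix.sub_apply, Matrix.sub_apply, hg.entry, Tq.one_apply, map_sub]

theorem Tq.Kv (hg : Tq Q s g g₁) {w : HeightOneSpectrum (𝓞 L)} {𝔫 : Ideal (𝓞 K)} (hw : g ∈ Kv b (up L 𝔫) w) : g₁ ∈ Kv b (up L 𝔫) (spl s w) := by
  intro r c
  obtain ⟨r, rfl⟩ := (Q.da s).pI.surjective r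
  obtain ⟨c, rfl⟩ := (Q.da s).pI.surjective c
  rw [hg.sub_entry, hg.inv.sub_entry, av_spl, av_spl, aI_spl]
  exact hw r c

theorem Tq.Kv_iff (hg : Tq Q s g g₁) (w : HeightOneSpectrum (𝓞 L)) (𝔫 : Ideal (𝓞 K)) : g₁ ∈ FL.Kv b (up L 𝔫) (spl s w) ↔ g ∈ FL.Kv b (up L 𝔫) w := by
  refine ⟨fun h => ?_, hg.Kv⟩
  have h1 := hg.symm.Kv h
  rwa [spl_inv_apply] at h1

theorem Tq.G1 (hg : Tq Q s g g₁) {𝔫 : Ideal (𝓞 K)} (hw : g ∈ G1 b (up L 𝔫)) : g₁ ∈ G1 b (up L 𝔫) := by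
  intro r c
  obtain ⟨r, rfl⟩ := (Q.da s).pI.surjective r
  obtain ⟨c, rfl⟩ := (Q.da s).pI.surjective c
  rw [hg.sub_entry, hg.inv.sub_entry]
  exact ⟨eq0_InI s 𝔫 (hw r c).1, eq0_InI s 𝔫 (hw r c).2⟩

theorem Tq.PJ (hg : Tq Q s g g₁) {j : b.support} (hp : g ∈ PJ b L j) : g₁ ∈ PJ b L ((Q.da s).sp j) := by
  rw [FI.g1_PJ] at hp ⊢
  intro r c hrc
  obtain ⟨r, rfl⟩ := (Q.da s).pI.surjective r
  obtain ⟨c, rfl⟩ := (Q.da s).pI.surjective c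
  rw [(Q.da s).wq_pI, (Q.da s).wq_pI] at hrc
  rw [hg.entry, hp r c hrc, map_zero]

/-! ## 4. The heights -/

/-- **The equivariance of the heights.** -/
theorem Tq.Ah (hg : Tq Q s g g₁) (w : HeightOneSpectrum (𝓞 L)) (i : b.support) : Ah b (spl s w) g₁ ((Q.da s).sp i) = Ah b w g i := by
  obtain ⟨u, hu, t, ht, k, hk, rfl⟩ := FI.g1_iwasawa b w g
  obtain ⟨u₁, hu₁⟩ := Tq.ex Q s u
  obtain ⟨t₁, ht₁⟩ := Tq.ex Q s t
  obtain ⟨k₁, hk₁⟩ := Tq.ex Q s k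
  have e : g₁ = u₁ * t₁ * k₁ := hg.uniq ((hu₁.mul ht₁).mul hk₁)
  rw [e, FI.Ah_utk b _ (hu₁.HU hu) (ht₁.TK ht) (hk₁.Gv hk), FI.Ah_utk b _ hu ht hk, ht₁.tv, av_spl]

theorem Tq.Av (hg : Tq Q s g g₁) (w : HeightOneSpectrum (𝓞 L)) (i : b.support) : FI.Av (av (spl s w)) ((Q.da s).sp i) g₁ = FI.Av (av w) i g := by
  rw [← FI.g1_Ah, ← FI.g1_Ah, hg.Ah]

/-- The level condition at one place. -/
theorem Tq.Chi1 (hg : Tq Q s g g₁) {w : HeightOneSpectrum (𝓞 L)} {𝔫 : Ideal (𝓞 K)} {j : b.support} (hc : ∃ p ∈ FL.PJ b L j, ∃ k ∈ FL.Kv b (up L 𝔫) w, g = p * k) :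
    ∃ p ∈ FL.PJ b L ((Q.da s).sp j), ∃ k ∈ FL.Kv b (up L 𝔫) (spl s w), g₁ = p * k := by
  obtain ⟨p, hp, k, hk, rfl⟩ := hc
  obtain ⟨p₁, hp₁⟩ := Tq.ex Q s p
  obtain ⟨k₁, hk₁⟩ := Tq.ex Q s k
  exact ⟨p₁, hp₁.PJ hp, k₁, hk₁.Kv hk, hg.uniq (hp₁.mul hk₁)⟩

theorem Tq.Chi (hg : Tq Q s g g₁) {𝔫 : Ideal (𝓞 K)} {j : b.support} (hc : FL.Chi b (up L 𝔫) j g) : FL.Chi b (up L 𝔫) ((Q.da s).sp j) g₁ := by
  intro w
  have h1 := hg.Chi1 (hc (spl s⁻¹ w))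
  rwa [spl_apply_inv] at h1

/-- **The level condition.** -/
theorem Tq.Chi_iff (hg : Tq Q s g g₁) (𝔫 : Ideal (𝓞 K)) (j : b.support) : FL.Chi b (up L 𝔫) ((Q.da s).sp j) g₁ ↔ FL.Chi b (up L 𝔫) j g := by
  refine ⟨fun hc => ?_, hg.Chi⟩
  have h1 := hg.symm.Chi hc
  have e : (Q.da s⁻¹).sp ((Q.da s).sp j) = j := by
    apply Subtype.ext
    show Q.act s⁻¹ (Q.act s j) = j
    rw [← Equiv.Perm.mul_apply, ← map_mul, inv_mul_cancel, map_one]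
    rfl
  rwa [e] at h1

/-- The function `f_e`. -/
theorem Tq.fe (hg : Tq Q s g g₁) (e : b.support → ℝ) : fe b e g₁ = fe b (fun i => e ((Q.da s).sp i)) g := by
  unfold FL.fe
  rw [← finprod_comp_equiv (splE s)]
  refine finprod_congr fun w => ?_
  rw [← Equiv.prod_comp (Q.da s).sp]
  refine Finset.prod_congr rfl fun k _ => ?_
  rw [splE_apply, hg.Ah]

end

end Pool.Agent.Lib.L8.QF
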