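import Pool.Agent.Lib.L8.FVQ2
import Pool.Agent.Lib.L8.FL.M2G
import Pool.Agent.Lib.L8.QF.Defs

/-!
# QF, EQ2: the Galois group and the heights at the infinite places (helper43)

`Hw w y (s j) = Hw (w ∘ s) y j` for `y` in the real group of `HQ Q`; the total height `Ht` is invariant.
-/

namespace Pool.Agent.Lib.L8.QF

open MeasureTheory Matrix NumberField NumberField.InfinitePlace IsDedekindDomain Pool.Agent.Lib.H89N Pool.Agent.Lib.H33W Pool.Agent.Lib.H67G Pool.Agent.Lib.L1S Pool.Agent.Lib.L8.FL Pool.Agent.Lib.L8.FU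
open scoped ENNReal

noncomputable section

set_option linter.unusedSectionVars false
set_option linter.unusedVariables false

variable {ι M N : Type} [Fintype ι] [DecidableEq ι] [AddCommGroup M] [Module ℚ M] [AddCommGroup N] [Module ℚ N]
  {P : RootPairing ι ℚ M N} [P.IsCrystallographic] [P.IsReduced] [P.IsIrreducible] [P.IsRootSystem]

/-! ## 1. Diagram automorphisms and the invariant form -/

section diag

variable {b : P.Base} {σ : Equiv.Perm ι}

theorem eq2_lenq (hσ : DA b σ) (β : ι) : lenq P (σ β) = lenq P β := by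
  unfold lenq
  congr 1
  rw [RootPairing.rootForm_apply_apply, RootPairing.rootForm_apply_apply, ← Equiv.sum_comp σ]
  refine Finset.sum_congr rfl fun i _ => ?_
  rw [P.root_coroot'_eq_pairing, P.root_coroot'_eq_pairing, hσ.pairing]

theorem eq2_cartan (hσ : DA b σ) (i j : b.support) : b.cartanMatrix (hσ.sp i) (hσ.sp j) = b.cartanMatrix i j := hσ.pair i j

theorem eq2_SQ (hσ : DA b σ) (r c : I b) : SQ b (hσ.pI r) (hσ.pI c) = SQ b r c := by
  rcases r with i | β <;> rcases c with j | γ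
  · show lenq P (hσ.sp i : ι) * |((b.cartanMatrix (hσ.sp i) (hσ.sp j) : ℤ) : ℚ)| = lenq P (i : ι) * |((b.cartanMatrix i j : ℤ) : ℚ)|
    rw [hσ.sp_coe, eq2_lenq hσ, eq2_cartan]
  · rfl
  · rfl
  · show Matrix.diagonal (lenq P) (σ β) (σ γ) = Matrix.diagonal (lenq P) β γ
    by_cases h : β = γ
    · subst h
      rw [Matrix.diagonal_apply_eq, Matrix.diagonal_apply_eq, eq2_lenq hσ]
    · rw [Matrix.diagonal_apply_ne _ h, Matrix.diagonal_apply_ne _ fun h' => h (σ.injective h')]

variable {F : Type} [RCLike F]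

theorem eq2_SF (hσ : DA b σ) : hσ.cj (SF b F) = SF b F := hσ.cj_eq fun r c => by
  show ((SQ b (hσ.pI r) (hσ.pI c) : ℚ) : F) = ((SQ b r c : ℚ) : F)
  rw [eq2_SQ]

theorem eq2_SFi (hσ : DA b σ) : hσ.cj (SF b F)⁻¹ = (SF b F)⁻¹ := by
  refine (Matrix.inv_eq_right_inv ?_).symm
  have h : SF b F * (SF b F)⁻¹ = 1 := Matrix.mul_nonsing_inv _ (SF_det F b)
  have h1 := congrArg hσ.cj h
  rw [hσ.cj_mul, eq2_SF, hσ.cj_one] at h1
  exact h1

/-- The rows. -/
def eq2_T (hσ : DA b σ) (j : b.support) : Tn b j ≃ Tn b (hσ.sp j) := hσ.pI.subtypeEquiv fun r => by rw [hσ.wq_pI]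

theorem eq2_T_coe (hσ : DA b σ) (j : b.support) (r : Tn b j) : (eq2_T hσ j r).1 = hσ.pI r.1 := rfl

theorem eq2_Nj (hσ : DA b σ) (j : b.support) (X : Matrix (I b) (I b) F) : Nj b F (hσ.sp j) (hσ.cj X) = Nj b F j X := by
  unfold Nj
  have h1 : hσ.cj X * (SF b F)⁻¹ * (hσ.cj X)ᴴ = hσ.cj (X * (SF b F)⁻¹ * Xᴴ) := by
    rw [hσ.cj_mul, hσ.cj_mul, eq2_SFi]
    rfl
  rw [h1, ← Matrix.det_submatrix_equiv_self (eq2_T hσ j)]
  congr 1
  ext r c
  exact hσ.cj_apply (X * (SF b F)⁻¹ * Xᴴ) r.1 c.1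

theorem eq2_Nj_one (hσ : DA b σ) (j : b.support) : Nj b F (hσ.sp j) (1 : Matrix (I b) (I b) F) = Nj b F j 1 := by
  have h := eq2_Nj hσ j (1 : Matrix (I b) (I b) F)
  rwa [hσ.cj_one] at h

theorem eq2_pj (hσ : DA b σ) (j : b.support) (r : I b) : pj b (hσ.sp j) (hσ.pI r) = pj b j r := by
  rcases r with i | β
  · rfl
  · exact hσ.pair β j

theorem eq2_cw (hσ : DA b σ) (j : b.support) : cw b (hσ.sp j) = cw b j := by
  unfold cw
  congr 1
  rw [← Equiv.sum_comp (eq2_T hσ j)]
  exact Finset.sum_congr rfl fun r _ => eq2_pj hσ j r.1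

theorem eq2_star (j : b.support) (X : Matrix (I b) (I b) F) : Nj b F j (X.map star) = star (Nj b F j X) := by
  unfold Nj
  have hS : (SF b F).map star = SF b F := by
    ext r c
    show star ((SQ b r c : ℚ) : F) = ((SQ b r c : ℚ) : F)
    have h1 : ((SQ b r c : ℚ) : F) = (((SQ b r c : ℚ) : ℝ) : F) := by push_cast; rfl
    rw [h1]
    exact RCLike.conj_ofReal _
  have hm : ∀ A B : Matrix (I b) (I b) F, (A * B).map star = A.map star * B.map star := fun A B => Matrix.map_mul (f := (starRingEnd F))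
  have hSi : (SF b F)⁻¹.map star = (SF b F)⁻¹ := by
    refine (Matrix.inv_eq_right_inv ?_).symm
    have h : SF b F * (SF b F)⁻¹ = 1 := Matrix.mul_nonsing_inv _ (SF_det F b)
    have h1 := congrArg (fun X : Matrix (I b) (I b) F => X.map star) h
    rw [hm, hS] at h1
    rw [h1, Matrix.map_one _ (star_zero F) (star_one F)]
  have h1 : X.map star * (SF b F)⁻¹ * (X.map star)ᴴ = (X * (SF b F)⁻¹ * Xᴴ).map star := by
    rw [hm, hm, hSi]
    rfl
  rw [h1]
  exact (RingHom.map_det (starRingEnd F) ((X * (SF b F)⁻¹ * Xᴴ).submatrix (fun r : Tn b j => r.1) (fun r : Tn b j => r.1))).symm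

end diag

/-! ## 2. The places -/

section places

variable {K L : Type} [Field K] [NumberField K] [Field L] [NumberField L] [Algebra K L]

/-- The place `w ∘ s`. -/
def cpl (s : L ≃ₐ[K] L) (w : InfinitePlace L) : InfinitePlace L := w.comap (s : L →+* L)

theorem eq2_emb (w : InfinitePlace L) (x : L) : evw w (mixedEmbedding L x) = w.embedding x := by
  rcases w.isReal_or_isComplex with h | h
  · rw [evw_real h]
    exact InfinitePlace.embedding_of_isReal_apply h x
  · rw [evw_complex h]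
    rfl

theorem eq2_evw (s : L ≃ₐ[K] L) (w : InfinitePlace L) : (∀ x, evw w (sE s x) = evw (cpl s w) x) ∨ ∀ x, evw w (sE s x) = star (evw (cpl s w) x) := by
  have h1 : cpl s w = InfinitePlace.mk (w.embedding.comp (s : L →+* L)) := by
    unfold cpl
    rw [← InfinitePlace.comap_mk, InfinitePlace.mk_embedding]
  have h2 : InfinitePlace.mk (w.embedding.comp (s : L →+* L)) = InfinitePlace.mk (cpl s w).embedding := by rw [InfinitePlace.mk_embedding, h1]
  have c1 : Continuous fun x => evw w (sE s x) := (evw_cont w).comp (sE_cont s)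
  have c2 : Continuous fun x => evw (cpl s w) x := evw_cont _
  rcases InfinitePlace.mk_eq_iff.1 h2 with h3 | h3
  · left
    refine congrFun ((t3_dense L).equalizer c1 c2 (funext fun x => ?_))
    show evw w (sE s (mixedEmbedding L x)) = evw (cpl s w) (mixedEmbedding L x)
    rw [sE_emb, eq2_emb, eq2_emb, ← h3]
    rfl
  · right
    refine congrFun ((t3_dense L).equalizer c1 c2.star (funext fun x => ?_))
    show evw w (sE s (mixedEmbedding L x)) = star (evw (cpl s w) (mixedEmbedding L x))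
    rw [sE_emb, eq2_emb, eq2_emb, ← h3]
    show w.embedding (s x) = star (star (w.embedding (s x)))
    rw [star_star]

theorem eq2_cpl_mul (s t : L ≃ₐ[K] L) (w : InfinitePlace L) : cpl (s * t) w = cpl t (cpl s w) := rfl

theorem eq2_cpl_one (w : InfinitePlace L) : cpl (1 : L ≃ₐ[K] L) w = w := rfl

/-- The permutation of the places. -/
def cplE (s : L ≃ₐ[K] L) : Equiv.Perm (InfinitePlace L) where
  toFun := cpl s
  invFun := cpl s⁻¹
  left_inv w := by rw [← eq2_cpl_mul, mul_inv_cancel, eq2_cpl_one]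
  right_inv w := by rw [← eq2_cpl_mul, inv_mul_cancel, eq2_cpl_one]

theorem eq2_real (s : L ≃ₐ[K] L) (w : InfinitePlace L) : (cpl s w).IsReal ↔ w.IsReal := InfinitePlace.isReal_comap_iff (f := s.toRingEquiv)

theorem eq2_mult (s : L ≃ₐ[K] L) (w : InfinitePlace L) : (cpl s w).mult = w.mult := by
  rcases w.isReal_or_isComplex with h | h
  · rw [InfinitePlace.mult, InfinitePlace.mult, if_pos h, if_pos ((eq2_real s w).2 h)]
  · have h' := InfinitePlace.not_isReal_iff_isComplex.2 h
    rw [InfinitePlace.mult, InfinitePlace.mult, if_neg h', if_neg fun h1 => h' ((eq2_real s w).1 h1)]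

end places

/-! ## 3. The heights -/

section heights

variable {b : P.Base} {K L : Type} [Field K] [NumberField K] [Field L] [NumberField L] [Algebra K L]

/-- The height of a matrix. -/
theorem hM_cj (Q : QS b K L) (s : L ≃ₐ[K] L) (w : InfinitePlace L) (j : b.support) (X : Matrix (I b) (I b) (EE L)) :
    hM b w ((Q.da s).sp j) ((Q.da s).cj (X.map (sE s))) = hM b (cpl s w) j X := by
  unfold hM
  rw [eq2_cw, eq2_Nj_one]
  have h1 : ((Q.da s).cj (X.map (sE s))).map (evw w) = (Q.da s).cj ((X.map (sE s)).map (evw w)) := (DA.cj_map _ _ _).symm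
  rw [h1, eq2_Nj]
  rcases eq2_evw s w with h | h
  · have h2 : (X.map (sE s)).map (evw w) = X.map (evw (cpl s w)) := by
      ext r c
      exact h (X r c)
    rw [h2]
  · have h2 : (X.map (sE s)).map (evw w) = (X.map (evw (cpl s w))).map star := by
      ext r c
      exact h (X r c)
    rw [h2, eq2_star, norm_star]

variable {Q : QS b K L}

/-- **The equivariance of the heights at the infinite places.** -/
theorem Hw_sp (s : L ≃ₐ[K] L) (w : InfinitePlace L) (y : HRt (HQ Q)) (j : b.support) : Hw w y ((Q.da s).sp j) = Hw (cpl s w) y j := by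
  rw [hM_Hw, hM_Hw, ← hM_cj Q s w j y.1.1.1, hr_fix Q y.2 s]

/-- **The total height is invariant.** -/
theorem Ht_sp (s : L ≃ₐ[K] L) (y : HRt (HQ Q)) (j : b.support) : Ht y ((Q.da s).sp j) = Ht y j := by
  unfold Ht
  rw [← Equiv.sum_comp (cplE s) fun w => (w.mult : ℝ) * Hw w y j]
  refine Finset.sum_congr rfl fun w _ => ?_
  show (w.mult : ℝ) * Hw w y ((Q.da s).sp j) = ((cpl s w).mult : ℝ) * Hw (cpl s w) y j
  rw [eq2_mult, Hw_sp]

theorem eq2_al (s : L ≃ₐ[K] L) {x : b.support → ℝ} (h : InvE Q x) (k : b.support) : al (cA b) ((Q.da s).sp k) x = al (cA b) k x := by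
  unfold al
  rw [← Equiv.sum_comp (Q.da s).sp]
  refine Finset.sum_congr rfl fun j _ => ?_
  rw [h s j]
  have e : cA b ((Q.da s).sp k) ((Q.da s).sp j) = cA b k j := eq2_cartan (Q.da s) k j
  rw [e]

theorem Ht_inv (y : HRt (HQ Q)) : InvE Q (Ht y) := fun s j => Ht_sp s y j

theorem Ht_al (s : L ≃ₐ[K] L) (y : HRt (HQ Q)) (k : b.support) : al (cA b) ((Q.da s).sp k) (Ht y) = al (cA b) k (Ht y) := eq2_al s (Ht_inv y) k

end heights

end

end Pool.Agent.Lib.L8.QF
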