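import Pool.Agent.Lib.L8.QF.H3
import Pool.Agent.Lib.L8.FVQ2

/-!
# QF, H5 (helper80): the elements of the real unipotent group which are fixed by the Galois group are in the closure of `G(K)`
-/

namespace Pool.Agent.Lib.L8.QF

set_option linter.unusedSectionVars false

open MeasureTheory Matrix NumberField IsDedekindDomain Pool.Agent.Lib.H89N Pool.Agent.Lib.H33W Pool.Agent.Lib.H67G Pool.Agent.Lib.L1S Pool.Agent.Lib.L8.FL Topology Filter
open scoped ENNReal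

noncomputable section

variable {ι M N : Type} [Fintype ι] [DecidableEq ι] [AddCommGroup M] [Module ℚ M] [AddCommGroup N] [Module ℚ N]
  {P : RootPairing ι ℚ M N} [P.IsCrystallographic] [P.IsReduced] [P.IsIrreducible] [P.IsRootSystem]

variable {b : P.Base} {K L : Type} [Field K] [NumberField K] [Field L] [NumberField L] [Algebra K L]

/-- **The fixed elements of `L ⊗ ℝ`** are in `K ⊗ ℝ`. -/
theorem sE_KR [IsGalois K L] {x : EE L} (h : ∀ s : L ≃ₐ[K] L, sE s x = x) : x ∈ KR K L := by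
  have : FiniteDimensional K L := Module.Finite.of_restrictScalars_finite ℚ K L
  have key : ∑ s : L ≃ₐ[K] L, sE s x ∈ KR K L := by
    have hc : IsClosed {x : EE L | ∑ s : L ≃ₐ[K] L, sE s x ∈ KR K L} := (li7_KR_closed K L).preimage (continuous_finsetSum _ fun s _ => sE_cont s)
    refine (t3_dense L).induction_on (p := fun x => ∑ s : L ≃ₐ[K] L, sE s x ∈ KR K L) x hc fun y => ?_
    have e : ∑ s : L ≃ₐ[K] L, sE s (mixedEmbedding L y) = mixedEmbedding L (algebraMap K L (Algebra.trace K L y)) := by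
      rw [trace_eq_sum_automorphisms, map_sum]
      exact Finset.sum_congr rfl fun s _ => sE_emb s y
    rw [e]
    exact Submodule.subset_span ⟨_, rfl⟩
  rw [Finset.sum_congr rfl fun s _ => h s, Finset.sum_const, ← Nat.cast_smul_eq_nsmul ℝ] at key
  have hne : ((Finset.univ : Finset (L ≃ₐ[K] L)).card : ℝ) ≠ 0 := by
    have h1 : 0 < (Finset.univ : Finset (L ≃ₐ[K] L)).card := Finset.card_pos.2 ⟨1, Finset.mem_univ _⟩
    exact_mod_cast h1.ne'
  have h2 := (KR K L).smul_mem ((Finset.univ : Finset (L ≃ₐ[K] L)).card : ℝ)⁻¹ key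
  rwa [smul_smul, inv_mul_cancel₀ hne, one_smul] at h2

theorem fcM_cj {σ : Equiv.Perm ι} (hσ : DA b σ) {A : Type} [CommRing A] (F X : Matrix (I b) (I b) A) : fcM (hσ.cj F) (hσ.cj X) = fcM F X := by
  unfold fcM
  rw [← Equiv.sum_comp hσ.pI]
  refine Finset.sum_congr rfl fun r _ => ?_
  rw [← Equiv.sum_comp hσ.pI]
  refine Finset.sum_congr rfl fun c _ => ?_
  rw [DA.cj_apply, DA.cj_apply]

/-- A matrix over `L ⊗ ℝ` which is fixed by the Galois group. -/
def FxE (Q : QS b K L) (X : Matrix (I b) (I b) (EE L)) : Prop := ∀ s, (Q.da s).cj (X.map (sE s)) = X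

theorem FxE.mul {Q : QS b K L} {X Y : Matrix (I b) (I b) (EE L)} (hX : FxE Q X) (hY : FxE Q Y) : FxE Q (X * Y) := by
  intro s
  rw [Matrix.map_mul, DA.cj_mul, hX s, hY s]

theorem fxE_HRs (Q : QS b K L) {g : GR b L} (hg : g ∈ HRs (HQ Q)) : FxE Q g.1.1 := hr_fix Q hg

theorem fxE_map {Q : QS b K L} {F : Matrix (I b) (I b) L} (hF : ∀ s, tauM Q.act Q.da s F = F) : FxE Q (F.map (mixedEmbedding L)) := by
  intro s
  have e2 : (F.map (mixedEmbedding L)).map (sE s) = (F.map s).map (mixedEmbedding L) := by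
    refine Matrix.ext fun r c => ?_
    simp only [Matrix.map_apply]
    exact sE_emb s _
  rw [e2]
  have e3 : (Q.da s).cj ((F.map s).map (mixedEmbedding L)) = ((Q.da s).cj (F.map s)).map (mixedEmbedding L) := DA.cj_map _ _ _
  rw [e3]
  have e4 : (Q.da s).cj (F.map s) = F := hF s
  rw [e4]

/-- A fixed functional has values in `K ⊗ ℝ` on the fixed matrices. -/
theorem fcM_KR [IsGalois K L] {Q : QS b K L} {F X : Matrix (I b) (I b) (EE L)} (hF : FxE Q F) (hX : FxE Q X) : fcM F X ∈ KR K L := by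
  refine sE_KR fun s => ?_
  rw [← fcM_map, ← fcM_cj (Q.da s), hF s, hX s]

/-- The leading part of a fixed unipotent element. -/
theorem degR_fix [IsGalois K L] {Q : QS b K L} (J : LID Q) {g : UR b L} (hg : FxE Q g.1.1.1) {k : ℕ} (hk : 1 ≤ k) (h : g ∈ FR b L k) :
    ∃ y : ι → KR K L, dgk b k g.1.1.1 = ∑ β ∈ Posk b k, (y β : EE L) • J.lieH.YE β := by
  have h1 := lead_E b g.1 (k := (k : ℤ)) (by exact_mod_cast hk) h.1
  have h2 := li7_lead Q.da (mixedEmbedding L) J.Fw J.FY J.EY h1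
  rw [li10_Posk b hk] at h2
  have h3 : ∀ β, fcM ((J.F β).map (mixedEmbedding L)) g.1.1.1 ∈ KR K L := fun β => fcM_KR (fxE_map (J.Ffix β)) hg
  have hc0 : (J.c0 : ℝ) ≠ 0 := by exact_mod_cast J.c0_ne
  refine ⟨fun β => (J.c0 : ℝ)⁻¹ • ⟨fcM ((J.F β).map (mixedEmbedding L)) g.1.1.1, h3 β⟩, ?_⟩
  refine Eq.trans h2 ?_
  refine Finset.sum_congr rfl fun β hβ => ?_
  have e0 : J.lieH.YE β = (J.DP β 1).map (fun y : 𝓞 L => (mixedEmbedding L (y : L) : EE L)) := rfl
  rw [e0, J.DP_E (li10_Posk_Pos hβ), smul_smul]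
  congr 1
  change _ = ((J.c0 : ℝ)⁻¹ • fcM ((J.F β).map (mixedEmbedding L)) g.1.1.1) * (J.c0 : EE L)
  have e1 : (J.c0 : EE L) = (J.c0 : ℝ) • (1 : EE L) := by
    rw [Nat.cast_smul_eq_nsmul, nsmul_eq_mul, mul_one]
  rw [e1, smul_mul_smul_comm, inv_mul_cancel₀ hc0, one_smul, mul_one]

/-- **The fixed elements** of the real unipotent group are in the closure of `G(K)`. -/
theorem fix_HRs (Q : QS b K L) [IsGalois K L] {u : GR b L} (hu : u ∈ UR b L) (h : FxE Q u.1.1) : u ∈ HRs (HQ Q) := by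
  obtain ⟨J⟩ := exists_LID Q
  have key : ∀ m k : ℕ, 1 ≤ k → k + m = HM b + 1 → ∀ u : UR b L, u ∈ FR b L k → FxE Q u.1.1.1 → u.1 ∈ HRs (HQ Q) := by
    intro m
    induction m with
    | zero =>
      intro k _ hk u hu _
      have e : k = HM b + 1 := by omega
      rw [e, r1_FR_bot, Subgroup.mem_bot] at hu
      rw [hu]
      exact (HRs (HQ Q)).one_mem
    | succ m ih =>
      intro k hk hkm u hu hfix
      obtain ⟨y, hy⟩ := degR_fix J hfix hk hu
      set v : UHR (HQ Q) := J.lieH.prE k y with hv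
      have h1 : v ∈ FH (HQ Q) k := rh2_prE_FH J.lieH k y
      have h2 : dgk b k v.1.1.1.1 = ∑ β ∈ Posk b k, (y β : EE L) • J.lieH.YE β := rh2_prE_dgk J.lieH hk y
      have h1' : toUR (HQ Q) v ∈ FR b L k := h1
      have h6 : (toUR (HQ Q) v)⁻¹ * u ∈ FR b L (k + 1) := by
        have r7 : Rs b k ((toUR (HQ Q) v)⁻¹ * u).1.1.1 ∧ Rs b k ((toUR (HQ Q) v)⁻¹ * u)⁻¹.1.1.1 := mul_mem (inv_mem h1') hu
        have r1 : Rs b k (toUR (HQ Q) v).1.1.1 := h1'.1
        have h8 : dgk b k ((toUR (HQ Q) v)⁻¹ * u).1.1.1 = 0 := by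
          have h9 : dgk b k (toUR (HQ Q) v * ((toUR (HQ Q) v)⁻¹ * u)).1.1.1 = dgk b k (toUR (HQ Q) v).1.1.1 + dgk b k ((toUR (HQ Q) v)⁻¹ * u).1.1.1 := dgk_mul hk r1 r7.1
          have h10 : dgk b k (toUR (HQ Q) v).1.1.1 = ∑ β ∈ Posk b k, (y β : EE L) • J.lieH.YE β := h2
          rw [mul_inv_cancel_left, h10, hy] at h9
          exact left_eq_add.1 h9
        have h11 : dgk b k ((toUR (HQ Q) v)⁻¹ * u)⁻¹.1.1.1 = 0 := by
          have h9 : dgk b k (((toUR (HQ Q) v)⁻¹ * u) * ((toUR (HQ Q) v)⁻¹ * u)⁻¹).1.1.1 = dgk b k ((toUR (HQ Q) v)⁻¹ * u).1.1.1 + dgk b k ((toUR (HQ Q) v)⁻¹ * u)⁻¹.1.1.1 :=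
            dgk_mul hk r7.1 r7.2
          rw [mul_inv_cancel, h8, zero_add] at h9
          rw [← h9]
          exact dgk_one hk
        exact ⟨(rs_succ hk).2 ⟨r7.1, h8⟩, (rs_succ hk).2 ⟨r7.2, h11⟩⟩
      have h7 : FxE Q ((toUR (HQ Q) v)⁻¹ * u).1.1.1 := by
        have h8 : FxE Q (v⁻¹).1.1.1.1 := fxE_HRs Q (v⁻¹).1.2
        exact h8.mul hfix
      have h8 := ih (k + 1) (by omega) (by omega) _ h6 h7
      have e : u.1 = v.1.1 * ((toUR (HQ Q) v)⁻¹ * u).1 := by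
        show u.1 = v.1.1 * (v.1.1⁻¹ * u.1)
        rw [mul_inv_cancel_left]
      rw [e]
      exact (HRs (HQ Q)).mul_mem v.1.2 h8
  exact key (HM b) 1 le_rfl (by omega) ⟨u, hu⟩ ⟨fun r c hrc => (hu r c (by push_cast at hrc; omega)).1, fun r c hrc => (hu r c (by push_cast at hrc; omega)).2⟩ h

end

end Pool.Agent.Lib.L8.QF
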