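import Pool.Agent.Lib.L8.QF.R1A
import Pool.Agent.Lib.L8.QF.AN0
import Pool.Agent.Lib.L8.QF.G0
import Pool.Agent.Lib.L8.QF.C2
import Pool.Agent.Lib.L8.QF.H5

/-!
# QF, module C5Q, FQ (design helper33): the field of an orbit
-/

namespace Pool.Agent.Lib.L8.QF

open MeasureTheory Matrix NumberField NumberField.InfinitePlace IsDedekindDomain Pool.Agent.Lib.H89N Pool.Agent.Lib.H33W Pool.Agent.Lib.H67G Pool.Agent.Lib.L1S Pool.Agent.Lib.L8 Pool.Agent.Lib.L8.FL
open scoped ENNReal Pointwise

noncomputable section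

set_option linter.unusedSectionVars false
set_option linter.unusedVariables false

variable {ι M N : Type} [Fintype ι] [DecidableEq ι] [AddCommGroup M] [Module ℚ M] [AddCommGroup N] [Module ℚ N]
  {P : RootPairing ι ℚ M N} [P.IsCrystallographic] [P.IsReduced] [P.IsIrreducible] [P.IsRootSystem] {b : P.Base}
  {K L : Type} [Field K] [NumberField K] [Field L] [NumberField L] [Algebra K L]

/-- The stabiliser of `i`. -/
def StQ (Q : QS b K L) (i : b.support) : Subgroup (L ≃ₐ[K] L) where
  carrier := {s | (Q.da s).sp i = i}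
  one_mem' := by
    have h := sp_cancel Q (1 : L ≃ₐ[K] L) i
    have h2 := sp_mul Q (1 : L ≃ₐ[K] L)⁻¹ 1 i
    rw [inv_mul_cancel] at h2
    exact h2.trans h
  mul_mem' := by
    intro s t hs ht
    show (Q.da (s * t)).sp i = i
    have hs' : (Q.da s).sp i = i := hs
    have ht' : (Q.da t).sp i = i := ht
    rw [sp_mul, ht', hs']
  inv_mem' := by
    intro s hs
    have hs' : (Q.da s).sp i = i := hs
    show (Q.da s⁻¹).sp i = i
    have h := sp_cancel Q s i
    rwa [hs'] at h

theorem mem_StQ {Q : QS b K L} {i : b.support} {s : L ≃ₐ[K] L} : s ∈ StQ Q i ↔ (Q.da s).sp i = i := Iff.rfl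

/-- **The field of the orbit of `i`.** -/
abbrev FO (Q : QS b K L) (i : b.support) : IntermediateField K L := IntermediateField.fixedField (StQ Q i)

/-- The embedding of `F ⊗ ℝ`. -/
def jE (Q : QS b K L) (i : b.support) : EE (FO Q i) →+* EE L := iE (algebraMap (FO Q i) L)

theorem jE_cont (Q : QS b K L) (i : b.support) : Continuous (jE Q i) := iE_cont _

theorem jE_inj (Q : QS b K L) (i : b.support) : Function.Injective (jE Q i) := iE_inj _

theorem jE_smul (Q : QS b K L) (i : b.support) (c : ℝ) (x : EE (FO Q i)) : jE Q i (c • x) = c • jE Q i x := iE_smul _ c x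

/-- `jE` as a linear map. -/
def fq_lin (Q : QS b K L) (i : b.support) : EE (FO Q i) →ₗ[ℝ] EE L where
  toFun := jE Q i
  map_add' := map_add (jE Q i)
  map_smul' c x := jE_smul Q i c x

theorem fq_mem_orb {Q : QS b K L} {i j : b.support} : j ∈ orb Q i ↔ ∃ s, (Q.da s).sp i = j := by
  unfold orb
  rw [Finset.mem_filter]
  exact ⟨fun h => h.2, fun h => ⟨Finset.mem_univ _, h⟩⟩

theorem fq_lin_apply (Q : QS b K L) (i : b.support) (x : EE (FO Q i)) : fq_lin Q i x = jE Q i x := rfl

/-- PROOF: `jE` is a linear injection of finite dimensional real vector spaces (`iE_smul`, `iE_inj`), so a closed embedding (`LinearMap.isClosedEmbedding_of_injective`), `IsClosedEmbedding.isCompact_preimage`. -/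
theorem jE_proper (Q : QS b K L) (i : b.support) {C : Set (EE L)} (hC : IsCompact C) : IsCompact (jE Q i ⁻¹' C) := by
  have h : Topology.IsClosedEmbedding (fq_lin Q i) :=
    LinearMap.isClosedEmbedding_of_injective (LinearMap.ker_eq_bot.2 (jE_inj Q i))
  exact h.isCompact_preimage hC

variable [IsGalois K L]

/-- PROOF: `t.restrictScalars K` fixes `FO Q i`, `IntermediateField.fixingSubgroup_fixedField`. -/
theorem fo_stab (Q : QS b K L) (i : b.support) (t : L ≃ₐ[FO Q i] L) : (Q.da (t.restrictScalars K)).sp i = i := by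
  have h1 : t.restrictScalars K ∈ (FO Q i).fixingSubgroup := by
    rw [IntermediateField.mem_fixingSubgroup_iff]
    intro x hx
    exact t.commutes ⟨x, hx⟩
  have h2 : (FO Q i).fixingSubgroup = StQ Q i := IntermediateField.fixingSubgroup_fixedField _
  rw [h2] at h1
  exact h1

/-- PROOF: `[L : F] = |StQ Q i|` (`IntermediateField.finrank_fixedField_eq_card`), orbit-stabiliser for the action `s ↦ sp s` (`orb Q i` is the orbit), `IsGalois.card_aut_eq_finrank`. -/
theorem fo_card (Q : QS b K L) (i : b.support) : Module.finrank (FO Q i) L * (orb Q i).card = Module.finrank K L := by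
  classical
  have h1 : Module.finrank (FO Q i) L = Nat.card (StQ Q i) := IntermediateField.finrank_fixedField_eq_card _
  have h2 : (Finset.univ : Finset (L ≃ₐ[K] L)).card = ∑ j ∈ orb Q i, (Finset.univ.filter fun s : L ≃ₐ[K] L => (Q.da s).sp i = j).card := by
    refine Finset.card_eq_sum_card_fiberwise fun s _ => ?_
    exact fq_mem_orb.2 ⟨s, rfl⟩
  have h3 : ∀ j ∈ orb Q i, (Finset.univ.filter fun s : L ≃ₐ[K] L => (Q.da s).sp i = j).card = Nat.card (StQ Q i) := by
    intro j hj
    obtain ⟨s₀, hs₀⟩ := fq_mem_orb.1 hj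
    rw [← Fintype.card_subtype, ← Nat.card_eq_fintype_card]
    refine Nat.card_congr
      { toFun := fun t => ⟨s₀⁻¹ * t.1, ?_⟩
        invFun := fun s => ⟨s₀ * s.1, ?_⟩
        left_inv := fun t => ?_
        right_inv := fun s => ?_ }
    · show (Q.da (s₀⁻¹ * t.1)).sp i = i
      rw [sp_mul, t.2, ← hs₀, sp_cancel]
    · have h4 : (Q.da s.1).sp i = i := s.2
      rw [sp_mul, h4, hs₀]
    · exact Subtype.ext (mul_inv_cancel_left s₀ t.1)
    · exact Subtype.ext (inv_mul_cancel_left s₀ s.1)
  rw [Finset.sum_congr rfl h3, Finset.sum_const, smul_eq_mul, Finset.card_univ, ← Nat.card_eq_fintype_card,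
    IsGalois.card_aut_eq_finrank] at h2
  rw [h1, h2, mul_comm]

/-- PROOF: density (`iE_ext` or `t3_dense`), `iE_emb`, `sE_emb`. -/
theorem fo_sE (Q : QS b K L) (i : b.support) {s : L ≃ₐ[K] L} (hs : s ∈ StQ Q i) (r : EE (FO Q i)) : sE s (jE Q i r) = jE Q i r := by
  have h := iE_ext (f := algebraMap (FO Q i) L) (g := fun r => sE s (jE Q i r)) ((sE_cont s).comp (jE_cont Q i)) (fun x => by
    show sE s (iE (algebraMap (FO Q i) L) (mixedEmbedding (FO Q i) x)) = _
    rw [iE_emb, sE_emb]
    have h1 : s (algebraMap (FO Q i) L x) = algebraMap (FO Q i) L x := x.2 ⟨s, hs⟩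
    rw [h1]) r
  exact h

/-- PROOF: `sE_KR` for `L / F` (`IsGalois (FO Q i) L` is an instance), with `sE` of `t : L ≃ₐ[F] L` equal to `sE` of `t.restrictScalars K` (both are the extension of the same map: `iE_ext`, `sE_iE`); `KR F L` is the real span of the image of `F`, which is the range of the linear map `jE`. -/
theorem fo_desc (Q : QS b K L) (i : b.support) {x : EE L} (h : ∀ s ∈ StQ Q i, sE s x = x) : ∃ r, jE Q i r = x := by
  have h1 : ∀ t : L ≃ₐ[FO Q i] L, sE t x = x := by
    intro t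
    have h2 := h (t.restrictScalars K) (fo_stab Q i t)
    rw [sE_iE] at h2
    rw [sE_iE]
    exact h2
  have h3 := sE_KR (K := FO Q i) h1
  have h4 : KR (FO Q i) L ≤ LinearMap.range (fq_lin Q i) := by
    unfold KR
    rw [Submodule.span_le]
    rintro _ ⟨y, rfl⟩
    exact ⟨mixedEmbedding (FO Q i) y, iE_emb _ y⟩
  obtain ⟨r, hr⟩ := h4 h3
  exact ⟨r, hr⟩

/-- The places: `w.comap (algebraMap (FO Q i) L)`; two places of `L` over the same place of `F` differ by an element of the stabiliser. PROOF: `an0_trans`-like; stated here for functions: `ψ : InfinitePlace L → ℝ` invariant under `StQ Q i` has `∑_w m_w ψ(w) = [L : F] ∑_v m_v ψ(c v)` for every choice `c v` above `v`. PROOF: `an0_inv`, `an0_desc` (QF/AN0)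
for `L / F`; `cpl t w` for `t : L ≃ₐ[F] L` is `cpl (t.restrictScalars K) w`. -/
theorem fo_sum (Q : QS b K L) (i : b.support) (ψ : InfinitePlace L → ℝ) (hψ : ∀ s ∈ StQ Q i, ∀ w, ψ (w.comap (s : L →+* L)) = ψ w) (c : InfinitePlace (FO Q i) → InfinitePlace L) (hc : ∀ v, (c v).comap (algebraMap (FO Q i) L) = v) :
    ∑ w : InfinitePlace L, (w.mult : ℝ) * ψ w = (Module.finrank (FO Q i) L : ℝ) * ∑ v : InfinitePlace (FO Q i), (v.mult : ℝ) * ψ (c v) := by
  have h1 : ∀ (t : L ≃ₐ[FO Q i] L) (w : InfinitePlace L), ψ (cpl t w) = ψ w := fun t w =>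
    hψ (t.restrictScalars K) (fo_stab Q i t) w
  refine an0_inv (K := FO Q i) ψ h1 (fun v => ψ (c v)) fun w => ?_
  obtain ⟨t, ht⟩ := an0_trans (K := FO Q i) (hc (w.comap (algebraMap (FO Q i) L)))
  show ψ (c (w.comap (algebraMap (FO Q i) L))) = ψ w
  rw [← h1 t, ht]

end

end Pool.Agent.Lib.L8.QF
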