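import Pool.Agent.Lib.L8.QF.H0
import Pool.Agent.Lib.L8.FU.W4

/-!
# QF, H1 (helper80): the count in terms of the pairs, for a group `H` with `HypH H J`

Ports of FU/U5 (`ce_pairs`), FU/W1, FU/W3 (`count_pairs`), FU/W4 (`vV`). The function `Fe e` on the support is replaced by any measurable function `F` which is left invariant under `U`.
-/

namespace Pool.Agent.Lib.L8.QF

set_option linter.unusedSectionVars false

open MeasureTheory Matrix NumberField IsDedekindDomain Pool.Agent.Lib.H89N Pool.Agent.Lib.H33W Pool.Agent.Lib.H67G Pool.Agent.Lib.L1S Pool.Agent.Lib.L8.FL Pool.Agent.Lib.L8.FC Pool.Agent.Lib.L8.FU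
open scoped ENNReal

noncomputable section

variable {ι M N : Type} [Fintype ι] [DecidableEq ι] [AddCommGroup M] [Module ℚ M] [AddCommGroup N] [Module ℚ N]
  {P : RootPairing ι ℚ M N} [P.IsCrystallographic] [P.IsReduced] [P.IsIrreducible] [P.IsRootSystem]

variable {b : P.Base} {L : Type} [Field L] [NumberField L] {H : Subgroup (GK b L)} {J : Finset b.support}

namespace HypH

/-- **The classes of the cell** inject into the pairs `(τ, u)`. -/
theorem ce_pairs (h : HypH H J) {w : Equiv.Perm ι} {Lw : List b.support} (hw : IsWJ b J w) (hW : wW b Lw = w) {n : H} (hn : n.1 = nW b L Lw) (Γ₁ : Subgroup H) (ga gb : H)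
    {F : H → ℝ≥0∞} (hF : ∀ u ∈ HUH H, ∀ γ, F (u * γ) = F γ) :
    ce (cjG Γ₁ ga ⊓ HUH H) (Zs Γ₁ ga gb ∩ {γ | γ.1 ∈ cell b L w}) F ≤ ∑' τ : TH H, ∑' u : HUH H, (XX J n Γ₁ ga gb τ).indicator 1 u * F (τ.1 * n * u.1) := by
  classical
  set U₀ : Subgroup H := cjG Γ₁ ga ⊓ HUH H with hU₀
  set S : Set H := Zs Γ₁ ga gb ∩ {γ | γ.1 ∈ cell b L w} with hS
  have hdec : ∀ c : {c : H ⧸ U₀ // (Quotient.out c)⁻¹ ∈ S}, ∃ q : TH H × HUH H, ∃ u' ∈ HUH H, (Quotient.out c.1)⁻¹ = u' * q.1.1 * n * q.2.1 ∧ q.2.1.1 ∈ NJ b L J := by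
    intro c
    obtain ⟨u, hu, τ, v, hv, e⟩ := h.split w Lw hw hW n hn _ c.2.2
    exact ⟨(τ, v), u, hu, e, hv⟩
  choose q u' hu' hq hqJ using hdec
  have hinj : Function.Injective q := by
    intro c c' h
    have h1 : (Quotient.out c.1)⁻¹ * Quotient.out c'.1 = u' c * (u' c')⁻¹ := by
      have h2 : Quotient.out c'.1 = ((Quotient.out c'.1)⁻¹)⁻¹ := (inv_inv _).symm
      rw [h2, hq c, hq c', h]
      group
    have h3 : (Quotient.out c.1)⁻¹ * Quotient.out c'.1 ∈ U₀ := by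
      refine ⟨?_, ?_⟩
      · have h4 := c.2.1
        have h5 := c'.2.1
        have h6 : ga * ((Quotient.out c.1)⁻¹ * Quotient.out c'.1) * ga⁻¹ = (ga * (Quotient.out c.1)⁻¹ * gb⁻¹) * (ga * (Quotient.out c'.1)⁻¹ * gb⁻¹)⁻¹ := by group
        have h7 : (Quotient.out c.1)⁻¹ * Quotient.out c'.1 ∈ cjG Γ₁ ga := by
          rw [cjG_mem, h6]
          exact Γ₁.mul_mem h4 (Γ₁.inv_mem h5)
        exact h7
      · have h7 : (Quotient.out c.1)⁻¹ * Quotient.out c'.1 ∈ HUH H := by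
          rw [h1]
          exact (HUH H).mul_mem (hu' c) ((HUH H).inv_mem (hu' c'))
        exact h7
    apply Subtype.ext
    rw [← QuotientGroup.out_eq' c.1, ← QuotientGroup.out_eq' c'.1]
    exact QuotientGroup.eq.2 h3
  have h1 : ce U₀ S F = ∑' c : {c : H ⧸ U₀ // (Quotient.out c)⁻¹ ∈ S}, F (Quotient.out c.1)⁻¹ := by
    unfold ce
    refine Eq.trans (tsum_congr fun c => ?_) (tsum_subtype {c : H ⧸ U₀ | (Quotient.out c)⁻¹ ∈ S} fun c => F (Quotient.out c)⁻¹).symm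
    by_cases h : (Quotient.out c)⁻¹ ∈ S
    · rw [if_pos h, Set.indicator_of_mem (show c ∈ {c : H ⧸ U₀ | (Quotient.out c)⁻¹ ∈ S} from h)]
    · rw [if_neg h, Set.indicator_of_notMem (show c ∉ {c : H ⧸ U₀ | (Quotient.out c)⁻¹ ∈ S} from h)]
  set g : TH H × HUH H → ℝ≥0∞ := fun x => (XX J n Γ₁ ga gb x.1).indicator 1 x.2 * F (x.1.1 * n * x.2.1) with hg
  have h2 : ∀ c, F (Quotient.out c.1)⁻¹ = g (q c) := by
    intro c
    have h3 : (q c).2 ∈ XX J n Γ₁ ga gb (q c).1 := ⟨hqJ c, u' c, hu' c, by rw [← hq c]; exact c.2.1⟩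
    rw [hg]
    show _ = (XX J n Γ₁ ga gb (q c).1).indicator 1 (q c).2 * F ((q c).1.1 * n * (q c).2.1)
    rw [Set.indicator_of_mem h3, Pi.one_apply, one_mul, hq c, mul_assoc, mul_assoc, hF _ (hu' c), ← mul_assoc]
  rw [h1, tsum_congr h2]
  refine (ENNReal.tsum_comp_le_tsum_of_injective hinj g).trans (le_of_eq ?_)
  exact ENNReal.tsum_prod (f := fun τ u => (XX J n Γ₁ ga gb τ).indicator 1 u * F (τ.1 * n * u.1))

/-- `Γ_V`. -/
theorem sf_ker (h : HypH H J) {Γ₁ : Subgroup H} (hD : Dsc H Γ₁) (g : H) :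
    ∃ D'' : Set (UHR H), H33W.SF ((cjG Γ₁ g).subgroupOf (HUH H) ⊓ h.qU.ker) D'' := by
  have := th_count H
  refine t2_exists_sf (e := kUH H) (fun h x => rfl) (fun γ _ e => kUH_inj H (by rw [e, map_one])) fun Q hQ => ?_
  have hQ' : IsCompact ((fun x : UHR H => (x : HRt H)) '' Q) := hQ.image continuous_subtype_val
  have h' : Dsc H (cjG Γ₁ g) := dsc_conj H hD g
  refine ((h' _ hQ').preimage (f := fun γ : HUH H => (γ : H)) Subtype.val_injective.injOn).subset ?_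
  rintro γ ⟨h1, h2⟩
  exact ⟨h1.1, kUH H γ, h2, rfl⟩

/-- The image of `Γ_U` in the Levi part. -/
theorem sf_map (h : HypH H J) {𝔫 : Ideal (𝓞 L)} {Γ₁ : Subgroup H} (hG : ∀ γ ∈ Γ₁, γ.1 ∈ G1 b 𝔫) (g : H) :
    ∃ D' : Set (UHR H), H33W.SF (((cjG Γ₁ g).subgroupOf (HUH H)).map h.qU) D' := by
  have := th_count H
  refine t2_exists_sf (e := kUH H) (fun h x => rfl) (fun γ _ e => kUH_inj H (by rw [e, map_one])) fun Q hQ => ?_
  have hQ' : IsCompact ((fun x : UHR H => ((x : HRt H) : GR b L)) '' Q) := hQ.image (continuous_subtype_val.comp continuous_subtype_val)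
  obtain ⟨c, hc, hc'⟩ := cj_den hG g
  have h' := t3_fin b (Γ := {δ : GK b L | ∃ δ' ∈ ((cjG Γ₁ g).subgroupOf (HUH H)).map h.qU, δ'.1.1 = δ}) hc (by
    rintro _ ⟨_, ⟨γ, hγ, rfl⟩, rfl⟩ i j
    obtain ⟨y, hy⟩ := hc' γ.1 hγ i j
    have e : (h.qU γ).1.1.1.1 i j = dp (dJ b J) γ.1.1.1.1 i j := by rw [h.qU_val]
    rw [e]
    simp only [dp, Matrix.of_apply]
    split_ifs
    · exact ⟨y, hy⟩
    · exact ⟨0, by simp⟩) hQ'
  refine (h'.preimage (f := fun γ : HUH H => ((γ : H) : GK b L)) (Subtype.val_injective.comp Subtype.val_injective).injOn).subset ?_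
  rintro γ ⟨h1, h2⟩
  exact ⟨⟨γ, h1, rfl⟩, kUH H γ, h2, rfl⟩

/-- **The count in terms of the pairs.** -/
theorem count_pairs (h : HypH H J) {w : Equiv.Perm ι} {Lw : List b.support} (hw : IsWJ b J w) (hW : wW b Lw = w) {n : H} (hn : n.1 = nW b L Lw)
    {𝔫 : Ideal (𝓞 L)} {Γ₁ : Subgroup H} (hG : ∀ γ ∈ Γ₁, γ.1 ∈ G1 b 𝔫) (g : H) {F : HRt H → ℝ≥0∞} (mF : Measurable F) (iF : ∀ u ∈ UHR H, ∀ z, F (u * z) = F z)
    {ν νV νM : Measure (UHR H)} (hM : Msr (kUH H) h.piU h.qU ν νV νM) {D₁ D'' : Set (UHR H)} (sD : H33W.SF ((cjG Γ₁ g).subgroupOf (HUH H)) D₁)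
    (sV : H33W.SF ((cjG Γ₁ g).subgroupOf (HUH H) ⊓ h.qU.ker) D'') (v0 : νV D'' ≠ 0) (vt : νV D'' ≠ ⊤) (y : HRt H) :
    ∫⁻ t in D₁, ce (cjG Γ₁ g ⊓ HUH H) ((cjG Γ₁ g : Set H) ∩ {γ : H | γ.1 ∈ cell b L w}) (fun γ => F (embH H γ * ((t : HRt H) * y))) ∂ν ≤
      (∑' τ : TH H, nC ((cjG Γ₁ g).subgroupOf (HUH H) ⊓ h.qU.ker) (XX J n Γ₁ g g τ) * ∫⁻ v, F (embH H (τ.1 * n) * ((v : HRt H) * y)) ∂νV) / νV D'' * ν D₁ := by
  have := th_count H
  obtain ⟨D', sM⟩ := h.sf_map hG g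
  have hnN : IsN b L w n.1 := by
    rw [hn, ← hW]
    exact nW_isN b L Lw
  set φ : TH H → UHR H → ℝ≥0∞ := fun τ s => F (embH H (τ.1 * n) * ((s : HRt H) * y)) with hφ
  have mφ : ∀ τ, Measurable (φ τ) := by
    intro τ
    have hc : Continuous fun v : UHR H => embH H (τ.1 * n) * ((v : HRt H) * y) := continuous_const.mul (continuous_subtype_val.mul continuous_const)
    exact mF.comp hc.measurable
  have iφ : ∀ τ m t, h.piU m = m → φ τ (m * t) = φ τ t := by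
    intro τ m t hm
    have h1 := h.conj_TnU hw hnN τ.2 hm
    have e1 : embH H (τ.1 * n) * (((m * t : UHR H) : HRt H) * y) = (embH H (τ.1 * n) * (m : HRt H) * (embH H (τ.1 * n))⁻¹) * (embH H (τ.1 * n) * ((t : HRt H) * y)) := by
      rw [Subgroup.coe_mul]
      group
    show F (embH H (τ.1 * n) * (((m * t : UHR H) : HRt H) * y)) = _
    rw [e1, iF _ h1]
  have hZ : (cjG Γ₁ g : Set H) = Zs Γ₁ g g := rfl
  refine le_trans (lintegral_mono fun t => ?_) (pairs_mean h.prjU hM sV sM sD v0 vt (X := fun τ => XX J n Γ₁ g g τ) (fun τ => h.XX_ker) (fun τ u hu δ hδ => h.XX_right hu hδ)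
    (fun τ u hu γ hγ => h.XX_conj hw hnN hu hγ) (φ := φ) mφ iφ)
  rw [hZ]
  refine (h.ce_pairs hw hW hn Γ₁ g g ?_).trans (le_of_eq ?_)
  · intro u hu γ
    show F (embH H (u * γ) * ((t : HRt H) * y)) = F (embH H γ * ((t : HRt H) * y))
    rw [map_mul, mul_assoc]
    exact iF _ hu _
  · refine tsum_congr fun τ => tsum_congr fun u => ?_
    congr 1
    show F (embH H (τ.1 * n * u.1) * ((t : HRt H) * y)) = F (embH H (τ.1 * n) * (((kUH H u * t : UHR H) : HRt H) * y))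
    congr 1
    rw [map_mul (embH H) (τ.1 * n), Subgroup.coe_mul]
    simp only [mul_assoc]
    rfl

/-- The covolume of `Γ_V` is positive and finite. -/
theorem vV (h : HypH H J) {𝔫 : Ideal (𝓞 L)} {Γ₁ : Subgroup H} (hG : ∀ γ ∈ Γ₁, γ.1 ∈ G1 b 𝔫) (g : H) (hcc : CCH H (cjG Γ₁ g))
    {ν νV νM : Measure (UHR H)} [ν.IsHaarMeasure] (hM : Msr (kUH H) h.piU h.qU ν νV νM) {D₁ D'' : Set (UHR H)} (sD : H33W.SF ((cjG Γ₁ g).subgroupOf (HUH H)) D₁)
    (sV : H33W.SF ((cjG Γ₁ g).subgroupOf (HUH H) ⊓ h.qU.ker) D'') : νV D'' ≠ 0 ∧ νV D'' ≠ ⊤ := by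
  have := th_count H
  obtain ⟨D', sM⟩ := h.sf_map hG g
  have h1 := vol_prod h.prjU sV sM sD hM
  have h2 := th2_fin H hcc sD ν
  have h3 := th2_pos H sD ν
  rw [h1] at h2 h3
  have h4 : νM D' ≠ 0 := fun h => h3 (by rw [h, zero_mul])
  have h5 : νV D'' ≠ 0 := fun h => h3 (by rw [h, mul_zero])
  exact ⟨h5, fun h => h2 (by rw [h, ENNReal.mul_top h4])⟩

end HypH

/-- The support function is left invariant under `U`, for any function which is. -/
theorem ind_left (x : HRt H) (Cs : Set (HRt H)) {f : HRt H → ℝ≥0∞} (hf : ∀ u ∈ UHR H, ∀ z, f (u * z) = f z) {u : HRt H} (hu : u ∈ UHR H) (z : HRt H) :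
    (ST H x Cs).indicator f (u * z) = (ST H x Cs).indicator f z := by
  by_cases h : z ∈ ST H x Cs
  · rw [Set.indicator_of_mem h, Set.indicator_of_mem ((ST_left x Cs hu z).2 h), hf u hu]
  · rw [Set.indicator_of_notMem h, Set.indicator_of_notMem fun h' => h ((ST_left x Cs hu z).1 h')]

end

end Pool.Agent.Lib.L8.QF
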