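import Pool.Agent.Lib.L8.QF.H0
import Pool.Agent.Lib.L8.QF.Defs
import Pool.Agent.Lib.L1S.LI10

/-!
# QF, H2 (helper80): density of `U(K)` in the real unipotent group, and the Levi projection of `U(K)`, for the quasi-split group
-/

namespace Pool.Agent.Lib.L8.QF

set_option linter.unusedSectionVars false

open MeasureTheory Matrix NumberField IsDedekindDomain Pool.Agent.Lib.H89N Pool.Agent.Lib.H33W Pool.Agent.Lib.H67G Pool.Agent.Lib.L1S Pool.Agent.Lib.L8.FL Pool.Agent.Lib.L8.FC Pool.Agent.Lib.L8.FU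
open scoped ENNReal

noncomputable section

variable {ι M N : Type} [Fintype ι] [DecidableEq ι] [AddCommGroup M] [Module ℚ M] [AddCommGroup N] [Module ℚ N]
  {P : RootPairing ι ℚ M N} [P.IsCrystallographic] [P.IsReduced] [P.IsIrreducible] [P.IsRootSystem]

variable {b : P.Base} {K L : Type} [Field K] [NumberField K] [Field L] [NumberField L] [Algebra K L] {H : Subgroup (GK b L)} {J : Finset b.support} {D : Set (Equiv.Perm ι)}

/-! ## Density -/

theorem fh_le (Y : LieH b K L D H) (S : Subgroup (UHR H)) (hS : ∀ β ∈ Pos b, ∀ t, Y.xU β t ∈ S) (m : ℕ) : ∀ k, 1 ≤ k → k + m = HM b + 1 → FH H k ≤ S := by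
  induction m with
  | zero =>
    intro k _ hk g hg
    have e : k = HM b + 1 := by omega
    have h1 : toUR H g ∈ FR b L (HM b + 1) := by rw [← e]; exact hg
    rw [r1_FR_bot, Subgroup.mem_bot] at h1
    have h2 : g = 1 := UHR_ext (by
      have h3 := congrArg (fun x : UR b L => x.1.1.1) h1
      exact h3)
    rw [h2]
    exact S.one_mem
  | succ m ih =>
    intro k hk hkm g hg
    have hk1 := ih (k + 1) (by omega) (by omega)
    obtain ⟨y, hy⟩ := Y.degR (toUR H g) g.1.2 k hk hg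
    have h1 := rh2_prE_FH Y k y
    have h2 := rh2_prE_dgk Y hk y
    have h4 : Y.prE k y ∈ S := by
      refine Subgroup.list_prod_mem S fun x hx => ?_
      obtain ⟨β, hβ, rfl⟩ := List.mem_map.1 hx
      exact hS β (r1_mem_posk.1 (Finset.mem_toList.1 hβ)).1 _
    have h6 : (Y.prE k y)⁻¹ * g ∈ FH H (k + 1) := by
      have h7 : (Y.prE k y)⁻¹ * g ∈ FH H k := mul_mem (inv_mem h1) hg
      have r7 : Rs b k ((Y.prE k y)⁻¹ * g).1.1.1.1 ∧ Rs b k ((Y.prE k y)⁻¹ * g)⁻¹.1.1.1.1 := h7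
      have r1 : Rs b k (Y.prE k y).1.1.1.1 := (Subgroup.mem_comap.1 h1).1
      have h8 : dgk b k ((Y.prE k y)⁻¹ * g).1.1.1.1 = 0 := by
        have h9 : dgk b k (Y.prE k y * ((Y.prE k y)⁻¹ * g)).1.1.1.1 = dgk b k (Y.prE k y).1.1.1.1 + dgk b k ((Y.prE k y)⁻¹ * g).1.1.1.1 := dgk_mul hk r1 r7.1
        rw [mul_inv_cancel_left, h2] at h9
        have h10 : dgk b k g.1.1.1.1 = ∑ β ∈ Posk b k, (y β : EE L) • Y.YE β := hy
        rw [h10] at h9
        exact left_eq_add.1 h9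
      have h11 : dgk b k ((Y.prE k y)⁻¹ * g)⁻¹.1.1.1.1 = 0 := by
        have h9 : dgk b k (((Y.prE k y)⁻¹ * g) * ((Y.prE k y)⁻¹ * g)⁻¹).1.1.1.1 = dgk b k ((Y.prE k y)⁻¹ * g).1.1.1.1 + dgk b k ((Y.prE k y)⁻¹ * g)⁻¹.1.1.1.1 :=
          dgk_mul hk r7.1 r7.2
        rw [mul_inv_cancel, h8, zero_add] at h9
        rw [← h9]
        exact dgk_one hk
      exact ⟨(rs_succ hk).2 ⟨r7.1, h8⟩, (rs_succ hk).2 ⟨r7.2, h11⟩⟩
    have h12 := S.mul_mem h4 (hk1 h6)
    rwa [mul_inv_cancel_left] at h12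

/-- **`U(K)` is dense** in the real unipotent group. -/
theorem kUH_denseL (Y : LieH b K L D H) (u : UHR H) : u ∈ closure (Set.range (kUH H)) := by
  have h1 := fh_le Y (kUH H).range.topologicalClosure (fun β hβ t => by
    show Y.xU β t ∈ closure (((kUH H).range : Subgroup (UHR H)) : Set (UHR H))
    have hc : Continuous fun t : KR K L => Y.xU β t := by
      unfold LieH.xU
      simp only [dif_pos hβ]
      exact Continuous.subtype_mk (Continuous.subtype_mk (Y.xE_cont β hβ) _) _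
    have hd : t ∈ closure (Set.range (kr K L)) := by
      rw [closure_subtype]
      have h2 := kIm_dense K L t.2
      refine closure_mono ?_ h2
      rintro _ ⟨x, rfl⟩
      exact ⟨kr K L x, ⟨x, rfl⟩, rfl⟩
    refine map_mem_closure hc hd ?_
    rintro _ ⟨s, rfl⟩
    have e1 : emb b L (Y.x β s) = Y.xE β (kr K L s) := Y.emb_x β hβ s
    have h3 : (Y.xU β (kr K L s)).1.1 = emb b L (Y.x β s) := by
      unfold LieH.xU
      rw [dif_pos hβ]
      exact e1.symm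
    have h4 : (⟨Y.x β s, Y.x_mem β hβ s⟩ : H) ∈ HUH H := by
      show emb b L (Y.x β s) ∈ UR b L
      rw [← h3]
      exact (Y.xU β (kr K L s)).2
    exact ⟨⟨⟨Y.x β s, Y.x_mem β hβ s⟩, h4⟩, Subtype.ext (Subtype.ext h3.symm)⟩) (HM b) 1 le_rfl (by omega)
  exact h1 ⟨fun r c hrc => (u.2 r c (by push_cast at hrc; omega)).1, fun r c hrc => (u.2 r c (by push_cast at hrc; omega)).2⟩

/-! ## The Levi projection -/

theorem mc_sp {σ : Equiv.Perm ι} (hσ : DA b σ) (k : b.support) (r : I b) : mc b (hσ.sp k) (hσ.pI r) = mc b k r := by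
  rcases r with i | β
  · rfl
  · have h1 : ((mc b (hσ.sp k) (Sum.inr (σ β)) : ℤ) : ℚ) = ((mc b k (Sum.inr β) : ℤ) : ℚ) := by
      rw [mc_root, mc_root, ← hσ.L_root β, hσ.repr]
    exact_mod_cast h1

theorem dJ_pI (Q : QS b K L) (hJ : InvJ Q J) (s : L ≃ₐ[K] L) (r : I b) : dJ b J ((Q.da s).pI r) = dJ b J r := by
  unfold dJ
  refine (Finset.sum_bij (fun j _ => (Q.da s).sp j) (fun j hj => (hJ s j).2 hj) (fun j _ j' _ h => (Q.da s).sp.injective h) (fun j hj => ⟨(Q.da s).sp.symm j, ?_, (Q.da s).sp.apply_symm_apply j⟩)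
    fun j _ => (mc_sp (Q.da s) j r).symm).symm
  refine (hJ s _).1 ?_
  rw [Equiv.apply_symm_apply]
  exact hj

theorem dpK_HQ (Q : QS b K L) (hJ : InvJ Q J) (u : HUH (HQ Q)) : ∃ m : HUH (HQ Q), m.1.1.1.1 = dp (dJ b J) u.1.1.1.1 := by
  have hu : u.1.1 ∈ HU b L := u.2
  obtain ⟨m, h1, h2⟩ := exists_dpK J hu
  have h3 : Fx Q m.1.1 := by
    intro s r c
    rw [h2]
    simp only [dp, Matrix.of_apply]
    rw [dJ_pI Q hJ, dJ_pI Q hJ]
    split_ifs
    · exact (HQ_fx Q u.1.2).1 s r c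
    · exact (map_zero s).symm
  have h4 : m ∈ HQ Q := Subgroup.subset_closure ⟨h3, Or.inl fun r c hrc => ((mem_HU b L m).1 h1 r c hrc).1⟩
  exact ⟨⟨⟨m, h4⟩, h1⟩, h2⟩

end

end Pool.Agent.Lib.L8.QF
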