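import Pool.Agent.Lib.L8.QF.A2A
import Pool.Agent.Lib.L8.FL.C5B

/-!
# QF, module C5Q, PW (design helper34, helper33): pointwise formulas for the Iwasawa projection of a letter
-/

namespace Pool.Agent.Lib.L8.QF

open MeasureTheory Matrix NumberField NumberField.InfinitePlace IsDedekindDomain Pool.Agent.Lib.H89N Pool.Agent.Lib.H33W Pool.Agent.Lib.H67G Pool.Agent.Lib.L1S Pool.Agent.Lib.L8 Pool.Agent.Lib.L8.FL
open scoped ENNReal Pointwise

noncomputable section

set_option linter.unusedSectionVars false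
set_option linter.unusedVariables false

variable {ι M N : Type} [Fintype ι] [DecidableEq ι] [AddCommGroup M] [Module ℚ M] [AddCommGroup N] [Module ℚ N]
  {P : RootPairing ι ℚ M N} [P.IsCrystallographic] [P.IsReduced] [P.IsIrreducible] [P.IsRootSystem] {b : P.Base}

/-- Pairwise orthogonal simple roots. -/
def OrL (b : P.Base) (l : List b.support) : Prop := l.Nodup ∧ ∀ j ∈ l, ∀ k ∈ l, j ≠ k → b.cartanMatrix j k = 0

/-- One letter changes only one coordinate. -/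
theorem pw_one (i : b.support) (t : ℂ) (g : GF b ℂ) {k : b.support} (hk : k ≠ i) : gH b ℂ (gn b ℂ i * gx b ℂ (i : ι) t * g) k = gH b ℂ g k := by
  obtain ⟨c, hc⟩ := gH_rk (F := ℂ) i g
  rw [hc t]
  unfold sr
  simp only [Pi.add_apply, Pi.sub_apply, Pi.smul_apply, smul_eq_mul, Pi.single_eq_of_ne hk, mul_zero, sub_zero, add_zero]

/-- The coordinate of the letter. -/
theorem pw_self (i : b.support) (g : GF b ℂ) : ∃ c : ℂ, ∀ t : ℂ, gH b ℂ (gn b ℂ i * gx b ℂ (i : ι) t * g) i =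
    gH b ℂ g i - al (cA b) i (gH b ℂ g) - 1 / 2 * Real.log (1 + ‖(Real.exp (-(al (cA b) i (gH b ℂ g))) : ℝ) • (t + c)‖ ^ 2) := by
  obtain ⟨c, hc⟩ := gH_rk (F := ℂ) i g
  refine ⟨c, fun t => ?_⟩
  rw [hc t]
  unfold sr
  simp only [Pi.add_apply, Pi.sub_apply, Pi.smul_apply, smul_eq_mul, Pi.single_eq_same, mul_one]
  ring

theorem pw_list (t : b.support → ℂ) (g : GF b ℂ) {k : b.support} (m : List b.support) (hk : k ∉ m) :
    gH b ℂ ((m.map fun j : b.support => gn b ℂ j * gx b ℂ (j : ι) (t j)).prod * g) k = gH b ℂ g k := by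
  induction m with
  | nil => rw [List.map_nil, List.prod_nil, one_mul]
  | cons j m ih =>
    rw [List.mem_cons, not_or] at hk
    rw [List.map_cons, List.prod_cons, mul_assoc (gn b ℂ j * gx b ℂ (j : ι) (t j)), pw_one j _ _ hk.1, ih hk.2]

theorem pw_nx {i j : b.support} (h : b.cartanMatrix i j = 0) (hij : i ≠ j) (t : ℂ) : Commute (gn b ℂ i) (gx b ℂ (j : ι) t) :=
  Subtype.ext (a1_nx h hij t)

theorem pw_nn {i j : b.support} (h : b.cartanMatrix i j = 0) (hij : i ≠ j) : Commute (gn b ℂ i) (gn b ℂ j) :=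
  Subtype.ext (a1_nn h hij)

theorem pw_xx {i j : b.support} (h : b.cartanMatrix i j = 0) (s t : ℂ) : Commute (gx b ℂ (i : ι) s) (gx b ℂ (j : ι) t) :=
  Subtype.ext (a1_xx h s t)

theorem pw_commx {l : List b.support} {j : b.support} (h : ∀ k ∈ l, k ≠ j ∧ b.cartanMatrix j k = 0) (s : ℂ) (t : b.support → ℂ) :
    Commute (gn b ℂ j * gx b ℂ (j : ι) s) (l.map fun k : b.support => gx b ℂ (k : ι) (t k)).prod := by
  refine Commute.list_prod_right _ _ fun x hx => ?_
  obtain ⟨k, hk, rfl⟩ := List.mem_map.1 hx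
  exact Commute.mul_left (pw_nx (h k hk).2 (h k hk).1.symm _) (pw_xx (h k hk).2 _ _)

theorem pw_commF {l : List b.support} {j : b.support} (h : ∀ k ∈ l, k ≠ j ∧ b.cartanMatrix j k = 0 ∧ b.cartanMatrix k j = 0) (s : ℂ) (t : b.support → ℂ) :
    Commute (gn b ℂ j * gx b ℂ (j : ι) s) (l.map fun k : b.support => gn b ℂ k * gx b ℂ (k : ι) (t k)).prod := by
  refine Commute.list_prod_right _ _ fun x hx => ?_
  obtain ⟨k, hk, rfl⟩ := List.mem_map.1 hx
  obtain ⟨h1, h2, h3⟩ := h k hk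
  exact Commute.mul_left (Commute.mul_right (pw_nn h2 h1.symm) (pw_nx h2 h1.symm _)) (Commute.mul_right (pw_nx h3 h1 _).symm (pw_xx h2 _ _))

/-- The reordering. -/
theorem pw_reorder (t : b.support → ℂ) {l : List b.support} (hl : OrL b l) :
    gnl b ℂ l.reverse * (l.map fun j : b.support => gx b ℂ (j : ι) (t j)).prod =
      (l.reverse.map fun j : b.support => gn b ℂ j * gx b ℂ (j : ι) (t j)).prod := by
  induction l with
  | nil => rw [List.reverse_nil, List.map_nil, List.map_nil, gnl_nil, one_mul]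
  | cons j l ih =>
    obtain ⟨h1, h2⟩ := hl
    rw [List.nodup_cons] at h1
    have h3 : OrL b l := ⟨h1.2, fun i hi k hk => h2 i (List.mem_cons_of_mem _ hi) k (List.mem_cons_of_mem _ hk)⟩
    have h4 : ∀ k ∈ l, k ≠ j ∧ b.cartanMatrix j k = 0 := fun k hk => by
      have h5 : k ≠ j := fun h => h1.1 (h ▸ hk)
      exact ⟨h5, h2 j List.mem_cons_self k (List.mem_cons_of_mem _ hk) h5.symm⟩
    have h6 := (pw_commx h4 (t j) t).eq
    rw [List.reverse_cons, gnl_append, gnl_cons, gnl_nil, mul_one, List.map_cons, List.prod_cons, List.map_append, List.prod_append, List.map_cons, List.map_nil, List.prod_cons, List.prod_nil, mul_one, ← ih h3]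
    rw [mul_assoc (gnl b ℂ l.reverse) (gn b ℂ j), ← mul_assoc (gn b ℂ j), h6, ← mul_assoc]

/-- The outer coordinates do not change. PROOF: `gnl l.reverse * (∏ gx j (t j)) * g`: `gH (gn i * gx i t * g) k = gH g k` for `k ≠ i` (`gH_rk`, `sr`), and the reordering of `pw_orth`. -/
theorem pw_orth_out {l : List b.support} (hl : OrL b l) (t : b.support → ℂ) (g : GF b ℂ) {k : b.support} (hk : k ∉ l) :
    gH b ℂ (gnl b ℂ l.reverse * (l.map fun j : b.support => gx b ℂ (j : ι) (t j)).prod * g) k = gH b ℂ g k := by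
  rw [pw_reorder t hl]
  exact pw_list t g l.reverse (fun h => hk (List.mem_reverse.1 h))

/-- **The orthogonal letter.** PROOF. All `gn j`, `gx j` of different `j ∈ l` commute (`a1_xx`, `a1_nx`, `a1_nn`; `gn`, `gx` are elements with the values `mG b j 1`, `xG b j t`, `Subtype.ext`), so `gnl l.reverse * ∏ gx j (t j) = ∏ (gn j * gx j (t j))` in any order (induction on `l`: `l = j :: l'`: `gnl (l'.reverse ++ [j]) * (gx j (t j) * X') =
(gnl l'.reverse * X') * (gn j * gx j (t j))`, using that `gn j * gx j (t j)` commutes with `X'`). Move the factor of `i` to the right end: the element is `Q * (gn i * gx i (t i)) * g` with `Q` a product of factors `gn k * gx k (t k)`, `k ≠ i`. `gH_rk` for `i` and `g` gives `c` (independent of `t`), and the factors `k ≠ i` do not change the coordinate `i`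
(`gH_rk`: `sr` and `Pi.single` change only the coordinate `k`). `(sr (cA b) i y) i = y i - al (cA b) i y`. -/
theorem pw_orth {l : List b.support} (hl : OrL b l) {i : b.support} (hi : i ∈ l) (g : GF b ℂ) : ∃ c : ℂ, ∀ t : b.support → ℂ,
    gH b ℂ (gnl b ℂ l.reverse * (l.map fun j : b.support => gx b ℂ (j : ι) (t j)).prod * g) i =
      gH b ℂ g i - al (cA b) i (gH b ℂ g) - 1 / 2 * Real.log (1 + ‖(Real.exp (-(al (cA b) i (gH b ℂ g))) : ℝ) • (t i + c)‖ ^ 2) := by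
  obtain ⟨c, hc⟩ := pw_self i g
  refine ⟨c, fun t => ?_⟩
  rw [pw_reorder t hl, ← hc (t i)]
  have hi' : i ∈ l.reverse := List.mem_reverse.2 hi
  have hn : l.reverse.Nodup := List.nodup_reverse.2 hl.1
  have ho : ∀ j ∈ l.reverse, ∀ k ∈ l.reverse, j ≠ k → b.cartanMatrix j k = 0 := fun j hj k hk =>
    hl.2 j (List.mem_reverse.1 hj) k (List.mem_reverse.1 hk)
  obtain ⟨m1, m2, hm⟩ := List.append_of_mem hi'
  rw [hm] at hn ho ⊢
  rw [List.nodup_append] at hn
  obtain ⟨hn1, hn2, hn3⟩ := hn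
  rw [List.nodup_cons] at hn2
  have h1 : i ∉ m1 := fun h => hn3 i h i List.mem_cons_self rfl
  have h4 : ∀ k ∈ m2, k ≠ i ∧ b.cartanMatrix i k = 0 ∧ b.cartanMatrix k i = 0 := fun k hk => by
    have h5 : k ≠ i := fun h => hn2.1 (h ▸ hk)
    have h6 : i ∈ m1 ++ i :: m2 := List.mem_append_right _ List.mem_cons_self
    have h7 : k ∈ m1 ++ i :: m2 := List.mem_append_right _ (List.mem_cons_of_mem _ hk)
    exact ⟨h5, ho i h6 k h7 h5.symm, ho k h7 i h6 h5⟩
  have h8 := (pw_commF h4 (t i) t).eq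
  rw [List.map_append, List.prod_append, List.map_cons, List.prod_cons, h8, mul_assoc, mul_assoc, pw_list t _ m1 h1, pw_list t _ m2 hn2.1]

/-- The root element of `α_i + α_j`. -/
def gxT (b : P.Base) (i j : b.support) (z : ℂ) : GF b ℂ := (gn b ℂ i)⁻¹ * gx b ℂ (j : ι) z * gn b ℂ i

theorem gxT_val (i j : b.support) (z : ℂ) : (gxT b i j z).1 = xT b i j z := rfl

/-- PROOF: `a2_rot`. -/
theorem pw_move {i j : b.support} (h : Adj b i j) (a c z : ℂ) : gnl b ℂ [i, j, i] * (gx b ℂ (j : ι) c * gxT b i j z * gx b ℂ (i : ι) a) = gn b ℂ i * gx b ℂ (i : ι) c * (gn b ℂ j * gx b ℂ (j : ι) z * (gn b ℂ i * gx b ℂ (i : ι) a)) := by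
  have h1 : gn b ℂ j * gn b ℂ i * gx b ℂ (j : ι) c = gx b ℂ (i : ι) c * (gn b ℂ j * gn b ℂ i) := Subtype.ext (a2_rot h c)
  have h2 : gnl b ℂ [i, j, i] = gn b ℂ i * (gn b ℂ j * gn b ℂ i) := by
    rw [gnl_cons, gnl_cons, gnl_cons, gnl_nil, mul_one]
  unfold gxT
  calc gnl b ℂ [i, j, i] * (gx b ℂ (j : ι) c * ((gn b ℂ i)⁻¹ * gx b ℂ (j : ι) z * gn b ℂ i) * gx b ℂ (i : ι) a) =
        gn b ℂ i * (gn b ℂ j * gn b ℂ i * gx b ℂ (j : ι) c) * ((gn b ℂ i)⁻¹ * gx b ℂ (j : ι) z * gn b ℂ i * gx b ℂ (i : ι) a) := by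
        rw [h2]
        group
    _ = _ := by
        rw [h1]
        group

theorem pw_adj_out {i j : b.support} (h : Adj b i j) (a c z : ℂ) (g : GF b ℂ) {k : b.support} (hk : k ≠ i) (hk' : k ≠ j) :
    gH b ℂ (gnl b ℂ [i, j, i] * (gx b ℂ (j : ι) c * gxT b i j z * gx b ℂ (i : ι) a) * g) k = gH b ℂ g k := by
  rw [pw_move h, mul_assoc (gn b ℂ i * gx b ℂ (i : ι) c), pw_one i _ _ hk, mul_assoc (gn b ℂ j * gx b ℂ (j : ι) z), pw_one j _ _ hk', pw_one i _ _ hk]

/-- **The letter of the adjacent pair.** PROOF. `pw_move`; the outer letter `gn i * gx i c` does not change the coordinate `j` (`gH_rk`). `gH_rk` for `(i, g)`: `y₁ = gH (gn i * gx i a * g) = sr i y - h • Pi.single i 1`, `h = (1/2) log (1 + ‖e^(-A)(a + c₁)‖²)`, `A = al i y`, `B = al j y`; `al j y₁ = B + A + h` (`cA b i j = cA b j i = -1`,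
`al_add`, `al_smul`: `al j (Pi.single i 1) = cA b j i`). `gH_rk` for `(j, gn i * gx i a * g)`: a constant `c₂(a)`: the coordinate `j` is `y₁ j - al j y₁ - (1/2) log (1 + ‖e^(-(A + B + h)) (z + c₂)‖²)`, `y₁ j = y j`, and `h + (1/2) log (1 + e^(-2h) Z) = (1/2) log (e^(2h) + Z)` with `e^(2h) = 1 + ‖e^(-A)(a + c₁)‖²`, `Z = ‖e^(-(A+B)) (z + c₂)‖²`. -/
theorem pw_adj {i j : b.support} (h : Adj b i j) (g : GF b ℂ) : ∃ (c : ℂ) (c' : ℂ → ℂ), ∀ a d z : ℂ,
    gH b ℂ (gnl b ℂ [i, j, i] * (gx b ℂ (j : ι) d * gxT b i j z * gx b ℂ (i : ι) a) * g) j =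
      gH b ℂ g j - (al (cA b) i (gH b ℂ g) + al (cA b) j (gH b ℂ g)) -
        1 / 2 * Real.log (1 + ‖(Real.exp (-(al (cA b) i (gH b ℂ g))) : ℝ) • (a + c)‖ ^ 2 + ‖(Real.exp (-(al (cA b) i (gH b ℂ g) + al (cA b) j (gH b ℂ g))) : ℝ) • (z + c' a)‖ ^ 2) := by
  obtain ⟨c, hc⟩ := gH_rk (F := ℂ) i g
  choose c' hc' using fun a : ℂ => pw_self j (gn b ℂ i * gx b ℂ (i : ι) a * g)
  refine ⟨c, c', fun a d z => ?_⟩
  have hij : j ≠ i := h.ne.symm
  obtain ⟨y, hy⟩ : ∃ y, y = gH b ℂ g := ⟨_, rfl⟩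
  rw [pw_move h, mul_assoc (gn b ℂ i * gx b ℂ (i : ι) d), pw_one i _ _ hij, mul_assoc (gn b ℂ j * gx b ℂ (j : ι) z), hc' a z, hc a, ← hy]
  obtain ⟨E, hE⟩ : ∃ E : ℝ, E = 1 + ‖(Real.exp (-(al (cA b) i y)) : ℝ) • (a + c)‖ ^ 2 := ⟨_, rfl⟩
  rw [← hE]
  have hE0 : 0 < E := by
    rw [hE]
    positivity
  have h0 : al (cA b) j (Pi.single i 1) = -1 := by
    unfold al
    rw [Finset.sum_eq_single i]
    · rw [Pi.single_eq_same, mul_one]
      have h3 : cA b j i = -1 := h.2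
      rw [h3]
      norm_num
    · intro k _ hk
      rw [Pi.single_eq_of_ne hk, mul_zero]
    · intro h3
      exact absurd (Finset.mem_univ i) h3
  have h1 : al (cA b) j (sr (cA b) i y + (-(1 / 2 : ℝ) * Real.log E) • Pi.single i 1) = al (cA b) j y + al (cA b) i y + 1 / 2 * Real.log E := by
    have h2 : sr (cA b) i y = y + (-(al (cA b) i y)) • Pi.single i 1 := by
      unfold sr
      rw [neg_smul, sub_eq_add_neg]
    rw [h2, al_add, al_add, al_smul, al_smul, h0]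
    ring
  have h2 : (sr (cA b) i y + (-(1 / 2 : ℝ) * Real.log E) • (Pi.single i 1 : b.support → ℝ)) j = y j := by
    unfold sr
    simp only [Pi.add_apply, Pi.sub_apply, Pi.smul_apply, smul_eq_mul, Pi.single_eq_of_ne hij, mul_zero, sub_zero, add_zero]
  rw [h1, h2]
  obtain ⟨Z, hZ⟩ : ∃ Z : ℝ, Z = ‖(Real.exp (-(al (cA b) i y + al (cA b) j y)) : ℝ) • (z + c' a)‖ ^ 2 := ⟨_, rfl⟩
  rw [← hZ]
  have hZ0 : 0 ≤ Z := by
    rw [hZ]
    positivity
  have h5 : ‖(Real.exp (-(al (cA b) j y + al (cA b) i y + 1 / 2 * Real.log E)) : ℝ) • (z + c' a)‖ ^ 2 = Z / E := by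
    have h6 : Real.exp (-(al (cA b) j y + al (cA b) i y + 1 / 2 * Real.log E)) ^ 2 = Real.exp (-(al (cA b) i y + al (cA b) j y)) ^ 2 / E := by
      rw [← Real.exp_nat_mul, ← Real.exp_nat_mul]
      have h7 : ((2 : ℕ) : ℝ) * -(al (cA b) j y + al (cA b) i y + 1 / 2 * Real.log E) = ((2 : ℕ) : ℝ) * -(al (cA b) i y + al (cA b) j y) - Real.log E := by
        push_cast
        ring
      rw [h7, Real.exp_sub, Real.exp_log hE0]
    rw [hZ, norm_smul, norm_smul, mul_pow, mul_pow, Real.norm_eq_abs, Real.norm_eq_abs, sq_abs, sq_abs, h6]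
    ring
  rw [h5]
  have h8 : 1 + Z / E = (E + Z) / E := by
    field_simp
  rw [h8, Real.log_div (by positivity) hE0.ne']
  ring

end

end Pool.Agent.Lib.L8.QF
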