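import Pool.Agent.Lib.L8.QF.W6Q
import Pool.Agent.Lib.L8.QF.EQ2
import Pool.Agent.Lib.L8.QF.PW
import Pool.Agent.Lib.H29Q.GE

/-!
# QF, module C5Q, LE (design helper33): the function `F_e` and a letter
-/

namespace Pool.Agent.Lib.L8.QF

open MeasureTheory Matrix NumberField NumberField.InfinitePlace IsDedekindDomain Pool.Agent.Lib.H89N Pool.Agent.Lib.H33W Pool.Agent.Lib.H67G Pool.Agent.Lib.L1S Pool.Agent.Lib.L8 Pool.Agent.Lib.L8.FL
open scoped ENNReal Pointwise

noncomputable section

set_option linter.unusedSectionVars false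
set_option linter.unusedVariables false

variable {ι M N : Type} [Fintype ι] [DecidableEq ι] [AddCommGroup M] [Module ℚ M] [AddCommGroup N] [Module ℚ N]
  {P : RootPairing ι ℚ M N} [P.IsCrystallographic] [P.IsReduced] [P.IsIrreducible] [P.IsRootSystem] {b : P.Base}
  {K L : Type} [Field K] [NumberField K] [Field L] [NumberField L] [Algebra K L]

theorem le_dual (e x : b.support → ℝ) : ∑ k, e k * al (cA b) k x = ∑ j, xe b e j * x j := by
  unfold al xe
  simp only [Finset.mul_sum, Finset.sum_mul]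
  rw [Finset.sum_comm]
  refine Finset.sum_congr rfl fun j _ => Finset.sum_congr rfl fun k _ => ?_
  unfold cA
  ring

theorem le_xe_se (e : b.support → ℝ) (k j : b.support) : xe b (se b k e) j = xe b e j - mu b e k * (b.cartanMatrix k j : ℝ) := by
  unfold xe
  have h1 : ∀ m, se b k e m * (b.cartanMatrix m j : ℝ) = e m * (b.cartanMatrix m j : ℝ) - if m = k then mu b e k * (b.cartanMatrix k j : ℝ) else 0 := fun m => by
    unfold se
    split_ifs with h
    · subst h
      ring
    · ring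
  rw [Finset.sum_congr rfl fun m _ => h1 m, Finset.sum_sub_distrib, Finset.sum_ite_eq' Finset.univ k]
  simp

theorem le_xe_eW (e : b.support → ℝ) {l : List b.support} {j : b.support} (h : ∀ k ∈ l, b.cartanMatrix k j = 0) : xe b (eW b e l) j = xe b e j := by
  induction l with
  | nil => rfl
  | cons k l ih =>
    have h1 : xe b (eW b e (k :: l)) j = xe b (se b k (eW b e l)) j := rfl
    rw [h1, le_xe_se, ih fun m hm => h m (List.mem_cons_of_mem _ hm), h k List.mem_cons_self]
    push_cast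
    ring

/-- PROOF: `xe_sp`, `InvE`, `H29Q.mem_orb`. -/
theorem le_xe {Q : QS b K L} {e : b.support → ℝ} (he : InvE Q e) {i j : b.support} (hj : j ∈ orb Q i) : xe b e j = xe b e i := by
  obtain ⟨s, rfl⟩ := H29Q.mem_orb.1 hj
  rw [xe_sp (Q.da s)]
  have h2 : (fun k => e ((Q.da s).sp k)) = e := funext fun k => he s k
  rw [h2]

/-- **The function `F_e` when only the coordinates in an orbit change.** PROOF: `Ht z k = Ht y k` for `k ∉ orb Q i`, and `Ht z k - Ht y k = Ht z i - Ht y i` for `k ∈ orb Q i` (`Ht_sp`), so `Ht z = Ht y + ∑ k ∈ orb Q i, D • Pi.single k 1`; `al_add`, `al_sum` (or `al` is a sum), `sum_al_single`, `le_xe`. -/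
theorem le_Fe {Q : QS b K L} {e : b.support → ℝ} (he : InvE Q e) {i : b.support} {y z : HRt (HQ Q)} (h : ∀ k ∉ orb Q i, ∀ w, Hw w z k = Hw w y k) :
    Fe e z = Fe e y * Real.exp (xe b e i * (((orb Q i).card : ℝ) * (Ht z i - Ht y i))) := by
  have hz : ∀ x : HRt (HQ Q), ∀ j ∈ orb Q i, Ht x j = Ht x i := by
    intro x j hj
    obtain ⟨s, rfl⟩ := H29Q.mem_orb.1 hj
    exact Ht_sp s x i
  unfold Fe
  rw [le_dual, le_dual, ← Real.exp_add]
  congr 1
  have h1 : ∀ j, xe b e j * Ht z j = xe b e j * Ht y j + if j ∈ orb Q i then xe b e i * (Ht z i - Ht y i) else 0 := by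
    intro j
    by_cases hj : j ∈ orb Q i
    · rw [if_pos hj, hz z j hj, hz y j hj, le_xe he hj]
      ring
    · rw [if_neg hj, add_zero]
      congr 1
      unfold Ht
      exact Finset.sum_congr rfl fun w _ => by rw [h j hj w]
  rw [Finset.sum_congr rfl fun j _ => h1 j, Finset.sum_add_distrib, Finset.sum_ite_mem, Finset.univ_inter, Finset.sum_const, nsmul_eq_mul]
  ring

/-- The word of pairwise orthogonal roots. PROOF: induction on `l`: `eW e (j :: l) = se j (eW e l)`, `sum_al_se`; `mu (eW e l) j = mu e j` for `j` orthogonal to `l` (`xe` of `se`: `xe b (se b k e) j = xe b e j - mu b e k * a_kj`). -/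
theorem le_eW_orL (e : b.support → ℝ) {l : List b.support} (hl : OrL b l) (y : b.support → ℝ) : ∑ k, eW b e l k * al (cA b) k y = ∑ k, e k * al (cA b) k y - ∑ j ∈ l.toFinset, mu b e j * al (cA b) j y := by
  induction l with
  | nil =>
    rw [List.toFinset_nil, Finset.sum_empty, sub_zero]
    rfl
  | cons j l ih =>
    have hl' : OrL b l := ⟨(List.nodup_cons.1 hl.1).2, fun a ha c hc hac => hl.2 a (List.mem_cons_of_mem _ ha) c (List.mem_cons_of_mem _ hc) hac⟩
    have hj : j ∉ l := (List.nodup_cons.1 hl.1).1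
    have h1 : xe b (eW b e l) j = xe b e j := le_xe_eW e fun k hk => hl.2 k (List.mem_cons_of_mem _ hk) j List.mem_cons_self (fun h => hj (h ▸ hk))
    have h2 : mu b (eW b e l) j = mu b e j := by
      unfold L8.FL.mu
      rw [h1]
    have h3 := sum_al_se (eW b e l) j y
    rw [ih hl', h2] at h3
    have h4 : ∑ k, eW b e (j :: l) k * al (cA b) k y = ∑ k, se b j (eW b e l) k * al (cA b) k y := rfl
    rw [h4, h3, List.toFinset_cons, Finset.sum_insert (fun h => hj (List.mem_toFinset.1 h))]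
    ring

/-- PROOF: `mu (se i e) j = 2 μ`, `mu (se j (se i e)) i = μ` for `mu e i = mu e j = μ`. -/
theorem le_eW_adj (e : b.support → ℝ) {i j : b.support} (h : Adj b i j) (hμ : mu b e j = mu b e i) (y : b.support → ℝ) :
    ∑ k, eW b e [i, j, i] k * al (cA b) k y = ∑ k, e k * al (cA b) k y - 2 * mu b e i * (al (cA b) i y + al (cA b) j y) := by
  have h1 := sum_al_se (se b j (se b i e)) i y
  have h2 := sum_al_se (se b i e) j y
  have h3 := sum_al_se e i y
  have h4 : ∑ k, eW b e [i, j, i] k * al (cA b) k y = ∑ k, se b i (se b j (se b i e)) k * al (cA b) k y := rfl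
  have hii : (b.cartanMatrix i i : ℝ) = 2 := by
    rw [b.cartanMatrix_apply_same]
    norm_num
  have hij : (b.cartanMatrix i j : ℝ) = -1 := by
    rw [h.1]
    norm_num
  have hji : (b.cartanMatrix j i : ℝ) = -1 := by
    rw [h.2]
    norm_num
  have h5 : mu b (se b i e) j = 2 * mu b e i := by
    have h7 := le_xe_se e i j
    rw [hij] at h7
    unfold L8.FL.mu at h7 hμ ⊢
    linarith
  have h6 : mu b (se b j (se b i e)) i = mu b e i := by
    have h7 := le_xe_se e i i
    have h8 := le_xe_se (se b i e) j i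
    rw [hji, h5] at h8
    rw [hii] at h7
    unfold L8.FL.mu at h7 h8 ⊢
    linarith
  rw [h4, h1, h2, h3, h5, h6]
  ring

/-- PROOF: `le_eW_orL`, `Ht_al`, `le_xe`, `H29Q.ow_orth`. -/
theorem le_orth {Q : QS b K L} {e : b.support → ℝ} (he : InvE Q e) {i : b.support} (hO : H29Q.Orth Q i) (hl : OrL b (orb Q i).toList) (y : HRt (HQ Q)) :
    Fe (eW b e (ow Q i)) y = Fe e y * Real.exp (-((xe b e i - 1) * (((orb Q i).card : ℝ) * al (cA b) i (Ht y)))) := by
  have hal : ∀ j ∈ orb Q i, al (cA b) j (Ht y) = al (cA b) i (Ht y) := by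
    intro j hj
    obtain ⟨s, rfl⟩ := H29Q.mem_orb.1 hj
    exact Ht_al s y i
  unfold Fe
  rw [H29Q.ow_orth hO, le_eW_orL e hl, ← Real.exp_add]
  congr 1
  have h1 : ∑ j ∈ ((orb Q i).toList).toFinset, mu b e j * al (cA b) j (Ht y) = ((orb Q i).card : ℝ) * ((xe b e i - 1) * al (cA b) i (Ht y)) := by
    rw [Finset.toList_toFinset, Finset.sum_congr rfl fun j hj => show mu b e j * al (cA b) j (Ht y) = (xe b e i - 1) * al (cA b) i (Ht y) by
      unfold L8.FL.mu
      rw [le_xe he hj, hal j hj], Finset.sum_const, nsmul_eq_mul]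
  rw [h1]
  ring

/-- PROOF: `le_eW_adj`, `Ht_al`, `le_xe`. -/
theorem le_adj {Q : QS b K L} {e : b.support → ℝ} (he : InvE Q e) {i j : b.support} (hO : orb Q i = {i, j}) (ho : ow Q i = [i, j, i]) (h : Adj b i j) (y : HRt (HQ Q)) :
    Fe (eW b e (ow Q i)) y = Fe e y * Real.exp (-((xe b e i - 1) * (4 * al (cA b) i (Ht y)))) := by
  have hj : j ∈ orb Q i := by
    rw [hO]
    exact Finset.mem_insert_of_mem (Finset.mem_singleton_self j)
  have hal : al (cA b) j (Ht y) = al (cA b) i (Ht y) := by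
    obtain ⟨s, hs⟩ := H29Q.mem_orb.1 hj
    rw [← hs]
    exact Ht_al s y i
  have hμ : mu b e j = mu b e i := by
    unfold L8.FL.mu
    rw [le_xe he hj]
  unfold Fe
  rw [ho, le_eW_adj e h hμ, hal, ← Real.exp_add]
  congr 1
  unfold L8.FL.mu
  ring

end

end Pool.Agent.Lib.L8.QF
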