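import Pool.Agent.Lib.L8.QF.PO
import Pool.Agent.Lib.L8.QF.LE
import Pool.Agent.Lib.L8.FL.C5C

/-!
# QF, module C5Q, LO (helper33): the letter of an orthogonal orbit
-/

namespace Pool.Agent.Lib.L8.QF

open MeasureTheory Matrix NumberField NumberField.InfinitePlace IsDedekindDomain Pool.Agent.Lib.H89N Pool.Agent.Lib.H33W Pool.Agent.Lib.H67G Pool.Agent.Lib.L1S Pool.Agent.Lib.L8 Pool.Agent.Lib.L8.FL
open scoped ENNReal Pointwise

noncomputable section

set_option linter.unusedSectionVars false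
set_option linter.unusedVariables false

variable {ι M N : Type} [Fintype ι] [DecidableEq ι] [AddCommGroup M] [Module ℚ M] [AddCommGroup N] [Module ℚ N]
  {P : RootPairing ι ℚ M N} [P.IsCrystallographic] [P.IsReduced] [P.IsIrreducible] [P.IsRootSystem] {b : P.Base}
  {K L : Type} [Field K] [NumberField K] [Field L] [NumberField L] [Algebra K L]

/-- The difference of the heights is a sum over the places of the field of the orbit. -/
theorem lo_diff [IsGalois K L] (Q : QS b K L) (i : b.support) (y z : HRt (HQ Q)) {c : InfinitePlace (FO Q i) → InfinitePlace L} (hc : ∀ v, (c v).comap (algebraMap (FO Q i) L) = v) :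
    Ht z i - Ht y i = (Module.finrank (FO Q i) L : ℝ) * ∑ v : InfinitePlace (FO Q i), (v.mult : ℝ) * (Hw (c v) z i - Hw (c v) y i) := by
  rw [← fo_sum Q i (fun w => Hw w z i - Hw w y i) (fun s hs w => by
    have h1 := Hw_s Q s w z i
    have h2 := Hw_s Q s w y i
    rw [mem_StQ.1 hs] at h1 h2
    rw [← h1, ← h2]) c hc]
  unfold Ht
  rw [← Finset.sum_sub_distrib]
  refine Finset.sum_congr rfl fun w _ => by ring

theorem lo_al [IsGalois K L] (Q : QS b K L) (i : b.support) (y : HRt (HQ Q)) {c : InfinitePlace (FO Q i) → InfinitePlace L} (hc : ∀ v, (c v).comap (algebraMap (FO Q i) L) = v) :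
    al (cA b) i (Ht y) = (Module.finrank (FO Q i) L : ℝ) * ∑ v : InfinitePlace (FO Q i), (v.mult : ℝ) * al (cA b) i (Hw (c v) y) := by
  rw [← fo_sum Q i (fun w => al (cA b) i (Hw w y)) (fun s hs w => ?_) c hc, al_Ht]
  have h2 : ∀ k, Hw (w.comap (s : L →+* L)) y k = Hw w y ((Q.da s).sp k) := fun k => (Hw_s Q s w y k).symm
  unfold al
  rw [← Equiv.sum_comp (Q.da s).sp fun k => (cA b i k : ℝ) * Hw w y k]
  refine Finset.sum_congr rfl fun k _ => ?_
  rw [h2]
  have h3 : cA b i ((Q.da s).sp k) = cA b i k := by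
    have h5 : cA b ((Q.da s).sp i) ((Q.da s).sp k) = cA b i k := eq2_cartan (Q.da s) i k
    rwa [mem_StQ.1 hs] at h5
  rw [h3]

theorem lo_one [IsGalois K L] (Q : QS b K L) (i : b.support) : ((orb Q i).card : ℝ) * (Module.finrank (FO Q i) L : ℝ) * df K L = 1 := by
  have h1 := fo_card Q i
  have h2 : (Module.finrank K L : ℝ) ≠ 0 := by
    have : FiniteDimensional K L := Module.Finite.of_restrictScalars_finite ℚ K L
    exact_mod_cast (Module.finrank_pos (R := K) (M := L)).ne'
  have h3 : ((orb Q i).card : ℝ) * (Module.finrank (FO Q i) L : ℝ) = (Module.finrank K L : ℝ) := by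
    rw [← h1]
    push_cast
    ring
  rw [h3]
  exact mul_inv_cancel₀ h2

/-- Choice of the places. -/
theorem lo_places (Q : QS b K L) (i : b.support) : ∃ c : InfinitePlace (FO Q i) → InfinitePlace L, ∀ v, (c v).comap (algebraMap (FO Q i) L) = v := by
  choose c hc using fun v : InfinitePlace (FO Q i) => InfinitePlace.comap_surjective (k := FO Q i) (K := L) v
  exact ⟨c, hc⟩

theorem lo_pos (Q : QS b K L) {i : b.support} {κ : ℝ} {e : b.support → ℝ} (he : InvE Q e) (hP : PosW b κ e (ow Q i)) : κ ≤ xe b e i - 1 := by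
  rcases List.eq_nil_or_concat (ow Q i) with h | ⟨l, a, h⟩
  · exfalso
    by_cases hO : H29Q.Orth Q i
    · rw [H29Q.ow_orth hO] at h
      have h1 : i ∈ (orb Q i).toList := Finset.mem_toList.2 (c2_orb_self Q i)
      rw [h] at h1
      exact List.not_mem_nil h1
    · obtain ⟨j, -, -, hw, -⟩ := H29Q.ow_adj (not_not.1 hO)
      rw [hw] at h
      exact List.cons_ne_nil _ _ h
  · have ha : a ∈ orb Q i := (blk_ow Q i).mem a (by rw [h]; simp)
    rw [h, List.concat_eq_append, H29Q.posW_append] at hP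
    have h1 : κ ≤ mu b e a := hP.2.1
    have h2 : mu b e a = xe b e a - 1 := rfl
    rw [h2, le_xe he ha] at h1
    exact h1

/-- The heights of `m x(r) y`. -/
theorem lo_height [IsGalois K L] (Q : QS b K L) {i : b.support} (hO : H29Q.Orth Q i) {m : HRt (HQ Q)} (hm : ∀ w, pH (HQ Q) w m = gnl b ℂ (ow Q i).reverse)
    {x : EE (FO Q i) → HRt (HQ Q)} {t : EE (FO Q i) → b.support → EE L} (ht : ∀ r, t r i = jE Q i r)
    (hx : ∀ r w, pH (HQ Q) w (x r) = ((ow Q i).map fun j : b.support => gx b ℂ (j : ι) (evw w (t r j))).prod) (y : HRt (HQ Q)) :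
    (∀ r, ∀ k ∉ orb Q i, ∀ w, Hw w (m * x r * y) k = Hw w y k) ∧ ∀ w, ∃ c : ℂ, ∀ r, Hw w (m * x r * y) i - Hw w y i =
      -al (cA b) i (Hw w y) - 1 / 2 * Real.log (1 + ‖(Real.exp (-(al (cA b) i (Hw w y))) : ℝ) • (evw w (jE Q i r) + c)‖ ^ 2) := by
  have how : ow Q i = (orb Q i).toList := H29Q.ow_orth hO
  have hl := orL_orb hO
  have hi : i ∈ (orb Q i).toList := Finset.mem_toList.2 (c2_orb_self Q i)
  have hval : ∀ (z : HRt (HQ Q)) (w : InfinitePlace L), Hw w z = gH b ℂ (pH (HQ Q) w z) := fun z w => rfl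
  rw [how] at hm
  constructor
  · intro r k hk w
    rw [hval, hval, map_mul, map_mul, hm, hx, how]
    exact pw_orth_out hl (fun j => evw w (t r j)) _ (fun h => hk (Finset.mem_toList.1 h))
  · intro w
    obtain ⟨c, hc⟩ := pw_orth hl hi (pH (HQ Q) w y)
    refine ⟨c, fun r => ?_⟩
    have h1 := hc fun j => evw w (t r j)
    rw [hval, hval, map_mul, map_mul, hm, hx, how, h1, ht]
    ring

/-- **The letter of an orthogonal orbit.** -/
theorem letQ_orth [IsGalois K L] (Q : QS b K L) {i : b.support} (hO : H29Q.Orth Q i) {κ : ℝ} (hκ : 1 < κ) {e : b.support → ℝ} (he : InvE Q e) (hP : PosW b κ e (ow Q i)) : LetQ Q i e := by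
  intro m hm ν hν
  obtain ⟨x, t, hxc, ht, hx, hRH⟩ := po_param Q hO
  obtain ⟨c0, hc0⟩ := lo_places Q i
  -- the exponent
  have hs : 1 < xe b e i := by
    have h1 := lo_pos Q he hP
    linarith
  obtain ⟨C, hC, hint⟩ := int_EE (K := FO Q i) (xe b e i) hs
  obtain ⟨k, hk0, hk1, hk⟩ := rh_uniq (LoH_closed (orb Q i)ᶜ) hν hRH
  refine ⟨(k.toReal + 1) * C, by positivity, fun y => ?_⟩
  obtain ⟨ho, hw⟩ := lo_height Q hO hm ht hx y
  choose cc hcc using hw
  choose ε hε using fun v : InfinitePlace (FO Q i) => evw_iE (algebraMap (FO Q i) L) (c0 v)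
  have hFy : 0 < Fe e y := Fe_pos e y
  have hdf : 0 ≤ df K L := by
    unfold df
    positivity
  set A : InfinitePlace (FO Q i) → ℝ := fun v => al (cA b) i (Hw (c0 v) y) with hA
  set c : InfinitePlace (FO Q i) → ℂ := fun v => cjb (ε v) (cc (c0 v)) with hc
  -- the pointwise formula
  have hpt : ∀ r, Fe e (m * x r * y) ^ df K L = Fe e y ^ df K L * Real.exp (-(xe b e i * ∑ v, (v.mult : ℝ) * A v)) *
      ∏ v : InfinitePlace (FO Q i), (1 + ‖(Real.exp (-(A v)) : ℝ) • (evw v r + c v)‖ ^ 2) ^ (-((v.mult : ℝ) * xe b e i / 2)) := by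
    intro r
    rw [le_Fe he (ho r), Real.mul_rpow hFy.le (Real.exp_pos _).le, mul_assoc (Fe e y ^ df K L)]
    refine congrArg (fun a => Fe e y ^ df K L * a) ?_
    rw [← Real.exp_mul, lo_diff Q i y _ hc0]
    have h1 : ∀ v : InfinitePlace (FO Q i), Hw (c0 v) (m * x r * y) i - Hw (c0 v) y i = -A v - 1 / 2 * Real.log (1 + ‖(Real.exp (-(A v)) : ℝ) • (evw v r + c v)‖ ^ 2) := by
      intro v
      rw [hcc (c0 v) r]
      have h2 : ‖(Real.exp (-(A v)) : ℝ) • (evw (c0 v) (jE Q i r) + cc (c0 v))‖ = ‖(Real.exp (-(A v)) : ℝ) • (evw v r + c v)‖ := by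
        rw [norm_smul, norm_smul]
        congr 1
        have h3 : evw (c0 v) (jE Q i r) = cjb (ε v) (evw v r) := by
          have h4 := hε v r
          rw [hc0 v] at h4
          exact h4
        rw [h3, hc]
        have h5 : cjb (ε v) (evw v r) + cc (c0 v) = cjb (ε v) (evw v r + cjb (ε v) (cc (c0 v))) := by
          rw [map_add, cjb_cjb]
        rw [h5, cjb_norm]
      rw [← h2]
    rw [Finset.sum_congr rfl fun v _ => by rw [h1 v]]
    have h6 : ∏ v : InfinitePlace (FO Q i), (1 + ‖(Real.exp (-(A v)) : ℝ) • (evw v r + c v)‖ ^ 2) ^ (-((v.mult : ℝ) * xe b e i / 2)) =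
        Real.exp (-(xe b e i * ∑ v : InfinitePlace (FO Q i), (v.mult : ℝ) * (1 / 2 * Real.log (1 + ‖(Real.exp (-(A v)) : ℝ) • (evw v r + c v)‖ ^ 2)))) := by
      rw [Finset.mul_sum, ← Finset.sum_neg_distrib, Real.exp_sum]
      refine Finset.prod_congr rfl fun v _ => ?_
      rw [Real.rpow_def_of_pos (by positivity)]
      congr 1
      ring
    rw [h6, ← Real.exp_add]
    congr 1
    have h7 := lo_one Q i
    have h8 : ∑ v : InfinitePlace (FO Q i), (v.mult : ℝ) * (-A v - 1 / 2 * Real.log (1 + ‖(Real.exp (-(A v)) : ℝ) • (evw v r + c v)‖ ^ 2)) =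
        -∑ v : InfinitePlace (FO Q i), (v.mult : ℝ) * A v - ∑ v : InfinitePlace (FO Q i), (v.mult : ℝ) * (1 / 2 * Real.log (1 + ‖(Real.exp (-(A v)) : ℝ) • (evw v r + c v)‖ ^ 2)) := by
      rw [← Finset.sum_neg_distrib, ← Finset.sum_sub_distrib]
      exact Finset.sum_congr rfl fun v _ => by ring
    rw [h8]
    linear_combination (xe b e i * (-∑ v : InfinitePlace (FO Q i), (v.mult : ℝ) * A v - ∑ v : InfinitePlace (FO Q i), (v.mult : ℝ) * (1 / 2 * Real.log (1 + ‖(Real.exp (-(A v)) : ℝ) • (evw v r + c v)‖ ^ 2)))) * h7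
  -- the integral
  have hmeas : Measurable fun u : HRt (HQ Q) => ENNReal.ofReal (Fe e (m * u * y) ^ df K L) := by
    refine ENNReal.measurable_ofReal.comp ?_
    exact (((Fe_comp e (c5e_c1 m y)).measurable).pow_const _)
  have hE : Fe (eW b e (ow Q i)) y ^ df K L = Fe e y ^ df K L * Real.exp (-((xe b e i - 1) * ∑ v, (v.mult : ℝ) * A v)) := by
    rw [le_orth he hO (orL_orb hO), Real.mul_rpow hFy.le (Real.exp_pos _).le, ← Real.exp_mul, lo_al Q i y hc0]
    congr 2
    have h7 := lo_one Q i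
    linear_combination (-((xe b e i - 1) * ∑ v, (v.mult : ℝ) * A v)) * h7
  rw [hk, lintegral_smul_measure, lintegral_map hmeas hxc.measurable, smul_eq_mul]
  have hD : 0 ≤ Fe e y ^ df K L * Real.exp (-(xe b e i * ∑ v, (v.mult : ℝ) * A v)) := by positivity
  calc k * ∫⁻ r, ENNReal.ofReal (Fe e (m * x r * y) ^ df K L)
      = k * (ENNReal.ofReal (Fe e y ^ df K L * Real.exp (-(xe b e i * ∑ v, (v.mult : ℝ) * A v))) *
          ∫⁻ r : EE (FO Q i), ENNReal.ofReal (∏ v : InfinitePlace (FO Q i), (1 + ‖(Real.exp (-(A v)) : ℝ) • (evw v r + c v)‖ ^ 2) ^ (-((v.mult : ℝ) * xe b e i / 2)))) := by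
        rw [← lintegral_const_mul' _ _ ENNReal.ofReal_ne_top]
        congr 1
        refine lintegral_congr fun r => ?_
        rw [hpt r, ENNReal.ofReal_mul hD]
    _ ≤ k * (ENNReal.ofReal (Fe e y ^ df K L * Real.exp (-(xe b e i * ∑ v, (v.mult : ℝ) * A v))) * ENNReal.ofReal (C * Real.exp (∑ v, (v.mult : ℝ) * A v))) :=
        mul_le_mul' le_rfl (mul_le_mul' le_rfl (hint A c))
    _ ≤ ENNReal.ofReal (k.toReal + 1) * ENNReal.ofReal (C * Fe (eW b e (ow Q i)) y ^ df K L) := by
        refine mul_le_mul' ?_ (le_of_eq ?_)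
        · conv_lhs => rw [← ENNReal.ofReal_toReal hk1]
          exact ENNReal.ofReal_le_ofReal (by linarith)
        · rw [← ENNReal.ofReal_mul hD, hE]
          congr 1
          have h9 : Real.exp (-((xe b e i - 1) * ∑ v, (v.mult : ℝ) * A v)) = Real.exp (-(xe b e i * ∑ v, (v.mult : ℝ) * A v)) * Real.exp (∑ v, (v.mult : ℝ) * A v) := by
            rw [← Real.exp_add]
            congr 1
            ring
          rw [h9]
          ring
    _ = ENNReal.ofReal ((k.toReal + 1) * C * Fe (eW b e (ow Q i)) y ^ df K L) := by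
        rw [← ENNReal.ofReal_mul (by positivity)]
        congr 1
        ring

end

end Pool.Agent.Lib.L8.QF
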