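import Pool.Agent.Lib.L8.QF.PP3
import Pool.Agent.Lib.L8.QF.LO

/-!
# QF, module C5Q, LA (helper33): the letter of an adjacent pair
-/

namespace Pool.Agent.Lib.L8.QF

open MeasureTheory Matrix NumberField NumberField.InfinitePlace IsDedekindDomain Pool.Agent.Lib.H89N Pool.Agent.Lib.H33W Pool.Agent.Lib.H67G Pool.Agent.Lib.L1S Pool.Agent.Lib.L8 Pool.Agent.Lib.L8.FL
open scoped ENNReal Pointwise

noncomputable section

set_option linter.unusedSectionVars false
set_option linter.unusedVariables false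

variable {ι M N : Type} [Fintype ι] [DecidableEq ι] [AddCommGroup M] [Module ℚ M] [AddCommGroup N] [Module ℚ N]
  {P : RootPairing ι ℚ M N} [P.IsCrystallographic] [P.IsReduced] [P.IsIrreducible] [P.IsRootSystem] {b : P.Base}
  {K L : Type} [Field K] [NumberField K] [Field L] [NumberField L] [Algebra K L]

/-- The analytic lemma for the pair (helper34). -/
def R6S (K F : Type) [Field K] [NumberField K] [Field F] [NumberField F] [Algebra K F] (σ : F ≃ₐ[K] F) (η : F) (s : ℝ) : Prop :=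
  ∃ C : ℝ, 0 < C ∧ ∀ (A : InfinitePlace F → ℝ) (c : InfinitePlace F → ℂ) (g : EE F → InfinitePlace F → ℂ),
    ∫⁻ a : EE F, ∫⁻ q : EE K, ENNReal.ofReal (∏ v : InfinitePlace F, (1 + ‖(Real.exp (-(A v)) : ℝ) • (evw v a + c v)‖ ^ 2 +
      ‖(Real.exp (-(A v + A (cpl σ v))) : ℝ) • (evw v (mixedEmbedding F η * iE (algebraMap K F) q) + g a v)‖ ^ 2) ^ (-((v.mult : ℝ) * s / 2))) ≤
      ENNReal.ofReal (C * Real.exp (2 * ∑ v : InfinitePlace F, (v.mult : ℝ) * A v))

variable {Q : QS b K L} {i j : b.support} {σ : FO Q i ≃ₐ[K] FO Q i} {η : FO Q i}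

/-- The heights of `m x(p) y`. -/
theorem la_height [IsGalois K L] (D : PrD Q i j σ η) {m : HRt (HQ Q)} (hm : ∀ w, pH (HQ Q) w m = gnl b ℂ (ow Q i).reverse)
    {x : EE (FO Q i) × EE K → HRt (HQ Q)} (hx : ∀ p w, pH (HQ Q) w (x p) = vC D p w) (y : HRt (HQ Q)) :
    (∀ p, ∀ k ∉ orb Q i, ∀ w, Hw w (m * x p * y) k = Hw w y k) ∧ ∀ w, ∃ (c : ℂ) (c' : ℂ → ℂ), ∀ p, Hw w (m * x p * y) j - Hw w y j =
      -(al (cA b) i (Hw w y) + al (cA b) j (Hw w y)) - 1 / 2 * Real.log (1 + ‖(Real.exp (-(al (cA b) i (Hw w y))) : ℝ) • (evw w (jE Q i p.1) + c)‖ ^ 2 +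
        ‖(Real.exp (-(al (cA b) i (Hw w y) + al (cA b) j (Hw w y))) : ℝ) • (evw w (jE Q i (hz σ η p)) + c' (evw w (jE Q i p.1)))‖ ^ 2) := by
  have hval : ∀ (z : HRt (HQ Q)) (w : InfinitePlace L), Hw w z = gH b ℂ (pH (HQ Q) w z) := fun z w => rfl
  have hrev : (ow Q i).reverse = [i, j, i] := by
    rw [D.ow]
    rfl
  rw [hrev] at hm
  constructor
  · intro p k hk w
    rw [D.orb, Finset.mem_insert, Finset.mem_singleton, not_or] at hk
    rw [hval, hval, map_mul, map_mul, hm, hx]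
    exact pw_adj_out D.adj _ _ _ _ hk.1 hk.2
  · intro w
    obtain ⟨c, c', hc⟩ := pw_adj D.adj (pH (HQ Q) w y)
    refine ⟨c, c', fun p => ?_⟩
    rw [hval, hval, map_mul, map_mul, hm, hx]
    unfold vC
    rw [hc]
    ring

/-- The other element of the orbit. -/
theorem la_sp [IsGalois K L] (D : PrD Q i j σ η) : ∃ s : L ≃ₐ[K] L, (Q.da s).sp i = j ∧ s ∉ StQ Q i := by
  have h1 : j ∈ orb Q i := by
    rw [D.orb]
    simp
  obtain ⟨s, hs⟩ := H29Q.mem_orb.1 h1
  refine ⟨s, hs, fun h => D.ne ?_⟩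
  rw [← mem_StQ.1 h]
  exact hs

/-- An element which is not in the stabiliser exchanges `i` and `j`. -/
theorem la_swap [IsGalois K L] (D : PrD Q i j σ η) {s : L ≃ₐ[K] L} (hs : s ∉ StQ Q i) : (Q.da s).sp i = j ∧ (Q.da s).sp j = i := by
  have h1 : (Q.da s).sp i ∈ orb Q i := c2_orb_sp Q i s (c2_orb_self Q i)
  have h2 : (Q.da s).sp j ∈ orb Q i := c2_orb_sp Q i s (by rw [D.orb]; simp)
  rw [D.orb, Finset.mem_insert, Finset.mem_singleton] at h1 h2
  have h3 : (Q.da s).sp i = j := h1.resolve_left fun h => hs (mem_StQ.2 h)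
  refine ⟨h3, h2.resolve_right fun h => D.ne ?_⟩
  have h4 := sp_cancel Q s j
  rw [h] at h4
  have h5 := sp_cancel Q s i
  rw [h3, h4] at h5
  exact h5.symm

/-- An element of the stabiliser fixes `j`. -/
theorem la_fix [IsGalois K L] (D : PrD Q i j σ η) {s : L ≃ₐ[K] L} (hs : s ∈ StQ Q i) : (Q.da s).sp j = j := by
  have h2 : (Q.da s).sp j ∈ orb Q i := c2_orb_sp Q i s (by rw [D.orb]; simp)
  rw [D.orb, Finset.mem_insert, Finset.mem_singleton] at h2
  refine h2.resolve_left fun h => D.ne ?_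
  have h4 := sp_cancel Q s j
  rw [h] at h4
  have h5 := sp_cancel Q s i
  rw [mem_StQ.1 hs] at h5
  rw [← h4, h5]

/-- `al i (Hw w y)` depends only on the place of the field of the orbit. -/
theorem la_inv [IsGalois K L] (Q : QS b K L) (i : b.support) (y : HRt (HQ Q)) {w w' : InfinitePlace L} (h : w.comap (algebraMap (FO Q i) L) = w'.comap (algebraMap (FO Q i) L)) :
    al (cA b) i (Hw w y) = al (cA b) i (Hw w' y) := by
  obtain ⟨t, rfl⟩ := an0_trans (K := FO Q i) h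
  have h2 : ∀ k, Hw (cpl t w) y k = Hw w y ((Q.da (t.restrictScalars K)).sp k) := fun k => (Hw_s Q (t.restrictScalars K) w y k).symm
  have hi := fo_stab Q i t
  unfold al
  rw [← Equiv.sum_comp (Q.da (t.restrictScalars K)).sp fun k => (cA b i k : ℝ) * Hw w y k]
  refine Finset.sum_congr rfl fun k _ => ?_
  rw [h2]
  have h3 : cA b i ((Q.da (t.restrictScalars K)).sp k) = cA b i k := by
    have h5 : cA b ((Q.da (t.restrictScalars K)).sp i) ((Q.da (t.restrictScalars K)).sp k) = cA b i k := eq2_cartan (Q.da (t.restrictScalars K)) i k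
    rwa [hi] at h5
  rw [h3]

theorem la_fld [IsGalois K L] (D : PrD Q i j σ η) {s : L ≃ₐ[K] L} (hs : s ∉ StQ Q i) (x : FO Q i) : s (x : L) = (σ x : L) := by
  have h1 := D.act s hs (mixedEmbedding (FO Q i) x)
  unfold jE at h1
  rw [sE_emb, iE_emb, iE_emb, sE_emb] at h1
  exact mixedEmbedding_injective L h1

theorem la_al [IsGalois K L] (D : PrD Q i j σ η) (y : HRt (HQ Q)) {c : InfinitePlace (FO Q i) → InfinitePlace L} (hc : ∀ v, (c v).comap (algebraMap (FO Q i) L) = v) (v : InfinitePlace (FO Q i)) :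
    al (cA b) j (Hw (c v) y) = al (cA b) i (Hw (c (cpl σ v)) y) := by
  obtain ⟨s, hs, hs'⟩ := la_sp D
  have h1 : al (cA b) j (Hw (c v) y) = al (cA b) i (Hw ((c v).comap (s : L →+* L)) y) := by
    unfold al
    rw [← hs, ← Equiv.sum_comp (Q.da s).sp fun k => (cA b ((Q.da s).sp i) k : ℝ) * Hw (c v) y k]
    refine Finset.sum_congr rfl fun k _ => ?_
    rw [Hw_s]
    have h5 : cA b ((Q.da s).sp i) ((Q.da s).sp k) = cA b i k := eq2_cartan (Q.da s) i k
    rw [h5]
  rw [h1]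
  refine la_inv Q i y ?_
  rw [hc, ← InfinitePlace.comap_comp]
  have h2 : (s : L →+* L).comp (algebraMap (FO Q i) L) = (algebraMap (FO Q i) L).comp (σ : FO Q i →+* FO Q i) := RingHom.ext fun x => la_fld D hs' x
  rw [h2, InfinitePlace.comap_comp, hc]
  rfl

/-- **The letter of an adjacent pair.** -/
theorem letQ_adj [IsGalois K L] (D : PrD Q i j σ η) {κ : ℝ} (hκ : 1 < κ) {e : b.support → ℝ} (he : InvE Q e) (hP : PosW b κ e (ow Q i)) (hR : R6S K (FO Q i) σ η (xe b e i)) : LetQ Q i e := by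
  intro m hm ν hν
  obtain ⟨x, hxc, hx, hxL⟩ := pp_ex D
  have hRH := pp_RH D hxc hx hxL
  obtain ⟨c0, hc0⟩ := lo_places Q i
  obtain ⟨C, hC, hint⟩ := hR
  obtain ⟨k, hk0, hk1, hk⟩ := rh_uniq (LoH_closed (orb Q i)ᶜ) hν hRH
  refine ⟨(k.toReal + 1) * C, by positivity, fun y => ?_⟩
  obtain ⟨ho, hw⟩ := la_height D hm hx y
  choose cc dd hcc using hw
  choose ε hε using fun v : InfinitePlace (FO Q i) => evw_iE (algebraMap (FO Q i) L) (c0 v)
  have hε' : ∀ (v : InfinitePlace (FO Q i)) (r : EE (FO Q i)), evw (c0 v) (jE Q i r) = cjb (ε v) (evw v r) := by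
    intro v r
    have h4 := hε v r
    rw [hc0 v] at h4
    exact h4
  have hFy : 0 < Fe e y := Fe_pos e y
  have hdf : 0 ≤ df K L := by
    unfold df
    positivity
  -- the other coordinate
  obtain ⟨s₀, hs₀, hs₀'⟩ := la_sp D
  have hHj : ∀ z : HRt (HQ Q), Ht z i = Ht z j := fun z => by
    rw [← hs₀]
    exact (Ht_sp s₀ z i).symm
  set A : InfinitePlace (FO Q i) → ℝ := fun v => al (cA b) i (Hw (c0 v) y) with hA
  -- the place `σ v`
  have hAσ : ∀ v, al (cA b) j (Hw (c0 v) y) = A (cpl σ v) := fun v => la_al D y hc0 v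
  set c : InfinitePlace (FO Q i) → ℂ := fun v => cjb (ε v) (cc (c0 v)) with hc
  set g : EE (FO Q i) → InfinitePlace (FO Q i) → ℂ := fun a v => evw v (-((1 / 2 : ℝ) • (a * sE σ a))) + cjb (ε v) (dd (c0 v) (evw (c0 v) (jE Q i a))) with hg
  obtain ⟨X, hX⟩ : ∃ X : EE (FO Q i) × EE K → InfinitePlace (FO Q i) → ℝ, X = fun p v => 1 + ‖(Real.exp (-(A v)) : ℝ) • (evw v p.1 + c v)‖ ^ 2 +
      ‖(Real.exp (-(A v + A (cpl σ v))) : ℝ) • (evw v (mixedEmbedding (FO Q i) η * iE (algebraMap K (FO Q i)) p.2) + g p.1 v)‖ ^ 2 := ⟨_, rfl⟩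
  have hXp : ∀ p v, 0 < X p v := fun p v => by
    rw [hX]
    positivity
  -- the difference at the place `c0 v`
  have h1 : ∀ p v, Hw (c0 v) (m * x p * y) j - Hw (c0 v) y j = -(A v + A (cpl σ v)) - 1 / 2 * Real.log (X p v) := by
    intro p v
    rw [hcc (c0 v) p, hAσ, hX]
    have e1 : ‖(Real.exp (-(A v)) : ℝ) • (evw (c0 v) (jE Q i p.1) + cc (c0 v))‖ = ‖(Real.exp (-(A v)) : ℝ) • (evw v p.1 + c v)‖ := by
      rw [norm_smul, norm_smul]
      congr 1
      rw [hε', hc]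
      have h5 : cjb (ε v) (evw v p.1) + cc (c0 v) = cjb (ε v) (evw v p.1 + cjb (ε v) (cc (c0 v))) := by
        rw [map_add, cjb_cjb]
      rw [h5, cjb_norm]
    have e2 : ‖(Real.exp (-(A v + A (cpl σ v))) : ℝ) • (evw (c0 v) (jE Q i (hz σ η p)) + dd (c0 v) (evw (c0 v) (jE Q i p.1)))‖ =
        ‖(Real.exp (-(A v + A (cpl σ v))) : ℝ) • (evw v (mixedEmbedding (FO Q i) η * iE (algebraMap K (FO Q i)) p.2) + g p.1 v)‖ := by
      rw [norm_smul, norm_smul]
      congr 1
      have h5 : evw (c0 v) (jE Q i (hz σ η p)) + dd (c0 v) (evw (c0 v) (jE Q i p.1)) =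
          cjb (ε v) (evw v (mixedEmbedding (FO Q i) η * iE (algebraMap K (FO Q i)) p.2) + g p.1 v) := by
        rw [hg, map_add, map_add, cjb_cjb, hε', ← add_assoc, ← map_add, ← map_add]
        congr 3
        unfold hz
        ring
      rw [h5, cjb_norm]
    rw [e1, e2]
  have hcard : ((orb Q i).card : ℝ) = 2 := by
    rw [D.orb, Finset.card_pair D.ne]
    norm_num
  have h7 := lo_one Q i
  rw [hcard] at h7
  have hperm : ∑ v : InfinitePlace (FO Q i), (v.mult : ℝ) * A (cpl σ v) = ∑ v : InfinitePlace (FO Q i), (v.mult : ℝ) * A v := by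
    rw [← Equiv.sum_comp (cplE σ) fun v => (v.mult : ℝ) * A v]
    refine Finset.sum_congr rfl fun v _ => ?_
    show (v.mult : ℝ) * A (cpl σ v) = ((cpl σ v).mult : ℝ) * A (cpl σ v)
    rw [eq2_mult]
  -- the total height
  have hT : ∀ p, Ht (m * x p * y) i - Ht y i = (Module.finrank (FO Q i) L : ℝ) * (-(2 * ∑ v, (v.mult : ℝ) * A v) - ∑ v, (v.mult : ℝ) * (1 / 2 * Real.log (X p v))) := by
    intro p
    rw [hHj, hHj]
    have h2 : Ht (m * x p * y) j - Ht y j = ∑ w : InfinitePlace L, (w.mult : ℝ) * (Hw w (m * x p * y) j - Hw w y j) := by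
      unfold Ht
      rw [← Finset.sum_sub_distrib]
      exact Finset.sum_congr rfl fun w _ => by ring
    rw [h2, fo_sum Q i (fun w => Hw w (m * x p * y) j - Hw w y j) (fun s hs w => by
      have h3 := Hw_s Q s w (m * x p * y) j
      have h4 := Hw_s Q s w y j
      rw [la_fix D hs] at h3 h4
      rw [← h3, ← h4]) c0 hc0]
    congr 1
    rw [Finset.sum_congr rfl fun v _ => by rw [h1 p v]]
    have h5 : ∑ v : InfinitePlace (FO Q i), (v.mult : ℝ) * (-(A v + A (cpl σ v)) - 1 / 2 * Real.log (X p v)) =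
        -(∑ v : InfinitePlace (FO Q i), (v.mult : ℝ) * A v + ∑ v : InfinitePlace (FO Q i), (v.mult : ℝ) * A (cpl σ v)) - ∑ v : InfinitePlace (FO Q i), (v.mult : ℝ) * (1 / 2 * Real.log (X p v)) := by
      rw [← Finset.sum_add_distrib, ← Finset.sum_neg_distrib, ← Finset.sum_sub_distrib]
      exact Finset.sum_congr rfl fun v _ => by ring
    rw [h5, hperm]
    ring
  -- the pointwise formula
  have hpt : ∀ p, Fe e (m * x p * y) ^ df K L = Fe e y ^ df K L * Real.exp (-(xe b e i * (2 * ∑ v, (v.mult : ℝ) * A v))) *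
      ∏ v : InfinitePlace (FO Q i), X p v ^ (-((v.mult : ℝ) * xe b e i / 2)) := by
    intro p
    rw [le_Fe he (ho p), Real.mul_rpow hFy.le (Real.exp_pos _).le, mul_assoc (Fe e y ^ df K L)]
    refine congrArg (fun a => Fe e y ^ df K L * a) ?_
    have h6 : ∏ v : InfinitePlace (FO Q i), X p v ^ (-((v.mult : ℝ) * xe b e i / 2)) =
        Real.exp (-(xe b e i * ∑ v : InfinitePlace (FO Q i), (v.mult : ℝ) * (1 / 2 * Real.log (X p v)))) := by
      rw [Finset.mul_sum, ← Finset.sum_neg_distrib, Real.exp_sum]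
      refine Finset.prod_congr rfl fun v _ => ?_
      rw [Real.rpow_def_of_pos (hXp p v)]
      congr 1
      ring
    rw [← Real.exp_mul, hT, h6, ← Real.exp_add, hcard]
    congr 1
    linear_combination (xe b e i * (-(2 * ∑ v, (v.mult : ℝ) * A v) - ∑ v, (v.mult : ℝ) * (1 / 2 * Real.log (X p v)))) * h7
  have hmeas : Measurable fun u : HRt (HQ Q) => ENNReal.ofReal (Fe e (m * u * y) ^ df K L) := by
    refine ENNReal.measurable_ofReal.comp ?_
    exact (((Fe_comp e (c5e_c1 m y)).measurable).pow_const _)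
  have hE : Fe (eW b e (ow Q i)) y ^ df K L = Fe e y ^ df K L * Real.exp (-((xe b e i - 1) * (2 * ∑ v, (v.mult : ℝ) * A v))) := by
    rw [le_adj he D.orb D.ow D.adj, Real.mul_rpow hFy.le (Real.exp_pos _).le, ← Real.exp_mul, lo_al Q i y hc0]
    congr 2
    linear_combination (-(2 * (xe b e i - 1) * ∑ v, (v.mult : ℝ) * A v)) * h7
  rw [hk, lintegral_smul_measure, lintegral_map hmeas hxc.measurable, smul_eq_mul, lintegral_prod (fun p : EE (FO Q i) × EE K => ENNReal.ofReal (Fe e (m * x p * y) ^ df K L)) ((hmeas.comp hxc.measurable).aemeasurable)]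
  have hD : 0 ≤ Fe e y ^ df K L * Real.exp (-(xe b e i * (2 * ∑ v, (v.mult : ℝ) * A v))) := by positivity
  have hintX : ∫⁻ a : EE (FO Q i), ∫⁻ q : EE K, ENNReal.ofReal (∏ v : InfinitePlace (FO Q i), X (a, q) v ^ (-((v.mult : ℝ) * xe b e i / 2))) ≤ ENNReal.ofReal (C * Real.exp (2 * ∑ v, (v.mult : ℝ) * A v)) := by
    rw [hX]
    exact hint A c g
  calc k * ∫⁻ a : EE (FO Q i), ∫⁻ q : EE K, ENNReal.ofReal (Fe e (m * x (a, q) * y) ^ df K L)
      = k * (ENNReal.ofReal (Fe e y ^ df K L * Real.exp (-(xe b e i * (2 * ∑ v, (v.mult : ℝ) * A v)))) *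
          ∫⁻ a : EE (FO Q i), ∫⁻ q : EE K, ENNReal.ofReal (∏ v : InfinitePlace (FO Q i), X (a, q) v ^ (-((v.mult : ℝ) * xe b e i / 2)))) := by
        rw [← lintegral_const_mul' _ _ ENNReal.ofReal_ne_top]
        congr 1
        refine lintegral_congr fun a => ?_
        rw [← lintegral_const_mul' _ _ ENNReal.ofReal_ne_top]
        refine lintegral_congr fun q => ?_
        rw [hpt (a, q), ENNReal.ofReal_mul hD]
    _ ≤ k * (ENNReal.ofReal (Fe e y ^ df K L * Real.exp (-(xe b e i * (2 * ∑ v, (v.mult : ℝ) * A v)))) * ENNReal.ofReal (C * Real.exp (2 * ∑ v, (v.mult : ℝ) * A v))) :=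
        mul_le_mul' le_rfl (mul_le_mul' le_rfl hintX)
    _ ≤ ENNReal.ofReal (k.toReal + 1) * ENNReal.ofReal (C * Fe (eW b e (ow Q i)) y ^ df K L) := by
        refine mul_le_mul' ?_ (le_of_eq ?_)
        · conv_lhs => rw [← ENNReal.ofReal_toReal hk1]
          exact ENNReal.ofReal_le_ofReal (by linarith)
        · rw [← ENNReal.ofReal_mul hD, hE]
          congr 1
          have h9 : Real.exp (-((xe b e i - 1) * (2 * ∑ v, (v.mult : ℝ) * A v))) = Real.exp (-(xe b e i * (2 * ∑ v, (v.mult : ℝ) * A v))) * Real.exp (2 * ∑ v, (v.mult : ℝ) * A v) := by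
            rw [← Real.exp_add]
            congr 1
            ring
          rw [h9]
          ring
    _ = ENNReal.ofReal ((k.toReal + 1) * C * Fe (eW b e (ow Q i)) y ^ df K L) := by
        rw [← ENNReal.ofReal_mul (by positivity)]
        congr 1
        ring

end

end Pool.Agent.Lib.L8.QF
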