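import Pool.Agent.Lib.L8.QF.PW
import Pool.Agent.Lib.L8.QF.B1

/-!
# QF, module C5Q, LP (design helper33): coordinates of the letter groups, local group
-/

namespace Pool.Agent.Lib.L8.QF

open MeasureTheory Matrix NumberField NumberField.InfinitePlace IsDedekindDomain Pool.Agent.Lib.H89N Pool.Agent.Lib.H33W Pool.Agent.Lib.H67G Pool.Agent.Lib.L1S Pool.Agent.Lib.L8 Pool.Agent.Lib.L8.FL
open scoped ENNReal Pointwise

noncomputable section

set_option linter.unusedSectionVars false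
set_option linter.unusedVariables false

section abs

variable {J F G : Type} [Fintype J] [DecidableEq J] [RCLike F] [Group G] [TopologicalSpace G] [IsTopologicalGroup G] [SecondCountableTopology G] [LocallyCompactSpace G] [T2Space G] [MeasurableSpace G] [BorelSpace G] (I : Iw J F G)

theorem lp_step {l : List J} {i : J} (h : I.Pos l i) {u : G} (hu : u ∈ I.Uw (l ++ [i])) :
    ∃ w ∈ I.Uw l, u = (I.n i)⁻¹ * w * I.n i * I.x i (I.c i u) := by
  have h1 : u * (I.x i (I.c i u))⁻¹ ∈ I.Uc i := brf_dec I i hu.1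
  have h2 : I.x i (I.c i u) ∈ I.Uw (l ++ [i]) := brh_Ui_le I h ⟨I.c i u, rfl⟩
  have h3 : u * (I.x i (I.c i u))⁻¹ ∈ I.Uw (l ++ [i]) := mul_mem hu (inv_mem h2)
  have h4 := (brh_V1 I h _).1 ⟨h3, h1⟩
  refine ⟨_, h4, ?_⟩
  group

theorem lp_nil {u : G} (hu : u ∈ I.Uw []) : u = 1 := by
  have e : I.nl [] * u * (I.nl [])⁻¹ = u := by
    show 1 * u * (1 : G)⁻¹ = u
    group
  have h2 := hu.2
  have h3 : I.nl [] * u * (I.nl [])⁻¹ ∈ I.V := h2
  rw [e] at h3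
  exact brf_UV I hu.1 h3

end abs

variable {ι M N : Type} [Fintype ι] [DecidableEq ι] [AddCommGroup M] [Module ℚ M] [AddCommGroup N] [Module ℚ N]
  {P : RootPairing ι ℚ M N} [P.IsCrystallographic] [P.IsReduced] [P.IsIrreducible] [P.IsRootSystem] {b : P.Base}

/-- PROOF: `gc_gx` for `i = j`; for `i ≠ j` the entry `(Sum.inl i, Sum.inr (ng P i))` of `ex (eZ b j) t` has weight difference `α_i`, not a multiple of `α_j` (`xx_wt`), and it is off-diagonal; or `hcp`/`E_simple_entry` (`L118`). -/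
theorem lp_gc (i j : b.support) (t : ℂ) : gc b ℂ i (gx b ℂ (j : ι) t) = if i = j then t else 0 := by
  have hi : 0 < b.height (j : ι) := by
    rw [b.height_one_of_mem_support j.2]
    exact one_pos
  have h1 := c_xx b (j : ι) hi t i
  refine Eq.trans h1 ?_
  by_cases h : i = j
  · subst h
    rw [if_pos rfl, if_pos rfl]
  · rw [if_neg h, if_neg]
    intro h'
    exact h (Subtype.ext h'.symm)

theorem lp_gxU (j : b.support) (t : ℂ) : gx b ℂ (j : ι) t ∈ gU b ℂ := (iwG b ℂ).x_U j t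

theorem lp_Tadd (i j : b.support) (s t : ℂ) : gxT b i j (s + t) = gxT b i j s * gxT b i j t := Subtype.ext (xT_add i j s t)

theorem lp_comm {i j : b.support} (h : Adj b i j) (a c : ℂ) :
    gx b ℂ (i : ι) a * gx b ℂ (j : ι) c = gx b ℂ (j : ι) c * gxT b i j (-(a * c)) * gx b ℂ (i : ι) a := Subtype.ext (a2_comm h a c)

theorem lp_ci {i j : b.support} (h : Adj b i j) (t a : ℂ) : gxT b i j t * gx b ℂ (i : ι) a = gx b ℂ (i : ι) a * gxT b i j t := Subtype.ext (a2_ci h t a)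

theorem lp_cj {i j : b.support} (h : Adj b i j) (t a : ℂ) : gxT b i j t * gx b ℂ (j : ι) a = gx b ℂ (j : ι) a * gxT b i j t := Subtype.ext (a2_cj h t a)

theorem lp_rot {i j : b.support} (h : Adj b i j) (t : ℂ) : gn b ℂ j * gn b ℂ i * gx b ℂ (j : ι) t = gx b ℂ (i : ι) t * (gn b ℂ j * gn b ℂ i) :=
  Subtype.ext (a2_rot h t)

/-- PROOF: weights of height 2 (the image of `x_j(z)` under `s_i`, the root `α_i + α_j`): the element is in `gU` (`gn_U` since `gc i (gx j z) = 0`: `(gn i)⁻¹ u gn i ∈ gU` by `brf_nc'`) and `gc k` vanishes: `gc i` by `brf_nc'`, the others by weights (`α_k` is not a multiple of `α_i + α_j`), or `gc k` is a homomorphism on `gU` and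
`gxT (-(a c))` is a commutator (`a2_comm`). -/
theorem lp_gcT {i j : b.support} (h : Adj b i j) (k : b.support) (z : ℂ) : gxT b i j z ∈ gU b ℂ ∧ gc b ℂ k (gxT b i j z) = 0 := by
  have hU : ∀ z : ℂ, gxT b i j z ∈ gU b ℂ := fun z => by
    have h1 : gx b ℂ (j : ι) z ∈ (iwG b ℂ).Uc i := ⟨lp_gxU j z, by
      show gc b ℂ i (gx b ℂ (j : ι) z) = 0
      rw [lp_gc, if_neg h.ne]⟩
    exact (brf_nc' (iwG b ℂ) i h1).1
  refine ⟨hU z, ?_⟩
  have h2 := congrArg (gc b ℂ k) (lp_comm h (-z) 1)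
  rw [gc_mul k (lp_gxU i _) (lp_gxU j _), gc_mul k (mul_mem (lp_gxU j _) (hU _)) (lp_gxU i _), gc_mul k (lp_gxU j _) (hU _)] at h2
  have e : -(-z * 1) = z := by ring
  rw [e] at h2
  linear_combination -h2

theorem lp_prodU (l : List b.support) (t : b.support → ℂ) : (l.map fun j : b.support => gx b ℂ (j : ι) (t j)).prod ∈ gU b ℂ := by
  refine Subgroup.list_prod_mem _ fun x hx => ?_
  obtain ⟨j, -, rfl⟩ := List.mem_map.1 hx
  exact lp_gxU j _

theorem lp_prod_gc (l : List b.support) (hl : l.Nodup) (t : b.support → ℂ) (k : b.support) :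
    gc b ℂ k (l.map fun j : b.support => gx b ℂ (j : ι) (t j)).prod = if k ∈ l then t k else 0 := by
  induction l with
  | nil =>
    rw [List.map_nil, List.prod_nil, if_neg List.not_mem_nil]
    exact brf_c1 (iwG b ℂ) k
  | cons j l ih =>
    rw [List.nodup_cons] at hl
    rw [List.map_cons, List.prod_cons, gc_mul k (lp_gxU j _) (lp_prodU l t), ih hl.2, lp_gc]
    by_cases h1 : k = j
    · subst h1
      rw [if_pos rfl, if_neg hl.1, if_pos List.mem_cons_self, add_zero]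
    · rw [if_neg h1, zero_add]
      by_cases h2 : k ∈ l
      · rw [if_pos h2, if_pos (List.mem_cons_of_mem _ h2)]
      · rw [if_neg h2, if_neg]
        intro h3
        rcases List.mem_cons.1 h3 with h4 | h4
        · exact h1 h4
        · exact h2 h4

theorem lp_orl {j : b.support} {l : List b.support} (hl : OrL b (j :: l)) :
    OrL b l ∧ ∀ k ∈ l, k ≠ j ∧ b.cartanMatrix j k = 0 ∧ b.cartanMatrix k j = 0 := by
  obtain ⟨h1, h2⟩ := hl
  rw [List.nodup_cons] at h1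
  refine ⟨⟨h1.2, fun i hi k hk => h2 i (List.mem_cons_of_mem _ hi) k (List.mem_cons_of_mem _ hk)⟩, fun k hk => ?_⟩
  have h5 : k ≠ j := fun h => h1.1 (h ▸ hk)
  exact ⟨h5, h2 j List.mem_cons_self k (List.mem_cons_of_mem _ hk) h5.symm, h2 k (List.mem_cons_of_mem _ hk) j List.mem_cons_self h5⟩

theorem lp_nlx {j : b.support} {l : List b.support} (h : ∀ k ∈ l, k ≠ j ∧ b.cartanMatrix j k = 0 ∧ b.cartanMatrix k j = 0) (t : ℂ) :
    Commute (gnl b ℂ l.reverse) (gx b ℂ (j : ι) t) := by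
  unfold gnl
  refine Commute.list_prod_left _ _ fun x hx => ?_
  obtain ⟨k, hk, rfl⟩ := List.mem_map.1 hx
  obtain ⟨h1, h2, h3⟩ := h k (List.mem_reverse.1 hk)
  exact pw_nx h3 h1 t

theorem lp_nln {j : b.support} {l : List b.support} (h : ∀ k ∈ l, k ≠ j ∧ b.cartanMatrix j k = 0 ∧ b.cartanMatrix k j = 0) :
    Commute (gnl b ℂ l.reverse) (gn b ℂ j) := by
  unfold gnl
  refine Commute.list_prod_left _ _ fun x hx => ?_
  obtain ⟨k, hk, rfl⟩ := List.mem_map.1 hx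
  obtain ⟨h1, h2, h3⟩ := h k (List.mem_reverse.1 hk)
  exact pw_nn h3 h1

theorem lp_nprod {j : b.support} {l : List b.support} (h : ∀ k ∈ l, k ≠ j ∧ b.cartanMatrix j k = 0 ∧ b.cartanMatrix k j = 0) (t : b.support → ℂ) :
    Commute (gn b ℂ j) (l.map fun j : b.support => gx b ℂ (j : ι) (t j)).prod := by
  refine Commute.list_prod_right _ _ fun x hx => ?_
  obtain ⟨k, hk, rfl⟩ := List.mem_map.1 hx
  obtain ⟨h1, h2, h3⟩ := h k hk
  exact pw_nx h2 h1.symm _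

theorem lp_xprod {j : b.support} {l : List b.support} (h : ∀ k ∈ l, k ≠ j ∧ b.cartanMatrix j k = 0 ∧ b.cartanMatrix k j = 0) (s : ℂ) (t : b.support → ℂ) :
    Commute (gx b ℂ (j : ι) s) (l.map fun j : b.support => gx b ℂ (j : ι) (t j)).prod := by
  refine Commute.list_prod_right _ _ fun x hx => ?_
  obtain ⟨k, hk, rfl⟩ := List.mem_map.1 hx
  obtain ⟨h1, h2, h3⟩ := h k hk
  exact pw_xx h2 _ _

theorem lp_orth_gc {l : List b.support} (hl : OrL b l) (t : b.support → ℂ) {k : b.support} (hk : k ∈ l) : gc b ℂ k (l.map fun j : b.support => gx b ℂ (j : ι) (t j)).prod = t k := by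
  rw [lp_prod_gc l hl.1 t k, if_pos hk]

theorem lp_orth_V {l : List b.support} (hl : OrL b l) (t : b.support → ℂ) :
    gnl b ℂ l.reverse * (l.map fun j : b.support => gx b ℂ (j : ι) (t j)).prod * (gnl b ℂ l.reverse)⁻¹ ∈ gV b ℂ := by
  induction l with
  | nil =>
    rw [List.reverse_nil, List.map_nil, List.prod_nil, gnl_nil]
    have e : (1 : GF b ℂ) * 1 * (1 : GF b ℂ)⁻¹ = 1 := by group
    rw [e]
    exact one_mem _
  | cons j l ih =>
    obtain ⟨h1, h2⟩ := lp_orl hl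
    have h3 := ih h1
    have c1 := (lp_nprod h2 t).eq
    have c2 := (lp_xprod h2 (t j) t).eq
    have c3 := (lp_nlx h2 (t j)).eq
    have c4 := (lp_nln h2).eq
    have e1 : gnl b ℂ (j :: l).reverse = gnl b ℂ l.reverse * gn b ℂ j := by
      rw [List.reverse_cons, gnl_append, gnl_cons, gnl_nil, mul_one]
    rw [e1, List.map_cons, List.prod_cons]
    generalize (l.map fun j : b.support => gx b ℂ (j : ι) (t j)).prod = X at *
    generalize gnl b ℂ l.reverse = W at *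
    generalize hx : gx b ℂ (j : ι) (t j) = x at *
    generalize hn : gn b ℂ j = n at *
    have e2 : W * n * (x * X) * (W * n)⁻¹ = (W * X * W⁻¹) * (n * x * n⁻¹) := by
      have k1 : W * (n * x * n⁻¹) * W⁻¹ = n * x * n⁻¹ := by
        have k2 : Commute W (n * x * n⁻¹) := (Commute.mul_right (Commute.mul_right c4 c3) (Commute.inv_right c4))
        rw [k2.eq]
        group
      have k3 : Commute n X := c1
      have k4 : Commute x X := c2
      have k5 : Commute (n * x) X := Commute.mul_left k3 k4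
      calc W * n * (x * X) * (W * n)⁻¹ = W * ((n * x) * X) * n⁻¹ * W⁻¹ := by group
        _ = W * (X * (n * x)) * n⁻¹ * W⁻¹ := by rw [k5.eq]
        _ = (W * X * W⁻¹) * (W * (n * x * n⁻¹) * W⁻¹) := by group
        _ = _ := by rw [k1]
    rw [e2]
    refine mul_mem h3 ?_
    rw [← hx, ← hn]
    exact (iwG b ℂ).n_x j (t j)

/-- PROOF: conjugation by `gnl l.reverse`: each factor goes to `gn j * gx j (t j) * (gn j)⁻¹` (the others commute: `a1_nx`, `a1_nn`), which is in `gV` (`(iwG b ℂ).n_x`). -/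
theorem lp_orth_mem {l : List b.support} (hl : OrL b l) (t : b.support → ℂ) : (l.map fun j : b.support => gx b ℂ (j : ι) (t j)).prod ∈ (iwG b ℂ).Uw l.reverse :=
  ⟨lp_prodU l t, lp_orth_V hl t⟩

/-- **The coordinates of an orthogonal letter group.** PROOF: induction on `l` (with `OrL` and `(iwG b ℂ).Red`, which follows from orthogonality: `Pos l' j` for `j ∉ l'`: `gnl l' * gx j t * (gnl l')⁻¹ = gx j t`). `l = j :: l'`, `l.reverse = l'.reverse ++ [j]`: `u ∈ Uw`, `c = gc j u`, `u₁ = u * (gx j c)⁻¹ ∈ Uw ⊓ Uc j`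
(`brh_Ui_le`, `brf_dec`), `n_j u₁ n_j⁻¹ ∈ Uw l'.reverse` (`brh_V1`), by induction it is a product of `gx k (s k)`, `k ∈ l'`, which commute with `n_j`, so `u₁` is the same product and `u = gx j c * ∏`; then `s k = gc k u` (`lp_orth_gc`). -/
theorem lp_orth {l : List b.support} (hl : OrL b l) {u : GF b ℂ} (hu : u ∈ (iwG b ℂ).Uw l.reverse) : u = (l.map fun j : b.support => gx b ℂ (j : ι) (gc b ℂ j u)).prod := by
  induction l generalizing u with
  | nil =>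
    rw [List.map_nil, List.prod_nil]
    exact lp_nil (iwG b ℂ) hu
  | cons j l ih =>
    obtain ⟨h1, h2⟩ := lp_orl hl
    have hpos : (iwG b ℂ).Pos l.reverse j := by
      intro t
      show gnl b ℂ l.reverse * gx b ℂ (j : ι) t * (gnl b ℂ l.reverse)⁻¹ ∈ gU b ℂ
      rw [(lp_nlx h2 t).eq, mul_inv_cancel_right]
      exact lp_gxU j t
    rw [List.reverse_cons] at hu
    obtain ⟨w, hw, hu'⟩ := lp_step (iwG b ℂ) hpos hu
    have h3 := ih h1 hw
    have h4 : u = (gn b ℂ j)⁻¹ * w * gn b ℂ j * gx b ℂ (j : ι) (gc b ℂ j u) := hu'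
    have h5 : (gn b ℂ j)⁻¹ * w * gn b ℂ j = w := by
      have h6 : Commute (gn b ℂ j) w := by
        rw [h3]
        exact lp_nprod h2 _
      rw [mul_assoc, ← h6.eq, ← mul_assoc, inv_mul_cancel, one_mul]
    rw [h5] at h4
    have hwU : w ∈ gU b ℂ := hw.1
    have h7 : ∀ k ∈ l, gc b ℂ k w = gc b ℂ k u := by
      intro k hk
      rw [h4, gc_mul k hwU (lp_gxU j _), lp_gc, if_neg (h2 k hk).1, add_zero]
    have h8 : (l.map fun k : b.support => gx b ℂ (k : ι) (gc b ℂ k w)) = l.map fun k : b.support => gx b ℂ (k : ι) (gc b ℂ k u) :=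
      List.map_congr_left fun k hk => by rw [h7 k hk]
    rw [h8] at h3
    rw [List.map_cons, List.prod_cons, (lp_xprod h2 (gc b ℂ j u) fun k => gc b ℂ k u).eq, ← h3]
    exact h4

theorem lp_pos1 {i j : b.support} (h : Adj b i j) : (iwG b ℂ).Pos [i] j := by
  intro t
  have e : (iwG b ℂ).nl [i] = gn b ℂ i := by
    show (List.map (gn b ℂ) [i]).prod = gn b ℂ i
    rw [List.map_cons, List.map_nil, List.prod_cons, List.prod_nil, mul_one]
  rw [e]
  refine (gn_U i (lp_gxU j t) ?_).1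
  rw [lp_gc, if_neg h.ne]

theorem lp_pos2 {i j : b.support} (h : Adj b i j) : (iwG b ℂ).Pos [i, j] i := by
  intro t
  have e : (iwG b ℂ).nl [i, j] = gn b ℂ i * gn b ℂ j := by
    show (List.map (gn b ℂ) [i, j]).prod = gn b ℂ i * gn b ℂ j
    rw [List.map_cons, List.map_cons, List.map_nil, List.prod_cons, List.prod_cons, List.prod_nil, mul_one]
  rw [e]
  have h1 : gn b ℂ i * gn b ℂ j * gx b ℂ (i : ι) t * (gn b ℂ i * gn b ℂ j)⁻¹ = gx b ℂ (j : ι) t := by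
    rw [lp_rot h.symm t, mul_inv_cancel_right]
  show gn b ℂ i * gn b ℂ j * gx b ℂ (i : ι) t * (gn b ℂ i * gn b ℂ j)⁻¹ ∈ gU b ℂ
  rw [h1]
  exact lp_gxU j t

theorem lp_pos0 (i : b.support) : (iwG b ℂ).Pos [] i := by
  intro t
  have e : (iwG b ℂ).nl [] * gx b ℂ (i : ι) t * ((iwG b ℂ).nl [])⁻¹ = gx b ℂ (i : ι) t := by
    show (1 : GF b ℂ) * gx b ℂ (i : ι) t * (1 : GF b ℂ)⁻¹ = gx b ℂ (i : ι) t
    group
  show (iwG b ℂ).nl [] * gx b ℂ (i : ι) t * ((iwG b ℂ).nl [])⁻¹ ∈ gU b ℂ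
  rw [e]
  exact lp_gxU i t

/-- PROOF: `gnl [i, j, i]` conjugates `gx j c` to `V` (`a2_rot`: it is `n_i x_i(c) n_i⁻¹`), `gx i a` to `n_j x_j(±a) n_j⁻¹` (braid), `gxT z = n_i⁻¹ x_j(z) n_i` to `n_i n_j x_j(z) n_j⁻¹ n_i⁻¹ ∈ V` (`pos_neg` or braid). -/
theorem lp_adj_mem {i j : b.support} (h : Adj b i j) (c z a : ℂ) : gx b ℂ (j : ι) c * gxT b i j z * gx b ℂ (i : ι) a ∈ (iwG b ℂ).Uw [i, j, i] := by
  refine ⟨mul_mem (mul_mem (lp_gxU j _) (lp_gcT h i z).1) (lp_gxU i _), ?_⟩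
  show gnl b ℂ [i, j, i] * (gx b ℂ (j : ι) c * gxT b i j z * gx b ℂ (i : ι) a) * (gnl b ℂ [i, j, i])⁻¹ ∈ gV b ℂ
  have e2 : gnl b ℂ [i, j, i] = gn b ℂ i * (gn b ℂ j * gn b ℂ i) := by
    rw [gnl_cons, gnl_cons, gnl_cons, gnl_nil, mul_one]
  have v1 : gn b ℂ i * gx b ℂ (i : ι) c * (gn b ℂ i)⁻¹ ∈ gV b ℂ := (iwG b ℂ).n_x i c
  have v2 : gnl b ℂ [i] * (gn b ℂ j * gx b ℂ (j : ι) z * (gn b ℂ j)⁻¹) * (gnl b ℂ [i])⁻¹ ∈ gV b ℂ := (iwG b ℂ).pos_neg [i] j (lp_pos1 h) z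
  have v3 : gnl b ℂ [i, j] * (gn b ℂ i * gx b ℂ (i : ι) a * (gn b ℂ i)⁻¹) * (gnl b ℂ [i, j])⁻¹ ∈ gV b ℂ := (iwG b ℂ).pos_neg [i, j] i (lp_pos2 h) a
  have e1 : gnl b ℂ [i] = gn b ℂ i := by rw [gnl_cons, gnl_nil, mul_one]
  have e3 : gnl b ℂ [i, j] = gn b ℂ i * gn b ℂ j := by rw [gnl_cons, gnl_cons, gnl_nil, mul_one]
  rw [e1] at v2
  rw [e3] at v3
  have v4 := mul_mem (mul_mem v1 v2) v3
  rw [pw_move h, e2]
  refine (congrArg (· ∈ gV b ℂ) ?_).mp v4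
  group

/-- **The coordinates of the letter group of an adjacent pair.** PROOF: `[i, j, i] = [i, j] ++ [i]`; `Red [i, j, i]`: `Pos [] i`, `Pos [i] j` (`n_i x_j n_i⁻¹ ∈ gU`), `Pos [i, j] i` (`n_i n_j x_i(t) (n_i n_j)⁻¹ = x_j(t)`, `a2_rot`). `u = u₁ * gx i a`, `a = gc i u`, `n_i u₁ n_i⁻¹ ∈ Uw [i, j]`, `= u₂ * gx j z`, `n_j u₂ n_j⁻¹ ∈ Uw [i]`, `= gx i s`
(`Uw [i]`: `brh_V1` and `Uw [] = 1`); so `u = n_i⁻¹ (n_j⁻¹ gx i s n_j) (gx j z) n_i gx i a = gx j s * gxT z * gx i a` (`n_i⁻¹ n_j⁻¹ x_i(s) n_j n_i = x_j(s)` by `a2_rot`), and `s = gc j u` (`lp_gcT`, `lp_gc`, `gc_mul`). -/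
theorem lp_adj {i j : b.support} (h : Adj b i j) {u : GF b ℂ} (hu : u ∈ (iwG b ℂ).Uw [i, j, i]) : ∃ z : ℂ, u = gx b ℂ (j : ι) (gc b ℂ j u) * gxT b i j z * gx b ℂ (i : ι) (gc b ℂ i u) := by
  have hu1 : u ∈ (iwG b ℂ).Uw ([i, j] ++ [i]) := hu
  obtain ⟨w, hw, e1⟩ := lp_step (iwG b ℂ) (lp_pos2 h) hu1
  have hw1 : w ∈ (iwG b ℂ).Uw ([i] ++ [j]) := hw
  obtain ⟨v, hv, e2⟩ := lp_step (iwG b ℂ) (lp_pos1 h) hw1
  have hv1 : v ∈ (iwG b ℂ).Uw ([] ++ [i]) := hv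
  obtain ⟨y, hy, e3⟩ := lp_step (iwG b ℂ) (lp_pos0 i) hv1
  have hy1 := lp_nil (iwG b ℂ) hy
  have f1 : u = (gn b ℂ i)⁻¹ * w * gn b ℂ i * gx b ℂ (i : ι) (gc b ℂ i u) := e1
  have f2 : w = (gn b ℂ j)⁻¹ * v * gn b ℂ j * gx b ℂ (j : ι) (gc b ℂ j w) := e2
  have f3 : v = (gn b ℂ i)⁻¹ * y * gn b ℂ i * gx b ℂ (i : ι) (gc b ℂ i v) := e3
  have f4 : v = gx b ℂ (i : ι) (gc b ℂ i v) := by
    rw [hy1, mul_one, inv_mul_cancel, one_mul] at f3
    exact f3
  obtain ⟨s, hs⟩ : ∃ s, s = gc b ℂ i v := ⟨_, rfl⟩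
  obtain ⟨z, hz⟩ : ∃ z, z = gc b ℂ j w := ⟨_, rfl⟩
  obtain ⟨a, ha⟩ : ∃ a, a = gc b ℂ i u := ⟨_, rfl⟩
  rw [← hs] at f4
  rw [← hz, f4] at f2
  rw [← ha, f2] at f1
  have hrot : (gn b ℂ i)⁻¹ * ((gn b ℂ j)⁻¹ * gx b ℂ (i : ι) s * gn b ℂ j) * gn b ℂ i = gx b ℂ (j : ι) s := by
    have h1 := lp_rot h s
    calc (gn b ℂ i)⁻¹ * ((gn b ℂ j)⁻¹ * gx b ℂ (i : ι) s * gn b ℂ j) * gn b ℂ i = (gn b ℂ j * gn b ℂ i)⁻¹ * (gx b ℂ (i : ι) s * (gn b ℂ j * gn b ℂ i)) := by group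
      _ = (gn b ℂ j * gn b ℂ i)⁻¹ * (gn b ℂ j * gn b ℂ i * gx b ℂ (j : ι) s) := by rw [h1]
      _ = _ := by group
  have f5 : u = gx b ℂ (j : ι) s * gxT b i j z * gx b ℂ (i : ι) a := by
    calc u = (gn b ℂ i)⁻¹ * ((gn b ℂ j)⁻¹ * gx b ℂ (i : ι) s * gn b ℂ j * gx b ℂ (j : ι) z) * gn b ℂ i * gx b ℂ (i : ι) a := f1
      _ = ((gn b ℂ i)⁻¹ * ((gn b ℂ j)⁻¹ * gx b ℂ (i : ι) s * gn b ℂ j) * gn b ℂ i) * ((gn b ℂ i)⁻¹ * gx b ℂ (j : ι) z * gn b ℂ i) * gx b ℂ (i : ι) a := by group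
      _ = gx b ℂ (j : ι) s * ((gn b ℂ i)⁻¹ * gx b ℂ (j : ι) z * gn b ℂ i) * gx b ℂ (i : ι) a := by rw [hrot]
      _ = _ := rfl
  have f6 : gc b ℂ j u = s := by
    rw [f5, gc_mul j (mul_mem (lp_gxU j _) (lp_gcT h j z).1) (lp_gxU i _), gc_mul j (lp_gxU j _) (lp_gcT h j z).1, (lp_gcT h j z).2, lp_gc, lp_gc,
      if_pos rfl, if_neg h.ne.symm, add_zero, add_zero]
  refine ⟨z, ?_⟩
  rw [f6, ← ha]
  exact f5

/-- Uniqueness of the third coordinate. PROOF: cancel, conjugate by `gn i`, `gc j`. -/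
theorem lp_uniq {i j : b.support} (h : Adj b i j) {c z a c' z' a' : ℂ} (e : gx b ℂ (j : ι) c * gxT b i j z * gx b ℂ (i : ι) a = gx b ℂ (j : ι) c' * gxT b i j z' * gx b ℂ (i : ι) a') : c = c' ∧ z = z' ∧ a = a' := by
  have hg : ∀ (k : b.support) (c z a : ℂ), gc b ℂ k (gx b ℂ (j : ι) c * gxT b i j z * gx b ℂ (i : ι) a) = (if k = j then c else 0) + (if k = i then a else 0) := by
    intro k c z a
    rw [gc_mul k (mul_mem (lp_gxU j _) (lp_gcT h k z).1) (lp_gxU i _), gc_mul k (lp_gxU j _) (lp_gcT h k z).1, (lp_gcT h k z).2, lp_gc, lp_gc, add_zero]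
  have h1 : c = c' := by
    have h2 := congrArg (gc b ℂ j) e
    rw [hg, hg, if_pos rfl, if_pos rfl, if_neg h.ne.symm, if_neg h.ne.symm, add_zero, add_zero] at h2
    exact h2
  have h2 : a = a' := by
    have h2 := congrArg (gc b ℂ i) e
    rw [hg, hg, if_pos rfl, if_pos rfl, if_neg h.ne, if_neg h.ne, zero_add, zero_add] at h2
    exact h2
  subst h1
  subst h2
  refine ⟨rfl, ?_, rfl⟩
  have h3 := mul_left_cancel (mul_right_cancel e)
  have h4 : gx b ℂ (j : ι) z = gx b ℂ (j : ι) z' := mul_left_cancel (mul_right_cancel h3)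
  have h5 := congrArg (gc b ℂ j) h4
  rw [lp_gc, lp_gc, if_pos rfl, if_pos rfl] at h5
  exact h5

/-- **The group law.** PROOF: `a2_comm`, `a2_ci`, `a2_cj`. -/
theorem lp_mul {i j : b.support} (h : Adj b i j) (c z a c' z' a' : ℂ) :
    (gx b ℂ (j : ι) c * gxT b i j z * gx b ℂ (i : ι) a) * (gx b ℂ (j : ι) c' * gxT b i j z' * gx b ℂ (i : ι) a') = gx b ℂ (j : ι) (c + c') * gxT b i j (z + z' - a * c') * gx b ℂ (i : ι) (a + a') := by
  have e1 := lp_comm h a c'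
  have e2 := lp_cj h z c'
  have e3 := lp_ci h z' a
  have e4 : gxT b i j (z + z' - a * c') = gxT b i j z * gxT b i j (-(a * c')) * gxT b i j z' := by
    rw [← lp_Tadd, ← lp_Tadd]
    congr 1
    ring
  rw [e4, gx_add, gx_add]
  calc (gx b ℂ (j : ι) c * gxT b i j z * gx b ℂ (i : ι) a) * (gx b ℂ (j : ι) c' * gxT b i j z' * gx b ℂ (i : ι) a') =
        gx b ℂ (j : ι) c * gxT b i j z * (gx b ℂ (i : ι) a * gx b ℂ (j : ι) c') * (gxT b i j z' * gx b ℂ (i : ι) a') := by group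
    _ = gx b ℂ (j : ι) c * (gxT b i j z * gx b ℂ (j : ι) c') * gxT b i j (-(a * c')) * (gx b ℂ (i : ι) a * gxT b i j z') * gx b ℂ (i : ι) a' := by
      rw [e1]
      group
    _ = _ := by
      rw [e2, ← e3]
      group

/-- **The swap.** PROOF: `a2_symm`, `a2_comm`. -/
theorem lp_swap {i j : b.support} (h : Adj b i j) (c z a : ℂ) : gx b ℂ (i : ι) c * gxT b j i z * gx b ℂ (j : ι) a = gx b ℂ (j : ι) a * gxT b i j (-z - c * a) * gx b ℂ (i : ι) c := by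
  have e0 : gxT b j i z = gxT b i j (-z) := Subtype.ext (a2_symm h z)
  have e1 := lp_comm h c a
  have e2 := lp_cj h (-z) a
  have e3 := lp_ci h (-z) c
  have e4 : gxT b i j (-z - c * a) = gxT b i j (-z) * gxT b i j (-(c * a)) := by
    rw [← lp_Tadd]
    congr 1
  rw [e0, e4]
  calc gx b ℂ (i : ι) c * gxT b i j (-z) * gx b ℂ (j : ι) a = gxT b i j (-z) * (gx b ℂ (i : ι) c * gx b ℂ (j : ι) a) := by
        rw [← e3]
        group
    _ = (gxT b i j (-z) * gx b ℂ (j : ι) a) * gxT b i j (-(c * a)) * gx b ℂ (i : ι) c := by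
      rw [e1]
      group
    _ = _ := by
      rw [e2]
      group

end

end Pool.Agent.Lib.L8.QF
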