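import Pool.Agent.Lib.L8.QF.G0
import Pool.Agent.Lib.L8.FL.M2

/-!
# QF, file M2 (helper85): the core for the quasi-split group from the count and the heights
-/

namespace Pool.Agent.Lib.L8.QF

open MeasureTheory Matrix NumberField NumberField.InfinitePlace IsDedekindDomain Pool.Agent.Lib.H89N Pool.Agent.Lib.H33W Pool.Agent.Lib.H67G Pool.Agent.Lib.L1S Pool.Agent.Lib.L8.FL
open scoped ENNReal Pointwise

noncomputable section

set_option linter.unusedSectionVars false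

variable {ι M N : Type} [Fintype ι] [DecidableEq ι] [AddCommGroup M] [Module ℚ M] [AddCommGroup N] [Module ℚ N]
  {P : RootPairing ι ℚ M N} [P.IsCrystallographic] [P.IsReduced] [P.IsIrreducible] [P.IsRootSystem] {b : P.Base}

variable {K L : Type} [Field K] [NumberField K] [Field L] [NumberField L] [Algebra K L]

theorem df_pos [FiniteDimensional K L] : 0 < df K L := inv_pos.2 (Nat.cast_pos.2 Module.finrank_pos)

theorem df_mul [FiniteDimensional K L] : (Module.finrank K L : ℝ) * df K L = 1 := mul_inv_cancel₀ (Nat.cast_ne_zero.2 Module.finrank_pos.ne')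

/-- The value of `f_e ^ (1/f)` at the Hecke element. -/
theorem m2q_fe {𝔫 : Ideal (𝓞 K)} {v : HeightOneSpectrum (𝓞 K)} {r s : ℕ} {π : K} {c : b.support → ℤ} {g : GK b L} (h0 : 𝔫 ≠ ⊥) (hπ : v.valuation K π = WithZero.exp (-1 : ℤ)) (hG : g ∈ HGL b L 𝔫 v)
    (hg : AtVL b v r s π c g) (e : b.support → ℝ) : fe b e g⁻¹ = (Ideal.absNorm v.asIdeal : ℝ) ^ (-((Module.finrank K L : ℝ) * ∑ k : b.support, e k * (pr b c (Sum.inr (k : ι)) : ℝ))) := by
  rw [m2_fe b h0 hπ hG hg e, ← Real.rpow_sum_of_pos (nu2_pos v)]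
  congr 1
  rw [Finset.mul_sum, ← Finset.sum_neg_distrib]
  exact Finset.sum_congr rfl fun k _ => by ring

/-- The quotient of two values, to the power `1/f`. -/
theorem m2q_ratio {𝔫 : Ideal (𝓞 K)} {v : HeightOneSpectrum (𝓞 K)} {r s : ℕ} {π : K} {c : b.support → ℤ} {g : GK b L} (h0 : 𝔫 ≠ ⊥) (hπ : v.valuation K π = WithZero.exp (-1 : ℤ)) (hG : g ∈ HGL b L 𝔫 v)
    (hg : AtVL b v r s π c g) (e e' : b.support → ℝ) :
    (fe b e g⁻¹ / fe b e' g⁻¹) ^ df K L = Real.exp (∑ k : b.support, (e' k - e k) * (pr b c (Sum.inr (k : ι)) : ℝ) * Real.log (Ideal.absNorm v.asIdeal : ℝ)) := by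
  have hq : (0 : ℝ) < (Ideal.absNorm v.asIdeal : ℝ) := nu2_pos v
  rw [m2q_fe h0 hπ hG hg, m2q_fe h0 hπ hG hg, ← Real.rpow_sub hq, ← Real.rpow_mul hq.le, Real.rpow_def_of_pos hq]
  congr 1
  have h1 := df_mul (K := K) (L := L)
  have h2 : ∑ k : b.support, (e' k - e k) * (pr b c (Sum.inr (k : ι)) : ℝ) * Real.log (Ideal.absNorm v.asIdeal : ℝ) =
      (∑ k : b.support, e' k * (pr b c (Sum.inr (k : ι)) : ℝ) - ∑ k : b.support, e k * (pr b c (Sum.inr (k : ι)) : ℝ)) * Real.log (Ideal.absNorm v.asIdeal : ℝ) := by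
    rw [← Finset.sum_sub_distrib, Finset.sum_mul]
    exact Finset.sum_congr rfl fun k _ => by ring
  rw [h2]
  linear_combination (∑ k : b.support, e' k * (pr b c (Sum.inr (k : ι)) : ℝ) - ∑ k : b.support, e k * (pr b c (Sum.inr (k : ι)) : ℝ)) * Real.log (Ideal.absNorm v.asIdeal : ℝ) * h1

/-- **The core** for the quasi-split group from the count and the heights. -/
theorem statementMQ_of (Q : QS b K L) [IsGalois K L] {nu : Equiv.Perm ι → ℝ} (hnu : ∀ w, IsCQ Q w → 1 ≤ nu w) (hC : CountQ Q nu) (hH : HeightsH b L) :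
    StatementMQ Q nu := by
  classical
  intro ε hε hε2 Ω K₀ hΩ hK₀
  obtain ⟨ε', hε'0, hε'1, hε'2⟩ : ∃ ε' : ℝ, 0 < ε' ∧ ε' ≤ ε ∧ ε' ≤ 1 / 2 := ⟨min ε (1 / 2), lt_min hε (by norm_num), min_le_left _ _, min_le_right _ _⟩
  obtain ⟨A, hA0, hA⟩ := hH (HQ Q) Ω K₀ hΩ hK₀
  obtain ⟨C₁, hC₁0, hC₁⟩ := hC ε' hε'0 hε'2 (2 * A)
  obtain ⟨CI, hCI0, hCI⟩ := c1_abs Q
  have hdf : 0 < df K L := df_pos
  obtain ⟨C₂, hC₂⟩ : ∃ C₂ : ℝ, C₂ = C₁ * Real.exp (2 * (1 + ε') * (A * Fintype.card b.support)) ^ df K L := ⟨_, rfl⟩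
  have hC₂0 : 0 < C₂ := by
    rw [hC₂]
    exact mul_pos hC₁0 (Real.rpow_pos_of_pos (Real.exp_pos _) _)
  obtain ⟨cC, hcC⟩ : ∃ cC : ℝ, cC = Fintype.card {w : Equiv.Perm ι // IsCQ Q w} := ⟨_, rfl⟩
  have hcC0 : 0 ≤ cC := by
    rw [hcC]
    exact Nat.cast_nonneg _
  obtain ⟨Z, hZ⟩ : ∃ Z : ℝ, Z = ((6 ^ 1 : ℕ) ^ Module.finrank ℚ L : ℝ) ^ (Fintype.card (I b) ^ 2) * CI := ⟨_, rfl⟩
  have hZ0 : 0 ≤ Z := by
    rw [hZ]
    exact mul_nonneg (by positivity) hCI0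
  refine ⟨(1 + 2 * C₂ * (cC + 1)) * Z, ?_⟩
  intro v 𝔫 h0 hv r s c hcQ hc hrs π hπ h hh1 hh2 θ hθ t a hta x hx μ _ φ cφ sφ ν _ D hD n F c' t' hF hT hort D' hD'
  have ci : Countable (HQ Q) := th_count (HQ Q)
  have sφ' : HasCompactSupport φ := hK₀.of_isClosed_subset (isClosed_tsupport φ) sφ
  have hq1 : (0 : ℝ) < Ideal.absNorm v.asIdeal := nu2_pos v
  have hN1 : (1 : ℝ) ≤ Ideal.absNorm 𝔫 := by
    have h2 : Ideal.absNorm 𝔫 ≠ 0 := fun e => h0 (Ideal.absNorm_eq_zero_iff.1 e)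
    exact_mod_cast Nat.pos_of_ne_zero h2
  have ha : ∀ k : b.support, 0 < mixedEmbedding.norm (a k : EE L) := fun k =>
    lt_of_le_of_ne (mixedEmbedding.norm_nonneg _) ((((a k).isUnit).map mixedEmbedding.norm).ne_zero).symm
  obtain ⟨E, hE⟩ : ∃ E : b.support → ℝ, E = fun k : b.support => mixedEmbedding.norm (a k : EE L) ^ df K L * (Ideal.absNorm v.asIdeal : ℝ) ^ (-pr b c (Sum.inr (k : ι))) := ⟨_, rfl⟩
  have hE0 : ∀ k, 0 < E k := fun k => by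
    rw [hE]
    exact mul_pos (Real.rpow_pos_of_pos (ha k) _) (zpow_pos hq1 _)
  obtain ⟨LN, hLN⟩ : ∃ LN : b.support → ℝ, LN = fun k : b.support => df K L * Real.log (mixedEmbedding.norm (a k : EE L)) := ⟨_, rfl⟩
  have hEl : ∀ k, Real.log (E k) = LN k - pr b c (Sum.inr (k : ι)) * Real.log (Ideal.absNorm v.asIdeal : ℝ) := fun k => by
    rw [hE, hLN]
    show Real.log (mixedEmbedding.norm (a k : EE L) ^ df K L * (Ideal.absNorm v.asIdeal : ℝ) ^ (-pr b c (Sum.inr (k : ι)))) = df K L * Real.log (mixedEmbedding.norm (a k : EE L)) - _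
    rw [Real.log_mul (Real.rpow_pos_of_pos (ha k) _).ne' (zpow_pos hq1 _).ne', Real.log_zpow, Real.log_rpow (ha k)]
    push_cast
    ring
  -- the exceptional sum
  obtain ⟨T, hTd⟩ : ∃ T : Equiv.Perm ι → ℝ, T = fun w => ∑ k, XW b w k * Real.log (E k) := ⟨_, rfl⟩
  have hTi : ∀ w, T w⁻¹ = T w := fun w => by
    rw [hTd]
    exact Finset.sum_congr rfl fun k _ => by rw [xw_inv]
  obtain ⟨X, hX⟩ : ∃ X : ℝ, X = ExsQ Q nu ε (Ideal.absNorm 𝔫) E := ⟨_, rfl⟩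
  have hXs : ∑ w : {w : Equiv.Perm ι // IsCQ Q w}, (Ideal.absNorm 𝔫 : ℝ) ^ (ε - nu w.1) * Real.exp (-((1 + ε) * T w.1)) = X := by
    rw [hX]
    unfold ExsQ
    rw [Finset.sum_subtype (Finset.univ.filter fun w : Equiv.Perm ι => IsCQ Q w) (p := fun w => IsCQ Q w) (fun w => by simp)]
    refine Finset.sum_congr rfl fun w _ => ?_
    rw [m2_prodE hE0, hTd]
  have hX0 : 0 ≤ X := by
    rw [← hXs]
    exact Finset.sum_nonneg fun w _ => mul_nonneg (Real.rpow_nonneg (by linarith) _) (Real.exp_pos _).le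
  obtain ⟨S', hS'⟩ : ∃ S' : Equiv.Perm ι → ℝ, S' = fun w => (Ideal.absNorm 𝔫 : ℝ) ^ (ε' - nu w) * Real.exp (-((1 + ε') * T w)) := ⟨_, rfl⟩
  have hS'X : ∑ w : {w : Equiv.Perm ι // IsCQ Q w}, S' w.1 ≤ cC + X := by
    have h2 : ∑ w : {w : Equiv.Perm ι // IsCQ Q w}, S' w.1 ≤ ∑ w : {w : Equiv.Perm ι // IsCQ Q w}, (1 + (Ideal.absNorm 𝔫 : ℝ) ^ (ε - nu w.1) * Real.exp (-((1 + ε) * T w.1))) := by
      refine Finset.sum_le_sum fun w _ => ?_
      rw [hS']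
      exact m2_term hN1 hε'0 hε'1 hε'2 (hnu w.1 w.2)
    rw [Finset.sum_add_distrib, hXs, Finset.sum_const, Finset.card_univ, nsmul_eq_mul, mul_one, ← hcC] at h2
    exact h2
  have hS'i : ∑ w : {w : Equiv.Perm ι // IsCQ Q w}, S' (w.1)⁻¹ = ∑ w : {w : Equiv.Perm ι // IsCQ Q w}, S' w.1 :=
    Function.Bijective.sum_comp (e := fun w : {w : Equiv.Perm ι // IsCQ Q w} => (⟨(w.1)⁻¹, isCQ_inv w.2⟩ : {w : Equiv.Perm ι // IsCQ Q w}))
      (Function.Involutive.bijective fun w => Subtype.ext (inv_inv w.1)) fun w => S' w.1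
  obtain ⟨B, hB⟩ : ∃ B : ℝ, B = 2 * C₂ * (cC + X) := ⟨_, rfl⟩
  have hB0 : 0 ≤ B := by
    rw [hB]
    positivity
  -- the support
  have hsupp : tsupport φ * (∅ : Set (HRt (HQ Q))) ^ 0 = tsupport φ := by
    rw [pow_zero, mul_one]
  have hSTle : ∀ z ∈ ST (HQ Q) x (tsupport φ * (∅ : Set (HRt (HQ Q))) ^ 0), z ∈ ST (HQ Q) x K₀ := by
    intro z hz
    rw [hsupp] at hz
    obtain ⟨u, y, hy, e⟩ := (mem_ST (HQ Q)).1 hz
    exact (mem_ST (HQ Q)).2 ⟨u, y, sφ hy, e⟩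
  have hHt := hA t a hta x hx
  have hvar : ∀ y ∈ ST (HQ Q) x (tsupport φ * (∅ : Set (HRt (HQ Q))) ^ 0), ∀ y' ∈ ST (HQ Q) x (tsupport φ * (∅ : Set (HRt (HQ Q))) ^ 0), ∀ w i, |Hw w y i - Hw w y' i| ≤ 2 * A := by
    intro y hy y' hy' w i
    have a1 := (hHt y (hSTle y hy)).1 w i
    have a2 := (hHt y' (hSTle y' hy')).1 w i
    rw [abs_le] at a1 a2 ⊢
    constructor <;> linarith [a1.1, a1.2, a2.1, a2.2]
  have mST : MeasurableSet (ST (HQ Q) x (tsupport φ * (∅ : Set (HRt (HQ Q))) ^ 0)) := by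
    rw [hsupp]
    exact th3_meas (HQ Q) ((show IsCompact (tsupport φ) from sφ').image (continuous_const.mul continuous_id))
  have hAut : ∀ l, AutM Q 𝔫 v r s μ D φ 0 (fun _ => 0) h (F l) (c' l) 0 (t' l) := fun l => ⟨(hF l).cont, (hF l).inv, (hF l).l2, (hF l).eig, fun x => by simp, hT l⟩
  have key := hCI B hB0 1 v 𝔫 h0 hv r s c hcQ hc hrs π hπ h hh1 hh2 θ hθ x μ 0 (fun _ => 0) ∅ 1 (m2_cvd μ) 0 φ cφ sφ' ν (by
    intro m₁ hm1 hm3 g hL
    obtain ⟨h1n, h1v, -, -, hg1, hg2⟩ := hL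
    have hdΓ : Dsc (HQ Q) (GamQ (HQ Q) (Ideal.span {(m₁ : 𝓞 K)} * 𝔫) v r s) := dsc_Gam (HQ Q) _ v r s
    obtain ⟨D₁, hD₁⟩ := (dsc_conj (HQ Q) hdΓ g).sfU
    have hN₁ : (Ideal.absNorm 𝔫 : ℝ) ≤ Ideal.absNorm (Ideal.span {(m₁ : 𝓞 K)} * 𝔫) := by
      rw [map_mul]
      have h3 : Ideal.absNorm (Ideal.span {(m₁ : 𝓞 K)}) ≠ 0 := by
        rw [Ne, Ideal.absNorm_eq_zero_iff]
        intro e
        rw [e, Ideal.bot_mul] at h1n
        exact h1n rfl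
      have h4 : (1 : ℝ) ≤ Ideal.absNorm (Ideal.span {(m₁ : 𝓞 K)}) := by exact_mod_cast Nat.pos_of_ne_zero h3
      push_cast
      exact le_mul_of_one_le_left (Nat.cast_nonneg _) h4
    -- the bounds
    obtain ⟨q, hqd⟩ : ∃ q : ℝ, q = (Ideal.absNorm v.asIdeal : ℝ) := ⟨_, rfl⟩
    obtain ⟨N₁, hN₁d⟩ : ∃ N₁ : ℝ, N₁ = (Ideal.absNorm (Ideal.span {(m₁ : 𝓞 K)} * 𝔫) : ℝ) := ⟨_, rfl⟩
    have hN₁0 : 0 < N₁ := by
      rw [hN₁d]
      linarith
    obtain ⟨W, hW⟩ : ∃ W : Equiv.Perm ι → ℝ, W = fun w => (1 + ε') * (∑ k, XW b w k * pr b c (Sum.inr (k : ι)) * Real.log q) - 2 * (1 + ε') * ∑ k, (∑ j ∈ Js b w⁻¹, om b j k) * LN k := ⟨_, rfl⟩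
    have hWs : ∀ w, W w + W w⁻¹ = 2 * (-((1 + ε') * T w)) := by
      intro w
      rw [hW, hTd]
      have e1 : ∑ k, XW b w k * Real.log (E k) = ∑ k, XW b w k * LN k - ∑ k, XW b w k * pr b c (Sum.inr (k : ι)) * Real.log q := by
        rw [← Finset.sum_sub_distrib]
        refine Finset.sum_congr rfl fun k _ => ?_
        rw [hEl k, hqd]
        ring
      have e2 : ∑ k, XW b w k * LN k = ∑ k, (∑ j ∈ Js b w⁻¹, om b j k) * LN k + ∑ k, (∑ j ∈ Js b w, om b j k) * LN k := by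
        rw [← Finset.sum_add_distrib]
        refine Finset.sum_congr rfl fun k _ => ?_
        unfold XW
        ring
      have e3 : ∑ k, XW b w⁻¹ k * pr b c (Sum.inr (k : ι)) * Real.log q = ∑ k, XW b w k * pr b c (Sum.inr (k : ι)) * Real.log q :=
        Finset.sum_congr rfl fun k _ => by rw [xw_inv]
      show (1 + ε') * (∑ k, XW b w k * pr b c (Sum.inr (k : ι)) * Real.log q) - 2 * (1 + ε') * ∑ k, (∑ j ∈ Js b w⁻¹, om b j k) * LN k +
        ((1 + ε') * (∑ k, XW b w⁻¹ k * pr b c (Sum.inr (k : ι)) * Real.log q) - 2 * (1 + ε') * ∑ k, (∑ j ∈ Js b w⁻¹⁻¹, om b j k) * LN k) =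
        2 * (-((1 + ε') * ∑ k, XW b w k * Real.log (E k)))
      rw [e1, e2, e3, inv_inv]
      ring
    refine ⟨{w : Equiv.Perm ι // IsCQ Q w}, inferInstance, D₁, fun w => ⟨(w.1)⁻¹, isCQ_inv w.2⟩, fun w => {γ : HQ Q | γ.1 ∈ cell b L w.1},
      fun w z => ENNReal.ofReal (Fe (eJ b (1 + ε') (Js b w.1)) z ^ df K L), fun w => C₂ * N₁ ^ (ε' - nu w.1) * Real.exp (W w.1), ?_, ?_⟩
    · refine ⟨fun w => Subtype.ext (inv_inv w.1), fun w u hu γ => ?_, fun w γ => ?_, fun w γ hγ => ?_, fun w => ?_, fun w u z => ?_, fun w y _ => ?_, fun w y _ => ENNReal.ofReal_ne_top, hD₁,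
        fun w y hy => ?_, fun w => ?_, ?_⟩
      · exact FC.cell_left (u := u.1) (g := γ.1) hu.2
      · exact FC.cell_inv (g := γ.1)
      · obtain ⟨J, hJ, -, hw⟩ := w.2
        exact FC.cell_HU hJ hw hγ
      · exact ENNReal.measurable_ofReal.comp ((Fe_cont _).measurable.pow_const _)
      · show ENNReal.ofReal (Fe _ ((u : HRt (HQ Q)) * z) ^ df K L) = _
        rw [Fe_U _ u.2]
      · exact (ENNReal.ofReal_pos.2 (Real.rpow_pos_of_pos (Fe_pos _ _) _)).ne'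
      · -- the count
        have k1 := hC₁ (Ideal.span {(m₁ : 𝓞 K)} * 𝔫) h1n (GamQ (HQ Q) (Ideal.span {(m₁ : 𝓞 K)} * 𝔫) v r s) (fun γ hγ => m2_G1 hγ) hdΓ (fun h => by
            have h2 : (cjG (GamQ (HQ Q) (Ideal.span {(m₁ : 𝓞 K)} * 𝔫) v r s) h).relIndex (cjG (GamQ (HQ Q) (Ideal.span {(m₁ : 𝓞 K)} * 𝔫) v r s) 1) ≠ 0 := qa_comm Q h1n v v r s r s h 1
            rw [cjG_one] at h2
            exact h2) (fun h => qa_cc Q h1n v r s h) g (fun w hw => m2_Kva b h1n h1v hg1 hw) x (tsupport φ * (∅ : Set (HRt (HQ Q))) ^ 0) hvar mST ν D₁ hD₁ w.1 w.2 y hy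
        refine k1.trans ?_
        rw [← hN₁d]
        have hxy : x * y ∈ ST (HQ Q) x K₀ := hSTle _ ((mem_ST (HQ Q)).2 ⟨1, y, hy, by rw [Subgroup.coe_one, one_mul]⟩)
        have k2 := m2_low (H := HQ Q) (z := x * y) hA0 (hHt _ hxy).2 (c := 1 + ε') (by linarith) (Js b (w.1)⁻¹)
        -- the ratio of the heights of the Hecke element
        have k3 : (fe b (eJ b (-(1 + ε')) (Js b (w.1)⁻¹)) (g⁻¹).1 / fe b (eJ b (1 + ε') (Js b w.1)) (g⁻¹).1) ^ df K L = Real.exp ((1 + ε') * ∑ k, XW b w.1 k * pr b c (Sum.inr (k : ι)) * Real.log q) := by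
          rw [show (g⁻¹).1 = g.1⁻¹ from rfl, m2q_ratio h1n hπ hg1 hg2, ← hqd]
          congr 1
          rw [Finset.mul_sum]
          refine Finset.sum_congr rfl fun k _ => ?_
          rw [FC.eJ_sub]
          unfold XW
          ring
        rw [k3, ← ENNReal.ofReal_mul (by positivity)]
        show _ ≤ ENNReal.ofReal (C₂ * N₁ ^ (ε' - nu w.1) * Real.exp (W w.1)) * ENNReal.ofReal (Fe (eJ b (1 + ε') (Js b (w.1)⁻¹)) (x * y) ^ df K L) * ν D₁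
        rw [← ENNReal.ofReal_mul (by positivity)]
        refine mul_le_mul_left (ENNReal.ofReal_le_ofReal ?_) _
        rw [m2_Fe]
        have hF0 : 0 < Fe (eJ b (1 + ε') (Js b (w.1)⁻¹)) (x * y) := Fe_pos _ _
        have k2' : (Real.exp (-(2 * (1 + ε') * ∑ j ∈ Js b (w.1)⁻¹, Ht (x * y) j)) * Fe (eJ b (1 + ε') (Js b (w.1)⁻¹)) (x * y)) ^ df K L ≤
            Real.exp (2 * (1 + ε') * (A * Fintype.card b.support)) ^ df K L * Real.exp (-(2 * (1 + ε') * ∑ k, (∑ j ∈ Js b (w.1)⁻¹, om b j k) * LN k)) * Fe (eJ b (1 + ε') (Js b (w.1)⁻¹)) (x * y) ^ df K L := by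
          rw [Real.mul_rpow (Real.exp_pos _).le hF0.le]
          refine mul_le_mul_of_nonneg_right ?_ (Real.rpow_nonneg hF0.le _)
          refine (Real.rpow_le_rpow (Real.exp_pos _).le k2 hdf.le).trans (le_of_eq ?_)
          rw [Real.mul_rpow (Real.exp_pos _).le (Real.exp_pos _).le]
          congr 1
          rw [← Real.exp_mul, hLN]
          congr 1
          have e1 : ∑ k, (∑ j ∈ Js b (w.1)⁻¹, om b j k) * (df K L * Real.log (mixedEmbedding.norm (a k : EE L))) = df K L * ∑ k, (∑ j ∈ Js b (w.1)⁻¹, om b j k) * Real.log (mixedEmbedding.norm (a k : EE L)) := by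
            rw [Finset.mul_sum]
            exact Finset.sum_congr rfl fun k _ => by ring
          show -(2 * (1 + ε') * ∑ k, (∑ j ∈ Js b (w.1)⁻¹, om b j k) * Real.log (mixedEmbedding.norm (a k : EE L))) * df K L = -(2 * (1 + ε') * ∑ k, (∑ j ∈ Js b (w.1)⁻¹, om b j k) * (df K L * Real.log (mixedEmbedding.norm (a k : EE L))))
          rw [e1]
          ring
        have k4 : Real.exp (W w.1) = Real.exp ((1 + ε') * ∑ k, XW b w.1 k * pr b c (Sum.inr (k : ι)) * Real.log q) * Real.exp (-(2 * (1 + ε') * ∑ k, (∑ j ∈ Js b (w.1)⁻¹, om b j k) * LN k)) := by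
          rw [← Real.exp_add, hW]
          congr 1
        rw [k4, hC₂]
        have k5 : 0 ≤ C₁ * N₁ ^ (ε' - nu w.1) * Real.exp ((1 + ε') * ∑ k, XW b w.1 k * pr b c (Sum.inr (k : ι)) * Real.log q) := by positivity
        calc C₁ * N₁ ^ (ε' - nu w.1) * Real.exp ((1 + ε') * ∑ k, XW b w.1 k * pr b c (Sum.inr (k : ι)) * Real.log q) * (Real.exp (-(2 * (1 + ε') * ∑ j ∈ Js b (w.1)⁻¹, Ht (x * y) j)) * Fe (eJ b (1 + ε') (Js b (w.1)⁻¹)) (x * y)) ^ df K L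
            ≤ C₁ * N₁ ^ (ε' - nu w.1) * Real.exp ((1 + ε') * ∑ k, XW b w.1 k * pr b c (Sum.inr (k : ι)) * Real.log q) * (Real.exp (2 * (1 + ε') * (A * Fintype.card b.support)) ^ df K L *
                Real.exp (-(2 * (1 + ε') * ∑ k, (∑ j ∈ Js b (w.1)⁻¹, om b j k) * LN k)) * Fe (eJ b (1 + ε') (Js b (w.1)⁻¹)) (x * y) ^ df K L) :=
              mul_le_mul_of_nonneg_left k2' k5
          _ = _ := by ring
      · have : 0 < N₁ ^ (ε' - nu w.1) := Real.rpow_pos_of_pos hN₁0 _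
        positivity
      · -- the sum
        have k1 : ∀ w : {w : Equiv.Perm ι // IsCQ Q w}, √((C₂ * N₁ ^ (ε' - nu w.1) * Real.exp (W w.1)) * (C₂ * N₁ ^ (ε' - nu (w.1)⁻¹) * Real.exp (W (w.1)⁻¹))) ≤ C₂ * (S' w.1 + S' (w.1)⁻¹) := by
          intro w
          have hle : ∀ w', IsCQ Q w' → N₁ ^ (ε' - nu w') ≤ (Ideal.absNorm 𝔫 : ℝ) ^ (ε' - nu w') := fun w' hw' =>
            Real.rpow_le_rpow_of_nonpos (by linarith) (by rw [hN₁d]; exact hN₁) (by linarith [hnu w' hw'])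
          refine (m2_sqrt hC₂0.le (Real.rpow_nonneg hN₁0.le _) (Real.rpow_nonneg hN₁0.le _) (hWs w.1)).trans ?_
          have e1 : C₂ * (S' w.1 + S' (w.1)⁻¹) = C₂ * ((Ideal.absNorm 𝔫 : ℝ) ^ (ε' - nu w.1) + (Ideal.absNorm 𝔫 : ℝ) ^ (ε' - nu (w.1)⁻¹)) * Real.exp (-((1 + ε') * T w.1)) := by
            rw [hS']
            show C₂ * ((Ideal.absNorm 𝔫 : ℝ) ^ (ε' - nu w.1) * Real.exp (-((1 + ε') * T w.1)) + (Ideal.absNorm 𝔫 : ℝ) ^ (ε' - nu (w.1)⁻¹) * Real.exp (-((1 + ε') * T (w.1)⁻¹))) = _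
            rw [hTi]
            ring
          rw [e1]
          exact mul_le_mul_of_nonneg_right (mul_le_mul_of_nonneg_left (add_le_add (hle _ w.2) (hle _ (isCQ_inv w.2))) hC₂0.le) (Real.exp_pos _).le
        refine (Finset.sum_le_sum fun w _ => k1 w).trans ?_
        rw [← Finset.mul_sum, Finset.sum_add_distrib, hS'i, hB]
        have := mul_le_mul_of_nonneg_left hS'X hC₂0.le
        linarith
    · intro γ _ hγ _
      rcases W2Q Q hθ γ with h3 | h3 | ⟨w, hw, h3⟩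
      · exact Or.inl h3
      · exact Or.inr h3
      · exact absurd h3 (hγ ⟨w, hw⟩)) D hD n F c' (fun _ => 0) t' hAut hort D' hD'
  simp only [pow_zero, mul_one, mul_zero] at key
  refine key.trans (mul_le_mul_left (ENNReal.ofReal_le_ofReal ?_) _)
  rw [← hE, ← hX]
  refine mul_le_mul_of_nonneg_right ?_ (zpow_nonneg hq1.le _)
  have e1 : (1 + B) * ((6 ^ 1 : ℕ) ^ Module.finrank ℚ L : ℝ) ^ (Fintype.card (I b) ^ 2) * CI = (1 + B) * Z := by
    rw [hZ]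
    ring
  have e2 : 1 + B ≤ (1 + 2 * C₂ * (cC + 1)) * (1 + X) := by
    rw [hB]
    have : 0 ≤ C₂ * cC := mul_nonneg hC₂0.le hcC0
    have : 0 ≤ C₂ * cC * X := mul_nonneg this hX0
    have : 0 ≤ C₂ * X := mul_nonneg hC₂0.le hX0
    nlinarith
  calc _ = (1 + B) * Z := e1
    _ ≤ ((1 + 2 * C₂ * (cC + 1)) * (1 + X)) * Z := mul_le_mul_of_nonneg_right e2 hZ0
    _ = _ := by ring

end

end Pool.Agent.Lib.L8.QF
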