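import Pool.Agent.Lib.L8.QF.Defs
import Pool.Agent.Lib.L8.FL.M3

/-!
# QF, file M3 (helper67): from the core to the density theorem at the archimedean places, quasi-split groups
-/

namespace Pool.Agent.Lib.L8.QF

open MeasureTheory Matrix NumberField NumberField.InfinitePlace IsDedekindDomain Pool.Agent.Lib.H89N Pool.Agent.Lib.H33W Pool.Agent.Lib.H67G Pool.Agent.Lib.L1S Pool.Agent.Lib.L8.FL
open scoped ENNReal Pointwise

noncomputable section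

set_option linter.unusedSectionVars false
set_option linter.unusedVariables false

variable {ι M N : Type} [Fintype ι] [DecidableEq ι] [AddCommGroup M] [Module ℚ M] [AddCommGroup N] [Module ℚ N]
  {P : RootPairing ι ℚ M N} [P.IsCrystallographic] [P.IsReduced] [P.IsIrreducible] [P.IsRootSystem]
  {b : P.Base} {K L : Type} [Field K] [NumberField K] [Field L] [NumberField L] [Algebra K L]

theorem IsCQ.isC {Q : QS b K L} {w : Equiv.Perm ι} (h : IsCQ Q w) : IsC b w := by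
  obtain ⟨J, h1, _, h2⟩ := h
  exact ⟨J, h1, h2⟩

/-- **The density theorem** with the exceptional sum: `E_k` is also multiplied by the effect `exp` of the shifts at the archimedean places. -/
def StatementVQ (Q : QS b K L) (nu : Equiv.Perm ι → ℝ) : Prop :=
  ∀ (p : ℕ) (Fv : Fin p → Type) [∀ k, RCLike (Fv k)] (V : ∀ k, PlH (HQ Q) (Fv k) (trQ Q)) (Λ : Fin p → b.support → ℝ), (∀ k i, 0 ≤ al (fun i j => b.cartanMatrix i j) i (Λ k)) →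
    ∀ ε : ℝ, 0 < ε → ε ≤ 1 / 2 → ∀ (T : ℝ) (Ω : Set (GL (I b) (EE L))) (K₀ : Set (HRt (HQ Q))), IsCompact Ω → IsCompact K₀ → ∃ C : ℝ,
    ∀ (v : HeightOneSpectrum (𝓞 K)) (𝔫 : Ideal (𝓞 K)), 𝔫 ≠ ⊥ → ¬𝔫 ≤ v.asIdeal → ∀ (r s : ℕ) (c : b.support → ℤ), InvC Q c → (∀ i : b.support, 0 ≤ pr b c (Sum.inr i)) → (1 ≤ r + s ∨ c = 0) →
    ∀ π : K, v.valuation K π = WithZero.exp (-1 : ℤ) → ∀ h : HQ Q, h.1 ∈ HGL b L 𝔫 v → AtVL b v r s π c h.1 →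
    ∀ θ : b.support → (EE L →ₗ[ℝ] ℝ), GenQ Q 𝔫 v r s θ →
    ∀ (t : HRt (HQ Q)) (a : ι → (EE L)ˣ), t.1.1.1 = dgz b a → ∀ x : HRt (HQ Q), (∃ u : UHR (HQ Q), ∃ ω ∈ Ω, x.1.1.1 = u.1.1.1.1 * t.1.1.1 * ω.1) →
    ∀ R : Fin p → ℝ, (∀ k, 0 ≤ R k) →
    ∀ X : ℝ, (∀ y : Fin p → b.support → ℝ, (∀ (k : Fin p) (w : Equiv.Perm ι), IsCQ Q w → -(R k * (∑ j ∈ Js b w⁻¹, trQ Q (Λ k) j + ∑ j ∈ Js b w, trQ Q (Λ k) j)) ≤ ∑ j ∈ Js b w⁻¹, y k j + ∑ j ∈ Js b w, y k j) →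
      ExsQ Q nu ε (Ideal.absNorm 𝔫) (fun k => (mixedEmbedding.norm (a k : EE L) * Real.exp (∑ q, Module.finrank ℝ (Fv q) * al (cA b) k (y q))) ^ df K L * (Ideal.absNorm v.asIdeal : ℝ) ^ (-pr b c (Sum.inr (k : ι)))) ≤ X) →
    ∀ (μ : Measure (HRt (HQ Q))) [μ.IsHaarMeasure], ∀ φ : HRt (HQ Q) → ℂ, Continuous φ → tsupport φ ⊆ K₀ →
    ∀ (ν : Measure (UHR (HQ Q))) [ν.IsHaarMeasure] (D : Set (HRt (HQ Q))), IsFundamentalDomain (GamHR (HQ Q) 𝔫 v r s) D μ →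
    ∀ (n : ℕ) (F : Fin n → HRt (HQ Q) → ℂ) (c' t' : Fin n → ℂ), (∀ l, AuE (HQ Q) (GamQ (HQ Q) 𝔫 v r s) μ D φ (c' l) (F l)) → (∀ l, IsTH (HQ Q) 𝔫 v r s h (F l) (t' l)) →
    (∀ l k, ∫ x in D, star (F l x) * F k x ∂μ = if l = k then 1 else 0) →
    ∀ z : Fin p → Fin n → b.support → ℂ, (∀ k l j, ‖z k l j‖ ≤ T) → (∀ k l, SphV (V k) (z k l) (F l)) →
    ∀ D' : Set (UHR (HQ Q)), IsFundamentalDomain (GamUH (HQ Q) 𝔫 v r s) D' ν →
    ∀ g : Fin p → Fin n → List b.support,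
      ∑ l, Real.exp (2 * ∑ k, R k * (∑ j, (z k l j).re * wl (fun i j => b.cartanMatrix i j) (g k l) (Λ k) j - ε)) * ‖c' l * t' l * WhH (HQ Q) ν D' θ (F l) x‖ ^ 2 ≤
        C * (1 + X) * (Ideal.absNorm v.asIdeal : ℝ) ^ (∑ β ∈ Pos b, pr b c (Sum.inr β)) * (∫ y, ‖φ y‖ ^ 2 ∂μ) *
          ((∏ β ∈ Pos b, mixedEmbedding.norm (a β : EE L)) ^ ((Module.finrank K L : ℝ)⁻¹) / (Ideal.absNorm 𝔫 : ℝ) ^ (Pos b).card)

/-- **The density theorem** with the exceptional sum, from the core. -/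
theorem statementVQ_of (Q : QS b K L) [IsGalois K L] {nu : Equiv.Perm ι → ℝ} (hM : StatementMQ Q nu) (hO : OppH b) : StatementVQ Q nu := by
  intro p Fv _ V Λ hΛ ε hε hε1 T Ω K₀ hΩ hK₀
  have he : Module.finrank K L ≠ 0 := by
    have : FiniteDimensional K L := Module.Finite.of_restrictScalars_finite ℚ K L
    exact Module.finrank_pos.ne'
  have htr : ∀ y : b.support → ℝ, ∑ j, trQ Q y j = (Module.finrank K L : ℝ) * ∑ j, y j := fun y => by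
    have : FiniteDimensional K L := Module.Finite.of_restrictScalars_finite ℚ K L
    rw [trQ_sum, ← Nat.card_eq_fintype_card, IsGalois.card_aut_eq_finrank]
  obtain ⟨lw, lM, Z', h1, h2, _⟩ := adapted (b := b) (Z := 0) (fun i => by unfold al; simp)
  obtain ⟨Ω', hΩ', C₁, hC₁, hmany⟩ := fv_many h1 h2 hε T p Fv V Λ hΛ Ω hΩ
  obtain ⟨C₂, hC₂⟩ := hM ε hε hε1 Ω' K₀ hΩ' hK₀
  obtain ⟨C₃, hC₃0, hC₃⟩ := m1_jf Q hΩ' hK₀
  refine ⟨C₁ * (|C₂| * C₃), ?_⟩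
  intro v 𝔫 h0 hv r s c hcQ hc hrs π hπ h hh1 hh2 θ hθ t a ht x hx R hR X hX μ _ φ cφ sφ ν _ D hD n F c' t' hF hT hort z hzT hz D' hD' g
  have ci : Countable (HQ Q) := th_count (HQ Q)
  have hdΓ : Dsc (HQ Q) (GamQ (HQ Q) 𝔫 v r s) := dsc_Gam (HQ Q) 𝔫 v r s
  obtain ⟨D₁, hD₁⟩ := hdΓ.sfU
  have hcc0 : CCH (HQ Q) (GamQ (HQ Q) 𝔫 v r s) := by
    have h2 : CCH (HQ Q) (cjG (GamQ (HQ Q) 𝔫 v r s) 1) := qa_cc Q h0 v r s 1
    rw [cjG_one] at h2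
    exact h2
  have hone : ∀ w : HUH (HQ Q), (w : HQ Q) ∈ GamQ (HQ Q) 𝔫 v r s → psT (HQ Q) θ (kUH (HQ Q) w) = 1 := fun w hw =>
    hθ.2 _ ((th2_mem_imU (HQ Q) (GamQ (HQ Q) 𝔫 v r s) _).2 ⟨w, hw, rfl⟩)
  have pD : ν D₁ ≠ 0 := th2_pos (HQ Q) hD₁ ν
  have fD : ν D₁ ≠ ⊤ := th2_fin (HQ Q) hcc0 hD₁ ν
  have hvD : ν D' = ν D₁ := th2_volU (HQ Q) ν hD₁ hD'
  have hq : (0 : ℝ) ≤ (Ideal.absNorm v.asIdeal : ℝ) ^ (∑ β ∈ Pos b, pr b c (Sum.inr β)) := zpow_nonneg (Nat.cast_nonneg _) _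
  have hI : 0 ≤ ∫ y, ‖φ y‖ ^ 2 ∂μ := integral_nonneg fun y => sq_nonneg _
  obtain ⟨dl, hdl⟩ : ∃ dl : (ι → (EE L)ˣ) → ℝ, dl = fun a => (∏ β ∈ Pos b, mixedEmbedding.norm (a β : EE L)) ^ ((Module.finrank K L : ℝ)⁻¹) := ⟨_, rfl⟩
  have hdl0 : ∀ a, 0 ≤ dl a := fun a => by
    rw [hdl]
    exact Real.rpow_nonneg (Finset.prod_nonneg fun β _ => mixedEmbedding.norm_nonneg _) _
  have hN : (0 : ℝ) ≤ (Ideal.absNorm 𝔫 : ℝ) ^ (Pos b).card := by positivity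
  have hex0 : ∀ E : b.support → ℝ, (∀ k, 0 ≤ E k) → 0 ≤ ExsQ Q nu ε (Ideal.absNorm 𝔫) E := fun E hE =>
    Finset.sum_nonneg fun w _ => mul_nonneg (Real.rpow_nonneg (Nat.cast_nonneg _) _) (Finset.prod_nonneg fun k _ => Real.rpow_nonneg (hE k) _)
  have hX0 : 0 ≤ X := by
    refine le_trans (hex0 _ fun k => ?_) (hX (fun k => trQ Q (fun j => R k * wl (cA b) (lw ++ lM) (Λ k) j)) fun k w hw => m3_opp Q hO (hΛ k) (hR k) (lw ++ lM) (fun i => le_rfl) hw.isC)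
    exact mul_nonneg (Real.rpow_nonneg (mul_nonneg (mixedEmbedding.norm_nonneg _) (Real.exp_pos _).le) _) (zpow_nonneg (Nat.cast_nonneg _) _)
  have key := hmany (GamQ (HQ Q) 𝔫 v r s) hcc0 θ hone ν D₁ hD₁ D' hD' t a ht x hx R hR n F (fun l => (hF l).cont) (fun l => (hF l).inv) z hzT (fun k l y g => sphV_iff (hz k l) y g)
    (fun l => ‖c' l * t' l‖ ^ 2) (fun l => sq_nonneg _)
    ((|C₂| * C₃) * (1 + X) * (Ideal.absNorm v.asIdeal : ℝ) ^ (∑ β ∈ Pos b, pr b c (Sum.inr β)) * (∫ y, ‖φ y‖ ^ 2 ∂μ) * (dl a / (Ideal.absNorm 𝔫 : ℝ) ^ (Pos b).card))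
    (by
      have := hdl0 a
      positivity) (fun Y hY t₁ a₁ ht₁ hn x₁ hx₁ => by
      have A1 := hC₂ v 𝔫 h0 hv r s c hcQ hc hrs π hπ h hh1 hh2 θ hθ t₁ a₁ ht₁ x₁ hx₁ μ φ cφ sφ ν D hD n F c' t' hF hT hort D' hD'
      have A2 := hC₃ v 𝔫 h0 r s θ t₁ a₁ ht₁ x₁ hx₁ μ φ cφ sφ ν D' hD'
      have hE : (fun k : b.support => mixedEmbedding.norm (a₁ k : EE L) ^ df K L * (Ideal.absNorm v.asIdeal : ℝ) ^ (-pr b c (Sum.inr (k : ι)))) =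
          fun k : b.support => (mixedEmbedding.norm (a k : EE L) * Real.exp (∑ q, Module.finrank ℝ (Fv q) * al (cA b) k (trQ Q (Y q)))) ^ df K L * (Ideal.absNorm v.asIdeal : ℝ) ^ (-pr b c (Sum.inr (k : ι))) := by
        funext k
        rw [hn k]
        simp only [ig19b_al]
        rfl
      have hEx := hX (fun k => trQ Q (Y k)) (fun k w hw => m3_opp Q hO (hΛ k) (hR k) (lw ++ lM) (hY k) hw.isC)
      rw [← hE] at hEx
      have hEx0 : 0 ≤ ExsQ Q nu ε (Ideal.absNorm 𝔫) (fun k : b.support => mixedEmbedding.norm (a₁ k : EE L) ^ df K L * (Ideal.absNorm v.asIdeal : ℝ) ^ (-pr b c (Sum.inr (k : ι)))) :=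
        hex0 _ fun k => mul_nonneg (Real.rpow_nonneg (mixedEmbedding.norm_nonneg _) _) (zpow_nonneg (Nat.cast_nonneg _) _)
      have hX' : 0 ≤ |C₂| * (1 + X) * (Ideal.absNorm v.asIdeal : ℝ) ^ (∑ β ∈ Pos b, pr b c (Sum.inr β)) := by positivity
      have hY' : 0 ≤ C₃ * (∫ y, ‖φ y‖ ^ 2 ∂μ) * dl a₁ / (Ideal.absNorm 𝔫 : ℝ) ^ (Pos b).card := by
        have := hdl0 a₁
        positivity
      have B1 : ENNReal.ofReal (∑ l, ‖c' l * t' l * WhH (HQ Q) ν D' θ (F l) x₁‖ ^ 2) * ν D' ≤ ENNReal.ofReal (|C₂| * (1 + X) * (Ideal.absNorm v.asIdeal : ℝ) ^ (∑ β ∈ Pos b, pr b c (Sum.inr β))) *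
          Jf (UHR (HQ Q)).subtype μ ν φ x₁ := by
        refine A1.trans (mul_le_mul_left (ENNReal.ofReal_le_ofReal ?_) _)
        refine mul_le_mul_of_nonneg_right ?_ hq
        refine (mul_le_mul_of_nonneg_right (le_abs_self C₂) (by linarith)).trans (mul_le_mul_of_nonneg_left (by linarith) (abs_nonneg _))
      have B2 : Jf (UHR (HQ Q)).subtype μ ν φ x₁ ≤ ENNReal.ofReal (C₃ * (∫ y, ‖φ y‖ ^ 2 ∂μ) * dl a₁ / (Ideal.absNorm 𝔫 : ℝ) ^ (Pos b).card) * ν D' := by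
        rw [hdl]
        exact A2
      have B3 := fv_enn (by rw [hvD]; exact pD) (by rw [hvD]; exact fD) hX' hY' B1 B2
      have e0 : dl a₁ = dl a * Real.exp (2 * ∑ k, dF (Fv k) * ∑ j, Y k j) := by
        rw [hdl]
        exact mod_many he (fun k => htr (Y k)) hn
      rw [e0] at B3
      refine le_trans (le_of_eq (Finset.sum_congr rfl fun l _ => ?_)) (B3.trans (le_of_eq ?_))
      · rw [norm_mul (c' l * t' l), mul_pow]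
        rfl
      · ring) g
  refine le_trans (le_of_eq (Finset.sum_congr rfl fun l _ => ?_)) (key.trans (le_of_eq ?_))
  · rw [norm_mul (c' l * t' l), mul_pow]
    rfl
  · rw [hdl]
    ring

end

end Pool.Agent.Lib.L8.QF
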