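import Pool.Agent.Lib.L8.QF.M3
import Pool.Agent.Lib.L8.FL.M5

/-!
# QF, file M4 (helper67): the exceptional terms
-/

namespace Pool.Agent.Lib.L8.QF

open MeasureTheory Matrix NumberField NumberField.InfinitePlace IsDedekindDomain Pool.Agent.Lib.H89N Pool.Agent.Lib.H33W Pool.Agent.Lib.H67G Pool.Agent.Lib.L1S Pool.Agent.Lib.L8.FL
open scoped ENNReal Pointwise

noncomputable section

set_option linter.unusedSectionVars false
set_option linter.unusedVariables false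

variable {ι M N : Type} [Fintype ι] [DecidableEq ι] [AddCommGroup M] [Module ℚ M] [AddCommGroup N] [Module ℚ N]
  {P : RootPairing ι ℚ M N} [P.IsCrystallographic] [P.IsReduced] [P.IsIrreducible] [P.IsRootSystem]
  {b : P.Base} {K L : Type} [Field K] [NumberField K] [Field L] [NumberField L] [Algebra K L]

/-- One exceptional term. -/
theorem q4_num {D : ℝ} (hD0 : 0 < D) {w : Equiv.Perm ι} {νw : ℝ} (hnu : 1 ≤ νw) {p : ℕ} {d : Fin p → ℝ} (hd : ∀ q, 0 ≤ d q) {Λ : Fin p → b.support → ℝ} (hΛ : ∀ q i, 0 ≤ al (cA b) i (Λ q)) {c : b.support → ℤ}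
    (hineqΛ : ∀ q, D * (∑ j ∈ Js b w⁻¹, Λ q j + ∑ j ∈ Js b w, Λ q j) ≤ 2 * (∑ k, Λ q k) * (∑ k, XW b w k + νw))
    (hineqc : D * (∑ j ∈ Js b w⁻¹, (c j : ℝ) + ∑ j ∈ Js b w, (c j : ℝ)) ≤ 2 * (∑ k, (c k : ℝ)) * (∑ k, XW b w k + νw))
    (hc : ∀ i : b.support, 0 ≤ pr b c (Sum.inr i)) {n q₀ : ℝ} (hn : 1 ≤ n) (hq : 1 ≤ q₀) {a : b.support → ℝ} (ha : ∀ k, n ≤ a k) {R : Fin p → ℝ} (hR : ∀ q, 0 ≤ R q)
    (hD : Real.exp (2 * ∑ q, d q * (R q * ∑ j, Λ q j)) * q₀ ^ (∑ β ∈ Pos b, pr b c (Sum.inr β)) ≤ n ^ D) {ε : ℝ} (h0 : 0 < ε) (h1 : ε ≤ 1 / 2)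
    {y : Fin p → b.support → ℝ} (hy : ∀ q, -(R q * (∑ j ∈ Js b w⁻¹, Λ q j + ∑ j ∈ Js b w, Λ q j)) ≤ ∑ j ∈ Js b w⁻¹, y q j + ∑ j ∈ Js b w, y q j) :
    n ^ (ε - νw) * ∏ k, (a k * Real.exp (∑ q, d q * al (cA b) k (y q)) * q₀ ^ (-pr b c (Sum.inr (k : ι)))) ^ (-((1 + ε) * XW b w k)) ≤
      Real.exp (6 * ε * ∑ q, d q * (R q * ∑ j, Λ q j)) * (q₀ ^ (∑ β ∈ Pos b, pr b c (Sum.inr β))) ^ (3 * ε) := by
  classical
  have n0 : 0 < n := by linarith
  have q0 : 0 < q₀ := by linarith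
  have a0 : ∀ k, 0 < a k := fun k => n0.trans_le (ha k)
  -- the coweight
  have hcR : ∀ i : b.support, al (cA b) i (fun j => (c j : ℝ)) = ((pr b c (Sum.inr (i : ι)) : ℤ) : ℝ) := fun i => by
    show ∑ k, ((b.cartanMatrix i k : ℤ) : ℝ) * (c k : ℝ) = ((∑ j : b.support, c j * P.pairingIn ℤ i j : ℤ) : ℝ)
    rw [Int.cast_sum]
    exact Finset.sum_congr rfl fun k _ => by
      rw [Int.cast_mul, mul_comm]
      rfl
  have hcd : ∀ i, 0 ≤ al (cA b) i (fun j => (c j : ℝ)) := fun i => by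
    rw [hcR i]
    exact_mod_cast hc i
  have hP : ((∑ β ∈ Pos b, pr b c (Sum.inr β) : ℤ) : ℝ) = 2 * ∑ j, (c j : ℝ) := by
    rw [← ig19b_sum, Int.cast_sum]
    refine Finset.sum_congr rfl fun β _ => ?_
    show ((∑ j : b.support, c j * P.pairingIn ℤ β j : ℤ) : ℝ) = ∑ j : b.support, ((P.pairingIn ℤ β j : ℤ) : ℝ) * (c j : ℝ)
    rw [Int.cast_sum]
    exact Finset.sum_congr rfl fun k _ => by
      rw [Int.cast_mul, mul_comm]
  -- sums
  have hS : ∀ Λ : b.support → ℝ, (∀ i, 0 ≤ al (cA b) i Λ) → 0 ≤ ∑ j ∈ Js b w⁻¹, Λ j + ∑ j ∈ Js b w, Λ j ∧ ∑ j ∈ Js b w⁻¹, Λ j + ∑ j ∈ Js b w, Λ j ≤ 2 * ∑ j, Λ j := fun Λ hΛ => by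
    have e1 : ∀ j, 0 ≤ Λ j := fun j => ig_dom hΛ j
    refine ⟨add_nonneg (Finset.sum_nonneg fun j _ => e1 j) (Finset.sum_nonneg fun j _ => e1 j), ?_⟩
    have e2 : ∀ S : Finset b.support, ∑ j ∈ S, Λ j ≤ ∑ j, Λ j := fun S => Finset.sum_le_univ_sum_of_nonneg e1
    linarith [e2 (Js b w⁻¹), e2 (Js b w)]
  obtain ⟨S, hSdef⟩ : ∃ S : (b.support → ℝ) → ℝ, S = fun Λ => ∑ j ∈ Js b w⁻¹, Λ j + ∑ j ∈ Js b w, Λ j := ⟨_, rfl⟩
  have hS' : ∀ Λ : b.support → ℝ, (∀ i, 0 ≤ al (cA b) i Λ) → 0 ≤ S Λ ∧ S Λ ≤ 2 * ∑ j, Λ j := by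
    rw [hSdef]
    exact hS
  have hineqΛ' : ∀ q, D * S (Λ q) ≤ 2 * (∑ k, Λ q k) * (∑ k, XW b w k + νw) := by
    rw [hSdef]
    exact hineqΛ
  have hineqc' : D * S (fun j => (c j : ℝ)) ≤ 2 * (∑ k, (c k : ℝ)) * (∑ k, XW b w k + νw) := by
    rw [hSdef]
    exact hineqc
  have hy' : ∀ q, -(R q * S (Λ q)) ≤ S (y q) := by
    rw [hSdef]
    exact hy
  have hxw : ∀ y : b.support → ℝ, ∑ k, XW b w k * al (cA b) k y = S y := by
    rw [hSdef]
    exact fun y => xw_al w y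
  obtain ⟨r, hr⟩ : ∃ r, r = ∑ k, XW b w k := ⟨_, rfl⟩
  have hr0 : 0 ≤ r := by rw [hr]; exact Finset.sum_nonneg fun k _ => xw_nonneg w k
  obtain ⟨l, hl⟩ : ∃ l, l = Real.log n := ⟨_, rfl⟩
  have hl0 : 0 ≤ l := by rw [hl]; exact Real.log_nonneg hn
  obtain ⟨g, hg⟩ : ∃ g, g = Real.log q₀ := ⟨_, rfl⟩
  have hg0 : 0 ≤ g := by rw [hg]; exact Real.log_nonneg hq
  obtain ⟨Z, hZ⟩ : ∃ Z, Z = ∑ q, d q * (R q * S (Λ q)) + g * S (fun j => (c j : ℝ)) := ⟨_, rfl⟩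
  have hZ0 : 0 ≤ Z := by
    rw [hZ]
    exact add_nonneg (Finset.sum_nonneg fun q _ => mul_nonneg (hd q) (mul_nonneg (hR q) (hS' _ (hΛ q)).1)) (mul_nonneg hg0 (hS' _ hcd).1)
  obtain ⟨A, hA⟩ : ∃ A, A = ∑ q, d q * (R q * ∑ j, Λ q j) := ⟨_, rfl⟩
  obtain ⟨P₀, hP₀⟩ : ∃ P₀ : ℝ, P₀ = ∑ j, (c j : ℝ) := ⟨_, rfl⟩
  -- the bound of Z
  have hZ1 : Z ≤ 2 * A + g * (2 * P₀) := by
    rw [hZ, hA, hP₀, Finset.mul_sum]
    refine add_le_add (Finset.sum_le_sum fun q _ => ?_) (mul_le_mul_of_nonneg_left (hS' _ hcd).2 hg0)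
    calc d q * (R q * S (Λ q)) ≤ d q * (R q * (2 * ∑ j, Λ q j)) := mul_le_mul_of_nonneg_left (mul_le_mul_of_nonneg_left (hS' _ (hΛ q)).2 (hR q)) (hd q)
      _ = _ := by ring
  have hdim : 2 * A + g * (2 * P₀) ≤ D * l := by
    have e1 := Real.log_le_log (mul_pos (Real.exp_pos _) (zpow_pos q0 _)) hD
    rw [Real.log_mul (Real.exp_pos _).ne' (zpow_pos q0 _).ne', Real.log_exp, Real.log_zpow, Real.log_rpow n0, hP, ← hA, ← hg, ← hl, ← hP₀] at e1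
    linarith
  have hDpos : (0 : ℝ) < D := hD0
  have hZ2 : Z ≤ (νw + r) * l := by
    have hs0 : 0 ≤ νw + r := by linarith
    have e1 : D * Z ≤ (2 * A + g * (2 * P₀)) * (νw + r) := by
      rw [hZ, hA, mul_add, add_mul, Finset.mul_sum, Finset.mul_sum, Finset.sum_mul]
      refine add_le_add (Finset.sum_le_sum fun q _ => ?_) ?_
      · have e2 := mul_le_mul_of_nonneg_left (hineqΛ' q) (mul_nonneg (hd q) (hR q))
        rw [← hr] at e2
        calc _ = d q * R q * (D * S (Λ q)) := by ring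
          _ ≤ _ := e2
          _ = _ := by ring
      · have e2 := mul_le_mul_of_nonneg_left hineqc' hg0
        rw [← hr, ← hP₀] at e2
        calc _ = g * (D * S (fun j => (c j : ℝ))) := by ring
          _ ≤ _ := e2
          _ = _ := by ring
    have e2 : D * Z ≤ D * ((νw + r) * l) := by
      refine e1.trans ((mul_le_mul_of_nonneg_right hdim hs0).trans (le_of_eq ?_))
      ring
    exact le_of_mul_le_mul_left e2 hDpos
  have hnum := m4_num h0 h1 hnu hr0 hl0 hZ0 hZ2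
  -- the term
  have hE : ∀ k, 0 < a k * Real.exp (∑ q, d q * al (cA b) k (y q)) * q₀ ^ (-pr b c (Sum.inr (k : ι))) := fun k => mul_pos (mul_pos (a0 k) (Real.exp_pos _)) (zpow_pos q0 _)
  have hlE : ∀ k, l + ∑ q, d q * al (cA b) k (y q) - g * al (cA b) k (fun j => (c j : ℝ)) ≤ Real.log (a k * Real.exp (∑ q, d q * al (cA b) k (y q)) * q₀ ^ (-pr b c (Sum.inr (k : ι)))) := fun k => by
    rw [Real.log_mul (mul_pos (a0 k) (Real.exp_pos _)).ne' (zpow_pos q0 _).ne', Real.log_mul (a0 k).ne' (Real.exp_pos _).ne', Real.log_exp, Real.log_zpow, hcR k, ← hg, Int.cast_neg]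
    have e1 : l ≤ Real.log (a k) := by
      rw [hl]
      exact Real.log_le_log n0 (ha k)
    linarith
  have hprod : ∏ k, (a k * Real.exp (∑ q, d q * al (cA b) k (y q)) * q₀ ^ (-pr b c (Sum.inr (k : ι)))) ^ (-((1 + ε) * XW b w k)) ≤ Real.exp (-(1 + ε) * (r * l - Z)) := by
    have e1 : ∀ k ∈ (Finset.univ : Finset b.support), (a k * Real.exp (∑ q, d q * al (cA b) k (y q)) * q₀ ^ (-pr b c (Sum.inr (k : ι)))) ^ (-((1 + ε) * XW b w k)) ≤
        Real.exp (-(1 + ε) * (XW b w k * (l + ∑ q, d q * al (cA b) k (y q) - g * al (cA b) k (fun j => (c j : ℝ))))) := fun k _ => by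
      rw [Real.rpow_def_of_pos (hE k)]
      refine Real.exp_le_exp.2 ?_
      have e2 : 0 ≤ (1 + ε) * XW b w k := mul_nonneg (by linarith) (xw_nonneg w k)
      have e3 := mul_le_mul_of_nonneg_left (hlE k) e2
      nlinarith
    refine (Finset.prod_le_prod (fun k _ => Real.rpow_nonneg (hE k).le _) e1).trans ?_
    rw [← Real.exp_sum]
    refine Real.exp_le_exp.2 ?_
    rw [← Finset.mul_sum]
    have e4 : ∑ k, XW b w k * (l + ∑ q, d q * al (cA b) k (y q) - g * al (cA b) k (fun j => (c j : ℝ))) = r * l + ∑ q, d q * S (y q) - g * S (fun j => (c j : ℝ)) := by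
      have e5 : ∀ k, XW b w k * (l + ∑ q, d q * al (cA b) k (y q) - g * al (cA b) k (fun j => (c j : ℝ))) =
          XW b w k * l + ∑ q, d q * (XW b w k * al (cA b) k (y q)) - g * (XW b w k * al (cA b) k (fun j => (c j : ℝ))) := fun k => by
        rw [mul_sub, mul_add, Finset.mul_sum]
        congr 1
        · congr 1
          exact Finset.sum_congr rfl fun q _ => by ring
        · ring
      rw [Finset.sum_congr rfl fun k _ => e5 k, Finset.sum_sub_distrib, Finset.sum_add_distrib, ← Finset.sum_mul, ← hr, ← Finset.mul_sum, hxw, Finset.sum_comm]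
      congr 2
      exact Finset.sum_congr rfl fun q _ => by rw [← Finset.mul_sum, hxw]
    rw [e4]
    have e6 : -∑ q, d q * (R q * S (Λ q)) ≤ ∑ q, d q * S (y q) := by
      rw [← Finset.sum_neg_distrib]
      refine Finset.sum_le_sum fun q _ => ?_
      have := mul_le_mul_of_nonneg_left (hy' q) (hd q)
      linarith
    have e7 : r * l - Z ≤ r * l + ∑ q, d q * S (y q) - g * S (fun j => (c j : ℝ)) := by
      rw [hZ]
      linarith
    nlinarith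
  have hn1 : n ^ (ε - νw) = Real.exp (l * (ε - νw)) := by rw [Real.rpow_def_of_pos n0, ← hl]
  have hfin : Real.exp (6 * ε * A) * (q₀ ^ (∑ β ∈ Pos b, pr b c (Sum.inr β))) ^ (3 * ε) = Real.exp (3 * ε * (2 * A + g * (2 * P₀))) := by
    rw [Real.rpow_def_of_pos (zpow_pos q0 _), Real.log_zpow, hP, ← hg, ← hP₀, ← Real.exp_add]
    congr 1
    ring
  rw [← hA, hfin, hn1]
  refine (mul_le_mul_of_nonneg_left hprod (Real.exp_pos _).le).trans ?_
  rw [← Real.exp_add]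
  refine Real.exp_le_exp.2 ?_
  have e8 : 3 * ε * Z ≤ 3 * ε * (2 * A + g * (2 * P₀)) := mul_le_mul_of_nonneg_left hZ1 (by linarith)
  nlinarith

end

end Pool.Agent.Lib.L8.QF
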