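import Pool.Agent.Lib.L8.QF.M5
import Pool.Agent.Lib.L8.QF.G0
import Pool.Agent.Lib.L8.FL.BG

/-!
# QF, N1 (helper21): the numbers of the quasi-split groups with `ν = rank`

`DimN b D`: twice the number for which the exponent `ν = rank` is sufficient (all sets `J`, so also all stable sets `J`): `A_1` 4, `A_2` 12, `A_3` 26, `A_4` 48, `A_n` (`n ≥ 5`) `3 n ^ 2`, `B_2` 18, the others as in `PX.Dim`.
-/

namespace Pool.Agent.Lib.L8.QF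

open Matrix Pool.Agent.Lib.L1S Pool.Agent.Lib.L8.FL Pool.Agent.Lib.L8.F7

noncomputable section

set_option linter.unusedSectionVars false
set_option linter.unusedVariables false

/-! ## 1. The small types -/

/-- The sums of the certificate for `A_1`, `A_2`, `A_3`, `A_4`. -/
theorem n1_int (n j : ℕ) (D : ℤ) (hn : (n = 1 ∧ D = 4) ∨ (n = 2 ∧ D = 12) ∨ (n = 3 ∧ D = 26) ∨ (n = 4 ∧ D = 48)) (hj : j < n) :
    ∑ i : Fin n, max (D * (ia_T n j (n - j) ((i : ℕ) + 1) : ℤ) - 2 * ((j + 1 : ℤ) * ((n - j : ℕ) : ℤ) * ((((i : ℕ) + 1 : ℕ) : ℤ) * (n + 1 - (((i : ℕ) + 1 : ℕ) : ℤ))))) 0 ≤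
      2 * (n * ((j + 1 : ℤ) * ((n - j : ℕ) : ℤ))) := by
  rcases hn with ⟨rfl, rfl⟩ | ⟨rfl, rfl⟩ | ⟨rfl, rfl⟩ | ⟨rfl, rfl⟩ <;> interval_cases j <;> decide

theorem n1_A {n : ℕ} {D : ℤ} (hn : (n = 1 ∧ D = 4) ∨ (n = 2 ∧ D = 12) ∨ (n = 3 ∧ D = 26) ∨ (n = 4 ∧ D = 48)) {c : Fin n → ℝ} (hc : ∀ i, pr (CartanMatrix.A n) c i = 2) {e : Fin n → ℝ} (he : Box (CartanMatrix.A n) e) (j : Fin n) :
    (D : ℝ) / 2 * (e j + e j.rev) ≤ c j * (2 * ∑ k, e k + n) := by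
  refine clA_gen (fun j b hb hb1 => ?_) hc he j
  have hb2 : b = n - j := by omega
  subst hb2
  have h1 := n1_int n j D hn (by omega)
  have h2 : ((∑ i : Fin n, max (D * (ia_T n j (n - j) ((i : ℕ) + 1) : ℤ) - 2 * ((j + 1 : ℤ) * ((n - j : ℕ) : ℤ) * ((((i : ℕ) + 1 : ℕ) : ℤ) * (n + 1 - (((i : ℕ) + 1 : ℕ) : ℤ))))) 0 : ℤ) : ℝ) ≤
      ((2 * (n * ((j + 1 : ℤ) * ((n - j : ℕ) : ℤ))) : ℤ) : ℝ) := by exact_mod_cast h1
  rw [Int.cast_sum] at h2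
  have h3 : ∀ i : Fin n, ((max (D * (ia_T n j (n - j) ((i : ℕ) + 1) : ℤ) - 2 * ((j + 1 : ℤ) * ((n - j : ℕ) : ℤ) * ((((i : ℕ) + 1 : ℕ) : ℤ) * (n + 1 - (((i : ℕ) + 1 : ℕ) : ℤ))))) 0 : ℤ) : ℝ) =
      2 * max ((D : ℝ) / 2 * (ia_T n j (n - j) ((i : ℕ) + 1) : ℝ) - ((j : ℝ) + 1) * ((n - j : ℕ) : ℝ) * ((((i : ℕ) + 1 : ℕ) : ℝ) * (n + 1 - (((i : ℕ) + 1 : ℕ) : ℝ)))) 0 := by
    intro i
    rw [Int.cast_max, Int.cast_zero, mul_max_of_nonneg _ _ (zero_le_two : (0 : ℝ) ≤ 2), mul_zero]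
    congr 1
    push_cast
    ring
  rw [Finset.sum_congr rfl fun i _ => h3 i, ← Finset.mul_sum] at h2
  push_cast at h2 ⊢
  linarith

theorem n1_B2 : Sq (CartanMatrix.B 2) 9 := by
  have hM : CartanMatrix.B 2 = !![2, -2; -1, 2] := by decide
  intro c hc e he j
  have a0 := hc 0
  have a1 := hc 1
  have b0 := he 0
  have b1 := he 1
  simp [F7.pr, hM, Fin.sum_univ_succ] at a0 a1 b0 b1
  obtain ⟨p0, q0⟩ := b0
  obtain ⟨p1, q1⟩ := b1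
  have c0 : c 0 = 3 := by linarith
  have c1 : c 1 = 4 := by linarith
  fin_cases j <;> simp [Fin.sum_univ_succ, c0, c1] <;> linarith

variable {ι M N : Type} [Fintype ι] [DecidableEq ι] [AddCommGroup M] [Module ℚ M] [AddCommGroup N] [Module ℚ N]
  {P : RootPairing ι ℚ M N} [P.IsCrystallographic] [P.IsReduced] [P.IsIrreducible] [P.IsRootSystem] {b : P.Base}

/-- Type `A_1`. -/
theorem ci_A1 (h0 : Typ b (CartanMatrix.A 1)) : CI b 2 := by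
  intro σ w h E E' hE hE' hs j
  obtain ⟨e, he⟩ := h0
  have h1 := n1_A (n := 1) (D := 4) (Or.inl ⟨rfl, rfl⟩) (pr_cI e he) (box_of e he hE) (e j)
  have hrev : (e j).rev = e j := Subsingleton.elim _ _
  rw [hrev] at h1
  simp only [Equiv.symm_apply_apply] at h1
  rw [Equiv.sum_comp e.symm E] at h1
  have hσ : ∀ k, σ k = k := fun k => e.injective (Subsingleton.elim _ _)
  have h5 : ∀ k, E' k = E k := fun k => by
    have := hs k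
    rwa [hσ] at this
  rw [h5 j, Finset.sum_congr rfl fun k _ => h5 k, card_of e]
  push_cast at h1 ⊢
  linarith

theorem ci_An {n : ℕ} {D : ℕ} (hn : (n = 1 ∧ D = 4) ∨ (n = 2 ∧ D = 12) ∨ (n = 3 ∧ D = 26) ∨ (n = 4 ∧ D = 48)) (h : Typ b (CartanMatrix.A n)) : CI b ((D : ℝ) / 2) := by
  rcases Nat.lt_or_ge n 2 with h2 | h2
  · have hn1 : n = 1 := by omega
    subst hn1
    have hD : D = 4 := by omega
    subst hD
    have e : ((4 : ℕ) : ℝ) / 2 = 2 := by norm_num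
    rw [e]
    exact ci_A1 h
  · refine ci_A h2 h fun {c} hc {e} he j => ?_
    have h1 := n1_A (n := n) (D := (D : ℤ)) (by omega) hc he j
    rwa [Int.cast_natCast] at h1

/-- Twice the numbers for `ν = rank`. -/
def DimN (b : P.Base) (D : ℕ) : Prop :=
  (∃ n : ℕ, (n = 1 ∧ Typ b (CartanMatrix.A n) ∧ D = 4) ∨ (n = 2 ∧ Typ b (CartanMatrix.A n) ∧ D = 12) ∨ (n = 3 ∧ Typ b (CartanMatrix.A n) ∧ D = 26) ∨ (n = 4 ∧ Typ b (CartanMatrix.A n) ∧ D = 48) ∨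
    (n = 2 ∧ Typ b (CartanMatrix.B n) ∧ D = 18)) ∨ BigD b D

theorem ci_dimN {D : ℕ} (h : DimN b D) : CI b ((D : ℝ) / 2) := by
  rcases h with ⟨n, ⟨rfl, h, rfl⟩ | ⟨rfl, h, rfl⟩ | ⟨rfl, h, rfl⟩ | ⟨rfl, h, rfl⟩ | ⟨rfl, h, rfl⟩⟩ | h
  · exact ci_An (Or.inl ⟨rfl, rfl⟩) h
  · exact ci_An (Or.inr (Or.inl ⟨rfl, rfl⟩)) h
  · exact ci_An (Or.inr (Or.inr (Or.inl ⟨rfl, rfl⟩))) h
  · exact ci_An (Or.inr (Or.inr (Or.inr ⟨rfl, rfl⟩))) h
  · have e : ((18 : ℕ) : ℝ) / 2 = 9 := by norm_num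
    rw [e]
    exact ci_sq h n1_B2
  · exact ci_big h

/-! ## 2. The inequality for the relevant cells -/

variable {K L : Type} [Field K] [NumberField K] [Field L] [NumberField L] [Algebra K L]

theorem ineqQ_of (Q : QS b K L) {D : ℝ} {nu : Equiv.Perm ι → ℝ} (h : IneqR b D nu) : IneqQ Q D nu := fun w hw => ⟨(h w (isCQ_isC hw)).1, fun Λ hΛ _ => (h w (isCQ_isC hw)).2 Λ hΛ⟩

/-- **The numbers of the quasi-split groups**, `ν = rank`. -/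
theorem ineqQ_dimN (Q : QS b K L) {D : ℕ} (h : DimN b D) : IneqQ Q ((D : ℝ) / 2) (fun _ => (Fintype.card b.support : ℝ)) := ineqQ_of Q (ineqR_ci (ci_dimN h))

/-- `ν = rank ≥ 1`. -/
theorem one_le_rank (b : P.Base) : (1 : ℝ) ≤ (Fintype.card b.support : ℝ) := by
  obtain ⟨θ, hθ⟩ := FC.exists_full b
  have h2 : ∃ k : b.support, True := by
    rcases em (b.IsPos θ) with h1 | h1
    · obtain ⟨k, -⟩ := FC.exists_mc_pos b h1
      exact ⟨k, trivial⟩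
    · obtain ⟨k, -⟩ := FC.exists_mc_pos b ((FC.fc_ng_pos b θ).2 h1)
      exact ⟨k, trivial⟩
  obtain ⟨k, -⟩ := h2
  have : 0 < Fintype.card b.support := Fintype.card_pos_iff.2 ⟨k⟩
  exact_mod_cast this

end

end Pool.Agent.Lib.L8.QF
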