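import Pool.Agent.Lib.L8.QF.N1
import Pool.Agent.Lib.L8.QF.W6Q
import Pool.Agent.Lib.L8.QF.KR
import Pool.Agent.Lib.L8.FN.BS

/-!
# QF, N2 (helper21): exponents of the quasi-split groups: `gain + κ`

`KRQ`, `kapW`: helper76's KR.lean; `kapW Q w ≥ 1` for the relevant `w`; the inequality for the exponents `nuN Q w = gN b + kapW Q w` (`gN b = rank`, and `3` for `A_2`).
-/

namespace Pool.Agent.Lib.L8.QF

open Matrix Pool.Agent.Lib.L1S Pool.Agent.Lib.L8.FL Pool.Agent.Lib.L8.F7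

noncomputable section

set_option linter.unusedSectionVars false
set_option linter.unusedVariables false

variable {ι M N : Type} [Fintype ι] [DecidableEq ι] [AddCommGroup M] [Module ℚ M] [AddCommGroup N] [Module ℚ N]
  {P : RootPairing ι ℚ M N} [P.IsCrystallographic] [P.IsReduced] [P.IsIrreducible] [P.IsRootSystem] {b : P.Base}
  {K L : Type} [Field K] [NumberField K] [Field L] [NumberField L] [Algebra K L]

/-! ## 1. The torus part -/

theorem krq_orb (Q : QS b K L) {i j : b.support} : j ∈ orb Q i ↔ ∃ s, (Q.da s).sp i = j := by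
  unfold orb
  rw [Finset.mem_filter]
  exact and_iff_right (Finset.mem_univ _)

theorem krq_orb_self (Q : QS b K L) (i : b.support) : i ∈ orb Q i := (krq_orb Q).2 ⟨1, by
  apply Subtype.ext
  show Q.act 1 (i : ι) = i
  rw [map_one]
  rfl⟩

theorem krq_orb_sp (Q : QS b K L) (s : L ≃ₐ[K] L) {i j : b.support} : (Q.da s).sp j ∈ orb Q i ↔ j ∈ orb Q i := by
  rw [krq_orb, krq_orb]
  constructor
  · rintro ⟨t, ht⟩
    refine ⟨s⁻¹ * t, ?_⟩
    rw [sp_mul, ht, sp_cancel]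
  · rintro ⟨t, ht⟩
    exact ⟨s * t, by rw [sp_mul, ht]⟩

/-- The entries of an element which commutes with the Galois group. -/
theorem pK_sp {Q : QS b K L} {J : Finset b.support} (hJ : InvJ Q J) {w : Equiv.Perm ι} (hw : IsWJ b J w) (s : L ≃ₐ[K] L) (k i : b.support) : pK b w ((Q.da s).sp k) ((Q.da s).sp i) = pK b w k i := by
  have h1 := isWJ_comm hJ hw s
  have h2 : w⁻¹ (Q.act s (k : ι)) = Q.act s (w⁻¹ (k : ι)) := by
    have h4 : Q.act s * w = w * Q.act s := mul_inv_eq_iff_eq_mul.1 h1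
    have h5 : w⁻¹ * Q.act s = Q.act s * w⁻¹ := by
      calc w⁻¹ * Q.act s = w⁻¹ * (Q.act s * w) * w⁻¹ := by group
        _ = w⁻¹ * (w * Q.act s) * w⁻¹ := by rw [h4]
        _ = Q.act s * w⁻¹ := by group
    exact Equiv.congr_fun h5 (k : ι)
  show P.pairingIn ℤ (Q.act s (k : ι)) (Q.act s (i : ι)) - P.pairingIn ℤ (w⁻¹ (Q.act s (k : ι))) (Q.act s (i : ι)) = P.pairingIn ℤ (k : ι) (i : ι) - P.pairingIn ℤ (w⁻¹ (k : ι)) (i : ι)
  rw [h2, (Q.da s).pair, (Q.da s).pair]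

theorem isWJ_one (b : P.Base) : IsWJ b (∅ : Finset b.support) (1 : Equiv.Perm ι) := by
  refine ⟨FC.wW_mem b [], fun β hβ => ?_⟩
  refine ⟨fun _ => ?_, fun _ => hβ⟩
  unfold dJ
  exact Finset.sum_empty

/-- **`κ ≥ 1`** for the relevant elements. -/
theorem krq_one {Q : QS b K L} {w : Equiv.Perm ι} (hC : IsCQ Q w) : KRQ Q w 1 := by
  by_contra hno
  obtain ⟨J, hJne, hJ, hw⟩ := hC
  have hz : ∀ k i : b.support, ∑ j ∈ orb Q i, pK b w k j = 0 := by
    intro k i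
    by_contra h
    refine hno ⟨fun _ => k, fun _ => i, ?_⟩
    rw [Matrix.det_fin_one]
    exact h
  -- a simple root with negative image
  have hJs : (Js b w).Nonempty := by
    rw [Finset.nonempty_iff_ne_empty]
    intro he
    obtain ⟨j, hj⟩ := hJne
    have h1 := FC.Js_inv hw
    have h2 := FC.isWJ_inv hw
    rw [he] at h2
    have h3 : w⁻¹ = 1 := FC.isWJ_unique h2 (isWJ_one b)
    have h4 : j ∈ Js b w⁻¹ := by rw [h1]; exact hj
    rw [FC.mem_Js, inv_inv] at h4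
    have h5 : w = 1 := by rw [← inv_inv w, h3, inv_one]
    rw [h5] at h4
    exact h4 (b.isPos_of_mem_support j.2)
  obtain ⟨g, hg⟩ := hJs
  have hJsI := invJ_Js hJ hw
  -- the sum over the orbit of `g`
  have hG : ∀ (s : L ≃ₐ[K] L) (j : b.support), ∑ k ∈ orb Q g, pK b w k ((Q.da s).sp j) = ∑ k ∈ orb Q g, pK b w k j := by
    intro s j
    refine (Finset.sum_equiv (Q.da s).sp (fun k => (krq_orb_sp Q s).symm) (fun k _ => ?_)).symm
    exact (pK_sp hJ hw s k j).symm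
  have hG0 : ∀ i, ∑ k ∈ orb Q g, pK b w k i = 0 := by
    intro i
    have h1 : ∑ j ∈ orb Q i, ∑ k ∈ orb Q g, pK b w k j = 0 := by
      rw [Finset.sum_comm]
      exact Finset.sum_eq_zero fun k _ => hz k i
    have h2 : ∑ j ∈ orb Q i, ∑ k ∈ orb Q g, pK b w k j = ∑ j ∈ orb Q i, ∑ k ∈ orb Q g, pK b w k i := by
      refine Finset.sum_congr rfl fun j hj => ?_
      obtain ⟨s, rfl⟩ := (krq_orb Q).1 hj
      exact hG s i
    rw [h2, Finset.sum_const, smul_eq_zero] at h1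
    rcases h1 with h1 | h1
    · exact absurd (krq_orb_self Q i) (by rw [Finset.card_eq_zero.1 h1]; exact Finset.notMem_empty _)
    · exact h1
  -- the coordinates
  let x : b.support → ℤ := fun m => ∑ k ∈ orb Q g, (mc b m (Sum.inr (k : ι)) - mc b m (Sum.inr (w⁻¹ (k : ι))))
  have hx : ∀ i, ∑ m, x m * b.cartanMatrix m i = 0 := by
    intro i
    rw [← hG0 i]
    simp only [x]
    simp_rw [Finset.sum_mul]
    rw [Finset.sum_comm]
    refine Finset.sum_congr rfl fun k _ => ?_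
    show _ = P.pairingIn ℤ (k : ι) (i : ι) - P.pairingIn ℤ (w⁻¹ (k : ι)) (i : ι)
    rw [FC.pairing_sum, FC.pairing_sum, ← Finset.sum_sub_distrib]
    exact Finset.sum_congr rfl fun m _ => by ring
  have hx0 : (fun m => (x m : ℝ)) = fun _ => 0 := by
    refine FC.xe_inj b fun i => ?_
    unfold xe
    have h1 := hx i
    have h2 : ((∑ m, x m * b.cartanMatrix m i : ℤ) : ℝ) = 0 := by rw [h1]; simp
    push_cast at h2
    rw [h2]
    simp
  have hxg : (x g : ℝ) = 0 := congrFun hx0 g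
  have hxg' : x g = 0 := by exact_mod_cast hxg
  have hneg : ∀ k ∈ orb Q g, mc b g (Sum.inr (w⁻¹ (k : ι))) ≤ 0 := by
    intro k hk
    obtain ⟨s, rfl⟩ := (krq_orb Q).1 hk
    have h1 := (hJsI s g).2 hg
    rw [FC.mem_Js] at h1
    exact FC.mc_neg b h1 g
  have hpos : ∀ k ∈ orb Q g, 0 ≤ mc b g (Sum.inr (k : ι)) - mc b g (Sum.inr (w⁻¹ (k : ι))) := by
    intro k hk
    have h1 := hneg k hk
    have h2 : 0 ≤ mc b g (Sum.inr (k : ι)) := by
      rw [FC.mc_simple]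
      split_ifs <;> norm_num
    omega
  have h1 : mc b g (Sum.inr (g : ι)) - mc b g (Sum.inr (w⁻¹ (g : ι))) ≤ x g := Finset.single_le_sum hpos (krq_orb_self Q g)
  have h2 := hneg g (krq_orb_self Q g)
  rw [FC.mc_simple, if_pos rfl] at h1
  omega

theorem one_le_kapW {Q : QS b K L} {w : Equiv.Perm ι} (hC : IsCQ Q w) : 1 ≤ kapW Q w := le_kapW (krq_one hC)

/-! ## 2. Transfer to coordinates -/

section coord

variable {n : ℕ} {A : Matrix (Fin n) (Fin n) ℤ}

/-- A minor from a word. -/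
theorem krq_c {Q : QS b K L} (e : b.support ≃ Fin n) (he : ∀ i j : b.support, P.pairingIn ℤ i j = A (e i) (e j)) {l : List (Fin n)} {O : Fin n → Finset (Fin n)} (hO : ∀ i, (orb Q (e.symm i)).map e.toEmbedding = O i) {r : ℕ}
    (g f : Fin r → Fin n) (h : (Matrix.of fun a c : Fin r => ∑ j ∈ O (f c), FN.pKc A l (g a) j).det ≠ 0) : KRQ Q (FL.wW b (l.map e.symm)) r := by
  refine ⟨fun a => e.symm (g a), fun a => e.symm (f a), ?_⟩
  have h1 : (Matrix.of fun a c : Fin r => pQ Q (FL.wW b (l.map e.symm)) (e.symm (g a)) (e.symm (f c))) = Matrix.of fun a c : Fin r => ∑ j ∈ O (f c), FN.pKc A l (g a) j := by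
    ext a c
    show ∑ j ∈ orb Q (e.symm (f c)), pK b (FL.wW b (l.map e.symm)) (e.symm (g a)) j = ∑ j ∈ O (f c), FN.pKc A l (g a) j
    rw [← hO, Finset.sum_map]
    refine Finset.sum_congr rfl fun j _ => ?_
    have h2 := FN.pK_c e he l (g a) (e j)
    rw [Equiv.symm_apply_apply] at h2
    exact h2
  rw [h1]
  exact h

/-- The transported permutation. -/
theorem sg_pres (Q : QS b K L) (e : b.support ≃ Fin n) (he : ∀ i j : b.support, P.pairingIn ℤ i j = A (e i) (e j)) (s : L ≃ₐ[K] L) (i j : Fin n) :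
    A ((e.symm.trans ((Q.da s).sp.trans e)) i) ((e.symm.trans ((Q.da s).sp.trans e)) j) = A i j := by
  show A (e ((Q.da s).sp (e.symm i))) (e ((Q.da s).sp (e.symm j))) = A i j
  rw [← he]
  have h1 : P.pairingIn ℤ ((Q.da s).sp (e.symm i) : ι) ((Q.da s).sp (e.symm j) : ι) = P.pairingIn ℤ (e.symm i : ι) (e.symm j : ι) := (Q.da s).pair _ _
  rw [h1, he, Equiv.apply_symm_apply, Equiv.apply_symm_apply]

/-- The orbits, if the only automorphism of the diagram is the reversal. -/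
theorem orb_map {Q : QS b K L} (hq : ∃ s i, (Q.da s).sp i ≠ i) (e : b.support ≃ Fin n) (he : ∀ i j : b.support, P.pairingIn ℤ i j = A (e i) (e j))
    (hA : ∀ σ : Equiv.Perm (Fin n), (∀ i j, A (σ i) (σ j) = A i j) → σ = 1 ∨ σ = Fin.revPerm) (i : Fin n) : (orb Q (e.symm i)).map e.toEmbedding = {i, i.rev} := by
  obtain ⟨s, j, hs⟩ := hq
  have h1 : ∀ t, e.symm.trans ((Q.da t).sp.trans e) = 1 ∨ e.symm.trans ((Q.da t).sp.trans e) = Fin.revPerm := fun t => hA _ (sg_pres Q e he t)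
  have hsr : e.symm.trans ((Q.da s).sp.trans e) = Fin.revPerm := by
    rcases h1 s with h | h
    · exfalso
      apply hs
      have h2 := Equiv.congr_fun h (e j)
      have h3 : e ((Q.da s).sp (e.symm (e j))) = e j := h2
      rw [Equiv.symm_apply_apply] at h3
      exact e.injective h3
    · exact h
  ext k
  rw [Finset.mem_map_equiv, krq_orb, Finset.mem_insert, Finset.mem_singleton]
  constructor
  · rintro ⟨t, ht⟩
    have h4 : e ((Q.da t).sp (e.symm i)) = k := by rw [ht, Equiv.apply_symm_apply]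
    rcases h1 t with h | h
    · left
      have h2 : e ((Q.da t).sp (e.symm i)) = i := Equiv.congr_fun h i
      rw [← h4, h2]
    · right
      have h2 : e ((Q.da t).sp (e.symm i)) = i.rev := Equiv.congr_fun h i
      rw [← h4, h2]
  · rintro (rfl | rfl)
    · refine ⟨1, ?_⟩
      apply Subtype.ext
      show Q.act 1 ((e.symm k : b.support) : ι) = (e.symm k : b.support)
      rw [map_one]
      rfl
    · refine ⟨s, ?_⟩
      have h2 : e ((Q.da s).sp (e.symm i)) = i.rev := Equiv.congr_fun hsr i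
      rw [← h2, Equiv.symm_apply_apply]

/-- The stable sets. -/
theorem stab_map {Q : QS b K L} (hq : ∃ s i, (Q.da s).sp i ≠ i) (e : b.support ≃ Fin n) (he : ∀ i j : b.support, P.pairingIn ℤ i j = A (e i) (e j))
    (hA : ∀ σ : Equiv.Perm (Fin n), (∀ i j, A (σ i) (σ j) = A i j) → σ = 1 ∨ σ = Fin.revPerm) {J : Finset b.support} (hJ : InvJ Q J) (i : Fin n) (hi : i ∈ J.map e.toEmbedding) : i.rev ∈ J.map e.toEmbedding := by
  have h1 := orb_map hq e he hA i
  rw [Finset.mem_map_equiv] at hi ⊢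
  have h2 : i.rev ∈ (orb Q (e.symm i)).map e.toEmbedding := by
    rw [h1]
    exact Finset.mem_insert_of_mem (Finset.mem_singleton_self _)
  rw [Finset.mem_map_equiv, krq_orb] at h2
  obtain ⟨t, ht⟩ := h2
  rw [← ht]
  exact (hJ t _).2 hi

end coord

/-! ## 3. The inequality from exponents -/

/-- The inequality for the relevant cells. -/
theorem ineqQ_B_of {Q : QS b K L} {D : ℝ} {nu : Equiv.Perm ι → ℝ} (h1 : ∀ w, IsCQ Q w → 1 ≤ nu w) (h : ∀ J : Finset b.support, J.Nonempty → InvJ Q J → ∀ w, IsWJ b J w → ∃ ν : ℝ, ν ≤ nu w ∧ FN.InJ b D ν J w) : IneqQ Q D nu := by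
  rintro w ⟨J, hJ, hQ, hw⟩
  obtain ⟨ν, h2, h3⟩ := h J hJ hQ w hw
  refine ⟨h1 w ⟨J, hJ, hQ, hw⟩, fun Λ hΛ _ => ?_⟩
  rw [sum_xw, FC.Js_inv hw]
  exact FN.inJ_mono h2 h3 Λ hΛ

open scoped Classical in
/-- The gain of the finite part: `rank`, `3` for `A_2`. -/
def gN (b : P.Base) : ℕ := if Typ b (CartanMatrix.A 2) then 3 else Fintype.card b.support

/-- **The exponents** of the quasi-split groups. -/
def nuN (Q : QS b K L) (w : Equiv.Perm ι) : ℝ := (gN b : ℝ) + (kapW Q w : ℝ)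

theorem rank_le_gN (b : P.Base) : Fintype.card b.support ≤ gN b := by
  unfold gN
  split_ifs with h
  · rw [typ_card h]
    norm_num
  · exact le_rfl

theorem rank1_nuN {Q : QS b K L} {w : Equiv.Perm ι} (hC : IsCQ Q w) : (Fintype.card b.support : ℝ) + 1 ≤ nuN Q w := by
  have h1 : (Fintype.card b.support : ℝ) ≤ (gN b : ℝ) := by exact_mod_cast rank_le_gN b
  have h2 : (1 : ℝ) ≤ (kapW Q w : ℝ) := by exact_mod_cast one_le_kapW hC
  unfold nuN
  linarith

theorem one_le_nuN {Q : QS b K L} {w : Equiv.Perm ι} (hC : IsCQ Q w) : 1 ≤ nuN Q w := by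
  have h1 := rank1_nuN hC
  have h0 : (0 : ℝ) ≤ (Fintype.card b.support : ℝ) := Nat.cast_nonneg _
  linarith

theorem le_nuN {Q : QS b K L} {w : Equiv.Perm ι} {r : ℕ} (h : KRQ Q w r) : ((gN b + r : ℕ) : ℝ) ≤ nuN Q w := by
  have h2 : (r : ℝ) ≤ (kapW Q w : ℝ) := by exact_mod_cast le_kapW h
  unfold nuN
  push_cast
  linarith

/-- The inequality with `rank + 1`. -/
theorem ineqQ_ci1 {Q : QS b K L} {D : ℝ} (h : CI1 b D) : IneqQ Q D (nuN Q) :=
  ineqQ_B_of (fun _ hw => one_le_nuN hw) fun _ hJ hQ _ hw => ⟨_, rank1_nuN ⟨_, hJ, hQ, hw⟩, FN.inJ_ci1 h hw⟩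

/-! ## 4. The small types -/

theorem aut_A (n : ℕ) : ∀ σ : Equiv.Perm (Fin n), (∀ i j, CartanMatrix.A n (σ i) (σ j) = CartanMatrix.A n i j) → σ = 1 ∨ σ = Fin.revPerm := by
  intro σ h
  rcases aut_path σ h with h | h
  · exact Or.inl (Equiv.ext h)
  · exact Or.inr (Equiv.ext h)

theorem sqT_A2 : FN.SqT (CartanMatrix.A 2) Fin.rev 8 4 {0, 1} := by
  rw [FC.matA2]
  intro c hc e he k
  have c0 := hc 0
  have c1 := hc 1
  have e0 := he 0
  have e1 := he 1
  simp [F7.pr, Fin.sum_univ_succ] at c0 c1 e0 e1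
  rw [Fin.sum_univ_two]
  have hc0 : c 0 = 2 := by linarith
  have hc1 : c 1 = 2 := by linarith
  have he0 : e 0 = 1 := by linarith
  have he1 : e 1 = 1 := by linarith
  have r0 : Fin.rev (0 : Fin 2) = 1 := by decide
  have r1 : Fin.rev (1 : Fin 2) = 0 := by decide
  fin_cases k
  · show 8 * (e 0 + e (Fin.rev 0)) ≤ c 0 * _
    rw [r0, hc0, he0, he1]
    norm_num
  · show 8 * (e 1 + e (Fin.rev 1)) ≤ c 1 * _
    rw [r1, hc1, he0, he1]
    norm_num

theorem sqT_A3 {S : Finset (Fin 3)} {ν x y z : ℝ} (hx : 2 * x - y = if (0 : Fin 3) ∈ S then 1 else 0) (hy : - x + 2 * y - z = if (1 : Fin 3) ∈ S then 1 else 0) (hz : - y + 2 * z = if (2 : Fin 3) ∈ S then 1 else 0)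
    (h0 : 15 * (x + z) ≤ 3 * (2 * (x + y + z) + ν)) (h1 : 30 * y ≤ 4 * (2 * (x + y + z) + ν)) : FN.SqT (CartanMatrix.A 3) Fin.rev 15 ν S := by
  rw [FC.matA3]
  intro c hc e he k
  have c0 := hc 0
  have c1 := hc 1
  have c2 := hc 2
  have e0 := he 0
  have e1 := he 1
  have e2 := he 2
  rw [← hx] at e0
  rw [← hy] at e1
  rw [← hz] at e2
  simp [F7.pr, Fin.sum_univ_succ] at c0 c1 c2 e0 e1 e2
  rw [Fin.sum_univ_three]
  have hc0 : c 0 = 3 := by linarith
  have hc1 : c 1 = 4 := by linarith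
  have hc2 : c 2 = 3 := by linarith
  have he0 : e 0 = x := by linarith
  have he1 : e 1 = y := by linarith
  have he2 : e 2 = z := by linarith
  have r0 : Fin.rev (0 : Fin 3) = 2 := by decide
  have r1 : Fin.rev (1 : Fin 3) = 1 := by decide
  have r2 : Fin.rev (2 : Fin 3) = 0 := by decide
  fin_cases k
  · show 15 * (e 0 + e (Fin.rev 0)) ≤ c 0 * _
    rw [r0, hc0, he0, he1, he2]
    exact h0
  · show 15 * (e 1 + e (Fin.rev 1)) ≤ c 1 * _
    rw [r1, hc1, he0, he1, he2]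
    linarith
  · show 15 * (e 2 + e (Fin.rev 2)) ≤ c 2 * _
    rw [r2, hc2, he0, he1, he2]
    linarith

/-- Type `A_2`: `D / 2 = 8`, `ν = 3 + 1`. -/
theorem ineqQ_A2 {Q : QS b K L} (hq : ∃ s i, (Q.da s).sp i ≠ i) (h : Typ b (CartanMatrix.A 2)) : IneqQ Q 8 (nuN Q) := by
  have hg : gN b = 3 := if_pos h
  obtain ⟨e, he⟩ := h
  refine ineqQ_B_of (fun _ hw => one_le_nuN hw) fun J hJ hQ w hw => ⟨4, ?_, ?_⟩
  · have h1 := le_nuN (krq_one ⟨J, hJ, hQ, hw⟩)
    rw [hg] at h1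
    norm_num at h1
    exact h1
  · have h2 : J.map e.toEmbedding = {0, 1} := by
      have h3 : ∀ S : Finset (Fin 2), S.Nonempty → (∀ i ∈ S, i.rev ∈ S) → S = {0, 1} := by decide +kernel
      exact h3 _ (Finset.map_nonempty.2 hJ) fun i hi => stab_map hq e he (aut_A 2) hQ i hi
    refine FN.inJ_star e he (τ := Fin.rev) (fun σ w₀ hop i => star_A le_rfl e he hop i) Fin.rev_rev hw ?_
    rw [h2]
    exact sqT_A2

/-- Type `A_3`: `D / 2 = 15`. -/
theorem ineqQ_A3 {Q : QS b K L} (hq : ∃ s i, (Q.da s).sp i ≠ i) (h : Typ b (CartanMatrix.A 3)) : IneqQ Q 15 (nuN Q) := by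
  have hcard := typ_card h
  obtain ⟨e, he⟩ := h
  refine ineqQ_B_of (fun _ hw => one_le_nuN hw) fun J hJ hQ w hw => ?_
  have hr := rank1_nuN ⟨J, hJ, hQ, hw⟩
  rw [hcard] at hr
  have h3 : ∀ S : Finset (Fin 3), S.Nonempty → (∀ i ∈ S, i.rev ∈ S) → S = {1} ∨ S = {0, 2} ∨ S = {0, 1, 2} := by decide +kernel
  have hT : ∀ {ν : ℝ}, FN.SqT (CartanMatrix.A 3) Fin.rev 15 ν (J.map e.toEmbedding) → FN.InJ b 15 ν J w := fun h =>
    FN.inJ_star e he (τ := Fin.rev) (fun σ w₀ hop i => star_A (by norm_num) e he hop i) Fin.rev_rev hw h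
  rcases h3 _ (Finset.map_nonempty.2 hJ) fun i hi => stab_map hq e he (aut_A 3) hQ i hi with h2 | h2 | h2
  · refine ⟨4, ?_, hT ?_⟩
    · norm_num at hr ⊢
      exact hr
    · rw [h2]
      refine sqT_A3 (x := 1 / 2) (y := 1) (z := 1 / 2) ?_ ?_ ?_ ?_ ?_ <;> (try simp) <;> norm_num
  · refine ⟨4, ?_, hT ?_⟩
    · norm_num at hr ⊢
      exact hr
    · rw [h2]
      refine sqT_A3 (x := 1) (y := 1) (z := 1) ?_ ?_ ?_ ?_ ?_ <;> (try simp) <;> norm_num
  · refine ⟨5, ?_, hT ?_⟩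
    · have hc : FC.certc (CartanMatrix.A 3) [0, 1, 2, 0, 1, 0] {0, 1, 2} {0, 1, 2} := by decide +kernel
      have h4 := FC.cert_IsWJ e he hc
      have h5 : J = Finset.map e.symm.toEmbedding {0, 1, 2} := by
        rw [← h2, Finset.map_map]
        ext x
        simp
      rw [← h5] at h4
      have h6 := FC.isWJ_unique hw h4
      have h7 : KRQ Q w 2 := by
        rw [h6]
        exact krq_c e he (orb_map hq e he (aut_A 3)) ![0, 1] ![0, 1] (by decide +kernel)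
      have h8 := le_nuN h7
      have h9 : 3 ≤ gN b := by
        have := rank_le_gN b
        rw [hcard] at this
        exact this
      have h10 : (3 : ℝ) ≤ (gN b : ℝ) := by exact_mod_cast h9
      push_cast at h8
      linarith
    · rw [h2]
      refine sqT_A3 (x := 3 / 2) (y := 2) (z := 3 / 2) ?_ ?_ ?_ ?_ ?_ <;> (try simp) <;> norm_num

/-- The inequality of type `A` with `rank + 1` from integer sums. -/
theorem cmA_ofInt {n : ℕ} {D : ℤ} (h : ∀ j < n, ∑ i : Fin n, max (D * (ia_T n j (n - j) ((i : ℕ) + 1) : ℤ) - 2 * ((j + 1 : ℤ) * ((n - j : ℕ) : ℤ) * ((((i : ℕ) + 1 : ℕ) : ℤ) * (n + 1 - (((i : ℕ) + 1 : ℕ) : ℤ))))) 0 ≤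
    2 * ((n + 1) * ((j + 1 : ℤ) * ((n - j : ℕ) : ℤ)))) {c : Fin n → ℝ} (hc : ∀ i, pr (CartanMatrix.A n) c i = 2) {e : Fin n → ℝ} (he : Box (CartanMatrix.A n) e) (j : Fin n) :
    (D : ℝ) / 2 * (e j + e j.rev) ≤ c j * (2 * ∑ k, e k + ((n : ℝ) + 1)) := by
  refine cmA_gen (fun j b hb hb1 => ?_) hc he j
  have hb2 : b = n - j := by omega
  subst hb2
  have h1 := h j (by omega)
  have h2 : ((∑ i : Fin n, max (D * (ia_T n j (n - j) ((i : ℕ) + 1) : ℤ) - 2 * ((j + 1 : ℤ) * ((n - j : ℕ) : ℤ) * ((((i : ℕ) + 1 : ℕ) : ℤ) * (n + 1 - (((i : ℕ) + 1 : ℕ) : ℤ))))) 0 : ℤ) : ℝ) ≤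
      ((2 * ((n + 1) * ((j + 1 : ℤ) * ((n - j : ℕ) : ℤ))) : ℤ) : ℝ) := by exact_mod_cast h1
  rw [Int.cast_sum] at h2
  have h3 : ∀ i : Fin n, ((max (D * (ia_T n j (n - j) ((i : ℕ) + 1) : ℤ) - 2 * ((j + 1 : ℤ) * ((n - j : ℕ) : ℤ) * ((((i : ℕ) + 1 : ℕ) : ℤ) * (n + 1 - (((i : ℕ) + 1 : ℕ) : ℤ))))) 0 : ℤ) : ℝ) =
      2 * max ((D : ℝ) / 2 * (ia_T n j (n - j) ((i : ℕ) + 1) : ℝ) - ((j : ℝ) + 1) * ((n - j : ℕ) : ℝ) * ((((i : ℕ) + 1 : ℕ) : ℝ) * (n + 1 - (((i : ℕ) + 1 : ℕ) : ℝ)))) 0 := by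
    intro i
    rw [Int.cast_max, Int.cast_zero, mul_max_of_nonneg _ _ (zero_le_two : (0 : ℝ) ≤ 2), mul_zero]
    congr 1
    push_cast
    ring
  rw [Finset.sum_congr rfl fun i _ => h3 i, ← Finset.mul_sum] at h2
  push_cast at h2 ⊢
  linarith

/-- Type `A_4`: `D / 2 = 25` with `rank + 1`. -/
theorem ci1_A4 (h : Typ b (CartanMatrix.A 4)) : CI1 b 25 := by
  refine ci1_A (by norm_num) h fun {c} hc {e} he j => ?_
  have h1 := cmA_ofInt (n := 4) (D := 50) (fun j hj => by interval_cases j <;> decide) hc he j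
  norm_num at h1 ⊢
  exact h1

/-! ## 5. The numbers of the quasi-split groups -/

/-- Twice the numbers of the quasi-split groups (the Galois group acts on the simple roots). -/
def DimT (b : P.Base) (D : ℕ) : Prop :=
  (Typ b (CartanMatrix.A 2) ∧ D = 16) ∨ (Typ b (CartanMatrix.A 3) ∧ D = 30) ∨ (Typ b (CartanMatrix.A 4) ∧ D = 50) ∨ BigE b D

/-- **The inequality** for the quasi-split groups. -/
theorem ineqQ_dimT {Q : QS b K L} (hq : ∃ s i, (Q.da s).sp i ≠ i) {D : ℕ} (h : DimT b D) : IneqQ Q ((D : ℝ) / 2) (nuN Q) := by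
  rcases h with ⟨h, rfl⟩ | ⟨h, rfl⟩ | ⟨h, rfl⟩ | h
  · have h1 := ineqQ_A2 hq h
    norm_num at h1 ⊢
    exact h1
  · have h1 := ineqQ_A3 hq h
    norm_num at h1 ⊢
    exact h1
  · have h1 := ineqQ_ci1 (Q := Q) (ci1_A4 h)
    norm_num at h1 ⊢
    exact h1
  · exact ineqQ_ci1 (ci1_big h)

end

end Pool.Agent.Lib.L8.QF
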