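import Pool.Agent.Lib.L8.SA2
import Pool.Agent.Lib.L8.FV3

/-!
# QF, file OP1 (helper67): convolution operators and Whittaker coefficients
-/

namespace Pool.Agent.Lib.L8.QF

open MeasureTheory Matrix NumberField IsDedekindDomain Pool.Agent.Lib.H89N Pool.Agent.Lib.H33W Pool.Agent.Lib.H67G Pool.Agent.Lib.L1S Topology
open scoped ENNReal Pointwise

noncomputable section

set_option linter.unusedVariables false

variable {ι M N : Type} [Fintype ι] [DecidableEq ι] [AddCommGroup M] [Module ℚ M] [AddCommGroup N] [Module ℚ N]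
  {P : RootPairing ι ℚ M N} [P.IsCrystallographic] {b : P.Base} {L : Type} [Field L] [NumberField L] (H : Subgroup (GK b L))

/-- **One operator**: `F_l` continuous and invariant under `Γ`, `∫ F_l(x y) w(y) dτ(y) = G_l(x)`. If `∑ |W(F_l)(x y)|² ≤ β(y)²` on the support of `τ`, then `∑ |W(G_l)(x)|² ≤ (∫ β |w| dτ)²`. -/
theorem op_TH {Γ : Subgroup H} (hcc : CCH H Γ) {θ : b.support → (EE L →ₗ[ℝ] ℝ)} (one : ∀ w : HUH H, (w : H) ∈ Γ → psT H θ (kUH H w) = 1) {ν : Measure (UHR H)} [ν.IsHaarMeasure]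
    {D₁ : Set (UHR H)} (hD₁ : H33W.SF (Γ.subgroupOf (HUH H)) D₁) {D' : Set (UHR H)} (hD' : IsFundamentalDomain (imU H Γ) D' ν)
    {τ : Measure (HRt H)} [IsFiniteMeasure τ] {Kt : Set (HRt H)} (cK : IsCompact Kt) (tK : τ Ktᶜ = 0) {w : HRt H → ℂ} (iw : Integrable w τ) {m : ℕ} {F : Fin m → HRt H → ℂ} (cF : ∀ l, Continuous (F l))
    (iF : ∀ l, ∀ γ ∈ imH H Γ, ∀ x, F l (γ * x) = F l x) {G : Fin m → HRt H → ℂ} (hκ : ∀ l x, ∫ y, F l (x * y) * w y ∂τ = G l x)
    {β : HRt H → ℝ} (b0 : ∀ y, 0 ≤ β y) (ib : Integrable (fun y => β y * ‖w y‖) τ)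
    {x : HRt H} (hx : ∀ y ∈ Kt, ∑ l, ‖WhT H ν D' θ (F l) (x * y)‖ ^ 2 ≤ β y ^ 2) :
    ∑ l, ‖WhT H ν D' θ (G l) x‖ ^ 2 ≤ (∫ y, β y * ‖w y‖ ∂τ) ^ 2 := by
  have ci : Countable H := th_count H
  have cjj : Continuous ((UHR H).subtype : UHR H →* HRt H) := continuous_subtype_val
  obtain ⟨μ, hμ⟩ : ∃ μ : Measure (HRt H), μ.IsHaarMeasure := ⟨Measure.haar, inferInstance⟩
  have fD := th2_fin H hcc hD₁ ν
  have hG := th2_gd H hcc hD₁ μ ν θ (psT_mul' H θ)
  have e0 : ∀ l z, WhT H ν D' θ (F l) z = Wm (UHR H).subtype (psT H θ) ν D₁ (F l) z := fun l z =>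
    th2_Wh H ν hD₁ hD' θ (fun δ hδ u => by rw [psT_mul' H θ, one δ hδ, one_mul]) (iF l) z
  have iG : ∀ l, ∀ γ ∈ imH H Γ, ∀ x, G l (γ * x) = G l x := fun l γ hγ x => by
    rw [← hκ l, ← hκ l]
    refine integral_congr_ae (Filter.Eventually.of_forall fun y => ?_)
    beta_reduce
    rw [mul_assoc, iF l γ hγ]
  have e0G : ∀ l z, WhT H ν D' θ (G l) z = Wm (UHR H).subtype (psT H θ) ν D₁ (G l) z := fun l z =>
    th2_Wh H ν hD₁ hD' θ (fun δ hδ u => by rw [psT_mul' H θ, one δ hδ, one_mul]) (iG l) z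
  simp only [e0] at hx
  simp only [e0G]
  have mF : ∀ l, Measurable (F l) := fun l => (cF l).measurable
  have bF : ∀ l, ∀ K' : Set (HRt H), IsCompact K' → ∃ B : ℝ, ∀ t : UHR H, ∀ y ∈ K', ‖F l ((UHR H).subtype t * y)‖ ≤ B := fun l =>
    an14_bdd hG cjj hcc (cF l) (fun γ hγ y => iF l _ ⟨γ, hγ, rfl⟩ y)
  have hxK : ∀ x : HRt H, IsCompact ((fun y => x * y) '' Kt) := fun x => cK.image (continuous_const_mul x)
  have haeK : ∀ᵐ y ∂τ, y ∈ Kt := by
    rw [ae_iff]
    exact tK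
  have mW : ∀ l, Measurable (Wm (UHR H).subtype (psT H θ) ν D₁ (F l)) := fun l => wm_meas hG (mF l)
  have hi : ∀ l, Integrable (fun y => Wm (UHR H).subtype (psT H θ) ν D₁ (F l) (x * y) * w y) τ := fun l => by
    obtain ⟨B, hB⟩ := bF l _ (hxK x)
    refine iw.bdd_mul (c := |B|) ((mW l).comp (measurable_const_mul x)).aestronglyMeasurable ?_
    filter_upwards [haeK] with y hy
    exact wm_bdd hG (abs_nonneg B) fun t => (hB t _ ⟨y, hy, rfl⟩).trans (le_abs_self B)
  have hW : ∀ l, ∫ y, Wm (UHR H).subtype (psT H θ) ν D₁ (F l) (x * y) * w y ∂τ = Wm (UHR H).subtype (psT H θ) ν D₁ (G l) x := fun l => by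
    have hfD : IsFiniteMeasure (ν.restrict D₁) := ⟨by rw [Measure.restrict_apply_univ]; exact fD.lt_top⟩
    obtain ⟨B, hB⟩ := bF l _ (hxK x)
    have mJ : Measurable fun p : HRt H × UHR H => F l ((UHR H).subtype p.2 * (x * p.1)) := by
      have h1 : Measurable fun p : HRt H × UHR H => ((p.2, x * p.1) : UHR H × HRt H) := measurable_snd.prodMk ((measurable_const_mul x).comp measurable_fst)
      have h2 := hG.mj.comp h1
      have h3 := (mF l).comp h2
      exact h3
    have mS : Measurable fun p : HRt H × UHR H => star (psT H θ p.2) := (continuous_star.measurable).comp (hG.mψ.comp measurable_snd)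
    have iAll : Integrable (fun p : HRt H × UHR H => star (psT H θ p.2) * F l ((UHR H).subtype p.2 * (x * p.1)) * w p.1) (τ.prod (ν.restrict D₁)) := by
      have iw2 : Integrable (fun p : HRt H × UHR H => w p.1) (τ.prod (ν.restrict D₁)) := iw.comp_fst _
      refine iw2.bdd_mul (c := |B|) (mS.mul mJ).aestronglyMeasurable ?_
      have h1 : ∀ᵐ p ∂(τ.prod (ν.restrict D₁)), p.1 ∈ Kt := Measure.quasiMeasurePreserving_fst.ae haeK
      filter_upwards [h1] with p hp
      rw [norm_mul, norm_star, hG.nψ, one_mul]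
      exact (hB p.2 _ ⟨p.1, hp, rfl⟩).trans (le_abs_self B)
    have e1 : ∀ y, Wm (UHR H).subtype (psT H θ) ν D₁ (F l) (x * y) * w y = ((ν.real D₁)⁻¹ : ℝ) • ∫ t in D₁, star (psT H θ t) * F l ((UHR H).subtype t * (x * y)) * w y ∂ν := fun y => by
      rw [Wm, setAverage_eq, integral_mul_const, smul_mul_assoc]
    simp only [e1]
    rw [Wm, setAverage_eq, integral_smul]
    congr 1
    rw [integral_integral_swap iAll]
    refine integral_congr_ae (Filter.Eventually.of_forall fun t => ?_)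
    change ∫ y, star (psT H θ t) * F l ((UHR H).subtype t * (x * y)) * w y ∂τ = star (psT H θ t) * G l ((UHR H).subtype t * x)
    rw [← hκ l ((UHR H).subtype t * x), ← integral_const_mul]
    refine integral_congr_ae (Filter.Eventually.of_forall fun y => ?_)
    change star (psT H θ t) * F l ((UHR H).subtype t * (x * y)) * w y = star (psT H θ t) * (F l ((UHR H).subtype t * x * y) * w y)
    rw [mul_assoc ((UHR H).subtype t) x y, mul_assoc]
  have key := sp_mink (τ := τ) (f := fun l y => Wm (UHR H).subtype (psT H θ) ν D₁ (F l) (x * y) * w y) hi ib (fun y => mul_nonneg (b0 y) (norm_nonneg _)) (by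
    filter_upwards [haeK] with y hy
    have h1 : ∀ l, ‖Wm (UHR H).subtype (psT H θ) ν D₁ (F l) (x * y) * w y‖ ^ 2 = ‖Wm (UHR H).subtype (psT H θ) ν D₁ (F l) (x * y)‖ ^ 2 * ‖w y‖ ^ 2 := fun l => by
      rw [norm_mul, mul_pow]
    simp only [h1]
    rw [← Finset.sum_mul, mul_pow]
    exact mul_le_mul_of_nonneg_right (hx y hy) (sq_nonneg _))
  simp only [hW] at key
  exact key

end

end Pool.Agent.Lib.L8.QF
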