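import Pool.Agent.Lib.L8.QF.OP1
import Pool.Agent.Lib.L8.QF.M6
import Pool.Agent.Lib.L8.QF.W6Q

/-!
# QF, file OP2 (helper67): the density theorem for arbitrary convolution operators

For a convolution operator `F(x) ↦ G(x) = ∫ F(x y) w(y) dτ(y)` (for eigenfunctions: `G_l = κ_l F_l`) the density theorem holds with `G_l` on the left and `Λ ^ 2` on the right, `Λ = ∫ e ^ (ρ(H(x y) - H(x))) |w(y)| dτ(y)`, if the support
of `τ` is in the set where `H(x y) - H(x) ≥ -V`, `e ^ (2 ρ(V)) Q ≤ N ^ D`. The points `x y` are in `U t' Ω`, `|a'_β| = |a_β| e ^ (f β(η(y)))`.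
-/

namespace Pool.Agent.Lib.L8.QF

open MeasureTheory Matrix NumberField NumberField.InfinitePlace IsDedekindDomain Pool.Agent.Lib.H89N Pool.Agent.Lib.H33W Pool.Agent.Lib.H67G Pool.Agent.Lib.L1S Pool.Agent.Lib.L8.FL
open Pool.Agent.Lib.L8.FU
open scoped ENNReal Pointwise

noncomputable section

set_option linter.unusedSectionVars false
set_option linter.unusedVariables false

variable {ι M N : Type} [Fintype ι] [DecidableEq ι] [AddCommGroup M] [Module ℚ M] [AddCommGroup N] [Module ℚ N]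
  {P : RootPairing ι ℚ M N} [P.IsCrystallographic] [P.IsReduced] [P.IsIrreducible] [P.IsRootSystem]
  {b : P.Base} {K L : Type} [Field K] [NumberField K] [Field L] [NumberField L] [Algebra K L]

/-- The average over the Galois group does not change the sum over a stable set. -/
theorem op_sum (Q : QS b K L) [IsGalois K L] (V : b.support → ℝ) {J : Finset b.support} (hJ : InvJ Q J) : ∑ j ∈ J, df K L * trQ Q V j = ∑ j ∈ J, V j := by
  have fd : FiniteDimensional K L := Module.Finite.of_restrictScalars_finite ℚ K L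
  have f0 : (0 : ℝ) < (Module.finrank K L : ℝ) := by exact_mod_cast Module.finrank_pos
  have hdf : df K L * (Module.finrank K L : ℝ) = 1 := inv_mul_cancel₀ f0.ne'
  rw [← Finset.mul_sum]
  unfold trQ
  rw [Finset.sum_comm]
  have h : ∀ s : L ≃ₐ[K] L, ∑ j ∈ J, V ((Q.da s).sp j) = ∑ j ∈ J, V j := fun s =>
    Finset.sum_equiv (Q.da s).sp (fun i => (hJ s i).symm) fun i _ => rfl
  rw [Finset.sum_congr rfl fun s _ => h s, Finset.sum_const, nsmul_eq_mul, Finset.card_univ, ← Nat.card_eq_fintype_card, IsGalois.card_aut_eq_finrank, ← mul_assoc, hdf, one_mul]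

/-- **The density theorem for convolution operators.** -/
def StatementOQ (Q : QS b K L) (D₀ : ℝ) : Prop :=
  ∀ ε : ℝ, 0 < ε → ∀ (Ω : Set (GL (I b) (EE L))) (K₀ : Set (HRt (HQ Q))), IsCompact Ω → IsCompact K₀ → ∃ C : ℝ,
    ∀ (v : HeightOneSpectrum (𝓞 K)) (𝔫 : Ideal (𝓞 K)), 𝔫 ≠ ⊥ → ¬𝔫 ≤ v.asIdeal → ∀ (r s : ℕ) (c : b.support → ℤ), InvC Q c → (∀ i : b.support, 0 ≤ pr b c (Sum.inr i)) → (1 ≤ r + s ∨ c = 0) →
    ∀ π : K, v.valuation K π = WithZero.exp (-1 : ℤ) → ∀ h : HQ Q, h.1 ∈ HGL b L 𝔫 v → AtVL b v r s π c h.1 →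
    ∀ θ : b.support → (EE L →ₗ[ℝ] ℝ), GenQ Q 𝔫 v r s θ → ∀ (x : HRt (HQ Q)) (a : ι → (EE L)ˣ), (∀ k : b.support, (Ideal.absNorm 𝔫 : ℝ) ^ Module.finrank K L ≤ mixedEmbedding.norm (a k : EE L)) →
    ∀ V : b.support → ℝ, (∀ i, 0 ≤ al (fun i j => b.cartanMatrix i j) i V) →
    Real.exp (2 * ∑ j, V j) * (Ideal.absNorm v.asIdeal : ℝ) ^ (∑ β ∈ Pos b, pr b c (Sum.inr β)) ≤ (Ideal.absNorm 𝔫 : ℝ) ^ D₀ →
    ∀ (τ : Measure (HRt (HQ Q))) [IsFiniteMeasure τ] (w : HRt (HQ Q) → ℂ), Integrable w τ → ∀ S : Set (HRt (HQ Q)), IsCompact S → τ Sᶜ = 0 → ∀ η : HRt (HQ Q) → b.support → ℝ,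
    Integrable (fun y => Real.exp (∑ j, η y j) * ‖w y‖) τ →
    (∀ y ∈ S, (∀ j, -V j ≤ η y j) ∧ ∃ (t' : HRt (HQ Q)) (a' : ι → (EE L)ˣ), t'.1.1.1 = dgz b a' ∧
      (∀ β, mixedEmbedding.norm (a' β : EE L) = mixedEmbedding.norm (a β : EE L) * Real.exp (Module.finrank K L * pry b (η y) (Sum.inr β))) ∧
      ∃ u : UHR (HQ Q), ∃ ω ∈ Ω, (x * y).1.1.1 = u.1.1.1.1 * t'.1.1.1 * ω.1) →
    ∀ (μ : Measure (HRt (HQ Q))) [μ.IsHaarMeasure], ∀ φ : HRt (HQ Q) → ℂ, Continuous φ → tsupport φ ⊆ K₀ →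
    ∀ (ν : Measure (UHR (HQ Q))) [ν.IsHaarMeasure] (D : Set (HRt (HQ Q))), IsFundamentalDomain (GamHR (HQ Q) 𝔫 v r s) D μ →
    ∀ (n : ℕ) (F G : Fin n → HRt (HQ Q) → ℂ) (c' t' : Fin n → ℂ), (∀ l, AuE (HQ Q) (GamQ (HQ Q) 𝔫 v r s) μ D φ (c' l) (F l)) → (∀ l, IsTH (HQ Q) 𝔫 v r s h (F l) (t' l)) →
    (∀ l x, ∫ y, F l (x * y) * w y ∂τ = G l x) → (∀ l k, ∫ x in D, star (F l x) * F k x ∂μ = if l = k then 1 else 0) →
    ∀ D' : Set (UHR (HQ Q)), IsFundamentalDomain (GamUH (HQ Q) 𝔫 v r s) D' ν →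
      ∑ l, ‖c' l * t' l * WhH (HQ Q) ν D' θ (G l) x‖ ^ 2 ≤
        C * (∫ y, Real.exp (∑ j, η y j) * ‖w y‖ ∂τ) ^ 2 * (Real.exp (2 * ∑ j, V j) * (Ideal.absNorm v.asIdeal : ℝ) ^ (∑ β ∈ Pos b, pr b c (Sum.inr β))) ^ ε *
          (Ideal.absNorm v.asIdeal : ℝ) ^ (∑ β ∈ Pos b, pr b c (Sum.inr β)) * (∫ y, ‖φ y‖ ^ 2 ∂μ) *
          ((∏ β ∈ Pos b, mixedEmbedding.norm (a β : EE L)) ^ ((Module.finrank K L : ℝ)⁻¹) / (Ideal.absNorm 𝔫 : ℝ) ^ (Pos b).card)

/-- One exceptional term. -/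
theorem op_term (Q : QS b K L) [IsGalois K L] {D : ℝ} (hD0 : 0 < D) {nu : Equiv.Perm ι → ℝ} (hI : IneqQ Q D nu) {V : b.support → ℝ} (hV : ∀ i, 0 ≤ al (cA b) i V) {c : b.support → ℤ}
    (hcQ : InvC Q c) (hc : ∀ i : b.support, 0 ≤ pr b c (Sum.inr i)) {n q₀ : ℝ} (hn : 1 ≤ n) (hq : 1 ≤ q₀) {a : b.support → ℝ} (ha : ∀ k, n ^ Module.finrank K L ≤ a k)
    (hD : Real.exp (2 * ∑ j, V j) * q₀ ^ (∑ β ∈ Pos b, pr b c (Sum.inr β)) ≤ n ^ D) {ε : ℝ} (h0 : 0 < ε) (h1 : ε ≤ 1 / 2) {w : Equiv.Perm ι} (hw : IsCQ Q w)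
    {η : b.support → ℝ} (hη : ∀ j, -V j ≤ η j) :
    n ^ (ε - nu w) * ∏ k, ((a k * Real.exp (Module.finrank K L * al (cA b) k η)) ^ df K L * q₀ ^ (-pr b c (Sum.inr (k : ι)))) ^ (-((1 + ε) * XW b w k)) ≤
      (Real.exp (2 * ∑ j, V j) * q₀ ^ (∑ β ∈ Pos b, pr b c (Sum.inr β))) ^ (3 * ε) := by
  classical
  have fd : FiniteDimensional K L := Module.Finite.of_restrictScalars_finite ℚ K L
  have f0 : (0 : ℝ) < (Module.finrank K L : ℝ) := by exact_mod_cast Module.finrank_pos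
  have df0 : 0 < df K L := inv_pos.2 f0
  have hdf : (Module.finrank K L : ℝ) * df K L = 1 := mul_inv_cancel₀ f0.ne'
  have htr : ∀ y : b.support → ℝ, ∑ j, trQ Q y j = (Module.finrank K L : ℝ) * ∑ j, y j := fun y => by
    rw [trQ_sum, ← Nat.card_eq_fintype_card, IsGalois.card_aut_eq_finrank]
  have als : ∀ (z : b.support → ℝ) (k : b.support), al (cA b) k (fun j => df K L * z j) = df K L * al (cA b) k z := fun z k => by
    unfold al
    rw [Finset.mul_sum]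
    exact Finset.sum_congr rfl fun j _ => by ring
  obtain ⟨hnu, hineq⟩ := hI w hw
  have n0 : 0 < n := by linarith
  have q0 : 0 < q₀ := by linarith
  have a0 : ∀ k, 0 < a k := fun k => (pow_pos n0 _).trans_le (ha k)
  have hdV : ∀ i, 0 ≤ al (cA b) i (fun j => df K L * trQ Q V j) := fun i => by
    rw [als]
    exact mul_nonneg df0.le (trQ_dom Q hV i)
  have hiV : InvE Q (fun j => df K L * trQ Q V j) := fun s i => by
    have := trQ_inv Q V s i
    show df K L * _ = df K L * _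
    rw [this]
  have hsV : ∑ j, df K L * trQ Q V j = ∑ j, V j := by
    rw [← Finset.mul_sum, htr, ← mul_assoc, mul_comm (df K L), hdf, one_mul]
  have hcR : ∀ i : b.support, al (cA b) i (fun j => (c j : ℝ)) = ((pr b c (Sum.inr (i : ι)) : ℤ) : ℝ) := fun i => by
    show ∑ k, ((b.cartanMatrix i k : ℤ) : ℝ) * (c k : ℝ) = ((∑ j : b.support, c j * P.pairingIn ℤ i j : ℤ) : ℝ)
    rw [Int.cast_sum]
    exact Finset.sum_congr rfl fun k _ => by
      rw [Int.cast_mul, mul_comm]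
      rfl
  obtain ⟨J, hJne, hJ, hwJ⟩ := hw
  have hJ1 : InvJ Q (Js b w) := invJ_Js hJ hwJ
  have hJ2 : InvJ Q (Js b w⁻¹) := invJ_Js hJ1 (FC.isWJ_inv hwJ)
  have key := q4_num hD0 (w := w) hnu (p := 1) (d := fun _ => 1) (fun _ => zero_le_one) (Λ := fun _ j => df K L * trQ Q V j) (fun _ => hdV) (c := c) (fun _ => hineq _ hdV hiV)
    (hineq _ (fun i => by rw [hcR i]; exact_mod_cast hc i) fun s i => by
      show ((c _ : ℤ) : ℝ) = _
      rw [hcQ s i]) hc hn hq (a := fun k => a k ^ df K L) (fun k => by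
      have e1 : n = (n ^ Module.finrank K L) ^ df K L := by
        rw [← Real.rpow_natCast, ← Real.rpow_mul n0.le, hdf, Real.rpow_one]
      calc n = (n ^ Module.finrank K L) ^ df K L := e1
        _ ≤ _ := Real.rpow_le_rpow (pow_nonneg n0.le _) (ha k) df0.le) (R := fun _ => 1) (fun _ => zero_le_one) (by
      simp only [hsV, Finset.univ_unique, Finset.sum_singleton, one_mul]
      exact hD) h0 h1 (y := fun _ j => η j) (fun _ => by
      rw [op_sum Q V hJ1, op_sum Q V hJ2, one_mul, neg_add, ← Finset.sum_neg_distrib, ← Finset.sum_neg_distrib]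
      exact add_le_add (Finset.sum_le_sum fun j _ => hη j) (Finset.sum_le_sum fun j _ => hη j))
  simp only [hsV, Finset.univ_unique, Finset.sum_singleton, one_mul] at key
  refine le_trans (le_of_eq ?_) (key.trans (le_of_eq ?_))
  · congr 1
    refine Finset.prod_congr rfl fun k _ => ?_
    congr 2
    rw [Real.mul_rpow (a0 k).le (Real.exp_pos _).le, ← Real.exp_mul]
    congr 2
    rw [mul_comm, ← mul_assoc, mul_comm (df K L), hdf, one_mul]
  · rw [Real.mul_rpow (Real.exp_pos _).le (zpow_pos q0 _).le, ← Real.exp_mul]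
    congr 2
    ring

end

end Pool.Agent.Lib.L8.QF
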