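import Pool.Agent.Lib.L8.QF.PO0

/-!
# QF, module C5Q, PO (design helper33): the letter group of an orthogonal orbit in the real group
-/

namespace Pool.Agent.Lib.L8.QF

open MeasureTheory Matrix NumberField NumberField.InfinitePlace IsDedekindDomain Pool.Agent.Lib.H89N Pool.Agent.Lib.H33W Pool.Agent.Lib.H67G Pool.Agent.Lib.L1S Pool.Agent.Lib.L8 Pool.Agent.Lib.L8.FL
open scoped ENNReal Pointwise

noncomputable section

set_option linter.unusedSectionVars false
set_option linter.unusedVariables false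

variable {ι M N : Type} [Fintype ι] [DecidableEq ι] [AddCommGroup M] [Module ℚ M] [AddCommGroup N] [Module ℚ N]
  {P : RootPairing ι ℚ M N} [P.IsCrystallographic] [P.IsReduced] [P.IsIrreducible] [P.IsRootSystem] {b : P.Base}
  {K L : Type} [Field K] [NumberField K] [Field L] [NumberField L] [Algebra K L] [IsGalois K L]

/-- The product over the orbit is fixed. -/
theorem po_fix {Q : QS b K L} {i : b.support} (hO : H29Q.Orth Q i) {t : b.support → EE L} (ht : ∀ (s : L ≃ₐ[K] L) (j : b.support), j ∈ orb Q i → t ((Q.da s).sp j) = sE s (t j)) :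
    FxE Q ((ow Q i).map fun j : b.support => xR b L (j : ι) (t j)).prod.1.1 := by
  intro s
  have hl : OrL b (ow Q i) := by
    rw [H29Q.ow_orth hO]
    exact orL_orb hO
  refine Matrix.ext fun r c => evw_ext fun w => ?_
  obtain ⟨ε, hε⟩ := evw_sE s w
  obtain ⟨X, hX⟩ : ∃ X : GR b L, X = ((ow Q i).map fun j : b.support => xR b L (j : ι) (t j)).prod := ⟨_, rfl⟩
  rw [← hX]
  have hp : ∀ v : InfinitePlace L, pw b v X = ((ow Q i).map fun j : b.support => gx b ℂ (j : ι) (evw v (t j))).prod := fun v => by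
    rw [hX, map_list_prod, List.map_map]
    congr 1
    refine List.map_congr_left fun j _ => ?_
    exact pw_x v _ _
  have h1 : th (Q.da s) ε (pw b (w.comap (s : L →+* L)) X) = pw b w X := by
    rw [hp, hp, map_list_prod, List.map_map]
    have e1 : (ow Q i).map (⇑(th (Q.da s) ε) ∘ fun j : b.support => gx b ℂ (j : ι) (evw (w.comap (s : L →+* L)) (t j))) =
        ((ow Q i).map (Q.da s).sp).map fun j : b.support => gx b ℂ (j : ι) (evw w (t j)) := by
      rw [List.map_map]
      refine List.map_congr_left fun j hj => ?_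
      show th (Q.da s) ε (gx b ℂ (j : ι) (evw (w.comap (s : L →+* L)) (t j))) = gx b ℂ ((Q.da s).sp j : ι) (evw w (t ((Q.da s).sp j)))
      rw [th_x, ← hε, ht s j (H29Q.mem_ow.1 hj)]
    rw [e1]
    refine (List.Perm.map _ ?_).prod_eq' ?_
    · refine (List.perm_ext_iff_of_nodup ?_ hl.1).2 fun k => ?_
      · exact hl.1.map (Q.da s).sp.injective
      · rw [List.mem_map]
        constructor
        · rintro ⟨j, hj, rfl⟩
          exact H29Q.mem_ow.2 (c2_orb_sp Q i s (H29Q.mem_ow.1 hj))
        · intro hk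
          exact ⟨(Q.da s⁻¹).sp k, H29Q.mem_ow.2 (c2_orb_sp Q i s⁻¹ (H29Q.mem_ow.1 hk)), sp_cancel' Q s k⟩
    · rw [List.pairwise_map]
      have h2 : ((ow Q i).map (Q.da s).sp).Nodup := hl.1.map (Q.da s).sp.injective
      refine List.Pairwise.imp_of_mem (R := fun a c => a ≠ c) (fun {a c} ha hc hac => ?_) h2
      rw [List.mem_map] at ha hc
      obtain ⟨a', ha', rfl⟩ := ha
      obtain ⟨c', hc', rfl⟩ := hc
      refine pw_xx ?_ _ _
      exact hl.2 _ (H29Q.mem_ow.2 (c2_orb_sp Q i s (H29Q.mem_ow.1 ha'))) _ (H29Q.mem_ow.2 (c2_orb_sp Q i s (H29Q.mem_ow.1 hc'))) hac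
  obtain ⟨r, rfl⟩ := (Q.da s).pI.surjective r
  obtain ⟨c, rfl⟩ := (Q.da s).pI.surjective c
  rw [DA.cj_apply]
  show evw w (sE s (X.1.1 r c)) = evw w (X.1.1 ((Q.da s).pI r) ((Q.da s).pI c))
  rw [hε]
  have h2 : (th (Q.da s) ε (pw b (w.comap (s : L →+* L)) X)).1.1 ((Q.da s).pI r) ((Q.da s).pI c) = (pw b w X).1.1 ((Q.da s).pI r) ((Q.da s).pI c) := by rw [h1]
  rw [th_entry] at h2
  exact h2

/-- **The parametrisation of the orthogonal letter group.** PROOF. `ow Q i = (orb Q i).toList =: l` (`H29Q.ow_orth`). Choose `s j` with `sp (s j) i = j` for `j ∈ orb Q i`, `s i = 1`, `t r j = sE (s j) (jE Q i r)`; the element `X r = (l.map fun j => xR b L j (t r j)).prod ∈ GR b L`, `pw b w (X r) = (l.map ..).prod` (`pw_x`).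
It is fixed (`FxE`): for `s`: `(s j') i = j' = s j` gives `s s_j ∈ s_{j'} Stab i`, so `sE s (t r j) = t r (s j)` (`fo_sE`); `cj (X.map (sE s))` is multiplicative (`FxE.mul`-like, `DA.cj_mul`), `cj` of `xx b j t` is `xx b (s j) (sE s t)`, and the factors commute: compare the components: `pw_ext`-style with `a1_xx` (or `List.Perm.prod_eq` in `GF b ℂ`). So `po_mem`, `lp_orth_mem`.
`x` is a homomorphism (`lp` factors commute), continuous, injective (`cH i (x r) = jE r`: `lp_orth_gc`), its range is `LoH`: for `u ∈ LoH`, `cH i u` is fixed by `StQ` (`cH_s`), so `cH i u = jE Q i r` (`fo_desc`), `cH j u = sE (s j) (cH i u) = t r j`, and `pH w u = ∏ gx j (gc j (pH w u))` (`lp_orth`, `po_Uw`, `evw_cH`), so `u = x r` (`pH_ext`).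
`RH`: `ae` (all values in `LoH`), `fin`: the preimage of a compact set `C` is contained in `jE⁻¹ (cH i '' C)`, compact (`jE_proper`) (closed subset; finite measure), `ne`, `inv`: `x r * x r' = x (r + r')`, translation invariance (as `nuI_RH` in C5E). -/
theorem po_param (Q : QS b K L) {i : b.support} (hO : H29Q.Orth Q i) : ∃ (x : EE (FO Q i) → HRt (HQ Q)) (t : EE (FO Q i) → b.support → EE L), Continuous x ∧ (∀ r, t r i = jE Q i r) ∧
    (∀ r w, pH (HQ Q) w (x r) = ((ow Q i).map fun j : b.support => gx b ℂ (j : ι) (evw w (t r j))).prod) ∧ RH (LoH (HQ Q) (orb Q i)ᶜ) ((volume : Measure (EE (FO Q i))).map x) := by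
  classical
  have hl : OrL b (ow Q i) := by
    rw [H29Q.ow_orth hO]
    exact orL_orb hO
  have hs0 : ∀ j : b.support, ∃ s : L ≃ₐ[K] L, j ∈ orb Q i → (Q.da s).sp i = j := fun j => by
    by_cases h : j ∈ orb Q i
    · obtain ⟨s, hs⟩ := H29Q.mem_orb.1 h
      exact ⟨s, fun _ => hs⟩
    · exact ⟨1, fun h' => absurd h' h⟩
  choose s hs using hs0
  have hi : i ∈ orb Q i := c2_orb_self Q i
  obtain ⟨t, htd⟩ : ∃ t : EE (FO Q i) → b.support → EE L, t = fun r j => sE (s j) (jE Q i r) := ⟨_, rfl⟩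
  have ht1 : ∀ r j, t r j = sE (s j) (jE Q i r) := fun r j => by rw [htd]
  have ht : ∀ (r : EE (FO Q i)) (s' : L ≃ₐ[K] L) (j : b.support), j ∈ orb Q i → t r ((Q.da s').sp j) = sE s' (t r j) := fun r s' j hj => by
    rw [ht1, ht1, ← sE_mul]
    have h1 : (s ((Q.da s').sp j))⁻¹ * (s' * s j) ∈ StQ Q i := by
      rw [mem_StQ, sp_mul, sp_mul, hs j hj]
      have h2 := sp_cancel Q (s ((Q.da s').sp j)) i
      rwa [hs _ (c2_orb_sp Q i s' hj)] at h2
    have h2 := fo_sE Q i h1 r
    rw [sE_mul] at h2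
    have h3 := congrArg (sE (s ((Q.da s').sp j))) h2
    rw [← sE_mul, mul_inv_cancel] at h3
    have h4 : sE (1 : L ≃ₐ[K] L) (sE (s' * s j) (jE Q i r)) = sE (s' * s j) (jE Q i r) := by
      rw [← sE_mul, one_mul]
    rw [h4] at h3
    exact h3.symm
  have hti : ∀ r, t r i = jE Q i r := fun r => by
    rw [ht1]
    exact fo_sE Q i (mem_StQ.2 (hs i hi)) r
  have hX : ∀ r, ∃ u : HRt (HQ Q), u.1 = ((ow Q i).map fun j : b.support => xR b L (j : ι) (t r j)).prod ∧ u ∈ LoH (HQ Q) (orb Q i)ᶜ := fun r => by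
    refine po_mem Q i (po_fix hO (ht r)) fun w => ?_
    rw [map_list_prod, List.map_map]
    have e : (ow Q i).map (⇑(pw b w) ∘ fun j : b.support => xR b L (j : ι) (t r j)) = (ow Q i).map fun j : b.support => gx b ℂ (j : ι) (evw w (t r j)) :=
      List.map_congr_left fun j _ => pw_x w _ _
    rw [e]
    exact lp_orth_mem hl _
  choose x hx1 hx2 using hX
  have hxc : Continuous x := by
    refine continuous_induced_rng.2 ?_
    have e : (Subtype.val ∘ x) = fun r => ((ow Q i).map fun j : b.support => xR b L (j : ι) (t r j)).prod := funext fun r => hx1 r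
    rw [e]
    refine continuous_list_prod _ fun j _ => ?_
    refine (t4_xR_cont b L (j : ι)).comp ?_
    have e2 : (fun r => t r j) = fun r => sE (s j) (jE Q i r) := funext fun r => ht1 r j
    rw [e2]
    exact (sE_cont _).comp (jE_cont Q i)
  have hxw : ∀ r w, pH (HQ Q) w (x r) = ((ow Q i).map fun j : b.support => gx b ℂ (j : ι) (evw w (t r j))).prod := fun r w => by
    show pw b w (x r).1 = _
    rw [hx1, map_list_prod, List.map_map]
    congr 1
    exact List.map_congr_left fun j _ => pw_x w _ _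
  have hiw : i ∈ ow Q i := H29Q.mem_ow.2 hi
  have hcx : ∀ r, cH i (x r) = jE Q i r := fun r => evw_ext fun w => by
    rw [evw_cH, hxw, lp_orth_gc hl (fun j => evw w (t r j)) hiw, hti]
  have hU : ∀ u ∈ LoH (HQ Q) (orb Q i)ᶜ, ∀ w, pH (HQ Q) w u = ((ow Q i).map fun j : b.support => gx b ℂ (j : ι) (gc b ℂ j (pH (HQ Q) w u))).prod := fun u hu w =>
    lp_orth hl (po_Uw Q i hu w)
  have hext : ∀ u ∈ LoH (HQ Q) (orb Q i)ᶜ, ∀ r, cH i u = jE Q i r → u = x r := fun u hu r hr => pH_ext fun w => by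
    rw [hU u hu w, hxw]
    congr 1
    refine List.map_congr_left fun j hj => ?_
    have hj' := H29Q.mem_ow.1 hj
    have e1 : cH j u = t r j := by
      have e2 := cH_s Q (s j) u i
      rw [hs j hj', hr] at e2
      rw [e2, ht1]
    rw [← e1]
    rfl
  have hadd : ∀ r r', x r * x r' = x (r + r') := fun r r' => by
    refine hext _ (mul_mem (hx2 r) (hx2 r')) _ ?_
    rw [cH_mul i (hx2 r).1 (hx2 r').1, hcx, hcx, map_add]
  refine ⟨x, t, hxc, hti, hxw, ?_, fun C hC => ?_, ?_, fun v hv => ?_⟩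
  · refine (ae_map_iff hxc.measurable.aemeasurable (LoH_closed _).measurableSet).2 ?_
    exact Filter.Eventually.of_forall fun r => hx2 r
  · rw [Measure.map_apply hxc.measurable hC.isClosed.measurableSet]
    have h1 : IsCompact ((fun u : HRt (HQ Q) => cH i u) '' C) := hC.image (cH_cont i)
    have h2 := jE_proper Q i h1
    refine lt_of_le_of_lt (measure_mono ?_) h2.measure_lt_top
    intro r hr
    exact ⟨x r, hr, hcx r⟩
  · intro h
    rw [Measure.map_eq_zero_iff hxc.measurable.aemeasurable] at h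
    have h1 := (isOpen_univ.measure_pos (volume : Measure (EE (FO Q i))) Set.univ_nonempty).ne'
    rw [h] at h1
    exact h1 rfl
  · obtain ⟨r', hr'⟩ : ∃ r', jE Q i r' = cH i v := fo_desc Q i fun s' hs' => by
      have h1 := cH_s Q s' v i
      rw [mem_StQ.1 hs'] at h1
      exact h1.symm
    have hv' : v = x r' := hext v hv r' hr'.symm
    rw [hv', Measure.map_map (by fun_prop) hxc.measurable]
    have e : ((fun y => y * x r') ∘ x) = x ∘ (fun r => r + r') := by
      funext r
      exact hadd r r'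
    rw [e, ← Measure.map_map hxc.measurable (measurable_add_const r'), map_add_right_eq_self]

end

end Pool.Agent.Lib.L8.QF
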