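import Pool.Agent.Lib.L8.QF.R1D

/-!
# QF, module C5Q, R1 (design helper33): the Galois action at the infinite places
-/

namespace Pool.Agent.Lib.L8.QF

open MeasureTheory Matrix NumberField NumberField.InfinitePlace IsDedekindDomain Pool.Agent.Lib.H89N Pool.Agent.Lib.H33W Pool.Agent.Lib.H67G Pool.Agent.Lib.L1S Pool.Agent.Lib.L8.FL
open scoped ENNReal Pointwise

noncomputable section

set_option linter.unusedSectionVars false
set_option linter.unusedVariables false

variable {ι M N : Type} [Fintype ι] [DecidableEq ι] [AddCommGroup M] [Module ℚ M] [AddCommGroup N] [Module ℚ N]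
  {P : RootPairing ι ℚ M N} [P.IsCrystallographic] [P.IsReduced] [P.IsIrreducible] [P.IsRootSystem] {b : P.Base}

/-! ## 4. The elements of the real group -/

variable {K L : Type} [Field K] [NumberField K] [Field L] [NumberField L] [Algebra K L]

theorem r1e_entry (Q : QS b K L) (s : L ≃ₐ[K] L) (y : HRt (HQ Q)) (r c : I b) :
    y.1.1.1 ((Q.da s).pI r) ((Q.da s).pI c) = sE s (y.1.1.1 r c) := by
  have h1 := hr_fix Q y.2 s
  have h2 := congrFun (congrFun h1 ((Q.da s).pI r)) ((Q.da s).pI c)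
  rw [DA.cj_apply] at h2
  exact h2.symm

/-- **The components of an element of the real group of `Q`.** PROOF: `hr_fix`, `evw_sE`: the entry of `pH w y` at `(pI r, pI c)` is `evw w (y (pI r) (pI c)) = evw w (sE s (y r c)) = cjb ε (evw (w.comap s) (y r c))`. -/
theorem pH_th (Q : QS b K L) (s : L ≃ₐ[K] L) (w : InfinitePlace L) : ∃ ε : Bool, ∀ y : HRt (HQ Q), pH (HQ Q) w y = th (Q.da s) ε (pH (HQ Q) (w.comap (s : L →+* L)) y) := by
  obtain ⟨ε, h⟩ := evw_sE s w
  refine ⟨ε, fun y => ?_⟩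
  refine Subtype.ext (Units.ext (Matrix.ext fun r c => ?_))
  obtain ⟨r, rfl⟩ := (Q.da s).pI.surjective r
  obtain ⟨c, rfl⟩ := (Q.da s).pI.surjective c
  rw [th_entry]
  show evw w (y.1.1.1 ((Q.da s).pI r) ((Q.da s).pI c)) = cjb ε (evw (w.comap (s : L →+* L)) (y.1.1.1 r c))
  rw [r1e_entry, h]

/-- The component at a real place is real. -/
theorem pH_real {H : Subgroup (GK b L)} {w : InfinitePlace L} (hw : w.IsReal) (y : HRt H) : th (DA.one (b := b)) true (pH H w y) = pH H w y := by
  refine Subtype.ext (Units.ext (Matrix.ext fun r c => ?_))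
  have e : ∀ r : I b, (DA.one (b := b)).pI r = r := by
    rintro (k | β)
    · rfl
    · rfl
  have h1 := th_entry (DA.one (b := b)) true (pH H w y) r c
  rw [e, e] at h1
  rw [h1]
  show cjb true (evw w (y.1.1.1 r c)) = evw w (y.1.1.1 r c)
  rw [evw_real hw, cjb_real]

/-- **Equivariance of the archimedean heights.** -/
theorem Hw_s (Q : QS b K L) (s : L ≃ₐ[K] L) (w : InfinitePlace L) (y : HRt (HQ Q)) (i : b.support) : Hw w y ((Q.da s).sp i) = Hw (w.comap (s : L →+* L)) y i := by
  obtain ⟨ε, h⟩ := pH_th Q s w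
  have h1 : Hw w y = gH b ℂ (pH (HQ Q) w y) := rfl
  have h2 : Hw (w.comap (s : L →+* L)) y = gH b ℂ (pH (HQ Q) (w.comap (s : L →+* L)) y) := rfl
  rw [h1, h2, h y, th_H]

/-- The coordinates of an element of the real group of `Q`. PROOF: `hr_fix` at the entry `(Sum.inl i, Sum.inr (ng P i))`, `DA.ng`. -/
theorem cH_s (Q : QS b K L) (s : L ≃ₐ[K] L) (y : HRt (HQ Q)) (i : b.support) : cH ((Q.da s).sp i) y = sE s (cH i y) := by
  have h1 := r1e_entry Q s y (Sum.inl i) (Sum.inr (ng P i))
  rw [DA.pI_inl, DA.pI_inr, (Q.da s).ng] at h1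
  exact h1

end

end Pool.Agent.Lib.L8.QF
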