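import Pool.Agent.Lib.L8.QF.B2
import Pool.Agent.Lib.L8.QF.C2
import Pool.Agent.Lib.L8.QF.H3
import Pool.Agent.Lib.L8.QF.W7Q
import Pool.Agent.Lib.L8.QF.NW
import Pool.Agent.Lib.H29Q.GE

/-!
# QF, module C5Q, W1 (design helper33): words of orbits, `ArchQ` from the letters
-/

namespace Pool.Agent.Lib.L8.QF

open MeasureTheory Matrix NumberField NumberField.InfinitePlace IsDedekindDomain Pool.Agent.Lib.H89N Pool.Agent.Lib.H33W Pool.Agent.Lib.H67G Pool.Agent.Lib.L1S Pool.Agent.Lib.L8 Pool.Agent.Lib.L8.FL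
open scoped ENNReal Pointwise

noncomputable section

set_option linter.unusedSectionVars false
set_option linter.unusedVariables false

variable {ι M N : Type} [Fintype ι] [DecidableEq ι] [AddCommGroup M] [Module ℚ M] [AddCommGroup N] [Module ℚ N]
  {P : RootPairing ι ℚ M N} [P.IsCrystallographic] [P.IsReduced] [P.IsIrreducible] [P.IsRootSystem] {b : P.Base}
  {K L : Type} [Field K] [NumberField K] [Field L] [NumberField L] [Algebra K L]

/-- **The estimate for one letter** (an orbit). -/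
def LetQ (Q : QS b K L) (i : b.support) (e : b.support → ℝ) : Prop :=
  ∀ m : HRt (HQ Q), (∀ w, pH (HQ Q) w m = gnl b ℂ (ow Q i).reverse) → ∀ ν : Measure (HRt (HQ Q)), RH (LoH (HQ Q) (orb Q i)ᶜ) ν → ∃ C : ℝ, 0 < C ∧ ∀ y : HRt (HQ Q),
    ∫⁻ u, ENNReal.ofReal (Fe e (m * u * y) ^ df K L) ∂ν ≤ ENNReal.ofReal (C * Fe (eW b e (ow Q i)) y ^ df K L)

/-- PROOF: `red`: `c5f_red` and `RedW b (ow Q i)` (`c2_red` with `B = []`); `mem`: by cases `ow` (`ow_adj`, `ow_orth`); `neg`: `wL b (ow Q i).reverse = wW b (ow Q i)` (`wW_eq`), and `c2_neg`: `w_O (-α_j') = α_j`, so `w_O α_j = - α_j'` with `j' = ..` in the orbit (`w_O` is an involution or: apply `c2_neg` and the bijection;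
see the proof of `c2_neg`). -/
theorem blk_ow (Q : QS b K L) (i : b.support) : Blk b (ow Q i).reverse (orb Q i) := by
  have h0 : RedW b (ow Q i) := by
    have h1 := c2_red Q i (B := []) trivial (fun j hj => b.isPos_of_mem_support j.2)
    rwa [List.append_nil] at h1
  refine ⟨c5f_red h0, fun k hk => (H29Q.mem_ow (Q := Q)).1 (List.mem_reverse.1 hk), fun k hk => ?_⟩
  rw [← FL.wW_eq]
  have h2 : ∀ x : {x // x ∈ orb Q i}, ∃ y : {x // x ∈ orb Q i}, wW b (ow Q i) (ng P (y.1 : ι)) = (x.1 : ι) := fun x => by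
    obtain ⟨j', h3, h4⟩ := c2_neg Q i x.2
    exact ⟨⟨j', h3⟩, h4⟩
  choose f hf using h2
  have hinj : Function.Injective f := fun x y hxy => by
    have h3 := hf x
    rw [hxy, hf y] at h3
    exact Subtype.ext (Subtype.ext h3.symm)
  obtain ⟨x, hx⟩ := (Finite.injective_iff_surjective.1 hinj) ⟨k, hk⟩
  have h4 := hf x
  rw [hx, FC.fc_ng_w (FC.wW_mem b _)] at h4
  have h5 : b.height (ng P (wW b (ow Q i) (k : ι))) = -b.height (wW b (ow Q i) (k : ι)) := b.height_reflectionPerm_self _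
  have h6 : ng P (wW b (ow Q i) (k : ι)) = (x.1 : ι) := h4
  rw [h6, b.height_one_of_mem_support x.1.2] at h5
  omega

/-- PROOF: `pH H w (embH H g) = gnl b ℂ L.reverse` for `g.1 = nW b L l`: `pw_nW`. -/
theorem pH_nW {H : Subgroup (GK b L)} {l : List b.support} {g : H} (hg : (g : GK b L) = nW b L l) (w : InfinitePlace L) : pH H w (embH H g) = gnl b ℂ l.reverse := by
  have h1 : pH H w (embH H g) = pw b w (emb b L (g : GK b L)) := rfl
  rw [h1, hg]
  exact pw_nW w l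

theorem w1_suffix {A B : List b.support} (h : RedW b (A ++ B)) : RedW b B := by
  induction A with
  | nil => exact h
  | cons i A ih => exact ih h.2

theorem w1_inv (Q : QS b K L) (i : b.support) : InvJ Q (orb Q i)ᶜ := by
  classical
  intro s k
  rw [Finset.mem_compl, Finset.mem_compl, not_iff_not]
  constructor
  · intro h
    have h1 := c2_orb_sp Q i s⁻¹ h
    rwa [sp_cancel] at h1
  · intro h
    exact c2_orb_sp Q i s h

theorem w1_c1 {H : Subgroup (GK b L)} (n y : HRt H) : Continuous fun u : HRt H => n * u * y := c5e_c1 n y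

theorem w1_meas {H : Subgroup (GK b L)} {e : b.support → ℝ} {α : Type} [TopologicalSpace α] [MeasurableSpace α] [OpensMeasurableSpace α] {f : α → HRt H} (hf : Continuous f) :
    Measurable fun x => ENNReal.ofReal (Fe e (f x) ^ df K L) := by
  have h1 : Continuous fun x => Fe e (f x) := Fe_comp e hf
  exact ENNReal.measurable_ofReal.comp (h1.rpow_const fun x => Or.inl (Fe_pos e (f x)).ne').measurable

theorem w1_dirac {H : Subgroup (GK b L)} {n : HRt H} (hn : n = 1) : RH (UnH H n) (Measure.dirac (1 : HRt H)) := by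
  have h0 : ∀ v, v ∈ UnH H n → v = 1 := by
    intro v hv
    obtain ⟨h1, h2⟩ := mem_UnH.1 hv
    rw [hn, one_mul, inv_one, mul_one] at h2
    refine pH_ext fun w => ?_
    rw [map_one]
    exact brf_UV (iwG b ℂ) (mem_UHR_iff.1 h1 w) (mem_VH_iff.1 h2 w)
  refine ⟨?_, fun C _ => ?_, ?_, fun v hv => ?_⟩
  · exact (ae_dirac_iff (a := (1 : HRt H)) (p := fun x => x ∈ UnH H n) (UnH_closed n).measurableSet).2 (Subgroup.one_mem _)
  · exact measure_lt_top _ _
  · intro h1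
    have h2 := congrArg (fun m : Measure (HRt H) => m Set.univ) h1
    rw [Measure.coe_zero, Pi.zero_apply, measure_univ] at h2
    exact one_ne_zero h2
  · rw [h0 v hv]
    have e : (fun x : HRt H => x * 1) = id := funext fun x => mul_one x
    rw [e, Measure.map_id]

/-- **Words of orbits.** PROOF: induction on `l`. `l = []`: `RH (UnH n) ν` with `pH w n = 1`: `UnH n = ⊥` (`gUV`), so `ν` is a multiple of the Dirac measure at `1` (`rh_uniq` with `RH` of `Measure.dirac 1`, see `muW_RH`), and `n = 1` (`pH_ext`). `l = i :: l'`: `rw Q l = ow Q i ++ rw Q l'`; `m = embH (nW b L (ow Q i))`, `n' = embH (nW b L (rw Q l'))`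
(`nW_ow`, `nW_rw`, `pH_nW`), `n = n' * m` (`pH_ext`). `RedW` of the parts (`RedW` of a suffix is in the definition; the words `ow Q i ++ rw Q l'`). Let `μ` be `RH (UnH n')` (`rh_ex`, `UnH_closed`), `ν₁` `RH (LoH ..)` (`rh_ex`, `LoH_closed`). `chain_RH` (with `l := (rw Q l').reverse`, `B := (ow Q i).reverse`,
`(iwG b ℂ).Red ((rw Q l').reverse ++ (ow Q i).reverse)` from `c5f_red`, `List.reverse_append`): `RH (UnH n) ρ`, `ρ = (μ.prod ν₁).map ..`; `ν = c • ρ` (`rh_uniq`). `∫ Fe e (n u y)^df dρ = ∫∫ Fe e (n' p₁ (m p₂ y))^df dμ dν₁` (`lintegral_map`, `lintegral_prod_symm` (Tonelli), measurability by `Fe_cont`)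
`≤ ∫ C₁ Fe (eW b e (rw Q l')) (m p₂ y)^df dν₁` (induction hypothesis: `e` is fixed, `PosW κ e (rw Q l')` by `posW_append`) `≤ C₁ C₂ Fe (eW b (eW b e (rw Q l')) (ow Q i)) y^df` (`hL` with `e' = eW b e (rw Q l')`: `InvE` by `H29Q.invE_eW`, `wW_comm_rw`; `PosW` by `posW_append`), `eW_append`. As `int_muW`, `int_UwH` in C5E. -/
theorem int_rw (Q : QS b K L) [IsGalois K L] {κ : ℝ} (hL : ∀ i e, InvE Q e → PosW b κ e (ow Q i) → LetQ Q i e) (e : b.support → ℝ) (he : InvE Q e) (l : List b.support) (hl : RedW b (rw Q l)) (hP : PosW b κ e (rw Q l))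
    {n : HRt (HQ Q)} (hn : ∀ w, pH (HQ Q) w n = gnl b ℂ (rw Q l).reverse) {ν : Measure (HRt (HQ Q))} (hν : RH (UnH (HQ Q) n) ν) :
    ∃ C : ℝ, 0 < C ∧ ∀ y : HRt (HQ Q), ∫⁻ u, ENNReal.ofReal (Fe e (n * u * y) ^ df K L) ∂ν ≤ ENNReal.ofReal (C * Fe (eW b e (rw Q l)) y ^ df K L) := by
  classical
  induction l generalizing n ν with
  | nil =>
    have hn1 : n = 1 := pH_ext fun w => by
      rw [hn w, map_one]
      rfl
    have h0 : RH (UnH (HQ Q) n) (Measure.dirac (1 : HRt (HQ Q))) := w1_dirac hn1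
    obtain ⟨c, hc0, hc1, hc⟩ := rh_uniq (UnH_closed n) hν h0
    refine ⟨c.toReal, ENNReal.toReal_pos hc0 hc1, fun y => ?_⟩
    rw [hc, lintegral_smul_measure, smul_eq_mul, ENNReal.ofReal_mul ENNReal.toReal_nonneg, ENNReal.ofReal_toReal hc1]
    refine mul_le_mul' le_rfl ?_
    rw [lintegral_dirac' _ (w1_meas (w1_c1 n y)), hn1, one_mul, one_mul]
    exact le_rfl
  | cons i l ih =>
    have hcat : rw Q (i :: l) = ow Q i ++ rw Q l := rfl
    rw [hcat] at hl hP hn ⊢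
    have hl' : RedW b (rw Q l) := w1_suffix hl
    rw [H29Q.posW_append] at hP
    have hrev : (ow Q i ++ rw Q l).reverse = (rw Q l).reverse ++ (ow Q i).reverse := List.reverse_append
    have hred : (iwG b ℂ).Red ((rw Q l).reverse ++ (ow Q i).reverse) := by
      rw [← hrev]
      exact c5f_red hl
    obtain ⟨m, hmd⟩ : ∃ m, m = embH (HQ Q) ⟨nW b L (ow Q i), nW_ow Q i⟩ := ⟨_, rfl⟩
    obtain ⟨n', hnd⟩ : ∃ n', n' = embH (HQ Q) ⟨nW b L (rw Q l), nW_rw Q l⟩ := ⟨_, rfl⟩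
    have hm : ∀ w, pH (HQ Q) w m = gnl b ℂ (ow Q i).reverse := fun w => by
      rw [hmd]
      exact pH_nW rfl w
    have hn' : ∀ w, pH (HQ Q) w n' = gnl b ℂ (rw Q l).reverse := fun w => by
      rw [hnd]
      exact pH_nW rfl w
    have hnm : n = n' * m := pH_ext fun w => by
      rw [hn w, map_mul, hn' w, hm w, hrev]
      unfold gnl
      rw [List.map_append, List.prod_append]
    obtain ⟨μ, hμ⟩ := rh_ex (UnH_closed (H := HQ Q) n')
    obtain ⟨ν₁, hν₁⟩ := rh_ex (LoH_closed (H := HQ Q) (orb Q i)ᶜ)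
    have sμ : SigmaFinite μ := rh_sigma hμ
    have sν : SigmaFinite ν₁ := rh_sigma hν₁
    have hch := chain_RH (hypH_HQ Q (w1_inv Q i)) (blk_ow Q i) hred hn' hm hμ hν₁
    rw [← hnm] at hch
    obtain ⟨c, hc0, hc1, hc⟩ := rh_uniq (UnH_closed n) hν hch
    obtain ⟨C₁, hC₁, h1⟩ := ih hl' hP.2 hn' hμ
    obtain ⟨C₂, hC₂, h2⟩ := hL i (eW b e (rw Q l)) (H29Q.invE_eW (H29Q.wW_comm_rw l) he) hP.1 m hm ν₁ hν₁
    refine ⟨c.toReal * (C₁ * C₂), mul_pos (ENNReal.toReal_pos hc0 hc1) (mul_pos hC₁ hC₂), fun y => ?_⟩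
    rw [hc, lintegral_smul_measure, smul_eq_mul, mul_assoc c.toReal, ENNReal.ofReal_mul ENNReal.toReal_nonneg, ENNReal.ofReal_toReal hc1]
    refine mul_le_mul' le_rfl ?_
    have hΦ : Continuous fun p : HRt (HQ Q) × HRt (HQ Q) => m⁻¹ * p.1 * m * p.2 := c5e_c3 _
    have hFm := w1_meas (K := K) (L := L) (e := e) (w1_c1 n y)
    have hFm2 := w1_meas (K := K) (L := L) (e := e) (c5e_c2 n' m y)
    rw [lintegral_map hFm hΦ.measurable]
    have e1 : ∀ p : HRt (HQ Q) × HRt (HQ Q), ENNReal.ofReal (Fe e (n * (m⁻¹ * p.1 * m * p.2) * y) ^ df K L) = ENNReal.ofReal (Fe e (n' * p.1 * (m * p.2 * y)) ^ df K L) := fun p => by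
      have e2 : n * (m⁻¹ * p.1 * m * p.2) * y = n' * p.1 * (m * p.2 * y) := by
        rw [hnm]
        group
      rw [e2]
    rw [lintegral_congr e1, lintegral_prod_symm _ hFm2.aemeasurable, H29Q.eW_append]
    calc ∫⁻ x, ∫⁻ u, ENNReal.ofReal (Fe e (n' * u * (m * x * y)) ^ df K L) ∂μ ∂ν₁
        ≤ ∫⁻ x, ENNReal.ofReal C₁ * ENNReal.ofReal (Fe (eW b e (rw Q l)) (m * x * y) ^ df K L) ∂ν₁ := by
          refine lintegral_mono fun x => ?_
          rw [← ENNReal.ofReal_mul hC₁.le]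
          exact h1 _
      _ = ENNReal.ofReal C₁ * ∫⁻ x, ENNReal.ofReal (Fe (eW b e (rw Q l)) (m * x * y) ^ df K L) ∂ν₁ := lintegral_const_mul' _ _ ENNReal.ofReal_ne_top
      _ ≤ ENNReal.ofReal C₁ * ENNReal.ofReal (C₂ * Fe (eW b (eW b e (rw Q l)) (ow Q i)) y ^ df K L) := mul_le_mul' le_rfl (h2 y)
      _ = ENNReal.ofReal (C₁ * C₂ * Fe (eW b (eW b e (rw Q l)) (ow Q i)) y ^ df K L) := by
          rw [← ENNReal.ofReal_mul hC₁.le, mul_assoc]

/-- **`ArchQ` from the letters.** PROOF: `NoH_UnH`, `pH_nW`, `int_rw`. -/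
theorem archQ_of (Q : QS b K L) [IsGalois K L] (hL : ∀ κ : ℝ, 1 < κ → ∀ i e, InvE Q e → PosW b κ e (ow Q i) → LetQ Q i e) : ArchQ Q := by
  intro κ hκ e he J hJ l hred hP hW ν hν n hn
  have hn1 : ∀ w, pH (HQ Q) w (embH (HQ Q) n) = gnl b ℂ (rw Q l).reverse := fun w => pH_nW hn w
  rw [NoH_UnH hred hW hn1] at hν
  obtain ⟨C, hC, h⟩ := int_rw Q (hL κ hκ) e he l hred hP hn1 hν
  refine ⟨C, hC, fun y => ?_⟩
  have h1 := h y
  have e1 : ∀ u : HRt (HQ Q), ENNReal.ofReal (Fe e (embH (HQ Q) n * u * y) ^ df K L) = ENNReal.ofReal (Fe e (embH (HQ Q) n * (u * y)) ^ df K L) := fun u => by rw [mul_assoc]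
  rwa [lintegral_congr e1] at h1

end

end Pool.Agent.Lib.L8.QF
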