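import Pool.Agent.Lib.L8.QF.LP
import Pool.Agent.Lib.L8.QF.B2
import Pool.Agent.Lib.L8.QF.FQ
import Pool.Agent.Lib.L8.QF.R1
import Pool.Agent.Lib.L8.QF.W1

/-!
# QF, module C5Q, PO0 (design helper33): the letter groups in the real group
-/

namespace Pool.Agent.Lib.L8.QF

open MeasureTheory Matrix NumberField NumberField.InfinitePlace IsDedekindDomain Pool.Agent.Lib.H89N Pool.Agent.Lib.H33W Pool.Agent.Lib.H67G Pool.Agent.Lib.L1S Pool.Agent.Lib.L8 Pool.Agent.Lib.L8.FL
open scoped ENNReal Pointwise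

noncomputable section

set_option linter.unusedSectionVars false
set_option linter.unusedVariables false

variable {ι M N : Type} [Fintype ι] [DecidableEq ι] [AddCommGroup M] [Module ℚ M] [AddCommGroup N] [Module ℚ N]
  {P : RootPairing ι ℚ M N} [P.IsCrystallographic] [P.IsReduced] [P.IsIrreducible] [P.IsRootSystem] {b : P.Base}
  {K L : Type} [Field K] [NumberField K] [Field L] [NumberField L] [Algebra K L] [IsGalois K L]

/-- PROOF: `H29Q.orth_pair` or the definition: all pairs in the orbit are orthogonal (`c2_orb..`, `ow_orth`). -/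
theorem orL_orb {Q : QS b K L} {i : b.support} (hO : H29Q.Orth Q i) : OrL b (orb Q i).toList := by
  refine ⟨Finset.nodup_toList _, fun j hj k hk hjk => ?_⟩
  exact H29Q.orth_pair hO (Finset.mem_toList.1 hj) (Finset.mem_toList.1 hk) hjk

/-- **Sufficient condition** for an element of `GR b L` to be in the letter group: fixed and every component in `Uw (ow Q i).reverse`. PROOF: `mem_UR_iff` (components in `gU`), `fix_HRs` (QF/H5), `LoH_UnH` with `blk_ow` and `m = embH (nW (ow Q i))` (`nW_ow`, `pH_nW`), `mem_UnH_iff`. -/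
theorem po_mem (Q : QS b K L) (i : b.support) {g : GR b L} (hg : FxE Q g.1.1) (h : ∀ w, pw b w g ∈ (iwG b ℂ).Uw (ow Q i).reverse) : ∃ u : HRt (HQ Q), u.1 = g ∧ u ∈ LoH (HQ Q) (orb Q i)ᶜ := by
  have hU : g ∈ UR b L := mem_UR_iff.2 fun w => (h w).1
  have hH : g ∈ HRs (HQ Q) := fix_HRs Q hU hg
  refine ⟨⟨g, hH⟩, rfl, ?_⟩
  have hm : ∀ w, pH (HQ Q) w (embH (HQ Q) ⟨nW b L (ow Q i), nW_ow Q i⟩) = gnl b ℂ (ow Q i).reverse := fun w => pH_nW rfl w
  rw [LoH_UnH (blk_ow Q i) hm, mem_UnH_iff hm]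
  exact fun w => h w

/-- **Necessary condition.** PROOF: `LoH_UnH`, `mem_UnH_iff`. -/
theorem po_Uw (Q : QS b K L) (i : b.support) {u : HRt (HQ Q)} (hu : u ∈ LoH (HQ Q) (orb Q i)ᶜ) (w : InfinitePlace L) : pH (HQ Q) w u ∈ (iwG b ℂ).Uw (ow Q i).reverse := by
  have hm : ∀ w, pH (HQ Q) w (embH (HQ Q) ⟨nW b L (ow Q i), nW_ow Q i⟩) = gnl b ℂ (ow Q i).reverse := fun w => pH_nW rfl w
  rw [LoH_UnH (blk_ow Q i) hm, mem_UnH_iff hm] at hu
  exact hu w

end

end Pool.Agent.Lib.L8.QF
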