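import Pool.Agent.Lib.L8.QF.PO0
import Pool.Agent.Lib.L8.QF.FQ2

/-!
# QF, module C5Q, PP (design helper33): the letter group of an adjacent pair in the real group
-/

namespace Pool.Agent.Lib.L8.QF

open MeasureTheory Matrix NumberField NumberField.InfinitePlace IsDedekindDomain Pool.Agent.Lib.H89N Pool.Agent.Lib.H33W Pool.Agent.Lib.H67G Pool.Agent.Lib.L1S Pool.Agent.Lib.L8 Pool.Agent.Lib.L8.FL
open scoped ENNReal Pointwise

noncomputable section

set_option linter.unusedSectionVars false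
set_option linter.unusedVariables false

variable {ι M N : Type} [Fintype ι] [DecidableEq ι] [AddCommGroup M] [Module ℚ M] [AddCommGroup N] [Module ℚ N]
  {P : RootPairing ι ℚ M N} [P.IsCrystallographic] [P.IsReduced] [P.IsIrreducible] [P.IsRootSystem] {b : P.Base}
  {K L : Type} [Field K] [NumberField K] [Field L] [NumberField L] [Algebra K L] [IsGalois K L]

/-- The third coordinate `z = - a σ(a) / 2 + η q`. -/
def hz {K F : Type} [Field K] [NumberField K] [Field F] [NumberField F] [Algebra K F] (σ : F ≃ₐ[K] F) (η : F) (p : EE F × EE K) : EE F :=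
  -((1 / 2 : ℝ) • (p.1 * sE σ p.1)) + mixedEmbedding F η * iE (algebraMap K F) p.2

/-- The data of the pair (`fo_pair`). -/
structure PrD (Q : QS b K L) (i j : b.support) (σ : FO Q i ≃ₐ[K] FO Q i) (η : FO Q i) : Prop where
  ne : i ≠ j
  orb : orb Q i = {i, j}
  ow : ow Q i = [i, j, i]
  adj : Adj b i j
  gal : IsGalois K (FO Q i)
  deg : Module.finrank K (FO Q i) = 2
  sne : σ ≠ 1
  inv : ∀ x, σ (σ x) = x
  ene : η ≠ 0
  eta : σ η = -η
  act : ∀ s : L ≃ₐ[K] L, s ∉ StQ Q i → ∀ r : EE (FO Q i), sE s (jE Q i r) = jE Q i (sE σ r)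

/-- PROOF: `H29Q.ow_adj`, `fo_pair`. -/
theorem prD_ex (Q : QS b K L) {i : b.support} (hO : ¬H29Q.Orth Q i) : ∃ j σ η, PrD Q i j σ η := by
  obtain ⟨j, h1, h2, h3, h4, h5⟩ := H29Q.ow_adj (Q := Q) (i := i) (not_not.1 hO)
  obtain ⟨σ, η, g1, g2, g3, g4, g5, g6, _, g7⟩ := fo_pair Q h1.symm h2
  exact ⟨j, σ, η, h1.symm, h2, h3, ⟨h4, h5⟩, g1, g2, g3, g4, g5, g6, g7⟩

variable {Q : QS b K L} {i j : b.support} {σ : FO Q i ≃ₐ[K] FO Q i} {η : FO Q i}

/-- The component of the element with the coordinates `(a, q)`. -/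
def vC (D : PrD Q i j σ η) (p : EE (FO Q i) × EE K) (w : InfinitePlace L) : GF b ℂ :=
  gx b ℂ (j : ι) (evw w (jE Q i (sE σ p.1))) * gxT b i j (evw w (jE Q i (hz σ η p))) * gx b ℂ (i : ι) (evw w (jE Q i p.1))

/-! ## Auxiliary lemmas -/

/-- A criterion for fixed elements by components. -/
theorem pp_fx (Q : QS b K L) (g : GR b L) (h : ∀ (s : L ≃ₐ[K] L) (w : InfinitePlace L) (ε : Bool), (∀ x : EE L, evw w (sE s x) = cjb ε (evw (w.comap (s : L →+* L)) x)) →
    pw b w g = th (Q.da s) ε (pw b (w.comap (s : L →+* L)) g)) : FxE Q g.1.1 := by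
  intro s
  refine DA.cj_eq _ fun r c => ?_
  refine evw_ext fun w => ?_
  obtain ⟨ε, hε⟩ := evw_sE s w
  have h1 := h s w ε hε
  have h2 : (pw b w g).1.1 ((Q.da s).pI r) ((Q.da s).pI c) = cjb ε ((pw b (w.comap (s : L →+* L)) g).1.1 r c) := by
    rw [h1, th_entry]
  have h3 : evw w (g.1.1 ((Q.da s).pI r) ((Q.da s).pI c)) = cjb ε (evw (w.comap (s : L →+* L)) (g.1.1 r c)) := h2
  rw [Matrix.map_apply, hε, h3]

/-- The element with the coordinates `p`. -/
def ppG (Q : QS b K L) (i j : b.support) (σ : FO Q i ≃ₐ[K] FO Q i) (η : FO Q i) (p : EE (FO Q i) × EE K) : GR b L :=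
  xR b L (j : ι) (jE Q i (sE σ p.1)) * ((emb b L (b1m b L i 1))⁻¹ * xR b L (j : ι) (jE Q i (hz σ η p)) * emb b L (b1m b L i 1)) * xR b L (i : ι) (jE Q i p.1)

theorem ppG_pw (D : PrD Q i j σ η) (p : EE (FO Q i) × EE K) (w : InfinitePlace L) : pw b w (ppG Q i j σ η p) = vC D p w := by
  unfold ppG vC gxT
  rw [map_mul, map_mul, map_mul, map_mul, map_inv, pw_x, pw_x, pw_x, pw_n]

theorem pp_iE {K F : Type} [Field K] [NumberField K] [Field F] [NumberField F] [Algebra K F] (σ : F ≃ₐ[K] F) (q : EE K) : sE σ (iE (algebraMap K F) q) = iE (algebraMap K F) q := by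
  rw [sE_iE, ← iE_comp]
  congr 1
  congr 1
  exact RingHom.ext fun x => σ.commutes x

theorem hz_cont {K F : Type} [Field K] [NumberField K] [Field F] [NumberField F] [Algebra K F] (σ : F ≃ₐ[K] F) (η : F) : Continuous (hz (K := K) σ η) := by
  unfold hz
  have h1 : Continuous fun p : EE F × EE K => sE σ p.1 := (sE_cont σ).comp continuous_fst
  have h2 : Continuous fun p : EE F × EE K => iE (algebraMap K F) p.2 := (iE_cont _).comp continuous_snd
  have h3 : Continuous fun p : EE F × EE K => p.1 * sE σ p.1 := continuous_fst.mul h1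
  have h4 : Continuous fun p : EE F × EE K => (1 / 2 : ℝ) • (p.1 * sE σ p.1) := h3.const_smul (1 / 2 : ℝ)
  exact h4.neg.add (continuous_const.mul h2)

theorem ppG_cont (Q : QS b K L) (i j : b.support) (σ : FO Q i ≃ₐ[K] FO Q i) (η : FO Q i) : Continuous (ppG Q i j σ η) := by
  unfold ppG
  have h1 : Continuous fun p : EE (FO Q i) × EE K => xR b L (j : ι) (jE Q i (sE σ p.1)) := (t4_xR_cont b L _).comp ((jE_cont Q i).comp ((sE_cont σ).comp continuous_fst))
  have h2 : Continuous fun p : EE (FO Q i) × EE K => xR b L (j : ι) (jE Q i (hz σ η p)) := (t4_xR_cont b L _).comp ((jE_cont Q i).comp (hz_cont σ η))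
  have h3 : Continuous fun p : EE (FO Q i) × EE K => xR b L (i : ι) (jE Q i p.1) := (t4_xR_cont b L _).comp ((jE_cont Q i).comp continuous_fst)
  exact (h1.mul ((continuous_const.mul h2).mul continuous_const)).mul h3

theorem pp_hz (D : PrD Q i j σ η) (p : EE (FO Q i) × EE K) : -sE σ (hz σ η p) - p.1 * sE σ p.1 = hz σ η p := by
  have e1 : sE σ (sE σ p.1) = p.1 := by
    rw [← sE_mul]
    have e2 : σ * σ = 1 := AlgEquiv.ext fun x => D.inv x
    rw [e2, sE_one]
  unfold hz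
  rw [map_add, map_neg, sE_smul, map_mul, map_mul, e1, sE_emb, D.eta, map_neg, pp_iE, mul_comm (sE σ p.1) p.1]
  have e3 : p.1 * sE σ p.1 = (1 / 2 : ℝ) • (p.1 * sE σ p.1) + (1 / 2 : ℝ) • (p.1 * sE σ p.1) := by
    rw [← add_smul]
    norm_num
  obtain ⟨A, hA⟩ : ∃ A, A = (1 / 2 : ℝ) • (p.1 * sE σ p.1) := ⟨_, rfl⟩
  rw [← hA] at e3 ⊢
  rw [e3]
  ring

theorem pp_sp (D : PrD Q i j σ η) (s : L ≃ₐ[K] L) : (s ∈ StQ Q i → (Q.da s).sp i = i ∧ (Q.da s).sp j = j) ∧ (s ∉ StQ Q i → (Q.da s).sp i = j ∧ (Q.da s).sp j = i) := by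
  classical
  have h0 : ∀ k : b.support, k ∈ orb Q i → (Q.da s).sp k ∈ orb Q i := by
    intro k hk
    unfold orb at hk ⊢
    rw [Finset.mem_filter] at hk ⊢
    obtain ⟨_, t, ht⟩ := hk
    exact ⟨Finset.mem_univ _, s * t, by rw [sp_mul, ht]⟩
  have hi : i ∈ orb Q i := by
    rw [D.orb]
    simp
  have hj : j ∈ orb Q i := by
    rw [D.orb]
    simp
  have h1 := h0 i hi
  have h2 := h0 j hj
  rw [D.orb, Finset.mem_insert, Finset.mem_singleton] at h1 h2
  have h3 : (Q.da s).sp i ≠ (Q.da s).sp j := fun h => D.ne ((Q.da s).sp.injective h)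
  constructor
  · intro hs
    have h4 : (Q.da s).sp i = i := hs
    rw [h4] at h3
    refine ⟨h4, ?_⟩
    rcases h2 with h2 | h2
    · exact absurd h2.symm h3
    · exact h2
  · intro hs
    have h4 : (Q.da s).sp i = j := by
      rcases h1 with h1 | h1
      · exact absurd h1 hs
      · exact h1
    rw [h4] at h3
    refine ⟨h4, ?_⟩
    rcases h2 with h2 | h2
    · exact h2
    · exact absurd h2.symm h3

theorem pp_fix (D : PrD Q i j σ η) (p : EE (FO Q i) × EE K) : FxE Q (ppG Q i j σ η p).1.1 := by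
  refine pp_fx Q _ fun s w ε hε => ?_
  rw [ppG_pw D, ppG_pw D]
  by_cases hs : s ∈ StQ Q i
  · obtain ⟨h1, h2⟩ := (pp_sp D s).1 hs
    have h3 : ∀ x : EE (FO Q i), cjb ε (evw (w.comap (s : L →+* L)) (jE Q i x)) = evw w (jE Q i x) := fun x => by
      rw [← hε, fo_sE Q i hs]
    unfold vC gxT
    rw [map_mul, map_mul, map_mul, map_mul, map_inv, th_x, th_x, th_x, th_n, h1, h2, h3, h3, h3]
  · obtain ⟨h1, h2⟩ := (pp_sp D s).2 hs
    have h3 : ∀ x : EE (FO Q i), cjb ε (evw (w.comap (s : L →+* L)) (jE Q i x)) = evw w (jE Q i (sE σ x)) := fun x => by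
      rw [← hε, D.act s hs]
    have e1 : sE σ (sE σ p.1) = p.1 := by
      rw [← sE_mul]
      have e2 : σ * σ = 1 := AlgEquiv.ext fun x => D.inv x
      rw [e2, sE_one]
    have h4 : th (Q.da s) ε (vC D p (w.comap (s : L →+* L))) =
        gx b ℂ (i : ι) (evw w (jE Q i p.1)) * gxT b j i (evw w (jE Q i (sE σ (hz σ η p)))) * gx b ℂ (j : ι) (evw w (jE Q i (sE σ p.1))) := by
      unfold vC gxT
      rw [map_mul, map_mul, map_mul, map_mul, map_inv, th_x, th_x, th_x, th_n, h1, h2, h3, h3, h3, e1]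
    rw [h4, lp_swap D.adj]
    unfold vC
    have h5 : -evw w (jE Q i (sE σ (hz σ η p))) - evw w (jE Q i p.1) * evw w (jE Q i (sE σ p.1)) = evw w (jE Q i (hz σ η p)) := by
      have h6 := congrArg (fun x => evw w (jE Q i x)) (pp_hz D p)
      simp only [map_sub, map_neg, map_mul] at h6
      exact h6
    rw [h5]

/-- **Existence.** PROOF: `g = xR j (jE (σ a)) * (n_i⁻¹ * xR j (jE z) * n_i) * xR i (jE a) ∈ GR b L`, `n_i = emb (b1m i 1)` (`pw_x`, `pw_n`); its components are `vC` and in `Uw [i, j, i]` (`lp_adj_mem`). It is fixed: for `s ∈ StQ` clear (`fo_sE`; `s` fixes `i` and `j`), for `s ∉ StQ` `s` exchanges `i` and `j` and the image has the components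
`gx i (evw (sE s c)) * gxT j i (evw (sE s z)) * gx j (evw (sE s a))` with `c = jE (σ a)`: `= gx j (..a..) * gxT i j (- sE s z - sE s c * sE s a) * gx i (..)` (`lp_swap`), and `sE s (jE x) = jE (sE σ x)`, `sE σ (sE σ a) = a`, `- sE σ z - a σ(a) = z` (`hz`: `sE σ (η q) = - η q`). (The images of the generators under `X ↦ cj (X.map (sE s))`: `DA.cj_ex`-lemmas as in
`r1e`, `xx_map`; or state everything with matrices over `EE L` and compare components `evw w`.) Then `po_mem`. Continuity: `continuous_induced_rng`, entries. -/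
theorem pp_ex (D : PrD Q i j σ η) : ∃ x : EE (FO Q i) × EE K → HRt (HQ Q), Continuous x ∧ (∀ p w, pH (HQ Q) w (x p) = vC D p w) ∧ ∀ p, x p ∈ LoH (HQ Q) (orb Q i)ᶜ := by
  have key : ∀ p : EE (FO Q i) × EE K, ∃ u : HRt (HQ Q), u.1 = ppG Q i j σ η p ∧ u ∈ LoH (HQ Q) (orb Q i)ᶜ := fun p => by
    refine po_mem Q i (pp_fix D p) fun w => ?_
    rw [ppG_pw D, D.ow]
    exact lp_adj_mem D.adj _ _ _
  choose x hx hx' using key
  refine ⟨x, ?_, fun p w => ?_, hx'⟩
  · rw [continuous_induced_rng]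
    have e : (Subtype.val ∘ x) = ppG Q i j σ η := funext hx
    rw [e]
    exact ppG_cont Q i j σ η
  · show pw b w (x p).1 = vC D p w
    rw [hx, ppG_pw D]

end

end Pool.Agent.Lib.L8.QF
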