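import Pool.Agent.Lib.L8.QF.PP

/-!
# QF, module C5Q, PP2 (design helper33): the letter group of an adjacent pair in the real group
-/

namespace Pool.Agent.Lib.L8.QF

open MeasureTheory Matrix NumberField NumberField.InfinitePlace IsDedekindDomain Pool.Agent.Lib.H89N Pool.Agent.Lib.H33W Pool.Agent.Lib.H67G Pool.Agent.Lib.L1S Pool.Agent.Lib.L8 Pool.Agent.Lib.L8.FL
open scoped ENNReal Pointwise

noncomputable section

set_option linter.unusedSectionVars false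
set_option linter.unusedVariables false

variable {ι M N : Type} [Fintype ι] [DecidableEq ι] [AddCommGroup M] [Module ℚ M] [AddCommGroup N] [Module ℚ N]
  {P : RootPairing ι ℚ M N} [P.IsCrystallographic] [P.IsReduced] [P.IsIrreducible] [P.IsRootSystem] {b : P.Base}
  {K L : Type} [Field K] [NumberField K] [Field L] [NumberField L] [Algebra K L] [IsGalois K L]

variable {Q : QS b K L} {i j : b.support} {σ : FO Q i ≃ₐ[K] FO Q i} {η : FO Q i}

/-- The components and the action, with the same conjugation. -/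
theorem pp2_th (Q : QS b K L) (s : L ≃ₐ[K] L) (w : InfinitePlace L) : ∃ ε : Bool, (∀ x : EE L, evw w (sE s x) = cjb ε (evw (w.comap (s : L →+* L)) x)) ∧
    ∀ y : HRt (HQ Q), pH (HQ Q) w y = th (Q.da s) ε (pH (HQ Q) (w.comap (s : L →+* L)) y) := by
  obtain ⟨ε, h⟩ := evw_sE s w
  refine ⟨ε, h, fun y => ?_⟩
  refine Subtype.ext (Units.ext (Matrix.ext fun r c => ?_))
  obtain ⟨r, rfl⟩ := (Q.da s).pI.surjective r
  obtain ⟨c, rfl⟩ := (Q.da s).pI.surjective c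
  rw [th_entry]
  show evw w (y.1.1.1 ((Q.da s).pI r) ((Q.da s).pI c)) = cjb ε (evw (w.comap (s : L →+* L)) (y.1.1.1 r c))
  rw [r1e_entry, h]

theorem pp2_thT {τ : Equiv.Perm ι} (hτ : DA b τ) (ε : Bool) (k l : b.support) (z : ℂ) : th hτ ε (gxT b k l z) = gxT b (hτ.sp k) (hτ.sp l) (cjb ε z) := by
  unfold gxT
  rw [map_mul, map_mul, map_inv, th_n, th_x]

/-- The third coordinate as a matrix entry. -/
theorem pp2_z {i j : b.support} (hadj : Adj b i j) {H : Subgroup (GK b L)} (u : HRt H)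
    (h : ∀ w, ∃ z : ℂ, pH H w u = gx b ℂ (j : ι) (evw w (cH j u)) * gxT b i j z * gx b ℂ (i : ι) (evw w (cH i u))) :
    ∃ z : EE L, ∀ w, pH H w u = gx b ℂ (j : ι) (evw w (cH j u)) * gxT b i j (evw w z) * gx b ℂ (i : ι) (evw w (cH i u)) := by
  refine ⟨((emb b L (b1m b L i 1)) * (xR b L (j : ι) (cH j u))⁻¹ * u.1 * (xR b L (i : ι) (cH i u))⁻¹ * (emb b L (b1m b L i 1))⁻¹).1.1 (Sum.inl j) (Sum.inr (ng P j)), fun w => ?_⟩
  obtain ⟨z, hz⟩ := h w
  have h1 : pw b w ((emb b L (b1m b L i 1)) * (xR b L (j : ι) (cH j u))⁻¹ * u.1 * (xR b L (i : ι) (cH i u))⁻¹ * (emb b L (b1m b L i 1))⁻¹) = gx b ℂ (j : ι) z := by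
    rw [map_mul, map_mul, map_mul, map_mul, map_inv, map_inv, map_inv, pw_n, pw_x, pw_x]
    have h2 : pw b w u.1 = pH H w u := rfl
    rw [h2, hz]
    unfold gxT
    group
  have h3 : evw w (((emb b L (b1m b L i 1)) * (xR b L (j : ι) (cH j u))⁻¹ * u.1 * (xR b L (i : ι) (cH i u))⁻¹ * (emb b L (b1m b L i 1))⁻¹).1.1 (Sum.inl j) (Sum.inr (ng P j))) =
      gc b ℂ j (pw b w ((emb b L (b1m b L i 1)) * (xR b L (j : ι) (cH j u))⁻¹ * u.1 * (xR b L (i : ι) (cH i u))⁻¹ * (emb b L (b1m b L i 1))⁻¹)) := rfl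
  rw [h3, h1, lp_gc, if_pos rfl]
  exact hz

theorem pp2_orb (D : PrD Q i j σ η) (s : L ≃ₐ[K] L) : ((Q.da s).sp i = i ∧ (Q.da s).sp j = j) ∨ ((Q.da s).sp i = j ∧ (Q.da s).sp j = i) := by
  classical
  have hj : j ∈ orb Q i := by
    rw [D.orb]
    exact Finset.mem_insert_of_mem (Finset.mem_singleton_self j)
  obtain ⟨s₀, hs₀⟩ := (Finset.mem_filter.1 hj).2
  have h1 : (Q.da s).sp i ∈ orb Q i := Finset.mem_filter.2 ⟨Finset.mem_univ _, s, rfl⟩
  have h2 : (Q.da s).sp j ∈ orb Q i := Finset.mem_filter.2 ⟨Finset.mem_univ _, s * s₀, by rw [sp_mul, hs₀]⟩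
  rw [D.orb, Finset.mem_insert, Finset.mem_singleton] at h1 h2
  have h3 : (Q.da s).sp i ≠ (Q.da s).sp j := fun h => D.ne ((Q.da s).sp.injective h)
  rcases h1 with h1 | h1
  · rcases h2 with h2 | h2
    · exact absurd (h1.trans h2.symm) h3
    · exact Or.inl ⟨h1, h2⟩
  · rcases h2 with h2 | h2
    · exact Or.inr ⟨h1, h2⟩
    · exact absurd (h1.trans h2.symm) h3

/-- **Surjectivity.** PROOF: `u ∈ LoH`: `po_Uw`, `lp_adj`: `pH w u = gx j (evw w c) * gxT z_w * gx i (evw w a)`, `a = cH i u`, `c = cH j u`. `a` is fixed by `StQ` (`cH_s`), `a = jE a'` (`fo_desc`), `c = sE s a = jE (σ a')` for `s ∉ StQ`. `z_w = evw w z` with `z ∈ EE L` a matrix entry: `z = (inl j, inr (ng j))`-entry of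
`n_i xR j (-c) u xR i (-a) n_i⁻¹` in `GR b L` (`gc j (gx j z) = z`). `z` is fixed by `StQ`, and `sE s z = - z - a c` for `s ∉ StQ`: apply `pH_th` (with `ε` from `evw_sE`; use `r1e_entry`), `lp_swap`, `lp_uniq`; or compute with the entry. So `z = jE z'` (`fo_desc`), `sE σ z' = - z' - a' σ(a')` (`jE` injective), `z' + (1/2) a' σ(a')` is antifixed: `fo_anti`. So `u = x p`. -/
theorem pp_surj (D : PrD Q i j σ η) {u : HRt (HQ Q)} (hu : u ∈ LoH (HQ Q) (orb Q i)ᶜ) : ∃ p, ∀ w, pH (HQ Q) w u = vC D p w := by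
  classical
  have := D.gal
  have hUw : ∀ w, ∃ z : ℂ, pH (HQ Q) w u = gx b ℂ (j : ι) (evw w (cH j u)) * gxT b i j z * gx b ℂ (i : ι) (evw w (cH i u)) := fun w => by
    have h1 := po_Uw Q i hu w
    rw [D.ow] at h1
    exact lp_adj D.adj h1
  obtain ⟨z, hzw⟩ := pp2_z D.adj u hUw
  -- the coordinate `a`
  obtain ⟨a', ha'⟩ : ∃ a', jE Q i a' = cH i u := fo_desc Q i fun s hs => by
    have h1 := cH_s Q s u i
    rw [mem_StQ.1 hs] at h1
    exact h1.symm
  -- an element which exchanges the two roots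
  have hj : j ∈ orb Q i := by
    rw [D.orb]
    exact Finset.mem_insert_of_mem (Finset.mem_singleton_self j)
  obtain ⟨s₀, hs₀⟩ := (Finset.mem_filter.1 hj).2
  have hs₀' : s₀ ∉ StQ Q i := fun h => D.ne ((mem_StQ.1 h).symm.trans hs₀)
  have hc : cH j u = jE Q i (sE σ a') := by
    rw [← hs₀, cH_s, ← ha', D.act s₀ hs₀']
  -- the action on `z`
  have key1 : ∀ s ∈ StQ Q i, sE s z = z := fun s hs => evw_ext fun w => by
    obtain ⟨ε, h1, h2⟩ := pp2_th Q s w
    have h3 := h2 u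
    rcases pp2_orb D s with ⟨hi, hj⟩ | ⟨hi, hj⟩
    · rw [hzw w, hzw (w.comap (s : L →+* L)), map_mul, map_mul, pp2_thT, th_x, th_x, hi, hj, ← h1 z] at h3
      exact (lp_uniq D.adj h3).2.1.symm
    · exact absurd ((mem_StQ.1 hs).symm.trans hi) D.ne
  have key2 : sE s₀ z = -z - cH i u * cH j u := evw_ext fun w => by
    obtain ⟨ε, h1, h2⟩ := pp2_th Q s₀ w
    have h3 := h2 u
    rcases pp2_orb D s₀ with ⟨hi, hj⟩ | ⟨hi, hj⟩
    · exact absurd (hi.symm.trans hs₀) D.ne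
    · rw [hzw w, hzw (w.comap (s₀ : L →+* L)), map_mul, map_mul, pp2_thT, th_x, th_x, hi, hj, ← h1 z, ← h1 (cH j u), ← h1 (cH i u), lp_swap D.adj] at h3
      obtain ⟨h4, h5, h6⟩ := lp_uniq D.adj h3
      rw [← h4, ← h6] at h5
      rw [map_sub, map_neg, map_mul, h5]
      ring
  obtain ⟨z', hz'⟩ := fo_desc Q i key1
  have key3 : sE σ z' = -z' - a' * sE σ a' := by
    apply jE_inj Q i
    rw [← D.act s₀ hs₀', hz', key2, map_sub, map_neg, map_mul, hz', ha', hc]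
  have hinv : sE σ (sE σ a') = a' := by
    rw [← sE_mul]
    have h1 : σ * σ = 1 := AlgEquiv.ext fun x => D.inv x
    rw [h1, sE_one]
  have key4 : sE σ (z' + (1 / 2 : ℝ) • (a' * sE σ a')) = -(z' + (1 / 2 : ℝ) • (a' * sE σ a')) := by
    rw [map_add, sE_smul, map_mul, hinv, key3, mul_comm (sE σ a') a']
    have h1 : a' * sE σ a' = (1 / 2 : ℝ) • (a' * sE σ a') + (1 / 2 : ℝ) • (a' * sE σ a') := by
      rw [← add_smul]
      norm_num
    generalize (1 / 2 : ℝ) • (a' * sE σ a') = h at h1 ⊢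
    rw [h1]
    abel
  obtain ⟨q, hq⟩ := fo_anti D.deg D.sne D.ene D.eta key4
  refine ⟨(a', q), fun w => ?_⟩
  have h5 : hz σ η (a', q) = z' := by
    show -((1 / 2 : ℝ) • (a' * sE σ a')) + mixedEmbedding (FO Q i) η * iE (algebraMap K (FO Q i)) q = z'
    rw [← hq]
    abel
  show pH (HQ Q) w u = gx b ℂ (j : ι) (evw w (jE Q i (sE σ a'))) * gxT b i j (evw w (jE Q i (hz σ η (a', q)))) * gx b ℂ (i : ι) (evw w (jE Q i a'))
  rw [h5, hz', ← hc, ha']
  exact hzw w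

end

end Pool.Agent.Lib.L8.QF
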