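import Pool.Agent.Lib.L8.QF.PP2

/-!
# QF, module C5Q, PP3 (design helper33): the letter group of an adjacent pair in the real group
-/

namespace Pool.Agent.Lib.L8.QF

open MeasureTheory Matrix NumberField NumberField.InfinitePlace IsDedekindDomain Pool.Agent.Lib.H89N Pool.Agent.Lib.H33W Pool.Agent.Lib.H67G Pool.Agent.Lib.L1S Pool.Agent.Lib.L8 Pool.Agent.Lib.L8.FL
open scoped ENNReal Pointwise

noncomputable section

set_option linter.unusedSectionVars false
set_option linter.unusedVariables false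

section lin

variable {K F : Type} [Field K] [NumberField K] [Field F] [NumberField F] [Algebra K F]

theorem pp3_smul (w : InfinitePlace F) (c : ℝ) (x : EE F) : evw w (c • x) = c • evw w x := by
  rcases w.isReal_or_isComplex with h | h
  · rw [evw_real h, evw_real h, Complex.real_smul]
    show ((c * x.1 ⟨w, h⟩ : ℝ) : ℂ) = _
    push_cast
    rfl
  · rw [evw_complex h, evw_complex h]
    rfl

/-- The map `q ↦ η q`. -/
def pp3_l (η : F) : EE K →ₗ[ℝ] EE F where
  toFun q := mixedEmbedding F η * iE (algebraMap K F) q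
  map_add' x y := by rw [map_add, mul_add]
  map_smul' c x := by rw [iE_smul, mul_smul_comm, RingHom.id_apply]

theorem pp3_l_inj {η : F} (hη : η ≠ 0) : LinearMap.ker (pp3_l (K := K) η) = ⊥ := by
  refine LinearMap.ker_eq_bot.2 fun x y h => ?_
  have h1 : mixedEmbedding F η * iE (algebraMap K F) x = mixedEmbedding F η * iE (algebraMap K F) y := h
  have h2 := congrArg (fun z => mixedEmbedding F η⁻¹ * z) h1
  simp only [← mul_assoc, ← map_mul, inv_mul_cancel₀ hη, map_one, one_mul] at h2
  exact iE_inj _ h2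

/-- A continuous left inverse of `q ↦ η q`. -/
theorem pp3_l_inv {η : F} (hη : η ≠ 0) : ∃ m : EE F → EE K, Continuous m ∧ ∀ q, m (mixedEmbedding F η * iE (algebraMap K F) q) = q := by
  obtain ⟨g, hg⟩ := (pp3_l (K := K) η).exists_leftInverse_of_injective (pp3_l_inj hη)
  refine ⟨g, g.continuous_of_finiteDimensional, fun q => ?_⟩
  exact LinearMap.congr_fun hg q

end lin

variable {ι M N : Type} [Fintype ι] [DecidableEq ι] [AddCommGroup M] [Module ℚ M] [AddCommGroup N] [Module ℚ N]
  {P : RootPairing ι ℚ M N} [P.IsCrystallographic] [P.IsReduced] [P.IsIrreducible] [P.IsRootSystem] {b : P.Base}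
  {K L : Type} [Field K] [NumberField K] [Field L] [NumberField L] [Algebra K L] [IsGalois K L]

/-- The map `y ↦ (|y|_w)`. -/
def pp3_e (Q : QS b K L) (i : b.support) : EE (FO Q i) →ₗ[ℝ] (InfinitePlace L → ℂ) where
  toFun y w := evw w (jE Q i y)
  map_add' x y := funext fun w => by
    show evw w (jE Q i (x + y)) = evw w (jE Q i x) + evw w (jE Q i y)
    rw [map_add, map_add]
  map_smul' c x := funext fun w => by
    show evw w (jE Q i (c • x)) = c • evw w (jE Q i x)
    rw [jE_smul, pp3_smul]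

theorem pp3_e_inv (Q : QS b K L) (i : b.support) : ∃ m : (InfinitePlace L → ℂ) → EE (FO Q i), Continuous m ∧ ∀ y, m (fun w => evw w (jE Q i y)) = y := by
  have h0 : LinearMap.ker (pp3_e Q i) = ⊥ := by
    refine LinearMap.ker_eq_bot.2 fun x y h => ?_
    refine jE_inj Q i (evw_ext fun w => ?_)
    exact congrFun h w
  obtain ⟨g, hg⟩ := (pp3_e Q i).exists_leftInverse_of_injective h0
  refine ⟨g, g.continuous_of_finiteDimensional, fun q => ?_⟩
  exact LinearMap.congr_fun hg q

variable {Q : QS b K L} {i j : b.support} {σ : FO Q i ≃ₐ[K] FO Q i} {η : FO Q i}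

/-- **The group law.** PROOF: `lp_mul`; `z + z' - a σ(a') = hz (a + a', q + q' + β)`: `(1/2) (a' σ(a) - a σ(a'))` is antifixed under `σ`, so it is `η β(a, a')` (`fo_anti`). -/
theorem pp_mul (D : PrD Q i j σ η) (a' : EE (FO Q i)) : ∃ β : EE (FO Q i) → EE K, Continuous β ∧ ∀ (a : EE (FO Q i)) (q q' : EE K) (w : InfinitePlace L), vC D (a, q) w * vC D (a', q') w = vC D (a + a', q + q' + β a) w := by
  obtain ⟨m, hm, hm'⟩ := pp3_l_inv (K := K) D.ene
  have _ := D.gal
  have hσσ : ∀ x, sE σ (sE σ x) = x := fun x => by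
    have h := (t3_dense (FO Q i)).equalizer ((sE_cont σ).comp (sE_cont σ)) continuous_id (funext fun x => by
      show sE σ (sE σ (mixedEmbedding (FO Q i) x)) = mixedEmbedding (FO Q i) x
      rw [sE_emb, sE_emb, D.inv])
    exact congrFun h x
  refine ⟨fun a => m ((1 / 2 : ℝ) • (a' * sE σ a - a * sE σ a')), ?_, fun a q q' w => ?_⟩
  · have c1 : Continuous fun a : EE (FO Q i) => a' * sE σ a := continuous_const.mul (sE_cont σ)
    have c2 : Continuous fun a : EE (FO Q i) => a * sE σ a' := continuous_id.mul continuous_const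
    have c3 : Continuous fun a : EE (FO Q i) => a' * sE σ a - a * sE σ a' := c1.sub c2
    have c4 : Continuous fun a : EE (FO Q i) => (1 / 2 : ℝ) • (a' * sE σ a - a * sE σ a') := (continuous_const_smul (1 / 2 : ℝ)).comp c3
    exact hm.comp c4
  · obtain ⟨r, hr⟩ := fo_anti D.deg D.sne D.ene D.eta (x := (1 / 2 : ℝ) • (a' * sE σ a - a * sE σ a')) (by
      rw [sE_smul, map_sub, map_mul, map_mul, hσσ, hσσ, ← smul_neg]
      congr 1
      ring)
    have hr' : m ((1 / 2 : ℝ) • (a' * sE σ a - a * sE σ a')) = r := by rw [hr, hm']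
    unfold vC
    rw [lp_mul D.adj]
    have e1 : evw w (jE Q i (sE σ a)) + evw w (jE Q i (sE σ a')) = evw w (jE Q i (sE σ (a + a'))) := by
      rw [map_add, map_add, map_add]
    have e3 : evw w (jE Q i a) + evw w (jE Q i a') = evw w (jE Q i (a + a')) := by
      rw [map_add, map_add]
    have e2 : evw w (jE Q i (hz σ η (a, q))) + evw w (jE Q i (hz σ η (a', q'))) - evw w (jE Q i a) * evw w (jE Q i (sE σ a')) =
        evw w (jE Q i (hz σ η (a + a', q + q' + m ((1 / 2 : ℝ) • (a' * sE σ a - a * sE σ a'))))) := by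
      rw [← map_mul, ← map_mul, ← map_add, ← map_add, ← map_sub, ← map_sub, hr']
      congr 2
      unfold hz
      show -((1 / 2 : ℝ) • (a * sE σ a)) + mixedEmbedding (FO Q i) η * iE (algebraMap K (FO Q i)) q + (-((1 / 2 : ℝ) • (a' * sE σ a')) + mixedEmbedding (FO Q i) η * iE (algebraMap K (FO Q i)) q') - a * sE σ a' =
        -((1 / 2 : ℝ) • ((a + a') * sE σ (a + a'))) + mixedEmbedding (FO Q i) η * iE (algebraMap K (FO Q i)) (q + q' + r)
      have e5 : (a + a') * sE σ (a + a') = a * sE σ a + a' * sE σ a' + (a * sE σ a' + a' * sE σ a) := by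
        rw [map_add]
        ring
      rw [e5, map_add, map_add, mul_add, mul_add, ← hr]
      generalize a * sE σ a = U
      generalize a' * sE σ a' = V
      generalize a * sE σ a' = X
      generalize a' * sE σ a = Y
      generalize mixedEmbedding (FO Q i) η * iE (algebraMap K (FO Q i)) q = G
      generalize mixedEmbedding (FO Q i) η * iE (algebraMap K (FO Q i)) q' = G'
      module
    show gx b ℂ (j : ι) _ * gxT b i j _ * gx b ℂ (i : ι) _ = _
    rw [e1, e2, e3]

theorem pp3_gc (D : PrD Q i j σ η) (p : EE (FO Q i) × EE K) (w : InfinitePlace L) : gc b ℂ i (vC D p w) = evw w (jE Q i p.1) := by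
  unfold vC
  rw [gc_mul i (mul_mem (lp_gxU j _) (lp_gcT D.adj i _).1) (lp_gxU i _), gc_mul i (lp_gxU j _) (lp_gcT D.adj i _).1, (lp_gcT D.adj i _).2, lp_gc, lp_gc,
    if_neg D.ne, if_pos rfl, add_zero, zero_add]

theorem pp3_gcj (D : PrD Q i j σ η) (p : EE (FO Q i) × EE K) (w : InfinitePlace L) :
    gc b ℂ j (gn b ℂ i * ((gx b ℂ (j : ι) (evw w (jE Q i (sE σ p.1))))⁻¹ * vC D p w * (gx b ℂ (i : ι) (evw w (jE Q i p.1)))⁻¹) * (gn b ℂ i)⁻¹) = evw w (jE Q i (hz σ η p)) := by
  have e : gn b ℂ i * ((gx b ℂ (j : ι) (evw w (jE Q i (sE σ p.1))))⁻¹ * vC D p w * (gx b ℂ (i : ι) (evw w (jE Q i p.1)))⁻¹) * (gn b ℂ i)⁻¹ = gx b ℂ (j : ι) (evw w (jE Q i (hz σ η p))) := by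
    unfold vC gxT
    group
  rw [e, lp_gc, if_pos rfl]

/-- A continuous left inverse of `x`. -/
theorem pp3_left (D : PrD Q i j σ η) {x : EE (FO Q i) × EE K → HRt (HQ Q)} (hx' : ∀ p w, pH (HQ Q) w (x p) = vC D p w) :
    ∃ Ψ : HRt (HQ Q) → EE (FO Q i) × EE K, Continuous Ψ ∧ ∀ p, Ψ (x p) = p := by
  obtain ⟨m, hm, hm'⟩ := pp3_l_inv (K := K) D.ene
  obtain ⟨e, he, he'⟩ := pp3_e_inv Q i
  let A : HRt (HQ Q) → EE (FO Q i) := fun u => e fun w => gc b ℂ i (pH (HQ Q) w u)
  have hA : Continuous A := he.comp (continuous_pi fun w => (gc_cont i).comp (pH_cont w))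
  have hA' : ∀ p, A (x p) = p.1 := fun p => by
    show e (fun w => gc b ℂ i (pH (HQ Q) w (x p))) = p.1
    have h1 : (fun w => gc b ℂ i (pH (HQ Q) w (x p))) = fun w => evw w (jE Q i p.1) := funext fun w => by rw [hx', pp3_gc]
    rw [h1, he']
  let Z : HRt (HQ Q) → EE (FO Q i) := fun u => e fun w =>
    gc b ℂ j (gn b ℂ i * ((gx b ℂ (j : ι) (evw w (jE Q i (sE σ (A u)))))⁻¹ * pH (HQ Q) w u * (gx b ℂ (i : ι) (evw w (jE Q i (A u))))⁻¹) * (gn b ℂ i)⁻¹)
  have hgx : ∀ k : b.support, Continuous fun t : ℂ => gx b ℂ (k : ι) t := fun k => (iwG b ℂ).x_cont k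
  have hZ : Continuous Z := by
    refine he.comp (continuous_pi fun w => (gc_cont j).comp ?_)
    have c1 : Continuous fun u : HRt (HQ Q) => gx b ℂ (j : ι) (evw w (jE Q i (sE σ (A u)))) := (hgx j).comp ((evw_cont w).comp ((jE_cont Q i).comp ((sE_cont σ).comp hA)))
    have c2 : Continuous fun u : HRt (HQ Q) => gx b ℂ (i : ι) (evw w (jE Q i (A u))) := (hgx i).comp ((evw_cont w).comp ((jE_cont Q i).comp hA))
    exact ((continuous_const.mul ((c1.inv.mul (pH_cont w)).mul c2.inv)).mul continuous_const)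
  have hZ' : ∀ p, Z (x p) = hz σ η p := fun p => by
    show e (fun w => gc b ℂ j (gn b ℂ i * ((gx b ℂ (j : ι) (evw w (jE Q i (sE σ (A (x p))))))⁻¹ * pH (HQ Q) w (x p) * (gx b ℂ (i : ι) (evw w (jE Q i (A (x p)))))⁻¹) * (gn b ℂ i)⁻¹)) = hz σ η p
    have h1 : (fun w => gc b ℂ j (gn b ℂ i * ((gx b ℂ (j : ι) (evw w (jE Q i (sE σ (A (x p))))))⁻¹ * pH (HQ Q) w (x p) * (gx b ℂ (i : ι) (evw w (jE Q i (A (x p)))))⁻¹) * (gn b ℂ i)⁻¹)) = fun w => evw w (jE Q i (hz σ η p)) := funext fun w => by
      rw [hA', hx', pp3_gcj]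
    rw [h1, he']
  refine ⟨fun u => (A u, m (Z u + (1 / 2 : ℝ) • (A u * sE σ (A u)))), ?_, fun p => ?_⟩
  · have c1 : Continuous fun u => A u * sE σ (A u) := hA.mul ((sE_cont σ).comp hA)
    have c2 : Continuous fun u => (1 / 2 : ℝ) • (A u * sE σ (A u)) := (continuous_const_smul (1 / 2 : ℝ)).comp c1
    have c3 : Continuous fun u => Z u + (1 / 2 : ℝ) • (A u * sE σ (A u)) := hZ.add c2
    exact hA.prodMk (hm.comp c3)
  · show (A (x p), m (Z (x p) + (1 / 2 : ℝ) • (A (x p) * sE σ (A (x p))))) = p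
    rw [hA', hZ']
    refine Prod.ext rfl ?_
    show m (hz σ η p + (1 / 2 : ℝ) • (p.1 * sE σ p.1)) = p.2
    have h1 : hz σ η p + (1 / 2 : ℝ) • (p.1 * sE σ p.1) = mixedEmbedding (FO Q i) η * iE (algebraMap K (FO Q i)) p.2 := by
      unfold hz
      abel
    rw [h1, hm']

/-- **The right Haar measure.** PROOF: `ae` by `pp_ex`, `pp_surj` not needed; `fin`: the preimage of a compact set `C` under `x` is compact: `jE a = cH i (x p)`, so `a` is in a compact set (`jE_proper`), and `z` is a continuous function of `x p`, so `jE (hz p)` and then `η q` and `q` are in compact sets (the map `(a, q) ↦ (a, hz (a, q))` is a homeomorphism onto a closed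
subspace; or: `x` is a closed embedding: injective with continuous left inverse on the closed set `LoH`). `ne`: volumes nonzero. `inv`: `v ∈ LoH`, `v = x p'` (`pp_surj`, `pH_ext`), `x p * x p' = x (a + a', q + q' + β a)` (`pp_mul`): the map `(a, q) ↦ (a + a', q + q' + β a)` preserves the product measure (`MeasurePreserving.skew_product` or Fubini). -/
theorem pp_RH (D : PrD Q i j σ η) {x : EE (FO Q i) × EE K → HRt (HQ Q)} (hx : Continuous x) (hx' : ∀ p w, pH (HQ Q) w (x p) = vC D p w) (hx'' : ∀ p, x p ∈ LoH (HQ Q) (orb Q i)ᶜ) :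
    RH (LoH (HQ Q) (orb Q i)ᶜ) (((volume : Measure (EE (FO Q i))).prod (volume : Measure (EE K))).map x) := by
  refine ⟨?_, fun C hC => ?_, ?_, ?_⟩
  · refine (ae_map_iff hx.measurable.aemeasurable (LoH_closed _).measurableSet).2 ?_
    exact Filter.Eventually.of_forall hx''
  · rw [Measure.map_apply hx.measurable hC.isClosed.measurableSet]
    obtain ⟨Ψ, hΨ, hΨ'⟩ := pp3_left D hx'
    have h1 : IsCompact (Ψ '' C) := hC.image hΨ
    refine lt_of_le_of_lt (measure_mono ?_) h1.measure_lt_top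
    intro p hp
    exact ⟨x p, hp, hΨ' p⟩
  · intro h
    rw [Measure.map_eq_zero_iff hx.measurable.aemeasurable] at h
    have h1 := (isOpen_univ.measure_pos ((volume : Measure (EE (FO Q i))).prod (volume : Measure (EE K))) Set.univ_nonempty).ne'
    rw [h] at h1
    exact h1 rfl
  · intro v hv
    obtain ⟨⟨a', q'⟩, hp'⟩ := pp_surj D hv
    have hv' : v = x (a', q') := pH_ext fun w => by rw [hp', hx']
    obtain ⟨β, hβ, hβ'⟩ := pp_mul D a'
    rw [Measure.map_map (by fun_prop) hx.measurable]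
    have e : ((fun u => u * v) ∘ x) = x ∘ fun p : EE (FO Q i) × EE K => (p.1 + a', p.2 + q' + β p.1) := by
      funext p
      refine pH_ext fun w => ?_
      show pH (HQ Q) w (x p * v) = pH (HQ Q) w (x (p.1 + a', p.2 + q' + β p.1))
      rw [map_mul, hv', hx', hx', hx']
      exact hβ' p.1 p.2 q' w
    have hT : MeasurePreserving (fun p : EE (FO Q i) × EE K => (p.1 + a', p.2 + q' + β p.1)) ((volume : Measure (EE (FO Q i))).prod (volume : Measure (EE K))) ((volume : Measure (EE (FO Q i))).prod (volume : Measure (EE K))) := by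
      refine MeasurePreserving.skew_product (f := fun a => a + a') (g := fun a q => q + q' + β a) (measurePreserving_add_right _ a') ?_ ?_
      · exact ((continuous_snd.add continuous_const).add (hβ.comp continuous_fst)).measurable
      · refine Filter.Eventually.of_forall fun a => ?_
        have h2 : (fun q : EE K => q + q' + β a) = fun q => q + (q' + β a) := funext fun q => add_assoc _ _ _
        rw [h2, map_add_right_eq_self]
    rw [e, ← Measure.map_map hx.measurable hT.measurable, hT.map_eq]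

end

end Pool.Agent.Lib.L8.QF
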