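import Pool.Agent.Lib.L8.QF.R1A

/-!
# QF, module C5Q, R1B (design helper33): diagram automorphisms of the complex local group
-/

namespace Pool.Agent.Lib.L8.QF

open MeasureTheory Matrix NumberField NumberField.InfinitePlace IsDedekindDomain Pool.Agent.Lib.H89N Pool.Agent.Lib.H33W Pool.Agent.Lib.H67G Pool.Agent.Lib.L1S Pool.Agent.Lib.L8.FL
open scoped ENNReal Pointwise

noncomputable section

set_option linter.unusedSectionVars false
set_option linter.unusedVariables false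

/-! ## 2. Diagram automorphisms of the complex local group -/

variable {ι M N : Type} [Fintype ι] [DecidableEq ι] [AddCommGroup M] [Module ℚ M] [AddCommGroup N] [Module ℚ N]
  {P : RootPairing ι ℚ M N} [P.IsCrystallographic] [P.IsReduced] [P.IsIrreducible] [P.IsRootSystem] {b : P.Base}

section th

variable {σ : Equiv.Perm ι} (hσ : DA b σ) (ε : Bool)

theorem thM_mul (X Y : Matrix (I b) (I b) ℂ) : hσ.cj ((X * Y).map (cjb ε)) = hσ.cj (X.map (cjb ε)) * hσ.cj (Y.map (cjb ε)) := by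
  rw [← DA.cj_mul, Matrix.map_mul]

theorem thM_one : hσ.cj ((1 : Matrix (I b) (I b) ℂ).map (cjb ε)) = 1 := by
  rw [Matrix.map_one _ (map_zero _) (map_one _), DA.cj_one]

/-- `g ↦ D_σ ḡ D_σ⁻¹` (`ε = true`) or `D_σ g D_σ⁻¹` (`ε = false`). -/
def thG : GL (I b) ℂ →* GL (I b) ℂ where
  toFun g := ⟨hσ.cj (g.1.map (cjb ε)), hσ.cj (g⁻¹.1.map (cjb ε)), by rw [← thM_mul, Units.mul_inv, thM_one], by rw [← thM_mul, Units.inv_mul, thM_one]⟩
  map_one' := Units.ext (thM_one hσ ε)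
  map_mul' g h := Units.ext (thM_mul hσ ε _ _)

theorem thG_val (g : GL (I b) ℂ) : (thG hσ ε g).1 = hσ.cj (g.1.map (cjb ε)) := rfl

theorem thG_cont : Continuous (thG (b := b) hσ ε) := by
  rw [Units.continuous_iff]
  exact ⟨(Units.continuous_val.matrix_map (cjb_cont ε)).matrix_submatrix _ _, ((Units.continuous_val.comp continuous_inv).matrix_map (cjb_cont ε)).matrix_submatrix _ _⟩

/-- PROOF: `xG b i t` is `ex (E b i) t`, `E b i = eZ b i` for a simple root (`E_simple`), `DA.cj_map`, `DA.cj_ex`, `DA.cj_eZ`, `xG_map` or `xx_map`. -/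
theorem thG_x (i : b.support) (t : ℂ) : thG hσ ε (xG b (i : ι) t) = xG b (hσ.sp i : ι) (cjb ε t) := by
  refine Units.ext ?_
  rw [thG_val]
  show hσ.cj ((xx b (i : ι) t).map (cjb ε)) = xx b (hσ.sp i : ι) (cjb ε t)
  rw [xx_map]
  show hσ.cj (ex (E b (i : ι)) (cjb ε t)) = ex (E b ((hσ.sp i : b.support) : ι)) (cjb ε t)
  rw [DA.cj_ex, E_simple, DA.cj_eZ, E_simple]

/-- PROOF: as `thG_x` with `E_neg_simple`, `DA.cj_fZ`. -/
theorem thG_y (i : b.support) (t : ℂ) : thG hσ ε (xG b (ng P i) t) = xG b (ng P (hσ.sp i)) (cjb ε t) := by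
  refine Units.ext ?_
  rw [thG_val]
  show hσ.cj ((xx b (ng P i) t).map (cjb ε)) = xx b (ng P (hσ.sp i)) (cjb ε t)
  rw [xx_map]
  show hσ.cj (ex (E b (ng P i)) (cjb ε t)) = ex (E b (ng P (hσ.sp i))) (cjb ε t)
  rw [DA.cj_ex, E_neg_simple, DA.cj_fZ, E_neg_simple]

/-- PROOF: as `pwG_mem` (C5A): `GQ_eq`, `thG_x`, `thG_y`, `thG_cont`. -/
theorem thG_mem {g : GL (I b) ℂ} (hg : g ∈ GFs b ℂ) : thG hσ ε g ∈ GFs b ℂ := by
  have h0 : GQ b ℂ ≤ (GFs b ℂ).comap (thG hσ ε) := by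
    rw [GQ_eq, Subgroup.closure_le]
    rintro _ ⟨i, t, rfl | rfl⟩
    · show thG hσ ε (xG b (i : ι) t) ∈ GFs b ℂ
      rw [thG_x]
      exact Subgroup.le_topologicalClosure _ (xG_mem b _ _)
    · show thG hσ ε (xG b (ng P i) t) ∈ GFs b ℂ
      rw [thG_y]
      exact Subgroup.le_topologicalClosure _ (xG_mem b _ _)
  have h2 : IsClosed ((fun g : GL (I b) ℂ => thG hσ ε g) ⁻¹' (GFs b ℂ : Set (GL (I b) ℂ))) :=
    (Subgroup.isClosed_topologicalClosure _).preimage (thG_cont hσ ε)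
  exact closure_minimal (fun g hg => h0 hg) h2 hg

/-- **The automorphism** of the local group. -/
def th : GF b ℂ →* GF b ℂ where
  toFun g := ⟨thG hσ ε g.1, thG_mem hσ ε g.2⟩
  map_one' := Subtype.ext (map_one _)
  map_mul' g h := Subtype.ext (map_mul _ _ _)

theorem th_val (g : GF b ℂ) : (th hσ ε g).1.1 = hσ.cj (g.1.1.map (cjb ε)) := rfl

theorem th_entry (g : GF b ℂ) (r c : I b) : (th hσ ε g).1.1 (hσ.pI r) (hσ.pI c) = cjb ε (g.1.1 r c) := by
  rw [th_val, DA.cj_apply]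
  rfl

theorem th_x (i : b.support) (t : ℂ) : th hσ ε (gx b ℂ (i : ι) t) = gx b ℂ (hσ.sp i : ι) (cjb ε t) := Subtype.ext (thG_x hσ ε i t)

theorem th_y (i : b.support) (t : ℂ) : th hσ ε (gx b ℂ (ng P i) t) = gx b ℂ (ng P (hσ.sp i)) (cjb ε t) := Subtype.ext (thG_y hσ ε i t)

/-- PROOF: `mG b i 1 = xG i 1 * xG (ng i) (-1) * xG i 1`. -/
theorem th_n (i : b.support) : th hσ ε (gn b ℂ i) = gn b ℂ (hσ.sp i) := by
  refine Subtype.ext ?_
  show thG hσ ε (mG b i (1 : ℂˣ)) = mG b (hσ.sp i) (1 : ℂˣ)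
  unfold mG
  rw [map_mul, map_mul, thG_x, thG_y]
  simp only [inv_one, Units.val_one, map_one, map_neg]

theorem th_nl (l : List b.support) : th hσ ε (gnl b ℂ l) = gnl b ℂ (l.map hσ.sp) := by
  induction l with
  | nil => exact map_one _
  | cons i l ih =>
    rw [gnl_cons, map_mul, ih, th_n, List.map_cons, gnl_cons]

/-- PROOF: `DA.ht_pI`. -/
theorem th_U {g : GF b ℂ} (hg : g ∈ gU b ℂ) : th hσ ε g ∈ gU b ℂ := by
  intro r c h
  obtain ⟨r, rfl⟩ := hσ.pI.surjective r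
  obtain ⟨c, rfl⟩ := hσ.pI.surjective c
  rw [hσ.ht_pI, hσ.ht_pI] at h
  rw [th_entry, hg r c h]
  by_cases e : r = c
  · subst e
    rw [Matrix.one_apply_eq, Matrix.one_apply_eq, map_one]
  · rw [Matrix.one_apply_ne e, Matrix.one_apply_ne fun h => e (hσ.pI.injective h), map_zero]

/-- PROOF: `th_entry` at `Sum.inl i`, `Sum.inr (ng P i)`; `DA.ng`. -/
theorem th_c (i : b.support) (g : GF b ℂ) : gc b ℂ (hσ.sp i) (th hσ ε g) = cjb ε (gc b ℂ i g) := by
  have h := th_entry hσ ε g (Sum.inl i) (Sum.inr (ng P i))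
  rw [DA.pI_inl, DA.pI_inr, hσ.ng] at h
  exact h

end th

end

end Pool.Agent.Lib.L8.QF
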