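import Pool.Agent.Lib.L8.QF.R1B

/-!
# QF, module C5Q, R1C (design helper33): the maximal compact group, the torus and the Iwasawa projection
-/

namespace Pool.Agent.Lib.L8.QF

open MeasureTheory Matrix NumberField NumberField.InfinitePlace IsDedekindDomain Pool.Agent.Lib.H89N Pool.Agent.Lib.H33W Pool.Agent.Lib.H67G Pool.Agent.Lib.L1S Pool.Agent.Lib.L8.FL
open scoped ENNReal Pointwise

noncomputable section

set_option linter.unusedSectionVars false
set_option linter.unusedVariables false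

variable {ι M N : Type} [Fintype ι] [DecidableEq ι] [AddCommGroup M] [Module ℚ M] [AddCommGroup N] [Module ℚ N]
  {P : RootPairing ι ℚ M N} [P.IsCrystallographic] [P.IsReduced] [P.IsIrreducible] [P.IsRootSystem] {b : P.Base}

section th

variable {σ : Equiv.Perm ι} (hσ : DA b σ) (ε : Bool)

theorem r1c_lenq (hσ : DA b σ) (β : ι) : lenq P (σ β) = lenq P β := by
  unfold lenq
  congr 1
  rw [RootPairing.rootForm_apply_apply, RootPairing.rootForm_apply_apply, ← Equiv.sum_comp σ]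
  refine Finset.sum_congr rfl fun i _ => ?_
  rw [P.root_coroot'_eq_pairing, P.root_coroot'_eq_pairing, hσ.pairing]

theorem r1c_cartan (hσ : DA b σ) (i j : b.support) : b.cartanMatrix (hσ.sp i) (hσ.sp j) = b.cartanMatrix i j := hσ.pair i j

theorem r1c_SQ (hσ : DA b σ) (r c : I b) : SQ b (hσ.pI r) (hσ.pI c) = SQ b r c := by
  rcases r with i | β <;> rcases c with j | γ
  · show lenq P (hσ.sp i : ι) * |((b.cartanMatrix (hσ.sp i) (hσ.sp j) : ℤ) : ℚ)| = lenq P (i : ι) * |((b.cartanMatrix i j : ℤ) : ℚ)|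
    rw [hσ.sp_coe, r1c_lenq hσ, r1c_cartan]
  · rfl
  · rfl
  · show Matrix.diagonal (lenq P) (σ β) (σ γ) = Matrix.diagonal (lenq P) β γ
    by_cases h : β = γ
    · subst h
      rw [Matrix.diagonal_apply_eq, Matrix.diagonal_apply_eq, r1c_lenq hσ]
    · rw [Matrix.diagonal_apply_ne _ h, Matrix.diagonal_apply_ne _ fun h' => h (σ.injective h')]

theorem r1c_SF (hσ : DA b σ) (ε : Bool) : hσ.cj ((SF b ℂ).map (cjb ε)) = SF b ℂ := hσ.cj_eq fun r c => by
  show ((SQ b (hσ.pI r) (hσ.pI c) : ℚ) : ℂ) = cjb ε ((SQ b r c : ℚ) : ℂ)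
  rw [map_ratCast, r1c_SQ]

theorem r1c_SFi (hσ : DA b σ) (ε : Bool) : hσ.cj ((SF b ℂ)⁻¹.map (cjb ε)) = (SF b ℂ)⁻¹ := by
  refine (Matrix.inv_eq_right_inv ?_).symm
  have h : SF b ℂ * (SF b ℂ)⁻¹ = 1 := Matrix.mul_nonsing_inv _ (SF_det ℂ b)
  have h1 := congrArg (fun X : Matrix (I b) (I b) ℂ => hσ.cj (X.map (cjb ε))) h
  rw [thM_mul, r1c_SF, thM_one] at h1
  exact h1

theorem r1c_star (ε : Bool) (z : ℂ) : cjb ε (star z) = star (cjb ε z) := by
  cases ε <;> rfl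

theorem r1c_ct (hσ : DA b σ) (ε : Bool) (X : Matrix (I b) (I b) ℂ) : hσ.cj (Xᴴ.map (cjb ε)) = (hσ.cj (X.map (cjb ε)))ᴴ := by
  ext r c
  exact r1c_star ε _

theorem r1c_stM (hσ : DA b σ) (ε : Bool) (X : Matrix (I b) (I b) ℂ) : stM b (hσ.cj (X.map (cjb ε))) = hσ.cj ((stM b X).map (cjb ε)) := by
  unfold stM
  rw [thM_mul, thM_mul, r1c_SF, r1c_SFi, r1c_ct]

theorem r1c_pry (hσ : DA b σ) (y : b.support → ℝ) (r : I b) : pry b (fun k => y (hσ.sp.symm k)) (hσ.pI r) = pry b y r := by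
  unfold pry
  rw [← Equiv.sum_comp hσ.sp]
  refine Finset.sum_congr rfl fun j _ => ?_
  beta_reduce
  rw [Equiv.symm_apply_apply]
  have h : pj b (hσ.sp j) (hσ.pI r) = pj b j r := by
    rcases r with i | β
    · rfl
    · exact hσ.pair β j
  rw [h]

/-- PROOF: `gst (th g) = th (gst g)`: `SQ` is invariant (`lenq` and the Cartan matrix are: `DA.pair`, the form `RootForm` is invariant under permutations of the roots which preserve the pairing), the inverse and the conjugate transpose too. -/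
theorem th_st (g : GF b ℂ) : gst b ℂ (th hσ ε g) = th hσ ε (gst b ℂ g) := by
  refine Subtype.ext (Units.ext ?_)
  exact r1c_stM hσ ε g.1.1

theorem th_V {g : GF b ℂ} (hg : g ∈ gV b ℂ) : th hσ ε g ∈ gV b ℂ := by
  show gst b ℂ (th hσ ε g) ∈ gU b ℂ
  rw [th_st]
  exact th_U hσ ε hg

theorem th_K {g : GF b ℂ} (hg : g ∈ gK b ℂ) : th hσ ε g ∈ gK b ℂ := by
  show gst b ℂ (th hσ ε g) = (th hσ ε g)⁻¹
  have h1 : gst b ℂ g = g⁻¹ := hg
  rw [th_st, h1, map_inv]

/-- PROOF: `exM` is diagonal, `pry b y r = ∑ j, pj b j r * y j`, `pj b (σ j) (pI r) = pj b j r` (`DA.pair`); `cjb_real`. -/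
theorem th_ex (y : b.support → ℝ) : th hσ ε (gex b ℂ y) = gex b ℂ fun k => y (hσ.sp.symm k) := by
  refine Subtype.ext (Units.ext ?_)
  show hσ.cj ((exM b ℂ y).map (cjb ε)) = exM b ℂ fun k => y (hσ.sp.symm k)
  refine hσ.cj_eq fun r c => ?_
  show exM b ℂ (fun k => y (hσ.sp.symm k)) (hσ.pI r) (hσ.pI c) = cjb ε (exM b ℂ y r c)
  unfold exM
  by_cases h : r = c
  · subst h
    rw [Matrix.diagonal_apply_eq, Matrix.diagonal_apply_eq, r1c_pry]
    exact (cjb_real ε _).symm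
  · rw [Matrix.diagonal_apply_ne _ h, Matrix.diagonal_apply_ne _ fun h' => h (hσ.pI.injective h'), map_zero]

/-- **The Iwasawa projection is equivariant.** PROOF: `g = u ex(y) k` (`g_dec`), `th g = th u ex(y σ⁻¹) th k`, `ig17_uak`. -/
theorem th_H (g : GF b ℂ) (i : b.support) : gH b ℂ (th hσ ε g) (hσ.sp i) = gH b ℂ g i := by
  obtain ⟨u, hu, k, hk, h⟩ := g_dec g
  obtain ⟨y, hy⟩ : ∃ y, y = gH b ℂ g := ⟨_, rfl⟩
  rw [← hy] at h ⊢
  rw [h, map_mul, map_mul, th_ex, ig17_uak (th_U hσ ε hu) (th_K hσ ε hk)]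
  simp

end th

end

end Pool.Agent.Lib.L8.QF
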