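import Pool.Agent.Lib.L8.QF.R1C

/-!
# QF, module C5Q, R1D (design helper33): the unipotent part of the Iwasawa decomposition
-/

namespace Pool.Agent.Lib.L8.QF

open MeasureTheory Matrix NumberField NumberField.InfinitePlace IsDedekindDomain Pool.Agent.Lib.H89N Pool.Agent.Lib.H33W Pool.Agent.Lib.H67G Pool.Agent.Lib.L1S Pool.Agent.Lib.L8.FL
open scoped ENNReal Pointwise

noncomputable section

set_option linter.unusedSectionVars false
set_option linter.unusedVariables false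

variable {ι M N : Type} [Fintype ι] [DecidableEq ι] [AddCommGroup M] [Module ℚ M] [AddCommGroup N] [Module ℚ N]
  {P : RootPairing ι ℚ M N} [P.IsCrystallographic] [P.IsReduced] [P.IsIrreducible] [P.IsRootSystem] {b : P.Base}

/-! ## 3. The unipotent part of the Iwasawa decomposition -/

/-- `U ∩ K = 1`. PROOF: `g ∈ U ∩ K`: `g⁻¹ = gst g ∈ V`, so `g ∈ U ∩ V` (`gUV`). -/
theorem gUK {g : GF b ℂ} (hu : g ∈ gU b ℂ) (hk : g ∈ gK b ℂ) : g = 1 := by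
  have h1 : gst b ℂ g = g⁻¹ := hk
  have h2 : g⁻¹ ∈ gV b ℂ := by
    show gst b ℂ g⁻¹ ∈ gU b ℂ
    rw [gst_inv, h1, inv_inv]
    exact hu
  have h3 := inv_mem h2
  rw [inv_inv] at h3
  exact gUV hu h3

/-- **The unipotent part** of the Iwasawa decomposition. -/
def gup (g : GF b ℂ) : GF b ℂ := (g_dec g).choose

theorem gup_mem (g : GF b ℂ) : gup g ∈ gU b ℂ := (g_dec g).choose_spec.1

theorem gup_spec (g : GF b ℂ) : ∃ k ∈ gK b ℂ, g = gup g * gex b ℂ (gH b ℂ g) * k := (g_dec g).choose_spec.2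

/-- PROOF: if `u ex(y) k = u' ex(y) k'` then `ex(-y) u'⁻¹ u ex(y) ∈ U ∩ K` (`gex_U`), so it is `1` (`gUK`); `ig17_uak` for the torus part. -/
theorem gup_eq {u k : GF b ℂ} (hu : u ∈ gU b ℂ) (hk : k ∈ gK b ℂ) (y : b.support → ℝ) : gup (u * gex b ℂ y * k) = u := by
  obtain ⟨k', hk', h⟩ := gup_spec (u * gex b ℂ y * k)
  rw [ig17_uak hu hk y] at h
  have hu' := gup_mem (u * gex b ℂ y * k)
  generalize gup (u * gex b ℂ y * k) = u' at h hu'
  have h1 : gex b ℂ (-y) * (u'⁻¹ * u) * (gex b ℂ (-y))⁻¹ = k' * k⁻¹ := by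
    rw [gex_neg, inv_inv]
    have h2 : u'⁻¹ * (u * gex b ℂ y * k) * k⁻¹ = u'⁻¹ * (u' * gex b ℂ y * k') * k⁻¹ := by rw [h]
    have h3 : u'⁻¹ * u * gex b ℂ y = gex b ℂ y * (k' * k⁻¹) := by
      calc u'⁻¹ * u * gex b ℂ y = u'⁻¹ * (u * gex b ℂ y * k) * k⁻¹ := by group
        _ = u'⁻¹ * (u' * gex b ℂ y * k') * k⁻¹ := h2
        _ = gex b ℂ y * (k' * k⁻¹) := by group
    calc (gex b ℂ y)⁻¹ * (u'⁻¹ * u) * gex b ℂ y = (gex b ℂ y)⁻¹ * (u'⁻¹ * u * gex b ℂ y) := by group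
      _ = (gex b ℂ y)⁻¹ * (gex b ℂ y * (k' * k⁻¹)) := by rw [h3]
      _ = k' * k⁻¹ := by group
  have h4 : k' * k⁻¹ ∈ gU b ℂ := by
    rw [← h1]
    exact gex_U (-y) (mul_mem (inv_mem hu') hu)
  have h5 : k' * k⁻¹ = 1 := gUK h4 (mul_mem hk' (inv_mem hk))
  rw [h5, mul_inv_eq_one] at h1
  have h6 : gex b ℂ (-y) * (u'⁻¹ * u) = gex b ℂ (-y) * 1 := by rw [h1, mul_one]
  have h7 : u'⁻¹ * u = 1 := mul_left_cancel h6
  exact (inv_mul_eq_one.1 h7)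

theorem gup_U {u : GF b ℂ} (hu : u ∈ gU b ℂ) (g : GF b ℂ) : gup (u * g) = u * gup g := by
  obtain ⟨k, hk, h⟩ := gup_spec g
  conv_lhs => rw [h]
  have e : u * (gup g * gex b ℂ (gH b ℂ g) * k) = u * gup g * gex b ℂ (gH b ℂ g) * k := by group
  rw [e, gup_eq (mul_mem hu (gup_mem g)) hk]

theorem gup_th {σ : Equiv.Perm ι} (hσ : DA b σ) (ε : Bool) (g : GF b ℂ) : gup (th hσ ε g) = th hσ ε (gup g) := by
  obtain ⟨k, hk, h⟩ := gup_spec g
  conv_lhs => rw [h]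
  rw [map_mul, map_mul, th_ex, gup_eq (th_U hσ ε (gup_mem g)) (th_K hσ ε hk)]

end

end Pool.Agent.Lib.L8.QF
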