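import Pool.Agent.Lib.L8.QF.Defs
import Pool.Agent.Lib.L1S.QX5
import Pool.Agent.Lib.L1S.L120

/-!
# RO0: the root groups of orthogonal simple roots commute
-/

namespace Pool.Agent.Lib.L8.QF

open Matrix NumberField IsDedekindDomain Pool.Agent.Lib.H89N Pool.Agent.Lib.H33W Pool.Agent.Lib.H67G Pool.Agent.Lib.L1S

noncomputable section

set_option linter.unusedSectionVars false
set_option linter.unusedVariables false

section Mat

variable {n : Type} [Fintype n] [DecidableEq n] {A : Type} [CommRing A] {X Y : Matrix n n ℤ}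

theorem ro_dvp (hX : DP X) (hY : DP Y) (h : X * Y = Y * X) (j k : ℕ) : dvp X j * dvp Y k = dvp Y k * dvp X j := by
  have h1 : ((j.factorial : ℤ) * (k.factorial : ℤ)) • (dvp X j * dvp Y k) = ((j.factorial : ℤ) * (k.factorial : ℤ)) • (dvp Y k * dvp X j) := by
    have e1 : ((j.factorial : ℤ) * (k.factorial : ℤ)) • (dvp X j * dvp Y k) = X ^ j * Y ^ k := by
      rw [← hX.fact j, ← hY.fact k, smul_mul_smul_comm]
    have e2 : ((j.factorial : ℤ) * (k.factorial : ℤ)) • (dvp Y k * dvp X j) = Y ^ k * X ^ j := by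
      rw [mul_comm (j.factorial : ℤ), ← hX.fact j, ← hY.fact k, smul_mul_smul_comm]
    rw [e1, e2]
    exact ((show Commute X Y from h).pow_pow j k).eq
  have h0 : (j.factorial : ℤ) * (k.factorial : ℤ) ≠ 0 := by
    have := j.factorial_ne_zero
    have := k.factorial_ne_zero
    positivity
  ext r c
  have h2 := congrFun (congrFun h1 r) c
  rw [Matrix.smul_apply, Matrix.smul_apply, smul_eq_mul, smul_eq_mul] at h2
  exact mul_left_cancel₀ h0 h2

theorem ro_ex (hX : DP X) (hY : DP Y) (h : X * Y = Y * X) (s t : A) : ex X s * ex Y t = ex Y t * ex X s := by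
  unfold ex
  rw [Finset.sum_mul_sum, Finset.sum_mul_sum, Finset.sum_comm]
  refine Finset.sum_congr rfl fun k _ => Finset.sum_congr rfl fun j _ => ?_
  rw [smul_mul_smul_comm, smul_mul_smul_comm, ← toA_mul, ← toA_mul, ro_dvp hX hY h, mul_comm (s ^ j)]

end Mat

variable {ι M N : Type} [Fintype ι] [DecidableEq ι] [AddCommGroup M] [Module ℚ M] [AddCommGroup N] [Module ℚ N]
  {P : RootPairing ι ℚ M N} [P.IsCrystallographic] [P.IsReduced] [P.IsIrreducible] [P.IsRootSystem] {b : P.Base}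

/-- `α_i + α_j` is not a root for orthogonal simple roots. -/
theorem ro_root {i j : b.support} (hij : i ≠ j) (h : P.pairingIn ℤ (i : ι) (j : ι) = 0) : ¬∃ β : ι, P.root β = P.root i + P.root j := by
  rintro ⟨β, hβ⟩
  have h1 : P.root (P.reflectionPerm j β) = P.root i - P.root j := by
    have h2 : P.pairing i j = 0 := by
      rw [← P.algebraMap_pairingIn ℤ, h, map_zero]
    have h3 : P.coroot' j (P.root i) = 0 := by
      rw [P.root_coroot'_eq_pairing, h2]
    have h4 : P.coroot' j (P.root j) = 2 := by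
      rw [P.root_coroot'_eq_pairing, P.pairing_same]
    rw [P.root_reflectionPerm, RootPairing.reflection_apply, hβ, map_add, h3, h4, zero_add, two_smul]
    abel
  exact b.sub_notMem_range_root i.2 j.2 ⟨_, h1⟩

theorem ro_ee {i j : b.support} (hij : i ≠ j) (h : P.pairingIn ℤ (i : ι) (j : ι) = 0) : eZ b i * eZ b j = eZ b j * eZ b i := by
  have h1 : ee b ℚ i j ∈ gg b := (gg_iff (b := b) _).2 (ee_mem i j)
  have h2 : ee b ℚ i j = 0 := by
    by_contra h0
    have h5 : P.root i + P.root j ≠ 0 := by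
      intro h3
      have h2 : P.pairing i j = 0 := by
        rw [← P.algebraMap_pairingIn ℤ, h, map_zero]
      have h6 : P.coroot' j (P.root i + P.root j) = 2 := by
        rw [map_add, P.root_coroot'_eq_pairing, P.root_coroot'_eq_pairing, h2, P.pairing_same, zero_add]
      rw [h3, map_zero] at h6
      exact two_ne_zero h6.symm
    obtain ⟨β, hβ⟩ := gg_root h1 h0 h5 (ee_wt i j)
    exact ro_root hij h ⟨β, hβ⟩
  apply toA_inj (A := ℚ)
  rw [toA_mul, toA_mul]
  exact sub_eq_zero.1 h2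

theorem ro_ff {i j : b.support} (hij : i ≠ j) (h : P.pairingIn ℤ (i : ι) (j : ι) = 0) : fZ b i * fZ b j = fZ b j * fZ b i := by
  rw [oZ_eZ, oZ_eZ]
  calc oZ b * eZ b i * oZ b * (oZ b * eZ b j * oZ b) = oZ b * eZ b i * (oZ b * oZ b) * eZ b j * oZ b := by simp only [mul_assoc]
    _ = oZ b * (eZ b i * eZ b j) * oZ b := by rw [oZ_mul]; simp only [mul_assoc, one_mul]
    _ = oZ b * (eZ b j * eZ b i) * oZ b := by rw [ro_ee hij h]
    _ = oZ b * eZ b j * (oZ b * oZ b) * eZ b i * oZ b := by rw [oZ_mul]; simp only [mul_assoc, one_mul]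
    _ = oZ b * eZ b j * oZ b * (oZ b * eZ b i * oZ b) := by simp only [mul_assoc]

theorem ro_ef {i j : b.support} (hij : i ≠ j) : eZ b i * fZ b j = fZ b j * eZ b i := by
  apply toA_inj (A := ℚ)
  rw [toA_mul, toA_mul]
  exact sub_eq_zero.1 (eA_fA_ne (A := ℚ) hij)

variable {L : Type} [Field L] [NumberField L]

theorem ro_xx {i j : b.support} (hij : i ≠ j) (h : P.pairingIn ℤ (i : ι) (j : ι) = 0) (s t : L) : Commute (b1x b L (i : ι) s) (b1x b L (j : ι) t) := by
  refine Subtype.ext (Units.ext ?_)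
  show ex (E b i) s * ex (E b j) t = ex (E b j) t * ex (E b i) s
  rw [E_simple, E_simple]
  exact ro_ex (DP_eZ i) (DP_eZ j) (ro_ee hij h) s t

theorem ro_yy {i j : b.support} (hij : i ≠ j) (h : P.pairingIn ℤ (i : ι) (j : ι) = 0) (s t : L) : Commute (b1x b L (ng P (i : ι)) s) (b1x b L (ng P (j : ι)) t) := by
  refine Subtype.ext (Units.ext ?_)
  show ex (E b (ng P i)) s * ex (E b (ng P j)) t = ex (E b (ng P j)) t * ex (E b (ng P i)) s
  rw [E_neg_simple, E_neg_simple]
  exact ro_ex (DP_fZ i) (DP_fZ j) (ro_ff hij h) s t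

theorem ro_xy {i j : b.support} (hij : i ≠ j) (s t : L) : Commute (b1x b L (i : ι) s) (b1x b L (ng P (j : ι)) t) := by
  refine Subtype.ext (Units.ext ?_)
  show ex (E b i) s * ex (E b (ng P j)) t = ex (E b (ng P j)) t * ex (E b i) s
  rw [E_simple, E_neg_simple]
  exact ro_ex (DP_eZ i) (DP_fZ j) (ro_ef hij) s t

theorem ro_mx {i j : b.support} (hij : i ≠ j) (h : P.pairingIn ℤ (i : ι) (j : ι) = 0) (s : Lˣ) (t : L) : Commute (b1m b L i s) (b1x b L (j : ι) t) := by
  have e : b1m b L i s = b1x b L (i : ι) (s : L) * b1x b L (ng P (i : ι)) (-((s⁻¹ : Lˣ) : L)) * b1x b L (i : ι) (s : L) := rfl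
  rw [e]
  exact ((ro_xx hij h _ _).mul_left (ro_xy hij.symm _ _).symm).mul_left (ro_xx hij h _ _)

theorem ro_my {i j : b.support} (hij : i ≠ j) (h : P.pairingIn ℤ (i : ι) (j : ι) = 0) (s : Lˣ) (t : L) : Commute (b1m b L i s) (b1x b L (ng P (j : ι)) t) := by
  have e : b1m b L i s = b1x b L (i : ι) (s : L) * b1x b L (ng P (i : ι)) (-((s⁻¹ : Lˣ) : L)) * b1x b L (i : ι) (s : L) := rfl
  rw [e]
  exact ((ro_xy hij _ _).mul_left (ro_yy hij h _ _)).mul_left (ro_xy hij _ _)

theorem ro_mm {i j : b.support} (hij : i ≠ j) (h : P.pairingIn ℤ (i : ι) (j : ι) = 0) (s t : Lˣ) : Commute (b1m b L i s) (b1m b L j t) := by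
  have e : b1m b L j t = b1x b L (j : ι) (t : L) * b1x b L (ng P (j : ι)) (-((t⁻¹ : Lˣ) : L)) * b1x b L (j : ι) (t : L) := rfl
  rw [e]
  exact ((ro_mx hij h _ _).mul_right (ro_my hij h _ _)).mul_right (ro_mx hij h _ _)

end

end Pool.Agent.Lib.L8.QF
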