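import Pool.Agent.Lib.L8.QF.RO0
import Pool.Agent.Lib.H29Q.GC0
import Pool.Agent.Lib.H29Q.GC4

/-!
# RO1: words of pairwise orthogonal simple roots
-/

namespace Pool.Agent.Lib.L8.QF

open Matrix NumberField IsDedekindDomain Pool.Agent.Lib.H89N Pool.Agent.Lib.H33W Pool.Agent.Lib.H67G Pool.Agent.Lib.L1S Pool.Agent.Lib.H29Q
open Pool.Agent.Lib.L8.FL (nW wW Uw RedW HV)

noncomputable section

set_option linter.unusedSectionVars false
set_option linter.unusedVariables false

variable {ι M N : Type} [Fintype ι] [DecidableEq ι] [AddCommGroup M] [Module ℚ M] [AddCommGroup N] [Module ℚ N]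
  {P : RootPairing ι ℚ M N} [P.IsCrystallographic] [P.IsReduced] [P.IsIrreducible] [P.IsRootSystem] {b : P.Base}
  {L : Type} [Field L] [NumberField L]

/-- A list of pairwise orthogonal simple roots without repetition. -/
def PO (l : List b.support) : Prop := l.Nodup ∧ ∀ i ∈ l, ∀ j ∈ l, i ≠ j → P.pairingIn ℤ (i : ι) (j : ι) = 0

theorem PO.tail {i : b.support} {l : List b.support} (h : PO (i :: l)) : PO l :=
  ⟨(List.nodup_cons.1 h.1).2, fun j hj k hk => h.2 j (List.mem_cons_of_mem _ hj) k (List.mem_cons_of_mem _ hk)⟩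

theorem PO.head {i : b.support} {l : List b.support} (h : PO (i :: l)) : ∀ k ∈ l, k ≠ i ∧ P.pairingIn ℤ (i : ι) (k : ι) = 0 := by
  intro k hk
  have h1 : k ≠ i := fun e => (List.nodup_cons.1 h.1).1 (e ▸ hk)
  exact ⟨h1, h.2 i List.mem_cons_self k (List.mem_cons_of_mem _ hk) h1.symm⟩

theorem PO.head' {i : b.support} {l : List b.support} (h : PO (i :: l)) : ∀ k ∈ l, i ≠ k ∧ P.pairingIn ℤ (k : ι) (i : ι) = 0 := by
  intro k hk
  have h1 : k ≠ i := fun e => (List.nodup_cons.1 h.1).1 (e ▸ hk)
  exact ⟨h1.symm, h.2 k (List.mem_cons_of_mem _ hk) i List.mem_cons_self h1⟩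

theorem ro_pos {j : b.support} : b.IsPos (j : ι) := b.isPos_of_mem_support j.2

/-- The product of the root elements. -/
def wd (l : List b.support) (t : b.support → L) : GK b L := (l.map fun j : b.support => b1x b L (j : ι) (t j)).prod

/-- `n_j x_j(t)`. -/
def Tj (j : b.support) (t : L) : GK b L := b1m b L j 1 * b1x b L (j : ι) t

/-- The product of the `n_j x_j(t)`. -/
def wT (l : List b.support) (t : b.support → L) : GK b L := (l.map fun j : b.support => Tj j (t j)).prod

theorem ro_Tx {i j : b.support} (hij : i ≠ j) (h : P.pairingIn ℤ (i : ι) (j : ι) = 0) (s t : L) : Commute (Tj i s) (b1x b L (j : ι) t) := (ro_mx hij h _ _).mul_left (ro_xx hij h _ _)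

theorem ro_pair {i j : b.support} (h : P.pairingIn ℤ (i : ι) (j : ι) = 0) : P.pairingIn ℤ (j : ι) (i : ι) = 0 := by
  rwa [P.pairingIn_eq_zero_iff]

theorem ro_Tm {i j : b.support} (hij : i ≠ j) (h : P.pairingIn ℤ (i : ι) (j : ι) = 0) (s : L) (t : Lˣ) : Commute (Tj i s) (b1m b L j t) :=
  (ro_mm hij h _ _).mul_left (ro_mx hij.symm (ro_pair h) _ _).symm

theorem ro_TT {i j : b.support} (hij : i ≠ j) (h : P.pairingIn ℤ (i : ι) (j : ι) = 0) (s t : L) : Commute (Tj (b := b) i s) (Tj j t) :=
  (ro_Tm hij h _ _).mul_right (ro_Tx hij h _ _)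

theorem wd_comm_m {i : b.support} {l : List b.support} (h : PO (i :: l)) (s : Lˣ) (t : b.support → L) : Commute (b1m b L i s) (wd l t) := by
  refine Commute.list_prod_right _ _ fun x hx => ?_
  obtain ⟨k, hk, rfl⟩ := List.mem_map.1 hx
  exact ro_mx (h.head k hk).1.symm (h.head k hk).2 _ _

theorem wd_comm_x {i : b.support} {l : List b.support} (h : PO (i :: l)) (s : L) (t : b.support → L) : Commute (b1x b L (i : ι) s) (wd l t) := by
  refine Commute.list_prod_right _ _ fun x hx => ?_
  obtain ⟨k, hk, rfl⟩ := List.mem_map.1 hx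
  exact ro_xx (h.head k hk).1.symm (h.head k hk).2 _ _

theorem wT_comm {i : b.support} {l : List b.support} (h : PO (i :: l)) (s : L) (t : b.support → L) : Commute (Tj i s) (wT l t) := by
  refine Commute.list_prod_right _ _ fun x hx => ?_
  obtain ⟨k, hk, rfl⟩ := List.mem_map.1 hx
  exact ro_TT (h.head k hk).1.symm (h.head k hk).2 _ _

theorem nW_comm_T {i : b.support} {l : List b.support} (h : PO (i :: l)) (s : L) : Commute (Tj i s) (nW b L l) := by
  induction l with
  | nil => exact Commute.one_right _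
  | cons k l ih =>
    have h1 := h.head k List.mem_cons_self
    have h2 : PO (i :: l) := by
      refine ⟨?_, fun a ha c hc => h.2 a ?_ c ?_⟩
      · have h3 := List.nodup_cons.1 h.1
        exact List.nodup_cons.2 ⟨fun h4 => h3.1 (List.mem_cons_of_mem _ h4), (List.nodup_cons.1 h3.2).2⟩
      · rcases List.mem_cons.1 ha with rfl | ha
        · exact List.mem_cons_self
        · exact List.mem_cons_of_mem _ (List.mem_cons_of_mem _ ha)
      · rcases List.mem_cons.1 hc with rfl | hc
        · exact List.mem_cons_self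
        · exact List.mem_cons_of_mem _ (List.mem_cons_of_mem _ hc)
    show Commute (Tj i s) (nW b L l * b1m b L k 1)
    exact (ih h2).mul_right (ro_Tm h1.1.symm h1.2 _ _)

/-- `n_w x = ∏ n_j x_j`. -/
theorem nW_wd {l : List b.support} (h : PO l) (t : b.support → L) : nW b L l * wd l t = wT l t := by
  induction l with
  | nil => exact one_mul _
  | cons i l ih =>
    have e1 : nW b L (i :: l) * wd (i :: l) t = nW b L l * Tj i (t i) * wd l t := by
      show nW b L l * b1m b L i 1 * ((List.map (fun j : b.support => b1x b L (j : ι) (t j)) (i :: l)).prod) = _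
      rw [List.map_cons, List.prod_cons]
      show nW b L l * b1m b L i 1 * (b1x b L (i : ι) (t i) * wd l t) = nW b L l * (b1m b L i 1 * b1x b L (i : ι) (t i)) * wd l t
      simp only [mul_assoc]
    have e2 : wT (i :: l) t = Tj i (t i) * wT l t := by
      show (List.map (fun j : b.support => Tj j (t j)) (i :: l)).prod = _
      rw [List.map_cons, List.prod_cons]
      rfl
    rw [e1, e2, ← ih h.tail, ← (nW_comm_T h (t i)).eq, mul_assoc]

theorem redW_PO {l : List b.support} (h : PO l) : RedW b l := by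
  induction l with
  | nil => exact trivial
  | cons i l ih => exact ⟨by rw [wW_orth h.head]; exact ro_pos, ih h.tail⟩

/-- The coordinates of the root elements. -/
theorem cc_ne {i j : b.support} (hij : i ≠ j) (h : P.pairingIn ℤ (i : ι) (j : ι) = 0) (t : L) : cc j (b1x b L (i : ι) t) = 0 := by
  have h1 : b.IsPos (wW b [i] (j : ι)) := by
    rw [wW_orth (A := [i]) (j := j) (fun k hk => by rw [List.mem_singleton.1 hk]; exact ⟨hij, ro_pair h⟩)]
    exact ro_pos
  exact Uw_cc' h1 (x_Uw' (A := []) ro_pos t)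

theorem wd_cons (i : b.support) (l : List b.support) (t : b.support → L) : wd (i :: l) t = b1x b L (i : ι) (t i) * wd l t := by
  show (List.map (fun j : b.support => b1x b L (j : ι) (t j)) (i :: l)).prod = _
  rw [List.map_cons, List.prod_cons]
  rfl

theorem wd_congr {l : List b.support} {t t' : b.support → L} (h : ∀ j ∈ l, t j = t' j) : wd l t = wd l t' := by
  unfold wd
  exact congrArg List.prod (List.map_congr_left fun j hj => by rw [h j hj])

theorem wd_mem {l : List b.support} (h : PO l) (t : b.support → L) : wd l t ∈ Uw b L l := by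
  induction l with
  | nil => exact one_mem _
  | cons i l ih =>
    rw [wd_cons]
    have hp : b.IsPos (wW b l i) := by rw [wW_orth h.head]; exact ro_pos
    refine mul_mem (x_Uw' hp _) ?_
    have h1 := (Uw_up' hp (ih h.tail)).1
    have h2 : (b1m b L i 1)⁻¹ * wd l t * b1m b L i 1 = wd l t := by
      rw [mul_assoc, ← (wd_comm_m h 1 t).eq, inv_mul_cancel_left]
    rwa [h2] at h1

theorem cc_wd {l : List b.support} (h : PO l) (t : b.support → L) {j : b.support} (hj : j ∈ l) : cc j (wd l t) = t j := by
  induction l with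
  | nil => exact absurd hj List.not_mem_nil
  | cons i l ih =>
    have hp : b.IsPos (wW b l i) := by rw [wW_orth h.head]; exact ro_pos
    have hp' : b.IsPos (wW b ([] : List b.support) i) := ro_pos
    rw [wd_cons, cc_mul' _ (Uw_HU (x_Uw' hp' _)) (Uw_HU (wd_mem h.tail t))]
    rcases List.mem_cons.1 hj with rfl | hj
    · rw [cc_x', Uw_cc' hp (wd_mem h.tail t), add_zero]
    · rw [cc_ne (h.head j hj).1.symm (h.head j hj).2, ih h.tail hj, zero_add]

/-- **The elements of `U_w`.** -/
theorem eq_wd {l : List b.support} (h : PO l) {g : GK b L} (hg : g ∈ Uw b L l) : g = wd l fun j => cc j g := by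
  induction l generalizing g with
  | nil =>
    rw [Uw_nil] at hg
    rw [Subgroup.mem_bot.1 hg]
    rfl
  | cons i l ih =>
    have hp : b.IsPos (wW b l i) := by rw [wW_orth h.head]; exact ro_pos
    have hp' : b.IsPos (wW b ([] : List b.support) i) := ro_pos
    set r := cc i g with hr
    have h1 : b1x b L (i : ι) (-r) * g ∈ Uw b L (i :: l) := mul_mem (x_Uw' hp _) hg
    have h2 : cc i (b1x b L (i : ι) (-r) * g) = 0 := by
      rw [cc_mul' _ (Uw_HU (x_Uw' hp' _)) (Uw_HU hg), cc_x', ← hr, neg_add_cancel]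
    have h3 := Uw_down' h1 h2
    set y := b1m b L i 1 * (b1x b L (i : ι) (-r) * g) * (b1m b L i 1)⁻¹ with hy
    have h4 := ih h.tail h3
    have h5 : y = b1x b L (i : ι) (-r) * g := by
      have h6 : b1m b L i 1 * y = y * b1m b L i 1 := by
        rw [h4]
        exact (wd_comm_m h 1 _).eq
      have h7 : y * b1m b L i 1 = b1m b L i 1 * (b1x b L (i : ι) (-r) * g) := by rw [hy, inv_mul_cancel_right]
      rw [h7] at h6
      exact mul_left_cancel h6
    have h8 : g = b1x b L (i : ι) r * y := by
      rw [h5, ← mul_assoc, ← b1x_add, add_neg_cancel, b1x_zero, one_mul]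
    have h9 : ∀ j ∈ l, cc j g = cc j y := by
      intro j hj
      rw [h5, cc_mul' _ (Uw_HU (x_Uw' hp' _)) (Uw_HU hg), cc_ne (h.head j hj).1.symm (h.head j hj).2, zero_add]
    rw [wd_cons, wd_congr h9, ← h4, ← hr]
    exact h8

end

end Pool.Agent.Lib.L8.QF
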