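import Pool.Agent.Lib.L8.QF.RO1
import Pool.Agent.Lib.L8.QF.EQ3
import Pool.Agent.Lib.L8.FI.G2

/-!
# RO2: the heights of `n_w x z` for words of pairwise orthogonal simple roots
-/

namespace Pool.Agent.Lib.L8.QF

open Matrix NumberField IsDedekindDomain Pool.Agent.Lib.H89N Pool.Agent.Lib.H33W Pool.Agent.Lib.H67G Pool.Agent.Lib.L1S Pool.Agent.Lib.H29Q
open Pool.Agent.Lib.L8.FL (nW wW Uw RedW HV av aI Gv Kv Ah TK tv PJ G1 fe se xe eW PosW)

noncomputable section

set_option linter.unusedSectionVars false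
set_option linter.unusedVariables false

variable {ι M N : Type} [Fintype ι] [DecidableEq ι] [AddCommGroup M] [Module ℚ M] [AddCommGroup N] [Module ℚ N]
  {P : RootPairing ι ℚ M N} [P.IsCrystallographic] [P.IsReduced] [P.IsIrreducible] [P.IsRootSystem] {b : P.Base}
  {L : Type} [Field L] [NumberField L]

/-- The local factor. -/
def Mh (w : HeightOneSpectrum (𝓞 L)) (i : b.support) (z : GK b L) (r : L) : ℝ := Real.sqrt (Ah b w z i / Ah b w (Tj i r * z) i)

theorem Mh_eq {w : HeightOneSpectrum (𝓞 L)} {i : b.support} {z : GK b L} {r : L} {m : ℝ} (hm : 0 < m) (h : Ah b w (Tj i r * z) i = Ah b w z i * m ^ (-(b.cartanMatrix i i))) : Mh w i z r = m := by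
  have ha : 0 < Ah b w z i := FI.Ah_pos b w z i
  unfold Mh
  have h2 : b.cartanMatrix i i = 2 := b.cartanMatrix_apply_same i
  have e : Ah b w z i / (Ah b w z i * m ^ (-(2 : ℤ))) = m ^ 2 := by
    rw [_root_.zpow_neg]
    have e2 : m ^ (2 : ℤ) = m ^ 2 := by norm_cast
    rw [e2]
    have hm2 : m ^ 2 ≠ 0 := (pow_pos hm 2).ne'
    field_simp
  rw [h, h2, e, Real.sqrt_sq hm.le]

theorem Mh_pos (w : HeightOneSpectrum (𝓞 L)) (i : b.support) (z : GK b L) (r : L) : 0 < Mh w i z r := Real.sqrt_pos.2 (div_pos (FI.Ah_pos b w z i) (FI.Ah_pos b w _ i))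

/-- The effect of `n_i x_i(r)` on the heights. -/
theorem Ah_Tj (w : HeightOneSpectrum (𝓞 L)) (i : b.support) (z : GK b L) (r : L) (j : b.support) : Ah b w (Tj i r * z) j = Ah b w z j * (Mh w i z r) ^ (-(b.cartanMatrix j i)) := by
  obtain ⟨c, -, h2, -⟩ := FI.g1_loc b w (𝔫 := ⊤) i z
  have h3 : Mh w i z r = max (Ah b w z i) (av w (r + c)) := Mh_eq ((FI.Ah_pos b w z i).trans_le (le_max_left _ _)) (h2 r i)
  rw [h3]
  exact h2 r j

theorem Mh_fin (i : b.support) (z : GK b L) (r : L) : {w : HeightOneSpectrum (𝓞 L) | Mh w i z r ≠ 1}.Finite := by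
  refine ((FI.Ah_fin b z i).union (FI.Ah_fin b (Tj i r * z) i)).subset fun w hw => ?_
  by_contra h
  simp only [Set.mem_union, Set.mem_ofPred_eq, not_or, not_not] at h
  apply hw
  unfold Mh
  rw [h.1, h.2, div_one, Real.sqrt_one]

/-- The factors of orthogonal roots are independent. -/
theorem Mh_Tj {i j : b.support} (hij : i ≠ j) (h : P.pairingIn ℤ (i : ι) (j : ι) = 0) (w : HeightOneSpectrum (𝓞 L)) (z : GK b L) (s r : L) : Mh w i (Tj j s * z) r = Mh w i z r := by
  have hc : b.cartanMatrix i j = 0 := h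
  have h1 : ∀ y : GK b L, Ah b w (Tj j s * y) i = Ah b w y i := by
    intro y
    rw [Ah_Tj, hc, neg_zero, zpow_zero, mul_one]
  unfold Mh
  have e : Tj i r * (Tj j s * z) = Tj j s * (Tj i r * z) := by
    rw [← mul_assoc, (ro_TT hij h r s).eq, mul_assoc]
  rw [e, h1, h1]

theorem wT_cons (i : b.support) (l : List b.support) (t : b.support → L) : wT (i :: l) t = Tj i (t i) * wT l t := by
  show (List.map (fun j : b.support => Tj j (t j)) (i :: l)).prod = _
  rw [List.map_cons, List.prod_cons]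
  rfl

theorem Mh_wT {i : b.support} {l : List b.support} (h : PO (i :: l)) (w : HeightOneSpectrum (𝓞 L)) (z : GK b L) (t : b.support → L) (r : L) : Mh w i (wT l t * z) r = Mh w i z r := by
  induction l with
  | nil =>
    have e : wT ([] : List b.support) t = (1 : GK b L) := rfl
    rw [e, one_mul]
  | cons k l ih =>
    have h1 := h.head k List.mem_cons_self
    have h2 : PO (i :: l) := by
      refine ⟨?_, fun a ha c hc => h.2 a ?_ c ?_⟩
      · have h3 := List.nodup_cons.1 h.1
        exact List.nodup_cons.2 ⟨fun h4 => h3.1 (List.mem_cons_of_mem _ h4), (List.nodup_cons.1 h3.2).2⟩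
      · rcases List.mem_cons.1 ha with rfl | ha
        · exact List.mem_cons_self
        · exact List.mem_cons_of_mem _ (List.mem_cons_of_mem _ ha)
      · rcases List.mem_cons.1 hc with rfl | hc
        · exact List.mem_cons_self
        · exact List.mem_cons_of_mem _ (List.mem_cons_of_mem _ hc)
    rw [wT_cons, mul_assoc, Mh_Tj h1.1.symm h1.2, ih h2]

/-- The effect of `n_i x_i(r)` on `f_e`. -/
theorem fe_Tj (e : b.support → ℝ) (i : b.support) (z : GK b L) (r : L) : fe b e (Tj i r * z) = fe b e z * (∏ᶠ w, Mh w i z r) ^ (-xe b e i) := by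
  rw [FI.fe_eq, FI.fe_eq]
  have hM := Mh_fin i z r
  have hM0 : 0 < ∏ᶠ w, Mh w i z r := FI.g2_pos fun w => Mh_pos w i z r
  have h1 : ∀ k : b.support, ∏ᶠ w, Ah b w (Tj i r * z) k = (∏ᶠ w, Ah b w z k) * (∏ᶠ w, Mh w i z r) ^ (-(b.cartanMatrix k i : ℝ)) := by
    intro k
    rw [← FI.g2_rpow (fun w => Mh_pos w i z r) hM, ← finprod_mul_distrib (FI.Ah_fin b z k)]
    · refine finprod_congr fun w => ?_
      rw [Ah_Tj]
      congr 1
      rw [← Real.rpow_intCast]
      congr 1
      push_cast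
      rfl
    · refine hM.subset fun w hw h => hw ?_
      show Mh w i z r ^ (-(b.cartanMatrix k i : ℝ)) = 1
      rw [h, Real.one_rpow]
  have h2 : ∀ k : b.support, (∏ᶠ w, Ah b w (Tj i r * z) k) ^ e k = (∏ᶠ w, Ah b w z k) ^ e k * (∏ᶠ w, Mh w i z r) ^ (-(e k * (b.cartanMatrix k i : ℝ))) := by
    intro k
    rw [h1, Real.mul_rpow (FI.g2_pos fun w => FI.Ah_pos b w z k).le (Real.rpow_nonneg hM0.le _), ← Real.rpow_mul hM0.le]
    congr 2
    ring
  rw [Finset.prod_congr rfl fun k _ => h2 k, Finset.prod_mul_distrib]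
  congr 1
  rw [← Real.rpow_sum_of_pos hM0]
  congr 1
  unfold xe
  rw [Finset.sum_neg_distrib]

/-- **The effect of `n_w x` on `f_e`.** -/
theorem fe_wT (e : b.support → ℝ) {l : List b.support} (h : PO l) (z : GK b L) (t : b.support → L) :
    fe b e (wT l t * z) = fe b e z * (l.map fun j => (∏ᶠ w, Mh w j z (t j)) ^ (-xe b e j)).prod := by
  induction l with
  | nil =>
    have e1 : wT ([] : List b.support) t = (1 : GK b L) := rfl
    rw [e1, one_mul, List.map_nil, List.prod_nil, mul_one]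
  | cons i l ih =>
    rw [wT_cons, mul_assoc, fe_Tj, ih h.tail, List.map_cons, List.prod_cons]
    have e1 : ∏ᶠ w, Mh w i (wT l t * z) (t i) = ∏ᶠ w, Mh w i z (t i) := finprod_congr fun w => Mh_wT h w z t (t i)
    rw [e1]
    ring

theorem mu_se {i k : b.support} (h : P.pairingIn ℤ (k : ι) (i : ι) = 0) (e : b.support → ℝ) : FL.mu b (se b k e) i = FL.mu b e i := by
  have hc : b.cartanMatrix k i = 0 := h
  unfold FL.mu
  congr 1
  unfold xe
  refine Finset.sum_congr rfl fun m _ => ?_
  by_cases hm : m = k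
  · rw [hm, hc]
    simp
  · have e1 : se b k e m = e m := if_neg hm
    rw [e1]

theorem mu_eW {i : b.support} {l : List b.support} (h : ∀ k ∈ l, P.pairingIn ℤ (k : ι) (i : ι) = 0) (e : b.support → ℝ) : FL.mu b (eW b e l) i = FL.mu b e i := by
  induction l with
  | nil => rfl
  | cons k l ih =>
    show FL.mu b (se b k (eW b e l)) i = _
    rw [mu_se (h k List.mem_cons_self), ih fun m hm => h m (List.mem_cons_of_mem _ hm)]

theorem posW_PO {κ : ℝ} {e : b.support → ℝ} {l : List b.support} (h : PO l) (hp : PosW b κ e l) : ∀ j ∈ l, κ ≤ FL.mu b e j := by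
  induction l with
  | nil => exact fun j hj => absurd hj List.not_mem_nil
  | cons i l ih =>
    obtain ⟨h1, h2⟩ := hp
    intro j hj
    rcases List.mem_cons.1 hj with rfl | hj
    · rwa [mu_eW fun k hk => (h.head' k hk).2] at h1
    · exact ih h.tail h2 j hj

/-- **The effect of the word on the parameter.** -/
theorem fe_eWz (e : b.support → ℝ) {l : List b.support} (h : PO l) (z : GK b L) :
    fe b (eW b e l) z = fe b e z * (l.map fun j => (∏ᶠ w, Ah b w z j) ^ (-FL.mu b e j)).prod := by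
  induction l with
  | nil =>
    rw [List.map_nil, List.prod_nil, mul_one]
    rfl
  | cons i l ih =>
    show fe b (se b i (eW b e l)) z = _
    rw [FI.fe_se, ih h.tail, List.map_cons, List.prod_cons, mu_eW fun k hk => (h.head' k hk).2]
    ring

end

end Pool.Agent.Lib.L8.QF
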