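import Pool.Agent.Lib.L8.QF.RQ2

/-!
# The rank one lemma for an orthogonal orbit (stage 3)

`E ⊆ L`, Galois; the local heights `max (a w, |r + c w|_w)` for `r ∈ E`, where `c w ∈ L` is equivariant modulo `a w`.
-/

namespace Pool.Agent.Lib.L8.QF

open NumberField IsDedekindDomain Pool.Agent.Lib.H89N Pool.Agent.Lib.L8.FR Pool.Agent.Lib.L1S Pool.Agent.Lib.H29F

noncomputable section

set_option linter.unusedSectionVars false

variable {E L : Type} [Field E] [NumberField E] [Field L] [NumberField L] [Algebra E L]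

variable (E L) in
/-- **The rank one lemma** for an orthogonal orbit, `E` the field of the orbit. -/
def RankOneQ (ε M Z : ℝ) : Prop := ∀ 𝔪 : Ideal (𝓞 E), 𝔪 ≠ ⊥ → ∀ (a : HeightOneSpectrum (𝓞 L) → ℝ) (c : HeightOneSpectrum (𝓞 L) → L) (𝔞 : AddSubgroup E) (T : Finset E) (μ : ℝ), 1 + ε ≤ μ → μ ≤ M →
    (∀ w, ∃ y : L, y ≠ 0 ∧ a w = av w y) → {w | a w ≠ 1}.Finite → (∀ r ∈ T, {w | mx a c (algebraMap E L r) w ≠ 1}.Finite) →
    (∀ (σ : L ≃ₐ[E] L) w w', Trn σ w w' → a w' = a w ∧ av w' (σ (c w) - c w') ≤ a w) →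
    𝔞.relIndex (OK E) ≠ 0 → (OK E).relIndex 𝔞 ≠ 0 → (∀ r ∈ T, ∀ r' ∈ T, r ≠ r' → r - r' ∉ 𝔞) →
    (∀ r ∈ T, ∀ r' ∈ T, ∀ w, av w (algebraMap E L (r - r')) ≤ nv (up L 𝔪) w * mx a c (algebraMap E L r) w * mx a c (algebraMap E L r') w / a w) →
    (∀ r ∈ T, ∀ s ∈ 𝔞, ∀ w, av w (algebraMap E L s) ≤ mx a c (algebraMap E L r) w ∧ av w (algebraMap E L s) ≤ nv (up L 𝔪) w * mx a c (algebraMap E L r) w ^ 2 / a w) →
    ∑ r ∈ T, (∏ᶠ w, mx a c (algebraMap E L r) w) ^ (-((1 + μ) / Module.finrank E L)) ≤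
      Z * (∏ᶠ w, a w) ^ (-(μ / Module.finrank E L)) * agi (OK E) 𝔞 / (Ideal.absNorm 𝔪 : ℝ)

/-- The root of a product over the places of `L`. -/
theorem root_prod [IsGalois E L] {F : HeightOneSpectrum (𝓞 L) → ℝ} (h0 : ∀ w, 0 < F w) (hF : {w | F w ≠ 1}.Finite) (hc : ∀ w w', CFT.below E w = CFT.below E w' → F w = F w') (s : ℝ) :
    (∏ᶠ w, F w) ^ (-(s / Module.finrank E L)) = ∏ᶠ v : HeightOneSpectrum (𝓞 E), (F (wv L v) ^ ((nl E (wv L v) : ℝ)⁻¹)) ^ (-s) := by
  classical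
  obtain ⟨hS, h1⟩ := finprod_above hF hc
  rw [h1]
  set T := hS.toFinset with hT
  have hT1 : ∀ v, v ∉ T → F (wv L v) = 1 := by
    intro v hv
    by_contra h
    exact hv (hS.mem_toFinset.2 h)
  have e1 : ∏ᶠ v : HeightOneSpectrum (𝓞 E), F (wv L v) ^ gv L v = ∏ v ∈ T, F (wv L v) ^ gv L v := by
    refine finprod_eq_prod_of_mulSupport_subset _ fun v hv => ?_
    by_contra h
    exact hv (by show F (wv L v) ^ gv L v = 1; rw [hT1 v h, one_pow])
  have e2 : ∏ᶠ v : HeightOneSpectrum (𝓞 E), (F (wv L v) ^ ((nl E (wv L v) : ℝ)⁻¹)) ^ (-s) = ∏ v ∈ T, (F (wv L v) ^ ((nl E (wv L v) : ℝ)⁻¹)) ^ (-s) := by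
    refine finprod_eq_prod_of_mulSupport_subset _ fun v hv => ?_
    by_contra h
    exact hv (by show (F (wv L v) ^ ((nl E (wv L v) : ℝ)⁻¹)) ^ (-s) = 1; rw [hT1 v h, Real.one_rpow, Real.one_rpow])
  rw [e1, e2, ← Real.finsetProd_rpow _ _ fun v _ => (pow_pos (h0 _) _).le]
  refine Finset.prod_congr rfl fun v _ => ?_
  rw [← Real.rpow_natCast, ← Real.rpow_mul (h0 _).le, ← Real.rpow_mul (h0 _).le]
  congr 1
  have h2 : ((gv L v : ℝ)) * (nl E (wv L v) : ℝ) = Module.finrank E L := by exact_mod_cast gv_wv (L := L) v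
  have h3 : (gv L v : ℝ) ≠ 0 := by exact_mod_cast (gv_pos (L := L) v).ne'
  have h4 : (nl E (wv L v) : ℝ) ≠ 0 := by exact_mod_cast (nl_pos (E := E) (wv L v)).ne'
  rw [← h2]
  field_simp

theorem root_le {x y : ℝ} {n : ℕ} (hn : 0 < n) (hx : 0 ≤ x) (h : x ^ n ≤ y) : x ≤ y ^ ((n : ℝ)⁻¹) := by
  rw [← Real.pow_rpow_inv_natCast hx hn.ne']
  exact Real.rpow_le_rpow (pow_nonneg hx n) h (inv_nonneg.2 (Nat.cast_nonneg n))

theorem root_ge {x y : ℝ} {n : ℕ} (hn : 0 < n) (hx : 0 ≤ x) (hy : 0 ≤ y) (h : y ≤ x ^ n) : y ^ ((n : ℝ)⁻¹) ≤ x := by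
  rw [← Real.pow_rpow_inv_natCast hx hn.ne']
  exact Real.rpow_le_rpow hy h (inv_nonneg.2 (Nat.cast_nonneg n))

/-- The value group at an unramified place. -/
theorem root_val {v : HeightOneSpectrum (𝓞 E)} (hv : CFT.Unr E L v) {y : L} (hy : y ≠ 0) : ∃ m : ℤ, (av (wv L v) y) ^ ((nl E (wv L v) : ℝ)⁻¹) = (Ideal.absNorm v.asIdeal : ℝ) ^ m := by
  obtain ⟨m, hm⟩ := aw_zpow (wv L v) y hy
  refine ⟨m, ?_⟩
  have h1 : (nl E (wv L v) : ℝ) = ((wv L v).asIdeal.inertiaDeg (𝓞 E) : ℕ) := by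
    unfold nl
    rw [hv (wv L v) (wv_below v), one_mul]
  have h2 := absNorm_below (E := E) (wv L v)
  rw [wv_below] at h2
  have h3 : ((wv L v).asIdeal.inertiaDeg (𝓞 E)) ≠ 0 := (CFT.f_pos (K := E) (wv L v)).ne'
  rw [av_eq, hm, h1, h2, ← zpow_natCast, ← zpow_mul, mul_comm, zpow_mul, zpow_natCast]
  exact Real.pow_rpow_inv_natCast (zpow_pos (nu2_pos v) _).le h3

variable (E L) in
/-- **The rank one lemma for an orthogonal orbit.** -/
theorem exists_rankOneQ [IsGalois E L] {ε : ℝ} (hε : 0 < ε) (M : ℝ) : ∃ Z : ℝ, 1 ≤ Z ∧ RankOneQ E L ε M Z := by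
  classical
  obtain ⟨Z, hZ, key⟩ := rank_one_B (CFT.unr_fin (K := E) (L := L)).toFinset hε M
  refine ⟨Z, hZ, ?_⟩
  intro 𝔪 h𝔪 a c 𝔞 T μ hμ hμM hav haf hTf heq h1 h2 hinc hl hΛ
  have hB : ∀ v, v ∉ (CFT.unr_fin (K := E) (L := L)).toFinset → CFT.Unr E L v := by
    intro v hv
    by_contra h
    exact hv ((CFT.unr_fin (K := E) (L := L)).mem_toFinset.2 h)
  have ha0 : ∀ w, 0 < a w := by
    intro w
    obtain ⟨y, hy, e⟩ := hav w
    rw [e]
    exact (av w).pos hy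
  have hm0 : ∀ (r : L) w, 0 < mx a c r w := fun r w => (ha0 w).trans_le (le_max_left _ _)
  have hac : ∀ w w', CFT.below E w = CFT.below E w' → a w = a w' := by
    intro w w' h
    obtain ⟨σ, hσ⟩ := exists_trn (E := E) h
    exact (heq σ w w' hσ).1.symm
  have hmle : ∀ (r : E) w w', CFT.below E w = CFT.below E w' → mx a c (algebraMap E L r) w' ≤ mx a c (algebraMap E L r) w := by
    intro r w w' h
    obtain ⟨σ, hσ⟩ := exists_trn (E := E) h
    obtain ⟨h3, h4⟩ := heq σ w w' hσ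
    refine max_le (h3.le.trans (le_max_left _ _)) ?_
    have e : algebraMap E L r + c w' = σ (algebraMap E L r + c w) + -(σ (c w) - c w') := by
      rw [map_add, AlgEquiv.commutes]
      ring
    rw [e]
    refine (aw_nonarch w' _ _).trans (max_le ?_ ?_)
    · rw [← av_eq]
      exact (hσ _).le.trans (le_max_right _ _)
    · rw [AbsoluteValue.map_neg]
      exact h4.trans (le_max_left _ _)
  have hmc : ∀ (r : E) w w', CFT.below E w = CFT.below E w' → mx a c (algebraMap E L r) w = mx a c (algebraMap E L r) w' :=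
    fun r w w' h => le_antisymm (hmle r w' w h.symm) (hmle r w w' h)
  set n : HeightOneSpectrum (𝓞 E) → ℕ := fun v => nl E (wv L v) with hn
  have hn0 : ∀ v, 0 < n v := fun v => nl_pos _
  set cc : HeightOneSpectrum (𝓞 E) → ℝ := fun v => a (wv L v) ^ ((n v : ℝ)⁻¹) with hcc
  set D : E → HeightOneSpectrum (𝓞 E) → ℝ := fun r v => mx a c (algebraMap E L r) (wv L v) ^ ((n v : ℝ)⁻¹) with hD
  have hi0 : ∀ v, 0 ≤ ((n v : ℝ)⁻¹) := fun v => inv_nonneg.2 (Nat.cast_nonneg _)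
  have haw : ∀ (v : HeightOneSpectrum (𝓞 E)) (x : E), av (wv L v) (algebraMap E L x) = aw v x ^ n v := by
    intro v x
    rw [av_eq, aw_alg, wv_below]
  have hmv : ∀ (r : E) (v : HeightOneSpectrum (𝓞 E)), ∃ y : L, y ≠ 0 ∧ mx a c (algebraMap E L r) (wv L v) = av (wv L v) y := by
    intro r v
    rcases le_total (av (wv L v) (algebraMap E L r + c (wv L v))) (a (wv L v)) with h | h
    · obtain ⟨y, hy, e⟩ := hav (wv L v)
      exact ⟨y, hy, by unfold mx; rw [max_eq_left h, e]⟩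
    · refine ⟨_, ?_, by unfold mx; rw [max_eq_right h]⟩
      intro h0
      rw [h0, map_zero] at h
      exact absurd (ha0 _) (not_lt.2 h)
  have hac1 : {w | a w ≠ 1}.Finite := haf
  have hcf : {v | cc v ≠ 1}.Finite := by
    refine (haf.image (CFT.below E)).subset fun v hv => ⟨wv L v, fun h => hv ?_, wv_below v⟩
    show a (wv L v) ^ ((n v : ℝ)⁻¹) = 1
    rw [h, Real.one_rpow]
  have hDf : ∀ r ∈ T, {v | D r v ≠ 1}.Finite := by
    intro r hr
    refine ((hTf r hr).image (CFT.below E)).subset fun v hv => ⟨wv L v, fun h => hv ?_, wv_below v⟩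
    show mx a c (algebraMap E L r) (wv L v) ^ ((n v : ℝ)⁻¹) = 1
    rw [h, Real.one_rpow]
  -- the level at one place
  have lvl : ∀ (v : HeightOneSpectrum (𝓞 E)) (t : E) (x y : ℝ), 0 < x → 0 < y → av (wv L v) (algebraMap E L t) ≤ nv (up L 𝔪) (wv L v) * x * y / a (wv L v) →
      aw v t * cc v ≤ nw v 𝔪 * x ^ ((n v : ℝ)⁻¹) * y ^ ((n v : ℝ)⁻¹) := by
    intro v t x y hx hy h
    rw [le_div_iff₀ (ha0 _), haw, nv_eq] at h
    have h3 : nw (wv L v) (up L 𝔪) ≤ nw v 𝔪 ^ n v := by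
      have h4 := nw_up_le (L := L) h𝔪 (wv L v)
      rwa [wv_below] at h4
    have h4 : aw v t ^ n v * a (wv L v) ≤ nw v 𝔪 ^ n v * x * y :=
      h.trans (mul_le_mul_of_nonneg_right (mul_le_mul_of_nonneg_right h3 hx.le) hy.le)
    have h5 := Real.rpow_le_rpow (mul_nonneg (pow_nonneg ((aw v).nonneg t) _) (ha0 _).le) h4 (hi0 v)
    rw [Real.mul_rpow (pow_nonneg ((aw v).nonneg t) _) (ha0 _).le, Real.mul_rpow (mul_nonneg (pow_nonneg (nw_pos v 𝔪).le _) hx.le) hy.le, Real.mul_rpow (pow_nonneg (nw_pos v 𝔪).le _) hx.le,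
      Real.pow_rpow_inv_natCast ((aw v).nonneg t) (hn0 v).ne', Real.pow_rpow_inv_natCast (nw_pos v 𝔪).le (hn0 v).ne'] at h5
    exact h5
  have hUM : ∀ (r r' : E) w, av w (algebraMap E L (r - r')) ≤ max (mx a c (algebraMap E L r) w) (mx a c (algebraMap E L r') w) := by
    intro r r' w
    have e : algebraMap E L (r - r') = (algebraMap E L r + c w) + -(algebraMap E L r' + c w) := by
      rw [map_sub]
      ring
    rw [e]
    refine (aw_nonarch w _ _).trans (max_le_max (le_max_right _ _) ?_)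
    rw [AbsoluteValue.map_neg]
    exact le_max_right _ _
  have main := key μ hμ hμM h𝔪 cc D 𝔞 T (fun v => Real.rpow_pos_of_pos (ha0 _) _)
    (fun v hv => by
      obtain ⟨y, hy, e⟩ := hav (wv L v)
      obtain ⟨m, hm⟩ := root_val (hB v hv) hy
      exact ⟨m, by rw [← hm, ← e]⟩) hcf
    (fun r v => Real.rpow_le_rpow (ha0 _).le (le_max_left _ _) (hi0 v))
    (fun r v hv => by
      obtain ⟨y, hy, e⟩ := hmv r v
      obtain ⟨m, hm⟩ := root_val (hB v hv) hy
      exact ⟨m, by rw [← hm, ← e]⟩)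
    (fun r _ r' _ v => by
      have h3 := hUM r r' (wv L v)
      rw [haw] at h3
      have h4 := root_le (hn0 v) ((aw v).nonneg _) h3
      refine h4.trans ?_
      rcases le_total (mx a c (algebraMap E L r) (wv L v)) (mx a c (algebraMap E L r') (wv L v)) with h5 | h5
      · rw [max_eq_right h5]
        exact le_max_right _ _
      · rw [max_eq_left h5]
        exact le_max_left _ _)
    (fun (r : E) _ (r' : E) _ v hlt => by
      have h3 : mx a c (algebraMap E L r) (wv L v) < mx a c (algebraMap E L r') (wv L v) := by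
        by_contra h
        exact absurd (Real.rpow_le_rpow (hm0 _ _).le (not_lt.1 h) (hi0 v)) (not_le.2 hlt)
      refine root_ge (hn0 v) ((aw v).nonneg _) (hm0 _ _).le ?_
      rw [← haw]
      have h4 : mx a c (algebraMap E L r') (wv L v) = av (wv L v) (algebraMap E L r' + c (wv L v)) := by
        refine max_eq_right ?_
        by_contra h
        rw [not_le] at h
        have h5 : mx a c (algebraMap E L r') (wv L v) = a (wv L v) := max_eq_left h.le
        have h6 : a (wv L v) ≤ mx a c (algebraMap E L r) (wv L v) := le_max_left _ _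
        linarith
      rw [h4] at h3 ⊢
      by_contra h
      rw [not_le] at h
      have h6 := aw_nonarch (wv L v) (algebraMap E L r + c (wv L v)) (-(algebraMap E L (r - r')))
      rw [AbsoluteValue.map_neg] at h6
      have e : algebraMap E L r + c (wv L v) + -(algebraMap E L (r - r')) = algebraMap E L r' + c (wv L v) := by
        rw [map_sub]
        ring
      rw [e] at h6
      have h7 : av (wv L v) (algebraMap E L r + c (wv L v)) < av (wv L v) (algebraMap E L r' + c (wv L v)) := lt_of_le_of_lt (le_max_right _ _) h3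
      exact absurd h6 (not_le.2 (max_lt h7 h))) h1 h2
    (fun r hr t ht v => by
      obtain ⟨h3, h4⟩ := hΛ r hr t ht (wv L v)
      refine ⟨?_, lvl v t _ _ (hm0 _ _) (hm0 _ _) (h4.trans (le_of_eq (by ring)))⟩
      rw [haw] at h3
      exact root_le (hn0 v) ((aw v).nonneg _) h3)
    (fun r hr r' hr' v => lvl v _ _ _ (hm0 _ _) (hm0 _ _) (hl r hr r' hr' (wv L v))) hDf
    (fun r hr r' hr' h => by
      by_contra hne
      exact hinc r hr r' hr' hne h)
  have e1 : ∀ r ∈ T, (∏ᶠ w, mx a c (algebraMap E L r) w) ^ (-((1 + μ) / Module.finrank E L)) = ∏ᶠ v, (D r v) ^ (-(1 + μ)) := fun r hr =>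
    root_prod (hm0 _) (hTf r hr) (hmc r) (1 + μ)
  have e2 : (∏ᶠ w, a w) ^ (-(μ / Module.finrank E L)) = ∏ᶠ v, (cc v) ^ (-μ) := root_prod ha0 haf hac μ
  have hgi : L8.FR.gi 𝔞 = agi (OK E) 𝔞 := rfl
  rw [Finset.sum_congr rfl e1, e2]
  refine main.trans (le_of_eq ?_)
  rw [hgi, div_eq_mul_inv]
  ring

end

end Pool.Agent.Lib.L8.QF
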