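import Pool.Agent.Lib.L8.QF.RO3
import Pool.Agent.Lib.L8.QF.RQ
import Pool.Agent.Lib.L8.QF.G0

/-!
# RO4: the field of an orthogonal orbit
-/

namespace Pool.Agent.Lib.L8.QF

open Matrix NumberField IsDedekindDomain Pool.Agent.Lib.H89N Pool.Agent.Lib.H33W Pool.Agent.Lib.H67G Pool.Agent.Lib.L1S Pool.Agent.Lib.H29Q
open Pool.Agent.Lib.L8.FL (nW wW Uw RedW HV av aI Gv Kv Ah TK tv PJ G1 fe se xe eW PosW)
open Pool.Agent.Lib.H29F (OK agi gi)

noncomputable section

set_option linter.unusedSectionVars false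
set_option linter.unusedVariables false

variable {ι M N : Type} [Fintype ι] [DecidableEq ι] [AddCommGroup M] [Module ℚ M] [AddCommGroup N] [Module ℚ N]
  {P : RootPairing ι ℚ M N} [P.IsCrystallographic] [P.IsReduced] [P.IsIrreducible] [P.IsRootSystem] {b : P.Base}
  {K L : Type} [Field K] [NumberField K] [Field L] [NumberField L] [Algebra K L]

/-! ## 1. The field -/

/-- The stabiliser of `i`. -/
def stb (Q : QS b K L) (i : b.support) : Subgroup (L ≃ₐ[K] L) where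
  carrier := {s | (Q.da s).sp i = i}
  one_mem' := sp_one Q i
  mul_mem' := by
    intro s t hs ht
    show (Q.da (s * t)).sp i = i
    rw [sp_mul, show (Q.da t).sp i = i from ht]
    exact hs
  inv_mem' := by
    intro s hs
    show (Q.da s⁻¹).sp i = i
    conv_lhs => rw [← show (Q.da s).sp i = i from hs]
    exact sp_cancel Q s i

theorem mem_stb {Q : QS b K L} {i : b.support} {s : L ≃ₐ[K] L} : s ∈ stb Q i ↔ (Q.da s).sp i = i := Iff.rfl

/-- The field of the orbit. -/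
abbrev Ei (Q : QS b K L) (i : b.support) : IntermediateField K L := IntermediateField.fixedField (stb Q i)

variable {Q : QS b K L} {i : b.support}

theorem mem_Ei {x : L} : x ∈ Ei Q i ↔ ∀ s ∈ stb Q i, s x = x := by
  rw [IntermediateField.mem_fixedField_iff]


theorem orb_stb [IsGalois K L] (Q : QS b K L) (i : b.support) : (orb Q i).card * Nat.card (stb Q i) = Module.finrank K L := by
  classical
  let _ : MulAction (L ≃ₐ[K] L) b.support := { smul := fun s j => (Q.da s).sp j, one_smul := fun j => sp_one Q j, mul_smul := fun s t j => sp_mul Q s t j }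
  have h1 : MulAction.stabilizer (L ≃ₐ[K] L) i = stb Q i := rfl
  have h2 := MulAction.index_stabilizer (L ≃ₐ[K] L) i
  have h3 : MulAction.orbit (L ≃ₐ[K] L) i = (orb Q i : Set b.support) := by
    ext j
    rw [Finset.mem_coe, mem_orb]
    exact Iff.rfl
  rw [h1, h3, Set.ncard_coe_finset] at h2
  rw [← h2, Subgroup.index_mul_card, IsGalois.card_aut_eq_finrank]

theorem finrank_Ei [IsGalois K L] (Q : QS b K L) (i : b.support) : Module.finrank K (Ei Q i) = (orb Q i).card ∧ (orb Q i).card * Module.finrank (Ei Q i) L = Module.finrank K L := by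
  have h1 : Module.finrank (Ei Q i) L = Nat.card (stb Q i) := IntermediateField.finrank_fixedField_eq_card _
  have h2 : Module.finrank K (Ei Q i) * Module.finrank (Ei Q i) L = Module.finrank K L := Module.finrank_mul_finrank K (Ei Q i) L
  have h3 : (orb Q i).card * Module.finrank (Ei Q i) L = Module.finrank K L := by rw [h1, orb_stb]
  refine ⟨?_, h3⟩
  have h4 : 0 < Module.finrank (Ei Q i) L := Module.finrank_pos
  exact Nat.eq_of_mul_eq_mul_right h4 (h2.trans h3.symm)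

theorem up_up (𝔫 : Ideal (𝓞 K)) (E : IntermediateField K L) : L1S.up L (L1S.up E 𝔫) = L1S.up L 𝔫 := by
  unfold L1S.up
  rw [Ideal.map_map]
  congr 1

theorem absNorm_up (𝔫 : Ideal (𝓞 K)) (E : IntermediateField K L) : Ideal.absNorm (L1S.up E 𝔫) = Ideal.absNorm 𝔫 ^ Module.finrank K E := by
  have h1 := Ideal.absNorm_algebraMap (R := 𝓞 K) (S := 𝓞 E) 𝔫
  rw [← IsFractionRing.finrank_eq (𝓞 K) K (𝓞 E) E] at h1
  exact h1

theorem up_ne {𝔫 : Ideal (𝓞 K)} (h : 𝔫 ≠ ⊥) (E : IntermediateField K L) : L1S.up E 𝔫 ≠ ⊥ := by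
  intro h1
  have h2 := absNorm_up 𝔫 E
  rw [h1, Ideal.absNorm_bot] at h2
  have h3 : Ideal.absNorm 𝔫 ≠ 0 := by
    rw [Ne, Ideal.absNorm_eq_zero_iff]
    exact h
  exact pow_ne_zero _ h3 h2.symm

/-! ## 2. The letter group as the additive group of the field -/

/-- The coordinates of the element of the letter group with the coordinate `r` at `i`. -/
def tr (Q : QS b K L) (i : b.support) (r : L) (j : b.support) : L :=
  open scoped Classical in if h : ∃ s, (Q.da s).sp i = j then h.choose r else 0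

theorem tr_eq {r : L} (hr : ∀ s ∈ stb Q i, s r = r) (s : L ≃ₐ[K] L) : tr Q i r ((Q.da s).sp i) = s r := by
  have h : ∃ s', (Q.da s').sp i = (Q.da s).sp i := ⟨s, rfl⟩
  unfold tr
  rw [dif_pos h]
  have h1 := h.choose_spec
  have h2 : s⁻¹ * h.choose ∈ stb Q i := by
    rw [mem_stb, sp_mul, h1, sp_cancel]
  have h3 := hr _ h2
  have h4 : s (s⁻¹ (h.choose r)) = s r := congrArg s h3
  rw [show s (s⁻¹ (h.choose r)) = h.choose r from s.apply_symm_apply _] at h4
  exact h4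

/-- The elements of the letter group. -/
def xO (Q : QS b K L) (i : b.support) (r : L) : GK b L := wd (ow Q i) (tr Q i r)

theorem tG_wd (s : L ≃ₐ[K] L) (l : List b.support) (t t' : b.support → L) (h : ∀ j ∈ l, t' ((Q.da s).sp j) = s (t j)) : tG Q s (wd l t) = wd (l.map (Q.da s).sp) t' := by
  induction l with
  | nil => exact map_one _
  | cons k l ih =>
    rw [List.map_cons, wd_cons, wd_cons, map_mul, tG_b1x, ih fun j hj => h j (List.mem_cons_of_mem _ hj), h k List.mem_cons_self]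

theorem wd_perm {l l' : List b.support} (h : PO l) (hl : l.Perm l') (t : b.support → L) : wd l t = wd l' t := by
  refine (hl.map fun j : b.support => b1x b L (j : ι) (t j)).prod_eq' ?_
  rw [List.pairwise_map]
  have h1 : l.Pairwise fun a c : b.support => a ≠ c := h.1
  refine h1.imp_of_mem fun {j k} hj hk hjk => ?_
  exact ro_xx hjk (h.2 j hj k hk hjk) _ _

theorem xO_mem (hO : Orth Q i) {r : L} (hr : ∀ s ∈ stb Q i, s r = r) : xO Q i r ∈ Xq Q i := by
  refine ⟨wd_mem (PO_ow hO) _, mem_HF (fx_of_tG Q fun s => ?_)⟩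
  have h1 : tG Q s (xO Q i r) = wd ((ow Q i).map (Q.da s).sp) (tr Q i r) := by
    refine tG_wd s _ _ _ fun j hj => ?_
    obtain ⟨s', rfl⟩ := mem_orb.1 ((mem_ow' hO).1 hj)
    rw [← sp_mul, tr_eq hr, tr_eq hr]
    rfl
  rw [h1]
  refine (wd_perm (PO_ow hO) ?_ _).symm
  refine (List.perm_ext_iff_of_nodup (PO_ow hO).1 ((PO_ow hO).1.map (Q.da s).sp.injective)).2 fun j => ?_
  rw [mem_ow' hO, List.mem_map]
  constructor
  · intro hj
    refine ⟨(Q.da s⁻¹).sp j, (mem_ow' hO).2 ?_, sp_cancel' Q s j⟩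
    obtain ⟨s', rfl⟩ := mem_orb.1 hj
    exact mem_orb.2 ⟨s⁻¹ * s', sp_mul Q _ _ _⟩
  · rintro ⟨k, hk, rfl⟩
    obtain ⟨s', rfl⟩ := mem_orb.1 ((mem_ow' hO).1 hk)
    exact mem_orb.2 ⟨s * s', sp_mul Q _ _ _⟩

theorem cc_xO (hO : Orth Q i) {r : L} (hr : ∀ s ∈ stb Q i, s r = r) : cc i (xO Q i r) = r := by
  unfold xO
  rw [cc_wd (PO_ow hO) _ ((mem_ow' hO).2 (self_orb i))]
  have h1 := tr_eq hr (1 : L ≃ₐ[K] L)
  rw [sp_one] at h1
  exact h1

theorem cc_fix {x : GK b L} (hx : x ∈ HF Q) : ∀ s ∈ stb Q i, s (cc i x) = cc i x := by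
  intro s hs
  rw [← cc_HF hx, mem_stb.1 hs]

theorem xO_cc (hO : Orth Q i) {x : GK b L} (hx : x ∈ Xq Q i) : xO Q i (cc i x) = x := by
  conv_rhs => rw [Xq_eq hO hx]
  refine wd_congr fun j hj => ?_
  obtain ⟨s, rfl⟩ := mem_orb.1 ((mem_ow' hO).1 hj)
  rw [tr_eq (cc_fix hx.2), cc_HF hx.2]

theorem Xq_HU {x : GK b L} (hx : x ∈ Xq Q i) : x ∈ HU b L := Uw_HU hx.1

theorem cc_one : cc i (1 : GK b L) = 0 := by
  have h := cc_x' (b := b) i (0 : L)
  rwa [b1x_zero] at h

theorem xO_zero (hO : Orth Q i) : xO Q i (0 : L) = 1 := by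
  have h := xO_cc hO (one_mem (Xq Q i))
  rwa [cc_one] at h

theorem xO_add (hO : Orth Q i) {r r' : L} (hr : ∀ s ∈ stb Q i, s r = r) (hr' : ∀ s ∈ stb Q i, s r' = r') : xO Q i (r + r') = xO Q i r * xO Q i r' := by
  have h1 := xO_mem hO hr
  have h2 := xO_mem hO hr'
  have h := xO_cc hO (mul_mem h1 h2)
  rw [cc_mul' _ (Xq_HU h1) (Xq_HU h2), cc_xO hO hr, cc_xO hO hr'] at h
  exact h

/-- The letter group as the image of the additive group of the field. -/
def phO (hO : Orth Q i) : Multiplicative (Ei Q i) →* GK b L where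
  toFun r := xO Q i ((Multiplicative.toAdd r : Ei Q i) : L)
  map_one' := xO_zero hO
  map_mul' r r' := xO_add hO (mem_Ei.1 (Multiplicative.toAdd r : Ei Q i).2) (mem_Ei.1 (Multiplicative.toAdd r' : Ei Q i).2)

theorem phO_range (hO : Orth Q i) : Xq Q i ≤ (phO hO).range := by
  intro x hx
  exact ⟨Multiplicative.ofAdd ⟨cc i x, mem_Ei.2 (cc_fix hx.2)⟩, xO_cc hO hx⟩

/-- The additive group of the coordinates. -/
def aE (hO : Orth Q i) (A : Subgroup (GK b L)) : AddSubgroup (Ei Q i) := (A.comap (phO hO)).toAddSubgroup'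

theorem mem_aE (hO : Orth Q i) {A : Subgroup (GK b L)} {r : Ei Q i} : r ∈ aE hO A ↔ xO Q i (r : L) ∈ A := Iff.rfl

theorem aE_relIndex (hO : Orth Q i) (A : Subgroup (GK b L)) {B : Subgroup (GK b L)} (hB : B ≤ Xq Q i) : (aE hO A).relIndex (aE hO B) = A.relIndex B := by
  have h1 : (aE hO A).relIndex (aE hO B) = (A.comap (phO hO)).relIndex (B.comap (phO hO)) := rfl
  rw [h1, Subgroup.relIndex_comap, Subgroup.map_comap_eq_self (hB.trans (phO_range hO))]

theorem xO_G1 (hO : Orth Q i) {r : L} (h : ∀ s : L ≃ₐ[K] L, IsIntegral ℤ (s r)) : xO Q i r ∈ G1 b (⊤ : Ideal (𝓞 L)) := by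
  unfold xO wd
  refine Subgroup.list_prod_mem _ fun x hx => ?_
  obtain ⟨j, hj, rfl⟩ := List.mem_map.1 hx
  obtain ⟨s, hs⟩ := mem_orb.1 ((mem_ow' hO).1 hj)
  have h1 : IsIntegral ℤ (tr Q i r j) := by
    unfold tr
    rw [dif_pos ⟨s, hs⟩]
    exact h _
  exact x_G1' (j : ι) (⟨tr Q i r j, h1⟩ : 𝓞 L)

theorem aE_OK (hO : Orth Q i) : aE hO (Xq Q i ⊓ G1 b ⊤) = OK (Ei Q i) := by
  ext r
  rw [mem_aE, Subgroup.mem_inf]
  constructor
  · rintro ⟨-, h⟩
    obtain ⟨y, hy⟩ := cc_int i h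
    rw [cc_xO hO (mem_Ei.1 r.2)] at hy
    have h1 : IsIntegral ℤ ((r : Ei Q i) : L) := by
      rw [hy]
      exact y.2
    have h2 : IsIntegral ℤ (r : Ei Q i) := by
      rwa [← isIntegral_algebraMap_iff (B := L) (algebraMap (Ei Q i) L).injective]
    exact ⟨⟨r, h2⟩, rfl⟩
  · rintro ⟨y, rfl⟩
    refine ⟨xO_mem hO (mem_Ei.1 (algebraMap (𝓞 (Ei Q i)) (Ei Q i) y).2), xO_G1 hO fun s => ?_⟩
    have h1 : IsIntegral ℤ (algebraMap (𝓞 (Ei Q i)) (Ei Q i) y) := y.2
    have h2 : IsIntegral ℤ ((algebraMap (𝓞 (Ei Q i)) (Ei Q i) y : Ei Q i) : L) := h1.map (algebraMap (Ei Q i) L).toIntAlgHom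
    exact h2.map (s : L →+* L).toIntAlgHom

theorem aE_agi (hO : Orth Q i) {A : Subgroup (GK b L)} (hA : A ≤ Xq Q i) : agi (OK (Ei Q i)) (aE hO A) = gi (Xq Q i ⊓ G1 b ⊤) A := by
  unfold agi gi
  rw [← aE_OK hO, aE_relIndex hO A inf_le_left, aE_relIndex hO _ hA]

end

end Pool.Agent.Lib.L8.QF
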