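import Pool.Agent.Lib.L8.QF.RO4

/-!
# RO5: the rank one estimate for the letter of an orthogonal orbit
-/

namespace Pool.Agent.Lib.L8.QF

open Matrix NumberField IsDedekindDomain Pool.Agent.Lib.H89N Pool.Agent.Lib.H33W Pool.Agent.Lib.H67G Pool.Agent.Lib.L1S Pool.Agent.Lib.H29Q
open Pool.Agent.Lib.L8.FL (nW wW Uw RedW HV av aI Gv Kv Ah TK tv PJ G1 fe se xe eW PosW)
open Pool.Agent.Lib.H29F (OK agi gi mx)

noncomputable section

set_option linter.unusedSectionVars false
set_option linter.unusedVariables false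

variable {ι M N : Type} [Fintype ι] [DecidableEq ι] [AddCommGroup M] [Module ℚ M] [AddCommGroup N] [Module ℚ N]
  {P : RootPairing ι ℚ M N} [P.IsCrystallographic] [P.IsReduced] [P.IsIrreducible] [P.IsRootSystem] {b : P.Base}
  {K L : Type} [Field K] [NumberField K] [Field L] [NumberField L] [Algebra K L] {Q : QS b K L} {i : b.support}

/-- The coordinate in the field of the orbit. -/
def psO (Q : QS b K L) (i : b.support) (x : GK b L) : Ei Q i := open scoped Classical in if h : cc i x ∈ Ei Q i then ⟨cc i x, h⟩ else 0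

theorem psO_eq {x : GK b L} (hx : x ∈ Xq Q i) : (psO Q i x : L) = cc i x := by
  unfold psO
  rw [dif_pos (mem_Ei.2 (cc_fix hx.2))]

theorem psO_inj (hO : Orth Q i) {x y : GK b L} (hx : x ∈ Xq Q i) (hy : y ∈ Xq Q i) (h : psO Q i x = psO Q i y) : x = y := by
  rw [← xO_cc hO hx, ← xO_cc hO hy, ← psO_eq hx, ← psO_eq hy, h]

theorem ro_lev1 {E : IntermediateField K L} (w : HeightOneSpectrum (𝓞 L)) : H29F.nv (L1S.up L (⊤ : Ideal (𝓞 E))) w = 1 := by
  have e : L1S.up L (⊤ : Ideal (𝓞 E)) = ⊤ := Ideal.map_top _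
  rw [e]
  unfold H29F.nv
  have h1 : (Associates.mk w.asIdeal).count (Associates.mk (⊤ : Ideal (𝓞 L))).factors = 0 := by
    have h2 : Associates.mk (⊤ : Ideal (𝓞 L)) = 1 := by
      rw [← Ideal.one_eq_top]
      exact Associates.mk_one
    rw [h2, Associates.factors_one]
    exact Associates.count_zero w.associates_irreducible
  rw [h1, pow_zero]

theorem ro_frac {o f m : ℝ} (ho : 0 < o) (hf : 0 < f) : -(o * m) * (o * f)⁻¹ = -(m / f) := by
  have h1 := ho.ne'
  have h2 := hf.ne'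
  field_simp

/-- **The rank one estimate for the letter of an orthogonal orbit.** -/
theorem rankQ_orth (Q : QS b K L) [IsGalois K L] {i : b.support} (hO : Orth Q i) {κ : ℝ} (hκ : 1 < κ) {e : b.support → ℝ} (he : InvE Q e) (hP : PosW b κ e (ow Q i)) {δ : ℝ} (hd : 0 < δ) :
    ∃ Z : ℝ, 1 ≤ Z ∧ RankQ Q i e δ Z := by
  classical
  have hμ : κ ≤ FL.mu b e i := posW_PO (PO_ow hO) hP i ((mem_ow' hO).2 (self_orb i))
  obtain ⟨Z, hZ, key⟩ := exists_rankOneQ (Ei Q i) L (ε := κ - 1) (by linarith) (FL.mu b e i)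
  refine ⟨Z, hZ, ?_⟩
  intro 𝔫 h𝔫 z hz 𝔞 h𝔞 h1 h2 hper R hR hinc lev hlev
  have h𝔫L : L1S.up L 𝔫 ≠ ⊥ := by
    intro h
    exact h𝔫 ((Ideal.map_eq_bot_iff_of_injective (FaithfulSMul.algebraMap_injective (𝓞 K) (𝓞 L))).1 h)
  set μ := FL.mu b e i with hμd
  set a : HeightOneSpectrum (𝓞 L) → ℝ := fun w => Ah b w z i with ha
  have ha0 : ∀ w, 0 < a w := fun w => FI.Ah_pos b w z i
  choose c hc using fun w : HeightOneSpectrum (𝓞 L) => FI.g1_loc b w (𝔫 := L1S.up L 𝔫) i z
  have hM : ∀ w (r : L), Mh w i z r = mx a c r w := fun w r => Mh_eq ((ha0 w).trans_le (le_max_left _ _)) ((hc w).2.1 r i)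
  have hMM : ∀ r : L, (fun w => Mh w i z r) = mx a c r := fun r => funext fun w => hM w r
  have hm0 : ∀ w (r : L), 0 < mx a c r w := fun w r => (ha0 w).trans_le (le_max_left _ _)
  set 𝔪 : Ideal (𝓞 (Ei Q i)) := if lev then L1S.up (Ei Q i) 𝔫 else ⊤ with h𝔪
  set T : Finset (Ei Q i) := R.image (psO Q i) with hT
  have hTx : ∀ r ∈ T, ∃ x ∈ R, x ∈ Xq Q i ∧ cc i x = r ∧ xO Q i (r : L) = x := by
    intro r hr
    obtain ⟨x, hx, rfl⟩ := Finset.mem_image.1 hr
    have hx' := hR x hx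
    exact ⟨x, hx, hx', (psO_eq hx').symm, by rw [psO_eq hx', xO_cc hO hx']⟩
  -- the ultrametric inequality
  have hult : ∀ w (r r' : L), av w (r - r') ≤ max (mx a c r w) (mx a c r' w) := by
    intro w r r'
    have e1 : r - r' = (r + c w) + -(r' + c w) := by ring
    rw [e1]
    refine (FI.g1_nonarch w _ _).trans (max_le_max (le_max_right _ _) ?_)
    rw [AbsoluteValue.map_neg]
    exact le_max_right _ _
  have hml : ∀ w (r : L), a w ≤ mx a c r w := fun w r => le_max_left _ _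
  -- the level
  have hlv : ∀ (w : HeightOneSpectrum (𝓞 L)) (x y : GK b L), x ∈ Xq Q i → y ∈ Xq Q i → (lev = true → FL.Chi b (L1S.up L 𝔫) i (nq Q i * x * z)) → (lev = true → FL.Chi b (L1S.up L 𝔫) i (nq Q i * y * z)) →
      av w (cc i x - cc i y) ≤ H29F.nv (L1S.up L 𝔪) w * mx a c (cc i x) w * mx a c (cc i y) w / a w := by
    intro w x y hx hy hcx hcy
    cases lev with
    | true =>
      have h3 := (hc w).2.2.1 (cc i x) (cc i y) ((Chi_nq hO hx z).1 (hcx rfl)) ((Chi_nq hO hy z).1 (hcy rfl))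
      have e1 : L1S.up L 𝔪 = L1S.up L 𝔫 := by
        rw [h𝔪, if_pos rfl]
        exact up_up 𝔫 _
      rw [e1, ← H29F.aI_eq]
      exact h3
    | false =>
      have e1 : H29F.nv (L1S.up L 𝔪) w = 1 := by
        rw [h𝔪, if_neg (by decide)]
        exact ro_lev1 w
      rw [e1, one_mul, le_div_iff₀ (ha0 w)]
      refine (mul_le_mul_of_nonneg_right (hult w _ _) (ha0 w).le).trans ?_
      rcases le_total (mx a c (cc i x) w) (mx a c (cc i y) w) with h4 | h4
      · rw [max_eq_right h4, mul_comm]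
        exact mul_le_mul_of_nonneg_right (hml w _) (hm0 w _).le
      · rw [max_eq_left h4]
        exact mul_le_mul_of_nonneg_left (hml w _) (hm0 w _).le
  have hmain := key 𝔪 (by
      rw [h𝔪]
      split_ifs
      · exact up_ne h𝔫 _
      · exact top_ne_bot) a c (aE hO 𝔞) T μ (by linarith) le_rfl (fun w => FI.Ah_val b w z i) (FI.Ah_fin b z i)
    (fun r _ => by
      have h3 := Mh_fin i z (r : L)
      simp only [hM] at h3
      exact h3)
    (by
      intro σ w w' hσ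
      have hs : (Q.da (AlgEquiv.restrictScalars K σ)).sp i = i := by
        have h3 : AlgEquiv.restrictScalars K σ ∈ (Ei Q i).fixingSubgroup := fun x => σ.commutes x
        have h4 : (Ei Q i).fixingSubgroup = stb Q i := IntermediateField.fixingSubgroup_fixedField _
        rw [h4] at h3
        exact h3
      exact coc_fix hz.1 (c := c) (fun w r => (hc w).2.1 r i) hs (w := w) (w' := w') hσ)
    (by
      rw [← aE_OK hO, aE_relIndex hO _ inf_le_left]
      exact h1)
    (by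
      rw [← aE_OK hO, aE_relIndex hO _ h𝔞]
      exact h2)
    (by
      intro r hr r' hr' hne hmem
      obtain ⟨x, hx, hx1, hx2, hx3⟩ := hTx r hr
      obtain ⟨y, hy, hy1, hy2, hy3⟩ := hTx r' hr'
      have hxy : x ≠ y := by
        rintro rfl
        exact hne (Subtype.ext (hx2.symm.trans hy2))
      have h3 : -r + r' ∈ aE hO 𝔞 := by
        have e1 : -r + r' = -(r - r') := by abel
        rw [e1]
        exact neg_mem hmem
      have h4 : phO hO (Multiplicative.ofAdd (-r + r')) ∈ 𝔞 := h3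
      rw [ofAdd_add, ofAdd_neg, map_mul, map_inv] at h4
      have h5 : phO hO (Multiplicative.ofAdd r) = x := hx3
      have h6 : phO hO (Multiplicative.ofAdd r') = y := hy3
      rw [h5, h6] at h4
      exact hinc x hx y hy hxy h4)
    (by
      intro r hr r' hr' w
      obtain ⟨x, hx, hx1, hx2, hx3⟩ := hTx r hr
      obtain ⟨y, hy, hy1, hy2, hy3⟩ := hTx r' hr'
      have h3 := hlv w x y hx1 hy1 (fun h => hlev h x hx i (self_orb i)) (fun h => hlev h y hy i (self_orb i))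
      rw [hx2, hy2] at h3
      exact h3)
    (by
      intro r hr s hs w
      obtain ⟨x, hx, hx1, hx2, hx3⟩ := hTx r hr
      have hs' : xO Q i (s : L) ∈ 𝔞 := hs
      have hs1 := h𝔞 hs'
      have hsc : cc i (xO Q i (s : L)) = s := cc_xO hO (mem_Ei.1 s.2)
      have hxs : x * xO Q i (s : L) ∈ Xq Q i := mul_mem hx1 hs1
      have hxsc : cc i (x * xO Q i (s : L)) = (r : L) + s := by rw [cc_mul' _ (Xq_HU hx1) (Xq_HU hs1), hx2, hsc]
      obtain ⟨u, hu, γ, hγ, hup⟩ := hper _ hs' x hx1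
      have h3 : Ah b w (Tj i ((r : L) + s) * z) i = Ah b w (Tj i (r : L) * z) i := by
        rw [← hxsc, ← hx2, ← Ah_nq hO w hxs, ← Ah_nq hO w hx1, hup, FI.Ah_G1 b w h𝔫L hγ, FI.Ah_U b w hu]
      have h4 : mx a c ((r : L) + s) w = mx a c (r : L) w := by
        rw [← hM, ← hM]
        unfold Mh
        rw [h3]
      have e1 : (s : L) = (r : L) + s - r := by ring
      have h5 : av w (s : L) ≤ mx a c (r : L) w := by
        rw [e1]
        refine (hult w _ _).trans ?_
        rw [h4, max_self]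
      refine ⟨h5, ?_⟩
      have h6 := hlv w (x * xO Q i (s : L)) x hxs hx1 (fun h => by
        rw [hup, FI.Chi_right b h𝔫L hγ, FI.Chi_U b hu]
        exact hlev h x hx i (self_orb i)) (fun h => hlev h x hx i (self_orb i))
      rw [hxsc, hx2, h4, ← e1] at h6
      have e2 : H29F.nv (L1S.up L 𝔪) w * mx a c (r : L) w ^ 2 / a w = H29F.nv (L1S.up L 𝔪) w * mx a c (r : L) w * mx a c (r : L) w / a w := by ring
      show av w (s : L) ≤ _
      rw [show (algebraMap (Ei Q i) L r) = (r : L) from rfl, e2]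
      exact h6)
  -- the exponents
  obtain ⟨hf1, hf2⟩ := finrank_Ei Q i
  have hfE : (0 : ℝ) < Module.finrank (Ei Q i) L := by exact_mod_cast Module.finrank_pos
  have hO0 : (0 : ℝ) < ((orb Q i).card : ℝ) := by exact_mod_cast Finset.card_pos.2 ⟨i, self_orb i⟩
  have hdf : df K L = (((orb Q i).card : ℝ) * Module.finrank (Ei Q i) L)⁻¹ := by
    unfold df
    rw [← hf2, Nat.cast_mul]
  have hxe : xe b e i = 1 + μ := by
    rw [hμd]
    unfold FL.mu
    ring
  have hfe : 0 < fe b e z := FI.fe_pos b e z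
  have hsum : ∑ x ∈ R, fe b e (nq Q i * x * z) ^ df K L = fe b e z ^ df K L * ∑ r ∈ T, (∏ᶠ w, mx a c (algebraMap (Ei Q i) L r) w) ^ (-((1 + μ) / Module.finrank (Ei Q i) L)) := by
    rw [hT, Finset.sum_image fun x hx y hy h => psO_inj hO (hR x hx) (hR y hy) h, Finset.mul_sum]
    refine Finset.sum_congr rfl fun x hx => ?_
    have hx' := hR x hx
    have hp : 0 < ∏ᶠ w, Mh w i z (cc i x) := FI.g2_pos fun w => Mh_pos w i z _
    rw [fe_nq hO he hz hx', Real.mul_rpow hfe.le (Real.rpow_nonneg hp.le _), ← Real.rpow_mul hp.le, hMM, hxe, hdf]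
    congr 2
    · rw [show (algebraMap (Ei Q i) L (psO Q i x)) = cc i x from psO_eq hx']
    · exact ro_frac hO0 hfE
  have hA0 : 0 < ∏ᶠ w, a w := FI.g2_pos fun w => ha0 w
  have hew : fe b (eW b e (ow Q i)) z ^ df K L = fe b e z ^ df K L * (∏ᶠ w, a w) ^ (-(μ / Module.finrank (Ei Q i) L)) := by
    rw [fe_eWq hO he hz, Real.mul_rpow hfe.le (Real.rpow_nonneg hA0.le _), ← Real.rpow_mul hA0.le, hdf]
    congr 2
    exact ro_frac hO0 hfE
  have hN : (Ideal.absNorm 𝔪 : ℝ) = if lev then (Ideal.absNorm 𝔫 : ℝ) ^ (orb Q i).card else 1 := by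
    cases lev with
    | true =>
      rw [h𝔪, if_pos rfl, if_pos rfl, absNorm_up, hf1, Nat.cast_pow]
    | false =>
      rw [h𝔪, if_neg (by decide), if_neg (by decide), Ideal.absNorm_top, Nat.cast_one]
  have hN1 : (1 : ℝ) ≤ (Ideal.absNorm 𝔫 : ℝ) := by
    have h3 : Ideal.absNorm 𝔫 ≠ 0 := by
      rw [Ne, Ideal.absNorm_eq_zero_iff]
      exact h𝔫
    exact_mod_cast Nat.one_le_iff_ne_zero.2 h3
  have hNδ : (1 : ℝ) ≤ (Ideal.absNorm 𝔫 : ℝ) ^ δ := Real.one_le_rpow hN1 hd.le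
  rw [hsum]
  have hgi : 0 ≤ gi (Xq Q i ⊓ G1 b ⊤) 𝔞 := by
    unfold H29F.gi
    positivity
  have hden : 0 < (if lev then (Ideal.absNorm 𝔫 : ℝ) ^ (orb Q i).card else 1) := by
    split_ifs
    · positivity
    · exact one_pos
  calc fe b e z ^ df K L * ∑ r ∈ T, (∏ᶠ w, mx a c (algebraMap (Ei Q i) L r) w) ^ (-((1 + μ) / Module.finrank (Ei Q i) L))
      ≤ fe b e z ^ df K L * (Z * (∏ᶠ w, a w) ^ (-(μ / Module.finrank (Ei Q i) L)) * agi (OK (Ei Q i)) (aE hO 𝔞) / (Ideal.absNorm 𝔪 : ℝ)) :=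
        mul_le_mul_of_nonneg_left hmain (Real.rpow_nonneg hfe.le _)
    _ = Z * 1 * fe b (eW b e (ow Q i)) z ^ df K L * gi (Xq Q i ⊓ G1 b ⊤) 𝔞 / (if lev then (Ideal.absNorm 𝔫 : ℝ) ^ (orb Q i).card else 1) := by
        rw [hN, aE_agi hO h𝔞, hew]
        ring
    _ ≤ Z * (Ideal.absNorm 𝔫 : ℝ) ^ δ * fe b (eW b e (ow Q i)) z ^ df K L * gi (Xq Q i ⊓ G1 b ⊤) 𝔞 / (if lev then (Ideal.absNorm 𝔫 : ℝ) ^ (orb Q i).card else 1) := by
        refine div_le_div_of_nonneg_right ?_ hden.le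
        refine mul_le_mul_of_nonneg_right ?_ hgi
        refine mul_le_mul_of_nonneg_right ?_ (Real.rpow_nonneg (FI.fe_pos b _ z).le _)
        exact mul_le_mul_of_nonneg_left hNδ (zero_le_one.trans hZ)

end

end Pool.Agent.Lib.L8.QF
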