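import Pool.Agent.Lib.L8.FR.R3
import Pool.Agent.Lib.L1S.Q0
import Pool.Agent.Lib.CFT.B06
import Pool.Agent.Lib.CFT.B19

/-!
# The rank one lemma for an orthogonal orbit, part 0: the rank one lemma with abstract local heights (after helper80's FR/R1)
-/

namespace Pool.Agent.Lib.L8.QF

open NumberField IsDedekindDomain Pool.Agent.Lib.H89N Pool.Agent.Lib.L8.FR

noncomputable section

set_option linter.unusedSectionVars false

variable {K : Type} [Field K] [NumberField K]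

/-! ## 3. The rank one lemma -/

/-- **The rank one lemma with level**, for a finite set `F` and abstract local heights `D r v`. -/
theorem rank_one_abs {μ : ℝ} (hμ : 1 < μ) {𝔫 : Ideal (𝓞 K)} (h𝔫 : 𝔫 ≠ ⊥) {c : HeightOneSpectrum (𝓞 K) → ℝ} (hc : ∀ v, ∃ m : ℤ, c v = (Ideal.absNorm v.asIdeal : ℝ) ^ m)
    (hcf : {v | c v ≠ 1}.Finite) {D : K → HeightOneSpectrum (𝓞 K) → ℝ} {Λ : AddSubgroup K} (F : Finset K) (hcD : ∀ r v, c v ≤ D r v)
    (hDz : ∀ r v, ∃ m : ℤ, D r v = (Ideal.absNorm v.asIdeal : ℝ) ^ m) (hUM : ∀ r ∈ F, ∀ r' ∈ F, ∀ v, aw v (r - r') ≤ max (D r v) (D r' v))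
    (hNE : ∀ r ∈ F, ∀ r' ∈ F, ∀ v, D r v < D r' v → D r' v ≤ aw v (r - r')) (h1 : Λ.relIndex (OO K) ≠ 0) (h2 : (OO K).relIndex Λ ≠ 0)
    (hΛ : ∀ r ∈ F, ∀ t ∈ Λ, ∀ v, aw v t ≤ D r v ∧ aw v t * c v ≤ nw v 𝔫 * D r v * D r v)
    (hl : ∀ r ∈ F, ∀ r' ∈ F, ∀ v, aw v (r - r') * c v ≤ nw v 𝔫 * D r v * D r' v)
    (hFD : ∀ r ∈ F, {v | D r v ≠ 1}.Finite) (hinc : ∀ r ∈ F, ∀ r' ∈ F, r - r' ∈ Λ → r = r') :
    ∑ r ∈ F, ∏ᶠ v, (D r v) ^ (-(1 + μ)) ≤ Zi K μ * ((Ideal.absNorm 𝔫 : ℝ)⁻¹ * (∏ᶠ v, (c v) ^ (-μ)) * gi Λ) := by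
  classical
  set q : HeightOneSpectrum (𝓞 K) → ℝ := fun v => (Ideal.absNorm v.asIdeal : ℝ) with hq
  have hq1 : ∀ v, 1 < q v := nu2_one_lt
  have hq0 : ∀ v, 0 < q v := nu2_pos
  have hqi : ∀ v (a b : ℤ), q v ^ a = q v ^ b → a = b := fun v a b h => zpow_right_injective₀ (hq0 v) (hq1 v).ne' h
  choose γ hγ using hc
  -- the exponents
  have hDm : ∀ r v, ∃ m : ℕ, D r v = q v ^ (γ v + m) := by
    intro r v
    obtain ⟨a, ha⟩ := hDz r v
    have h := hcD r v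
    rw [ha, hγ] at h
    have hle : γ v ≤ a := (zpow_le_zpow_iff_right₀ (hq1 v)).1 h
    obtain ⟨k, hk⟩ := Int.eq_ofNat_of_zero_le (sub_nonneg.2 hle)
    exact ⟨k, by rw [ha]; congr 1; omega⟩
  choose m hm using hDm
  set n : HeightOneSpectrum (𝓞 K) → ℕ := od 𝔫 with hn
  have hnw : ∀ v, nw v 𝔫 = q v ^ (-(n v : ℤ)) := fun v => nw_od 𝔫 v
  -- the finite set of places
  have hTf : ({v | c v ≠ 1} ∪ {v | od 𝔫 v ≠ 0} ∪ ⋃ r ∈ F, {v | D r v ≠ 1}).Finite := by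
    refine (hcf.union (od_finite h𝔫)).union ?_
    exact Set.Finite.biUnion (Finset.finite_toSet F) fun r hr => hFD r hr
  set T := hTf.toFinset with hT
  have hTc : ∀ v, v ∉ T → c v = 1 := by
    intro v hv
    by_contra h
    exact hv (hTf.mem_toFinset.2 (Or.inl (Or.inl h)))
  have hTn : ∀ v, v ∉ T → n v = 0 := by
    intro v hv
    by_contra h
    exact hv (hTf.mem_toFinset.2 (Or.inl (Or.inr h)))
  have hTD : ∀ r ∈ F, ∀ v, v ∉ T → D r v = 1 := by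
    intro r hr v hv
    by_contra h
    exact hv (hTf.mem_toFinset.2 (Or.inr (Set.mem_biUnion (Finset.mem_coe.2 hr) h)))
  have hTγ : ∀ v, v ∉ T → γ v = 0 := fun v hv => hqi v _ _ (by rw [zpow_zero, ← hTc v hv, hγ])
  have hTm : ∀ r ∈ F, ∀ v, v ∉ T → m r v = 0 := by
    intro r hr v hv
    have h := hqi v (γ v + m r v) 0 (by rw [zpow_zero, ← hTD r hr v hv, hm])
    rw [hTγ v hv] at h
    omega
  -- two admissible points with different exponents
  have hmn : ∀ r ∈ F, ∀ r' ∈ F, ∀ v, m r v < m r' v → n v ≤ m r v := by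
    intro r hr r' hr' v hlt
    have hDlt : D r v < D r' v := by
      rw [hm, hm]
      exact zpow_lt_zpow_right₀ (hq1 v) (by omega)
    have h5 : D r' v ≤ aw v (r - r') := hNE r hr r' hr' v hDlt
    have h6 := hl r hr r' hr' v
    rw [hnw v, hγ v] at h6
    have h7 : q v ^ (γ v) ≤ q v ^ (-(n v : ℤ)) * D r v := by
      have hpos : 0 < D r' v := by rw [hm]; exact zpow_pos (hq0 v) _
      have h8 : D r' v * q v ^ (γ v) ≤ D r' v * (q v ^ (-(n v : ℤ)) * D r v) :=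
        (mul_le_mul_of_nonneg_right h5 (zpow_pos (hq0 v) _).le).trans (h6.trans (le_of_eq (by ring)))
      exact le_of_mul_le_mul_left h8 hpos
    rw [hm, ← zpow_add₀ (hq0 v).ne'] at h7
    have h8 := (zpow_le_zpow_iff_right₀ (hq1 v)).1 h7
    omega
  -- the ideal of a point
  set e : K → HeightOneSpectrum (𝓞 K) → ℕ := fun r v => m r v - n v with he
  set J : K → Ideal (𝓞 K) := fun r => PI T (e r) with hJ
  have hJm : ∀ r ∈ F, ∀ r' ∈ F, J r = J r' → m r = m r' := by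
    intro r hr r' hr' h
    funext v
    have hee : e r v = e r' v := by
      have h3 : nw v (J r) = nw v (J r') := by rw [h]
      rw [nw_PI v T (e r) (fun v hv => by simp only [he, hTm r hr v hv]; omega), nw_PI v T (e r') (fun v hv => by simp only [he, hTm r' hr' v hv]; omega)] at h3
      have := hqi v _ _ h3
      omega
    simp only [he] at hee
    rcases lt_trichotomy (m r v) (m r' v) with hlt | heq | hgt
    · have := hmn r hr r' hr' v hlt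
      omega
    · exact heq
    · have := hmn r' hr' r hr v hgt
      omega
  have hfpc : ∏ᶠ v, (c v) ^ (-μ) = ∏ v ∈ T, (c v) ^ (-μ) := by
    refine finprod_eq_prod_of_mulSupport_subset _ fun v hv => ?_
    by_contra h
    rw [Finset.mem_coe] at h
    exact hv (by show (c v) ^ (-μ) = 1; rw [hTc v h, Real.one_rpow])
  have hfpD : ∀ r ∈ F, ∏ᶠ v, (D r v) ^ (-(1 + μ)) = ∏ v ∈ T, (D r v) ^ (-(1 + μ)) := by
    intro r hr
    refine finprod_eq_prod_of_mulSupport_subset _ fun v hv => ?_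
    by_contra h
    rw [Finset.mem_coe] at h
    exact hv (by show (D r v) ^ (-(1 + μ)) = 1; rw [hTD r hr v h, Real.one_rpow])
  have hgi : 0 ≤ gi Λ := div_nonneg (Nat.cast_nonneg _) (Nat.cast_nonneg _)
  have hnn : (Ideal.absNorm 𝔫 : ℝ) = ∏ v ∈ T, q v ^ n v := norm_od h𝔫 T hTn
  -- one fibre
  have fibre : ∀ I ∈ F.image J, ∑ r ∈ F with J r = I, ∏ᶠ v, (D r v) ^ (-(1 + μ)) ≤ (Ideal.absNorm I : ℝ) ^ (-μ) * ((Ideal.absNorm 𝔫 : ℝ)⁻¹ * (∏ᶠ v, (c v) ^ (-μ)) * gi Λ) := by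
    intro I hI
    obtain ⟨r₁, hr₁, rfl⟩ := Finset.mem_image.1 hI
    set b : HeightOneSpectrum (𝓞 K) → ℤ := fun v => min (γ v + m r₁ v) (γ v + 2 * m r₁ v - n v) with hb
    have hbT : ∀ v, v ∉ T → b v = 0 := by
      intro v hv
      simp only [hb, hTγ v hv, hTm r₁ hr₁ v hv, hTn v hv]
      simp
    set P := PI T fun v => (b v).toNat with hP
    set Q := PI T fun v => (-b v).toNat with hQ
    have hPv : ∀ v, nw v P = q v ^ (-((b v).toNat : ℤ)) := fun v => nw_PI v T _ fun v hv => by rw [hbT v hv]; rfl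
    have hQv : ∀ v, nw v Q = q v ^ (-((-b v).toNat : ℤ)) := fun v => nw_PI v T _ fun v hv => by rw [hbT v hv]; rfl
    have hBx : ∀ x : K, x ∈ Bx P Q ↔ ∀ v, aw v x ≤ q v ^ b v := by
      intro x
      rw [mem_Bx]
      refine forall_congr' fun v => ?_
      rw [hPv, hQv, zpow_neg, ← div_eq_mul_inv, div_le_iff₀ (zpow_pos (hq0 v) _), ← zpow_add₀ (hq0 v).ne']
      have : -((-b v).toNat : ℤ) + ((b v).toNat : ℤ) = b v := by omega
      rw [this]
    have hbb : ∀ v x, aw v x ≤ D r₁ v → aw v x * c v ≤ nw v 𝔫 * D r₁ v * D r₁ v → aw v x ≤ q v ^ b v := by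
      intro v x h3 h4
      rw [hm] at h3
      rcases min_choice (γ v + m r₁ v : ℤ) (γ v + 2 * m r₁ v - n v) with h5 | h5
      · simp only [hb]
        rw [h5]
        exact h3
      · simp only [hb]
        rw [h5]
        rw [hm, hnw, hγ] at h4
        have h6 : aw v x * q v ^ γ v ≤ q v ^ (γ v + 2 * m r₁ v - n v) * q v ^ γ v := by
          refine h4.trans (le_of_eq ?_)
          rw [← zpow_add₀ (hq0 v).ne', ← zpow_add₀ (hq0 v).ne', ← zpow_add₀ (hq0 v).ne']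
          congr 1
          ring
        exact le_of_mul_le_mul_right h6 (zpow_pos (hq0 v) _)
    have hDpos : ∀ v, 0 < D r₁ v := fun v => by rw [hm]; exact zpow_pos (hq0 v) _
    have hΛB : Λ ≤ Bx P Q := by
      intro t ht
      rw [hBx]
      intro v
      exact hbb v t (hΛ r₁ hr₁ t ht v).1 (hΛ r₁ hr₁ t ht v).2
    have hDeq : ∀ r ∈ F, J r = J r₁ → ∀ v, D r v = D r₁ v := by
      intro r hr h v
      rw [hm, hm, hJm r hr r₁ hr₁ h]
    have hcard := Bx_card (PI_ne T _) (PI_ne T _) h1 h2 hΛB (F.filter fun r => J r = J r₁) (by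
      intro r hr r' hr'
      obtain ⟨hr, hr2⟩ := Finset.mem_filter.1 hr
      obtain ⟨hr', hr2'⟩ := Finset.mem_filter.1 hr'
      rw [hBx]
      intro v
      refine hbb v _ ?_ ?_
      · refine (hUM r hr r' hr' v).trans (max_le ?_ ?_)
        · rw [← hDeq r hr hr2 v]
        · rw [← hDeq r' hr' hr2' v]
      · have h3 := hl r hr r' hr' v
        rw [hDeq r hr hr2 v, hDeq r' hr' hr2' v] at h3
        exact h3) (by
      intro r hr r' hr' h
      exact hinc r (Finset.mem_filter.1 hr).1 r' (Finset.mem_filter.1 hr').1 h)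
    have hsum : ∑ r ∈ F with J r = J r₁, ∏ᶠ v, (D r v) ^ (-(1 + μ)) = ((F.filter fun r => J r = J r₁).card : ℝ) * ∏ v ∈ T, (D r₁ v) ^ (-(1 + μ)) := by
      rw [Finset.sum_congr rfl (g := fun _ => ∏ v ∈ T, (D r₁ v) ^ (-(1 + μ))), Finset.sum_const, nsmul_eq_mul]
      intro r hr
      obtain ⟨hr, hr2⟩ := Finset.mem_filter.1 hr
      rw [hfpD r hr]
      exact Finset.prod_congr rfl fun v _ => by rw [hDeq r hr hr2 v]
    rw [hsum]
    have hW : 0 ≤ ∏ v ∈ T, (D r₁ v) ^ (-(1 + μ)) := Finset.prod_nonneg fun v _ => Real.rpow_nonneg (hDpos v).le _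
    refine (mul_le_mul_of_nonneg_right hcard hW).trans ?_
    have hPQ : (Ideal.absNorm P : ℝ) / (Ideal.absNorm Q : ℝ) = ∏ v ∈ T, q v ^ b v := by
      rw [PI_norm, PI_norm, ← Finset.prod_div_distrib]
      refine Finset.prod_congr rfl fun v _ => ?_
      rw [← zpow_natCast, ← zpow_natCast, ← zpow_sub₀ (hq0 v).ne']
      congr 1
      omega
    rw [mul_div_assoc, hPQ, hfpc, hnn, PI_norm]
    have e3 : gi Λ * (∏ v ∈ T, q v ^ b v) * ∏ v ∈ T, (D r₁ v) ^ (-(1 + μ)) = gi Λ * ∏ v ∈ T, (q v ^ b v * (D r₁ v) ^ (-(1 + μ))) := by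
      rw [Finset.prod_mul_distrib, mul_assoc]
    have e4 : (∏ v ∈ T, q v ^ e r₁ v) ^ (-μ) * ((∏ v ∈ T, q v ^ n v)⁻¹ * (∏ v ∈ T, (c v) ^ (-μ)) * gi Λ) = gi Λ * ∏ v ∈ T, (q v ^ (-(n v : ℤ)) * (q v ^ γ v) ^ (-μ) * (q v ^ (e r₁ v)) ^ (-μ)) := by
      rw [Finset.prod_mul_distrib, Finset.prod_mul_distrib, ← Real.finsetProd_rpow _ _ (fun v _ => (pow_pos (hq0 v) _).le), ← Finset.prod_inv_distrib]
      have e5 : ∏ v ∈ T, (q v ^ n v)⁻¹ = ∏ v ∈ T, q v ^ (-(n v : ℤ)) := Finset.prod_congr rfl fun v _ => by rw [zpow_neg, zpow_natCast]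
      have e6 : ∏ v ∈ T, (c v) ^ (-μ) = ∏ v ∈ T, (q v ^ γ v) ^ (-μ) := Finset.prod_congr rfl fun v _ => by rw [hγ v]
      rw [e5, e6]
      ring
    rw [e3]
    refine le_trans ?_ (le_of_eq e4.symm)
    refine mul_le_mul_of_nonneg_left (Finset.prod_le_prod (fun v _ => mul_nonneg (zpow_pos (hq0 v) _).le (Real.rpow_nonneg (hDpos v).le _)) fun v _ => ?_) hgi
    rw [hm]
    exact local_ineq (hq1 v) hμ.le (γ v) (m r₁ v) (n v)
  -- the sum over the fibres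
  have hC0 : 0 ≤ (Ideal.absNorm 𝔫 : ℝ)⁻¹ * (∏ᶠ v, (c v) ^ (-μ)) * gi Λ := by
    rw [hfpc]
    refine mul_nonneg (mul_nonneg (inv_nonneg.2 (Nat.cast_nonneg _)) (Finset.prod_nonneg fun v _ => Real.rpow_nonneg ?_ _)) hgi
    rw [hγ]
    exact (zpow_pos (hq0 v) _).le
  rw [← Finset.sum_fiberwise_of_maps_to (fun r hr => Finset.mem_image_of_mem J hr)]
  calc ∑ I ∈ F.image J, ∑ r ∈ F with J r = I, ∏ᶠ v, (D r v) ^ (-(1 + μ)) ≤ ∑ I ∈ F.image J, (Ideal.absNorm I : ℝ) ^ (-μ) * ((Ideal.absNorm 𝔫 : ℝ)⁻¹ * (∏ᶠ v, (c v) ^ (-μ)) * gi Λ) :=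
        Finset.sum_le_sum fibre
    _ = (∑ I ∈ F.image J, (Ideal.absNorm I : ℝ) ^ (-μ)) * ((Ideal.absNorm 𝔫 : ℝ)⁻¹ * (∏ᶠ v, (c v) ^ (-μ)) * gi Λ) := by rw [Finset.sum_mul]
    _ ≤ _ := mul_le_mul_of_nonneg_right ((ideal_summable μ hμ).sum_le_tsum _ fun I _ => Real.rpow_nonneg (Nat.cast_nonneg _) _) hC0

end

end Pool.Agent.Lib.L8.QF
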