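import Pool.Agent.Lib.L8.QF.RQ0

/-!
# The rank one lemma for an orthogonal orbit, part 1: local heights which are not in the value group at finitely many places (rounding)
-/

namespace Pool.Agent.Lib.L8.QF

open NumberField IsDedekindDomain Pool.Agent.Lib.H89N Pool.Agent.Lib.L8.FR

noncomputable section

set_option linter.unusedSectionVars false

/-! ## 1. Rounding -/

/-- The smallest power `q ^ m` with `x ≤ q ^ m`. -/
def rdz (q x : ℝ) : ℝ := q ^ ⌈Real.logb q x⌉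

theorem rdz_le {q x : ℝ} (hq : 1 < q) (hx : 0 < x) : x ≤ rdz q x := by
  have h0 : 0 < q := lt_trans one_pos hq
  unfold rdz
  rw [← Real.rpow_intCast, ← Real.logb_le_iff_le_rpow hq hx]
  exact Int.le_ceil _

theorem rdz_ge {q x : ℝ} (hq : 1 < q) (hx : 0 < x) : rdz q x ≤ q * x := by
  have h0 : 0 < q := lt_trans one_pos hq
  unfold rdz
  have h1 : ((⌈Real.logb q x⌉ : ℤ) : ℝ) ≤ 1 + Real.logb q x := by
    have := Int.ceil_lt_add_one (Real.logb q x)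
    linarith
  calc q ^ ⌈Real.logb q x⌉ = q ^ ((⌈Real.logb q x⌉ : ℤ) : ℝ) := (Real.rpow_intCast _ _).symm
    _ ≤ q ^ (1 + Real.logb q x) := Real.rpow_le_rpow_of_exponent_le hq.le h1
    _ = q * x := by rw [Real.rpow_add h0, Real.rpow_one, Real.rpow_logb h0 hq.ne' hx]

theorem rdz_min {q x : ℝ} (hq : 1 < q) (hx : 0 < x) {m : ℤ} (h : x ≤ q ^ m) : rdz q x ≤ q ^ m := by
  unfold rdz
  refine zpow_le_zpow_right₀ hq.le (Int.ceil_le.2 ?_)
  rw [Real.logb_le_iff_le_rpow hq hx, Real.rpow_intCast]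
  exact h

theorem rdz_mono {q x y : ℝ} (hq : 1 < q) (hx : 0 < x) (h : x ≤ y) : rdz q x ≤ rdz q y :=
  rdz_min hq hx (h.trans (rdz_le hq (hx.trans_le h)))

theorem rdz_lt {q x y : ℝ} (hq : 1 < q) (hy : 0 < y) (h : rdz q x < rdz q y) : x < y := by
  by_contra h1
  exact absurd (rdz_mono hq hy (not_lt.1 h1)) (not_le.2 h)

variable {K : Type} [Field K] [NumberField K]

open scoped Classical in
/-- Rounding at the places of `B`. -/
def rdB (B : Finset (HeightOneSpectrum (𝓞 K))) (v : HeightOneSpectrum (𝓞 K)) (x : ℝ) : ℝ := if v ∈ B then rdz (Ideal.absNorm v.asIdeal : ℝ) x else x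

theorem rdB_le (B : Finset (HeightOneSpectrum (𝓞 K))) (v : HeightOneSpectrum (𝓞 K)) {x : ℝ} (hx : 0 < x) : x ≤ rdB B v x := by
  unfold rdB
  split_ifs
  · exact rdz_le (nu2_one_lt v) hx
  · exact le_rfl

theorem rdB_ge (B : Finset (HeightOneSpectrum (𝓞 K))) {v : HeightOneSpectrum (𝓞 K)} (hv : v ∈ B) {x : ℝ} (hx : 0 < x) : rdB B v x ≤ (Ideal.absNorm v.asIdeal : ℝ) * x := by
  unfold rdB
  rw [if_pos hv]
  exact rdz_ge (nu2_one_lt v) hx

theorem rdB_notMem (B : Finset (HeightOneSpectrum (𝓞 K))) {v : HeightOneSpectrum (𝓞 K)} (hv : v ∉ B) (x : ℝ) : rdB B v x = x := by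
  unfold rdB
  rw [if_neg hv]

theorem rdB_mono (B : Finset (HeightOneSpectrum (𝓞 K))) (v : HeightOneSpectrum (𝓞 K)) {x y : ℝ} (hx : 0 < x) (h : x ≤ y) : rdB B v x ≤ rdB B v y := by
  unfold rdB
  split_ifs
  · exact rdz_mono (nu2_one_lt v) hx h
  · exact h

theorem rdB_lt (B : Finset (HeightOneSpectrum (𝓞 K))) (v : HeightOneSpectrum (𝓞 K)) {x y : ℝ} (hy : 0 < y) (h : rdB B v x < rdB B v y) : x < y := by
  unfold rdB at h
  split_ifs at h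
  · exact rdz_lt (nu2_one_lt v) hy h
  · exact h

theorem rdB_z (B : Finset (HeightOneSpectrum (𝓞 K))) (v : HeightOneSpectrum (𝓞 K)) {x : ℝ} (h : v ∉ B → ∃ m : ℤ, x = (Ideal.absNorm v.asIdeal : ℝ) ^ m) :
    ∃ m : ℤ, rdB B v x = (Ideal.absNorm v.asIdeal : ℝ) ^ m := by
  by_cases hv : v ∈ B
  · unfold rdB
    rw [if_pos hv]
    exact ⟨_, rfl⟩
  · rw [rdB_notMem B hv]
    exact h hv

theorem rdB_min (B : Finset (HeightOneSpectrum (𝓞 K))) (v : HeightOneSpectrum (𝓞 K)) {x : ℝ} (hx : 0 < x) {m : ℤ} (h : x ≤ (Ideal.absNorm v.asIdeal : ℝ) ^ m) :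
    rdB B v x ≤ (Ideal.absNorm v.asIdeal : ℝ) ^ m := by
  unfold rdB
  split_ifs
  · exact rdz_min (nu2_one_lt v) hx h
  · exact h

theorem rdB_one (B : Finset (HeightOneSpectrum (𝓞 K))) (v : HeightOneSpectrum (𝓞 K)) : rdB B v 1 = 1 := by
  unfold rdB rdz
  rw [Real.logb_one, Int.ceil_zero, zpow_zero]
  split_ifs <;> rfl

/-! ## 2. The level -/

open scoped Classical in
/-- The ideal `𝔫` with the exponents at `B` diminished by one. -/
def nB (B : Finset (HeightOneSpectrum (𝓞 K))) {𝔫 : Ideal (𝓞 K)} (h : 𝔫 ≠ ⊥) : Ideal (𝓞 K) :=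
  PI (od_finite h).toFinset fun v => if v ∈ B then od 𝔫 v - 1 else od 𝔫 v

theorem nB_ne (B : Finset (HeightOneSpectrum (𝓞 K))) {𝔫 : Ideal (𝓞 K)} (h : 𝔫 ≠ ⊥) : nB B h ≠ ⊥ := PI_ne _ _

open scoped Classical in
theorem nB_nw (B : Finset (HeightOneSpectrum (𝓞 K))) {𝔫 : Ideal (𝓞 K)} (h : 𝔫 ≠ ⊥) (v : HeightOneSpectrum (𝓞 K)) :
    nw v (nB B h) = (Ideal.absNorm v.asIdeal : ℝ) ^ (-((if v ∈ B then od 𝔫 v - 1 else od 𝔫 v : ℕ) : ℤ)) := by
  refine nw_PI v _ _ fun w hw => ?_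
  have h1 : od 𝔫 w = 0 := by
    by_contra h2
    exact hw ((od_finite h).mem_toFinset.2 h2)
  split_ifs <;> omega

theorem nB_notMem (B : Finset (HeightOneSpectrum (𝓞 K))) {𝔫 : Ideal (𝓞 K)} (h : 𝔫 ≠ ⊥) {v : HeightOneSpectrum (𝓞 K)} (hv : v ∉ B) : nw v (nB B h) = nw v 𝔫 := by
  classical
  rw [nB_nw, nw_od, if_neg hv]

theorem nB_mem (B : Finset (HeightOneSpectrum (𝓞 K))) {𝔫 : Ideal (𝓞 K)} (h : 𝔫 ≠ ⊥) {v : HeightOneSpectrum (𝓞 K)} (hv : v ∈ B) :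
    nw v (nB B h) = 1 ∨ nw v (nB B h) = (Ideal.absNorm v.asIdeal : ℝ) * nw v 𝔫 := by
  classical
  rw [nB_nw, nw_od, if_pos hv]
  rcases Nat.eq_zero_or_pos (od 𝔫 v) with h0 | h0
  · left
    rw [h0]
    simp
  · right
    have hq := (nu2_pos v).ne'
    have e : -((od 𝔫 v - 1 : ℕ) : ℤ) = 1 + -(od 𝔫 v : ℤ) := by omega
    rw [e, zpow_add₀ hq, zpow_one]

theorem nB_norm (B : Finset (HeightOneSpectrum (𝓞 K))) {𝔫 : Ideal (𝓞 K)} (h : 𝔫 ≠ ⊥) :
    (Ideal.absNorm 𝔫 : ℝ) ≤ (∏ v ∈ B, (Ideal.absNorm v.asIdeal : ℝ)) * Ideal.absNorm (nB B h) := by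
  classical
  set T := (od_finite h).toFinset ∪ B with hT
  have h1 : ∀ v, v ∉ T → od 𝔫 v = 0 := by
    intro v hv
    by_contra h2
    exact hv (Finset.mem_union_left _ ((od_finite h).mem_toFinset.2 h2))
  have e1 : (Ideal.absNorm (nB B h) : ℝ) = ∏ v ∈ T, (Ideal.absNorm v.asIdeal : ℝ) ^ (if v ∈ B then od 𝔫 v - 1 else od 𝔫 v) := by
    unfold nB
    rw [PI_norm]
    refine Finset.prod_subset Finset.subset_union_left fun v _ hv => ?_
    have h2 : od 𝔫 v = 0 := by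
      by_contra h3
      exact hv ((od_finite h).mem_toFinset.2 h3)
    rw [h2]
    simp
  have e2 : ∏ v ∈ B, (Ideal.absNorm v.asIdeal : ℝ) = ∏ v ∈ T, if v ∈ B then (Ideal.absNorm v.asIdeal : ℝ) else 1 := by
    rw [← Finset.prod_filter]
    refine Finset.prod_congr ?_ fun _ _ => rfl
    ext v
    simp [hT]
  rw [norm_od h T h1, e1, e2, ← Finset.prod_mul_distrib]
  refine Finset.prod_le_prod (fun v _ => pow_nonneg (nu2_pos v).le _) fun v _ => ?_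
  have hq := (nu2_one_lt v).le
  split_ifs
  · rw [← pow_succ']
    exact pow_le_pow_right₀ hq (by omega)
  · rw [one_mul]

/-! ## 3. The rank one lemma with finitely many exceptional places -/

/-- **The rank one lemma, abstract local heights, exceptional places `B`.** -/
theorem rank_one_B (B : Finset (HeightOneSpectrum (𝓞 K))) {ε : ℝ} (hε : 0 < ε) (M : ℝ) : ∃ Z : ℝ, 1 ≤ Z ∧ ∀ μ : ℝ, 1 + ε ≤ μ → μ ≤ M → ∀ {𝔫 : Ideal (𝓞 K)}, 𝔫 ≠ ⊥ →
    ∀ (c : HeightOneSpectrum (𝓞 K) → ℝ) (D : K → HeightOneSpectrum (𝓞 K) → ℝ) (Λ : AddSubgroup K) (F : Finset K), (∀ v, 0 < c v) →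
    (∀ v, v ∉ B → ∃ m : ℤ, c v = (Ideal.absNorm v.asIdeal : ℝ) ^ m) → {v | c v ≠ 1}.Finite → (∀ r v, c v ≤ D r v) →
    (∀ r v, v ∉ B → ∃ m : ℤ, D r v = (Ideal.absNorm v.asIdeal : ℝ) ^ m) → (∀ r ∈ F, ∀ r' ∈ F, ∀ v, aw v (r - r') ≤ max (D r v) (D r' v)) →
    (∀ r ∈ F, ∀ r' ∈ F, ∀ v, D r v < D r' v → D r' v ≤ aw v (r - r')) → Λ.relIndex (OO K) ≠ 0 → (OO K).relIndex Λ ≠ 0 →
    (∀ r ∈ F, ∀ t ∈ Λ, ∀ v, aw v t ≤ D r v ∧ aw v t * c v ≤ nw v 𝔫 * D r v * D r v) →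
    (∀ r ∈ F, ∀ r' ∈ F, ∀ v, aw v (r - r') * c v ≤ nw v 𝔫 * D r v * D r' v) →
    (∀ r ∈ F, {v | D r v ≠ 1}.Finite) → (∀ r ∈ F, ∀ r' ∈ F, r - r' ∈ Λ → r = r') →
    ∑ r ∈ F, ∏ᶠ v, (D r v) ^ (-(1 + μ)) ≤ Z * ((Ideal.absNorm 𝔫 : ℝ)⁻¹ * (∏ᶠ v, (c v) ^ (-μ)) * gi Λ) := by
  classical
  set Qb : ℝ := ∏ v ∈ B, (Ideal.absNorm v.asIdeal : ℝ) with hQb
  have hQ1 : 1 ≤ Qb := by
    rw [hQb]
    calc (1 : ℝ) = ∏ v ∈ B, (1 : ℝ) := by rw [Finset.prod_const_one]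
      _ ≤ _ := Finset.prod_le_prod (fun _ _ => zero_le_one) fun v _ => (nu2_one_lt v).le
  have hQ0 : 0 < Qb := lt_of_lt_of_le one_pos hQ1
  have hZi : 0 ≤ Zi K (1 + ε) := tsum_nonneg fun I => Real.rpow_nonneg (Nat.cast_nonneg _) _
  refine ⟨max 1 (Qb ^ (1 + M) * Zi K (1 + ε) * Qb), le_max_left _ _, ?_⟩
  intro μ hμ hμM 𝔫 h𝔫 c D Λ F hc0 hcz hcf hcD hDz hUM hNE h1 h2 hΛ hl hFD hinc
  have hD0 : ∀ r v, 0 < D r v := fun r v => (hc0 v).trans_le (hcD r v)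
  have hq1 : ∀ v : HeightOneSpectrum (𝓞 K), 1 < (Ideal.absNorm v.asIdeal : ℝ) := nu2_one_lt
  have hq0 : ∀ v : HeightOneSpectrum (𝓞 K), 0 < (Ideal.absNorm v.asIdeal : ℝ) := nu2_pos
  have hc' : ∀ v, rdB B v (c v) ≤ (if v ∈ B then (Ideal.absNorm v.asIdeal : ℝ) else 1) * c v := by
    intro v
    by_cases hv : v ∈ B
    · rw [if_pos hv]
      exact rdB_ge B hv (hc0 v)
    · rw [if_neg hv, rdB_notMem B hv, one_mul]
  have hD' : ∀ r v, rdB B v (D r v) ≤ (if v ∈ B then (Ideal.absNorm v.asIdeal : ℝ) else 1) * D r v := by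
    intro r v
    by_cases hv : v ∈ B
    · rw [if_pos hv]
      exact rdB_ge B hv (hD0 r v)
    · rw [if_neg hv, rdB_notMem B hv, one_mul]
  have hDp : ∀ r v, 0 < rdB B v (D r v) := fun r v => (hD0 r v).trans_le (rdB_le B v (hD0 r v))
  have hcp : ∀ v, 0 < rdB B v (c v) := fun v => (hc0 v).trans_le (rdB_le B v (hc0 v))
  have hcD' : ∀ r v, rdB B v (c v) ≤ rdB B v (D r v) := fun r v => rdB_mono B v (hc0 v) (hcD r v)
  -- the level at one place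
  have lvl : ∀ (x y : ℝ) (v) (s : ℝ), 0 < x → 0 < y → c v ≤ x → c v ≤ y → s * c v ≤ nw v 𝔫 * x * y → s ≤ max x y → 0 ≤ s →
      s * rdB B v (c v) ≤ nw v (nB B h𝔫) * rdB B v x * rdB B v y := by
    intro x y v s hx hy hcx hcy h3 h4 hs
    have hx' := rdB_le B v hx
    have hy' := rdB_le B v hy
    have hx0 : 0 < rdB B v x := hx.trans_le hx'
    have hy0 : 0 < rdB B v y := hy.trans_le hy'
    by_cases hv : v ∈ B
    · rcases nB_mem B h𝔫 hv with h5 | h5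
      · rw [h5, one_mul]
        rcases le_total x y with h6 | h6
        · rw [max_eq_right h6] at h4
          rw [mul_comm]
          exact mul_le_mul (rdB_mono B v (hc0 v) hcx) (h4.trans hy') hs hx0.le
        · rw [max_eq_left h6] at h4
          exact mul_le_mul (h4.trans hx') (rdB_mono B v (hc0 v) hcy) (hcp v).le hx0.le
      · rw [h5]
        have h6 : s * rdB B v (c v) ≤ s * ((Ideal.absNorm v.asIdeal : ℝ) * c v) := mul_le_mul_of_nonneg_left (rdB_ge B hv (hc0 v)) hs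
        refine h6.trans ?_
        have h7 : s * ((Ideal.absNorm v.asIdeal : ℝ) * c v) = (Ideal.absNorm v.asIdeal : ℝ) * (s * c v) := by ring
        rw [h7]
        refine (mul_le_mul_of_nonneg_left h3 (hq0 v).le).trans ?_
        have h8 : (Ideal.absNorm v.asIdeal : ℝ) * (nw v 𝔫 * x * y) = ((Ideal.absNorm v.asIdeal : ℝ) * nw v 𝔫) * (x * y) := by ring
        have h9 : (Ideal.absNorm v.asIdeal : ℝ) * nw v 𝔫 * rdB B v x * rdB B v y = ((Ideal.absNorm v.asIdeal : ℝ) * nw v 𝔫) * (rdB B v x * rdB B v y) := by ring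
        rw [h8, h9]
        exact mul_le_mul_of_nonneg_left (mul_le_mul hx' hy' hy.le hx0.le) (mul_nonneg (hq0 v).le (nw_pos v 𝔫).le)
    · rw [nB_notMem B h𝔫 hv, rdB_notMem B hv, rdB_notMem B hv, rdB_notMem B hv]
      exact h3
  have key := rank_one_abs (μ := μ) (by linarith) (nB_ne B h𝔫) (c := fun v => rdB B v (c v)) (fun v => rdB_z B v fun hv => hcz v hv)
    (hcf.subset fun v hv h => hv (by show rdB B v (c v) = 1; rw [h, rdB_one])) (D := fun r v => rdB B v (D r v)) (Λ := Λ) F hcD' (fun r v => rdB_z B v fun hv => hDz r v hv)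
    (fun r hr r' hr' v => (hUM r hr r' hr' v).trans (max_le_max (rdB_le B v (hD0 r v)) (rdB_le B v (hD0 r' v))))
    (fun r hr r' hr' v h => by
      have h3 := hNE r hr r' hr' v (rdB_lt B v (hD0 r' v) h)
      have h4 : r - r' ≠ 0 := by
        intro h5
        rw [h5, map_zero] at h3
        exact absurd (hD0 r' v) (not_lt.2 h3)
      obtain ⟨m, hm⟩ := aw_zpow v _ h4
      rw [hm] at h3
      rw [hm]
      exact rdB_min B v (hD0 r' v) h3) h1 h2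
    (fun r hr t ht v => by
      obtain ⟨h3, h4⟩ := hΛ r hr t ht v
      exact ⟨h3.trans (rdB_le B v (hD0 r v)), lvl _ _ v _ (hD0 r v) (hD0 r v) (hcD r v) (hcD r v) h4 (h3.trans (le_max_left _ _)) ((aw v).nonneg _)⟩)
    (fun r hr r' hr' v => lvl _ _ v _ (hD0 r v) (hD0 r' v) (hcD r v) (hcD r' v) (hl r hr r' hr' v) (hUM r hr r' hr' v) ((aw v).nonneg _))
    (fun r hr => (hFD r hr).subset fun v hv h => hv (by show rdB B v (D r v) = 1; rw [h, rdB_one])) hinc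
  -- the sum
  have hμ0 : 0 ≤ 1 + μ := by linarith
  have s1 : ∀ r ∈ F, ∏ᶠ v, (D r v) ^ (-(1 + μ)) ≤ Qb ^ (1 + M) * ∏ᶠ v, (rdB B v (D r v)) ^ (-(1 + μ)) := by
    intro r hr
    set T := (hFD r hr).toFinset ∪ B with hT
    have hT1 : ∀ v, v ∉ T → D r v = 1 := by
      intro v hv
      by_contra h
      exact hv (Finset.mem_union_left _ ((hFD r hr).mem_toFinset.2 h))
    have e1 : ∏ᶠ v, (D r v) ^ (-(1 + μ)) = ∏ v ∈ T, (D r v) ^ (-(1 + μ)) := by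
      refine finprod_eq_prod_of_mulSupport_subset _ fun v hv => ?_
      by_contra h
      rw [Finset.mem_coe] at h
      exact hv (by show (D r v) ^ (-(1 + μ)) = 1; rw [hT1 v h, Real.one_rpow])
    have e2 : ∏ᶠ v, (rdB B v (D r v)) ^ (-(1 + μ)) = ∏ v ∈ T, (rdB B v (D r v)) ^ (-(1 + μ)) := by
      refine finprod_eq_prod_of_mulSupport_subset _ fun v hv => ?_
      by_contra h
      rw [Finset.mem_coe] at h
      exact hv (by show (rdB B v (D r v)) ^ (-(1 + μ)) = 1; rw [hT1 v h, rdB_one, Real.one_rpow])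
    have e3 : Qb = ∏ v ∈ T, if v ∈ B then (Ideal.absNorm v.asIdeal : ℝ) else 1 := by
      rw [hQb, ← Finset.prod_filter]
      refine Finset.prod_congr ?_ fun _ _ => rfl
      ext v
      simp [hT]
    have h3 : Qb ^ (1 + μ) ≤ Qb ^ (1 + M) := Real.rpow_le_rpow_of_exponent_le hQ1 (by linarith)
    rw [e1, e2]
    refine le_trans ?_ (mul_le_mul_of_nonneg_right h3 (Finset.prod_nonneg fun v _ => Real.rpow_nonneg (hDp r v).le _))
    rw [e3, ← Real.finsetProd_rpow _ _ (fun v _ => by split_ifs; exacts [(hq0 v).le, zero_le_one]), ← Finset.prod_mul_distrib]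
    refine Finset.prod_le_prod (fun v _ => Real.rpow_nonneg (hD0 r v).le _) fun v _ => ?_
    have hk : 0 < (if v ∈ B then (Ideal.absNorm v.asIdeal : ℝ) else 1) := by split_ifs; exacts [hq0 v, one_pos]
    have h4 : rdB B v (D r v) ^ (1 + μ) ≤ (if v ∈ B then (Ideal.absNorm v.asIdeal : ℝ) else 1) ^ (1 + μ) * D r v ^ (1 + μ) := by
      rw [← Real.mul_rpow hk.le (hD0 r v).le]
      exact Real.rpow_le_rpow (hDp r v).le (hD' r v) hμ0
    rw [Real.rpow_neg (hD0 r v).le, Real.rpow_neg (hDp r v).le, ← div_eq_mul_inv, le_div_iff₀ (Real.rpow_pos_of_pos (hDp r v) _), inv_mul_le_iff₀ (Real.rpow_pos_of_pos (hD0 r v) _)]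
    exact h4.trans (le_of_eq (mul_comm _ _))
  have s2 : ∏ᶠ v, (rdB B v (c v)) ^ (-μ) ≤ ∏ᶠ v, (c v) ^ (-μ) := by
    set T := hcf.toFinset with hT
    have hT1 : ∀ v, v ∉ T → c v = 1 := by
      intro v hv
      by_contra h
      exact hv (hcf.mem_toFinset.2 h)
    have e1 : ∏ᶠ v, (c v) ^ (-μ) = ∏ v ∈ T, (c v) ^ (-μ) := by
      refine finprod_eq_prod_of_mulSupport_subset _ fun v hv => ?_
      by_contra h
      rw [Finset.mem_coe] at h
      exact hv (by show (c v) ^ (-μ) = 1; rw [hT1 v h, Real.one_rpow])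
    have e2 : ∏ᶠ v, (rdB B v (c v)) ^ (-μ) = ∏ v ∈ T, (rdB B v (c v)) ^ (-μ) := by
      refine finprod_eq_prod_of_mulSupport_subset _ fun v hv => ?_
      by_contra h
      rw [Finset.mem_coe] at h
      exact hv (by show (rdB B v (c v)) ^ (-μ) = 1; rw [hT1 v h, rdB_one, Real.one_rpow])
    rw [e1, e2]
    exact Finset.prod_le_prod (fun v _ => Real.rpow_nonneg (hcp v).le _) fun v _ => Real.rpow_le_rpow_of_nonpos (hc0 v) (rdB_le B v (hc0 v)) (by linarith)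
  have hgi : 0 ≤ gi Λ := div_nonneg (Nat.cast_nonneg _) (Nat.cast_nonneg _)
  have hN : 0 < (Ideal.absNorm 𝔫 : ℝ) := by
    have : Ideal.absNorm 𝔫 ≠ 0 := by rwa [Ne, Ideal.absNorm_eq_zero_iff]
    exact_mod_cast Nat.pos_of_ne_zero this
  have hN' : 0 < (Ideal.absNorm (nB B h𝔫) : ℝ) := by
    have : Ideal.absNorm (nB B h𝔫) ≠ 0 := by
      rw [Ne, Ideal.absNorm_eq_zero_iff]
      exact nB_ne B h𝔫
    exact_mod_cast Nat.pos_of_ne_zero this
  have s3 : (Ideal.absNorm (nB B h𝔫) : ℝ)⁻¹ ≤ Qb * (Ideal.absNorm 𝔫 : ℝ)⁻¹ := by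
    rw [← div_eq_mul_inv, le_div_iff₀ hN, inv_mul_le_iff₀ hN']
    exact (nB_norm B h𝔫).trans (le_of_eq (mul_comm _ _))
  have hcc : 0 ≤ ∏ᶠ v, (c v) ^ (-μ) := finprod_nonneg fun v => Real.rpow_nonneg (hc0 v).le _
  have hcc' : 0 ≤ ∏ᶠ v, (rdB B v (c v)) ^ (-μ) := finprod_nonneg fun v => Real.rpow_nonneg (hcp v).le _
  have hR0 : 0 ≤ (Ideal.absNorm 𝔫 : ℝ)⁻¹ * (∏ᶠ v, (c v) ^ (-μ)) * gi Λ := mul_nonneg (mul_nonneg (inv_nonneg.2 hN.le) hcc) hgi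
  calc ∑ r ∈ F, ∏ᶠ v, (D r v) ^ (-(1 + μ)) ≤ ∑ r ∈ F, Qb ^ (1 + M) * ∏ᶠ v, (rdB B v (D r v)) ^ (-(1 + μ)) := Finset.sum_le_sum s1
    _ = Qb ^ (1 + M) * ∑ r ∈ F, ∏ᶠ v, (rdB B v (D r v)) ^ (-(1 + μ)) := by rw [Finset.mul_sum]
    _ ≤ Qb ^ (1 + M) * (Zi K μ * ((Ideal.absNorm (nB B h𝔫) : ℝ)⁻¹ * (∏ᶠ v, (rdB B v (c v)) ^ (-μ)) * gi Λ)) :=
        mul_le_mul_of_nonneg_left key (Real.rpow_nonneg hQ0.le _)
    _ ≤ Qb ^ (1 + M) * (Zi K (1 + ε) * ((Qb * (Ideal.absNorm 𝔫 : ℝ)⁻¹) * (∏ᶠ v, (c v) ^ (-μ)) * gi Λ)) := by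
        refine mul_le_mul_of_nonneg_left ?_ (Real.rpow_nonneg hQ0.le _)
        refine mul_le_mul (H29F.Zi_anti (by linarith) hμ) ?_ (mul_nonneg (mul_nonneg (inv_nonneg.2 hN'.le) hcc') hgi) hZi
        refine mul_le_mul_of_nonneg_right ?_ hgi
        exact mul_le_mul s3 s2 hcc' (mul_nonneg hQ0.le (inv_nonneg.2 hN.le))
    _ = (Qb ^ (1 + M) * Zi K (1 + ε) * Qb) * ((Ideal.absNorm 𝔫 : ℝ)⁻¹ * (∏ᶠ v, (c v) ^ (-μ)) * gi Λ) := by ring
    _ ≤ _ := mul_le_mul_of_nonneg_right (le_max_right _ _) hR0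

end

end Pool.Agent.Lib.L8.QF
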