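import Pool.Agent.Lib.L8.QF.RQ1

/-!
# The rank one lemma for an orthogonal orbit, part 2: the places of a Galois extension
-/

namespace Pool.Agent.Lib.L8.QF

open NumberField IsDedekindDomain Pool.Agent.Lib.H89N Pool.Agent.Lib.L8.FR Pool.Agent.Lib.L1S
open scoped Pointwise

noncomputable section

set_option linter.unusedSectionVars false

variable {E L : Type} [Field E] [NumberField E] [Field L] [NumberField L] [Algebra E L]

/-! ## 1. The order and the absolute value -/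

theorem aw_od {K : Type} [Field K] [NumberField K] (w : HeightOneSpectrum (𝓞 K)) {x : K} (hx : x ≠ 0) : aw w x = (Ideal.absNorm w.asIdeal : ℝ) ^ (-CFT.od w x) := by
  have hv : w.valuation K x ≠ 0 := (Valuation.ne_zero_iff _).2 hx
  have h1 : aw w x = ((WithZeroMulInt.toNNReal (NumberField.HeightOneSpectrum.absNorm_ne_zero w)
      (w.valuation K x) : NNReal) : ℝ) := rfl
  have h2 : w.valuation K x = WithZero.exp (-CFT.od w x) := by
    unfold CFT.od
    rw [neg_neg, WithZero.exp_log hv]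
  rw [h1, h2, WithZeroMulInt.toNNReal_neg_apply _ WithZero.exp_ne_zero]
  have h3 : (WithZero.unzero (WithZero.exp_ne_zero (a := -CFT.od w x))).toAdd = -CFT.od w x := rfl
  rw [h3]
  simp

variable (E) in
/-- The local degree `e f`. -/
def nl (w : HeightOneSpectrum (𝓞 L)) : ℕ := w.asIdeal.ramificationIdx (𝓞 E) * w.asIdeal.inertiaDeg (𝓞 E)

theorem nl_pos (w : HeightOneSpectrum (𝓞 L)) : 0 < nl E w := Nat.mul_pos (CFT.e_pos w) (CFT.f_pos w)

/-- `|x|_w = |x|_v ^ [L_w : E_v]`. -/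
theorem aw_alg (w : HeightOneSpectrum (𝓞 L)) (x : E) : aw w (algebraMap E L x) = aw (CFT.below E w) x ^ nl E w := by
  by_cases hx : x = 0
  · subst hx
    rw [map_zero, map_zero, map_zero, zero_pow (nl_pos w).ne']
  · have hx' : algebraMap E L x ≠ 0 := by
      rw [Ne, map_eq_zero_iff _ (algebraMap E L).injective]
      exact hx
    rw [aw_od w hx', aw_od _ hx, CFT.od_alg, ← zpow_natCast, ← zpow_mul]
    have h1 : (Ideal.absNorm w.asIdeal : ℝ) = (Ideal.absNorm (CFT.below E w).asIdeal : ℝ) ^ (w.asIdeal.inertiaDeg (𝓞 E)) := by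
      have h2 := CFT.Nm_below (K := E) w
      unfold CFT.Nm at h2
      rw [h2]
      push_cast
      rfl
    rw [h1, ← zpow_natCast, ← zpow_mul]
    congr 1
    unfold nl
    push_cast
    ring

theorem absNorm_below (w : HeightOneSpectrum (𝓞 L)) : (Ideal.absNorm w.asIdeal : ℝ) = (Ideal.absNorm (CFT.below E w).asIdeal : ℝ) ^ (w.asIdeal.inertiaDeg (𝓞 E)) := by
  have h2 := CFT.Nm_below (K := E) w
  unfold CFT.Nm at h2
  rw [h2]
  push_cast
  rfl

/-! ## 2. The Galois action -/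

/-- `w' = σ w`. -/
def Trn (σ : L ≃ₐ[E] L) (w w' : HeightOneSpectrum (𝓞 L)) : Prop := ∀ x : L, aw w' (σ x) = aw w x

/-- The ring automorphism of `𝓞 L`. -/
def phi (σ : L ≃ₐ[E] L) : 𝓞 L ≃+* 𝓞 L := MulSemiringAction.toRingEquiv (L ≃ₐ[E] L) (𝓞 L) σ

theorem phi_coe (σ : L ≃ₐ[E] L) (x : 𝓞 L) : ((phi σ x : 𝓞 L) : L) = σ (x : L) := rfl

theorem phi_map {σ : L ≃ₐ[E] L} {w w' : HeightOneSpectrum (𝓞 L)} (h : ∀ x : 𝓞 L, x ∈ w.asIdeal ↔ phi σ x ∈ w'.asIdeal) : Ideal.map (phi σ) w.asIdeal = w'.asIdeal := by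
  have h1 : w.asIdeal = Ideal.comap (phi σ) w'.asIdeal := by
    ext x
    rw [Ideal.mem_comap]
    exact h x
  rw [h1, Ideal.map_comap_of_surjective _ (phi σ).surjective]

theorem phi_norm {σ : L ≃ₐ[E] L} {w w' : HeightOneSpectrum (𝓞 L)} (h : ∀ x : 𝓞 L, x ∈ w.asIdeal ↔ phi σ x ∈ w'.asIdeal) : Ideal.absNorm w.asIdeal = Ideal.absNorm w'.asIdeal := by
  rw [Ideal.absNorm_apply, Ideal.absNorm_apply, Submodule.cardQuot_apply, Submodule.cardQuot_apply]
  exact Nat.card_congr (Ideal.quotientEquiv w.asIdeal w'.asIdeal (phi σ) (phi_map h).symm).toEquiv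

theorem phi_le {σ : L ≃ₐ[E] L} {w w' : HeightOneSpectrum (𝓞 L)} (h : ∀ x : 𝓞 L, x ∈ w.asIdeal ↔ phi σ x ∈ w'.asIdeal) (x : 𝓞 L) : aw w' (σ (x : L)) ≤ aw w (x : L) := by
  by_cases hx : (x : L) = 0
  · rw [hx, map_zero, map_zero, map_zero]
  obtain ⟨m, hm⟩ := aw_zpow w (x : L) hx
  have h1 := nu2_le_one w x
  rw [hm] at h1
  have hm0 : m ≤ 0 := by
    by_contra h
    exact absurd (one_lt_zpow₀ (nu2_one_lt w) (not_le.1 h)) (not_lt.2 h1)
  obtain ⟨k, hk⟩ := Int.eq_ofNat_of_zero_le (neg_nonneg.2 hm0)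
  have hmk : m = -(k : ℤ) := by omega
  have h2 : x ∈ w.asIdeal ^ k := (nu2_le_pow w x k).1 (by rw [hm, hmk])
  have h3 : phi σ x ∈ w'.asIdeal ^ k := by
    rw [← phi_map h, ← Ideal.map_pow]
    exact Ideal.mem_map_of_mem _ h2
  have h4 := (nu2_le_pow w' (phi σ x) k).2 h3
  rw [phi_coe] at h4
  rw [hm, hmk, phi_norm h]
  exact h4

theorem trn_of {σ : L ≃ₐ[E] L} {w w' : HeightOneSpectrum (𝓞 L)} (h : ∀ x : 𝓞 L, x ∈ w.asIdeal ↔ phi σ x ∈ w'.asIdeal) : Trn σ w w' := by
  have h' : ∀ x : 𝓞 L, x ∈ w'.asIdeal ↔ phi σ⁻¹ x ∈ w.asIdeal := by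
    intro x
    rw [h]
    have e : phi σ (phi σ⁻¹ x) = x := by
      apply RingOfIntegers.ext
      rw [phi_coe, phi_coe]
      exact σ.apply_symm_apply (x : L)
    rw [e]
  have key : ∀ x : 𝓞 L, aw w' (σ (x : L)) = aw w (x : L) := by
    intro x
    refine le_antisymm (phi_le h x) ?_
    have h1 := phi_le h' (phi σ x)
    rw [phi_coe] at h1
    have e : σ⁻¹ (σ (x : L)) = (x : L) := σ.symm_apply_apply (x : L)
    rw [e] at h1
    exact h1
  intro x
  obtain ⟨a, b, hb, rfl⟩ := IsFractionRing.div_surjective (A := 𝓞 L) x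
  rw [map_div₀, map_div₀, map_div₀]
  exact congrArg₂ (· / ·) (key a) (key b)

/-- The Galois group is transitive on the primes above `v`. -/
theorem exists_trn [IsGalois E L] {w w' : HeightOneSpectrum (𝓞 L)} (h : CFT.below E w = CFT.below E w') : ∃ σ : L ≃ₐ[E] L, Trn σ w w' := by
  have h1 : w.asIdeal.under (𝓞 E) = w'.asIdeal.under (𝓞 E) := congrArg HeightOneSpectrum.asIdeal h
  obtain ⟨g, hg⟩ := Algebra.IsInvariant.exists_smul_of_under_eq (𝓞 E) (𝓞 L) (L ≃ₐ[E] L) w.asIdeal w'.asIdeal h1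
  refine ⟨g, trn_of fun x => ?_⟩
  rw [hg]
  exact (Ideal.smul_mem_pointwise_smul_iff (a := g) (S := w.asIdeal) (x := x)).symm

/-! ## 3. The level -/

theorem nw_up_le {𝔪 : Ideal (𝓞 E)} (h𝔪 : 𝔪 ≠ ⊥) (w : HeightOneSpectrum (𝓞 L)) : nw w (up L 𝔪) ≤ nw (CFT.below E w) 𝔪 ^ nl E w := by
  have hinj : Function.Injective (algebraMap (𝓞 E) (𝓞 L)) := FaithfulSMul.algebraMap_injective _ _
  have hup : up L 𝔪 ≠ ⊥ := by
    unfold up
    rw [Ne, Ideal.map_eq_bot_iff_of_injective hinj]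
    exact h𝔪
  have : w.asIdeal.LiesOver (CFT.below E w).asIdeal := ⟨rfl⟩
  have := w.isPrime
  set v := CFT.below E w with hv
  have h1 : 𝔪 ≤ v.asIdeal ^ od 𝔪 v := by
    rw [← Ideal.dvd_iff_le, ← Associates.mk_le_mk_iff_dvd, Associates.mk_pow, Associates.prime_pow_dvd_iff_le (Associates.mk_ne_zero.2 h𝔪) v.associates_irreducible]
    exact le_rfl
  have h2 : up L v.asIdeal ≤ w.asIdeal ^ w.asIdeal.ramificationIdx (𝓞 E) := by
    have h3 := Ideal.le_pow_ramificationIdx' (p := v.asIdeal) (P := w.asIdeal)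
    rw [Ideal.ramificationIdx'_eq_ramificationIdx v.asIdeal w.asIdeal v.ne_bot] at h3
    exact h3
  have h3 : up L 𝔪 ≤ w.asIdeal ^ (w.asIdeal.ramificationIdx (𝓞 E) * od 𝔪 v) := by
    refine (up_mono L h1).trans ?_
    unfold up
    rw [Ideal.map_pow, pow_mul]
    exact Ideal.pow_right_mono h2 _
  have h4 : w.asIdeal.ramificationIdx (𝓞 E) * od 𝔪 v ≤ od (up L 𝔪) w := by
    unfold od
    rw [← Associates.prime_pow_dvd_iff_le (Associates.mk_ne_zero.2 hup) w.associates_irreducible, ← Associates.mk_pow, Associates.mk_le_mk_iff_dvd]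
    exact Ideal.dvd_iff_le.2 h3
  rw [nw_od, nw_od, absNorm_below (E := E) w, ← zpow_natCast, ← zpow_natCast, ← zpow_mul, ← zpow_mul]
  refine zpow_le_zpow_right₀ (nu2_one_lt _).le ?_
  unfold nl
  push_cast
  have h5 : (w.asIdeal.ramificationIdx (𝓞 E) : ℤ) * od 𝔪 v ≤ od (up L 𝔪) w := by exact_mod_cast h4
  have h6 : (0 : ℤ) ≤ w.asIdeal.inertiaDeg (𝓞 E) := Nat.cast_nonneg _
  nlinarith

/-! ## 4. The number of primes above `v` -/

/-- The number of primes above `v`. -/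
def gv (L : Type) [Field L] [NumberField L] [Algebra E L] (v : HeightOneSpectrum (𝓞 E)) : ℕ := (v.asIdeal.primesOver (𝓞 L)).ncard

theorem gv_mul [IsGalois E L] (w : HeightOneSpectrum (𝓞 L)) : gv L (CFT.below E w) * nl E w = Module.finrank E L := by
  have : w.asIdeal.LiesOver (CFT.below E w).asIdeal := ⟨rfl⟩
  have := w.isPrime
  have h1 := Ideal.ncard_primesOver_mul_ramificationIdxIn_mul_inertiaDegIn (CFT.below E w).asIdeal (𝓞 L) (L ≃ₐ[E] L)
  rw [Ideal.ramificationIdxIn_eq_ramificationIdx (CFT.below E w).asIdeal w.asIdeal (L ≃ₐ[E] L), Ideal.inertiaDegIn_eq_inertiaDeg (CFT.below E w).asIdeal w.asIdeal (L ≃ₐ[E] L)] at h1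
  unfold gv nl
  rw [h1, IsGalois.card_aut_eq_finrank]

theorem fib_image (v : HeightOneSpectrum (𝓞 E)) : (fun w : HeightOneSpectrum (𝓞 L) => w.asIdeal) '' {w | CFT.below E w = v} = v.asIdeal.primesOver (𝓞 L) := by
  ext I
  constructor
  · rintro ⟨w, rfl, rfl⟩
    exact ⟨w.isPrime, ⟨rfl⟩⟩
  · rintro ⟨h1, h2⟩
    have hne : I ≠ ⊥ := by
      rintro rfl
      have h3 : v.asIdeal = (⊥ : Ideal (𝓞 L)).under (𝓞 E) := h2.over
      have hinj : Function.Injective (algebraMap (𝓞 E) (𝓞 L)) := FaithfulSMul.algebraMap_injective _ _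
      refine v.ne_bot (h3.trans ?_)
      exact (RingHom.injective_iff_ker_eq_bot _).1 hinj
    refine ⟨⟨I, h1, hne⟩, ?_, rfl⟩
    exact HeightOneSpectrum.ext h2.over.symm

theorem fib_inj (v : HeightOneSpectrum (𝓞 E)) : Set.InjOn (fun w : HeightOneSpectrum (𝓞 L) => w.asIdeal) {w | CFT.below E w = v} :=
  fun _ _ _ _ h => HeightOneSpectrum.ext h

theorem fib_fin (v : HeightOneSpectrum (𝓞 E)) : {w : HeightOneSpectrum (𝓞 L) | CFT.below E w = v}.Finite := by
  refine Set.Finite.of_finite_image ?_ (fib_inj v)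
  rw [fib_image]
  have := v.isMaximal
  exact Algebra.QuasiFinite.finite_primesOver v.asIdeal

theorem fib_card (v : HeightOneSpectrum (𝓞 E)) : (fib_fin (L := L) v).toFinset.card = gv L v := by
  rw [← Set.ncard_eq_toFinset_card _ (fib_fin v)]
  unfold gv
  rw [← fib_image v, Set.InjOn.ncard_image (fib_inj v)]

/-- A prime above `v`. -/
def wv (L : Type) [Field L] [NumberField L] [Algebra E L] (v : HeightOneSpectrum (𝓞 E)) : HeightOneSpectrum (𝓞 L) := (CFT.below_surj (K := E) (L := L) v).choose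

theorem wv_below (v : HeightOneSpectrum (𝓞 E)) : CFT.below E (wv L v) = v := (CFT.below_surj (K := E) (L := L) v).choose_spec

theorem gv_wv [IsGalois E L] (v : HeightOneSpectrum (𝓞 E)) : gv L v * nl E (wv L v) = Module.finrank E L := by
  have h := gv_mul (E := E) (wv L v)
  rwa [wv_below] at h

theorem gv_pos [IsGalois E L] (v : HeightOneSpectrum (𝓞 E)) : 0 < gv L v := by
  have h := gv_wv (L := L) v
  have h1 : 0 < Module.finrank E L := Module.finrank_pos
  rcases Nat.eq_zero_or_pos (gv L v) with h0 | h0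
  · rw [h0, zero_mul] at h
    omega
  · exact h0

/-- **The product over the places of `L`** of a function which is constant above every place of `E`. -/
theorem finprod_above {F : HeightOneSpectrum (𝓞 L) → ℝ} (hF : {w | F w ≠ 1}.Finite) (hc : ∀ w w', CFT.below E w = CFT.below E w' → F w = F w') :
    {v : HeightOneSpectrum (𝓞 E) | F (wv L v) ≠ 1}.Finite ∧ ∏ᶠ w, F w = ∏ᶠ v : HeightOneSpectrum (𝓞 E), F (wv L v) ^ gv L v := by
  classical
  have hS : {v : HeightOneSpectrum (𝓞 E) | F (wv L v) ≠ 1}.Finite := by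
    refine (hF.image (CFT.below E)).subset fun v hv => ⟨wv L v, hv, wv_below v⟩
  refine ⟨hS, ?_⟩
  set T := hS.toFinset with hT
  have e1 : ∏ᶠ v : HeightOneSpectrum (𝓞 E), F (wv L v) ^ gv L v = ∏ v ∈ T, F (wv L v) ^ gv L v := by
    refine finprod_eq_prod_of_mulSupport_subset _ fun v hv => ?_
    rw [Finset.mem_coe, hS.mem_toFinset]
    intro h
    exact hv (by show F (wv L v) ^ gv L v = 1; rw [h, one_pow])
  have e2 : ∏ᶠ w, F w = ∏ w ∈ T.biUnion fun v => (fib_fin (L := L) v).toFinset, F w := by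
    refine finprod_eq_prod_of_mulSupport_subset _ fun w hw => ?_
    rw [Finset.mem_coe, Finset.mem_biUnion]
    refine ⟨CFT.below E w, ?_, (fib_fin _).mem_toFinset.2 rfl⟩
    rw [hS.mem_toFinset]
    show F (wv L (CFT.below E w)) ≠ 1
    rw [hc (wv L (CFT.below E w)) w (wv_below _)]
    exact hw
  rw [e1, e2, Finset.prod_biUnion]
  · refine Finset.prod_congr rfl fun v _ => ?_
    rw [Finset.prod_congr rfl (g := fun _ => F (wv L v)), Finset.prod_const, fib_card]
    intro w hw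
    exact hc _ _ (((fib_fin v).mem_toFinset.1 hw).trans (wv_below v).symm)
  · intro v _ v' _ hne
    rw [Function.onFun, Finset.disjoint_left]
    intro w hw hw'
    exact hne (((fib_fin v).mem_toFinset.1 hw).symm.trans ((fib_fin v').mem_toFinset.1 hw'))

end

end Pool.Agent.Lib.L8.QF
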