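import Pool.Agent.Lib.L8.FU.T1

/-!
# QF, T1Q (helper76): the sum over the torus part for the power `d` of the functions (port of FU/T1)
-/

namespace Pool.Agent.Lib.L8.QF

set_option linter.unusedSectionVars false

open MeasureTheory Matrix NumberField IsDedekindDomain Pool.Agent.Lib.H89N Pool.Agent.Lib.H33W Pool.Agent.Lib.H67G Pool.Agent.Lib.L1S Pool.Agent.Lib.L8 Pool.Agent.Lib.L8.FL Pool.Agent.Lib.L8.FU
open scoped ENNReal

noncomputable section

variable {ι M N : Type} [Fintype ι] [DecidableEq ι] [AddCommGroup M] [Module ℚ M] [AddCommGroup N] [Module ℚ N]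
  {P : RootPairing ι ℚ M N} [P.IsCrystallographic] [P.IsReduced] [P.IsIrreducible] [P.IsRootSystem]

/-- **(U4)**: for one class `c` and one point: the sum over the torus elements. -/
theorem tau_ptQ (b : P.Base) (K : Type) [Field K] [NumberField K] (A : ℝ) (hA0 : 0 ≤ A) : ∃ M : ℝ, 0 < M ∧ ∀ (H : Subgroup (GK b K)) (S : Set (HRt H)), (∀ y ∈ S, ∀ y' ∈ S, ∀ w i, |Hw w y i - Hw w y' i| ≤ A) →
    ∀ (d : ℝ) (e : b.support → ℝ) (J : Finset b.support) (L : List b.support) (𝔫 : Ideal (𝓞 K)) (z z' : GK b K) (c : GK b K) (y : HRt H),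
    ∑' τ : {τ : H // τ.1 ∈ TK b K}, (F2.Lt b K J L 𝔫 z z' τ.1.1).indicator (1 : GK b K → ℝ≥0∞) c * S.indicator (fun y => ENNReal.ofReal (Fe e y ^ d)) (embH H τ.1 * y) ≤
      ENNReal.ofReal M * (open scoped Classical in if ∀ k, Chi b 𝔫 k (nW b K L * c * z') then ENNReal.ofReal ((fe b e z ^ d)⁻¹) * ENNReal.ofReal (fe b e (nW b K L * c * z') ^ d) else 0) *
        ENNReal.ofReal (Fe e y ^ d) := by
  classical
  obtain ⟨C, hC, D, hcount⟩ := H29F.tau_count b K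
  refine ⟨C * (1 + A) ^ D, by positivity, fun H S hS d e J L 𝔫 z z' c y => ?_⟩
  by_cases hchi : ∀ k, Chi b 𝔫 k (nW b K L * c * z')
  swap
  · rw [if_neg hchi, mul_zero, zero_mul]
    refine le_of_eq (ENNReal.tsum_eq_zero.2 fun τ => ?_)
    rw [Set.indicator_of_notMem (fun h => hchi h.2.1), zero_mul]
  rw [if_pos hchi]
  set T : Set {τ : H // τ.1 ∈ TK b K} := {τ | c ∈ F2.Lt b K J L 𝔫 z z' τ.1.1 ∧ embH H τ.1 * y ∈ S} with hT
  set a : ℝ≥0∞ := ENNReal.ofReal ((fe b e z ^ d)⁻¹) * ENNReal.ofReal (fe b e (nW b K L * c * z') ^ d) * ENNReal.ofReal (Fe e y ^ d) with ha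
  have h1 : ∀ τ : {τ : H // τ.1 ∈ TK b K}, (F2.Lt b K J L 𝔫 z z' τ.1.1).indicator (1 : GK b K → ℝ≥0∞) c * S.indicator (fun y => ENNReal.ofReal (Fe e y ^ d)) (embH H τ.1 * y) = T.indicator (fun _ => a) τ := by
    intro τ
    by_cases h2 : c ∈ F2.Lt b K J L 𝔫 z z' τ.1.1
    · by_cases h3 : embH H τ.1 * y ∈ S
      · have h4 := FI.fe_pos b e z
        have h5 := FI.fe_pos b e (nW b K L * c * z')
        have h6 := Fe_pos e y
        rw [Set.indicator_of_mem h2, Set.indicator_of_mem h3, Set.indicator_of_mem (show τ ∈ T from ⟨h2, h3⟩), Pi.one_apply, one_mul, Fe_Lt e τ.2 h2 y, ha,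
          Real.mul_rpow (by positivity) h6.le, Real.mul_rpow (by positivity) h5.le, Real.inv_rpow h4.le,
          ENNReal.ofReal_mul (by positivity), ENNReal.ofReal_mul (by positivity)]
      · rw [Set.indicator_of_notMem h3, Set.indicator_of_notMem (fun h : τ ∈ T => h3 h.2), mul_zero]
    · rw [Set.indicator_of_notMem h2, Set.indicator_of_notMem (fun h : τ ∈ T => h2 h.1), zero_mul]
  rw [tsum_congr h1]
  have hfin : T.Finite ∧ (T.ncard : ℝ) ≤ C * (1 + A) ^ D := by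
    rcases T.eq_empty_or_nonempty with hE | ⟨τ0, hτ0⟩
    · rw [hE, Set.ncard_empty, Nat.cast_zero]
      exact ⟨Set.finite_empty, by positivity⟩
    obtain ⟨hf, hn⟩ := hcount H (fun v k => Ah b v z k / Ah b v (nW b K L * c * z') k) y (fun w j => Hw w (embH H τ0.1 * y) j) A hA0
    have hmaps : Set.MapsTo (fun τ : {τ : H // τ.1 ∈ TK b K} => τ.1) T
        {t : H | t.1 ∈ TK b K ∧ (∀ v k, av v (tv b K t.1 k) = Ah b v z k / Ah b v (nW b K L * c * z') k) ∧ ∀ w j, |Hw w (embH H t * y) j - Hw w (embH H τ0.1 * y) j| ≤ A} := by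
      intro τ hτ
      refine ⟨τ.2, fun v k => ?_, fun w j => hS _ hτ.2 _ hτ0.2 w j⟩
      rw [← hτ.1.2.2 v k, mul_div_cancel_right₀ _ (FI.Ah_pos b v _ k).ne']
    have hinj : Set.InjOn (fun τ : {τ : H // τ.1 ∈ TK b K} => τ.1) T := fun τ _ τ' _ h => Subtype.ext h
    refine ⟨Set.Finite.of_finite_image (hf.subset hmaps.image_subset) hinj, le_trans ?_ hn⟩
    exact_mod_cast Set.ncard_le_ncard_of_injOn _ hmaps hinj hf
  refine (t1_const hfin.1 hfin.2 a).trans (le_of_eq ?_)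
  rw [ha]
  ring

/-- **(U4), (U5)**: the sum over the torus part of the integrals over `N_J`; `N'` is a subgroup of `G(K)`, `Λ` a subgroup of `N'`. -/
theorem tau_sumQ (b : P.Base) (K : Type) [Field K] [NumberField K] (A : ℝ) (hA0 : 0 ≤ A) : ∃ M : ℝ, 0 < M ∧ ∀ (H : Subgroup (GK b K)) (S : Set (HRt H)), MeasurableSet S →
    (∀ y ∈ S, ∀ y' ∈ S, ∀ w i, |Hw w y i - Hw w y' i| ≤ A) →
    ∀ (d : ℝ) (e : b.support → ℝ) (J : Finset b.support) (L : List b.support) (𝔫 : Ideal (𝓞 K)) (z z' : GK b K) (N' Λ : Subgroup (GK b K)) (X : GK b K → Set (GK b K)) (κ : ℝ≥0∞),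
    (∀ τ : H, τ.1 ∈ TK b K → rs N' Λ ((X τ.1).indicator 1) ≤ κ * rs N' Λ ((F2.Lt b K J L 𝔫 z z' τ.1).indicator 1)) →
    ∀ (ν : Measure (HRt H)) (n y : HRt H),
    ∑' τ : {τ : H // τ.1 ∈ TK b K}, rs N' Λ ((X τ.1.1).indicator 1) * ∫⁻ v, S.indicator (fun y => ENNReal.ofReal (Fe e y ^ d)) (embH H τ.1 * (n * v * y)) ∂ν ≤
      κ * (ENNReal.ofReal M * ENNReal.ofReal ((fe b e z ^ d)⁻¹) *
        rs N' Λ (fun c => open scoped Classical in if ∀ k, Chi b 𝔫 k (nW b K L * c * z') then ENNReal.ofReal (fe b e (nW b K L * c * z') ^ d) else 0) * ∫⁻ v, ENNReal.ofReal (Fe e (n * v * y) ^ d) ∂ν) := by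
  classical
  obtain ⟨M, hM, hpt⟩ := tau_ptQ b K A hA0
  refine ⟨M, hM, fun H S hSm hS d e J L 𝔫 z z' N' Λ X κ hκ ν n y => ?_⟩
  set I : {τ : H // τ.1 ∈ TK b K} → ℝ≥0∞ := fun τ => ∫⁻ v, S.indicator (fun y => ENNReal.ofReal (Fe e y ^ d)) (embH H τ.1 * (n * v * y)) ∂ν with hI
  have hFm : Measurable fun y : HRt H => ENNReal.ofReal (Fe e y ^ d) := ENNReal.measurable_ofReal.comp ((Fe_cont e).measurable.pow_const d)
  have hgm : ∀ τ : {τ : H // τ.1 ∈ TK b K}, Measurable fun v : HRt H => S.indicator (fun y => ENNReal.ofReal (Fe e y ^ d)) (embH H τ.1 * (n * v * y)) := by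
    intro τ
    have hc : Continuous fun v : HRt H => embH H τ.1 * (n * v * y) := continuous_const.mul ((continuous_const.mul continuous_id).mul continuous_const)
    have hm : Measurable fun v : HRt H => embH H τ.1 * (n * v * y) := hc.measurable
    exact (hFm.indicator hSm).comp hm
  have h1 : ∑' τ : {τ : H // τ.1 ∈ TK b K}, rs N' Λ ((X τ.1.1).indicator 1) * I τ ≤
      κ * ∑' τ : {τ : H // τ.1 ∈ TK b K}, rs N' Λ ((F2.Lt b K J L 𝔫 z z' τ.1.1).indicator 1) * I τ := by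
    rw [← ENNReal.tsum_mul_left]
    refine ENNReal.tsum_le_tsum fun τ => ?_
    rw [← mul_assoc]
    gcongr
    exact hκ τ.1 τ.2
  refine h1.trans ?_
  gcongr
  -- exchange the sums
  set a : (GK b K ⧸ Λ) → {τ : H // τ.1 ∈ TK b K} → ℝ≥0∞ := fun q τ =>
    if (Quotient.out q)⁻¹ ∈ (N' : Set (GK b K)) then (F2.Lt b K J L 𝔫 z z' τ.1.1).indicator (1 : GK b K → ℝ≥0∞) ((Quotient.out q)⁻¹)⁻¹ else 0 with ha
  have h2 : ∀ τ : {τ : H // τ.1 ∈ TK b K}, rs N' Λ ((F2.Lt b K J L 𝔫 z z' τ.1.1).indicator 1) = ∑' q, a q τ := fun τ => rfl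
  have h3 : ∑' τ : {τ : H // τ.1 ∈ TK b K}, rs N' Λ ((F2.Lt b K J L 𝔫 z z' τ.1.1).indicator 1) * I τ = ∑' q, ∑' τ, a q τ * I τ := by
    rw [ENNReal.tsum_comm]
    refine tsum_congr fun τ => ?_
    rw [h2, ENNReal.tsum_mul_right]
  rw [h3]
  have h4 : ∀ q, ∑' τ, a q τ * I τ ≤ ENNReal.ofReal M * ENNReal.ofReal ((fe b e z ^ d)⁻¹) *
      (if (Quotient.out q)⁻¹ ∈ (N' : Set (GK b K)) then (if ∀ k, Chi b 𝔫 k (nW b K L * ((Quotient.out q)⁻¹)⁻¹ * z') then ENNReal.ofReal (fe b e (nW b K L * ((Quotient.out q)⁻¹)⁻¹ * z') ^ d) else 0) else 0) *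
      ∫⁻ v, ENNReal.ofReal (Fe e (n * v * y) ^ d) ∂ν := by
    intro q
    by_cases hq : (Quotient.out q)⁻¹ ∈ (N' : Set (GK b K))
    swap
    · rw [if_neg hq, mul_zero, zero_mul]
      refine le_of_eq (ENNReal.tsum_eq_zero.2 fun τ => ?_)
      rw [ha]
      show (if (Quotient.out q)⁻¹ ∈ (N' : Set (GK b K)) then (F2.Lt b K J L 𝔫 z z' τ.1.1).indicator (1 : GK b K → ℝ≥0∞) ((Quotient.out q)⁻¹)⁻¹ else 0) * I τ = 0
      rw [if_neg hq, zero_mul]
    rw [if_pos hq]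
    set c : GK b K := ((Quotient.out q)⁻¹)⁻¹ with hc
    have h5 : ∀ τ : {τ : H // τ.1 ∈ TK b K}, a q τ * I τ = ∫⁻ v, (F2.Lt b K J L 𝔫 z z' τ.1.1).indicator (1 : GK b K → ℝ≥0∞) c * S.indicator (fun y => ENNReal.ofReal (Fe e y ^ d)) (embH H τ.1 * (n * v * y)) ∂ν := by
      intro τ
      rw [lintegral_const_mul _ (hgm τ)]
      show (if (Quotient.out q)⁻¹ ∈ (N' : Set (GK b K)) then (F2.Lt b K J L 𝔫 z z' τ.1.1).indicator (1 : GK b K → ℝ≥0∞) ((Quotient.out q)⁻¹)⁻¹ else 0) * I τ = _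
      rw [if_pos hq]
    rw [tsum_congr h5]
    refine (t1_tsum ν _ fun τ => ((hgm τ).const_mul _).aemeasurable).trans ?_
    have hc2 : Continuous fun v : HRt H => n * v * y := (continuous_const.mul continuous_id).mul continuous_const
    have hm2 : Measurable fun v : HRt H => ENNReal.ofReal (Fe e (n * v * y) ^ d) := hFm.comp hc2.measurable
    rw [← lintegral_const_mul _ hm2]
    refine lintegral_mono fun v => ?_
    refine (hpt H S hS d e J L 𝔫 z z' c (n * v * y)).trans (le_of_eq ?_)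
    by_cases hchi : ∀ k, Chi b 𝔫 k (nW b K L * c * z')
    · rw [if_pos hchi, if_pos hchi]
      ring
    · rw [if_neg hchi, if_neg hchi, mul_zero, mul_zero]
  refine (ENNReal.tsum_le_tsum h4).trans (le_of_eq ?_)
  rw [ENNReal.tsum_mul_right, ENNReal.tsum_mul_left]
  rfl

end

end Pool.Agent.Lib.L8.QF
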