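import Pool.Agent.Lib.L8.QF.RQ2
import Pool.Agent.Lib.L8.F2.R1
import Pool.Agent.Lib.L8.F2.R2
import Pool.Agent.Lib.L1S.QC1

/-!
# QF, TG0 (helper43): the torus gain over a subgroup, arithmetic

`K ⊆ L`, `𝔫` an ideal of `𝓞 K`. The absolute value of the level `up L 𝔫` at the places of `L`, denominators in `𝓞 K`, the Chinese remainder theorem for `𝓞 K` at the places of `L`.
-/

namespace Pool.Agent.Lib.L8.QF

open Matrix NumberField IsDedekindDomain Pool.Agent.Lib.H89N Pool.Agent.Lib.L1S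
open Pool.Agent.Lib.L8.FL (av aI Gv Kv Ah TK tv PJ G1 NJ nW wW IsWJ)
open Pool.Agent.Lib.L8.FI (Tor Tors Uu Iv Cg fh ch)

noncomputable section

set_option linter.unusedSectionVars false

variable {K L : Type} [Field K] [NumberField K] [Field L] [NumberField L] [Algebra K L]

theorem tg0_av (w : HeightOneSpectrum (𝓞 L)) (x : K) : av w (algebraMap K L x) = av (CFT.below K w) x ^ nl K w := aw_alg w x

/-- **The level at the places of `L`.** -/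
theorem tg0_aI (w : HeightOneSpectrum (𝓞 L)) {𝔫 : Ideal (𝓞 K)} (h0 : 𝔫 ≠ ⊥) : aI w (up L 𝔫) = aI (CFT.below K w) 𝔫 ^ nl K w := by
  refine le_antisymm (nw_up_le h0 w) ?_
  obtain ⟨v, hv⟩ : ∃ v, v = CFT.below K w := ⟨_, rfl⟩
  rw [← hv]
  obtain ⟨e, he⟩ : ∃ e : ℕ, e = (Associates.mk v.asIdeal).count (Associates.mk 𝔫).factors := ⟨_, rfl⟩
  have h1 : aI v 𝔫 = (Ideal.absNorm v.asIdeal : ℝ) ^ (-(e : ℤ)) := by rw [he]; rfl
  -- an element of `𝔫` of the exact order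
  have h2 : ¬𝔫 ≤ v.asIdeal ^ (e + 1) := by
    intro h
    have h3 : e + 1 ≤ (Associates.mk v.asIdeal).count (Associates.mk 𝔫).factors := by
      rw [← Associates.prime_pow_dvd_iff_le (Associates.mk_ne_zero.2 h0) v.associates_irreducible, ← Associates.mk_pow, Associates.mk_le_mk_iff_dvd, Ideal.dvd_iff_le]
      exact h
    omega
  obtain ⟨x, hx, hx2⟩ := Set.not_subset.1 h2
  have h3 : av v (x : K) = aI v 𝔫 := by
    have hx0 : (x : K) ≠ 0 := by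
      intro h
      apply hx2
      have h4 : x = 0 := NumberField.RingOfIntegers.coe_injective (h.trans (map_zero (algebraMap (𝓞 K) K)).symm)
      rw [h4]
      exact Submodule.zero_mem _
    refine le_antisymm ((nu2_A h0 (x : K)).1 ⟨x, hx, rfl⟩ v) ?_
    obtain ⟨m, hm⟩ := aw_zpow v (x : K) hx0
    have hm' : av v (x : K) = (Ideal.absNorm v.asIdeal : ℝ) ^ m := hm
    rw [h1, hm']
    refine zpow_le_zpow_right₀ (nu2_one_lt v).le ?_
    by_contra h4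
    apply hx2
    refine (nu2_le_pow v x (e + 1)).1 ?_
    rw [hm]
    exact zpow_le_zpow_right₀ (nu2_one_lt v).le (by push_cast; omega)
  have h4 : av w (algebraMap K L (x : K)) ≤ aI w (up L 𝔫) := by
    refine (nu2_A (qc_up_bot h0) _).1 ⟨algebraMap (𝓞 K) (𝓞 L) x, Ideal.mem_map_of_mem _ hx, rfl⟩ w
  rw [tg0_av, ← hv, h3] at h4
  exact h4

theorem tg0_one (w : HeightOneSpectrum (𝓞 L)) {𝔫 : Ideal (𝓞 K)} (h0 : 𝔫 ≠ ⊥) : aI w (up L 𝔫) = 1 ↔ aI (CFT.below K w) 𝔫 = 1 := by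
  rw [tg0_aI w h0]
  exact pow_eq_one_iff_of_nonneg (FI.g1_aI_pos _ _).le (nl_pos w).ne'

/-- **Denominators** in `𝓞 K`. -/
theorem tg0_den {d : 𝓞 L} (hd : d ≠ 0) : ∃ e : 𝓞 K, e ≠ 0 ∧ ∀ w : HeightOneSpectrum (𝓞 L), av w (algebraMap K L (e : K)) ≤ av w (d : L) := by
  have h0 : Ideal.span {d} ≠ ⊥ := by
    rw [Ne, Ideal.span_singleton_eq_bot]
    exact hd
  have h1 : (Ideal.absNorm (Ideal.span {d}) : 𝓞 L) ∈ Ideal.span {d} := Ideal.absNorm_mem _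
  obtain ⟨c, hc⟩ := Ideal.mem_span_singleton'.1 h1
  refine ⟨(Ideal.absNorm (Ideal.span {d}) : 𝓞 K), ?_, fun w => ?_⟩
  · have h2 : Ideal.absNorm (Ideal.span {d}) ≠ 0 := fun h => h0 (Ideal.absNorm_eq_zero_iff.1 h)
    exact_mod_cast h2
  · have e : algebraMap K L (((Ideal.absNorm (Ideal.span {d}) : ℕ) : 𝓞 K) : K) = (c : L) * (d : L) := by
      have h2 : (((Ideal.absNorm (Ideal.span {d}) : ℕ) : 𝓞 L) : L) = (c : L) * (d : L) := by
        rw [← hc]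
        exact map_mul (algebraMap (𝓞 L) L) c d
      rw [← h2]
      simp
    rw [e, map_mul]
    exact mul_le_of_le_one_left (apply_nonneg _ _) (F2.r1_int w c)

/-- **The Chinese remainder theorem** for `𝓞 K` at the places of `L`. -/
theorem tg0_crt {𝔫 : Ideal (𝓞 K)} (h0 : 𝔫 ≠ ⊥) {d : 𝓞 K} (hd : d ≠ 0) (m : ℕ) :
    ∃ c : 𝓞 K, c ≠ 0 ∧ (∀ w : HeightOneSpectrum (𝓞 L), aI w (up L 𝔫) ≠ 1 → av w (algebraMap K L (c : K) - 1) ≤ aI w (up L 𝔫) * av w (algebraMap K L (d : K)) ^ m) ∧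
      ∀ w : HeightOneSpectrum (𝓞 L), aI w (up L 𝔫) = 1 → av w (algebraMap K L (c : K)) ≤ av w (algebraMap K L (d : K)) ^ m := by
  obtain ⟨c, hc, h1, h2⟩ := F2.crt_elt h0 hd m
  refine ⟨c, hc, fun w hw => ?_, fun w hw => ?_⟩
  · have h3 := h1 (CFT.below K w) fun h => hw ((tg0_one w h0).2 h)
    have e : algebraMap K L (c : K) - 1 = algebraMap K L ((c : K) - 1) := by rw [map_sub, map_one]
    rw [e, tg0_av, tg0_av, tg0_aI w h0, ← pow_mul, mul_comm (nl K w) m, pow_mul, ← mul_pow]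
    exact pow_le_pow_left₀ (apply_nonneg _ _) h3 _
  · have h3 := h2 (CFT.below K w) ((tg0_one w h0).1 hw)
    rw [tg0_av, tg0_av, ← pow_mul, mul_comm (nl K w) m, pow_mul]
    exact pow_le_pow_left₀ (apply_nonneg _ _) h3 _

/-- The converse at a place of `K`. -/
theorem tg0_down {𝔫 : Ideal (𝓞 K)} (h0 : 𝔫 ≠ ⊥) {x : K} (h : ∀ w : HeightOneSpectrum (𝓞 L), aI w (up L 𝔫) ≠ 1 → av w (algebraMap K L x) ≤ aI w (up L 𝔫)) (v : HeightOneSpectrum (𝓞 K)) (hv : aI v 𝔫 ≠ 1) :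
    av v x ≤ aI v 𝔫 := by
  have h1 := h (wv L v) fun hw => hv (by rw [tg0_one _ h0, wv_below] at hw; exact hw)
  rw [tg0_av, tg0_aI _ h0, wv_below] at h1
  exact (pow_le_pow_iff_left₀ (apply_nonneg _ _) (FI.g1_aI_pos v 𝔫).le (nl_pos _).ne').1 h1

theorem tg0_unit {𝔫 : Ideal (𝓞 K)} (h0 : 𝔫 ≠ ⊥) {x : K} (h : ∀ v : HeightOneSpectrum (𝓞 K), aI v 𝔫 ≠ 1 → av v x = 1) (w : HeightOneSpectrum (𝓞 L)) (hw : aI w (up L 𝔫) ≠ 1) : av w (algebraMap K L x) = 1 := by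
  rw [tg0_av, h _ fun h1 => hw ((tg0_one w h0).2 h1), one_pow]

end

end Pool.Agent.Lib.L8.QF
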