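import Pool.Agent.Lib.L8.QF.TG0
import Pool.Agent.Lib.L8.F2.R3
import Pool.Agent.Lib.L8.F2.R5

/-!
# QF, TG1 (helper43): strong approximation in `N_J ∩ H`

`H` is a subgroup of `G(L)` such that the scaling elements `c ^ (D ht)`, `c ∈ K`, normalize `U(L) ∩ H` (`Scl`). See `F2/R6` for `H = ⊤`.
-/

namespace Pool.Agent.Lib.L8.QF

open Matrix NumberField IsDedekindDomain Pool.Agent.Lib.H89N Pool.Agent.Lib.L1S
open Pool.Agent.Lib.L8.FL (av aI Gv Kv Ah TK tv PJ G1 NJ nW wW IsWJ)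
open Pool.Agent.Lib.L8.FI (Tor Tors Uu Iv Cg fh ch)

noncomputable section

set_option linter.unusedSectionVars false

variable {ι M N : Type} [Fintype ι] [DecidableEq ι] [AddCommGroup M] [Module ℚ M] [AddCommGroup N] [Module ℚ N]
  {P : RootPairing ι ℚ M N} [P.IsCrystallographic] [P.IsReduced] [P.IsIrreducible] [P.IsRootSystem] {b : P.Base}
  {K L : Type} [Field K] [NumberField K] [Field L] [NumberField L] [Algebra K L]

/-- `t` normalizes `U(L) ∩ H`. -/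
def Nrm (H : Subgroup (GK b L)) (t : GK b L) : Prop := ∀ y ∈ HU b L, y ∈ H → t * y * t⁻¹ ∈ H

variable (K) in
/-- The scaling elements normalize `U(L) ∩ H`. -/
def Scl (H : Subgroup (GK b L)) : Prop :=
  ∀ (D : ℕ) (c : K), c ≠ 0 → ∀ t : GK b L, Tor t → (∀ r, t.1.1 r r = algebraMap K L c ^ ((D : ℤ) * ht b r)) → Nrm H t

theorem tg1_denG (S : Finset (GK b L)) : ∃ e : 𝓞 K, e ≠ 0 ∧ ∀ g ∈ S, ∀ (w : HeightOneSpectrum (𝓞 L)) (r c : I b),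
    av w (algebraMap K L (e : K)) * av w (g.1.1 r c) ≤ 1 ∧ av w (algebraMap K L (e : K)) * av w (g⁻¹.1.1 r c) ≤ 1 := by
  obtain ⟨d, hd, h⟩ := F2.r1_denG S
  obtain ⟨e, he, h2⟩ := tg0_den (K := K) hd
  refine ⟨e, he, fun g hg w r c => ?_⟩
  obtain ⟨h3, h4⟩ := h g hg w r c
  exact ⟨(mul_le_mul_of_nonneg_right (h2 w) (apply_nonneg _ _)).trans h3, (mul_le_mul_of_nonneg_right (h2 w) (apply_nonneg _ _)).trans h4⟩

/-- **Strong approximation** in the unipotent group `N_J ∩ H`. -/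
theorem sa_H {H : Subgroup (GK b L)} (hS : Scl K H) (J : Finset b.support) {𝔫 : Ideal (𝓞 K)} (h0 : 𝔫 ≠ ⊥) (z : GK b L) {y : GK b L} (hy : y ∈ NJ b L J) (hyH : y ∈ H) :
    ∃ x ∈ NJ b L J, x ∈ H ∧ (∀ w : HeightOneSpectrum (𝓞 L), aI w (up L 𝔫) ≠ 1 → y⁻¹ * x ∈ Kv b (up L 𝔫) w) ∧ ∀ w : HeightOneSpectrum (𝓞 L), aI w (up L 𝔫) = 1 → z⁻¹ * x * z ∈ Gv b w := by
  classical
  obtain ⟨d, hd, hden⟩ := tg1_denG (K := K) (b := b) (L := L) {y, z}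
  obtain ⟨c, hc0, hc1, hc2⟩ := tg0_crt (L := L) h0 hd 3
  obtain ⟨D, hD, hsc⟩ := F2.scale_t b L
  have hcK : (c : K) ≠ 0 := fun h => hc0 (by exact_mod_cast h)
  have hdK : (d : K) ≠ 0 := fun h => hd (by exact_mod_cast h)
  have hcL : algebraMap K L (c : K) ≠ 0 := (map_ne_zero _).2 hcK
  have hdL : algebraMap K L (d : K) ≠ 0 := (map_ne_zero _).2 hdK
  obtain ⟨t, hT, htc⟩ := hsc (Units.mk0 _ hcL)
  have htc' : ∀ r, t.1.1 r r = (algebraMap K L (c : K)) ^ ((D : ℤ) * ht b r) := fun r => htc r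
  have hyU : Uu y := (FI.g1_HU b y).1 hy.1
  have hyd : ∀ (w : HeightOneSpectrum (𝓞 L)) (r s : I b), av w (algebraMap K L (d : K)) * av w (y.1.1 r s) ≤ 1 ∧ av w (algebraMap K L (d : K)) * av w (y⁻¹.1.1 r s) ≤ 1 := fun w r s => hden y (by simp) w r s
  have hzd : ∀ (w : HeightOneSpectrum (𝓞 L)) (r s : I b), av w (algebraMap K L (d : K)) * av w (z.1.1 r s) ≤ 1 ∧ av w (algebraMap K L (d : K)) * av w (z⁻¹.1.1 r s) ≤ 1 := fun w r s => hden z (by simp) w r s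
  have hcle : ∀ w : HeightOneSpectrum (𝓞 L), av w (algebraMap K L (c : K)) ≤ 1 := fun w => by
    rw [tg0_av]
    exact pow_le_one₀ (apply_nonneg _ _) (F2.r1_int _ c)
  have hdle : ∀ w : HeightOneSpectrum (𝓞 L), av w (algebraMap K L (d : K)) ≤ 1 := fun w => by
    rw [tg0_av]
    exact pow_le_one₀ (apply_nonneg _ _) (F2.r1_int _ d)
  refine ⟨t * y * t⁻¹, FC.TK_NJ ((FI.g1_TK b t).2 hT) hy, hS D c hcK t hT htc' y hy.1 hyH, fun w hw => ?_, fun w hw => ?_⟩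
  · rw [FI.g1_Kv]
    refine F2.sc_near (FI.g1_nonarch w) (FI.g1_aI_pos w _).le hT htc' hcL (hcle w) hdL ?_ hyU (hyd w)
    refine (hc1 w hw).trans (mul_le_mul_of_nonneg_left ?_ (FI.g1_aI_pos w _).le)
    exact pow_le_pow_of_le_one (apply_nonneg (av w) _) (hdle w) (by norm_num)
  · rw [FI.g1_Gv]
    exact F2.sc_far (FI.g1_nonarch w) hD hT htc' hcL hdL (hdle w) (hc2 w hw) hyU (hyd w) (hzd w)

/-- The translate of `u` by `σ`. -/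
theorem lift_H {H : Subgroup (GK b L)} (hS : Scl K H) (J : Finset b.support) {𝔫 : Ideal (𝓞 K)} (h0 : 𝔫 ≠ ⊥) (z : GK b L) {u σ : GK b L} (hu : u ∈ NJ b L J) (huH : u ∈ H) (hσ : σ ∈ TK b L) (hσH : Nrm H σ) :
    ∃ u₁ ∈ NJ b L J, u₁ ∈ H ∧ (∀ w : HeightOneSpectrum (𝓞 L), aI w (up L 𝔫) ≠ 1 → (σ * u * σ⁻¹)⁻¹ * u₁ ∈ Kv b (up L 𝔫) w) ∧
      ∀ w : HeightOneSpectrum (𝓞 L), aI w (up L 𝔫) = 1 → z⁻¹ * (u⁻¹ * u₁) * z ∈ Gv b w := by
  have hy : u⁻¹ * (σ * u * σ⁻¹) ∈ NJ b L J := mul_mem (inv_mem hu) (FC.TK_NJ hσ hu)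
  have hyH : u⁻¹ * (σ * u * σ⁻¹) ∈ H := mul_mem (inv_mem huH) (hσH u hu.1 huH)
  obtain ⟨x, hx, hxH, hx1, hx2⟩ := sa_H hS J h0 z hy hyH
  refine ⟨u * x, mul_mem hu hx, mul_mem huH hxH, fun w hw => ?_, fun w hw => ?_⟩
  · have h1 := hx1 w hw
    have e : (σ * u * σ⁻¹)⁻¹ * (u * x) = (u⁻¹ * (σ * u * σ⁻¹))⁻¹ * x := by group
    rw [e]
    exact h1
  · rw [inv_mul_cancel_left]
    exact hx2 w hw

end

end Pool.Agent.Lib.L8.QF
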