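import Pool.Agent.Lib.L8.F2.R4
import Pool.Agent.Lib.L8.F2.R9
import Pool.Agent.Lib.L8.F2.R11

/-!
# QF, TG2 (helper43): the translates by arbitrary torus elements `σ = ∏ α_j^∨(s_j)`

See `F2/R9`, `F2/R11` for one coroot.
-/

namespace Pool.Agent.Lib.L8.QF

open Matrix NumberField IsDedekindDomain Pool.Agent.Lib.H89N Pool.Agent.Lib.L1S
open Pool.Agent.Lib.L8.FL (av aI Gv Kv Ah TK tv PJ G1 NJ nW wW IsWJ)
open Pool.Agent.Lib.L8.FI (Tor Tors Uu Iv Cg fh ch)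

noncomputable section

set_option linter.unusedSectionVars false

variable {ι M N : Type} [Fintype ι] [DecidableEq ι] [AddCommGroup M] [Module ℚ M] [AddCommGroup N] [Module ℚ N]
  {P : RootPairing ι ℚ M N} [P.IsCrystallographic] [P.IsReduced] [P.IsIrreducible] [P.IsRootSystem] {b : P.Base} {L : Type} [Field L] [NumberField L]

/-! ## 1. Torus elements -/

/-- Every tuple defines a torus element. -/
theorem tors_ex (s : b.support → Lˣ) : ∃ t : GK b L, Tors s t := by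
  classical
  have key : ∀ S : Finset b.support, ∃ t : GK b L, Tors (fun j => if j ∈ S then s j else 1) t := by
    intro S
    induction S using Finset.induction_on with
    | empty =>
      refine ⟨1, ?_⟩
      simpa using (Tors.one : Tors (fun _ : b.support => (1 : Lˣ)) (1 : GK b L))
    | insert i S hi ih =>
      obtain ⟨t, ht⟩ := ih
      refine ⟨fh b i (s i) * t, ?_⟩
      have h := (FI.fh_Tors i (s i)).mul ht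
      have e : (fun j => (if j = i then s i else 1) * (if j ∈ S then s j else 1)) = fun j => if j ∈ insert i S then s j else 1 := by
        funext j
        by_cases h1 : j = i
        · subst h1
          rw [if_pos rfl, if_neg hi, if_pos (Finset.mem_insert_self _ _), mul_one]
        · rw [if_neg h1, one_mul]
          by_cases h2 : j ∈ S
          · rw [if_pos h2, if_pos (Finset.mem_insert_of_mem h2)]
          · rw [if_neg h2, if_neg fun h3 => (Finset.mem_insert.1 h3).elim h1 h2]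
      rw [e] at h
      exact h
  obtain ⟨t, ht⟩ := key Finset.univ
  refine ⟨t, ?_⟩
  simpa using ht

theorem tors_TK {s : b.support → Lˣ} {t : GK b L} (h : Tors s t) : t ∈ TK b L := (FI.g1_TK b _).2 h.tor

theorem tors_conj_TK (Lw : List b.support) {s : b.support → Lˣ} {t : GK b L} (h : Tors s t) : nW b L Lw * t * (nW b L Lw)⁻¹ ∈ TK b L := by
  obtain ⟨s', h1, -⟩ := F2.tors_nW Lw h
  exact tors_TK h1

theorem tors_tv {s : b.support → Lˣ} {t : GK b L} (h : Tors s t) (k : b.support) : tv b L t k = ch s (Sum.inr (k : ι)) := h.val _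

theorem tors_conj_tv (Lw : List b.support) {s : b.support → Lˣ} {t : GK b L} (h : Tors s t) (k : b.support) : tv b L (nW b L Lw * t * (nW b L Lw)⁻¹) k = ch s (Sum.inr ((wW b Lw)⁻¹ (k : ι))) := by
  obtain ⟨s', h1, h2⟩ := F2.tors_nW Lw h
  have h3 := h2 ((wW b Lw)⁻¹ (k : ι))
  have h5 : wW b Lw ((wW b Lw)⁻¹ (k : ι)) = (k : ι) := by
    rw [← Equiv.Perm.mul_apply, mul_inv_cancel, Equiv.Perm.one_apply]
  rw [h5] at h3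
  rw [tors_tv h1, h3]

theorem ch_unit {v : AbsoluteValue L ℝ} {s : b.support → Lˣ} (hs : ∀ j, v (s j : L) = 1) (r : I b) : v (ch s r) = 1 := by
  unfold ch
  rw [map_prod]
  exact Finset.prod_eq_one fun j _ => by rw [map_zpow₀, hs, _root_.one_zpow]

theorem tors_Gv {w : HeightOneSpectrum (𝓞 L)} {s : b.support → Lˣ} {t : GK b L} (h : Tors s t) (hs : ∀ j, av w (s j : L) = 1) : t ∈ Gv b w := by
  rw [FI.g1_Gv]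
  refine ⟨fun r c => ?_, fun r c => ?_⟩
  · by_cases hrc : r = c
    · subst hrc
      rw [h.val, ch_unit hs]
    · rw [h.tor r c hrc, map_zero]
      exact zero_le_one
  · by_cases hrc : r = c
    · subst hrc
      rw [h.tor.inv_val, map_inv₀, h.val, ch_unit hs, inv_one]
    · rw [h.tor.inv r c hrc, map_zero]
      exact zero_le_one

/-! ## 2. The translates -/

/-- **The translate lies in `L_τ`.** -/
theorem tg2_L {J : Finset b.support} {Lw : List b.support} {𝔠 : Ideal (𝓞 L)} (h0 : 𝔠 ≠ ⊥) {z z' τ : GK b L} (hz : ∀ w : HeightOneSpectrum (𝓞 L), aI w 𝔠 ≠ 1 → z ∈ Kv b 𝔠 w) (hz' : ∀ w : HeightOneSpectrum (𝓞 L), aI w 𝔠 ≠ 1 → z' ∈ Kv b 𝔠 w)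
    (hτ : τ ∈ TK b L) {s : b.support → Lˣ} {σ : GK b L} (hσ : Tors s σ) (hs : ∀ w : HeightOneSpectrum (𝓞 L), aI w 𝔠 ≠ 1 → ∀ j, av w (s j : L) = 1) {u u₁ : GK b L} (hu : u ∈ F2.Xt b L J Lw 𝔠 z z' τ) (hu1 : u₁ ∈ NJ b L J)
    (h1 : ∀ w : HeightOneSpectrum (𝓞 L), aI w 𝔠 ≠ 1 → (σ * u * σ⁻¹)⁻¹ * u₁ ∈ Kv b 𝔠 w) (h2 : ∀ w : HeightOneSpectrum (𝓞 L), aI w 𝔠 = 1 → z'⁻¹ * (u⁻¹ * u₁) * z' ∈ Gv b w) :
    u₁ ∈ F2.Lt b L J Lw 𝔠 z z' τ := by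
  obtain ⟨-, u', hu', γ, hγ, e⟩ := hu
  have hσT := tors_TK hσ
  have hnT := tors_conj_TK Lw hσ
  have hρ : nW b L Lw * σ * (nW b L Lw)⁻¹ * τ⁻¹ * σ⁻¹ ∈ TK b L := mul_mem (mul_mem hnT (inv_mem hτ)) (inv_mem hσT)
  have hloc : ∀ w : HeightOneSpectrum (𝓞 L), aI w 𝔠 ≠ 1 → ∃ u₂ ∈ HU b L, ∃ κ ∈ Kv b 𝔠 w,
      nW b L Lw * u₁ * z' = (nW b L Lw * σ * (nW b L Lw)⁻¹ * τ⁻¹ * σ⁻¹) * u₂ * κ := fun w hw =>
    F2.r8_loc hσT (tors_Gv hσ (hs w hw)) (hz w hw) (hz' w hw) hu' (FI.g1_mem_G1 b w h0 hγ) e (h1 w hw)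
  refine ⟨hu1, fun k => ?_, fun w k => ?_⟩
  · refine FI.Chi_mk b fun w hw => ?_
    obtain ⟨u₂, hu2, κ, hκ, e2⟩ := hloc w hw
    refine ⟨_, (FI.g1_PJ b k _).2 ((((FI.g1_TK b _).1 hρ).toPj k).mul (((FI.g1_HU b u₂).1 hu2).toPj k)), κ, hκ, e2⟩
  · by_cases hw : aI w 𝔠 = 1
    · have e3 : nW b L Lw * u₁ * z' = (nW b L Lw * u * z') * (z'⁻¹ * (u⁻¹ * u₁) * z') := by group
      have e4 : u' * (τ * (nW b L Lw * u * z')) = z * γ := by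
        calc u' * (τ * (nW b L Lw * u * z')) = (u' * τ * nW b L Lw * u) * z' := by group
          _ = z * γ * z'⁻¹ * z' := by rw [e]
          _ = z * γ := by group
      rw [e3, FI.Ah_K b w (h2 w hw), ← FI.Ah_T b w hτ, ← FI.Ah_U b w hu', e4, FI.Ah_G1 b w h0 hγ]
    · obtain ⟨u₂, hu2, κ, hκ, e2⟩ := hloc w hw
      have e5 : ∀ ρ : GK b L, ρ * u₂ * κ = (ρ * u₂ * ρ⁻¹) * ρ * κ := fun ρ => by group
      rw [e2, e5, FI.Ah_utk b w (FC.TK_HU hρ hu2) hρ (FI.g1_Kv_Gv b w hκ), FI.Ah_Gv b w (FI.g1_Kv_Gv b w (hz w hw))]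
      have hτ0 : av w (tv b L τ k) ≠ 0 := (av w).ne_zero (FI.tv_ne b hτ k)
      rw [FI.tv_mul b (mul_mem hnT (inv_mem hτ)), FI.tv_mul b hnT, FI.tv_inv b hτ, FI.tv_inv b hσT, tors_conj_tv Lw hσ, tors_tv hσ,
        map_mul, map_mul, map_inv₀, map_inv₀, ch_unit (hs w hw), ch_unit (hs w hw), one_mul, inv_one, mul_one, mul_inv_cancel₀ hτ0]

/-- **The torus parameters are determined by the class of the translate.** -/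
theorem tg2_s {J : Finset b.support} {Lw : List b.support} {𝔠 : Ideal (𝓞 L)} (h0 : 𝔠 ≠ ⊥) {z z' τ : GK b L} (hz : ∀ w : HeightOneSpectrum (𝓞 L), aI w 𝔠 ≠ 1 → z ∈ Kv b 𝔠 w) (hz' : ∀ w : HeightOneSpectrum (𝓞 L), aI w 𝔠 ≠ 1 → z' ∈ Kv b 𝔠 w)
    (hτ : τ ∈ TK b L) {s s' : b.support → Lˣ} {σ σ' : GK b L} (hσ : Tors s σ) (hσ' : Tors s' σ') (hs : ∀ w : HeightOneSpectrum (𝓞 L), aI w 𝔠 ≠ 1 → ∀ j, av w (s j : L) = 1) (hs' : ∀ w : HeightOneSpectrum (𝓞 L), aI w 𝔠 ≠ 1 → ∀ j, av w (s' j : L) = 1)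
    {u u' u₁ u₁' : GK b L} (hu : u ∈ F2.Xt b L J Lw 𝔠 z z' τ) (hu' : u' ∈ F2.Xt b L J Lw 𝔠 z z' τ)
    (h1 : ∀ w : HeightOneSpectrum (𝓞 L), aI w 𝔠 ≠ 1 → (σ * u * σ⁻¹)⁻¹ * u₁ ∈ Kv b 𝔠 w) (h1' : ∀ w : HeightOneSpectrum (𝓞 L), aI w 𝔠 ≠ 1 → (σ' * u' * σ'⁻¹)⁻¹ * u₁' ∈ Kv b 𝔠 w)
    (hl : z'⁻¹ * (u₁⁻¹ * u₁') * z' ∈ G1 b 𝔠) (k : b.support) (w : HeightOneSpectrum (𝓞 L)) (hw : aI w 𝔠 ≠ 1) :
    av w ((ch s (Sum.inr ((wW b Lw)⁻¹ (k : ι))) / ch s (Sum.inr (k : ι))) / (ch s' (Sum.inr ((wW b Lw)⁻¹ (k : ι))) / ch s' (Sum.inr (k : ι))) - 1) ≤ aI w 𝔠 := by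
  obtain ⟨_, v, hv, γ, hγ, e⟩ := hu
  obtain ⟨_, v', hv', γ', hγ', e'⟩ := hu'
  have q1 := tors_TK hσ
  have q2 := tors_TK hσ'
  have t1 := tors_conj_TK Lw hσ
  have t2 := tors_conj_TK Lw hσ'
  obtain ⟨u₂, hu₂, κ, hκ, E⟩ := F2.r8_loc q1 (tors_Gv hσ (hs w hw)) (hz w hw) (hz' w hw) hv (FI.g1_mem_G1 b w h0 hγ) e (h1 w hw)
  obtain ⟨u₂', hu₂', κ', hκ', E'⟩ := F2.r8_loc q2 (tors_Gv hσ' (hs' w hw)) (hz w hw) (hz' w hw) hv' (FI.g1_mem_G1 b w h0 hγ') e' (h1' w hw)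
  have hl' := FI.g1_mem_G1 b w h0 hl
  have E3 : (nW b L Lw * σ * (nW b L Lw)⁻¹ * τ⁻¹ * σ⁻¹) * u₂ * (κ * (z'⁻¹ * (u₁⁻¹ * u₁') * z')) = (nW b L Lw * σ' * (nW b L Lw)⁻¹ * τ⁻¹ * σ'⁻¹) * u₂' * κ' := by
    rw [← E', ← mul_assoc, ← E]
    group
  have h3 := F2.tor_uniq (mul_mem (mul_mem t1 (inv_mem hτ)) (inv_mem q1)) (mul_mem (mul_mem t2 (inv_mem hτ)) (inv_mem q2)) hu₂ hu₂' (F2.Kv_mul hκ hl') hκ' E3 k
  rw [FI.tv_mul b (mul_mem t1 (inv_mem hτ)), FI.tv_mul b t1, FI.tv_inv b hτ, FI.tv_inv b q1, FI.tv_mul b (mul_mem t2 (inv_mem hτ)), FI.tv_mul b t2, FI.tv_inv b hτ, FI.tv_inv b q2,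
    tors_conj_tv Lw hσ, tors_tv hσ, tors_conj_tv Lw hσ', tors_tv hσ'] at h3
  have hτ0 : tv b L τ k ≠ 0 := FI.tv_ne b hτ k
  have h4 : ch s (Sum.inr ((wW b Lw)⁻¹ (k : ι))) * (tv b L τ k)⁻¹ * (ch s (Sum.inr (k : ι)))⁻¹ / (ch s' (Sum.inr ((wW b Lw)⁻¹ (k : ι))) * (tv b L τ k)⁻¹ * (ch s' (Sum.inr (k : ι)))⁻¹) =
      (ch s (Sum.inr ((wW b Lw)⁻¹ (k : ι))) / ch s (Sum.inr (k : ι))) / (ch s' (Sum.inr ((wW b Lw)⁻¹ (k : ι))) / ch s' (Sum.inr (k : ι))) := by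
    have c1 := FI.ch_ne s (Sum.inr ((wW b Lw)⁻¹ (k : ι)))
    have c2 := FI.ch_ne s (Sum.inr (k : ι))
    have c3 := FI.ch_ne s' (Sum.inr ((wW b Lw)⁻¹ (k : ι)))
    have c4 := FI.ch_ne s' (Sum.inr (k : ι))
    field_simp
  rw [h4] at h3
  exact h3

/-- **The class is determined by the class of the translate.** -/
theorem tg2_u {𝔠 : Ideal (𝓞 L)} (h0 : 𝔠 ≠ ⊥) {z' : GK b L} (hz' : ∀ w : HeightOneSpectrum (𝓞 L), aI w 𝔠 ≠ 1 → z' ∈ Kv b 𝔠 w) {s : b.support → Lˣ} {σ : GK b L} (hσ : Tors s σ)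
    (hs : ∀ w : HeightOneSpectrum (𝓞 L), aI w 𝔠 ≠ 1 → ∀ j, av w (s j : L) = 1) {u u' u₁ u₁' : GK b L}
    (h1 : ∀ w : HeightOneSpectrum (𝓞 L), aI w 𝔠 ≠ 1 → (σ * u * σ⁻¹)⁻¹ * u₁ ∈ Kv b 𝔠 w) (h1' : ∀ w : HeightOneSpectrum (𝓞 L), aI w 𝔠 ≠ 1 → (σ * u' * σ⁻¹)⁻¹ * u₁' ∈ Kv b 𝔠 w)
    (h2 : ∀ w : HeightOneSpectrum (𝓞 L), aI w 𝔠 = 1 → z'⁻¹ * (u⁻¹ * u₁) * z' ∈ Gv b w) (h2' : ∀ w : HeightOneSpectrum (𝓞 L), aI w 𝔠 = 1 → z'⁻¹ * (u'⁻¹ * u₁') * z' ∈ Gv b w)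
    (hl : z'⁻¹ * (u₁⁻¹ * u₁') * z' ∈ G1 b 𝔠) : z'⁻¹ * (u⁻¹ * u') * z' ∈ G1 b 𝔠 := by
  refine F2.r1_G1 h0 fun w => ?_
  by_cases hw : aI w 𝔠 = 1
  · have h3 : z'⁻¹ * (u⁻¹ * u') * z' ∈ Gv b w := by
      have e : z'⁻¹ * (u⁻¹ * u') * z' = (z'⁻¹ * (u⁻¹ * u₁) * z') * (z'⁻¹ * (u₁⁻¹ * u₁') * z') * (z'⁻¹ * (u'⁻¹ * u₁') * z')⁻¹ := by
        group
      rw [e]
      exact F2.Gv_mul (F2.Gv_mul (h2 w hw) (FI.g1_G1_Gv b w h0 hl)) (F2.Gv_inv (h2' w hw))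
    rw [FI.g1_Kv, hw]
    exact (FI.Cg_one_iff (FI.g1_nonarch w)).2 ((FI.g1_Gv b w _).1 h3)
  · have hl' := FI.g1_mem_G1 b w h0 hl
    have hz1 := hz' w hw
    have hσG : σ ∈ Gv b w := tors_Gv hσ (hs w hw)
    have hk : u₁⁻¹ * u₁' ∈ Kv b 𝔠 w := by
      have e : u₁⁻¹ * u₁' = z' * (z'⁻¹ * (u₁⁻¹ * u₁') * z') * z'⁻¹ := by group
      rw [e]
      exact F2.Kv_mul (F2.Kv_mul hz1 hl') (F2.Kv_inv hz1)
    have h3 : u⁻¹ * u' ∈ Kv b 𝔠 w := by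
      have e : u⁻¹ * u' = σ⁻¹ * (((σ * u * σ⁻¹)⁻¹ * u₁) * (u₁⁻¹ * u₁') * ((σ * u' * σ⁻¹)⁻¹ * u₁')⁻¹) * (σ⁻¹)⁻¹ := by group
      rw [e]
      exact F2.Kv_conj (F2.Gv_inv hσG) (F2.Kv_mul (F2.Kv_mul (h1 w hw) hk) (F2.Kv_inv (h1' w hw)))
    exact F2.Kv_mul (F2.Kv_mul (F2.Kv_inv hz1) h3) hz1

end

end Pool.Agent.Lib.L8.QF
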