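import Pool.Agent.Lib.L8.QF.TG1
import Pool.Agent.Lib.L8.QF.TG2
import Pool.Agent.Lib.L8.F2.R10
import Pool.Agent.Lib.L8.F2.R13
import Pool.Agent.Lib.L8.F2.S2

/-!
# QF, TG3 (helper43): the gain of several torus directions over a subgroup `H`

`q_l` (`l ∈ R`) are cocharacters, `σ_x = ∏ q_l(x_l)`, `x_l ∈ K`. If `⟨α_(k_i) - w⁻¹ α_(k_i), q_l⟩ = m δ_il`, `m ≠ 0`, then `#(X_τ / Λ) ≤ C N(𝔫) ^ (ε - |R|) #(L_τ / Λ)`.
-/

namespace Pool.Agent.Lib.L8.QF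

open Matrix NumberField IsDedekindDomain Pool.Agent.Lib.H89N Pool.Agent.Lib.L1S
open Pool.Agent.Lib.L8.FL (av aI Gv Kv Ah TK tv PJ G1 NJ nW wW IsWJ rs)
open Pool.Agent.Lib.L8.FI (Tor Tors Uu Iv Cg fh ch)
open Pool.Agent.Lib.L8.F2 (Ineq)
open scoped ENNReal

noncomputable section

set_option linter.unusedSectionVars false

variable {ι M N : Type} [Fintype ι] [DecidableEq ι] [AddCommGroup M] [Module ℚ M] [AddCommGroup N] [Module ℚ N]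
  {P : RootPairing ι ℚ M N} [P.IsCrystallographic] [P.IsReduced] [P.IsIrreducible] [P.IsRootSystem] {b : P.Base}
  {K L : Type} [Field K] [NumberField K] [Field L] [NumberField L] [Algebra K L]

variable {R : Type} [Fintype R] [DecidableEq R]

/-! ## 1. Cocharacters -/

theorem tg3_zpow_sum {F : Type} [Field F] {a : F} (ha : a ≠ 0) {T : Type} (S : Finset T) (f : T → ℤ) : ∏ j ∈ S, a ^ f j = a ^ ∑ j ∈ S, f j := by
  classical
  induction S using Finset.induction_on with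
  | empty => rw [Finset.prod_empty, Finset.sum_empty, zpow_zero]
  | insert i S hi ih => rw [Finset.prod_insert hi, Finset.sum_insert hi, zpow_add₀ ha, ih]

/-- The coordinates of `∏ q_l(x_l)`. -/
def sq (q : R → b.support → ℤ) (x : R → Lˣ) : b.support → Lˣ := fun j => ∏ l, x l ^ q l j

theorem sq_val (q : R → b.support → ℤ) (x : R → Lˣ) (j : b.support) : ((sq q x j : Lˣ) : L) = ∏ l, (x l : L) ^ q l j := by
  unfold sq
  rw [Units.coe_prod]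
  exact Finset.prod_congr rfl fun l _ => Units.val_zpow_eq_zpow_val _ _

theorem ch_sq (q : R → b.support → ℤ) (x : R → Lˣ) (r : I b) : ch (sq q x) r = ∏ l, (x l : L) ^ (∑ j, q l j * pj b j r) := by
  unfold ch
  have h1 : ∀ j : b.support, ((sq q x j : Lˣ) : L) ^ pj b j r = ∏ l, (x l : L) ^ (q l j * pj b j r) := by
    intro j
    rw [sq_val, ← Finset.prod_zpow]
    exact Finset.prod_congr rfl fun l _ => (_root_.zpow_mul _ _ _).symm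
  rw [Finset.prod_congr rfl fun j _ => h1 j, Finset.prod_comm]
  exact Finset.prod_congr rfl fun l _ => tg3_zpow_sum (x l).ne_zero _ _

theorem sq_unit {v : AbsoluteValue L ℝ} {q : R → b.support → ℤ} {x : R → Lˣ} (hx : ∀ l, v (x l : L) = 1) (j : b.support) : v (sq q x j : L) = 1 := by
  rw [sq_val, map_prod]
  exact Finset.prod_eq_one fun l _ => by rw [map_zpow₀, hx, _root_.one_zpow]

/-- The quotient of the torus parts. -/
theorem sq_ratio {q : R → b.support → ℤ} {r r' : I b} {m : ℤ} {i : R} (hp : ∀ l, ∑ j, q l j * (pj b j r - pj b j r') = if i = l then m else 0) (x x' : R → Lˣ) :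
    (ch (sq q x) r' / ch (sq q x) r) / (ch (sq q x') r' / ch (sq q x') r) = ((x i : L) / (x' i : L)) ^ (-m) := by
  have h1 : ∀ x : R → Lˣ, ch (sq q x) r' / ch (sq q x) r = (x i : L) ^ (-m) := by
    intro x
    rw [ch_sq, ch_sq, ← Finset.prod_div_distrib, Finset.prod_eq_single i]
    · rw [← zpow_sub₀ (x i).ne_zero]
      congr 1
      have h2 := hp i
      rw [if_pos rfl] at h2
      rw [← h2, ← Finset.sum_sub_distrib, ← Finset.sum_neg_distrib]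
      refine Finset.sum_congr rfl fun j _ => ?_
      ring
    · intro l _ hl
      rw [← zpow_sub₀ (x l).ne_zero]
      have h2 := hp l
      rw [if_neg hl.symm] at h2
      have h3 : ∑ j, q l j * pj b j r' - ∑ j, q l j * pj b j r = 0 := by
        rw [← neg_eq_zero, ← h2, ← Finset.sum_sub_distrib, ← Finset.sum_neg_distrib]
        refine Finset.sum_congr rfl fun j _ => ?_
        ring
      rw [h3, zpow_zero]
    · intro h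
      exact absurd (Finset.mem_univ i) h
  rw [h1, h1, div_zpow]

/-! ## 2. The gain -/

/-- The torus elements `∏ q_l(x_l)`, `x_l ∈ K`, normalize `U(L) ∩ H`. -/
def Rq (K : Type) [Field K] [NumberField K] [Algebra K L] (H : Subgroup (GK b L)) (q : R → b.support → ℤ) : Prop :=
  ∀ (x : R → Kˣ) (t : GK b L), Tors (sq q fun l => Units.map (algebraMap K L : K →* L) (x l)) t → Nrm H t

/-- From a congruence of the powers. -/
theorem tg3_pow {v : HeightOneSpectrum (𝓞 K)} {𝔫 : Ideal (𝓞 K)} {m : ℤ} {x x' : K} (hx : av v x = 1) (hx' : av v x' = 1) (h : av v ((x / x') ^ (-m) - 1) ≤ aI v 𝔫) :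
    av v (x ^ m.natAbs - x' ^ m.natAbs) ≤ aI v 𝔫 := by
  have x0 : x ≠ 0 := (av v).ne_zero_iff.1 (by rw [hx]; exact one_ne_zero)
  have x0' : x' ≠ 0 := (av v).ne_zero_iff.1 (by rw [hx']; exact one_ne_zero)
  have p0 : x ^ m.natAbs ≠ 0 := pow_ne_zero _ x0
  have p0' : x' ^ m.natAbs ≠ 0 := pow_ne_zero _ x0'
  rcases Int.natAbs_eq m with hm | hm
  · obtain ⟨n, hn⟩ : ∃ n, n = m.natAbs := ⟨_, rfl⟩
    rw [← hn] at hm p0 p0' ⊢
    rw [hm, _root_.zpow_neg, zpow_natCast, div_pow, inv_div] at h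
    have h6 : x ^ n - x' ^ n = -(x ^ n * (x' ^ n / x ^ n - 1)) := by
      field_simp
      ring
    rw [h6, map_neg_eq_map, map_mul, map_pow, hx, one_pow, one_mul]
    exact h
  · obtain ⟨n, hn⟩ : ∃ n, n = m.natAbs := ⟨_, rfl⟩
    rw [← hn] at hm p0 p0' ⊢
    rw [hm, neg_neg, zpow_natCast, div_pow] at h
    have h6 : x ^ n - x' ^ n = x' ^ n * (x ^ n / x' ^ n - 1) := by
      field_simp
    rw [h6, map_mul, map_pow, hx', one_pow, one_mul]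
    exact h

/-- **The torus symmetrisation** for the subgroup `H` and the directions `q_l`, `l ∈ R`. -/
theorem gain_H {H : Subgroup (GK b L)} (hS : Scl K H) {J : Finset b.support} {Lw : List b.support} {q : R → b.support → ℤ} {k : R → b.support} {m : ℤ} (hm : m ≠ 0) (hq : Rq K H q)
    (hp : ∀ i l, ∑ j, q l j * (pj b j (Sum.inr (k i : ι)) - pj b j (Sum.inr ((wW b Lw)⁻¹ (k i : ι)))) = if i = l then m else 0) {ε : ℝ} (hε : 0 < ε) : ∃ C : ℝ, 0 < C ∧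
    ∀ 𝔫 : Ideal (𝓞 K), 𝔫 ≠ ⊥ → ∀ z z' τ : GK b L, (∀ w : HeightOneSpectrum (𝓞 L), aI w (up L 𝔫) ≠ 1 → z ∈ Kv b (up L 𝔫) w) → (∀ w : HeightOneSpectrum (𝓞 L), aI w (up L 𝔫) ≠ 1 → z' ∈ Kv b (up L 𝔫) w) → τ ∈ TK b L →
    ∀ Λ : Subgroup (GK b L), (∀ l ∈ Λ, (l ∈ NJ b L J ∧ l ∈ H) ∧ z'⁻¹ * l * z' ∈ G1 b (up L 𝔫)) → ∀ A : Finset (GK b L), (∀ u ∈ A, u ∈ F2.Xt b L J Lw (up L 𝔫) z z' τ ∧ u ∈ H) → Ineq Λ A →
    ∃ B : Finset (GK b L), (∀ u ∈ B, u ∈ F2.Lt b L J Lw (up L 𝔫) z z' τ ∧ u ∈ H) ∧ Ineq Λ B ∧ (A.card : ℝ) ≤ C * (Ideal.absNorm 𝔫 : ℝ) ^ (ε - Fintype.card R) * B.card := by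
  classical
  obtain ⟨ρ, hρ⟩ : ∃ ρ : ℕ, ρ = Fintype.card R := ⟨_, rfl⟩
  have hε' : 0 < ε / (ρ + 1) := by positivity
  obtain ⟨c, hc, hcl⟩ := F2.pow_classesm K (m := m.natAbs) (by omega) (ε / (ρ + 1)) hε'
  refine ⟨(c ^ ρ)⁻¹, by positivity, ?_⟩
  intro 𝔫 h0 z z' τ hz hz' hτ Λ hΛ A hA hA2
  have hup : up L 𝔫 ≠ ⊥ := qc_up_bot h0
  obtain ⟨S, hSS, hinj, hcard⟩ := hcl 𝔫 h0
  obtain ⟨S0, hS0, hcS0⟩ : ∃ S0 : Finset (R → 𝓞 K), (∀ x ∈ S0, ∀ l, x l ∈ S) ∧ S0.card = S.card ^ ρ := by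
    refine ⟨Fintype.piFinset fun _ => S, fun x hx l => Fintype.mem_piFinset.1 hx l, ?_⟩
    rw [Fintype.card_piFinset, Finset.prod_const, hρ]
    rfl
  have hmem : ∀ (x : {x // x ∈ S0}) (l : R), x.1 l ∈ S := fun x l => hS0 x.1 x.2 l
  have hx0 : ∀ (x : {x // x ∈ S0}) (l : R), ((x.1 l : 𝓞 K) : K) ≠ 0 := fun x l => by
    have := (hSS _ (hmem x l)).1
    exact_mod_cast this
  obtain ⟨X, hX⟩ : ∃ X : {x // x ∈ S0} → R → Kˣ, ∀ x l, ((X x l : Kˣ) : K) = (x.1 l : 𝓞 K) := ⟨fun x l => Units.mk0 _ (hx0 x l), fun _ _ => rfl⟩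
  have hXu : ∀ (x : {x // x ∈ S0}) (l : R) (v : HeightOneSpectrum (𝓞 K)), aI v 𝔫 ≠ 1 → av v (X x l : K) = 1 := fun x l v hv => by
    rw [hX]
    exact F2.r1_unit h0 hv (hSS _ (hmem x l)).2
  obtain ⟨s, hs⟩ : ∃ s : {x // x ∈ S0} → b.support → Lˣ, ∀ x, s x = sq q fun l => Units.map (algebraMap K L : K →* L) (X x l) := ⟨_, fun _ => rfl⟩
  have hsu : ∀ (x : {x // x ∈ S0}) (w : HeightOneSpectrum (𝓞 L)), aI w (up L 𝔫) ≠ 1 → ∀ j, av w (s x j : L) = 1 := fun x w hw j => by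
    rw [hs]
    refine sq_unit (fun l => ?_) j
    exact tg0_unit h0 (fun v hv => hXu x l v hv) w hw
  have hσex : ∀ x : {x // x ∈ S0}, ∃ t : GK b L, Tors (s x) t := fun x => tors_ex _
  choose σ hσ using hσex
  have hex : ∀ (x : {x // x ∈ S0}) (u : GK b L), ∃ u₁ : GK b L, (u ∈ NJ b L J ∧ u ∈ H) → (u₁ ∈ NJ b L J ∧ u₁ ∈ H) ∧
      (∀ w : HeightOneSpectrum (𝓞 L), aI w (up L 𝔫) ≠ 1 → (σ x * u * (σ x)⁻¹)⁻¹ * u₁ ∈ Kv b (up L 𝔫) w) ∧ ∀ w : HeightOneSpectrum (𝓞 L), aI w (up L 𝔫) = 1 → z'⁻¹ * (u⁻¹ * u₁) * z' ∈ Gv b w := by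
    intro x u
    by_cases hu : u ∈ NJ b L J ∧ u ∈ H
    · obtain ⟨u₁, h1, h2, h3, h4⟩ := lift_H hS J h0 z' hu.1 hu.2 (tors_TK (hσ x)) (hq (X x) (σ x) (by rw [← hs]; exact hσ x))
      exact ⟨u₁, fun _ => ⟨⟨h1, h2⟩, h3, h4⟩⟩
    · exact ⟨1, fun h => absurd h hu⟩
  choose T hT using hex
  obtain ⟨Λf, hΛf⟩ : ∃ Λf : Subgroup (GK b L), ∀ l, l ∈ Λf ↔ (l ∈ NJ b L J ∧ l ∈ H) ∧ z'⁻¹ * l * z' ∈ G1 b (up L 𝔫) := by
    refine ⟨(NJ b L J ⊓ H) ⊓ (G1 b (up L 𝔫)).comap (MulAut.conj z'⁻¹).toMonoidHom, fun l => ?_⟩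
    have e : (MulAut.conj z'⁻¹).toMonoidHom l = z'⁻¹ * l * z' := by
      change z'⁻¹ * l * z'⁻¹⁻¹ = _
      rw [inv_inv]
    rw [Subgroup.mem_inf, Subgroup.mem_comap, e, Subgroup.mem_inf]
  obtain ⟨B, hB, hB2, hBc⟩ := F2.r10_count (Λ := Λ) (Λf := Λf) (fun l hl => (hΛf l).2 (hΛ l hl)) (X := {u | u ∈ F2.Xt b L J Lw (up L 𝔫) z z' τ ∧ u ∈ H}) (Y := {u | u ∈ F2.Lt b L J Lw (up L 𝔫) z z' τ ∧ u ∈ H})
    (fun u hu l hl => ⟨F2.Xt_inv hu.1 ((hΛf l).1 hl).1.1 ((hΛf l).1 hl).2, mul_mem hu.2 ((hΛf l).1 hl).1.2⟩)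
    (fun u hu l hl => ⟨F2.Lt_inv hup hu.1 ((hΛf l).1 hl).1.1 ((hΛf l).1 hl).2, mul_mem hu.2 ((hΛf l).1 hl).1.2⟩) S0.attach T
    (fun x _ u hu => by
      have h1 := hT x u ⟨hu.1.1, hu.2⟩
      exact ⟨tg2_L hup hz hz' hτ (hσ x) (hsu x) hu.1 h1.1.1 h1.2.1 h1.2.2, h1.1.2⟩)
    (by
      intro x _ x' _ u hu u' hu' hl
      have h1 := hT x u ⟨hu.1.1, hu.2⟩
      have h1' := hT x' u' ⟨hu'.1.1, hu'.2⟩
      have h2 : ∀ i : R, x.1 i ^ m.natAbs - x'.1 i ^ m.natAbs ∈ 𝔫 := by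
        intro i
        refine F2.r1_mem h0 fun v hv => ?_
        have h3 : av v (((X x i : K) / (X x' i : K)) ^ (-m) - 1) ≤ aI v 𝔫 := by
          refine tg0_down (L := L) h0 (fun w hw => ?_) v hv
          have h4 := tg2_s hup hz hz' hτ (hσ x) (hσ x') (hsu x) (hsu x') hu.1 hu'.1 h1.2.1 h1'.2.1 ((hΛf _).1 hl).2 (k i) w hw
          rw [hs, hs, sq_ratio (hp i)] at h4
          have e : algebraMap K L (((X x i : K) / (X x' i : K)) ^ (-m) - 1) = ((algebraMap K L (X x i : K)) / (algebraMap K L (X x' i : K))) ^ (-m) - 1 := by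
            rw [map_sub, map_one, map_zpow₀, map_div₀]
          rw [e]
          exact h4
        have h5 := tg3_pow (hXu x i v hv) (hXu x' i v hv) h3
        rw [hX, hX] at h5
        push_cast
        exact h5
      have h3 : x = x' := by
        apply Subtype.ext
        funext i
        by_contra hne
        exact hinj _ (hmem x i) _ (hmem x' i) hne (h2 i)
      subst h3
      refine ⟨rfl, (hΛf _).2 ⟨⟨mul_mem (inv_mem hu.1.1) hu'.1.1, mul_mem (inv_mem hu.2) hu'.2⟩, ?_⟩⟩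
      exact tg2_u hup hz' (hσ x) (hsu x) h1.2.1 h1'.2.1 h1.2.2 h1'.2.2 ((hΛf _).1 hl).2)
    A hA hA2
  refine ⟨B, hB, hB2, ?_⟩
  have hN1 : (1 : ℝ) ≤ (Ideal.absNorm 𝔫 : ℝ) := by
    have h1 : Ideal.absNorm 𝔫 ≠ 0 := fun h => h0 (Ideal.absNorm_eq_zero_iff.1 h)
    exact_mod_cast Nat.one_le_iff_ne_zero.2 h1
  have hN : (0 : ℝ) < (Ideal.absNorm 𝔫 : ℝ) := by linarith
  obtain ⟨Nn, hNn⟩ : ∃ Nn : ℝ, Nn = (Ideal.absNorm 𝔫 : ℝ) := ⟨_, rfl⟩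
  rw [← hNn] at hN hN1 hcard ⊢
  have h5 : c ^ ρ * Nn ^ ((ρ : ℝ) - ε) ≤ (S0.card : ℝ) := by
    rw [hcS0]
    push_cast
    have h6 : (c * Nn ^ (1 - ε / (ρ + 1))) ^ ρ ≤ (S.card : ℝ) ^ ρ := pow_le_pow_left₀ (by positivity) hcard ρ
    refine le_trans ?_ h6
    rw [mul_pow, ← Real.rpow_natCast (Nn ^ (1 - ε / (ρ + 1))), ← Real.rpow_mul hN.le]
    refine mul_le_mul_of_nonneg_left (Real.rpow_le_rpow_of_exponent_le hN1 ?_) (by positivity)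
    have h7 : ε / (ρ + 1) * ρ ≤ ε := by
      rw [div_mul_eq_mul_div, div_le_iff₀ (by positivity)]
      nlinarith
    nlinarith
  have h8 : Nn ^ (ε - (ρ : ℝ)) * Nn ^ ((ρ : ℝ) - ε) = 1 := by
    rw [← Real.rpow_add hN]
    have e : ε - (ρ : ℝ) + ((ρ : ℝ) - ε) = 0 := by ring
    rw [e, Real.rpow_zero]
  rw [← hρ, hBc, Finset.card_attach]
  push_cast
  calc (A.card : ℝ) = (c ^ ρ)⁻¹ * Nn ^ (ε - (ρ : ℝ)) * (c ^ ρ * Nn ^ ((ρ : ℝ) - ε) * A.card) := by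
        have e : (c ^ ρ)⁻¹ * Nn ^ (ε - (ρ : ℝ)) * (c ^ ρ * Nn ^ ((ρ : ℝ) - ε) * A.card) = ((c ^ ρ)⁻¹ * c ^ ρ) * (Nn ^ (ε - (ρ : ℝ)) * Nn ^ ((ρ : ℝ) - ε)) * A.card := by ring
        rw [e, h8, inv_mul_cancel₀ (by positivity), one_mul, one_mul]
    _ ≤ (c ^ ρ)⁻¹ * Nn ^ (ε - (ρ : ℝ)) * ((S0.card : ℝ) * A.card) := by
        refine mul_le_mul_of_nonneg_left ?_ (by positivity)
        exact mul_le_mul_of_nonneg_right h5 (Nat.cast_nonneg _)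

/-! ## 3. In the form of sums over classes -/

variable (K) in
/-- **The bound of the torus part** over `H`. -/
def KapG (H : Subgroup (GK b L)) (J : Finset b.support) (Lw : List b.support) (κ ε : ℝ) : Prop :=
  ∃ C : ℝ, 0 < C ∧ ∀ 𝔫 : Ideal (𝓞 K), 𝔫 ≠ ⊥ → ∀ z : GK b L, (∀ w : HeightOneSpectrum (𝓞 L), aI w (up L 𝔫) ≠ 1 → z ∈ Kv b (up L 𝔫) w) → ∀ Λ : Subgroup (GK b L), Λ ≤ NJ b L J ⊓ H → (∀ l ∈ Λ, z⁻¹ * l * z ∈ G1 b (up L 𝔫)) →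
    ∀ τ ∈ TK b L, rs (NJ b L J ⊓ H) Λ ((F2.Xt b L J Lw (up L 𝔫) z z τ).indicator 1) ≤ ENNReal.ofReal (C * (Ideal.absNorm 𝔫 : ℝ) ^ (ε - κ)) * rs (NJ b L J ⊓ H) Λ ((F2.Lt b L J Lw (up L 𝔫) z z τ).indicator 1)

theorem tg3_inter {G : Type} [Group G] (A Λ : Subgroup G) (X : Set G) : rs A Λ (X.indicator 1) = rs A Λ ((X ∩ A).indicator (1 : G → ℝ≥0∞)) := by
  classical
  rw [F2.rs_eq, F2.rs_eq]
  refine tsum_congr fun c => ?_
  by_cases h : F2.ou Λ c ∈ A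
  · rw [if_pos h, if_pos h]
    by_cases h2 : F2.ou Λ c ∈ X
    · rw [Set.indicator_of_mem h2, Set.indicator_of_mem (show F2.ou Λ c ∈ X ∩ A from ⟨h2, h⟩)]
    · rw [Set.indicator_of_notMem h2, Set.indicator_of_notMem fun h3 => h2 h3.1]
  · rw [if_neg h, if_neg h]

/-- **The gain** of the directions `q_l`, `l ∈ R`. -/
theorem kapG_of {H : Subgroup (GK b L)} (hS : Scl K H) {J : Finset b.support} {Lw : List b.support} {q : R → b.support → ℤ} {k : R → b.support} {m : ℤ} (hm : m ≠ 0) (hq : Rq K H q)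
    (hp : ∀ i l, ∑ j, q l j * (pj b j (Sum.inr (k i : ι)) - pj b j (Sum.inr ((wW b Lw)⁻¹ (k i : ι)))) = if i = l then m else 0) {ε : ℝ} (hε : 0 < ε) : KapG K H J Lw (Fintype.card R) ε := by
  obtain ⟨C, hC, h⟩ := gain_H hS (J := J) hm hq hp hε
  refine ⟨C, hC, fun 𝔫 h0 z hz Λ hΛ1 hΛ2 τ hτ => ?_⟩
  have hup : up L 𝔫 ≠ ⊥ := qc_up_bot h0
  rw [tg3_inter, tg3_inter _ _ (F2.Lt b L J Lw (up L 𝔫) z z τ)]
  refine F2.rs_of_fin (A := NJ b L J ⊓ H) (Λ := Λ) (Y := F2.Lt b L J Lw (up L 𝔫) z z τ ∩ (NJ b L J ⊓ H : Subgroup (GK b L))) (fun u hu l hl => ?_) (fun u hu => hu.2) fun F hF hF2 => ?_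
  · exact ⟨F2.Lt_inv hup hu.1 (hΛ1 hl).1 (hΛ2 l hl), mul_mem hu.2 (hΛ1 hl)⟩
  obtain ⟨B, hB, hB2, hB3⟩ := h 𝔫 h0 z z τ hz hz hτ Λ (fun l hl => ⟨hΛ1 hl, hΛ2 l hl⟩) F (fun u hu => ⟨(hF u hu).1, (hF u hu).2.2⟩) hF2
  exact ⟨B, fun u hu => ⟨(hB u hu).1, (hB u hu).1.1, (hB u hu).2⟩, hB2, hB3⟩

end

end Pool.Agent.Lib.L8.QF
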