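import Pool.Agent.Lib.L8.QF.TG3

/-!
# QF, TG4 (helper43): the gain of the torus for a family of cocharacters: determinants and ranks

`kapG_det`, `kapG_li`, `kapG_rank`: the gain is the rank of `1 - w` on the span of the cocharacters `q_l`.
-/

namespace Pool.Agent.Lib.L8.QF

open Matrix NumberField IsDedekindDomain Pool.Agent.Lib.H89N Pool.Agent.Lib.L1S
open Pool.Agent.Lib.L8.FL (av aI Gv Kv Ah TK tv PJ G1 NJ nW wW IsWJ rs)
open Pool.Agent.Lib.L8.FI (Tor Tors Uu Iv Cg fh ch)

noncomputable section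

set_option linter.unusedSectionVars false

/-! ## 1. Minors -/

/-- A matrix with independent rows has a nonzero minor. -/
theorem tg4_minor {ρ : ℕ} {n : Type} [Fintype n] (A : Matrix (Fin ρ) n ℚ) (h : LinearIndependent ℚ A.row) : ∃ k : Fin ρ → n, (A.submatrix id k).det ≠ 0 := by
  have h1 : A.rank = ρ := by
    rw [h.rank_matrix, Fintype.card_fin]
  rw [Matrix.rank_eq_finrank_span_cols] at h1
  obtain ⟨f, hf, -, hf2⟩ := Submodule.exists_fun_fin_finrank_span_eq ℚ (Set.range A.col)
  choose k hk using hf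
  obtain ⟨c, hc⟩ : ∃ c : Fin ρ → Fin (Module.finrank ℚ (Submodule.span ℚ (Set.range A.col))), Function.Injective c := ⟨Fin.cast h1.symm, Fin.cast_injective _⟩
  refine ⟨k ∘ c, ?_⟩
  have h2 : LinearIndependent ℚ (f ∘ c) := hf2.comp c hc
  have h3 : (A.submatrix id (k ∘ c)).col = f ∘ c := by
    funext i
    have h4 := hk (c i)
    show (fun l => A l (k (c i))) = f (c i)
    rw [← h4]
    rfl
  have h4 : IsUnit (A.submatrix id (k ∘ c)) := by
    rw [← Matrix.linearIndependent_cols_iff_isUnit, h3]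
    exact h2
  exact ((Matrix.isUnit_iff_isUnit_det _).1 h4).ne_zero

variable {ι M N : Type} [Fintype ι] [DecidableEq ι] [AddCommGroup M] [Module ℚ M] [AddCommGroup N] [Module ℚ N]
  {P : RootPairing ι ℚ M N} [P.IsCrystallographic] [P.IsReduced] [P.IsIrreducible] [P.IsRootSystem] {b : P.Base}
  {K L : Type} [Field K] [NumberField K] [Field L] [NumberField L] [Algebra K L]

variable {R R' : Type} [Fintype R] [DecidableEq R] [Fintype R'] [DecidableEq R']

/-! ## 2. Linear combinations of cocharacters -/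

theorem tg4_zpow_sum {G : Type} [CommGroup G] (a : G) {T : Type} (S : Finset T) (f : T → ℤ) : ∏ j ∈ S, a ^ f j = a ^ ∑ j ∈ S, f j := by
  classical
  induction S using Finset.induction_on with
  | empty => rw [Finset.prod_empty, Finset.sum_empty, zpow_zero]
  | insert i S hi ih => rw [Finset.prod_insert hi, Finset.sum_insert hi, _root_.zpow_add, ih]

theorem sq_lin (q : R → b.support → ℤ) (a : R' → R → ℤ) (x : R' → Lˣ) : sq (fun l j => ∑ r, a l r * q r j) x = sq q fun r => ∏ l, x l ^ a l r := by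
  funext j
  unfold sq
  have h1 : ∀ l : R', x l ^ (∑ r, a l r * q r j) = ∏ r, (x l ^ a l r) ^ q r j := by
    intro l
    rw [← tg4_zpow_sum]
    exact Finset.prod_congr rfl fun r _ => _root_.zpow_mul _ _ _
  rw [Finset.prod_congr rfl fun l _ => h1 l, Finset.prod_comm]
  refine Finset.prod_congr rfl fun r _ => ?_
  rw [Finset.prod_zpow]

theorem Rq.lin {H : Subgroup (GK b L)} {q : R → b.support → ℤ} (hq : Rq K H q) (a : R' → R → ℤ) : Rq K H fun (l : R') j => ∑ r, a l r * q r j := by
  intro x t ht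
  refine hq (fun r => ∏ l, x l ^ a l r) t ?_
  have e : (fun r => Units.map (algebraMap K L : K →* L) (∏ l, x l ^ a l r)) = fun r => ∏ l, (Units.map (algebraMap K L : K →* L) (x l)) ^ a l r := by
    funext r
    rw [map_prod]
    exact Finset.prod_congr rfl fun l _ => map_zpow _ _ _
  rw [e, ← sq_lin]
  exact ht

theorem Rq.sub {H : Subgroup (GK b L)} {q : R → b.support → ℤ} (hq : Rq K H q) (c : R' → R) : Rq K H fun l => q (c l) := by
  have h := hq.lin fun (l : R') r => if r = c l then 1 else 0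
  have e : (fun (l : R') (j : b.support) => ∑ r, (if r = c l then (1 : ℤ) else 0) * q r j) = fun l => q (c l) := by
    funext l j
    rw [Finset.sum_eq_single (c l)]
    · rw [if_pos rfl, one_mul]
    · intro r _ hr
      rw [if_neg hr, zero_mul]
    · intro h
      exact absurd (Finset.mem_univ _) h
  rw [e] at h
  exact h

/-! ## 3. The gain -/

/-- `⟨α_k - w⁻¹ α_k, q⟩`. -/
def pq (b : P.Base) (w : Equiv.Perm ι) (q : b.support → ℤ) (k : b.support) : ℤ := ∑ j, q j * (pj b j (Sum.inr (k : ι)) - pj b j (Sum.inr (w⁻¹ (k : ι))))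

theorem kapG_det {H : Subgroup (GK b L)} (hS : Scl K H) {J : Finset b.support} {Lw : List b.support} {q : R → b.support → ℤ} {k : R → b.support} (hq : Rq K H q)
    (hdet : (Matrix.of fun i l : R => pq b (wW b Lw) (q l) (k i)).det ≠ 0) {ε : ℝ} (hε : 0 < ε) : KapG K H J Lw (Fintype.card R) ε := by
  refine kapG_of hS (k := k) hdet (hq.lin fun l r => (Matrix.of fun i l : R => pq b (wW b Lw) (q l) (k i)).adjugate r l) ?_ hε
  intro i l
  obtain ⟨A, hA⟩ : ∃ A : Matrix R R ℤ, A = Matrix.of fun i l : R => pq b (wW b Lw) (q l) (k i) := ⟨_, rfl⟩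
  rw [← hA]
  have h1 : (A * A.adjugate) i l = if i = l then A.det else 0 := by
    rw [Matrix.mul_adjugate, Matrix.smul_apply, Matrix.one_apply, smul_eq_mul, mul_ite, mul_one, mul_zero]
  rw [← h1, Matrix.mul_apply]
  have h2 : ∀ r, A i r * A.adjugate r l = ∑ j, A.adjugate r l * q r j * (pj b j (Sum.inr (k i : ι)) - pj b j (Sum.inr ((wW b Lw)⁻¹ (k i : ι)))) := fun r => by
    have h3 : A i r = ∑ j, q r j * (pj b j (Sum.inr (k i : ι)) - pj b j (Sum.inr ((wW b Lw)⁻¹ (k i : ι)))) := by
      rw [hA]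
      rfl
    rw [h3, Finset.sum_mul]
    refine Finset.sum_congr rfl fun j _ => ?_
    ring
  rw [Finset.sum_congr rfl fun r _ => h2 r, Finset.sum_comm]
  refine Finset.sum_congr rfl fun j _ => ?_
  rw [Finset.sum_mul]

theorem kapG_li {H : Subgroup (GK b L)} (hS : Scl K H) {J : Finset b.support} {Lw : List b.support} {ρ : ℕ} {q : Fin ρ → b.support → ℤ} (hq : Rq K H q)
    (hli : LinearIndependent ℚ fun (l : Fin ρ) (k : b.support) => (pq b (wW b Lw) (q l) k : ℚ)) {ε : ℝ} (hε : 0 < ε) : KapG K H J Lw ρ ε := by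
  obtain ⟨k, hk⟩ := tg4_minor (Matrix.of fun (l : Fin ρ) (k : b.support) => (pq b (wW b Lw) (q l) k : ℚ)) hli
  have h := kapG_det hS (J := J) (Lw := Lw) (k := k) hq ?_ hε
  · rw [Fintype.card_fin] at h
    exact h
  · intro h0
    apply hk
    have e : ((Matrix.of fun (l : Fin ρ) (k : b.support) => (pq b (wW b Lw) (q l) k : ℚ)).submatrix id k) = ((Matrix.of fun i l : Fin ρ => pq b (wW b Lw) (q l) (k i)).map (Int.castRingHom ℚ)).transpose := by
      ext i l
      rfl
    rw [e, Matrix.det_transpose, ← RingHom.mapMatrix_apply, ← RingHom.map_det, h0, map_zero]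

/-- The rank of `1 - w` on the span of the `q_l`. -/
def rkq (b : P.Base) (w : Equiv.Perm ι) (q : R → b.support → ℤ) : ℕ := Module.finrank ℚ (Submodule.span ℚ (Set.range fun (l : R) (k : b.support) => (pq b w (q l) k : ℚ)))

/-- **The gain is the rank of `1 - w`.** -/
theorem kapG_rank {H : Subgroup (GK b L)} (hS : Scl K H) {J : Finset b.support} {Lw : List b.support} {q : R → b.support → ℤ} (hq : Rq K H q) {ε : ℝ} (hε : 0 < ε) : KapG K H J Lw (rkq b (wW b Lw) q) ε := by
  obtain ⟨f, hf, -, hf2⟩ := Submodule.exists_fun_fin_finrank_span_eq ℚ (Set.range fun (l : R) (k : b.support) => (pq b (wW b Lw) (q l) k : ℚ))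
  choose c hc using hf
  refine kapG_li hS (hq.sub c) ?_ hε
  have e : f = fun l (k : b.support) => (pq b (wW b Lw) (q (c l)) k : ℚ) := funext fun l => (hc l).symm
  rw [e] at hf2
  exact hf2

/-- Lower bounds of the rank. -/
theorem rkq_ge {w : Equiv.Perm ι} {q : R → b.support → ℤ} (a : R' → R → ℚ) (h : LinearIndependent ℚ fun (l : R') (k : b.support) => ∑ r, a l r * (pq b w (q r) k : ℚ)) : Fintype.card R' ≤ rkq b w q := by
  unfold rkq
  have hmem : ∀ l : R', (fun k : b.support => ∑ r, a l r * (pq b w (q r) k : ℚ)) ∈ Submodule.span ℚ (Set.range fun (l : R) (k : b.support) => (pq b w (q l) k : ℚ)) := by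
    intro l
    have e : (fun k : b.support => ∑ r, a l r * (pq b w (q r) k : ℚ)) = ∑ r, a l r • fun k : b.support => (pq b w (q r) k : ℚ) := by
      funext k
      rw [Finset.sum_apply]
      rfl
    rw [e]
    exact sum_mem fun r _ => Submodule.smul_mem _ _ (Submodule.subset_span ⟨r, rfl⟩)
  have h2 : LinearIndependent ℚ fun l : R' => (⟨_, hmem l⟩ : Submodule.span ℚ (Set.range fun (l : R) (k : b.support) => (pq b w (q l) k : ℚ))) := by
    refine LinearIndependent.of_comp (Submodule.subtype _) ?_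
    exact h
  exact h2.fintype_card_le_finrank

end

end Pool.Agent.Lib.L8.QF
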