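import Pool.Agent.Lib.L8.QF.TG5
import Pool.Agent.Lib.L8.FL.BR
import Pool.Agent.Lib.L8.FU.W7

/-!
# QF, TG6 (helper43): the gain of the torus in the form of `FL/BR` and `FU/W7`
-/

namespace Pool.Agent.Lib.L8.QF

open Matrix NumberField IsDedekindDomain Pool.Agent.Lib.H89N Pool.Agent.Lib.L1S
open Pool.Agent.Lib.L8.FL (av aI Gv Kv Ah TK tv PJ G1 NJ nW wW IsWJ rs)
open Pool.Agent.Lib.L8.FI (Tor Tors Uu Iv Cg fh ch)

noncomputable section

set_option linter.unusedSectionVars false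

variable {ι M N : Type} [Fintype ι] [DecidableEq ι] [AddCommGroup M] [Module ℚ M] [AddCommGroup N] [Module ℚ N]
  {P : RootPairing ι ℚ M N} [P.IsCrystallographic] [P.IsReduced] [P.IsIrreducible] [P.IsRootSystem] {b : P.Base}
  {K L : Type} [Field K] [NumberField K] [Field L] [NumberField L] [Algebra K L]

/-- **The split group**: a minor of size `r` of `1 - w⁻¹` gives the gain `r`. -/
theorem kapG_KR {J : Finset b.support} {Lw : List b.support} {r : ℕ} (h : FL.KR b (wW b Lw) r) {ε : ℝ} (hε : 0 < ε) : KapG K (⊤ : Subgroup (GK b L)) J Lw r ε := by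
  obtain ⟨g, f, hd⟩ := h
  have h1 := kapG_det (K := K) (L := L) (scl_top (b := b)) (J := J) (Lw := Lw) (q := fun (l : Fin r) (j : b.support) => if j = f l then (1 : ℤ) else 0) (k := g) (rq_top _) ?_ hε
  · rw [Fintype.card_fin] at h1
    exact h1
  · intro h0
    apply hd
    rw [← h0]
    congr 1
    ext a c
    show FL.pK b (wW b Lw) (g a) (f c) = ∑ j, (if j = f c then (1 : ℤ) else 0) * (pj b j (Sum.inr (g a : ι)) - pj b j (Sum.inr ((wW b Lw)⁻¹ (g a : ι))))
    rw [Finset.sum_eq_single (f c)]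
    · rw [if_pos rfl, one_mul]
      rfl
    · intro j _ hj
      rw [if_neg hj, zero_mul]
    · intro h
      exact absurd (Finset.mem_univ _) h

/-- A minor of size `r` of `1 - w⁻¹` on the orbit sums of the coroots. -/
def KRO (Q : QS b K L) (w : Equiv.Perm ι) (r : ℕ) : Prop :=
  ∃ g f : Fin r → b.support, (Matrix.of fun a c => ∑ j ∈ orb Q (f c), (pj b j (Sum.inr (g a : ι)) - pj b j (Sum.inr (w⁻¹ (g a : ι))))).det ≠ 0

/-- **The quasi-split group**: a minor of size `r` gives the gain `r`. -/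
theorem kapG_KRO {Q : QS b K L} {J : Finset b.support} {Lw : List b.support} {r : ℕ} (h : KRO Q (wW b Lw) r) {ε : ℝ} (hε : 0 < ε) : KapG K (HQ Q) J Lw r ε := by
  obtain ⟨g, f, hd⟩ := h
  have h1 := kapG_HQ_det Q (J := J) (Lw := Lw) (q := fun (l : Fin r) => qo Q (f l)) (k := g) (fun l s i => qo_inv Q (f l) s i) ?_ hε
  · rw [Fintype.card_fin] at h1
    exact h1
  · intro h0
    apply hd
    rw [← h0]
    congr 1
    ext a c
    show ∑ j ∈ orb Q (f c), (pj b j (Sum.inr (g a : ι)) - pj b j (Sum.inr ((wW b Lw)⁻¹ (g a : ι)))) = pq b (wW b Lw) (qo Q (f c)) (g a)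
    unfold pq qo
    rw [← Finset.sum_filter_add_sum_filter_not Finset.univ (fun j => j ∈ orb Q (f c))]
    have e1 : ∑ j ∈ Finset.univ.filter (fun j => ¬j ∈ orb Q (f c)), (if j ∈ orb Q (f c) then (1 : ℤ) else 0) * (pj b j (Sum.inr (g a : ι)) - pj b j (Sum.inr ((wW b Lw)⁻¹ (g a : ι)))) = 0 := by
      refine Finset.sum_eq_zero fun j hj => ?_
      rw [if_neg (Finset.mem_filter.1 hj).2, zero_mul]
    rw [e1, add_zero]
    refine Finset.sum_congr ?_ fun j hj => ?_
    · ext j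
      rw [Finset.mem_filter]
      exact ⟨fun h => ⟨Finset.mem_univ _, h⟩, fun h => h.2⟩
    · rw [if_pos (Finset.mem_filter.1 hj).2, one_mul]

/-- `up L 𝔫 = 𝔫` for `K = L`. -/
theorem up_self (𝔫 : Ideal (𝓞 L)) : up L 𝔫 = 𝔫 := by
  unfold up
  refine (congrArg (fun f : 𝓞 L →+* 𝓞 L => Ideal.map f 𝔫) ?_).trans (Ideal.map_id 𝔫)
  ext x
  rfl

/-- The form of `FU/W7`. -/
theorem kapH_of {J : Finset b.support} {Lw : List b.support} {κ : ℤ} {ε : ℝ} (h : KapG L (⊤ : Subgroup (GK b L)) J Lw κ ε) : FU.KapH b L J Lw κ ε := by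
  obtain ⟨C, hC, h1⟩ := h
  refine ⟨C, hC, fun 𝔫 h0 z hz Λ hΛ τ hτ => ?_⟩
  have h2 := h1 𝔫 h0 z (by rw [up_self]; exact hz) Λ (fun l hl => ⟨(hΛ l hl).1, trivial⟩) (fun l hl => by rw [up_self]; exact (hΛ l hl).2) τ hτ
  rw [up_self, inf_top_eq] at h2
  exact h2

theorem kapH_KR (b : P.Base) (L : Type) [Field L] [NumberField L] {J : Finset b.support} {Lw : List b.support} {r : ℕ} (h : FL.KR b (wW b Lw) r) {ε : ℝ} (hε : 0 < ε) : FU.KapH b L J Lw r ε := by
  have h1 := kapG_KR (K := L) (L := L) (J := J) h hε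
  exact kapH_of (κ := (r : ℤ)) (by
    rw [Int.cast_natCast]
    exact h1)

/-- **The count (C3) for the split group** from the word clause of `FL/BR`. -/
theorem countH_wordR (b : P.Base) (L : Type) [Field L] [NumberField L] {nu : Equiv.Perm ι → ℝ} (h : FL.WordR b nu) : FL.CountH b L nu := by
  refine FU.countH_kap b L fun w hw ε hε hε2 => ?_
  obtain ⟨Lw, r, h1, h2, h3, h4⟩ := h w hw
  refine ⟨Lw, r, h1, h2, fun J _ => kapH_KR b L (by rw [h2]; exact h3) hε, ?_⟩
  have h5 := h4 (1 + ε) (by linarith)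
  push_cast
  exact h5

/-- The count with the exponents `ν_w = gain + rank (1 - w)`. -/
theorem countH_nuB (b : P.Base) (L : Type) [Field L] [NumberField L] : FL.CountH b L (FL.nuB b) := countH_wordR b L (FL.wordR_nuB b)

end

end Pool.Agent.Lib.L8.QF
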