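import Pool.Agent.Lib.L8.QF.T1Q
import Pool.Agent.Lib.L8.QF.U8Q
import Pool.Agent.Lib.L8.FU.U9

/-!
# QF, U9Q (helper76): the sum over the torus part for a subgroup `H` of `G(L)` and the power `d` (port of FU/U9)

The finite part (`hfin`) and the archimedean part (`harch`) are hypotheses.
-/

namespace Pool.Agent.Lib.L8.QF

set_option linter.unusedSectionVars false

open MeasureTheory Matrix NumberField IsDedekindDomain Pool.Agent.Lib.H89N Pool.Agent.Lib.H33W Pool.Agent.Lib.H67G Pool.Agent.Lib.L1S Pool.Agent.Lib.L8 Pool.Agent.Lib.L8.FL Pool.Agent.Lib.L8.FU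
open scoped ENNReal

noncomputable section

variable {ι M N : Type} [Fintype ι] [DecidableEq ι] [AddCommGroup M] [Module ℚ M] [AddCommGroup N] [Module ℚ N]
  {P : RootPairing ι ℚ M N} [P.IsCrystallographic] [P.IsReduced] [P.IsIrreducible] [P.IsRootSystem]

variable {b : P.Base} {L : Type} [Field L] [NumberField L] {H : Subgroup (GK b L)}

/-- `X_τ` in `H`: all the elements are in `H`. -/
def XtH (H : Subgroup (GK b L)) (J : Finset b.support) (Lw : List b.support) (𝔫 : Ideal (𝓞 L)) (z z' τ : GK b L) : Set (GK b L) :=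
  {u | u ∈ NJ b L J ∧ u ∈ H ∧ ∃ u' ∈ HU b L, u' ∈ H ∧ ∃ γ ∈ G1 b 𝔫, γ ∈ H ∧ u' * τ * nW b L Lw * u = z * γ * z'⁻¹}

theorem XtH_sub {J : Finset b.support} {Lw : List b.support} {𝔫 : Ideal (𝓞 L)} {z z' τ : GK b L} : XtH H J Lw 𝔫 z z' τ ⊆ F2.Xt b L J Lw 𝔫 z z' τ :=
  fun _ ⟨h1, _, u', h3, _, γ, h5, _, h7⟩ => ⟨h1, u', h3, γ, h5, h7⟩

theorem xx_subH {J : Finset b.support} {Lw : List b.support} {n : H} (hn : n.1 = nW b L Lw) {𝔫 : Ideal (𝓞 L)} {Γ₁ : Subgroup H} (hG : ∀ γ ∈ Γ₁, γ.1 ∈ G1 b 𝔫) {g : H} {τ : TH H} {u : HUH H} (hu : u ∈ XX J n Γ₁ g g τ) :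
    u.1.1 ∈ XtH H J Lw 𝔫 (g⁻¹).1 (g⁻¹).1 τ.1.1 := by
  obtain ⟨h1, u', hu', h2⟩ := hu
  refine ⟨h1, u.1.2, u'.1, hu', u'.2, (g * (u' * τ.1 * n * u.1) * g⁻¹).1, hG _ h2, Subtype.prop _, ?_⟩
  rw [← hn]
  show u'.1 * τ.1.1 * n.1 * u.1.1 = g.1⁻¹ * (g.1 * (u'.1 * τ.1.1 * n.1 * u.1.1) * g.1⁻¹) * (g.1⁻¹)⁻¹
  group

theorem xtH_right {J : Finset b.support} {Lw : List b.support} {𝔫 : Ideal (𝓞 L)} {z τ : GK b L} (hz : z ∈ H) {Λ : Subgroup (GK b L)} (h1 : Λ ≤ NJ b L J) (h3 : Λ ≤ H) (h2 : ∀ l ∈ Λ, z⁻¹ * l * z ∈ G1 b 𝔫) :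
    ∀ u ∈ XtH H J Lw 𝔫 z z τ, ∀ l ∈ Λ, u * l ∈ XtH H J Lw 𝔫 z z τ := by
  rintro u ⟨hu, huH, u', hu', hu'H, γ, hγ, hγH, e⟩ l hl
  refine ⟨mul_mem hu (h1 hl), mul_mem huH (h3 hl), u', hu', hu'H, γ * (z⁻¹ * l * z), mul_mem hγ (h2 l hl), mul_mem hγH (mul_mem (mul_mem (inv_mem hz) (h3 hl)) hz), ?_⟩
  rw [← mul_assoc, e]
  group

/-- **The sum over the torus part.** -/
theorem u9Q (d : ℝ) (e e' : b.support → ℝ) {J : Finset b.support} {Lw : List b.support} (hJ : IsWJ b J (wW b Lw)) (A₀ : ℝ)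
    {ν0 : Measure (HRt H)} (h0 : RH (NoH H J) ν0)
    (hp : ∀ u : HUH H, u.1.1 ∈ NJ b L J → MeasurePreserving (fun t : UHR H => u • t) (ν0.comap (Subtype.val : UHR H → HRt H)) (ν0.comap (Subtype.val : UHR H → HRt H)))
    (hD₀ : ∃ D₀ : Set (UHR H), H33W.SF (NO H J) D₀ ∧ (ν0.comap (Subtype.val : UHR H → HRt H)) D₀ ≠ 0) {n : H} (hn : n.1 = nW b L Lw) {C5 : ℝ} (hC5 : 0 < C5)
    (harch : ∀ y : HRt H, ∫⁻ u, ENNReal.ofReal (Fe e (embH H n * (u * y)) ^ d) ∂ν0 ≤ ENNReal.ofReal (C5 * Fe e' y ^ d)) :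
    ∃ C : ℝ, 0 < C ∧ ∀ 𝔫 : Ideal (𝓞 L), 𝔫 ≠ ⊥ → ∀ Γ₁ : Subgroup H, (∀ γ ∈ Γ₁, γ.1 ∈ G1 b 𝔫) → ∀ g : H, CCH H (cjG Γ₁ g) →
      ∀ S : Set (HRt H), MeasurableSet S → (∀ y ∈ S, ∀ y' ∈ S, ∀ w i, |Hw w y i - Hw w y' i| ≤ A₀) →
      ∀ Λ : Subgroup (HUH H), (∀ l, l ∈ Λ ↔ (l : H) ∈ cjG Γ₁ g ∧ l.1.1 ∈ NJ b L J) →
      ∀ κ : ℝ≥0∞, (∀ τ : H, τ.1 ∈ TK b L → rs (NJ b L J ⊓ H) (Λ.map (inU H)) ((XtH H J Lw 𝔫 (g⁻¹).1 (g⁻¹).1 τ.1).indicator 1) ≤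
        κ * rs (NJ b L J ⊓ H) (Λ.map (inU H)) ((F2.Lt b L J Lw 𝔫 (g⁻¹).1 (g⁻¹).1 τ.1).indicator 1)) →
      ∀ X : ℝ, 0 ≤ X → rs (NJ b L J ⊓ H) (Λ.map (inU H)) (fun u => open scoped Classical in if ∀ k, Chi b 𝔫 k (nW b L Lw * u * (g⁻¹).1) then ENNReal.ofReal (fe b e (nW b L Lw * u * (g⁻¹).1) ^ d) else 0) ≤
        ENNReal.ofReal (X * fe b e' (g⁻¹).1 ^ d) * FL.gi (NJ b L J ⊓ H ⊓ G1 b ⊤) (Λ.map (inU H)) →
      ∀ D₂ : Set (UHR H), H33W.SF Λ D₂ → ∀ y : HRt H,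
      ∑' τ : TH H, nC Λ (XX J n Γ₁ g g τ) * ∫⁻ v, S.indicator (fun z => ENNReal.ofReal (Fe e z ^ d)) (embH H (τ.1 * n) * ((v : HRt H) * y)) ∂(ν0.comap (Subtype.val : UHR H → HRt H)) ≤
        κ * ENNReal.ofReal (C * X * (fe b e' (g⁻¹).1 ^ d / fe b e (g⁻¹).1 ^ d)) * ENNReal.ofReal (Fe e' y ^ d) * (ν0.comap (Subtype.val : UHR H → HRt H)) D₂ := by
  classical
  obtain ⟨M, hM, htau⟩ := tau_sumQ b L (max A₀ 0) (le_max_right _ _)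
  obtain ⟨D₀, hD₀, hD₀'⟩ := hD₀
  set νV := ν0.comap (Subtype.val : UHR H → HRt H) with hνV
  obtain ⟨c₀, hc₀, hc₀'⟩ : ∃ c₀ : ℝ, 0 < c₀ ∧ ENNReal.ofReal c₀ ≤ νV D₀ := by
    have h1 : min (νV D₀) 1 ≠ ⊤ := ne_top_of_le_ne_top ENNReal.one_ne_top (min_le_right _ _)
    have h2 : 0 < min (νV D₀) 1 := lt_min (pos_iff_ne_zero.2 hD₀') zero_lt_one
    refine ⟨(min (νV D₀) 1).toReal, ENNReal.toReal_pos h2.ne' h1, ?_⟩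
    rw [ENNReal.ofReal_toReal h1]
    exact min_le_left _ _
  refine ⟨M * C5 / c₀, by positivity, fun 𝔫 h𝔫 Γ₁ hG g hcc S hSm hS Λ hΛ κ hκ X hX hfin D₂ hD₂ y => ?_⟩
  set z : GK b L := (g⁻¹).1 with hz
  set Λ' := Λ.map (inU H) with hΛ'
  have hΛ1 : Λ' ≤ NJ b L J := by
    rintro _ ⟨l, hl, rfl⟩
    exact ((hΛ l).1 hl).2
  have hΛ3 : Λ' ≤ H := by
    rintro _ ⟨l, _, rfl⟩
    exact l.1.2
  have hΛ2 : ∀ l ∈ Λ', z⁻¹ * l * z ∈ G1 b 𝔫 := by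
    rintro _ ⟨l, hl, rfl⟩
    have h1 : (g * l.1 * g⁻¹).1 ∈ G1 b 𝔫 := hG _ ((hΛ l).1 hl).1
    have h2 : z⁻¹ * (inU H l) * z = (g * l.1 * g⁻¹).1 := by
      show (g.1⁻¹)⁻¹ * l.1.1 * g.1⁻¹ = g.1 * l.1.1 * g.1⁻¹
      rw [inv_inv]
    rw [h2]
    exact h1
  have hcomm : Subgroup.Commensurable Λ' (NJ b L J ⊓ H ⊓ G1 b ⊤) := comm_NOQ h𝔫 hG hcc hJ hΛ
  -- the comparison of the summands
  have hIT : ∀ τ : TH H, ∫⁻ v, S.indicator (fun z => ENNReal.ofReal (Fe e z ^ d)) (embH H (τ.1 * n) * ((v : HRt H) * y)) ∂νV ≤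
      ∫⁻ v, S.indicator (fun y => ENNReal.ofReal (Fe e y ^ d)) (embH H τ.1 * (embH H n * v * y)) ∂ν0 := by
    intro τ
    have h1 : ∫⁻ v, S.indicator (fun z => ENNReal.ofReal (Fe e z ^ d)) (embH H (τ.1 * n) * ((v : HRt H) * y)) ∂νV =
        ∫⁻ v, S.indicator (fun y => ENNReal.ofReal (Fe e y ^ d)) (embH H (τ.1 * n) * (v * y)) ∂ν0 :=
      lint_comap h0 fun v => S.indicator (fun y => ENNReal.ofReal (Fe e y ^ d)) (embH H (τ.1 * n) * (v * y))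
    rw [h1]
    refine le_of_eq (lintegral_congr fun v => ?_)
    rw [map_mul]
    simp only [mul_assoc]
  have h1 : ∑' τ : TH H, nC Λ (XX J n Γ₁ g g τ) * ∫⁻ v, S.indicator (fun z => ENNReal.ofReal (Fe e z ^ d)) (embH H (τ.1 * n) * ((v : HRt H) * y)) ∂νV ≤
      ∑' τ : {τ : H // τ.1 ∈ TK b L}, rs (NJ b L J ⊓ H) Λ' ((XtH H J Lw 𝔫 z z τ.1.1).indicator 1) * ∫⁻ v, S.indicator (fun y => ENNReal.ofReal (Fe e y ^ d)) (embH H τ.1 * (embH H n * v * y)) ∂ν0 := by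
    refine ENNReal.tsum_le_tsum fun τ => ?_
    have h2 : nC Λ (XX J n Γ₁ g g τ) ≤ rs (NJ b L J ⊓ H) Λ' ((XtH H J Lw 𝔫 z z τ.1.1).indicator 1) :=
      nC_rsQ (fun l hl => ((hΛ l).1 hl).2) (fun u hu => ⟨hu.1, xx_subH hn hG hu⟩) (xtH_right (g⁻¹).2 hΛ1 hΛ3 hΛ2)
    exact mul_le_mul' h2 (hIT τ)
  refine h1.trans ?_
  refine (htau H S hSm (fun y hy y' hy' w i => (hS y hy y' hy' w i).trans (le_max_left _ _)) d e J Lw 𝔫 z z (NJ b L J ⊓ H) Λ' (fun τ => XtH H J Lw 𝔫 z z τ) κ hκ ν0 (embH H n) y).trans ?_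
  have h4 := harch y
  have h4' : ∫⁻ v, ENNReal.ofReal (Fe e (embH H n * v * y) ^ d) ∂ν0 ≤ ENNReal.ofReal (C5 * Fe e' y ^ d) := by
    refine (le_of_eq (lintegral_congr fun v => ?_)).trans h4
    rw [mul_assoc]
  have h6 : νV D₂ = FL.gi (NJ b L J ⊓ H ⊓ G1 b ⊤) Λ' * νV D₀ := covolQ hp (fun l hl => ((hΛ l).1 hl).2) hcomm hD₂ hD₀
  rw [h6]
  have hf1 : 0 < fe b e z ^ d := Real.rpow_pos_of_pos (FI.fe_pos b e z) _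
  have hf2 : 0 < fe b e' z ^ d := Real.rpow_pos_of_pos (FI.fe_pos b _ z) _
  have hF : 0 < Fe e' y ^ d := Real.rpow_pos_of_pos (Fe_pos _ _) _
  set gI := FL.gi (NJ b L J ⊓ H ⊓ G1 b ⊤) Λ' with hgI
  set F1 := fe b e z ^ d with hF1
  set F2' := fe b e' z ^ d with hF2
  set F3 := Fe e' y ^ d with hF3
  calc κ * (ENNReal.ofReal M * ENNReal.ofReal (F1⁻¹) * rs (NJ b L J ⊓ H) Λ' (fun c => open scoped Classical in if ∀ k, Chi b 𝔫 k (nW b L Lw * c * z) then ENNReal.ofReal (fe b e (nW b L Lw * c * z) ^ d) else 0) *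
        ∫⁻ v, ENNReal.ofReal (Fe e (embH H n * v * y) ^ d) ∂ν0)
      ≤ κ * (ENNReal.ofReal M * ENNReal.ofReal (F1⁻¹) * (ENNReal.ofReal (X * F2') * gI) * ENNReal.ofReal (C5 * F3)) := by gcongr
    _ = κ * (ENNReal.ofReal M * ENNReal.ofReal (F1⁻¹) * ENNReal.ofReal (X * F2') * ENNReal.ofReal (C5 * F3)) * gI := by ring
    _ = κ * (ENNReal.ofReal (M * C5 / c₀ * X * (F2' / F1)) * ENNReal.ofReal F3 * ENNReal.ofReal c₀) * gI := by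
        congr 2
        rw [← ENNReal.ofReal_mul (by positivity), ← ENNReal.ofReal_mul (by positivity), ← ENNReal.ofReal_mul (by positivity), ← ENNReal.ofReal_mul (by positivity), ← ENNReal.ofReal_mul (by positivity)]
        congr 1
        field_simp
    _ = κ * ENNReal.ofReal (M * C5 / c₀ * X * (F2' / F1)) * ENNReal.ofReal F3 * (gI * ENNReal.ofReal c₀) := by ring
    _ ≤ _ := by gcongr

end

end Pool.Agent.Lib.L8.QF
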