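import Pool.Agent.Lib.L8.QF.H1
import Pool.Agent.Lib.L8.QF.U9Q
import Pool.Agent.Lib.L8.FU.K1

/-!
# QF, W5Q (helper76): the count for one `w_J`, for a subgroup `H` of `G(L)` with `HypH H J`
-/

namespace Pool.Agent.Lib.L8.QF

set_option linter.unusedSectionVars false

open MeasureTheory Matrix NumberField IsDedekindDomain Pool.Agent.Lib.H89N Pool.Agent.Lib.H33W Pool.Agent.Lib.H67G Pool.Agent.Lib.L1S Pool.Agent.Lib.L8 Pool.Agent.Lib.L8.FL Pool.Agent.Lib.L8.FU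
open scoped ENNReal

noncomputable section

variable {ι M N : Type} [Fintype ι] [DecidableEq ι] [AddCommGroup M] [Module ℚ M] [AddCommGroup N] [Module ℚ N]
  {P : RootPairing ι ℚ M N} [P.IsCrystallographic] [P.IsReduced] [P.IsIrreducible] [P.IsRootSystem]

variable {b : P.Base} {L : Type} [Field L] [NumberField L] {H : Subgroup (GK b L)} {J : Finset b.support}

/-- The existence of the measures of the semidirect product. -/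
def HMsr (h : HypH H J) (ν0 : Measure (HRt H)) : Prop :=
  ∀ (ν : Measure (UHR H)) [ν.IsHaarMeasure], ∃ νM : Measure (UHR H), Msr (kUH H) h.piU h.qU ν (ν0.comap (Subtype.val : UHR H → HRt H)) νM

/-- The fundamental domains of the subgroups of `N_J(K)` have positive measure. -/
theorem sf_posQ (h : HypH H J) {ν0 : Measure (HRt H)} (h0 : RH (NoH H J) ν0) (hM : HMsr h ν0) {Λ : Subgroup (HUH H)} (hΛ : Λ ≤ h.qU.ker) {D : Set (UHR H)} (hD : H33W.SF Λ D) :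
    (ν0.comap (Subtype.val : UHR H → HRt H)) D ≠ 0 := by
  intro hz
  have := th_count H
  obtain ⟨νM, hM⟩ := hM (Measure.haar : Measure (UHR H))
  have hne : ν0.comap (Subtype.val : UHR H → HRt H) ≠ 0 := by
    intro h1
    have h2 := comap_map h0
    rw [h1, Measure.map_zero] at h2
    exact h0.ne h2.symm
  obtain ⟨μ, hμ⟩ : ∃ μ : Measure (UHR H), μ = ν0.comap (Subtype.val : UHR H → HRt H) := ⟨_, rfl⟩
  rw [← hμ] at hM hne hz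
  apply hne
  have h1 : (Set.univ : Set (UHR H)) ⊆ ⋃ γ : Λ, (fun t : UHR H => (γ : HUH H) • t) ⁻¹' D := by
    intro t _
    obtain ⟨γ, hγ, -⟩ := hD.fd t
    exact Set.mem_iUnion.2 ⟨γ, hγ⟩
  have h2 : μ (⋃ γ : Λ, (fun t : UHR H => (γ : HUH H) • t) ⁻¹' D) = 0 := by
    refine measure_iUnion_null fun γ => ?_
    rw [(hM.lV γ.1 (hΛ γ.2)).measure_preimage hD.meas.nullMeasurableSet]
    exact hz
  exact Measure.measure_univ_eq_zero.1 (measure_mono_null h1 h2)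

/-- **(K2)** a fundamental domain of `N_J(O)` of positive measure. -/
theorem exists_D0Q (h : HypH H J) {ν0 : Measure (HRt H)} (h0 : RH (NoH H J) ν0) (hM : HMsr h ν0) :
    ∃ D₀ : Set (UHR H), H33W.SF (NO H J) D₀ ∧ (ν0.comap (Subtype.val : UHR H → HRt H)) D₀ ≠ 0 := by
  have := th_count H
  obtain ⟨D, hD⟩ := (dsc_G1 (H := H)).sfU
  obtain ⟨D₀, h1⟩ := sf_sub (T := UHR H) (G := ((G1 b (⊤ : Ideal (𝓞 L))).subgroupOf H).subgroupOf (HUH H)) (G' := NO H J) (fun u hu => (mem_NO.1 hu).2) (fun g _ => measurable_const_mul (kUH H g)) hD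
  exact ⟨D₀, h1, sf_posQ h h0 hM (fun u hu => (h.qU_ker u).2 (mem_NO.1 hu).1) h1⟩

/-- **The count for one `w_J`.** The finite part and the archimedean part are hypotheses. -/
theorem count_wG (h : HypH H J) {w : Equiv.Perm ι} (hJ : IsWJ b J w) {Lw : List b.support} (hwL : wW b Lw = w) {n : H} (hn : n.1 = nW b L Lw) (d : ℝ) (e e' : b.support → ℝ) (A : ℝ)
    {ν0 : Measure (HRt H)} (h0 : RH (NoH H J) ν0) (hM : HMsr h ν0) {C5 : ℝ} (hC5 : 0 < C5)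
    (harch : ∀ y : HRt H, ∫⁻ u, ENNReal.ofReal (Fe e (embH H n * (u * y)) ^ d) ∂ν0 ≤ ENNReal.ofReal (C5 * Fe e' y ^ d)) :
    ∃ C : ℝ, 0 < C ∧ ∀ 𝔫 : Ideal (𝓞 L), 𝔫 ≠ ⊥ → ∀ Γ₁ : Subgroup H, (∀ γ ∈ Γ₁, γ.1 ∈ G1 b 𝔫) → Dsc H Γ₁ → ∀ g : H, CCH H (cjG Γ₁ g) → (∀ w : HeightOneSpectrum (𝓞 L), aI w 𝔫 ≠ 1 → (g⁻¹).1 ∈ Kv b 𝔫 w) →
    ∀ X : ℝ, 0 ≤ X → (∀ Λ : Subgroup (GK b L), Λ ≤ NJ b L J ⊓ H → (∀ l ∈ Λ, ((g⁻¹).1)⁻¹ * l * (g⁻¹).1 ∈ G1 b 𝔫) → Λ.relIndex (NJ b L J ⊓ H ⊓ G1 b ⊤) ≠ 0 → (NJ b L J ⊓ H ⊓ G1 b ⊤).relIndex Λ ≠ 0 →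
      rs (NJ b L J ⊓ H) Λ (fun u => open scoped Classical in if ∀ k, Chi b 𝔫 k (nW b L Lw * u * (g⁻¹).1) then ENNReal.ofReal (fe b e (nW b L Lw * u * (g⁻¹).1) ^ d) else 0) ≤
        ENNReal.ofReal (X * fe b e' (g⁻¹).1 ^ d) * FL.gi (NJ b L J ⊓ H ⊓ G1 b ⊤) Λ) →
    ∀ κ : ℝ≥0∞, (∀ Λ : Subgroup (GK b L), Λ ≤ NJ b L J ⊓ H → (∀ l ∈ Λ, ((g⁻¹).1)⁻¹ * l * (g⁻¹).1 ∈ G1 b 𝔫) → ∀ τ : H, τ.1 ∈ TK b L →
      rs (NJ b L J ⊓ H) Λ ((XtH H J Lw 𝔫 (g⁻¹).1 (g⁻¹).1 τ.1).indicator 1) ≤ κ * rs (NJ b L J ⊓ H) Λ ((F2.Lt b L J Lw 𝔫 (g⁻¹).1 (g⁻¹).1 τ.1).indicator 1)) →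
    ∀ (x : HRt H) (Cs : Set (HRt H)), (∀ y ∈ ST H x Cs, ∀ y' ∈ ST H x Cs, ∀ w i, |Hw w y i - Hw w y' i| ≤ A) → MeasurableSet (ST H x Cs) →
    ∀ (ν : Measure (UHR H)) [ν.IsHaarMeasure] (D₁ : Set (UHR H)), H33W.SF ((cjG Γ₁ g).subgroupOf (HUH H)) D₁ → ∀ y : HRt H,
      ∫⁻ t in D₁, ce (cjG Γ₁ g ⊓ HUH H) ((cjG Γ₁ g : Set H) ∩ {γ | γ.1 ∈ cell b L w})
        (fun γ => (ST H x Cs).indicator (fun z => ENNReal.ofReal (Fe e z ^ d)) (embH H γ * ((t : HRt H) * y))) ∂ν ≤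
      κ * ENNReal.ofReal (C * X * (fe b e' (g⁻¹).1 ^ d / fe b e (g⁻¹).1 ^ d)) * ENNReal.ofReal (Fe e' y ^ d) * ν D₁ := by
  have hJ' : IsWJ b J (wW b Lw) := by rw [hwL]; exact hJ
  have hker : ∀ u : HUH H, u.1.1 ∈ NJ b L J → MeasurePreserving (fun t : UHR H => u • t) (ν0.comap (Subtype.val : UHR H → HRt H)) (ν0.comap (Subtype.val : UHR H → HRt H)) := by
    intro u hu
    obtain ⟨νM, hM'⟩ := hM (Measure.haar : Measure (UHR H))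
    exact hM'.lV u ((h.qU_ker u).2 hu)
  obtain ⟨C, hC, h9⟩ := u9Q d e e' hJ' A h0 hker (exists_D0Q h h0 hM) hn hC5 harch
  refine ⟨C, hC, ?_⟩
  intro 𝔫 h𝔫 Γ₁ hG hD g hcc hg X hX hfin κ hκ x Cs hA mS ν _ D₁ sD y
  obtain ⟨νM, hM'⟩ := hM ν
  obtain ⟨D'', sV⟩ := h.sf_ker hD g
  obtain ⟨v0, vt⟩ := h.vV hG g hcc hM' sD sV
  have mF : Measurable ((ST H x Cs).indicator fun z => ENNReal.ofReal (Fe e z ^ d)) := (ENNReal.measurable_ofReal.comp ((Fe_cont e).measurable.pow_const d)).indicator mS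
  have iF : ∀ u ∈ UHR H, ∀ z, (ST H x Cs).indicator (fun z => ENNReal.ofReal (Fe e z ^ d)) (u * z) = (ST H x Cs).indicator (fun z => ENNReal.ofReal (Fe e z ^ d)) z := fun u hu z =>
    ind_left x Cs (fun u hu z => by rw [Fe_U e hu]) hu z
  have h1 := h.count_pairs hJ hwL hn hG g mF iF hM' sD sV v0 vt y
  refine h1.trans ?_
  set Λ : Subgroup (HUH H) := (cjG Γ₁ g).subgroupOf (HUH H) ⊓ h.qU.ker with hΛ
  have hΛ0 : ∀ l, l ∈ Λ ↔ (l : H) ∈ cjG Γ₁ g ∧ l.1.1 ∈ NJ b L J := by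
    intro l
    rw [hΛ, Subgroup.mem_inf, h.qU_ker]
    exact Iff.rfl
  have hΛ1 : Λ.map (inU H) ≤ NJ b L J ⊓ H := by
    rintro _ ⟨l, hl, rfl⟩
    exact ⟨((hΛ0 l).1 hl).2, l.1.2⟩
  have hΛ2 : ∀ l ∈ Λ.map (inU H), ((g⁻¹).1)⁻¹ * l * (g⁻¹).1 ∈ G1 b 𝔫 := by
    rintro _ ⟨l, hl, rfl⟩
    have h2 := hG _ ((hΛ0 l).1 hl).1
    have e1 : ((g⁻¹ : H).1)⁻¹ * (inU H l) * (g⁻¹).1 = (g * l.1 * g⁻¹).1 := by
      rw [inU_apply]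
      show (g.1⁻¹)⁻¹ * l.1.1 * g.1⁻¹ = g.1 * l.1.1 * g.1⁻¹
      rw [inv_inv]
    rw [e1]
    exact h2
  have hcomm : Subgroup.Commensurable (Λ.map (inU H)) (NJ b L J ⊓ H ⊓ G1 b ⊤) := comm_NOQ h𝔫 hG hcc hJ' hΛ0
  have h2 := h9 𝔫 h𝔫 Γ₁ hG g hcc (ST H x Cs) mS hA Λ hΛ0 κ (hκ _ hΛ1 hΛ2) X hX (hfin _ hΛ1 hΛ2 hcomm.1 hcomm.2) D'' sV y
  refine (mul_le_mul' (ENNReal.div_le_div_right h2 _) le_rfl).trans ?_
  rw [ENNReal.mul_div_cancel_right v0 vt]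

/-- `κ = 1`. -/
theorem kap_one {Lw : List b.support} {𝔫 : Ideal (𝓞 L)} (h𝔫 : 𝔫 ≠ ⊥) {z : GK b L} (hz : ∀ v : HeightOneSpectrum (𝓞 L), aI v 𝔫 ≠ 1 → z ∈ Kv b 𝔫 v) (N' Λ : Subgroup (GK b L)) {τ : GK b L} (hτ : τ ∈ TK b L) :
    rs N' Λ ((XtH H J Lw 𝔫 z z τ).indicator 1) ≤ 1 * rs N' Λ ((F2.Lt b L J Lw 𝔫 z z τ).indicator 1) := by
  rw [one_mul]
  exact rs_mono _ _ fun x _ => Set.indicator_le_indicator_of_subset (XtH_sub.trans (Xt_sub_Lt h𝔫 hz hτ)) (fun _ => zero_le) x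

end

end Pool.Agent.Lib.L8.QF
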